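import Pool.Agent.Lib.MP_dec75e_mp.L.Dfs

/-! Semi-inner products: Cauchy-Schwarz, projections. -/

open MeasureTheory Finset Function
open scoped Real

noncomputable section

namespace Pool.Agent.BoseLHY

open Pool.Agent.BoseTail

variable {V : Type} [AddCommGroup V] [Module ℝ V] {β : V →ₗ[ℝ] V →ₗ[ℝ] ℝ}

theorem PSD.nq_nonneg (h : PSD β) (f : V) : 0 ≤ nq β f := h.nonneg f

theorem PSD.nq_add (h : PSD β) (f g : V) : nq β (f + g) = nq β f + 2 * β f g + nq β g := by
  simp only [nq, map_add, LinearMap.add_apply]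
  rw [h.symm g f]
  ring

theorem PSD.nq_sub (h : PSD β) (f g : V) : nq β (f - g) = nq β f - 2 * β f g + nq β g := by
  simp only [nq, map_sub, LinearMap.sub_apply]
  rw [h.symm g f]
  ring

theorem nq_smul (c : ℝ) (f : V) : nq β (c • f) = c ^ 2 * nq β f := by
  simp only [nq, map_smul, LinearMap.smul_apply, smul_eq_mul]
  ring

theorem nq_zero : nq β (0 : V) = 0 := by
  simp [nq]

theorem PSD.sq_le (h : PSD β) (f g : V) : β f g ^ 2 ≤ nq β f * nq β g := by
  have h1 : ∀ t : ℝ, 0 ≤ nq β g * (t * t) + 2 * β f g * t + nq β f := by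
    intro t
    have h2 := h.nq_nonneg (f + t • g)
    rw [h.nq_add, nq_smul, map_smul, smul_eq_mul] at h2
    linarith
  have h3 := discrim_le_zero h1
  unfold discrim at h3
  linarith

theorem PSD.cs (h : PSD β) (f g : V) : |β f g| ≤ √(nq β f) * √(nq β g) := by
  rw [← Real.sqrt_mul (h.nq_nonneg f)]
  exact Real.abs_le_sqrt (h.sq_le f g)

theorem PSD.abs_le (h : PSD β) (f g : V) : |β f g| ≤ (nq β f + nq β g) / 2 := by
  have h1 := h.nq_nonneg (f + g)
  have h2 := h.nq_nonneg (f - g)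
  rw [h.nq_add] at h1
  rw [h.nq_sub] at h2
  exact _root_.abs_le.2 ⟨by linarith, by linarith⟩

theorem PSD.cs_sum (h : PSD β) {κ : Type} (s : Finset κ) (f g : κ → V) :
    ∑ k ∈ s, |β (f k) (g k)| ≤ √(∑ k ∈ s, nq β (f k)) * √(∑ k ∈ s, nq β (g k)) := by
  exact (sum_le_sum fun k _ => h.cs (f k) (g k)).trans
    (Real.sum_sqrt_mul_sqrt_le s (fun k => h.nq_nonneg (f k)) fun k => h.nq_nonneg (g k))

theorem PSD.nq_add_le (h : PSD β) (f g : V) {θ : ℝ} (hθ : 0 < θ) :
    nq β (f + g) ≤ (1 + θ) * nq β f + (1 + 1 / θ) * nq β g := by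
  have h1 := h.nq_nonneg (θ • f - g)
  rw [h.nq_sub, nq_smul, map_smul, LinearMap.smul_apply, smul_eq_mul] at h1
  have h2 : θ * nq β f + 1 / θ * nq β g - 2 * β f g =
      (θ ^ 2 * nq β f - 2 * (θ * β f g) + nq β g) / θ := by
    field_simp
    ring
  have h3 := div_nonneg h1 hθ.le
  rw [h.nq_add]
  linarith

theorem PSD.nq_add_le_two (h : PSD β) (f g : V) : nq β (f + g) ≤ 2 * nq β f + 2 * nq β g := by
  have h2 := h.nq_nonneg (f - g)
  rw [h.nq_sub] at h2
  rw [h.nq_add]
  linarith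

theorem PSD.nq_sum (h : PSD β) {κ : Type} [DecidableEq κ] (s : Finset κ) (f : κ → V) :
    nq β (∑ k ∈ s, f k) = ∑ k ∈ s, nq β (f k) + ∑ k ∈ s, ∑ l ∈ s.erase k, β (f k) (f l) := by
  have h1 : nq β (∑ k ∈ s, f k) = ∑ k ∈ s, ∑ l ∈ s, β (f k) (f l) := by
    simp only [nq, map_sum, LinearMap.sum_apply]
    exact sum_congr rfl fun k _ => sum_congr rfl fun l _ => h.symm _ _
  rw [h1, ← sum_add_distrib]
  exact sum_congr rfl fun k hk => (add_sum_erase s (fun l => β (f k) (f l)) hk).symm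

theorem PSD.nq_sum_le (h : PSD β) {κ : Type} (s : Finset κ) (f : κ → V) :
    nq β (∑ k ∈ s, f k) ≤ s.card * ∑ k ∈ s, nq β (f k) := by
  have h1 : nq β (∑ k ∈ s, f k) = ∑ k ∈ s, ∑ l ∈ s, β (f k) (f l) := by
    simp only [nq, map_sum, LinearMap.sum_apply]
    exact sum_congr rfl fun k _ => sum_congr rfl fun l _ => h.symm _ _
  have h2 : ∑ k ∈ s, ∑ l ∈ s, β (f k) (f l) ≤
      ∑ k ∈ s, ∑ l ∈ s, (nq β (f k) + nq β (f l)) / 2 :=
    sum_le_sum fun k _ => sum_le_sum fun l _ => (le_abs_self _).trans (h.abs_le _ _)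
  rw [h1]
  refine h2.trans (le_of_eq ?_)
  simp only [← sum_div, sum_add_distrib, sum_const, nsmul_eq_mul, ← mul_sum]
  ring

/-- Completing the square. -/
theorem PSD.compl (h : PSD β) {τ : ℝ} (hτ : 0 < τ) (l : ℝ) (f g : V) :
    -(τ * nq β f) - l ^ 2 / (4 * τ) * nq β g ≤ l * β f g := by
  have h1 := h.nq_nonneg (τ • f + (l / 2) • g)
  rw [h.nq_add, nq_smul, nq_smul] at h1
  simp only [map_smul, LinearMap.smul_apply, smul_eq_mul] at h1
  have h2 : l * β f g + τ * nq β f + l ^ 2 / (4 * τ) * nq β g =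
      (τ ^ 2 * nq β f + 2 * (l / 2 * (τ * β f g)) + (l / 2) ^ 2 * nq β g) / τ := by
    field_simp
    ring
  have h3 := div_nonneg h1 hτ.le
  linarith

theorem Proj.nq_eq {A : Module.End ℝ V} (hA : Proj β A) (f : V) : nq β (A f) = β f (A f) := by
  rw [nq, hA.sa, hA.idem]

theorem Proj.pyth (h : PSD β) {A : Module.End ℝ V} (hA : Proj β A) (f : V) :
    nq β f = nq β (A f) + nq β (f - A f) := by
  rw [h.nq_sub, hA.nq_eq]
  ring

theorem Proj.nq_le (h : PSD β) {A : Module.End ℝ V} (hA : Proj β A) (f : V) :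
    nq β (A f) ≤ nq β f := by
  have h1 := hA.pyth h f
  have h2 := h.nq_nonneg (f - A f)
  linarith

theorem Proj.one_sub {A : Module.End ℝ V} (hA : Proj β A) : Proj β (1 - A) := by
  refine ⟨fun f g => ?_, fun f => ?_⟩
  · simp only [LinearMap.sub_apply, Module.End.one_apply, map_sub, hA.sa f g]
  · simp only [LinearMap.sub_apply, Module.End.one_apply, map_sub, hA.idem, sub_self, sub_zero]

/-- The product of two commuting projections. -/
theorem Proj.mul {A A' : Module.End ℝ V} (hA : Proj β A) (hA' : Proj β A')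
    (hc : ∀ f, A (A' f) = A' (A f)) : Proj β (A * A') := by
  refine ⟨fun f g => ?_, fun f => ?_⟩
  · rw [Module.End.mul_apply, Module.End.mul_apply, hA.sa, hA'.sa, hc]
  · simp only [Module.End.mul_apply]
    rw [← hc, hA.idem, hA'.idem]

/-- The sum of two orthogonal projections. -/
theorem Proj.add {A A' : Module.End ℝ V} (hA : Proj β A) (hA' : Proj β A')
    (h1 : ∀ f, A (A' f) = 0) (h2 : ∀ f, A' (A f) = 0) : Proj β (A + A') := by
  refine ⟨fun f g => ?_, fun f => ?_⟩
  · simp only [LinearMap.add_apply, map_add, hA.sa f g, hA'.sa f g]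
  · simp only [LinearMap.add_apply, map_add, hA.idem, hA'.idem, h1, h2, add_zero, zero_add]

theorem SA.add {A A' : Module.End ℝ V} (hA : SA β A) (hA' : SA β A') : SA β (A + A') := by
  intro f g
  simp only [LinearMap.add_apply, map_add, hA f g, hA' f g]

theorem SA.sub {A A' : Module.End ℝ V} (hA : SA β A) (hA' : SA β A') : SA β (A - A') := by
  intro f g
  simp only [LinearMap.sub_apply, map_sub, hA f g, hA' f g]

theorem SA.smul {A : Module.End ℝ V} (hA : SA β A) (c : ℝ) : SA β (c • A) := by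
  intro f g
  simp only [LinearMap.smul_apply, map_smul, hA f g]

theorem SA.one : SA β (1 : Module.End ℝ V) := by
  exact fun _ _ => rfl

theorem SA.sum {κ : Type} {s : Finset κ} {A : κ → Module.End ℝ V} (hA : ∀ k ∈ s, SA β (A k)) :
    SA β (∑ k ∈ s, A k) := by
  intro f g
  simp only [LinearMap.sum_apply, map_sum]
  exact sum_congr rfl fun k hk => hA k hk f g

/-- The form `β (f, W g)` of a nonnegative self-adjoint operator. -/
theorem PSD.of_op (h : PSD β) {W : Module.End ℝ V} (hW : SA β W) (h0 : ∀ f, 0 ≤ β f (W f)) :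
    PSD (β.compl₂ W) := by
  refine ⟨fun f g => ?_, fun f => h0 f⟩
  rw [LinearMap.compl₂_apply, LinearMap.compl₂_apply, ← hW, h.symm]

theorem Fam.subset {ι : Type} {A : ι → Module.End ℝ V} {S S' : Finset ι} (h : Fam β A S)
    (hS : S' ⊆ S) : Fam β A S' := by
  exact ⟨fun i hi => h.proj i (hS hi), fun i hi j hj => h.comm i (hS hi) j (hS hj)⟩

end Pool.Agent.BoseLHY
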