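import Pool.Agent.Lib.MP_dec75e_mp.L.Bx

/-! A priori bound on the change of a low energy state under the shift of one particle. -/

open MeasureTheory Finset Function
open scoped Real

noncomputable section

namespace Pool.Agent.BoseLHY

open Pool.Agent.BoseTail

theorem integral_ball3_chain {r : ℝ} (hr : 0 ≤ r) : ∫ u, (ball3 r).1 u = (2 * r) ^ 3 := by
  have h1 : (ball3 r).1 = (Metric.closedBall (0 : R3) r).indicator fun _ => (1 : ℝ) := by
    funext u
    rw [ball3_apply]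
    by_cases h : ‖u‖ ≤ r <;> simp [h]
  rw [h1, integral_indicator measurableSet_closedBall]
  simp only [integral_const, smul_eq_mul, mul_one, MeasurableSet.univ, measureReal_restrict_apply,
    Set.univ_inter]
  rw [Measure.real, Real.volume_pi_closedBall _ hr, ENNReal.toReal_ofReal (by positivity)]
  simp

theorem near_chain {d : R3 → ℝ} (hd : BM d) (h0 : ∀ z, 0 ≤ d z) (hneg : ∀ z, d (-z) = d z)
    (hadd : ∀ z z', d (z + z') ≤ d z + d z') {r : ℝ} (hr : 0 < r) {z : R3} (hz : ‖z‖ ≤ r) :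
    d z ^ 2 ≤ 4 * ((r ^ 3)⁻¹ * ∫ u, (ball3 r).1 u * d u ^ 2) := by
  set h : R3 → ℝ := fun u => (ball3 r).1 u * d u ^ 2 with hh
  have hi : Integrable h := by
    refine Supp.integrable (r := r) ((bmOf (ball3 r)).mul (hd.pow 2)) fun u hu => ?_
    simp only [hh, supp_ball3 r u hu, zero_mul]
  have hn : ∀ u, 0 ≤ h u := fun u => by
    simp only [hh, ball3_apply]
    split_ifs <;> positivity
  set a : R3 := (1 / 2 : ℝ) • z with ha
  have han : ‖a‖ ≤ r / 2 := by
    rw [ha, norm_smul, Real.norm_eq_abs, abs_of_pos (by norm_num : (0 : ℝ) < 1 / 2)]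
    linarith
  have hpt : ∀ u, (ball3 (r / 2)).1 u * d z ^ 2 ≤ 2 * h (u + a) + 2 * h (u + -a) := fun u => by
    rw [ball3_apply]
    split_ifs with hu
    · have h1 : ‖u + a‖ ≤ r := (norm_add_le _ _).trans (by linarith)
      have h2 : ‖u + -a‖ ≤ r := (norm_add_le _ _).trans (by rw [norm_neg]; linarith)
      have h3 : z = (u + a) + -(u + -a) := by
        have : z = a + a := by rw [ha, ← add_smul]; norm_num
        rw [this]; abel
      have h4 : d z ≤ d (u + a) + d (u + -a) := by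
        conv_lhs => rw [h3]
        rw [← hneg (u + -a)]
        exact hadd _ _
      simp only [hh, ball3_apply, if_pos h1, if_pos h2, one_mul]
      nlinarith [h0 z, h0 (u + a), h0 (u + -a), sq_nonneg (d (u + a) - d (u + -a))]
    · have := hn (u + a)
      have := hn (u + -a)
      linarith
  have hb : Integrable (ball3 (r / 2)).1 :=
    Supp.integrable (bmOf (ball3 (r / 2))) (supp_ball3 _)
  have hI := integral_mono (hb.mul_const (d z ^ 2))
    (((hi.comp_add_right a).const_mul 2).add ((hi.comp_add_right (-a)).const_mul 2)) hpt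
  rw [integral_mul_const, integral_ball3_chain (by positivity)] at hI
  simp only [Pi.add_apply] at hI
  rw [integral_add ((hi.comp_add_right a).const_mul 2) ((hi.comp_add_right (-a)).const_mul 2),
    integral_const_mul, integral_const_mul, integral_add_right_eq_self h a,
    integral_add_right_eq_self h (-a)] at hI
  have h3 : 0 < r ^ 3 := by positivity
  have h5 : (2 * (r / 2)) ^ 3 = r ^ 3 := by ring
  rw [h5] at hI
  rw [← mul_assoc, mul_comm 4, mul_assoc, le_inv_mul_iff₀ h3]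
  linarith

theorem nsmul_chain {d : R3 → ℝ} (hadd : ∀ z z', d (z + z') ≤ d z + d z') (w : R3) (k : ℕ) :
    d (((k : ℝ) + 1) • w) ≤ ((k : ℝ) + 1) * d w := by
  induction k with
  | zero => simp
  | succ k ih =>
    have h1 : (((k + 1 : ℕ) : ℝ) + 1) • w = ((k : ℝ) + 1) • w + w := by
      push_cast
      rw [add_smul ((k : ℝ) + 1) 1 w, one_smul]
    rw [h1]
    have := hadd (((k : ℝ) + 1) • w) w
    push_cast
    linarith

/-- For `‖z‖ ≤ r`: `d z ≤ d (z/2 + u) + d (z/2 - u)`, averaged over `‖u‖ ≤ r / 2`; in general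
`d z ≤ j d (z / j)` with `j = ⌈‖z‖ / r⌉`. -/
theorem chain {d : R3 → ℝ} (hd : BM d) (h0 : ∀ z, 0 ≤ d z) (hneg : ∀ z, d (-z) = d z)
    (hadd : ∀ z z', d (z + z') ≤ d z + d z') {r : ℝ} (hr : 0 < r) (z : R3) :
    d z ^ 2 ≤ 4 * (1 + ‖z‖ / r) ^ 2 * ((r ^ 3)⁻¹ * ∫ u, (ball3 r).1 u * d u ^ 2) := by
  set k : ℕ := ⌊‖z‖ / r⌋₊ with hk
  have hq : 0 ≤ ‖z‖ / r := by positivity
  have hk1 : (k : ℝ) ≤ ‖z‖ / r := Nat.floor_le hq
  have hk2 : ‖z‖ / r < (k : ℝ) + 1 := Nat.lt_floor_add_one _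
  have hj : 0 < (k : ℝ) + 1 := by positivity
  set w : R3 := ((k : ℝ) + 1)⁻¹ • z with hw
  have hz : z = ((k : ℝ) + 1) • w := by rw [hw, smul_smul, mul_inv_cancel₀ hj.ne', one_smul]
  have hwn : ‖w‖ ≤ r := by
    rw [hw, norm_smul, Real.norm_eq_abs, abs_of_pos (inv_pos.2 hj), inv_mul_le_iff₀ hj]
    exact ((div_lt_iff₀ hr).1 hk2).le
  have h1 : d z ≤ (1 + ‖z‖ / r) * d w := by
    have h2 := nsmul_chain hadd w k
    rw [← hz] at h2
    exact h2.trans (mul_le_mul_of_nonneg_right (by linarith) (h0 w))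
  have h3 := near_chain hd h0 hneg hadd hr hwn
  calc d z ^ 2 ≤ ((1 + ‖z‖ / r) * d w) ^ 2 := pow_le_pow_left₀ (h0 z) h1 2
    _ = (1 + ‖z‖ / r) ^ 2 * d w ^ 2 := mul_pow _ _ _
    _ ≤ (1 + ‖z‖ / r) ^ 2 * (4 * ((r ^ 3)⁻¹ * ∫ u, (ball3 r).1 u * d u ^ 2)) :=
        mul_le_mul_of_nonneg_left h3 (sq_nonneg _)
    _ = _ := by ring

end Pool.Agent.BoseLHY
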