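import Pool.Agent.Lib.MP_dec75e_mp.L.Cmp

/-! Comparison of the forms in boxes with the translation invariant forms. -/

open MeasureTheory Finset Function
open scoped Real

noncomputable section

namespace Pool.Agent.BoseLHY

open Pool.Agent.BoseTail

variable {N : ℕ} {L : ℝ} [Fact (0 < L)]

theorem bm_df_cmp2 (i : Fin N) (G : BF (R3 × R3)) (u : Vs (Fin N)) :
    BM (uncurry fun (X : Fin N → R3) (y : R3) => G.1 (X i, y) * (u.1 X - u.1 (update X i y)) ^ 2) :=
  (BM.comp (bmOf G) (T := fun p : (Fin N → R3) × R3 => (p.1 i, p.2))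
    (((measurable_pi_apply i).comp measurable_fst).prodMk measurable_snd)).mul
    (((BM.comp (bmOf u) measurable_fst).sub (bm_upd u i)).pow 2)

theorem bm_sl_cmp2 {α β : Type} [MeasurableSpace α] [MeasurableSpace β] {Φ : α → β → ℝ}
    (h : BM (uncurry Φ)) (x : α) : BM (Φ x) :=
  BM.comp h (T := fun y => (x, y)) measurable_prodMk_left

/-- The difference forms of the real and imaginary parts together. -/
theorem dform_lift {ψ : Cf N L → ℂ} (hψ : Continuous ψ) (i : Fin N) (G : BF (R3 × R3)) :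
    dform (bigM N L) i G (liftRe ψ hψ) + dform (bigM N L) i G (liftIm ψ hψ) =
      ∫ X, ∫ y, G.1 (X i, y) * Gz ψ i (fun j => proj L (X j)) (y - X i)
        ∂((big L).μ : Measure R3) ∂pm (bigM N L) := by
  have h1 := bm_df_cmp2 i G (liftRe ψ hψ)
  have h2 := bm_df_cmp2 i G (liftIm ψ hψ)
  unfold dform
  rw [← integral_add (BM.integral_right h1).integrable (BM.integral_right h2).integrable]
  refine integral_congr_ae (Filter.Eventually.of_forall fun X => ?_)
  change (∫ y, G.1 (X i, y) * ((liftRe ψ hψ).1 X - (liftRe ψ hψ).1 (update X i y)) ^ 2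
      ∂((big L).μ : Measure R3)) +
    (∫ y, G.1 (X i, y) * ((liftIm ψ hψ).1 X - (liftIm ψ hψ).1 (update X i y)) ^ 2
      ∂((big L).μ : Measure R3)) = _
  rw [← integral_add (bm_sl_cmp2 h1 X).integrable (bm_sl_cmp2 h2 X).integrable]
  refine integral_congr_ae (Filter.Eventually.of_forall fun y => ?_)
  have h3 := proj_update (L := L) X i (y - X i)
  rw [add_sub_cancel] at h3
  change G.1 (X i, y) * ((ψ fun j => proj L (X j)).re -
      (ψ fun j => proj L (update X i y j)).re) ^ 2 +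
    G.1 (X i, y) * ((ψ fun j => proj L (X j)).im -
      (ψ fun j => proj L (update X i y j)).im) ^ 2 = _
  rw [h3]
  beta_reduce
  unfold Gz
  rw [Complex.sq_norm, Complex.normSq_apply, Complex.sub_re, Complex.sub_im]
  ring

theorem bm_q_cmp2 {ψ : Cf N L → ℂ} (hψ : Continuous ψ) (i : Fin N) :
    BM (uncurry fun (X : Fin N → R3) (y : R3) => Gz ψ i (fun j => proj L (X j)) (y - X i)) :=
  BM.comp (bm_Gz hψ i) (T := fun p : (Fin N → R3) × R3 => (fun j => proj L (p.1 j), p.2 - p.1 i))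
    ((measurable_projN.comp measurable_fst).prodMk
      (measurable_snd.sub ((measurable_pi_apply i).comp measurable_fst)))

theorem bm_A_cmp2 {ψ : Cf N L → ℂ} (hψ : Continuous ψ) (i : Fin N) (G : BF (R3 × R3)) :
    BM fun X : Fin N → R3 => L ^ 3 * ∫ y, G.1 (X i, y) * Gz ψ i (fun j => proj L (X j)) (y - X i)
      ∂((big L).μ : Measure R3) :=
  (BM.const _).mul (BM.integral_right
    (Φ := fun (X : Fin N → R3) (y : R3) => G.1 (X i, y) * Gz ψ i (fun j => proj L (X j)) (y - X i))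
    ((BM.comp (bmOf G) (T := fun p : (Fin N → R3) × R3 => (p.1 i, p.2))
      (((measurable_pi_apply i).comp measurable_fst).prodMk measurable_snd)).mul (bm_q_cmp2 hψ i)))

theorem bm_E_cmp2 {ψ : Cf N L → ℂ} (hψ : Continuous ψ) {H : R3 → ℝ} (hH : Integrable H)
    (i : Fin N) (m : ℕ) (r : ℝ) :
    BM fun X : Cf N L => (layT m r).indicator (fun _ => (1 : ℝ)) (X i) *
      ∫ z, H z * Gz ψ i X z :=
  (BM.comp (bmOf (ind (layT (L := L) m r) (measurableSet_layT m r)))
    (measurable_pi_apply i)).mul (bm_HG hψ hH i)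

theorem ae_big_cmp2 (i : Fin N) : ∀ᵐ X ∂pm (bigM N L), X i ∈ (big L).set :=
  ae_coord (μ := bigM N L) i (big L).ae_mem

theorem le_lift_cmp2 {F : Cf N L → ℝ} (hF : BM F) {A : (Fin N → R3) → ℝ} (hA : BM A) (i : Fin N)
    (h : ∀ X, X i ∈ (big L).set → F (fun j => proj L (X j)) ≤ A X) :
    ∫ X, F X ≤ (L ^ 3) ^ N * ∫ X, A X ∂pm (bigM N L) := by
  have hL : 0 < L := Fact.out
  rw [← integral_lift hF]
  refine mul_le_mul_of_nonneg_left ?_ (by positivity)
  exact integral_mono_ae (BM.comp hF measurable_projN).integrable hA.integrable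
    ((ae_big_cmp2 i).mono h)

theorem ge_lift_cmp2 {F : Cf N L → ℝ} (hF : BM F) {A : (Fin N → R3) → ℝ} (hA : BM A) (i : Fin N)
    (h : ∀ X, X i ∈ (big L).set → A X ≤ F (fun j => proj L (X j))) :
    (L ^ 3) ^ N * ∫ X, A X ∂pm (bigM N L) ≤ ∫ X, F X := by
  have hL : 0 < L := Fact.out
  rw [← integral_lift hF]
  refine mul_le_mul_of_nonneg_left ?_ (by positivity)
  exact integral_mono_ae hA.integrable (BM.comp hF measurable_projN).integrable
    ((ae_big_cmp2 i).mono h)

theorem sum_lift_cmp2 {ψ : Cf N L → ℂ} (hψ : Continuous ψ) (G : BF (R3 × R3)) :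
    (L ^ 3) ^ N * (L ^ 3 * ∑ i, (dform (bigM N L) i G (liftRe ψ hψ) +
        dform (bigM N L) i G (liftIm ψ hψ))) =
      ∑ i, (L ^ 3) ^ N * ∫ X, L ^ 3 * ∫ y, G.1 (X i, y) *
        Gz ψ i (fun j => proj L (X j)) (y - X i) ∂((big L).μ : Measure R3) ∂pm (bigM N L) := by
  rw [Finset.mul_sum, Finset.mul_sum]
  refine Finset.sum_congr rfl fun i _ => ?_
  rw [dform_lift, integral_const_mul]

theorem cmp_many {ψ : Cf N L → ℂ} (hψ : Continuous ψ) {K : ℕ} {l r : ℝ} (hl : 0 < l)
    (hL : L = K * l) {h : BF R3} (he : Ev h.1) (hs : Supp h.1 r) {H : R3 → ℝ} (hH : Mono H)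
    (hHi : Integrable H) (hh : ∀ z, |h.1 z| ≤ H z) :
    |(L ^ 3) ^ N * (L ^ 3 * ∑ i,
        (dform (bigM N L) i (glue (cell 0 K l hl 0) fun k => (cell 0 K l hl 0 k).symk h)
            (liftRe ψ hψ) +
          dform (bigM N L) i (glue (cell 0 K l hl 0) fun k => (cell 0 K l hl 0 k).symk h)
            (liftIm ψ hψ))) - ∫ z, h.1 z * Dz ψ z| ≤ 28 * LayE H K r ψ := by
  have hhi : Integrable h.1 := hs.integrable (bmOf h)
  rw [sum_lift_cmp2, ← integral_HG hψ hhi, ← Finset.sum_sub_distrib]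
  unfold LayE
  rw [Finset.mul_sum]
  refine (Finset.abs_sum_le_sum_abs _ _).trans (Finset.sum_le_sum fun i _ => ?_)
  have hT := bm_HG hψ hhi i
  have hE := (BM.const (28 : ℝ)).mul (bm_E_cmp2 hψ hHi i K r)
  have hA := bm_A_cmp2 hψ i (glue (cell 0 K l hl 0) fun k => (cell 0 K l hl 0 k).symk h)
  have key := fun (X : Fin N → R3) (hX : X i ∈ (big L).set) =>
    cmp_one hl hL he hs hH hHi hh (bm_sl_cmp2 (bm_q_cmp2 hψ i) X)
      (fun _ => sq_nonneg _) hX
  simp only [add_sub_cancel_left] at key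
  have h1 := le_lift_cmp2 (hT.sub hE) hA i fun X hX => by
    have := (abs_le.1 (key X hX)).1
    linarith
  have h2 := ge_lift_cmp2 (hT.add hE) hA i fun X hX => by
    have := (abs_le.1 (key X hX)).2
    linarith
  rw [integral_sub hT.integrable hE.integrable, integral_const_mul] at h1
  rw [integral_add hT.integrable hE.integrable, integral_const_mul (28 : ℝ)] at h2
  rw [abs_le]
  constructor <;> linarith

theorem cmp_many_ball {ψ : Cf N L → ℂ} (hψ : Continuous ψ) (r : ℝ) :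
    (∫ z, (ball3 r).1 z * Dz ψ z) - LayE (ball3 r).1 1 r ψ ≤
      (L ^ 3) ^ N * (L ^ 3 * ∑ i, (dform (bigM N L) i (dif (ball3 r)) (liftRe ψ hψ) +
        dform (bigM N L) i (dif (ball3 r)) (liftIm ψ hψ))) := by
  have hhi : Integrable (ball3 r).1 := (supp_ball3 r).integrable (bmOf _)
  rw [sum_lift_cmp2, ← integral_HG hψ hhi]
  unfold LayE
  rw [← Finset.sum_sub_distrib]
  refine Finset.sum_le_sum fun i _ => ?_
  have hT := bm_HG hψ hhi i
  have hE := bm_E_cmp2 hψ hhi i 1 r
  have hA := bm_A_cmp2 hψ i (dif (ball3 r))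
  have key := fun (X : Fin N → R3) (hX : X i ∈ (big L).set) =>
    cmp_ball (r := r) (bm_sl_cmp2 (bm_q_cmp2 hψ i) X) (fun _ => sq_nonneg _) hX
  simp only [add_sub_cancel_left] at key
  have h1 := le_lift_cmp2 (hT.sub hE) hA i key
  rwa [integral_sub hT.integrable hE.integrable] at h1

end Pool.Agent.BoseLHY
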