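import Pool.Agent.Lib.MP_dec75e_mp.L.Lay
import Pool.Agent.Lib.MP_dec75e_mp.L.Cmp2
import Pool.Agent.Lib.MP_dec75e_mp.L.Chain
import Pool.Agent.Lib.MP_dec75e_mp.L2

/-! A priori bound on the change of a low energy state under the shift of one particle. -/

open MeasureTheory Finset Function
open scoped Real

noncomputable section

namespace Pool.Agent.BoseLHY

open Pool.Agent.BoseTail

theorem ball_nonneg_apr (r : ℝ) (z : R3) : 0 ≤ (ball3 r).1 z := by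
  rw [ball3_apply]; split_ifs <;> norm_num

theorem chain_apr {N : ℕ} {L : ℝ} [Fact (0 < L)] {ψ : Cf N L → ℂ} (hψ : Continuous ψ) {r : ℝ}
    (hr : 0 < r) (z : R3) :
    Dz ψ z ≤ 4 * (1 + ‖z‖ / r) ^ 2 * ((r ^ 3)⁻¹ * ∫ u, (ball3 r).1 u * Dz ψ u) := by
  have h := chain (d := fun z => √(Dz ψ z)) (BM.sqrt_l2 (bm_Dz hψ)) (fun _ => Real.sqrt_nonneg _)
    (fun z => by rw [Dz_neg]) (Dz_add hψ) hr z
  simpa only [Real.sq_sqrt (Dz_nonneg ψ _)] using h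

theorem num_apr {y h c K n I t d : ℝ} (hy : 0 < y) (hc : 0 < c) (hc1 : c ≤ 1) (hK : 0 ≤ K)
    (hn : 0 ≤ n) (ht : 0 ≤ t) (h1 : c ≤ h * y ^ 400) (h2 : h * y ^ 400 ≤ 1)
    (hI : I / 2 ≤ 256 * h ^ 5 * (K * y ^ 1199 * n))
    (hd : d ≤ 4 * (1 + t / (h / 4)) ^ 2 * (((h / 4) ^ 3)⁻¹ * I)) :
    d ≤ 2 ^ 21 * K / c ^ 2 * n * y ^ 399 * (1 + y ^ 400 * t) ^ 2 := by
  have h400 : 0 < y ^ 400 := pow_pos hy _
  have hh : 0 < h := (mul_pos_iff_of_pos_right h400).1 (hc.trans_le h1)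
  have a1 : ((h / 4) ^ 3)⁻¹ * I ≤ 2 ^ 15 * K * n * y ^ 399 := by
    have e1 : (h * y ^ 400) ^ 2 ≤ 1 := pow_le_one₀ (by positivity) h2
    calc ((h / 4) ^ 3)⁻¹ * I ≤ ((h / 4) ^ 3)⁻¹ * (512 * h ^ 5 * (K * y ^ 1199 * n)) :=
          mul_le_mul_of_nonneg_left (by linarith) (by positivity)
      _ = 2 ^ 15 * K * n * y ^ 399 * (h * y ^ 400) ^ 2 := by field_simp; ring
      _ ≤ 2 ^ 15 * K * n * y ^ 399 * 1 := mul_le_mul_of_nonneg_left e1 (by positivity)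
      _ = _ := mul_one _
  have a2 : 1 + t / (h / 4) ≤ 4 / c * (1 + y ^ 400 * t) := by
    have e1 : 1 ≤ 4 / c := by rw [le_div_iff₀ hc]; linarith
    have e2 : t / (h / 4) ≤ 4 / c * (y ^ 400 * t) := by
      rw [div_le_iff₀ (by positivity)]
      calc t = t * c / c := by field_simp
        _ ≤ t * (h * y ^ 400) / c := by gcongr
        _ = _ := by field_simp
    linarith
  have a3 : (1 + t / (h / 4)) ^ 2 ≤ (4 / c * (1 + y ^ 400 * t)) ^ 2 :=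
    pow_le_pow_left₀ (by positivity) a2 2
  calc d ≤ _ := hd
    _ ≤ 4 * (1 + t / (h / 4)) ^ 2 * (2 ^ 15 * K * n * y ^ 399) :=
        mul_le_mul_of_nonneg_left a1 (by positivity)
    _ ≤ 4 * (4 / c * (1 + y ^ 400 * t)) ^ 2 * (2 ^ 15 * K * n * y ^ 399) := by gcongr
    _ = _ := by field_simp; ring

/-- `crudeK` for the whole torus (`l = L`, `r = ρ`) after `good_shift` with `m = 1`,
`r = h / 4`; then `chain` for `√(Dz ψ)`. -/
theorem apriori_D {v : E3 → ℝ} (hv : Continuous v) (h0 : ∀ x, 0 ≤ v x) (hc : HasCompactSupport v)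
    (D : Dat) (hw : ∀ z, D.w.1 z = v (WithLp.toLp 2 z)) {E : ℝ} (hE : 0 ≤ E) {A : ℝ}
    (hA : 0 ≤ A) :
    ∃ C y₀ : ℝ, 1 ≤ C ∧ 0 < y₀ ∧ y₀ ≤ 1 ∧ ∀ (y : ℝ) (N : ℕ) (L : ℝ) [Fact (0 < L)]
      (ψ : Cf N L → ℂ), 0 < y → y ≤ y₀ → (N : ℝ) = y ^ 800 * L ^ 3 → 1 ≤ L * y ^ 404 → Adm ψ →
      PB D.V A ψ →
      energy v ψ ≤ 2 * π * D.a * y ^ 800 * N + E * y ^ 1200 * N →
      ∀ z, Dz ψ z ≤ C * N * y ^ 399 * (1 + y ^ 400 * ‖z‖) ^ 2 := by
  obtain ⟨C, c, y₁, hC, hc0, hc1, hy₁, hy₁1, H⟩ := crudeK D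
  obtain ⟨Q, hQ, hsh⟩ := good_shift2 hv h0 hc D hw hA
  refine ⟨2 ^ 21 * (C + E + Q) / c ^ 2, min y₁ (1 / 3), ?_, by positivity,
    (min_le_left _ _).trans hy₁1, ?_⟩
  · rw [le_div_iff₀ (by positivity)]
    have : c ^ 2 ≤ 1 := pow_le_one₀ hc0.le hc1
    linarith
  intro y N L _ ψ hy hy0 hN hL hψ hP hen z
  have hLp : 0 < L := Fact.out
  have hy1 : y ≤ y₁ := hy0.trans (min_le_left _ _)
  have hy3 : y ≤ 1 / 3 := hy0.trans (min_le_right _ _)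
  have h1 : y ≤ 1 := hy1.trans hy₁1
  have h400 : 0 < y ^ 400 := pow_pos hy _
  have h800 : 0 < y ^ 800 := pow_pos hy _
  have hL3 : 3 ≤ L * y ^ 400 := by
    have e1 : y ^ 4 ≤ 1 / 3 := (pow_le_of_le_one hy.le h1 (by norm_num)).trans hy3
    have e2 : L * y ^ 404 = L * y ^ 400 * y ^ 4 := by ring
    have e3 := mul_le_mul_of_nonneg_left e1 (mul_pos hLp h400).le
    linarith
  obtain ⟨h, hh1, hh2, H⟩ := H y L hy hy1 (by linarith)
  have hh : 0 < h := (mul_pos_iff_of_pos_right h400).1 (hc0.trans_le hh1)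
  have hhL : 12 * (h / 4) ≤ L := by
    have : 3 * h * y ^ 400 ≤ L * y ^ 400 := by linarith
    have := le_of_mul_le_mul_right this h400
    linarith
  obtain ⟨u, χ, e, -, hG, -, hge, hu⟩ := hsh N L ψ hψ y L 1 1 (ball3 (h / 4)).1 (h / 4)
    (1 / (256 * h ^ 5)) hP hy h1 le_rfl (by simp) hL hN ((supp_ball3 _).integrable (bmOf _))
    (ball_nonneg_apr _) le_rfl (by positivity) (by positivity)
  have hGd := hG (big L) (fun _ => 0) (fun c => by simp [big, cube0]) big_cube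
  have hψ' := adm_tr u hψ
  obtain ⟨c1, c2, s1, s2, hn⟩ := lift_props hψ'
  have H1 := H (bigM N L) (big L) univ _ χ hGd (y ^ 800) big_cube act_big s1 c1 h800.le
    (by linarith)
  have H2 := H (bigM N L) (big L) univ _ χ hGd (y ^ 800) big_cube act_big s2 c2 h800.le
    (by linarith)
  have hcmp := cmp_many_ball hψ'.1.1 (h / 4)
  simp only [Dz_tr] at hcmp
  have hI : 0 ≤ ∫ z, (ball3 (h / 4)).1 z * Dz ψ z :=
    integral_nonneg fun z => mul_nonneg (ball_nonneg_apr _ z) (Dz_nonneg ψ z)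
  have hq : 6 * ((1 : ℕ) : ℝ) * (h / 4) / L ≤ 1 / 2 := by
    rw [div_le_iff₀ hLp]; push_cast; linarith
  have ht : 0 ≤ 1 / (256 * h ^ 5) := by positivity
  have hu2 := mul_le_mul_of_nonneg_left (mul_le_mul_of_nonneg_right hq hI) ht
  have hu3 := mul_le_mul_of_nonneg_left hcmp ht
  rw [card_univ, Fintype.card_fin] at H1 H2
  rw [sum_add_distrib] at hu3
  have hW : 0 < (L ^ 3) ^ N := by positivity
  have e0 : 2 * π * D.a * (2 * y ^ 800 * N - (y ^ 800) ^ 2 * L ^ 3) = 2 * π * D.a * y ^ 800 * N := by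
    rw [hN]; ring
  rw [e0] at H1 H2
  have H3 := mul_le_mul_of_nonneg_left (add_le_add H1 H2) hW.le
  generalize nq (ipB (bigM N L)) (liftRe (tr u ψ) hψ'.1.1) = n₁ at *
  generalize nq (ipB (bigM N L)) (liftIm (tr u ψ) hψ'.1.1) = n₂ at *
  generalize ∑ i, dform (bigM N L) i (dif (ball3 (h / 4))) (liftRe (tr u ψ) hψ'.1.1) = d₁ at *
  generalize ∑ i, dform (bigM N L) i (dif (ball3 (h / 4))) (liftIm (tr u ψ) hψ'.1.1) = d₂ at *
  have e2 : (L ^ 3) ^ N * ((2 * π * D.a * y ^ 800 * N - C * y ^ 1199 * N) * n₁ +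
      L ^ 3 / (256 * h ^ 5) * d₁ + ((2 * π * D.a * y ^ 800 * N - C * y ^ 1199 * N) * n₂ +
      L ^ 3 / (256 * h ^ 5) * d₂)) =
      (2 * π * D.a * y ^ 800 * N - C * y ^ 1199 * N) * ((L ^ 3) ^ N * (n₁ + n₂)) +
        1 / (256 * h ^ 5) * ((L ^ 3) ^ N * (L ^ 3 * (d₁ + d₂))) := by ring
  rw [e2, hn, mul_one] at H3
  have hN0 : (0 : ℝ) ≤ N := Nat.cast_nonneg _
  have e3 : E * y ^ 1200 * N ≤ E * y ^ 1199 * N := by
    have : y ^ 1200 ≤ y ^ 1199 := pow_le_pow_of_le_one hy.le h1 (by norm_num)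
    gcongr
  have e4 : Q * y ^ 1201 * N ≤ Q * y ^ 1199 * N := by
    have : y ^ 1201 ≤ y ^ 1199 := pow_le_pow_of_le_one hy.le h1 (by norm_num)
    gcongr
  have H4 : (∫ z, (ball3 (h / 4)).1 z * Dz ψ z) / 2 / (256 * h ^ 5) ≤
      (C + E + Q) * y ^ 1199 * N := by
    rw [div_eq_mul_one_div _ (256 * h ^ 5)]
    linarith
  rw [div_le_iff₀ (by positivity)] at H4
  exact num_apr (K := C + E + Q) hy hc0 hc1 (by linarith) hN0 (norm_nonneg z) hh1 hh2 (by linarith)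
    (chain_apr hψ.1.1 (by positivity) z)

end Pool.Agent.BoseLHY
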