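import Pool.Agent.Lib.MP_dec75e_mp.L.Dfs

/-! Scalar inequalities for the Bogolyubov energy. -/

open MeasureTheory Finset Function
open scoped Real

noncomputable section

namespace Pool.Agent.BoseLHY

open Pool.Agent.BoseTail

theorem sqrt_up_bog {τ β : ℝ} (hτ : 0 ≤ τ) (hβ : 0 ≤ β) : √(τ ^ 2 + 2 * τ * β) ≤ τ + β :=
  Real.sqrt_le_iff.2 ⟨by positivity, by nlinarith [sq_nonneg β]⟩

theorem sqrt_lo_bog {τ β : ℝ} (hτ : 0 ≤ τ) (hβ : 0 ≤ β) : τ ≤ √(τ ^ 2 + 2 * τ * β) :=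
  Real.le_sqrt_of_sq_le (by nlinarith [mul_nonneg hτ hβ])

theorem sqrt_lo2_bog {t : ℝ} (ht : 0 < t) : t + 1 - 1 / (2 * t) ≤ √(t ^ 2 + 2 * t * 1) := by
  rcases le_total t (1 / 4) with h | h
  · refine le_trans ?_ (Real.sqrt_nonneg _)
    have : 2 ≤ 1 / (2 * t) := by
      rw [le_div_iff₀ (by positivity)]; linarith
    linarith
  · refine Real.le_sqrt_of_sq_le ?_
    set c := 1 / (2 * t) with hc
    have h1 : c * t = 1 / 2 := by rw [hc]; field_simp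
    have h2 : 0 < c := by positivity
    have h3 : c ≤ 2 := by nlinarith
    nlinarith

theorem bog_nonpos {τ β : ℝ} (hτ : 0 ≤ τ) (hβ : 0 ≤ β) : bog τ β ≤ 0 := by
  have := sqrt_up_bog hτ hβ
  unfold bog
  linarith

/-- With `z = x / n`, `A = τ + n l`, `u = z + N / 2`, `v = N / 2`:
`n l √(u² - v²) + √(A² - (n l)²) v ≤ A u`. -/
theorem bog_le {n τ l x oc N pr : ℝ} (hn : 0 ≤ n) (hτ : 0 < τ) (hl : 0 ≤ l) (hx : 0 ≤ x)
    (ho : 0 ≤ oc) (hN : 0 ≤ N) (hxo : x ≤ n * oc) (hp : |pr| ≤ √x * √(x + n * N)) :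
    bog τ (n * l) * N ≤ τ * oc + l * x + l * pr := by
  rcases hn.eq_or_lt with rfl | hn
  · have hx0 : x = 0 := by linarith
    subst hx0
    have hp0 : pr = 0 := by simpa using hp
    subst hp0
    have := bog_nonpos hτ.le (le_refl (0 : ℝ))
    rw [zero_mul]
    nlinarith [mul_nonneg hτ.le ho]
  · set W := √x * √(x + n * N) with hW
    set S := √(τ ^ 2 + 2 * τ * (n * l)) with hS
    have hW2 : W ^ 2 = x * (x + n * N) := by
      rw [hW, mul_pow, Real.sq_sqrt hx, Real.sq_sqrt (by positivity)]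
    have hS2 : S ^ 2 = τ ^ 2 + 2 * τ * (n * l) := Real.sq_sqrt (by positivity)
    have hcs : n * l * W + S * (n * N / 2) ≤ (τ + n * l) * (x + n * N / 2) := by
      refine (abs_le_of_sq_le_sq' ?_ (by positivity)).2
      have e1 : ((τ + n * l) * (x + n * N / 2)) ^ 2 =
          ((n * l) ^ 2 + S ^ 2) * (W ^ 2 + (n * N / 2) ^ 2) := by
        rw [hW2, hS2]; ring
      rw [e1]
      nlinarith [sq_nonneg (n * l * (n * N / 2) - S * W)]
    have hpr : -W ≤ pr := (abs_le.1 hp).1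
    refine le_of_mul_le_mul_left ?_ hn
    unfold bog
    rw [← hS]
    have h1 : τ * x ≤ τ * (n * oc) := mul_le_mul_of_nonneg_left hxo hτ.le
    have h2 : n * l * (-W) ≤ n * l * pr := mul_le_mul_of_nonneg_left hpr (by positivity)
    nlinarith

theorem bog_scale {μ : ℝ} (hμ : 0 < μ) (τ β : ℝ) : bog (μ * τ) (μ * β) = μ * bog τ β := by
  unfold bog
  have : (μ * τ) ^ 2 + 2 * (μ * τ) * (μ * β) = μ ^ 2 * (τ ^ 2 + 2 * τ * β) := by ring
  rw [this, Real.sqrt_mul (by positivity), Real.sqrt_sq hμ.le]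
  ring

theorem bog_sens {t τ₀ τ β : ℝ} (ht : 0 < t) (h0 : t / 2 ≤ τ₀) (h1 : t / 4 ≤ τ) (h2 : τ ≤ τ₀)
    (hβ : 0 ≤ β) (hβ2 : β ≤ 2) :
    FF τ₀ t - 4 * (1 + 1 / t) * ((τ₀ - τ) + |β - 1|) ≤ bog τ β + β ^ 2 / (4 * t) := by
  have hτ : 0 < τ := by linarith
  set c := 1 / t with hc
  have hc0 : 0 < c := by positivity
  have hct : c * t = 1 := by rw [hc]; field_simp
  have hcτ : 1 ≤ 4 * c * τ := by nlinarith
  set δ := τ₀ - τ with hδ
  have hδ0 : 0 ≤ δ := by linarith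
  set a := |β - 1| with ha
  have ha0 : 0 ≤ a := abs_nonneg _
  have ha1 : 1 - β ≤ a := by rw [ha, abs_sub_comm]; exact le_abs_self _
  have e1 : √(τ₀ ^ 2 + 2 * τ₀ * 1) ≤ √(τ ^ 2 + 2 * τ * 1) + δ * (1 + 4 * c) := by
    have hR := sqrt_lo_bog hτ.le zero_le_one
    have hR2 : √(τ ^ 2 + 2 * τ * 1) ^ 2 = τ ^ 2 + 2 * τ * 1 := Real.sq_sqrt (by positivity)
    refine Real.sqrt_le_iff.2 ⟨by positivity, ?_⟩
    set R := √(τ ^ 2 + 2 * τ * 1)
    have h3 : τ₀ = τ + δ := by rw [hδ]; ring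
    have h4 : δ * (1 + 4 * c) * τ ≤ δ * (1 + 4 * c) * R :=
      mul_le_mul_of_nonneg_left hR (by positivity)
    have h5 : δ * 1 ≤ δ * (4 * c * τ) := mul_le_mul_of_nonneg_left hcτ hδ0
    have h6 : δ ^ 2 ≤ (δ * (1 + 4 * c)) ^ 2 := by
      apply pow_le_pow_left₀ hδ0
      nlinarith [mul_nonneg hδ0 hc0.le]
    rw [h3]
    nlinarith
  have e2 : √(τ ^ 2 + 2 * τ * 1) ≤ √(τ ^ 2 + 2 * τ * β) + a := by
    have hR := sqrt_lo_bog hτ.le hβ
    have hR2 : √(τ ^ 2 + 2 * τ * β) ^ 2 = τ ^ 2 + 2 * τ * β := Real.sq_sqrt (by positivity)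
    refine Real.sqrt_le_iff.2 ⟨by positivity, ?_⟩
    set R := √(τ ^ 2 + 2 * τ * β)
    have h4 : a * τ ≤ a * R := mul_le_mul_of_nonneg_left hR ha0
    have h5 : τ * (1 - β) ≤ τ * a := mul_le_mul_of_nonneg_left ha1 hτ.le
    nlinarith [sq_nonneg a]
  have e3 : 1 / (4 * t) = c / 4 := by rw [hc]; field_simp
  have e4 : β ^ 2 / (4 * t) = β ^ 2 * c / 4 := by rw [hc]; field_simp
  have e5 : 1 - β ^ 2 ≤ 3 * a := by
    have : (1 - β) * (1 + β) ≤ a * (1 + β) := mul_le_mul_of_nonneg_right ha1 (by positivity)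
    nlinarith
  have e6 : (1 - β ^ 2) * c ≤ 3 * a * c := mul_le_mul_of_nonneg_right e5 hc0.le
  have ha2 : β - 1 ≤ a := le_abs_self _
  unfold FF bog
  rw [e3, e4]
  nlinarith [mul_nonneg hδ0 hc0.le, mul_nonneg ha0 hc0.le]

theorem FF_le {τ t : ℝ} (hτ : 0 ≤ τ) : FF τ t ≤ 1 / (4 * t) := by
  have := bog_nonpos hτ zero_le_one
  unfold FF
  linarith

theorem FF_nonneg {t : ℝ} (ht : 0 < t) : 0 ≤ FF t t := by
  have := sqrt_lo2_bog ht
  have e : 1 / (4 * t) = 1 / (2 * t) / 2 := by field_simp; norm_num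
  unfold FF bog
  linarith

theorem FF_anti : AntitoneOn (fun t => FF t t) (Set.Ioi 0) := by
  intro s hs t ht hst
  have hs : 0 < s := hs
  have ht : 0 < t := ht
  set c := 1 / (2 * s * t) with hc
  have hc0 : 0 < c := by positivity
  set δ := t - s with hδ
  have hδ0 : 0 ≤ δ := by linarith
  have e1 : √(t ^ 2 + 2 * t * 1) ≤ √(s ^ 2 + 2 * s * 1) + δ * (1 + c) := by
    have hR := sqrt_lo_bog hs.le zero_le_one
    have hR' := sqrt_lo2_bog hs
    have hR2 : √(s ^ 2 + 2 * s * 1) ^ 2 = s ^ 2 + 2 * s * 1 := Real.sq_sqrt (by positivity)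
    refine Real.sqrt_le_iff.2 ⟨by positivity, ?_⟩
    set R := √(s ^ 2 + 2 * s * 1)
    have h3 : t = s + δ := by rw [hδ]; ring
    have h4 : c * t = 1 / (2 * s) := by rw [hc]; field_simp
    have h5 : s + 1 ≤ R + c * R + δ * c := by
      have : c * s ≤ c * R := mul_le_mul_of_nonneg_left hR hc0.le
      have h6 : c * t = c * s + δ * c := by rw [hδ]; ring
      linarith
    have h6 : δ * (s + 1) ≤ δ * (R + c * R + δ * c) := mul_le_mul_of_nonneg_left h5 hδ0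
    rw [h3]
    nlinarith [sq_nonneg (δ * c)]
  have e2 : 1 / (4 * s) - 1 / (4 * t) = δ * c / 2 := by
    rw [hc, hδ]; field_simp; ring
  simp only [FF, bog]
  nlinarith

theorem gB_eq_bog {t : ℝ} (ht : 0 < t) : gB √t = (1 + t) / √(t ^ 2 + 2 * t * 1) - 1 := by
  unfold gB
  rw [Real.sq_sqrt ht.le, ← Real.sqrt_mul ht.le]
  congr 3
  ring

theorem gB_bounds {t : ℝ} (ht : 0 < t) :
    0 ≤ gB √t ∧ gB √t ≤ 2 * min (1 / t) (1 / t ^ 2) := by
  rw [gB_eq_bog ht]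
  have h1 := sqrt_up_bog ht.le zero_le_one
  have h2 := sqrt_lo_bog ht.le zero_le_one
  have h3 := sqrt_lo2_bog ht
  set R := √(t ^ 2 + 2 * t * 1)
  have hR : 0 < R := by linarith
  refine ⟨?_, ?_⟩
  · rw [sub_nonneg, le_div_iff₀ hR]; linarith
  · set c := 1 / t with hc
    have hc0 : 0 < c := by positivity
    have hct : c * t = 1 := by rw [hc]; field_simp
    have e1 : 1 / t ^ 2 = c ^ 2 := by rw [hc]; field_simp
    have e2 : 1 / (2 * t) = c / 2 := by rw [hc]; field_simp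
    have h4 : 1 ≤ c * R := by nlinarith
    rw [e1, sub_le_iff_le_add, div_le_iff₀ hR]
    rcases le_total c (c ^ 2) with h | h
    · rw [min_eq_left h]; nlinarith
    · rw [min_eq_right h]
      have : c * 1 ≤ c * (c * R) := mul_le_mul_of_nonneg_left h4 hc0.le
      nlinarith

theorem taylor_bog {t b K : ℝ} (ht : 0 < t) (hb : -(t / 2) ≤ b) (hK : 0 ≤ K)
    (hKb : 2 * b ^ 2 ≤ K * √(t ^ 2 + 2 * t * 1) ^ 3) :
    √(t ^ 2 + 2 * t * 1) + b * ((1 + t) / √(t ^ 2 + 2 * t * 1)) - K ≤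
      √((t + b) ^ 2 + 2 * (t + b) * 1) := by
  have h2 := sqrt_lo_bog ht.le zero_le_one
  have hR2 : √(t ^ 2 + 2 * t * 1) ^ 2 = t ^ 2 + 2 * t * 1 := Real.sq_sqrt (by positivity)
  set R := √(t ^ 2 + 2 * t * 1)
  have hR : 0 < R := by linarith
  set q := b / R with hq
  have hbq : b = q * R := by rw [hq]; field_simp
  have e1 : b * ((1 + t) / R) = q * (1 + t) := by rw [hq]; field_simp
  rw [e1]
  set a := R + q * (1 + t) with ha
  have haR : R / 2 ≤ a := by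
    refine le_of_mul_le_mul_left ?_ hR
    have : R * a = R ^ 2 + b * (1 + t) := by rw [ha, hbq]; ring
    rw [this]
    nlinarith
  have e2 : (t + b) ^ 2 + 2 * (t + b) * 1 = a ^ 2 - q ^ 2 := by
    rw [ha, hbq]
    linear_combination (q ^ 2 - 1) * hR2
  have hq2 : 2 * q ^ 2 ≤ K * R := by
    refine le_of_mul_le_mul_left ?_ (pow_pos hR 2)
    have : R ^ 2 * (2 * q ^ 2) = 2 * b ^ 2 := by rw [hbq]; ring
    rw [this]
    nlinarith
  rcases le_total (a - K) 0 with h | h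
  · exact h.trans (Real.sqrt_nonneg _)
  · refine Real.le_sqrt_of_sq_le ?_
    rw [e2]
    have h3 : K * (R / 2) ≤ K * a := mul_le_mul_of_nonneg_left haR hK
    nlinarith [mul_nonneg hK h]

/-- The derivative of `τ ↦ FF τ t` at `τ = t` is `gB √t / 2`, the second derivative is
`-(τ² + 2 τ)^(-3/2) / 2`. -/
theorem FF_taylor {t b e : ℝ} (ht : 0 < t) (he : e ≤ 1 / 2) (hb : |b| ≤ e * min t 1) :
    FF t t + b * gB √t / 2 - 2 * e ^ 2 * min (1 / t) (1 / t ^ 2) ≤ FF (t + b) t := by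
  have hm : 0 < min t 1 := lt_min ht one_pos
  have hb1 : -(t / 2) ≤ b := by
    have h1 := (abs_le.1 hb).1
    have h2 : e * min t 1 ≤ 1 / 2 * min t 1 := mul_le_mul_of_nonneg_right he hm.le
    have h3 := min_le_left t 1
    linarith
  have hb2 : b ^ 2 ≤ e ^ 2 * min t 1 ^ 2 := by
    rw [← mul_pow, ← sq_abs b]
    exact pow_le_pow_left₀ (abs_nonneg _) hb 2
  have hR := sqrt_lo_bog ht.le zero_le_one
  have hR3 : t ^ 3 ≤ √(t ^ 2 + 2 * t * 1) ^ 3 := pow_le_pow_left₀ ht.le hR 3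
  have hm' : 0 < min (1 / t) (1 / t ^ 2) := lt_min (by positivity) (by positivity)
  have key : min t 1 ^ 2 ≤ min (1 / t) (1 / t ^ 2) * t ^ 3 := by
    rw [min_mul_of_nonneg _ _ (by positivity), le_min_iff]
    have e1 : 1 / t * t ^ 3 = t ^ 2 := by field_simp
    have e2 : 1 / t ^ 2 * t ^ 3 = t := by field_simp
    rw [e1, e2]
    refine ⟨pow_le_pow_left₀ hm.le (min_le_left _ _) 2, ?_⟩
    nlinarith [min_le_left t 1, min_le_right t 1]
  have h := taylor_bog (K := 4 * e ^ 2 * min (1 / t) (1 / t ^ 2)) ht hb1 (by positivity) (by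
    have h1 : min (1 / t) (1 / t ^ 2) * t ^ 3 ≤
        min (1 / t) (1 / t ^ 2) * √(t ^ 2 + 2 * t * 1) ^ 3 := mul_le_mul_of_nonneg_left hR3 hm'.le
    have h2 : e ^ 2 * min t 1 ^ 2 ≤
        e ^ 2 * (min (1 / t) (1 / t ^ 2) * √(t ^ 2 + 2 * t * 1) ^ 3) :=
      mul_le_mul_of_nonneg_left (key.trans h1) (sq_nonneg e)
    nlinarith [sq_nonneg b])
  rw [gB_eq_bog ht]
  unfold FF bog
  linarith

end Pool.Agent.BoseLHY
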