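import Pool.Agent.Lib.MP_dec75e_mp.L.LowNum

/-! Numerical estimates at the chosen scales. -/

open MeasureTheory Finset Function
open scoped Real

noncomputable section

namespace Pool.Agent.BoseLHY

open Pool.Agent.BoseTail

/-- One mode. -/
theorem mode_lowsum {μ P b e x δ : ℝ} (hμ : 0 < μ) (hP : 0 < P) (hb : |b| ≤ P / (2 * μ) / 2)
    (he0 : 0 ≤ e) (he : e ≤ P / 8) (hx : |x - μ| ≤ δ * μ) (hδ : δ ≤ 1) :
    μ * FF (P / (2 * μ) + b) (P / (2 * μ)) - 4 * (1 + 1 / (P / (2 * μ))) * (e + δ * μ) ≤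
      bog (P / 2 + μ * b - e) x + x ^ 2 / (2 * P) := by
  set t := P / (2 * μ) with ht
  have ht0 : 0 < t := by positivity
  have hPt : P = 2 * μ * t := by rw [ht]; field_simp
  have hb' := abs_le.1 hb
  have h1 : e / μ ≤ t / 4 := by
    rw [div_le_iff₀ hμ]
    nlinarith
  have h2 : 0 ≤ e / μ := by positivity
  have h3 : |x / μ - 1| ≤ δ := by
    have : x / μ - 1 = (x - μ) / μ := by field_simp
    rw [this, abs_div, abs_of_pos hμ, div_le_iff₀ hμ]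
    exact hx
  have h3' := abs_le.1 h3
  have h4 := bog_sens (t := t) (τ₀ := t + b) (τ := t + b - e / μ) (β := x / μ) ht0
    (by linarith [hb'.1]) (by linarith [hb'.1]) (by linarith) (by linarith [h3'.1])
    (by linarith [h3'.2])
  have e1 : bog (P / 2 + μ * b - e) x = μ * bog (t + b - e / μ) (x / μ) := by
    rw [← bog_scale hμ]
    congr 1
    · rw [hPt]; field_simp
    · field_simp
  have e2 : x ^ 2 / (2 * P) = μ * ((x / μ) ^ 2 / (4 * t)) := by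
    rw [hPt]; field_simp; ring
  have h5 : 4 * (1 + 1 / t) * ((t + b - (t + b - e / μ)) + |x / μ - 1|) ≤
      4 * (1 + 1 / t) * (e / μ + δ) :=
    mul_le_mul_of_nonneg_left (by linarith) (by positivity)
  have h6 : FF (t + b) t - 4 * (1 + 1 / t) * (e / μ + δ) ≤
      bog (t + b - e / μ) (x / μ) + (x / μ) ^ 2 / (4 * t) := by linarith
  have h7 := mul_le_mul_of_nonneg_left h6 hμ.le
  have e3 : μ * (FF (t + b) t - 4 * (1 + 1 / t) * (e / μ + δ)) =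
      μ * FF (t + b) t - 4 * (1 + 1 / t) * (e + δ * μ) := by
    field_simp
  rw [e1, e2, ← mul_add, ← e3]
  exact h7

/-- The coupling of a low mode is close to the chemical potential. -/
theorem beta_lowsum {A ρ V n lam ε : ℝ} (hA : 0 < A) (hρ : 0 < ρ) (hV : 0 < V) (hε0 : 0 ≤ ε)
    (hε : ε ≤ 1) (hn : |n - ρ * V| ≤ ε * (ρ * V)) (hl : |lam - A / V| ≤ ε / 2 * (A / V)) :
    0 ≤ lam ∧ |n * lam - A * ρ| ≤ 2 * ε * (A * ρ) := by
  have hAV : 0 < A / V := by positivity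
  have hρV : 0 < ρ * V := by positivity
  have hl' := abs_le.1 hl
  have hn' := abs_le.1 hn
  refine ⟨by nlinarith [hl'.1], ?_⟩
  have e1 : n * lam - A * ρ = (n - ρ * V) * (A / V) + n * (lam - A / V) := by
    field_simp
    ring
  have hn0 : 0 ≤ n := by nlinarith [hn'.1]
  have hn2 : n ≤ 2 * (ρ * V) := by nlinarith [hn'.2]
  have h1 : |(n - ρ * V) * (A / V)| ≤ ε * (ρ * V) * (A / V) := by
    rw [abs_mul, abs_of_pos hAV]
    exact mul_le_mul_of_nonneg_right hn hAV.le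
  have h2 : |n * (lam - A / V)| ≤ 2 * (ρ * V) * (ε / 2 * (A / V)) := by
    rw [abs_mul, abs_of_nonneg hn0]
    exact mul_le_mul hn2 hl (abs_nonneg _) (by positivity)
  have e2 : ε * (ρ * V) * (A / V) + 2 * (ρ * V) * (ε / 2 * (A / V)) = 2 * ε * (A * ρ) := by
    field_simp
    ring
  rw [e1, ← e2]
  exact (abs_add_le _ _).trans (add_le_add h1 h2)

/-- The mean field term. -/
theorem mean_lowsum {A ρ V n : ℝ} (hA : 0 < A) (hV : 0 < V) (hn : n ≤ 2 * (ρ * V)) :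
    A * ρ * n - A / 2 * ρ ^ 2 * V - A * ρ ≤ A / V * (n * (n - 1) / 2) := by
  have e1 : A / V * (n * (n - 1) / 2) - (A * ρ * n - A / 2 * ρ ^ 2 * V - A * ρ) =
      A / (2 * V) * ((n - ρ * V) ^ 2 + (2 * (ρ * V) - n)) := by
    field_simp
    ring
  have h1 : 0 ≤ A / (2 * V) * ((n - ρ * V) ^ 2 + (2 * (ρ * V) - n)) :=
    mul_nonneg (by positivity) (add_nonneg (sq_nonneg _) (by linarith))
  linarith

theorem pow_lowsum {y : ℝ} (h0 : 0 < y) (h1 : y ≤ 1 / 2) :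
    y ^ 836 ≤ 2 * y ^ 808 / 8 ∧ 2 * y ^ 80 ≤ 1 ∧ y ^ 784 ≤ y * y ^ 80 ∧ y ^ 800 ≤ y ^ 789 ∧
      y ^ 80 * y ^ 800 ≤ y ^ 836 ∧ y ^ 836 ≤ y ^ 8 * y ^ 36 * y ^ 789 := by
  have hy1 : y ≤ 1 := by linarith
  have hp : ∀ a b : ℕ, a ≤ b → y ^ b ≤ y ^ a := fun a b h => pow_le_pow_of_le_one h0.le hy1 h
  have h2 : y ^ 2 ≤ 1 / 4 := by nlinarith
  refine ⟨?_, ?_, ?_, hp _ _ (by norm_num), ?_, ?_⟩
  · have h3 : y ^ 836 ≤ y ^ 2 * y ^ 808 := by
      rw [← pow_add]; exact hp _ _ (by norm_num)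
    have h4 : y ^ 2 * y ^ 808 ≤ 1 / 4 * y ^ 808 :=
      mul_le_mul_of_nonneg_right h2 (pow_pos h0 _).le
    linarith
  · have h3 : y ^ 80 ≤ y ^ 1 := hp _ _ (by norm_num)
    rw [pow_one] at h3
    linarith
  · rw [← pow_succ']; exact hp _ _ (by norm_num)
  · rw [← pow_add]; exact hp _ _ (by norm_num)
  · rw [← pow_add, ← pow_add]; exact hp _ _ (by norm_num)

/-- The total error of the low modes. -/
theorem err_lowsum {A u E k s₁ s₂ s₃ : ℝ} (hA : 0 < A) (hu0 : 0 ≤ u) (hs₁ : 0 < s₁)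
    (hs₁' : s₁ ≤ 1) (hs₂ : 0 < s₂) (hs₃ : 0 < s₃) (hu : u * s₁ ≤ A) (hE0 : 0 ≤ E)
    (hE : E ≤ (1 + 2 * A) * (s₁ * s₂ * s₃)) :
    4 * (1 + u) * E ≤ 4 * (1 + A) * (1 + 2 * A) * s₃ * s₂ + 0 * k := by
  have h1 : (1 + u) * s₁ ≤ 1 + A := by nlinarith
  have h2 : 4 * (1 + u) * E ≤ 4 * (1 + u) * ((1 + 2 * A) * (s₁ * s₂ * s₃)) :=
    mul_le_mul_of_nonneg_left hE (by positivity)
  have h3 : (1 + u) * s₁ * (4 * (1 + 2 * A) * s₃ * s₂) ≤ (1 + A) * (4 * (1 + 2 * A) * s₃ * s₂) :=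
    mul_le_mul_of_nonneg_right h1 (by positivity)
  nlinarith

/-- The main terms of `gen`. With `μ₀ = mu0 y`: `bog_scale`, `bog_sens` for
`τ = t + b - y^836 / μ₀`, `β = n lam / μ₀`, where `|β - 1| ≤ 2 y^80`; and
`2 π a n² / l³ - μ₀ n + 2 π a ρ² l³ = 2 π a (n - ρ l³)² / l³ ≥ 0`. -/
theorem low_sum (D : Dat) {C : ℝ} (hC : 1 ≤ C) : ∃ C' y₀ : ℝ, 1 ≤ C' ∧ 0 < y₀ ∧ y₀ ≤ 1 ∧
    ∀ (y l : ℝ) (R : ℕ) (b lam : M3 → ℝ) (n : ℝ), Scale y l R → y ≤ y₀ →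
      (∀ m, |b m| ≤ min (D.tm y l m) 1 / 2) → |n - y ^ 800 * l ^ 3| ≤ y ^ 80 * (y ^ 800 * l ^ 3) →
      lam 0 = 4 * π * D.a / l ^ 3 → (∀ m, |lam m - lam 0| ≤ C * sq3 (pk l m) / l ^ 3) →
      (∀ m ∈ Lset R, 0 ≤ lam m ∧ 0 < sq3 (pk l m) / 2 + D.mu0 y * b m - y ^ 836) ∧
      D.mu0 y * n + D.tgt y l R b - C' * y ^ 789 ≤ lam 0 * (n * (n - 1) / 2) +
        ∑ m ∈ Lset R, (bog (sq3 (pk l m) / 2 + D.mu0 y * b m - y ^ 836) (n * lam m) +
          n ^ 2 * (lam m ^ 2 / (2 * sq3 (pk l m)))) := by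
  obtain ⟨A, hAd⟩ : ∃ A : ℝ, A = 4 * π * D.a := ⟨_, rfl⟩
  have hA : 0 < A := by
    have := D.ha
    rw [hAd]
    positivity
  have hC0 : 0 < C := by linarith
  refine ⟨1 + A + 108 * (1 + A) * (1 + 2 * A), min (1 / 2) (A / (240 * C)), ?_, ?_, ?_, ?_⟩
  · have : 0 ≤ A + 108 * (1 + A) * (1 + 2 * A) := by positivity
    linarith
  · exact lt_min (by norm_num) (by positivity)
  · exact (min_le_left _ _).trans (by norm_num)
  intro y l R b lam n hS hy hb hn hl0 hl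
  have hy0 := hS.y0
  have hy2 : y ≤ 1 / 2 := hy.trans (min_le_left _ _)
  have hyA : 240 * C * y ≤ A := by
    have := hy.trans (min_le_right _ _)
    rw [le_div_iff₀ (by positivity)] at this
    linarith
  have hy1 : y ≤ 1 := by linarith
  obtain ⟨p1, p2, p3, p4, p5, p6⟩ := pow_lowsum hy0 hy2
  have hl' := hS.l_pos
  have hV : 0 < l ^ 3 := pow_pos hl' 3
  have hρ : 0 < y ^ 800 := pow_pos hy0 _
  have hε : 0 < y ^ 80 := pow_pos hy0 _
  have hμ : D.mu0 y = A * y ^ 800 := by rw [hAd]; rfl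
  have hμ0 : 0 < D.mu0 y := D.mu0_pos hy0
  have hl0' : lam 0 = A / l ^ 3 := by rw [hAd]; exact hl0
  have hlam : ∀ m ∈ Lset R, 0 ≤ lam m ∧
      |n * lam m - A * y ^ 800| ≤ 2 * y ^ 80 * (A * y ^ 800) := by
    intro m hm
    refine beta_lowsum hA hρ hV hε.le (by linarith) hn ?_
    rw [← hl0']
    refine (hl m).trans ?_
    rw [hl0', ← mul_div_assoc]
    refine div_le_div_of_nonneg_right ?_ hV.le
    have h1 : sq3 (pk l m) ≤ 120 * (y * y ^ 80) := ((hS.mom m).2.2 hm).trans (by linarith)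
    have h2 : C * sq3 (pk l m) ≤ C * (120 * (y * y ^ 80)) := mul_le_mul_of_nonneg_left h1 hC0.le
    have h3 : 240 * C * y * (y ^ 80 / 2) ≤ A * (y ^ 80 / 2) :=
      mul_le_mul_of_nonneg_right hyA (by positivity)
    linarith
  have hP : ∀ m ∈ Lset R, 0 < sq3 (pk l m) ∧ y ^ 836 ≤ sq3 (pk l m) / 8 := by
    intro m hm
    have h1 := (hS.mom m).1 (mem_Lset.1 hm).1
    have h2 : 0 < y ^ 808 := pow_pos hy0 _
    exact ⟨by linarith, by linarith⟩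
  have hb' : ∀ m, |b m| ≤ sq3 (pk l m) / (2 * D.mu0 y) / 2 := fun m =>
    (hb m).trans (div_le_div_of_nonneg_right (min_le_left _ _) (by norm_num))
  refine ⟨fun m hm => ⟨(hlam m hm).1, ?_⟩, ?_⟩
  · obtain ⟨h1, h2⟩ := hP m hm
    have h3 := mul_le_mul_of_nonneg_left (abs_le.1 (hb' m)).1 hμ0.le
    have h4 : D.mu0 y * -(sq3 (pk l m) / (2 * D.mu0 y) / 2) = -(sq3 (pk l m) / 4) := by
      field_simp
      ring
    rw [h4] at h3
    linarith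
  have hterm : ∀ m ∈ Lset R, D.mu0 y * FF (D.tm y l m + b m) (D.tm y l m) -
      4 * (1 + A) * (1 + 2 * A) * y ^ 789 * y ^ 36 ≤
      bog (sq3 (pk l m) / 2 + D.mu0 y * b m - y ^ 836) (n * lam m) +
        n ^ 2 * (lam m ^ 2 / (2 * sq3 (pk l m))) := by
    intro m hm
    obtain ⟨h1, h2⟩ := hP m hm
    have h3 := mode_lowsum (x := n * lam m) (δ := 2 * y ^ 80) hμ0 h1 (hb' m)
      (pow_pos hy0 836).le h2 (by rw [hμ]; exact (hlam m hm).2) p2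
    obtain ⟨h4, h5⟩ := D.tm_pos hS (mem_Lset.1 hm).1
    rw [← hAd] at h5
    have h6 : y ^ 836 + 2 * y ^ 80 * D.mu0 y ≤ (1 + 2 * A) * (y ^ 8 * y ^ 36 * y ^ 789) := by
      have h7 : 2 * A * (y ^ 80 * y ^ 800) ≤ 2 * A * y ^ 836 :=
        mul_le_mul_of_nonneg_left p5 (by positivity)
      have h8 : (1 + 2 * A) * y ^ 836 ≤ (1 + 2 * A) * (y ^ 8 * y ^ 36 * y ^ 789) :=
        mul_le_mul_of_nonneg_left p6 (by positivity)
      rw [hμ]
      linarith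
    have h9 := err_lowsum (k := 0) hA (one_div_pos.2 h4).le (pow_pos hy0 8)
      (pow_le_one₀ hy0.le hy1) (pow_pos hy0 36) (pow_pos hy0 789) h5 (by positivity) h6
    have e1 : n ^ 2 * (lam m ^ 2 / (2 * sq3 (pk l m))) = (n * lam m) ^ 2 / (2 * sq3 (pk l m)) := by
      rw [mul_pow, mul_div_assoc]
    have e2 : D.tm y l m = sq3 (pk l m) / (2 * D.mu0 y) := rfl
    rw [e1]
    rw [← e2] at h3
    linarith
  have hsum := Finset.sum_le_sum hterm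
  rw [Finset.sum_sub_distrib, ← Finset.mul_sum, Finset.sum_const, nsmul_eq_mul] at hsum
  have hcard := hS.card_le hy1
  have h1 : ((Lset R).card : ℝ) * y ^ 36 * (4 * (1 + A) * (1 + 2 * A) * y ^ 789) ≤
      27 * (4 * (1 + A) * (1 + 2 * A) * y ^ 789) :=
    mul_le_mul_of_nonneg_right hcard (by positivity)
  have hn2 : n ≤ 2 * (y ^ 800 * l ^ 3) := by
    have h2 := (abs_le.1 hn).2
    have h3 : y ^ 80 * (y ^ 800 * l ^ 3) ≤ 1 * (y ^ 800 * l ^ 3) :=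
      mul_le_mul_of_nonneg_right (by linarith) (by positivity)
    linarith
  have h2 := mean_lowsum hA hV hn2
  have h3 : A * y ^ 800 ≤ A * y ^ 789 := mul_le_mul_of_nonneg_left p4 hA.le
  have h4 : 0 < y ^ 789 := pow_pos hy0 _
  have e1 : D.tgt y l R b = -(A / 2 * (y ^ 800) ^ 2 * l ^ 3) +
      D.mu0 y * ∑ m ∈ Lset R, FF (D.tm y l m + b m) (D.tm y l m) := by
    unfold Dat.tgt
    rw [hAd, ← pow_mul]
    ring
  rw [e1, hl0']
  nth_rewrite 1 [hμ]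
  linarith

end Pool.Agent.BoseLHY
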