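import Pool.Agent.Lib.MP_dec75e_mp.L.SumA

/-! Eigenvalues of the scattering kernels in a box. -/

open MeasureTheory Finset Function
open scoped Real

noncomputable section

namespace Pool.Agent.BoseLHY

open Pool.Agent.BoseTail

variable (D : Dat)

theorem p_lower_sums {B : Box} {s : ℝ} (hs : 0 < s) (h : B.Sz s) (m : M3) :
    nm m / s ^ 2 ≤ sq3 (B.p m) := by
  refine le_trans ?_ (h.sq3_p hs m).1
  have h1 : 0 ≤ nm m := Finset.sum_nonneg fun _ _ => sq_nonneg _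
  have h2 : (4 : ℝ) ≤ π ^ 2 := by nlinarith [Real.pi_gt_three]
  have h3 : π ^ 2 / (4 * s ^ 2) * nm m = π ^ 2 / 4 * (nm m / s ^ 2) := by ring
  rw [h3]
  exact le_mul_of_one_le_left (by positivity) (by linarith)

theorem vol_lower_sums {B : Box} {s : ℝ} (hs : 0 < s) (h : B.Sz s) : s ^ 3 / 8 ≤ B.vol := by
  have h1 : ∏ _c : Fin 3, s / 2 ≤ ∏ c, B.s c :=
    Finset.prod_le_prod (fun _ _ => by positivity) fun c _ => (h c).1
  simp only [Finset.prod_const, Finset.card_univ, Fintype.card_fin] at h1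
  unfold Box.vol
  linarith

theorem low_sums {C s : ℝ} {B : Box} (hs : 2 ≤ s) (h : B.Sz s)
    (hl : ∀ m, |D.lam B m| ≤ C / s ^ 3) (R : ℕ) (F : Finset M3)
    (hF : ∀ m ∈ F, m ∈ Lset ⌈s ^ 2⌉₊ ∧ ∃ c, m c ≤ R) :
    ∑ m ∈ F, D.lam B m ^ 2 / sq3 (B.p m) ≤ 36 * C ^ 2 * (R + 1) * (1 + Real.log s) / s ^ 4 := by
  have hs0 : 0 < s := by linarith
  have hN0 : 0 < ⌈s ^ 2⌉₊ := Nat.ceil_pos.2 (by positivity)
  have hN : (⌈s ^ 2⌉₊ : ℝ) ≤ s ^ 3 := by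
    have h1 := (Nat.ceil_lt_add_one (sq_nonneg s)).le
    nlinarith
  have hlog : Real.log (⌈s ^ 2⌉₊ : ℝ) ≤ 3 * Real.log s := by
    have := Real.log_le_log (by exact_mod_cast hN0) hN
    rwa [Real.log_pow, Nat.cast_ofNat] at this
  have h1 := lat_slab R _ hN0 F hF
  have h2 : ∑ m ∈ F, D.lam B m ^ 2 / sq3 (B.p m) ≤ ∑ m ∈ F, C ^ 2 / s ^ 4 * (1 / nm m) := by
    refine Finset.sum_le_sum fun m hm => ?_
    have a1 : 1 ≤ nm m := one_le_nm (mem_Lset.1 (hF m hm).1).1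
    have a2 : D.lam B m ^ 2 ≤ (C / s ^ 3) ^ 2 := by
      rw [← sq_abs]
      exact pow_le_pow_left₀ (abs_nonneg _) (hl m) 2
    calc D.lam B m ^ 2 / sq3 (B.p m) ≤ (C / s ^ 3) ^ 2 / (nm m / s ^ 2) :=
          div_le_div₀ (sq_nonneg _) a2 (by positivity) (p_lower_sums hs0 h m)
      _ = C ^ 2 / s ^ 4 * (1 / nm m) := by field_simp
  rw [← Finset.mul_sum] at h2
  have h3 : 12 * ((R : ℝ) + 1) * (1 + Real.log (⌈s ^ 2⌉₊ : ℝ)) ≤
      12 * ((R : ℝ) + 1) * (3 * (1 + Real.log s)) :=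
    mul_le_mul_of_nonneg_left (by linarith) (by positivity)
  calc _ ≤ C ^ 2 / s ^ 4 * (12 * ((R : ℝ) + 1) * (3 * (1 + Real.log s))) :=
        h2.trans (mul_le_mul_of_nonneg_left (h1.trans h3) (by positivity))
    _ = _ := by ring

theorem high_sums {s : ℝ} {B : Box} (hs : 2 * D.C ≤ s) (h : B.Sz s) (F : Finset M3)
    (hF : ∀ m ∈ F, High ⌈s ^ 2⌉₊ m) :
    ∑ m ∈ F, D.lam B m ^ 2 / sq3 (B.p m) ≤ 64 * (∫ z, D.g.1 z * D.g.1 z) / s ^ 4 := by
  have hC := D.hC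
  have hs0 : 0 < s := by linarith
  have hI : 0 ≤ ∫ z, D.g.1 z * D.g.1 z := integral_nonneg fun z => mul_self_nonneg _
  have hv := vol_lower_sums hs0 h
  have hv0 : 0 < B.vol := lt_of_lt_of_le (by positivity) hv
  have hP := B.pars_ct D.ev_g D.ev_g D.supp_g D.supp_g fun c => by linarith [(h c).1]
  have h1 := sum_le_hasSum F (fun m _ => mul_nonneg (by linarith [(wt3_bounds m).1])
    (mul_self_nonneg _)) hP
  have h2 : ∑ m ∈ F, D.lam B m ^ 2 / sq3 (B.p m) ≤ ∑ m ∈ F, 8 / (B.vol ^ 2 * s ^ 2) *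
      (wt3 m * (ct D.g.1 (B.p m) * ct D.g.1 (B.p m))) := by
    refine Finset.sum_le_sum fun m hm => ?_
    have a1 := (hF m hm).le_nm
    have a2 : s ^ 2 ≤ (⌈s ^ 2⌉₊ : ℝ) := Nat.le_ceil _
    have a3 : (s ^ 2) ^ 2 ≤ nm m :=
      (pow_le_pow_left₀ (sq_nonneg _) (by linarith) 2).trans a1
    have a4 : s ^ 2 ≤ sq3 (B.p m) := by
      refine le_trans ?_ (p_lower_sums hs0 h m)
      rw [le_div_iff₀ (by positivity)]
      nlinarith
    have a5 := (wt3_bounds m).1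
    have a6 := mul_self_nonneg (ct D.g.1 (B.p m))
    calc D.lam B m ^ 2 / sq3 (B.p m) ≤ D.lam B m ^ 2 / s ^ 2 :=
          div_le_div_of_nonneg_left (sq_nonneg _) (by positivity) a4
      _ = 8 / (B.vol ^ 2 * s ^ 2) * (1 / 8 * (ct D.g.1 (B.p m) * ct D.g.1 (B.p m))) := by
          unfold Dat.lam
          field_simp
      _ ≤ _ := mul_le_mul_of_nonneg_left (mul_le_mul_of_nonneg_right a5 a6) (by positivity)
  rw [← Finset.mul_sum] at h2
  generalize (∫ z, D.g.1 z * D.g.1 z) = I at hI h1 ⊢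
  calc _ ≤ 8 / (B.vol ^ 2 * s ^ 2) * (B.vol * I) :=
        h2.trans (mul_le_mul_of_nonneg_left h1 (by positivity))
    _ = 8 * I / (B.vol * s ^ 2) := by field_simp
    _ ≤ 8 * I / (s ^ 4 / 8) := by
        refine div_le_div_of_nonneg_left (by positivity) (by positivity) ?_
        have b1 : s ^ 3 / 8 * s ^ 2 ≤ B.vol * s ^ 2 := mul_le_mul_of_nonneg_right hv (sq_nonneg _)
        have b2 : s ^ 4 ≤ s ^ 5 := pow_le_pow_right₀ (by linarith) (by norm_num)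
        have b3 : s ^ 3 / 8 * s ^ 2 = s ^ 5 / 8 := by ring
        linarith
    _ = 64 * I / s ^ 4 := by field_simp; ring

/-- Modes in `Lset N`, `N = ⌈s²⌉`: `lat_slab` and the bound on `lam`. The others: `pars_ct` for
`g`, `g` and `p² ≥ π² N² / (4 s²)`. -/
theorem Dat.sum_slab : ∃ C : ℝ, 1 ≤ C ∧ ∀ (s : ℝ) (B : Box), 2 * D.C ≤ s → B.Sz s →
    ∀ (R : ℕ) (F : Finset M3), (∀ m ∈ F, m ≠ 0 ∧ ∃ c, m c ≤ R) →
      ∑ m ∈ F, D.lam B m ^ 2 / sq3 (B.p m) ≤ C * (R + 1) * (1 + Real.log s) / s ^ 4 := by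
  obtain ⟨C, hC, hl⟩ := D.lam_bounds
  have hI : 0 ≤ ∫ z, D.g.1 z * D.g.1 z := integral_nonneg fun z => mul_self_nonneg _
  refine ⟨36 * C ^ 2 + 64 * ∫ z, D.g.1 z * D.g.1 z, by nlinarith, fun s B hs hB R F hF => ?_⟩
  have hC1 := D.hC
  have hs0 : 0 < s := by linarith
  have h1 := low_sums D (by linarith) hB (fun m => (hl s B hs0 hB m).1) R
    (F.filter fun m => m ∈ Lset ⌈s ^ 2⌉₊) fun m hm =>
      ⟨(Finset.mem_filter.1 hm).2, (hF m (Finset.mem_filter.1 hm).1).2⟩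
  have h2 := high_sums D hs hB (F.filter fun m => ¬ m ∈ Lset ⌈s ^ 2⌉₊) fun m hm =>
    high_iff.2 ⟨(hF m (Finset.mem_filter.1 hm).1).1, (Finset.mem_filter.1 hm).2⟩
  rw [← Finset.sum_filter_add_sum_filter_not F fun m => m ∈ Lset ⌈s ^ 2⌉₊]
  generalize (∫ z, D.g.1 z * D.g.1 z) = I at hI h2 ⊢
  have h3 : 0 ≤ Real.log s := Real.log_nonneg (by linarith)
  have h4 : (1 : ℝ) ≤ ((R : ℝ) + 1) * (1 + Real.log s) :=
    one_le_mul_of_one_le_of_one_le (by linarith [Nat.cast_nonneg (α := ℝ) R]) (by linarith)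
  have h5 : 64 * I / s ^ 4 ≤ 64 * I * (((R : ℝ) + 1) * (1 + Real.log s)) / s ^ 4 :=
    div_le_div_of_nonneg_right (le_mul_of_one_le_right (by positivity) h4) (by positivity)
  calc _ ≤ 36 * C ^ 2 * (R + 1) * (1 + Real.log s) / s ^ 4 +
        64 * I * (((R : ℝ) + 1) * (1 + Real.log s)) / s ^ 4 := add_le_add h1 (h2.trans h5)
    _ = _ := by ring

end Pool.Agent.BoseLHY
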