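import Pool.Agent.Lib.MP_dec75e_mp.L.Pw
import Pool.Agent.Lib.MP_dec75e_mp.L.SumS

/-! The second Born term in a box. -/

open MeasureTheory Finset Function
open scoped Real

noncomputable section

namespace Pool.Agent.BoseLHY

open Pool.Agent.BoseTail

variable (D : Dat)

theorem lim_sumb {κ : Type} {a b e : κ → ℝ} {S E : ℝ} (ha : HasSum a S) (hb : ∀ n, 0 ≤ b n)
    (he0 : ∀ n, 0 ≤ e n) (hle : ∀ n, b n ≤ a n + e n) (he : ∀ T : Finset κ, ∑ n ∈ T, e n ≤ E)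
    (F : Finset κ) : ∑ n ∈ F, b n ≤ S + E := by
  have hs : Summable e := summable_of_sum_le he0 he
  have h1 : ∑ n ∈ F, (a n + e n) ≤ S + ∑' n, e n :=
    sum_le_hasSum F (fun n _ => (hb n).trans (hle n)) (ha.add hs.hasSum)
  have h2 : ∑' n, e n ≤ E := hs.tsum_le_of_sum_le he
  have h3 : ∑ n ∈ F, b n ≤ ∑ n ∈ F, (a n + e n) := sum_le_sum fun n _ => hle n
  linarith

theorem p_zero_sumb (B : Box) : B.p 0 = 0 := by
  funext c
  simp [Box.p]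

theorem sq3_zero_sumb : sq3 0 = 0 := by
  simp [sq3]

theorem psq_sumb {B : Box} {s : ℝ} (hs : 0 < s) (h : B.Sz s) (m : M3) :
    nm m / s ^ 2 ≤ sq3 (B.p m) := by
  refine le_trans ?_ (h.sq3_p hs m).1
  have hn : 0 ≤ nm m := sum_nonneg fun c _ => sq_nonneg _
  have hπ : (4 : ℝ) ≤ π ^ 2 := by nlinarith [Real.pi_gt_three]
  have h1 : 1 / s ^ 2 ≤ π ^ 2 / (4 * s ^ 2) := by
    rw [div_le_div_iff₀ (by positivity) (by positivity)]
    nlinarith [sq_nonneg s]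
  calc nm m / s ^ 2 = 1 / s ^ 2 * nm m := by ring
    _ ≤ _ := mul_le_mul_of_nonneg_right h1 hn

theorem ppos_sumb {B : Box} {s : ℝ} (hs : 0 < s) (h : B.Sz s) {m : M3} (hm : m ≠ 0) :
    0 < sq3 (B.p m) := by
  refine lt_of_lt_of_le ?_ (psq_sumb hs h m)
  have := one_le_nm hm
  positivity

theorem inv4_sumb {B : Box} {s : ℝ} (hs : 0 < s) (h : B.Sz s) (R : ℕ) (F : Finset M3)
    (hF : ∀ m ∈ F, High R m) :
    ∑ m ∈ F, 1 / sq3 (B.p m) ^ 2 ≤ s ^ 4 * (14 / ((R : ℝ) + 1)) := by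
  have h1 : ∀ m ∈ F, 1 / sq3 (B.p m) ^ 2 ≤ s ^ 4 * (1 / nm m ^ 2) := by
    intro m hm
    have hn := one_le_nm (high_iff.1 (hF m hm)).1
    have h2 := psq_sumb hs h m
    have h3 : 0 < nm m / s ^ 2 := by positivity
    calc 1 / sq3 (B.p m) ^ 2 ≤ 1 / (nm m / s ^ 2) ^ 2 :=
          one_div_le_one_div_of_le (by positivity) (pow_le_pow_left₀ h3.le h2 2)
      _ = s ^ 4 * (1 / nm m ^ 2) := by field_simp
  refine (sum_le_sum h1).trans ?_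
  rw [← mul_sum]
  exact mul_le_mul_of_nonneg_left (lat_high R F hF) (by positivity)

theorem inv4all_sumb {B : Box} {s : ℝ} (hs : 0 < s) (h : B.Sz s) (T : Finset M3) :
    ∑ m ∈ T, 1 / sq3 (B.p m) ^ 2 ≤ 14 * s ^ 4 := by
  have h1 : ∑ m ∈ T.erase 0, 1 / sq3 (B.p m) ^ 2 = ∑ m ∈ T, 1 / sq3 (B.p m) ^ 2 :=
    sum_erase T (by simp [p_zero_sumb, sq3_zero_sumb])
  have h2 := inv4_sumb hs h 0 (T.erase 0) fun m hm =>
    high_iff.2 ⟨ne_of_mem_erase hm, by simp [Lset_zero]⟩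
  rw [← h1]
  refine h2.trans (le_of_eq ?_)
  simp [mul_comm]

theorem pt_sumb {w g o m P V L s : ℝ} (hw0 : 0 ≤ w) (hw1 : w ≤ 1) (hP : 0 < P) (hV : 0 < V)
    (hs : 0 < s) (hL : |g / V| ≤ L) (h : P * o = g - m) :
    w * ((g / V) ^ 2 / P) ≤ w * (g * o) / V ^ 2 +
      L / (2 * V) * (s ^ 2 * (w * (m * m)) + 1 / s ^ 2 * (1 / P ^ 2)) := by
  have ho : o = (g - m) / P := by
    rw [← h]; field_simp
  have e1 : w * ((g / V) ^ 2 / P) = w * (g * o) / V ^ 2 + g / V * (w * m / P) / V := by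
    rw [ho]; field_simp; ring
  have e2 : |w * m / P| ≤ (s ^ 2 * (w * (m * m)) + 1 / s ^ 2 * (1 / P ^ 2)) / 2 := by
    have a1 : s ^ 2 * (w * m) ^ 2 ≤ s ^ 2 * (w * (m * m)) := by
      refine mul_le_mul_of_nonneg_left ?_ (sq_nonneg s)
      have : 0 ≤ w * (1 - w) * (m * m) :=
        mul_nonneg (mul_nonneg hw0 (sub_nonneg.2 hw1)) (mul_self_nonneg m)
      nlinarith
    have a2 : w * m / P = (s * (w * m)) * (1 / (s * P)) := by field_simp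
    have a3 : 1 / s ^ 2 * (1 / P ^ 2) = (1 / (s * P)) ^ 2 := by field_simp
    have a4 : s ^ 2 * (w * m) ^ 2 = (s * (w * m)) ^ 2 := by ring
    rw [a2, a3, abs_le]
    constructor
    · nlinarith [sq_nonneg (s * (w * m) + 1 / (s * P))]
    · nlinarith [sq_nonneg (s * (w * m) - 1 / (s * P))]
  have hL0 : 0 ≤ L := (abs_nonneg _).trans hL
  have e3 : g / V * (w * m / P) ≤
      L * ((s ^ 2 * (w * (m * m)) + 1 / s ^ 2 * (1 / P ^ 2)) / 2) := by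
    refine (le_abs_self _).trans ?_
    rw [abs_mul]
    exact mul_le_mul hL e2 (abs_nonneg _) hL0
  rw [e1]
  refine add_le_add le_rfl ?_
  refine (div_le_div_of_nonneg_right e3 hV.le).trans (le_of_eq ?_)
  field_simp

theorem num_sumb {C C₁ s V I : ℝ} (hs : 0 < s) (hV : s ^ 3 / 8 ≤ V) (hC₁ : 0 ≤ C₁)
    (hI : I ≤ 8 * (C / (s / 8) ^ 3 * (C / (s / 8) ^ 3)) * (2 * (s / 8)) ^ 3) :
    C₁ / s ^ 3 / (2 * V) * (s ^ 2 * (V * I) + 1 / s ^ 2 * (14 * s ^ 4)) ≤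
      C₁ * (16384 * C ^ 2 + 56) / s ^ 4 := by
  have hV0 : 0 < V := lt_of_lt_of_le (by positivity) hV
  have e1 : 8 * (C / (s / 8) ^ 3 * (C / (s / 8) ^ 3)) * (2 * (s / 8)) ^ 3 =
      32768 * C ^ 2 / s ^ 3 := by
    field_simp; ring
  rw [e1] at hI
  have e2 : C₁ / s ^ 3 / (2 * V) * (s ^ 2 * (V * I) + 1 / s ^ 2 * (14 * s ^ 4)) =
      C₁ / (2 * s) * I + 7 * C₁ / s * (1 / V) := by
    field_simp; ring
  have e3 : C₁ / (2 * s) * I ≤ C₁ / (2 * s) * (32768 * C ^ 2 / s ^ 3) :=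
    mul_le_mul_of_nonneg_left hI (by positivity)
  have e4 : 7 * C₁ / s * (1 / V) ≤ 7 * C₁ / s * (1 / (s ^ 3 / 8)) :=
    mul_le_mul_of_nonneg_left (one_div_le_one_div_of_le (by positivity) hV) (by positivity)
  have e5 : C₁ / (2 * s) * (32768 * C ^ 2 / s ^ 3) + 7 * C₁ / s * (1 / (s ^ 3 / 8)) =
      C₁ * (16384 * C ^ 2 + 56) / s ^ 4 := by
    field_simp; ring
  linarith

theorem Dat.wt_sumb : ∃ C : ℝ, 0 ≤ C ∧ ∀ (s : ℝ) (B : Box), 8 * D.C ≤ s → B.Sz s →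
    ∀ F : Finset M3, ∑ m ∈ F, wt3 m * (D.lam B m ^ 2 / sq3 (B.p m)) ≤
      D.lam' B 0 + C / s ^ 4 := by
  obtain ⟨C₁, hC₁, hl⟩ := D.lam_bounds
  have hC := D.hC
  refine ⟨C₁ * (16384 * D.C ^ 2 + 56), by positivity, fun s B hs hB F => ?_⟩
  have hs0 : 0 < s := by linarith
  obtain ⟨ω, μ, eω, eμ, sω, sμ, ω0, ωf, μb, hk⟩ := D.tr (s / 8) (by linarith)
  have hr : ∀ c, 2 * (s / 8) ≤ B.s c := fun c => by linarith [(hB c).1]
  have sg : Supp D.g.1 (2 * (s / 8)) := D.supp_g.mono (by linarith)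
  have hV := B.vol_pos
  have P1 := (B.pars_ct D.ev_g eω sg sω hr).div_const (B.vol ^ 2)
  have P2 := B.pars_ct eμ eμ sμ sμ hr
  have hI : ∫ z, μ.1 z * μ.1 z ≤
      8 * (D.C / (s / 8) ^ 3 * (D.C / (s / 8) ^ 3)) * (2 * (s / 8)) ^ 3 := by
    have h1 : Supp (fun z => μ.1 z * μ.1 z) (2 * (s / 8)) := fun z hz => by
      simp only [sμ z hz, mul_zero]
    have h2 := h1.integral_abs_le (M := D.C / (s / 8) ^ 3 * (D.C / (s / 8) ^ 3)) (by positivity)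
      fun z => by
        rw [abs_mul]
        exact mul_le_mul (μb z) (μb z) (abs_nonneg _) (by positivity)
    simpa only [abs_mul_self] using h2
  have hg : ∫ z, D.g.1 z * ω.1 z = ∫ z, D.g'.1 z := by
    refine integral_congr_ae (Filter.Eventually.of_forall fun z => ?_)
    change D.w.1 z * D.f.1 z * ω.1 z = D.w.1 z * D.f.1 z * (1 - D.f.1 z)
    by_cases hz : D.w.1 z = 0
    · simp [hz]
    · rw [ωf z hz]
  have hS : (B.vol * ∫ z, D.g.1 z * ω.1 z) / B.vol ^ 2 = D.lam' B 0 := by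
    rw [hg, Dat.lam', p_zero_sumb, ct_zero]
    field_simp
  rw [hS] at P1
  have hw0 : ∀ m, 0 ≤ wt3 m := fun m => le_trans (by norm_num) (wt3_bounds m).1
  have hK : 0 ≤ C₁ / s ^ 3 / (2 * B.vol) := by positivity
  have he0 : ∀ m, 0 ≤ C₁ / s ^ 3 / (2 * B.vol) *
      (s ^ 2 * (wt3 m * (ct μ.1 (B.p m) * ct μ.1 (B.p m))) +
        1 / s ^ 2 * (1 / sq3 (B.p m) ^ 2)) := fun m =>
    mul_nonneg hK (add_nonneg
      (mul_nonneg (sq_nonneg _) (mul_nonneg (hw0 m) (mul_self_nonneg _))) (by positivity))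
  refine lim_sumb P1 (fun m => mul_nonneg (hw0 m) (div_nonneg (sq_nonneg _) (sq3_nonneg _))) he0
    (fun m => ?_) (fun T => ?_) F
  · by_cases hm : m = 0
    · have h1 : 0 ≤ ct D.g.1 (B.p m) := by
        rw [hm, p_zero_sumb, ct_zero]
        exact integral_nonneg fun z => (D.g_bounds z).1.trans (D.g_bounds z).2.1
      have h2 : 0 ≤ ct ω.1 (B.p m) := by
        rw [hm, p_zero_sumb, ct_zero]
        exact integral_nonneg ω0
      have h3 : sq3 (B.p m) = 0 := by rw [hm, p_zero_sumb, sq3_zero_sumb]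
      have h4 : wt3 m * (D.lam B m ^ 2 / sq3 (B.p m)) = 0 := by rw [h3, div_zero, mul_zero]
      rw [h4]
      exact add_nonneg (div_nonneg (mul_nonneg (hw0 m) (mul_nonneg h1 h2)) (sq_nonneg _)) (he0 m)
    · exact pt_sumb (hw0 m) (wt3_bounds m).2 (ppos_sumb hs0 hB hm) hV hs0 (hl s B hs0 hB m).1
        (hk (B.p m))
  · refine le_trans ?_ (num_sumb hs0 hB.vol.1 (by linarith) hI)
    rw [← mul_sum, sum_add_distrib, ← mul_sum, ← mul_sum]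
    refine mul_le_mul_of_nonneg_left (add_le_add ?_ ?_) hK
    · exact mul_le_mul_of_nonneg_left
        (sum_le_hasSum T (fun m _ => mul_nonneg (hw0 m) (mul_self_nonneg _)) P2) (sq_nonneg _)
    · exact mul_le_mul_of_nonneg_left (inv4all_sumb hs0 hB T) (by positivity)

theorem gap_sumb {l P γ L : ℝ} (hP : 0 < P) (hγ : 0 ≤ γ) (h4 : 4 * γ ≤ P) (hl : |l| ≤ L) :
    l ^ 2 / (4 * (P / 2 - γ)) ≤ l ^ 2 / (2 * P) + 2 * γ * L ^ 2 * (1 / P ^ 2) := by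
  have hτ : 0 < P / 2 - γ := by linarith
  have h1 : l ^ 2 ≤ L ^ 2 := by
    rw [← sq_abs l]
    exact pow_le_pow_left₀ (abs_nonneg _) hl 2
  have h2 : 1 / (4 * (P / 2 - γ)) ≤ 1 / (2 * P) + 2 * γ * (1 / P ^ 2) := by
    have e : 1 / (2 * P) + 2 * γ * (1 / P ^ 2) = (P + 4 * γ) / (2 * P ^ 2) := by
      field_simp; ring
    rw [e, div_le_div_iff₀ (by positivity) (by positivity)]
    nlinarith [mul_nonneg hγ (sub_nonneg.2 h4)]
  have h3 : l ^ 2 * (2 * γ * (1 / P ^ 2)) ≤ L ^ 2 * (2 * γ * (1 / P ^ 2)) :=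
    mul_le_mul_of_nonneg_right h1 (by positivity)
  calc l ^ 2 / (4 * (P / 2 - γ)) = l ^ 2 * (1 / (4 * (P / 2 - γ))) := by ring
    _ ≤ l ^ 2 * (1 / (2 * P) + 2 * γ * (1 / P ^ 2)) :=
        mul_le_mul_of_nonneg_left h2 (sq_nonneg _)
    _ = l ^ 2 / (2 * P) + l ^ 2 * (2 * γ * (1 / P ^ 2)) := by ring
    _ ≤ l ^ 2 / (2 * P) + L ^ 2 * (2 * γ * (1 / P ^ 2)) := add_le_add le_rfl h3
    _ = _ := by ring

/-- Take `ω`, `m` from `D.tr` with `R = s / 8`. Then `ĝ² / p² = ĝ ω̂ + ĝ m̂ / p²` for `p ≠ 0`.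
With the weights `wt3`: `∑ wt ĝ ω̂ = vol ∫ g ω = vol ∫ g'` (`pars_ct`), the term of the zero mode
is nonnegative, and `∑ wt |ĝ m̂| / p² ≤ C √(∑ wt m̂²) √(∑ p⁻⁴) ≤ C s²` (`pars_ct`, `lat_high 0`).
The modes with `wt3 m ≠ 1` are treated by `sum_slab` with `R = 0`. -/
theorem Dat.sum_main : ∃ C s₀ : ℝ, 1 ≤ C ∧ 2 * D.C ≤ s₀ ∧ ∀ (s : ℝ) (B : Box), s₀ ≤ s → B.Sz s →
    ∀ F : Finset M3, (∀ m ∈ F, m ≠ 0) →
      ∑ m ∈ F, D.lam B m ^ 2 / (2 * sq3 (B.p m)) ≤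
        D.lam' B 0 / 2 + C * (1 + Real.log s) / s ^ 4 := by
  obtain ⟨C₁, hC₁, h1⟩ := D.wt_sumb
  obtain ⟨C₂, hC₂, h2⟩ := D.sum_slab
  have hC := D.hC
  refine ⟨C₁ + C₂, 8 * D.C, by linarith, by linarith, fun s B hs hB F hF => ?_⟩
  have hs0 : 0 < s := by linarith
  have hlog : 0 ≤ Real.log s := Real.log_nonneg (by linarith)
  have a1 := h1 s B hs hB F
  have a2 := h2 s B (by linarith) hB 0 (F.filter fun m => ∃ c, m c ≤ 0) fun m hm =>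
    ⟨hF m (mem_filter.1 hm).1, (mem_filter.1 hm).2⟩
  rw [sum_filter] at a2
  have a3 : ∀ m ∈ F, D.lam B m ^ 2 / (2 * sq3 (B.p m)) ≤
      (wt3 m * (D.lam B m ^ 2 / sq3 (B.p m)) +
        if ∃ c, m c ≤ 0 then D.lam B m ^ 2 / sq3 (B.p m) else 0) / 2 := by
    intro m _
    have e : D.lam B m ^ 2 / (2 * sq3 (B.p m)) = D.lam B m ^ 2 / sq3 (B.p m) / 2 := by ring
    have h0 : 0 ≤ D.lam B m ^ 2 / sq3 (B.p m) := div_nonneg (sq_nonneg _) (sq3_nonneg _)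
    rw [e]
    split_ifs with hm
    · have := mul_nonneg (le_trans (by norm_num) (wt3_bounds m).1 : 0 ≤ wt3 m) h0
      linarith
    · have hb : Bulk 0 m := fun c => not_le.1 fun hc => hm ⟨c, hc⟩
      rw [wt3_bulk hb]
      linarith
  refine (sum_le_sum a3).trans ?_
  rw [← sum_div, sum_add_distrib]
  have a4 : C₁ / s ^ 4 ≤ C₁ * (1 + Real.log s) / s ^ 4 :=
    div_le_div_of_nonneg_right (by nlinarith) (by positivity)
  have a5 : C₂ * (((0 : ℕ) : ℝ) + 1) * (1 + Real.log s) / s ^ 4 =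
      C₂ * (1 + Real.log s) / s ^ 4 := by simp
  have a6 : (C₁ + C₂) * (1 + Real.log s) / s ^ 4 =
      C₁ * (1 + Real.log s) / s ^ 4 + C₂ * (1 + Real.log s) / s ^ 4 := by ring
  have a7 : 0 ≤ C₁ * (1 + Real.log s) / s ^ 4 := by positivity
  have a8 : 0 ≤ C₂ * (1 + Real.log s) / s ^ 4 := by positivity
  rw [a5] at a2
  linarith

/-- `λ² / (4 τ) - λ² / (2 p²) ≤ 2 γ λ² / p⁴` for `τ = p² / 2 - γ ≥ p² / 4`, then `lat_high`. -/
theorem Dat.sum_gap : ∃ C s₀ : ℝ, 1 ≤ C ∧ 2 * D.C ≤ s₀ ∧ ∀ (s : ℝ) (B : Box), s₀ ≤ s → B.Sz s →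
    ∀ (R : ℕ) (γ : ℝ), 0 ≤ γ → (∀ m, High R m → 4 * γ ≤ sq3 (B.p m)) →
    ∀ F : Finset M3, (∀ m ∈ F, High R m) →
      ∑ m ∈ F, D.lam B m ^ 2 / (4 * (sq3 (B.p m) / 2 - γ)) +
          ∑ m ∈ Lset R, D.lam B m ^ 2 / (2 * sq3 (B.p m)) ≤
        D.lam' B 0 / 2 + (C * (1 + Real.log s) / s ^ 4 + C * γ / (s ^ 2 * (R + 1))) := by
  obtain ⟨C₁, s₀, hC₁, hs₀, h1⟩ := D.sum_main
  obtain ⟨C₂, hC₂, h2⟩ := D.lam_bounds
  have hC := D.hC
  refine ⟨C₁ + 28 * C₂ ^ 2, s₀, by nlinarith, hs₀, fun s B hs hB R γ hγ hp F hF => ?_⟩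
  have hs0 : 0 < s := by linarith
  have hlog : 0 ≤ Real.log s := Real.log_nonneg (by linarith)
  have hd : Disjoint F (Lset R) := disjoint_left.2 fun m hm => (high_iff.1 (hF m hm)).2
  have a1 := h1 s B hs hB (F ∪ Lset R) fun m hm => by
    rcases mem_union.1 hm with h | h
    · exact (high_iff.1 (hF m h)).1
    · exact (mem_Lset.1 h).1
  rw [sum_union hd] at a1
  have a2 : ∀ m ∈ F, D.lam B m ^ 2 / (4 * (sq3 (B.p m) / 2 - γ)) ≤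
      D.lam B m ^ 2 / (2 * sq3 (B.p m)) +
        2 * γ * (C₂ / s ^ 3) ^ 2 * (1 / sq3 (B.p m) ^ 2) := fun m hm =>
    gap_sumb (ppos_sumb hs0 hB (high_iff.1 (hF m hm)).1) hγ (hp m (hF m hm))
      (h2 s B hs0 hB m).1
  have a3 := sum_le_sum a2
  rw [sum_add_distrib, ← mul_sum] at a3
  have a4 : 2 * γ * (C₂ / s ^ 3) ^ 2 * ∑ m ∈ F, 1 / sq3 (B.p m) ^ 2 ≤
      2 * γ * (C₂ / s ^ 3) ^ 2 * (s ^ 4 * (14 / ((R : ℝ) + 1))) :=
    mul_le_mul_of_nonneg_left (inv4_sumb hs0 hB R F hF) (by positivity)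
  have a5 : 2 * γ * (C₂ / s ^ 3) ^ 2 * (s ^ 4 * (14 / ((R : ℝ) + 1))) =
      28 * C₂ ^ 2 * γ / (s ^ 2 * (R + 1)) := by
    field_simp; ring
  have a6 : (C₁ + 28 * C₂ ^ 2) * (1 + Real.log s) / s ^ 4 =
      C₁ * (1 + Real.log s) / s ^ 4 + 28 * C₂ ^ 2 * (1 + Real.log s) / s ^ 4 := by ring
  have a7 : (C₁ + 28 * C₂ ^ 2) * γ / (s ^ 2 * (R + 1)) =
      C₁ * γ / (s ^ 2 * (R + 1)) + 28 * C₂ ^ 2 * γ / (s ^ 2 * (R + 1)) := by ring
  have a8 : 0 ≤ 28 * C₂ ^ 2 * (1 + Real.log s) / s ^ 4 := by positivity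
  have a9 : 0 ≤ C₁ * γ / (s ^ 2 * (R + 1)) := by positivity
  linarith

end Pool.Agent.BoseLHY
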