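import Pool.Agent.Lib.MP_dec75e_mp.L.Gen
import Pool.Agent.Lib.MP_dec75e_mp.L.SumB
import Pool.Agent.Lib.MP_dec75e_mp.L.LowSum

/-! The second order lower bound for states with few low excitations. -/

open MeasureTheory Finset Function
open scoped Real

noncomputable section

namespace Pool.Agent.BoseLHY

open Pool.Agent.BoseTail

theorem inv_le_boxc {y l : ℝ} {R : ℕ} (h : Scale y l R) (n : ℕ) : 1 / l ^ n ≤ y ^ (404 * n) := by
  have hl := h.l_pos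
  rw [div_le_iff₀ (pow_pos hl n), pow_mul, ← mul_pow, mul_comm]
  exact one_le_pow₀ h.l1

theorem div_le_boxc {y l A C : ℝ} {R : ℕ} (h : Scale y l R) (n : ℕ) (hA : 0 ≤ A) (hC : A ≤ C) :
    A / l ^ n ≤ C * y ^ (404 * n) := by
  rw [div_eq_mul_one_div]
  exact mul_le_mul hC (inv_le_boxc h n) (by have := h.l_pos; positivity) (hA.trans hC)

theorem big_boxc {y l s : ℝ} {R : ℕ} (h : Scale y l R) (hy : y ≤ 1) (hs : 0 < s)
    (hys : y ≤ 1 / s) : s ≤ l := by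
  have h0 := h.y0
  have hl := h.l_pos
  have h1 : y ^ 404 ≤ y := pow_le_of_le_one h0.le hy (by norm_num)
  have h2 : l * y ^ 404 ≤ l * (1 / s) := mul_le_mul_of_nonneg_left (h1.trans hys) hl.le
  have h3 := h.l1.trans h2
  rwa [mul_one_div, le_div_iff₀ hs, one_mul] at h3

theorem gap_boxc {y : ℝ} (h0 : 0 < y) (hy : y ≤ 1 / 4) : 4 * y ^ 796 ≤ y ^ 784 := by
  have h1 : y ^ 12 ≤ y := pow_le_of_le_one h0.le (by linarith) (by norm_num)
  have h2 : y ^ 796 = y ^ 784 * y ^ 12 := by rw [← pow_add]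
  have h3 : 0 < y ^ 784 := pow_pos h0 _
  rw [h2]
  nlinarith

theorem log_boxc {y l : ℝ} {R : ℕ} (h : Scale y l R) (hy : y ≤ 1) :
    0 ≤ 1 + Real.log l ∧ (1 + Real.log l) / l ^ 4 ≤ 406 * y ^ 1615 := by
  have h0 := h.y0
  have hl1 : 1 ≤ l := big_boxc h hy one_pos (by simpa using hy)
  have h1 : 0 ≤ 1 + Real.log l := by have := Real.log_nonneg hl1; linarith
  refine ⟨h1, (div_le_boxc h 4 h1 le_rfl).trans ?_⟩
  have h2 : y ^ (404 * 4) = y * y ^ 1615 := by rw [← pow_succ']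
  rw [h2, ← mul_assoc]
  exact mul_le_mul_of_nonneg_right (h.log_le hy) (pow_pos h0 _).le

theorem low_boxc {y l A : ℝ} {R : ℕ} (h : Scale y l R) (lam : M3 → ℝ)
    (hlam : ∀ m, |lam m| ≤ A / l ^ 3) :
    ∑ m ∈ Lset R, lam m ^ 2 / (2 * sq3 (pk l m)) ≤ 14 * A ^ 2 * y ^ 1604 := by
  have h0 := h.y0
  have hl := h.l_pos
  have h1 : ∀ m ∈ Lset R, lam m ^ 2 / (2 * sq3 (pk l m)) ≤ A ^ 2 / l ^ 4 * (1 / nm m) := by
    intro m hm
    have hn := one_le_nm (mem_Lset.1 hm).1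
    have h2 : lam m ^ 2 ≤ (A / l ^ 3) ^ 2 := sq_le_sq' (abs_le.1 (hlam m)).1 (abs_le.1 (hlam m)).2
    have hpi : 1 ≤ 2 * π ^ 2 := by nlinarith [Real.pi_gt_three]
    have h3 : nm m / l ^ 2 ≤ 2 * sq3 (pk l m) := by
      rw [sq3_pk]
      calc nm m / l ^ 2 = 1 * (nm m / l ^ 2) := (one_mul _).symm
        _ ≤ 2 * π ^ 2 * (nm m / l ^ 2) := mul_le_mul_of_nonneg_right hpi (by positivity)
        _ = _ := by ring
    calc lam m ^ 2 / (2 * sq3 (pk l m)) ≤ (A / l ^ 3) ^ 2 / (nm m / l ^ 2) :=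
          div_le_div₀ (sq_nonneg _) h2 (by positivity) h3
      _ = A ^ 2 / l ^ 4 * (1 / nm m) := by field_simp
  refine (Finset.sum_le_sum h1).trans ?_
  rw [← Finset.mul_sum]
  have h4 : A ^ 2 / l ^ 4 ≤ A ^ 2 * y ^ (404 * 4) := div_le_boxc h 4 (sq_nonneg _) le_rfl
  have h5 : y ^ (404 * 4) = y ^ 1604 * y ^ 12 := by rw [← pow_add]
  calc A ^ 2 / l ^ 4 * ∑ m ∈ Lset R, 1 / nm m ≤ A ^ 2 * y ^ (404 * 4) * (7 * R) :=
        mul_le_mul h4 (lat_low R) (Finset.sum_nonneg fun m hm => by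
          have := one_le_nm (mem_Lset.1 hm).1
          positivity) (by positivity)
    _ = 7 * A ^ 2 * y ^ 1604 * (R * y ^ 12) := by rw [h5]; ring
    _ ≤ 7 * A ^ 2 * y ^ 1604 * 2 := mul_le_mul_of_nonneg_left h.r2 (by positivity)
    _ = _ := by ring

theorem high_boxc {y q A x : ℝ} (h0 : 0 < y) (hy : y ≤ 1 / 4) (hq : 2 * y ^ 784 ≤ q)
    (hx : |x| ≤ A * y ^ 1212) :
    0 < q / 2 - 2 * y ^ 796 ∧ x ^ 2 / (4 * (q / 2 - 2 * y ^ 796)) ≤ A ^ 2 * y ^ 1640 := by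
  have h1 := gap_boxc h0 hy
  have h2 : 0 < y ^ 784 := pow_pos h0 _
  have h3 : x ^ 2 ≤ (A * y ^ 1212) ^ 2 := sq_le_sq' (abs_le.1 hx).1 (abs_le.1 hx).2
  refine ⟨by linarith, ?_⟩
  calc x ^ 2 / (4 * (q / 2 - 2 * y ^ 796)) ≤ (A * y ^ 1212) ^ 2 / y ^ 784 :=
        div_le_div₀ (sq_nonneg _) h3 h2 (by linarith)
    _ = A ^ 2 * y ^ 1640 := by
        rw [div_eq_iff h2.ne', mul_pow, ← pow_mul, mul_assoc, ← pow_add]

theorem slab_boxc {y l A : ℝ} {R : ℕ} (h : Scale y l R) (hy : y ≤ 1) (hA : 0 ≤ A) :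
    A * (R + 1) * (1 + Real.log l) / l ^ 4 ≤ 1218 * A * y ^ 1603 := by
  have h0 := h.y0
  obtain ⟨_, h2⟩ := log_boxc h hy
  have h3 : y ^ 12 ≤ 1 := pow_le_one₀ h0.le hy
  have h4 : ((R : ℝ) + 1) * y ^ 12 ≤ 3 := by have := h.r2; linarith
  have h5 : y ^ 1615 = y ^ 1603 * y ^ 12 := by rw [← pow_add]
  calc A * (R + 1) * (1 + Real.log l) / l ^ 4 = A * (R + 1) * ((1 + Real.log l) / l ^ 4) := by ring
    _ ≤ A * (R + 1) * (406 * y ^ 1615) := mul_le_mul_of_nonneg_left h2 (by positivity)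
    _ = 406 * A * y ^ 1603 * ((R + 1) * y ^ 12) := by rw [h5]; ring
    _ ≤ 406 * A * y ^ 1603 * 3 := mul_le_mul_of_nonneg_left h4 (by positivity)
    _ = _ := by ring

theorem err_boxc {y l A : ℝ} {R : ℕ} (h : Scale y l R) (hy : y ≤ 1) (hA : 0 ≤ A) :
    A * (1 + Real.log l) / l ^ 4 + A * (2 * y ^ 796) / (l ^ 2 * (R + 1)) ≤
      408 * A * y ^ 1615 := by
  have h0 := h.y0
  have hl := h.l_pos
  obtain ⟨_, h2⟩ := log_boxc h hy
  have h3 : A * (1 + Real.log l) / l ^ 4 ≤ A * (406 * y ^ 1615) := by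
    rw [mul_div_assoc]
    exact mul_le_mul_of_nonneg_left h2 hA
  have h4 : 1 / ((R : ℝ) + 1) ≤ y ^ 12 := by
    rw [div_le_iff₀ (by positivity)]
    have := h.r1
    have := pow_pos h0 12
    linarith
  have h5 := inv_le_boxc h 2
  have h6 : y ^ 796 * y ^ (404 * 2) * y ^ 12 = y ^ 1615 * y := by
    rw [← pow_add, ← pow_add, ← pow_succ]
  have h7 : A * (2 * y ^ 796) / (l ^ 2 * (R + 1)) ≤ 2 * A * y ^ 1615 := by
    calc A * (2 * y ^ 796) / (l ^ 2 * (R + 1))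
        = 2 * A * (y ^ 796 * (1 / l ^ 2) * (1 / ((R : ℝ) + 1))) := by field_simp
      _ ≤ 2 * A * (y ^ 796 * y ^ (404 * 2) * y ^ 12) := by gcongr
      _ = 2 * A * y ^ 1615 * y := by rw [h6]; ring
      _ ≤ 2 * A * y ^ 1615 := mul_le_of_le_one_right (by positivity) hy
  linarith

/-- The constants of `gen` for a cube at the chosen scales; `γ = 2 y^796` in `sum_gap`. -/
theorem box_consts (D : Dat) : ∃ C y₀ : ℝ, 1 ≤ C ∧ 0 < y₀ ∧ y₀ ≤ 1 ∧
    ∀ (y l : ℝ) (R : ℕ) (B : Box), Scale y l R → y ≤ y₀ → B.Cube l →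
      (∀ c, D.C ≤ B.s c) ∧ D.mu0 y ≤ y ^ 796 ∧
      (∀ m, |D.lam B m| ≤ C * y ^ 1212) ∧
      (∀ m, |D.lam B m - D.lam B 0| ≤ C * sq3 (pk l m) / l ^ 3) ∧
      (∀ m ∈ Lset R, D.lam' B 0 - D.lam' B m ≤ C * y ^ 1996) ∧
      (∫ x, ∫ z, (D.bk B 1).1 (x, z) ∂(B.μ : Measure R3) ∂(B.μ : Measure R3) ≤ C * y ^ 1616) ∧
      (∀ χ, Wgt χ → ∀ z, ∫ x, (D.W χ).1 (x, z) ∂(B.μ : Measure R3) ≤ C * y ^ 1212) ∧
      (∀ χ, Wgt χ → ∀ x, ∫ z, (D.W χ).1 (x, z) ∂(B.μ : Measure R3) ≤ C * y ^ 1212) ∧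
      (∑ m ∈ Lset R, D.lam B m ^ 2 / (2 * sq3 (pk l m)) ≤ C * y ^ 1604) ∧
      (∀ m, High R m → 0 < sq3 (pk l m) / 2 - 2 * y ^ 796 ∧
        D.lam B m ^ 2 / (4 * (sq3 (pk l m) / 2 - 2 * y ^ 796)) ≤ C * y ^ 1640) ∧
      (∀ F : Finset M3, (∀ m ∈ F, High R m ∧ ¬Bulk R m) →
        ∑ m ∈ F, D.lam B m ^ 2 / (4 * (sq3 (pk l m) / 2 - 2 * y ^ 796)) ≤ C * y ^ 1603) ∧
      ∀ F : Finset M3, (∀ m ∈ F, High R m) →
        ∑ m ∈ F, D.lam B m ^ 2 / (4 * (sq3 (pk l m) / 2 - 2 * y ^ 796)) +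
          ∑ m ∈ Lset R, D.lam B m ^ 2 / (2 * sq3 (pk l m)) ≤ D.lam' B 0 / 2 + C * y ^ 1615 := by
  obtain ⟨C1, hC1, H1⟩ := D.lam_bounds
  obtain ⟨C2, hC2, H2⟩ := D.int_bounds
  obtain ⟨C3, hC3, H3⟩ := D.sum_slab
  obtain ⟨C4, s₀, hC4, hs₀, H4⟩ := D.sum_gap
  have hDC := D.hC
  have ha : 0 < 4 * π * D.a := by have := D.ha; positivity
  have hs0 : 0 < s₀ := by linarith
  have hsq : 0 ≤ C1 ^ 2 := sq_nonneg _
  refine ⟨120 * C1 + C2 + 14 * C1 ^ 2 + 1218 * C3 + 408 * C4,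
    min (1 / 4) (min (1 / s₀) (1 / (4 * π * D.a))), by linarith, by positivity,
    (min_le_left _ _).trans (by norm_num), ?_⟩
  intro y l R B h hy hB
  set C := 120 * C1 + C2 + 14 * C1 ^ 2 + 1218 * C3 + 408 * C4 with hC
  have h0 := h.y0
  have hl := h.l_pos
  have hy4 : y ≤ 1 / 4 := hy.trans (min_le_left _ _)
  have hy1 : y ≤ 1 := by linarith
  have hys : y ≤ 1 / s₀ := hy.trans ((min_le_right _ _).trans (min_le_left _ _))
  have hya : y ≤ 1 / (4 * π * D.a) := hy.trans ((min_le_right _ _).trans (min_le_right _ _))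
  have hsl : s₀ ≤ l := big_boxc h hy1 hs0 hys
  have up : ∀ {A : ℝ} (n : ℕ), A ≤ C → A * y ^ n ≤ C * y ^ n := fun n hA =>
    mul_le_mul_of_nonneg_right hA (pow_pos h0 n).le
  have G1 := H1 l B hl hB.sz
  obtain ⟨G2, G3, G4⟩ := H2 l B hl hB.sz
  have G5 := H3 l B (by linarith) hB.sz R
  have hgap : ∀ m, High R m → 4 * (2 * y ^ 796) ≤ sq3 (pk l m) := by
    intro m hm
    have := (h.mom m).2.1 hm
    have := gap_boxc h0 hy4
    linarith
  have G6 := H4 l B hsl hB.sz R (2 * y ^ 796) (by positivity)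
  simp only [hB.p_eq] at G1 G5 G6
  have hlam : ∀ m, |D.lam B m| ≤ C1 * y ^ 1212 := fun m =>
    (G1 m).1.trans (div_le_boxc h 3 (by linarith) le_rfl)
  refine ⟨fun c => by rw [hB c]; linarith, ?_, fun m => (hlam m).trans (up _ (by linarith)),
    fun m => (G1 m).2.1.trans ?_, fun m hm => ?_,
    G2.trans (div_le_boxc h 4 (by linarith) (by linarith)),
    fun χ hχ z => (G3 χ hχ z).trans (div_le_boxc h 3 (by linarith) (by linarith)),
    fun χ hχ z => (G4 χ hχ z).trans (div_le_boxc h 3 (by linarith) (by linarith)),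
    (low_boxc h _ fun m => (G1 m).1).trans (up _ (by linarith)), fun m hm => ?_,
    fun F hF => ?_, fun F hF => ?_⟩
  · have h1 : y ^ 4 ≤ y := pow_le_of_le_one h0.le hy1 (by norm_num)
    have h2 : 4 * π * D.a * y ^ 4 ≤ 1 := by
      have h3 := h1.trans hya
      rwa [le_div_iff₀ ha, mul_comm] at h3
    have h3 : y ^ 800 = y ^ 4 * y ^ 796 := by rw [← pow_add]
    rw [Dat.mu0, h3, ← mul_assoc]
    exact mul_le_of_le_one_left (pow_pos h0 _).le h2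
  · have h1 := sq3_nonneg (pk l m)
    have h2 : C1 ≤ C := by linarith
    gcongr
  · have h1 := (abs_le.1 (G1 m).2.2).1
    have h2 := (h.mom m).2.2 hm
    have h3 := sq3_nonneg (pk l m)
    have h4 : C1 * sq3 (pk l m) / l ^ 3 ≤ C1 * (120 * y ^ 784) * y ^ (404 * 3) :=
      div_le_boxc h 3 (by positivity) (mul_le_mul_of_nonneg_left h2 (by linarith))
    have h5 : C1 * (120 * y ^ 784) * y ^ (404 * 3) = 120 * C1 * y ^ 1996 := by
      have h6 : y ^ 1996 = y ^ 784 * y ^ (404 * 3) := by rw [← pow_add]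
      rw [h6]; ring
    have h6 := up (A := 120 * C1) 1996 (by linarith)
    linarith
  · obtain ⟨h1, h2⟩ := high_boxc h0 hy4 ((h.mom m).2.1 hm) (hlam m)
    exact ⟨h1, h2.trans (up _ (by linarith))⟩
  · have h1 := G5 F fun m hm => ⟨(high_iff.1 (hF m hm).1).1, by
      have h2 := (hF m hm).2
      simpa [Bulk] using h2⟩
    refine le_trans (Finset.sum_le_sum fun m hm => ?_) (h1.trans
      ((slab_boxc h hy1 (by linarith)).trans (up _ (by linarith))))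
    have h2 := hgap m (hF m hm).1
    have h3 : 0 < y ^ 796 := pow_pos h0 _
    exact div_le_div_of_nonneg_left (sq_nonneg _) (by linarith) (by linarith)
  · have h1 := G6 hgap F hF
    have h2 := err_boxc (A := C4) h hy1 (by linarith)
    have h3 := up (A := 408 * C4) 1615 (by linarith)
    linarith

end Pool.Agent.BoseLHY
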