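import Pool.Agent.Lib.MP_dec75e_mp.L.Dfs

/-! The uniform measure on a box. -/

open MeasureTheory Finset Function
open scoped Real

noncomputable section

namespace Pool.Agent.BoseLHY

open Pool.Agent.BoseTail

theorem integral_unif {o s : ℝ} (hs : 0 < s) (f : ℝ → ℝ) :
    ∫ t, f t ∂unif o s = s⁻¹ * ∫ t in o..o + s, f t := by
  unfold unif
  rw [integral_smul_measure, intervalIntegral.integral_of_le (by linarith),
    integral_Ico_eq_integral_Ioc, ENNReal.toReal_inv, ENNReal.toReal_ofReal hs.le, smul_eq_mul]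

theorem Box.vol_pos (B : Box) : 0 < B.vol := by
  exact Finset.prod_pos fun c _ => B.pos c

theorem Box.volume_set (B : Box) : volume B.set = ENNReal.ofReal B.vol := by
  unfold Box.set Box.vol
  rw [Real.volume_pi_Ico, ENNReal.ofReal_prod_of_nonneg fun c _ => (B.pos c).le]
  simp

theorem mu_coe_bx (B : Box) :
    (B.μ : Measure R3) = Measure.pi fun c => unif (B.o c) (B.s c) := rfl

theorem Box.mu_eq (B : Box) :
    (B.μ : Measure R3) = (ENNReal.ofReal B.vol)⁻¹ • volume.restrict B.set := by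
  have := fun c => unif_prob (B.o c) (B.pos c)
  rw [mu_coe_bx]
  refine Measure.pi_eq fun A hA => ?_
  rw [Measure.smul_apply, Measure.restrict_apply (MeasurableSet.univ_pi hA)]
  unfold Box.set
  rw [← Set.pi_inter_distrib, volume_pi, Measure.pi_pi]
  have h1 : ∀ c, unif (B.o c) (B.s c) (A c) =
      (ENNReal.ofReal (B.s c))⁻¹ * volume (A c ∩ Set.Ico (B.o c) (B.o c + B.s c)) := by
    intro c
    unfold unif
    rw [Measure.smul_apply, Measure.restrict_apply (hA c), smul_eq_mul]
  simp only [h1]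
  rw [Finset.prod_mul_distrib, smul_eq_mul]
  congr 1
  unfold Box.vol
  rw [ENNReal.ofReal_prod_of_nonneg fun c _ => (B.pos c).le]
  refine ENNReal.prod_inv_distrib ?_
  intro c _ d _ _
  left
  simpa using B.pos c

theorem Box.integral_mu (B : Box) (f : R3 → ℝ) :
    ∫ x, f x ∂(B.μ : Measure R3) = B.vol⁻¹ * ∫ x in B.set, f x := by
  rw [B.mu_eq, integral_smul_measure, ENNReal.toReal_inv, ENNReal.toReal_ofReal B.vol_pos.le,
    smul_eq_mul]

theorem Box.integral_prod (B : Box) (f : Fin 3 → ℝ → ℝ) :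
    ∫ x, ∏ c, f c (x c) ∂(B.μ : Measure R3) = ∏ c, ∫ t, f c t ∂unif (B.o c) (B.s c) := by
  have := fun c => unif_prob (B.o c) (B.pos c)
  rw [mu_coe_bx]
  exact integral_fintype_prod_eq_prod f

theorem Box.ae_mem (B : Box) : ∀ᵐ x ∂(B.μ : Measure R3), x ∈ B.set := by
  rw [B.mu_eq]
  exact Measure.ae_smul_measure (ae_restrict_mem B.measurableSet_set) _

theorem meas_lay_bx (o s r : ℝ) : MeasurableSet {t : ℝ | t - o ≤ r ∨ o + s - t ≤ r} := by
  have h1 : MeasurableSet {t : ℝ | t - o ≤ r} := measurableSet_le (by fun_prop) measurable_const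
  have h2 : MeasurableSet {t : ℝ | o + s - t ≤ r} := measurableSet_le (by fun_prop) measurable_const
  exact h1.union h2

theorem unif_lay_bx {o s r : ℝ} (hs : 0 < s) (hr : 0 ≤ r) :
    (unif o s).real {t | t - o ≤ r ∨ o + s - t ≤ r} ≤ 2 * r / s := by
  have hm := meas_lay_bx o s r
  have h1 : volume ({t : ℝ | t - o ≤ r ∨ o + s - t ≤ r} ∩ Set.Ico o (o + s)) ≤
      ENNReal.ofReal (2 * r) := by
    calc volume ({t : ℝ | t - o ≤ r ∨ o + s - t ≤ r} ∩ Set.Ico o (o + s))
        ≤ volume (Set.Icc o (o + r) ∪ Set.Icc (o + s - r) (o + s)) := by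
          refine measure_mono ?_
          rintro t ⟨h | h, h1, h2⟩
          · exact Or.inl ⟨h1, by linarith⟩
          · exact Or.inr ⟨by linarith, h2.le⟩
      _ ≤ volume (Set.Icc o (o + r)) + volume (Set.Icc (o + s - r) (o + s)) :=
          measure_union_le _ _
      _ = ENNReal.ofReal (2 * r) := by
          rw [Real.volume_Icc, Real.volume_Icc, ← ENNReal.ofReal_add (by linarith) (by linarith)]
          congr 1
          ring
  unfold unif
  rw [Measure.real, Measure.smul_apply, Measure.restrict_apply hm, smul_eq_mul, ENNReal.toReal_mul,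
    ENNReal.toReal_inv, ENNReal.toReal_ofReal hs.le, div_eq_inv_mul]
  refine mul_le_mul_of_nonneg_left ?_ (inv_nonneg.2 hs.le)
  exact ENNReal.toReal_le_of_le_ofReal (by linarith) h1

theorem Box.lay_le (B : Box) {r : ℝ} (hr : 0 ≤ r) :
    (B.μ : Measure R3).real (B.lay r) ≤ ∑ c, 2 * r / B.s c := by
  have := fun c => unif_prob (B.o c) (B.pos c)
  have h0 : B.lay r = ⋃ c, (fun x : R3 => x c) ⁻¹'
      {t | t - B.o c ≤ r ∨ B.o c + B.s c - t ≤ r} := by
    ext x; simp [Box.lay]
  rw [h0]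
  refine (measureReal_iUnion_fintype_le _).trans (Finset.sum_le_sum fun c _ => ?_)
  have hm := meas_lay_bx (B.o c) (B.s c) r
  have hp := (measurePreserving_eval (fun c => unif (B.o c) (B.s c)) c).measure_preimage
    hm.nullMeasurableSet
  rw [mu_coe_bx, Measure.real]
  have := unif_lay_bx (o := B.o c) (B.pos c) hr
  rw [Measure.real, ← hp] at this
  exact this

theorem Box.Sz.vol {B : Box} {s : ℝ} (h : B.Sz s) : s ^ 3 / 8 ≤ B.vol ∧ B.vol ≤ 8 * s ^ 3 := by
  have hs : 0 < s := by have := (h 0).2; have := B.pos 0; linarith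
  unfold Box.vol
  constructor
  · calc s ^ 3 / 8 = ∏ _c : Fin 3, s / 2 := by simp; ring
      _ ≤ _ := Finset.prod_le_prod (fun _ _ => by positivity) fun c _ => (h c).1
  · calc ∏ c, B.s c ≤ ∏ _c : Fin 3, 2 * s :=
          Finset.prod_le_prod (fun c _ => (B.pos c).le) fun c _ => (h c).2
      _ = 8 * s ^ 3 := by simp; ring

theorem Box.Cube.vol {B : Box} {l : ℝ} (h : B.Cube l) : B.vol = l ^ 3 := by
  unfold Box.vol
  rw [Finset.prod_congr rfl fun c _ => h c]
  simp

theorem Box.Cube.pos {B : Box} {l : ℝ} (h : B.Cube l) : 0 < l := by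
  rw [← h 0]
  exact B.pos 0

theorem Box.Cube.sz {B : Box} {l : ℝ} (h : B.Cube l) : B.Sz l := by
  intro c
  have := h.pos
  rw [h c]
  constructor <;> linarith

theorem Box.Cube.p_eq {B : Box} {l : ℝ} (h : B.Cube l) (m : M3) : B.p m = pk l m := by
  funext c
  unfold Box.p pk
  rw [h c]

theorem cube_cube0 (l : ℝ) (hl : 0 < l) : (cube0 l hl).Cube l := fun _ => rfl

theorem Supp.mono {h : R3 → ℝ} {r r' : ℝ} (hs : Supp h r) (hr : r ≤ r') : Supp h r' := by
  exact fun z hz => hs z (hr.trans_lt hz)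

theorem supp_subset_bx {h : R3 → ℝ} {r : ℝ} (hs : Supp h r) :
    support h ⊆ Metric.closedBall 0 r := by
  intro z hz
  rw [mem_closedBall_zero_iff]
  by_contra hc
  exact hz (hs z (not_le.1 hc))

theorem Supp.integrable {h : R3 → ℝ} {r : ℝ} (hb : BM h) (hs : Supp h r) : Integrable h := by
  obtain ⟨hm, C, hC⟩ := hb
  rw [← integrableOn_iff_integrable_of_support_subset (supp_subset_bx hs)]
  exact Measure.integrableOn_of_bounded measure_closedBall_lt_top.ne hm.aestronglyMeasurable
    (Filter.Eventually.of_forall hC)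

theorem Supp.integral_abs_le {h : R3 → ℝ} {r M : ℝ} (hs : Supp h r) (hr : 0 ≤ r)
    (hM : ∀ z, |h z| ≤ M) : ∫ z, |h z| ≤ 8 * M * r ^ 3 := by
  have h1 : ∫ z, |h z| = ∫ z in Metric.closedBall (0 : R3) r, |h z| := by
    refine (setIntegral_eq_integral_of_forall_compl_eq_zero fun z hz => ?_).symm
    rw [mem_closedBall_zero_iff] at hz
    rw [hs z (not_le.1 hz), abs_zero]
  have h2 := norm_setIntegral_le_of_norm_le_const (μ := volume) (s := Metric.closedBall (0 : R3) r)
    (f := fun z => |h z|) (C := M) measure_closedBall_lt_top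
    (fun z _ => by rw [Real.norm_eq_abs, abs_abs]; exact hM z)
  have h3 : (volume : Measure R3).real (Metric.closedBall (0 : R3) r) = 8 * r ^ 3 := by
    rw [Measure.real, Real.volume_pi_closedBall _ hr, ENNReal.toReal_ofReal (by positivity)]
    simp
    ring
  rw [h1]
  calc _ ≤ ‖∫ z in Metric.closedBall (0 : R3) r, |h z|‖ := le_abs_self _
    _ ≤ M * (8 * r ^ 3) := by rw [← h3]; exact h2
    _ = _ := by ring

theorem Mono.ev {h : R3 → ℝ} (hm : Mono h) : Ev h := by
  exact fun z z' hz => le_antisymm (hm z' z fun c => (hz c).ge) (hm z z' fun c => (hz c).le)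

theorem Ev.neg {h : R3 → ℝ} (he : Ev h) (z : R3) : h (-z) = h z := by
  exact he _ _ fun c => by simp

theorem ball3_apply (r : ℝ) (z : R3) : (ball3 r).1 z = if ‖z‖ ≤ r then 1 else 0 := by
  show Set.indicator {z : R3 | ‖z‖ ≤ r} (fun _ => (1 : ℝ)) z = _
  by_cases h : ‖z‖ ≤ r <;> simp [h]

theorem mono_ball3 (r : ℝ) : Mono (ball3 r).1 := by
  intro z z' hz
  have hn : ‖z‖ ≤ ‖z'‖ := by
    refine (pi_norm_le_iff_of_nonneg (norm_nonneg _)).2 fun c => ?_
    exact (hz c).trans (norm_le_pi_norm z' c)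
  rw [ball3_apply, ball3_apply]
  split_ifs with h1 h2
  · exact le_rfl
  · exact absurd (hn.trans h1) h2
  · exact zero_le_one
  · exact le_rfl

theorem supp_ball3 (r : ℝ) : Supp (ball3 r).1 r := by
  intro z hz
  rw [ball3_apply, if_neg (not_le.2 hz)]

theorem Box.integral_sub_le (B : Box) {w : R3 → ℝ} (hw : Integrable w) (h0 : ∀ z, 0 ≤ w z) (x : R3) :
    ∫ y, w (x - y) ∂(B.μ : Measure R3) ≤ (∫ z, w z) / B.vol ∧
      ∫ y, w (y - x) ∂(B.μ : Measure R3) ≤ (∫ z, w z) / B.vol := by
  have hv := inv_nonneg.2 B.vol_pos.le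
  constructor
  · rw [B.integral_mu, div_eq_inv_mul]
    refine mul_le_mul_of_nonneg_left ?_ hv
    rw [← integral_sub_left_eq_self w volume x]
    exact setIntegral_le_integral (hw.comp_sub_left x)
      (Filter.Eventually.of_forall fun y => h0 _)
  · rw [B.integral_mu, div_eq_inv_mul]
    refine mul_le_mul_of_nonneg_left ?_ hv
    rw [← integral_sub_right_eq_self w x]
    exact setIntegral_le_integral (hw.comp_sub_right x)
      (Filter.Eventually.of_forall fun y => h0 _)

end Pool.Agent.BoseLHY
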