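import Pool.Agent.Lib.MP_dec75e_mp.L.Prt

/-! The eight partitions of a cube. -/

open MeasureTheory Finset Function
open scoped Real

noncomputable section

namespace Pool.Agent.BoseLHY

open Pool.Agent.BoseTail

variable {K : ℕ} {h : ℝ}

theorem brk_mono (hh : 0 < h) (σ : Fin 2) {k k' : ℕ} (hk : k ≤ k') (hK : k' ≤ K) :
    brk K h σ k ≤ brk K h σ k' := by
  induction k', hk using Nat.le_induction with
  | base => exact le_rfl
  | succ n _ ih => exact (ih (by omega)).trans (brk_lt hh σ ⟨n, by omega⟩).le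

theorem brk_zero_cell (σ : Fin 2) : brk K h σ 0 = 0 := by simp [brk]

theorem brk_top_cell (σ : Fin 2) : brk K h σ K = K * h := by
  unfold brk
  split_ifs with h0 h1
  · simp [h0]
  · rfl
  · exact absurd rfl h1

theorem exists_cell (σ : Fin 2) {t : ℝ} (h0 : 0 ≤ t) (h1 : t < K * h) :
    ∃ k : Fin K, brk K h σ k ≤ t ∧ t < brk K h σ (k + 1) := by
  have key : ∀ n, n ≤ K → t < brk K h σ n →
      ∃ k : Fin K, brk K h σ k ≤ t ∧ t < brk K h σ (k + 1) := by
    intro n
    induction n with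
    | zero => intro _ ht; rw [brk_zero_cell] at ht; exact absurd ht (not_lt.2 h0)
    | succ n ih =>
      intro hn ht
      by_cases hc : t < brk K h σ n
      · exact ih (by omega) hc
      · exact ⟨⟨n, by omega⟩, not_lt.1 hc, ht⟩
  exact key K le_rfl (by rw [brk_top_cell]; exact h1)

theorem uniq_cell (hh : 0 < h) (σ : Fin 2) {t : ℝ} {k k' : Fin K}
    (h1 : brk K h σ k ≤ t) (h2 : t < brk K h σ (k + 1))
    (h3 : brk K h σ k' ≤ t) (h4 : t < brk K h σ (k' + 1)) : k = k' := by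
  apply Fin.ext
  rcases lt_trichotomy (k : ℕ) k' with hl | he | hl
  · have := brk_mono (K := K) hh σ (show (k : ℕ) + 1 ≤ k' from hl) k'.2.le
    linarith
  · exact he
  · have := brk_mono (K := K) hh σ (show (k' : ℕ) + 1 ≤ k from hl) k.2.le
    linarith

theorem mem_cell (o : R3) (hh : 0 < h) (σ : Fin 3 → Fin 2) (k : Fin 3 → Fin K) (x : R3) :
    x ∈ (cell o K h hh σ k).set ↔
      ∀ c, brk K h (σ c) (k c) ≤ x c - o c ∧ x c - o c < brk K h (σ c) (k c + 1) := by
  simp only [Box.set, cell, Set.mem_pi, Set.mem_univ, true_imp_iff, Set.mem_Ico]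
  refine forall_congr' fun c => ?_
  constructor <;> rintro ⟨h1, h2⟩ <;> constructor <;> linarith

theorem mem_box_cell {B : Box} {l : ℝ} (hB : B.Cube l) (x : R3) :
    x ∈ B.set ↔ ∀ c, 0 ≤ x c - B.o c ∧ x c - B.o c < l := by
  simp only [Box.set, Set.mem_pi, Set.mem_univ, true_imp_iff, Set.mem_Ico]
  refine forall_congr' fun c => ?_
  rw [hB c]
  constructor <;> rintro ⟨h1, h2⟩ <;> constructor <;> linarith

theorem part_cell {B : Box} (hh : 0 < h) (hB : B.Cube (K * h)) (σ : Fin 3 → Fin 2) :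
    Part B (cell B.o K h hh σ) := by
  refine ⟨fun k x hx => ?_, fun x hx => ?_, fun k k' x hx hx' => ?_⟩
  · rw [mem_cell] at hx
    rw [mem_box_cell hB]
    intro c
    have h1 := brk_mono (K := K) hh (σ c) (Nat.zero_le (k c)) (k c).2.le
    have h2 := brk_mono (K := K) hh (σ c) (show (k c : ℕ) + 1 ≤ K from (k c).2) le_rfl
    rw [brk_zero_cell] at h1
    rw [brk_top_cell] at h2
    exact ⟨h1.trans (hx c).1, (hx c).2.trans_le h2⟩
  · rw [mem_box_cell hB] at hx
    choose k hk using fun c => exists_cell (K := K) (h := h) (σ c) (hx c).1 (hx c).2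
    exact ⟨k, (mem_cell _ hh σ k x).2 hk⟩
  · rw [mem_cell] at hx hx'
    funext c
    exact uniq_cell hh (σ c) (hx c).1 (hx c).2 (hx' c).1 (hx' c).2

theorem brk_sz_cell (hh : 0 < h) (σ : Fin 2) (k : Fin K) :
    h / 2 ≤ brk K h σ (k + 1) - brk K h σ k ∧ brk K h σ (k + 1) - brk K h σ k ≤ 3 / 2 * h := by
  have hk := k.2
  have hσ : ((σ : ℕ) : ℝ) ≤ 1 := by exact_mod_cast Nat.lt_succ_iff.1 σ.2
  have hσ0 : (0 : ℝ) ≤ (σ : ℕ) := Nat.cast_nonneg _
  unfold brk
  rw [if_neg (Nat.succ_ne_zero _), if_neg hk.ne]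
  by_cases h1 : (k : ℕ) + 1 = K
  · have h1' : (K : ℝ) = (k : ℕ) + 1 := by exact_mod_cast h1.symm
    rw [if_pos h1, h1']
    by_cases h0 : (k : ℕ) = 0
    · rw [if_pos h0, h0]; constructor <;> push_cast <;> nlinarith
    · rw [if_neg h0]; constructor <;> nlinarith
  · rw [if_neg h1]
    by_cases h0 : (k : ℕ) = 0
    · rw [if_pos h0, h0]; constructor <;> push_cast <;> nlinarith
    · rw [if_neg h0]; constructor <;> push_cast <;> nlinarith

theorem cell_sz (o : R3) (hh : 0 < h) (σ : Fin 3 → Fin 2) (k : Fin 3 → Fin K) (c : Fin 3) :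
    h / 2 ≤ (cell o K h hh σ k).s c ∧ (cell o K h hh σ k).s c ≤ 3 / 2 * h :=
  brk_sz_cell hh (σ c) (k c)

theorem brk_zero_eq_cell {k : ℕ} : brk K h 0 k = k * h := by
  unfold brk
  split_ifs with h0 h1
  · simp [h0]
  · rw [h1]
  · simp

theorem cell_cube (o : R3) (hh : 0 < h) (k : Fin 3 → Fin K) : (cell o K h hh 0 k).Cube h := by
  intro c
  show brk K h 0 (k c + 1) - brk K h 0 (k c) = h
  rw [brk_zero_eq_cell, brk_zero_eq_cell]
  push_cast
  ring

theorem cell_corner (o : R3) (hh : 0 < h) (k : Fin 3 → Fin K) (c : Fin 3) :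
    (cell o K h hh 0 k).o c = o c + (k c : ℕ) * h := by
  show o c + brk K h 0 (k c) = _
  rw [brk_zero_eq_cell]

theorem near_le_cell (hh : 0 < h) {s t : ℝ} (h0 : 0 ≤ s) (hst : s ≤ t) (h1 : t < K * h)
    (hd : t - s ≤ h / 4) : ∃ (σ : Fin 2) (k : Fin K),
      (brk K h σ k ≤ s ∧ s < brk K h σ (k + 1)) ∧ (brk K h σ k ≤ t ∧ t < brk K h σ (k + 1)) := by
  obtain ⟨k, hk1, hk2⟩ := exists_cell (K := K) (h := h) 0 h0 (hst.trans_lt h1)
  by_cases hc : t < brk K h 0 (k + 1)
  · exact ⟨0, k, ⟨hk1, hk2⟩, hk1.trans hst, hc⟩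
  · push Not at hc
    rw [brk_zero_eq_cell] at hc hk2
    push_cast at hc hk2
    have hne : (k : ℕ) + 1 ≠ K := by
      intro he
      have : (K : ℝ) = (k : ℕ) + 1 := by exact_mod_cast he.symm
      rw [this] at h1
      linarith
    have e1 : brk K h 1 (k + 1) = ((k : ℕ) + 1 + 1 / 2) * h := by
      unfold brk
      rw [if_neg (Nat.succ_ne_zero _), if_neg hne]
      simp
    have e2 : brk K h 1 k ≤ ((k : ℕ) + 1 / 2) * h := by
      unfold brk
      split_ifs with h2 h3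
      · positivity
      · exact absurd h3 k.2.ne
      · simp
    have a1 : brk K h 1 k ≤ s := by nlinarith
    have a2 : t < brk K h 1 (k + 1) := by rw [e1]; nlinarith
    exact ⟨1, k, ⟨a1, hst.trans_lt a2⟩, a1.trans hst, a2⟩

theorem near_cell (hh : 0 < h) {s t : ℝ} (hs : 0 ≤ s ∧ s < K * h) (ht : 0 ≤ t ∧ t < K * h)
    (hd : |s - t| ≤ h / 4) : ∃ (σ : Fin 2) (k : Fin K),
      (brk K h σ k ≤ s ∧ s < brk K h σ (k + 1)) ∧ (brk K h σ k ≤ t ∧ t < brk K h σ (k + 1)) := by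
  rw [abs_le] at hd
  rcases le_total s t with hst | hst
  · exact near_le_cell hh hs.1 hst ht.2 (by linarith)
  · obtain ⟨σ, k, h1, h2⟩ := near_le_cell hh ht.1 hst hs.2 (by linarith)
    exact ⟨σ, k, h2, h1⟩

/-- An interval of length `h / 4` contains at most one multiple of `h / 2`. -/
theorem cell_near {B : Box} (hh : 0 < h) (hB : B.Cube (K * h)) {x y : R3} (hx : x ∈ B.set)
    (hy : y ∈ B.set) (hxy : ‖x - y‖ ≤ h / 4) :
    ∃ σ k, x ∈ (cell B.o K h hh σ k).set ∧ y ∈ (cell B.o K h hh σ k).set := by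
  rw [mem_box_cell hB] at hx hy
  have hd : ∀ c, |(x c - B.o c) - (y c - B.o c)| ≤ h / 4 := fun c => by
    have := (norm_le_pi_norm (x - y) c).trans hxy
    rw [Real.norm_eq_abs, Pi.sub_apply] at this
    rwa [sub_sub_sub_cancel_right]
  choose σ k hk using fun c => near_cell (K := K) hh (hx c) (hy c) (hd c)
  exact ⟨σ, k, (mem_cell _ hh σ k x).2 fun c => (hk c).1, (mem_cell _ hh σ k y).2 fun c => (hk c).2⟩

theorem vol_le_cell (o : R3) (hh : 0 < h) (σ : Fin 3 → Fin 2) (k : Fin 3 → Fin K) :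
    (cell o K h hh σ k).vol ≤ 4 * h ^ 3 := by
  have : (cell o K h hh σ k).vol ≤ ∏ _c : Fin 3, (3 / 2 * h) :=
    Finset.prod_le_prod (fun c _ => ((cell o K h hh σ k).pos c).le) fun c _ => (cell_sz o hh σ k c).2
  rw [Finset.prod_const, Finset.card_univ, Fintype.card_fin] at this
  have h3 : 0 < h ^ 3 := by positivity
  nlinarith

theorem glue_near {B : Box} (hh : 0 < h) (hB : B.Cube (K * h)) {x y : R3} (hx : x ∈ B.set)
    (hy : y ∈ B.set) :
    B.vol / (4 * h ^ 3) * (dif (ball3 (h / 4))).1 (x, y) ≤ ∑ σ : Fin 3 → Fin 2,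
      (glue (cell B.o K h hh σ) fun k => (B.vol / (cell B.o K h hh σ k).vol) • 1).1 (x, y) := by
  have hv := B.vol_pos
  have hn : ∀ σ : Fin 3 → Fin 2, 0 ≤
      (glue (cell B.o K h hh σ) fun k => (B.vol / (cell B.o K h hh σ k).vol) • 1).1 (x, y) := by
    intro σ
    obtain ⟨k, hk⟩ := (part_cell hh hB σ).cover x hx
    rw [glue_of_mem (part_cell hh hB σ) _ hk]
    refine Set.indicator_nonneg (fun z _ => ?_) _
    have := (cell B.o K h hh σ k).vol_pos
    show 0 ≤ (B.vol / (cell B.o K h hh σ k).vol) * 1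
    positivity
  have e : (dif (ball3 (h / 4))).1 (x, y) = if ‖x - y‖ ≤ h / 4 then 1 else 0 :=
    ball3_apply (h / 4) (x - y)
  rw [e]
  split_ifs with hxy
  · obtain ⟨σ, k, hxk, hyk⟩ := cell_near hh hB hx hy hxy
    refine le_trans ?_ (Finset.single_le_sum (fun σ _ => hn σ) (Finset.mem_univ σ))
    rw [glue_of_mem (part_cell hh hB σ) _ hxk, Set.indicator_of_mem hyk]
    show B.vol / (4 * h ^ 3) * 1 ≤ (B.vol / (cell B.o K h hh σ k).vol) * 1
    rw [mul_one, mul_one]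
    exact div_le_div_of_nonneg_left hv.le (cell B.o K h hh σ k).vol_pos (vol_le_cell _ hh σ k)
  · rw [mul_zero]
    exact Finset.sum_nonneg fun σ _ => hn σ

end Pool.Agent.BoseLHY
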