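import Pool.Agent.Lib.MP_dec75e_mp.L.Bx

/-! Reflections and the symmetrised kernels. -/

open MeasureTheory Finset Function
open scoped Real

noncomputable section

namespace Pool.Agent.BoseLHY

open Pool.Agent.BoseTail

variable (B : Box)

theorem Box.mem_fold {x : R3} (hx : x ∈ B.set) (c : Fin 3) :
    B.o c ≤ x c ∧ x c < B.o c + B.s c := hx c (Set.mem_univ c)

theorem Box.fold_of_mem {x : R3} (hx : x ∈ B.set) : B.fold x = x := by
  funext c
  obtain ⟨h0, h1⟩ := B.mem_fold hx c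
  have hs := B.pos c
  have hp := Real.pi_pos
  have a0 : 0 ≤ B.ang x c := div_nonneg (mul_nonneg hp.le (by linarith)) hs.le
  have a1 : B.ang x c ≤ π := by
    unfold Box.ang
    rw [div_le_iff₀ hs]
    exact mul_le_mul_of_nonneg_left (by linarith) hp.le
  show B.o c + B.s c / π * Real.arccos (Real.cos (B.ang x c)) = x c
  rw [Real.arccos_cos a0 a1]
  unfold Box.ang
  field_simp
  ring

theorem Box.fold_mem (x : R3) (c : Fin 3) :
    B.o c ≤ B.fold x c ∧ B.fold x c ≤ B.o c + B.s c := by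
  have hs := B.pos c
  have hp := Real.pi_pos
  have hq : 0 ≤ B.s c / π := by positivity
  have h0 := mul_nonneg hq (Real.arccos_nonneg (Real.cos (B.ang x c)))
  have h1 := mul_le_mul_of_nonneg_left (Real.arccos_le_pi (Real.cos (B.ang x c))) hq
  rw [div_mul_cancel₀ _ hp.ne'] at h1
  unfold Box.fold
  constructor <;> linarith

theorem cs_congr_fold (m : ℕ) {a b : ℝ} (h : Real.cos a = Real.cos b) : cs m a = cs m b := by
  have e : ∀ t : ℝ, Real.cos (m * t) = (Polynomial.Chebyshev.T ℝ m).eval (Real.cos t) := fun t => by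
    rw [Polynomial.Chebyshev.T_real_cos]
    norm_cast
  unfold cs
  rw [e, e, h]

theorem Box.e_fold (m : M3) (x : R3) : (B.e m).1 (B.fold x) = (B.e m).1 x := by
  show ∏ c, cs (m c) (B.ang (B.fold x) c) = ∏ c, cs (m c) (B.ang x c)
  refine prod_congr rfl fun c _ => cs_congr_fold _ ?_
  have hs := (B.pos c).ne'
  have hp := Real.pi_pos.ne'
  have e : B.ang (B.fold x) c = Real.arccos (Real.cos (B.ang x c)) := by
    show π * (B.o c + B.s c / π * Real.arccos (Real.cos (B.ang x c)) - B.o c) / B.s c = _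
    field_simp
    ring
  rw [e, Real.cos_arccos (Real.neg_one_le_cos _) (Real.cos_le_one _)]

theorem Box.e_refl (m : M3) (σ : Fin 3 → Fin 3) (x : R3) : (B.e m).1 (B.refl σ x) = (B.e m).1 x := by
  show ∏ c, cs (m c) (B.ang (B.refl σ x) c) = ∏ c, cs (m c) (B.ang x c)
  refine prod_congr rfl fun c _ => cs_congr_fold _ ?_
  have hs := (B.pos c).ne'
  unfold Box.ang Box.refl
  split_ifs
  · rfl
  · rw [← Real.cos_neg]
    congr 1
    ring
  · rw [← Real.cos_two_pi_sub]
    congr 1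
    field_simp
    ring

theorem Box.symk_apply (h : BF R3) (x y : R3) :
    (B.symk h).1 (x, y) = ∑ σ : Fin 3 → Fin 3, h.1 (B.fold x - B.refl σ (B.fold y)) := by
  unfold Box.symk
  rw [AddSubmonoidClass.coe_finsetSum, Finset.sum_apply]
  rfl

theorem Box.symk_symm {h : BF R3} (hh : Ev h.1) (x y : R3) :
    (B.symk h).1 (x, y) = (B.symk h).1 (y, x) := by
  rw [B.symk_apply, B.symk_apply]
  refine sum_congr rfl fun σ _ => hh _ _ fun c => ?_
  simp only [Pi.sub_apply, Box.refl]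
  split_ifs
  · exact abs_sub_comm _ _
  · congr 1
    ring
  · congr 1
    ring

theorem Box.symk_mono {h h' : BF R3} (hh : ∀ z, h.1 z ≤ h'.1 z) (z : R3 × R3) :
    (B.symk h).1 z ≤ (B.symk h').1 z := by
  obtain ⟨x, y⟩ := z
  rw [B.symk_apply, B.symk_apply]
  exact sum_le_sum fun σ _ => hh _

theorem Box.symk_nonneg {h : BF R3} (hh : ∀ z, 0 ≤ h.1 z) (z : R3 × R3) : 0 ≤ (B.symk h).1 z := by
  obtain ⟨x, y⟩ := z
  rw [B.symk_apply]
  exact sum_nonneg fun σ _ => hh _

theorem Box.abs_symk_le {h : BF R3} {H : R3 → ℝ} (hH : Mono H) (hh : ∀ z, |h.1 z| ≤ H z)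
    {x y : R3} (hx : x ∈ B.set) (hy : y ∈ B.set) : |(B.symk h).1 (x, y)| ≤ 27 * H (x - y) := by
  rw [B.symk_apply, B.fold_of_mem hx, B.fold_of_mem hy]
  refine (abs_sum_le_sum_abs _ _).trans ?_
  have key : ∀ σ : Fin 3 → Fin 3, |h.1 (x - B.refl σ y)| ≤ H (x - y) := fun σ => by
    refine (hh _).trans (hH _ _ fun c => ?_)
    obtain ⟨h0, h1⟩ := B.mem_fold hx c
    obtain ⟨h2, h3⟩ := B.mem_fold hy c
    simp only [Pi.sub_apply, Box.refl]
    split_ifs
    · exact le_rfl
    · exact (abs_le.2 ⟨by linarith, by linarith⟩).trans (le_abs_self _)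
    · exact (abs_le.2 ⟨by linarith, by linarith⟩).trans (neg_le_abs _)
  refine (sum_le_sum fun σ _ => key σ).trans ?_
  simp

theorem supp_fold {h : R3 → ℝ} {r : ℝ} (hs : Supp h r) {z : R3} {c : Fin 3} (hc : r < |z c|) :
    h z = 0 := hs z (hc.trans_le (norm_le_pi_norm z c))

theorem Box.symk_of_not_lay {h : BF R3} {r : ℝ} (hs : Supp h.1 r) {x y : R3} (hx : x ∈ B.set)
    (hy : y ∈ B.set) (hl : x ∉ B.lay r ∨ y ∉ B.lay r) : (B.symk h).1 (x, y) = h.1 (x - y) := by
  rw [B.symk_apply, B.fold_of_mem hx, B.fold_of_mem hy, sum_eq_single (0 : Fin 3 → Fin 3)]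
  · congr 2
  · intro σ _ hσ
    obtain ⟨c, hc⟩ := Function.ne_iff.1 hσ
    obtain ⟨h0, h1⟩ := B.mem_fold hx c
    obtain ⟨h2, h3⟩ := B.mem_fold hy c
    have hl' : (r < x c - B.o c ∧ r < B.o c + B.s c - x c) ∨
        (r < y c - B.o c ∧ r < B.o c + B.s c - y c) := by
      refine hl.imp (fun h => ?_) (fun h => ?_) <;>
        exact ⟨not_le.1 fun h' => h ⟨c, Or.inl h'⟩, not_le.1 fun h' => h ⟨c, Or.inr h'⟩⟩
    refine supp_fold hs (c := c) ?_
    have hc' : σ c ≠ 0 := hc
    simp only [Pi.sub_apply, Box.refl, if_neg hc']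
    split_ifs
    · refine lt_of_lt_of_le ?_ (le_abs_self _)
      rcases hl' with h | h <;> linarith [h.1]
    · refine lt_of_lt_of_le ?_ (neg_le_abs _)
      rcases hl' with h | h <;> linarith [h.2]
  · intro h
    exact absurd (mem_univ _) h

theorem Box.symk_corner {h : BF R3} (hh : Ev h.1) {r : ℝ} (hs : Supp h.1 r) (hr : ∀ c, r ≤ B.s c)
    {y : R3} (hy : y ∈ B.set) : (B.symk h).1 (B.o, y) = 8 * h.1 (y - B.o) := by
  have ho : B.o ∈ B.set := fun c _ => ⟨le_rfl, by linarith [B.pos c]⟩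
  rw [B.symk_apply, B.fold_of_mem ho, B.fold_of_mem hy]
  have key : ∀ σ : Fin 3 → Fin 3, h.1 (B.o - B.refl σ y) =
      if ∀ c, σ c ≠ 2 then h.1 (y - B.o) else 0 := fun σ => by
    split_ifs with hσ
    · refine hh _ _ fun c => ?_
      have hc := hσ c
      simp only [Pi.sub_apply, Box.refl]
      split_ifs with h0 h1
      · exact abs_sub_comm _ _
      · congr 1
        ring
      · exfalso
        revert hc h0 h1
        generalize σ c = t
        revert t
        decide
    · obtain ⟨c, hc⟩ := not_forall.1 hσ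
      have hc' : σ c = 2 := not_not.1 hc
      obtain ⟨h2, h3⟩ := B.mem_fold hy c
      refine supp_fold hs (c := c) ?_
      have n0 : σ c ≠ 0 := by rw [hc']; decide
      have n1 : σ c ≠ 1 := by rw [hc']; decide
      simp only [Pi.sub_apply, Box.refl, if_neg n0, if_neg n1]
      refine lt_of_lt_of_le ?_ (neg_le_abs _)
      linarith [hr c]
  rw [sum_congr rfl fun σ _ => key σ, ← sum_filter, sum_const]
  have e : (univ.filter fun σ : Fin 3 → Fin 3 => ∀ c, σ c ≠ 2).card = 8 := by decide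
  rw [e]
  simp

/-- A point outside the layer keeps its neighbourhood inside the box. -/
theorem Box.add_mem_of_not_lay {r : ℝ} {x z : R3} (hx : x ∉ B.lay r) (hz : ‖z‖ ≤ r) :
    x + z ∈ B.set := by
  intro c _
  have h0 : r < x c - B.o c := not_le.1 fun h' => hx ⟨c, Or.inl h'⟩
  have h1 : r < B.o c + B.s c - x c := not_le.1 fun h' => hx ⟨c, Or.inr h'⟩
  obtain ⟨h2, h3⟩ := abs_le.1 (show |z c| ≤ r from (norm_le_pi_norm z c).trans hz)
  exact ⟨by simp only [Pi.add_apply]; linarith, by simp only [Pi.add_apply]; linarith⟩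

end Pool.Agent.BoseLHY
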