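import Pool.Agent.Lib.MP_dec75e_mp.L.Shift2
import Pool.Agent.Lib.MP_dec75e_mp.L.Cell
import Pool.Agent.Lib.MP_dec75e_mp.L.Fold

/-! Comparison of the forms in boxes with the translation invariant forms. -/

open MeasureTheory Finset Function
open scoped Real

noncomputable section

namespace Pool.Agent.BoseLHY

open Pool.Agent.BoseTail

variable {N : ℕ} {L : ℝ} [Fact (0 < L)]

omit [Fact (0 < L)] in
theorem norm_smul_cmp {K : ℕ} {l r t : ℝ} (hL : L = K * l) (j : ℕ) (h : |t - j * l| ≤ r) :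
    ‖K • (t : AddCircle L)‖ ≤ K * r := by
  have h1 : K • (t : AddCircle L) = ((K * (t - j * l) : ℝ) : AddCircle L) := by
    have h2 : (K * (t - j * l) : ℝ) = K • t - j • L := by
      rw [nsmul_eq_mul, nsmul_eq_mul, hL]; ring
    rw [h2, AddCircle.coe_sub, AddCircle.coe_nsmul, AddCircle.coe_nsmul, AddCircle.coe_period,
      smul_zero, sub_zero]
  rw [h1]
  refine QuotientAddGroup.norm_mk_le_norm.trans ?_
  rw [Real.norm_eq_abs, abs_mul, Nat.abs_cast]
  exact mul_le_mul_of_nonneg_left h (Nat.cast_nonneg _)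

omit [Fact (0 < L)] in
theorem lay_box_cmp {K : ℕ} {l r : ℝ} (hL : L = K * l) {B : Box} (k : Fin 3 → ℕ)
    (ho : ∀ c, B.o c = k c * l) (hB : B.Cube l) {x : R3} (hx : x ∈ B.set) (h : x ∈ B.lay r) :
    proj L x ∈ layT (L := L) K r := by
  obtain ⟨c, hc⟩ := h
  have h1 := hx c (Set.mem_univ c)
  rw [Set.mem_Ico, ho, hB] at h1
  rw [ho, hB] at hc
  rcases hc with hc | hc
  · exact ⟨c, norm_smul_cmp hL (k c) (by rw [abs_of_nonneg (by linarith [h1.1])]; exact hc)⟩
  · refine ⟨c, norm_smul_cmp hL (k c + 1) ?_⟩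
    push_cast
    rw [abs_of_nonpos (by linarith [h1.2])]
    linarith

theorem shift_cmp {h : R3 → ℝ} (he : Ev h) (q : R3 → ℝ) (x : R3) :
    ∫ z, h z * q (x + z) = ∫ y, h (x - y) * q y := by
  rw [← integral_add_left_eq_self (fun y => h (x - y) * q y) x]
  refine integral_congr_ae (Filter.Eventually.of_forall fun z => ?_)
  simp only [sub_add_cancel_left, he.neg]

theorem inner_cmp (B : Box) {h : R3 → ℝ} {r : ℝ} (he : Ev h) (hs : Supp h r) (q : R3 → ℝ)
    {x : R3} (hx : x ∉ B.lay r) :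
    ∫ y in B.set, h (x - y) * q y = ∫ z, h z * q (x + z) := by
  rw [shift_cmp he]
  refine setIntegral_eq_integral_of_forall_compl_eq_zero fun y hy => ?_
  rw [hs, zero_mul]
  refine not_le.1 fun hn => hy ?_
  rw [norm_sub_rev] at hn
  simpa using B.add_mem_of_not_lay hx hn

theorem integrable_cmp {H q : R3 → ℝ} (hH : Integrable H) (hq : BM q) (x : R3) :
    Integrable fun y => H (x - y) * q y := by
  obtain ⟨hm, C, hC⟩ := hq
  exact (hH.comp_sub_left x).mul_bdd hm.aestronglyMeasurable (Filter.Eventually.of_forall hC)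

theorem big_cmp (f : R3 → ℝ) :
    L ^ 3 * ∫ y, f y ∂((big L).μ : Measure R3) = ∫ y in (big L).set, f y := by
  have hL : (0 : ℝ) < L := Fact.out
  rw [Box.integral_mu, big_cube.vol, ← mul_assoc, mul_inv_cancel₀ (pow_pos hL 3).ne', one_mul]

/-- A point of a cell which is in its boundary layer projects to `layT`. -/
theorem lay_proj {K : ℕ} {l r : ℝ} (hl : 0 < l) (hL : L = K * l) (k : Fin 3 → Fin K) {x : R3}
    (hx : x ∈ (cell 0 K l hl 0 k).set) (h : x ∈ (cell 0 K l hl 0 k).lay r) :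
    proj L x ∈ layT (L := L) K r := by
  exact lay_box_cmp hL (fun c => k c) (fun c => by rw [cell_corner]; simp) (cell_cube 0 hl k) hx h

/-- One-body comparison of the glued symmetrised kernel with the translation invariant kernel:
equality outside the layer (`symk_of_not_lay`, `add_mem_of_not_lay`), `abs_symk_le` inside. -/
theorem cmp_one {K : ℕ} {l r : ℝ} (hl : 0 < l) (hL : L = K * l) {h : BF R3} (he : Ev h.1)
    (hs : Supp h.1 r) {H : R3 → ℝ} (hH : Mono H) (hHi : Integrable H) (hh : ∀ z, |h.1 z| ≤ H z)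
    {q : R3 → ℝ} (hq : BM q) (hq0 : ∀ z, 0 ≤ q z) {x : R3} (hx : x ∈ (big L).set) :
    |L ^ 3 * ∫ y, (glue (cell 0 K l hl 0) fun k => (cell 0 K l hl 0 k).symk h).1 (x, y) * q y
        ∂((big L).μ : Measure R3) - ∫ z, h.1 z * q (x + z)| ≤
      28 * ((layT K r).indicator (fun _ => (1 : ℝ)) (proj L x) * ∫ z, H z * q (x + z)) := by
  have hP : Part (big L) (cell 0 K l hl 0) := part_cell (B := big L) hl (hL ▸ big_cube) 0
  obtain ⟨k, hk⟩ := hP.cover x hx
  set Q := cell 0 K l hl 0 k with hQ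
  have hH0 : ∀ z, 0 ≤ H z := fun z => (abs_nonneg _).trans (hh z)
  have h1 : L ^ 3 * ∫ y, (glue (cell 0 K l hl 0) fun k => (cell 0 K l hl 0 k).symk h).1 (x, y) * q y
      ∂((big L).μ : Measure R3) = ∫ y in Q.set, (Q.symk h).1 (x, y) * q y := by
    rw [big_cmp]
    simp only [glue_of_mem hP _ hk, ← Set.indicator_mul_left]
    rw [setIntegral_indicator Q.measurableSet_set, Set.inter_eq_right.2 (hP.sub k)]
  have hI : 0 ≤ ∫ z, H z * q (x + z) := integral_nonneg fun z => mul_nonneg (hH0 z) (hq0 _)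
  rw [h1]
  by_cases hx' : x ∈ Q.lay r
  · rw [Set.indicator_of_mem (lay_proj hl hL k hk hx'), one_mul]
    have hi := integrable_cmp hHi hq x
    have h2 : |∫ y in Q.set, (Q.symk h).1 (x, y) * q y| ≤ 27 * ∫ z, H z * q (x + z) := by
      rw [shift_cmp hH.ev]
      calc |∫ y in Q.set, (Q.symk h).1 (x, y) * q y|
          ≤ ∫ y in Q.set, 27 * (H (x - y) * q y) := by
            rw [← Real.norm_eq_abs]
            refine norm_integral_le_of_norm_le (hi.const_mul 27).integrableOn ?_
            filter_upwards [ae_restrict_mem Q.measurableSet_set] with y hy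
            rw [Real.norm_eq_abs, abs_mul, abs_of_nonneg (hq0 y), ← mul_assoc]
            exact mul_le_mul_of_nonneg_right (Q.abs_symk_le hH hh hk hy) (hq0 y)
        _ ≤ ∫ y, 27 * (H (x - y) * q y) :=
            setIntegral_le_integral (hi.const_mul 27) (Filter.Eventually.of_forall fun y =>
              mul_nonneg (by norm_num) (mul_nonneg (hH0 _) (hq0 y)))
        _ = _ := integral_const_mul _ _
    have h3 : |∫ z, h.1 z * q (x + z)| ≤ ∫ z, H z * q (x + z) := by
      rw [shift_cmp hH.ev, shift_cmp he, ← Real.norm_eq_abs]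
      refine norm_integral_le_of_norm_le hi (Filter.Eventually.of_forall fun y => ?_)
      rw [Real.norm_eq_abs, abs_mul, abs_of_nonneg (hq0 y)]
      exact mul_le_mul_of_nonneg_right (hh _) (hq0 y)
    exact (abs_sub _ _).trans (by linarith)
  · have h2 : ∫ y in Q.set, (Q.symk h).1 (x, y) * q y = ∫ z, h.1 z * q (x + z) := by
      rw [← inner_cmp Q he hs q hx']
      refine setIntegral_congr_fun Q.measurableSet_set fun y hy => ?_
      simp only [Q.symk_of_not_lay hs hk hy (Or.inl hx')]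
    rw [h2, sub_self, abs_zero]
    exact mul_nonneg (by norm_num)
      (mul_nonneg (Set.indicator_nonneg (fun _ _ => zero_le_one) _) hI)

theorem cmp_ball {r : ℝ} {q : R3 → ℝ} (hq : BM q) (hq0 : ∀ z, 0 ≤ q z) {x : R3}
    (hx : x ∈ (big L).set) :
    (∫ z, (ball3 r).1 z * q (x + z)) -
        (layT 1 r).indicator (fun _ => (1 : ℝ)) (proj L x) * ∫ z, (ball3 r).1 z * q (x + z) ≤
      L ^ 3 * ∫ y, (dif (ball3 r)).1 (x, y) * q y ∂((big L).μ : Measure R3) := by
  have hb : ∀ z, 0 ≤ (ball3 r).1 z := fun z => by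
    rw [ball3_apply]
    split_ifs <;> norm_num
  have hI : 0 ≤ ∫ z, (ball3 r).1 z * q (x + z) :=
    integral_nonneg fun z => mul_nonneg (hb z) (hq0 _)
  rw [big_cmp]
  change _ ≤ ∫ y in (big L).set, (ball3 r).1 (x - y) * q y
  by_cases hx' : x ∈ (big L).lay r
  · have h1 : proj L x ∈ layT (L := L) 1 r :=
      lay_box_cmp (l := L) (by simp) (fun _ => 0) (fun c => by simp [big, cube0]) big_cube hx hx'
    rw [Set.indicator_of_mem h1, one_mul, sub_self]
    exact integral_nonneg fun y => mul_nonneg (hb _) (hq0 y)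
  · rw [inner_cmp _ (mono_ball3 r).ev (supp_ball3 r) q hx']
    exact sub_le_self _ (mul_nonneg (Set.indicator_nonneg (fun _ _ => zero_le_one) _) hI)

end Pool.Agent.BoseLHY
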