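import Pool.Agent.Lib.MP_dec75e_mp.L.Bx

/-! Cosines and sines on an interval: orthogonality. -/

open MeasureTheory Finset Function
open scoped Real

noncomputable section

namespace Pool.Agent.BoseLHY

open Pool.Agent.BoseTail

variable {o s : ℝ}

theorem bm_cs (m : ℕ) : BM fun t : ℝ => cs m (π * (t - o) / s) :=
  ⟨((continuous_cs m).comp (by fun_prop)).measurable, √2, fun _ => abs_cs_le _ _⟩

theorem bm_sn (m : ℕ) : BM fun t : ℝ => sn m (π * (t - o) / s) := by
  refine ⟨Continuous.measurable (by unfold sn; fun_prop), √2, fun t => ?_⟩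
  unfold sn
  rw [Real.norm_eq_abs, abs_mul, abs_of_nonneg (Real.sqrt_nonneg 2)]
  exact mul_le_of_le_one_right (Real.sqrt_nonneg 2) (Real.abs_sin_le_one _)

theorem hd_ang_cos1 (a t : ℝ) : HasDerivAt (fun t : ℝ => a * (π * (t - o) / s)) (a * (π / s)) t := by
  have h := ((((hasDerivAt_id t).sub_const o).const_mul π).div_const s).const_mul a
  simpa using h

theorem int_cos_cos1 (hs : 0 < s) (n : ℤ) :
    ∫ t, Real.cos (n * (π * (t - o) / s)) ∂unif o s = if n = 0 then 1 else 0 := by
  rw [integral_unif hs]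
  split_ifs with h
  · subst h
    simp [hs.ne']
  · have hn : (n : ℝ) ≠ 0 := by exact_mod_cast h
    have hp := Real.pi_pos
    have hd : ∀ t ∈ Set.uIcc o (o + s), HasDerivAt
        (fun t : ℝ => Real.sin (n * (π * (t - o) / s)) / (n * (π / s)))
        (Real.cos (n * (π * (t - o) / s))) t := fun t _ => by
      have h1 := ((hd_ang_cos1 (o := o) (s := s) n t).sin).div_const (n * (π / s))
      rwa [mul_div_assoc, div_self (by positivity), mul_one] at h1
    rw [intervalIntegral.integral_eq_sub_of_hasDerivAt hd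
      (Continuous.intervalIntegrable (by fun_prop) _ _)]
    have e : π * (o + s - o) / s = π := by field_simp; ring
    rw [e]
    simp [Real.sin_int_mul_pi]

theorem integrable_cos_cos1 (hs : 0 < s) (n : ℤ) :
    Integrable (fun t => Real.cos (n * (π * (t - o) / s))) (unif o s) := by
  have := unif_prob o hs
  exact BM.integrable (𝕜 := ℝ) ⟨Continuous.measurable (by fun_prop), 1,
    fun _ => Real.abs_cos_le_one _⟩

theorem cs_eq_cos1 (m : ℕ) (θ : ℝ) : cs m θ = (if m = 0 then 1 else √2) * Real.cos (m * θ) := by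
  unfold cs
  split_ifs with h
  · simp [h]
  · rfl

theorem orth_cs (hs : 0 < s) (m m' : ℕ) :
    ∫ t, cs m (π * (t - o) / s) * cs m' (π * (t - o) / s) ∂unif o s = if m = m' then 1 else 0 := by
  have e : ∀ θ : ℝ, cs m θ * cs m' θ =
      ((if m = 0 then 1 else √2) * (if m' = 0 then 1 else √2) / 2) *
        (Real.cos (((m : ℤ) - m' : ℤ) * θ) + Real.cos (((m : ℤ) + m' : ℤ) * θ)) := fun θ => by
    rw [cs_eq_cos1, cs_eq_cos1]
    push_cast
    rw [sub_mul, add_mul, Real.cos_sub, Real.cos_add]
    ring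
  simp only [e]
  rw [integral_const_mul, integral_add (integrable_cos_cos1 hs _) (integrable_cos_cos1 hs _),
    int_cos_cos1 hs, int_cos_cos1 hs]
  by_cases h : m = m'
  · subst h
    by_cases h0 : m = 0
    · subst h0
      norm_num
    · have h1 : (m : ℤ) + m ≠ 0 := by omega
      simp [h0, h1]
  · have h1 : (m : ℤ) - m' ≠ 0 := by omega
    have h2 : (m : ℤ) + m' ≠ 0 := by omega
    simp [h, h1, h2]

/-- `cs m ^ 2 = 1 + cos (2 m θ)` and `cs q * cs q'` only contains frequencies `≤ 2 R < 2 m`. -/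
theorem exact_cs (hs : 0 < s) {R m q q' : ℕ} (hm : R < m) (hq : q ≤ R) (hq' : q' ≤ R) :
    ∫ t, cs m (π * (t - o) / s) ^ 2 * (cs q (π * (t - o) / s) * cs q' (π * (t - o) / s)) ∂unif o s =
      if q = q' then 1 else 0 := by
  have := unif_prob o hs
  have h0 : m ≠ 0 := by omega
  have e : ∀ θ : ℝ, cs m θ ^ 2 * (cs q θ * cs q' θ) = cs q θ * cs q' θ +
      ((if q = 0 then 1 else √2) * (if q' = 0 then 1 else √2) / 4) *
        (Real.cos ((2 * (m : ℤ) + q + q' : ℤ) * θ) + Real.cos ((2 * (m : ℤ) + q - q' : ℤ) * θ) +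
          Real.cos ((2 * (m : ℤ) - q + q' : ℤ) * θ) +
            Real.cos ((2 * (m : ℤ) - q - q' : ℤ) * θ)) := fun θ => by
    have h2 : cs m θ ^ 2 = 1 + Real.cos (2 * m * θ) := by
      unfold cs
      rw [if_neg h0, mul_pow, Real.sq_sqrt (by norm_num), mul_assoc, Real.cos_two_mul]
      ring
    rw [h2, cs_eq_cos1 q, cs_eq_cos1 q']
    push_cast
    simp only [sub_mul, add_mul, Real.cos_sub, Real.cos_add, Real.sin_sub, Real.sin_add]
    ring
  simp only [e]
  have hi := fun n => integrable_cos_cos1 (o := o) hs n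
  rw [integral_add ((bm_cs q).mul (bm_cs q')).integrable
      (((((hi _).fun_add (hi _)).fun_add (hi _)).fun_add (hi _)).const_mul _), orth_cs hs, integral_const_mul,
    integral_add (((hi _).fun_add (hi _)).fun_add (hi _)) (hi _),
    integral_add ((hi _).fun_add (hi _)) (hi _),
    integral_add (hi _) (hi _), int_cos_cos1 hs, int_cos_cos1 hs, int_cos_cos1 hs, int_cos_cos1 hs,
    if_neg (show 2 * (m : ℤ) + q + q' ≠ 0 by omega), if_neg (show 2 * (m : ℤ) + q - q' ≠ 0 by omega),
    if_neg (show 2 * (m : ℤ) - q + q' ≠ 0 by omega), if_neg (show 2 * (m : ℤ) - q - q' ≠ 0 by omega)]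
  simp

theorem ibp_sn (hs : 0 < s) {f f' : ℝ → ℝ} (hf : ∀ t, HasDerivAt f (f' t) t) (hf' : BM f')
    (m : ℕ) : ∫ t, sn m (π * (t - o) / s) * f' t ∂unif o s =
      -(π * m / s) * ∫ t, cs m (π * (t - o) / s) * f t ∂unif o s := by
  have hd : ∀ t, HasDerivAt (fun t : ℝ => sn m (π * (t - o) / s))
      (π * m / s * cs m (π * (t - o) / s)) t := fun t => by
    have h1 := ((hd_ang_cos1 (o := o) (s := s) m t).sin).const_mul √2
    unfold sn
    refine h1.congr_deriv ?_
    unfold cs
    split_ifs with h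
    · simp [h]
    · ring
  have hi : IntervalIntegrable f' volume o (o + s) := by
    rw [intervalIntegrable_iff]
    have : IsFiniteMeasure (volume.restrict (Set.uIoc o (o + s))) :=
      ⟨by simp [Set.uIoc]⟩
    exact hf'.integrable
  have hc : Continuous fun t : ℝ => π * m / s * cs m (π * (t - o) / s) :=
    continuous_const.mul ((continuous_cs m).comp (by fun_prop))
  rw [integral_unif hs, integral_unif hs,
    intervalIntegral.integral_mul_deriv_eq_deriv_mul (fun t _ => hd t) (fun t _ => hf t)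
      (hc.intervalIntegrable _ _) hi]
  have e : π * (o + s - o) / s = π := by field_simp; ring
  rw [e]
  simp only [sn, Real.sin_nat_mul_pi, sub_self, mul_zero, zero_div, Real.sin_zero, zero_mul,
    mul_assoc, intervalIntegral.integral_const_mul]
  ring

end Pool.Agent.BoseLHY
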