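import Pool.Agent.Lib.MP_dec75e_mp.L.Cos1

/-! Cosines and sines on an interval: completeness. -/

open MeasureTheory Finset Function
open scoped Real

noncomputable section

namespace Pool.Agent.BoseLHY

open Pool.Agent.BoseTail

variable {o s : ℝ}

theorem ii_cos2 {h : ℝ → ℝ} (hh : BM h) (a b : ℝ) : IntervalIntegrable h volume a b := by
  rw [intervalIntegrable_iff]
  have : IsFiniteMeasure (volume.restrict (Set.uIoc a b)) :=
    ⟨by simp [Set.uIoc]⟩
  exact hh.integrable

theorem iic_cos2 {h : ℝ → ℝ} (hh : BM h) (a b : ℝ) :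
    IntervalIntegrable (fun x => (h x : ℂ)) volume a b := by
  rw [intervalIntegrable_iff]
  have : IsFiniteMeasure (volume.restrict (Set.uIoc a b)) :=
    ⟨by simp [Set.uIoc]⟩
  exact hh.ofReal.integrable

theorem hs_congr_cos2 {u v : ℕ → ℝ} {a : ℝ} (h : HasSum u a) (e : ∀ m, v m = u m) :
    HasSum v a := by
  rw [funext e]; exact h

theorem bmc_cos2 (n : ℝ) : BM fun x : ℝ => Real.cos (π * n * x / s) :=
  ⟨by fun_prop, 1, fun _ => Real.abs_cos_le_one _⟩

theorem bms_cos2 (n : ℝ) : BM fun x : ℝ => Real.sin (π * n * x / s) :=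
  ⟨by fun_prop, 1, fun _ => Real.abs_sin_le_one _⟩

theorem split_cos2 {h : ℝ → ℝ} (hh : BM h) :
    ∫ x in (-s)..s, h x = ∫ x in (0 : ℝ)..s, (h x + h (-x)) := by
  have hn : BM fun x => h (-x) := hh.comp measurable_neg
  rw [intervalIntegral.integral_add (ii_cos2 hh _ _) (ii_cos2 hn _ _),
    intervalIntegral.integral_comp_neg, neg_zero, add_comm,
    intervalIntegral.integral_add_adjacent_intervals (ii_cos2 hh _ _) (ii_cos2 hh _ _)]

/-- Parseval in real form. -/
theorem real_pars_cos2 (hs : 0 < s) {F : ℝ → ℝ} (hF : BM F) :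
    HasSum (fun n : ℤ => ((2 * s)⁻¹ * ∫ x in (-s)..s, Real.cos (π * n * x / s) * F x) ^ 2 +
      ((2 * s)⁻¹ * ∫ x in (-s)..s, Real.sin (π * n * x / s) * F x) ^ 2)
      ((2 * s)⁻¹ * ∫ x in (-s)..s, F x ^ 2) := by
  have hab : -s < s := by linarith
  have : IsFiniteMeasure (volume.restrict (Set.Ioc (-s) s)) := ⟨by simp⟩
  have hL2 : MemLp (fun x => (F x : ℂ)) 2 (volume.restrict (Set.Ioc (-s) s)) := by
    obtain ⟨hm, C, hC⟩ := hF.ofReal
    exact MemLp.of_bound hm.aestronglyMeasurable C (Filter.Eventually.of_forall hC)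
  have h := hasSum_sq_fourierCoeffOn hab hL2
  have h2 : s - -s = 2 * s := by ring
  convert h using 1
  · funext n
    rw [fourierCoeffOn_eq_integral]
    have e1 : ∀ x : ℝ, fourier (-n) (x : AddCircle (s - -s)) • (F x : ℂ) =
        ((Real.cos (π * n * x / s) * F x : ℝ) : ℂ) +
          (-Complex.I) * ((Real.sin (π * n * x / s) * F x : ℝ) : ℂ) := by
      intro x
      rw [fourier_coe_apply, smul_eq_mul]
      have e2 : 2 * (π : ℂ) * Complex.I * ((-n : ℤ) : ℂ) * (x : ℂ) / ((s - -s : ℝ) : ℂ) =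
          ((-(π * n * x / s) : ℝ) : ℂ) * Complex.I := by
        have : (s : ℂ) ≠ 0 := by exact_mod_cast hs.ne'
        rw [h2]
        push_cast
        field_simp
      rw [e2, Complex.exp_mul_I, ← Complex.ofReal_cos, ← Complex.ofReal_sin, Real.cos_neg,
        Real.sin_neg]
      push_cast
      ring
    simp_rw [e1]
    have i1 := iic_cos2 ((bmc_cos2 (s := s) n).mul hF) (-s) s
    have i2 := (iic_cos2 ((bms_cos2 (s := s) n).mul hF) (-s) s).const_mul (-Complex.I)
    rw [intervalIntegral.integral_add i1 i2, intervalIntegral.integral_const_mul,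
      intervalIntegral.integral_ofReal, intervalIntegral.integral_ofReal, h2,
      Complex.sq_norm, Complex.normSq_apply]
    simp
    ring
  · rw [h2, smul_eq_mul]
    simp

/-- The extension of `g` with parity `ε`. -/
def ext_cos2 (ε : ℝ) (g : ℝ → ℝ) (x : ℝ) : ℝ := if 0 ≤ x then g x else ε * g (-x)

theorem bm_ext_cos2 (ε : ℝ) {g : ℝ → ℝ} (hg : BM g) : BM (ext_cos2 ε g) :=
  BM.ite measurableSet_Ici hg ((BM.const ε).mul (hg.comp measurable_neg))

theorem int_ext_cos2 (hs : 0 < s) (ε : ℝ) {g φ : ℝ → ℝ} (hg : BM g) (hφ : BM φ) :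
    ∫ x in (-s)..s, φ x * ext_cos2 ε g x = ∫ x in (0 : ℝ)..s, (φ x + ε * φ (-x)) * g x := by
  rw [split_cos2 (hφ.mul (bm_ext_cos2 ε hg))]
  refine intervalIntegral.integral_congr_ae (Filter.Eventually.of_forall fun x hx => ?_)
  rw [Set.uIoc_of_le hs.le] at hx
  have h1 : ¬ (0 ≤ -x) := by linarith [hx.1]
  simp only [ext_cos2, if_pos hx.1.le, if_neg h1, neg_neg]
  ring

theorem sq_ext_cos2 (hs : 0 < s) {ε : ℝ} (hε : ε ^ 2 = 1) {g : ℝ → ℝ} (hg : BM g) :
    ∫ x in (-s)..s, ext_cos2 ε g x ^ 2 = 2 * ∫ x in (0 : ℝ)..s, g x ^ 2 := by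
  rw [split_cos2 ((bm_ext_cos2 ε hg).pow 2), ← intervalIntegral.integral_const_mul]
  refine intervalIntegral.integral_congr_ae (Filter.Eventually.of_forall fun x hx => ?_)
  rw [Set.uIoc_of_le hs.le] at hx
  have h1 : ¬ (0 ≤ -x) := by linarith [hx.1]
  simp only [ext_cos2, if_pos hx.1.le, if_neg h1, neg_neg]
  rw [mul_pow, hε]
  ring

theorem unif_cos2 (hs : 0 < s) (f : ℝ → ℝ) :
    ∫ t, f t ∂unif o s = s⁻¹ * ∫ x in (0 : ℝ)..s, f (o + x) := by
  rw [integral_unif hs, intervalIntegral.integral_comp_add_left, add_zero]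

theorem even_cos2 (hs : 0 < s) {g : ℝ → ℝ} (hg : BM g) :
    HasSum (fun n : ℤ => (s⁻¹ * ∫ x in (0 : ℝ)..s, Real.cos (π * n * x / s) * g x) ^ 2)
      (s⁻¹ * ∫ x in (0 : ℝ)..s, g x ^ 2) := by
  have h := real_pars_cos2 hs (bm_ext_cos2 1 hg)
  rw [sq_ext_cos2 hs (by norm_num) hg] at h
  convert h using 1
  · funext n
    rw [int_ext_cos2 hs 1 hg (bmc_cos2 n), int_ext_cos2 hs 1 hg (bms_cos2 n)]
    have e1 : ∀ x : ℝ, π * n * (-x) / s = -(π * n * x / s) := fun x => by ring
    simp_rw [e1, Real.cos_neg, Real.sin_neg]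
    have e2 : ∀ x : ℝ, (Real.cos (π * n * x / s) + 1 * Real.cos (π * n * x / s)) * g x =
        2 * (Real.cos (π * n * x / s) * g x) := fun x => by ring
    have e3 : ∀ x : ℝ, (Real.sin (π * n * x / s) + 1 * -Real.sin (π * n * x / s)) * g x = 0 :=
      fun x => by ring
    simp_rw [e2, e3]
    rw [intervalIntegral.integral_const_mul, intervalIntegral.integral_zero]
    field_simp
    ring
  · field_simp

theorem odd_cos2 (hs : 0 < s) {g : ℝ → ℝ} (hg : BM g) :
    HasSum (fun n : ℤ => (s⁻¹ * ∫ x in (0 : ℝ)..s, Real.sin (π * n * x / s) * g x) ^ 2)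
      (s⁻¹ * ∫ x in (0 : ℝ)..s, g x ^ 2) := by
  have h := real_pars_cos2 hs (bm_ext_cos2 (-1) hg)
  rw [sq_ext_cos2 hs (by norm_num) hg] at h
  convert h using 1
  · funext n
    rw [int_ext_cos2 hs (-1) hg (bmc_cos2 n), int_ext_cos2 hs (-1) hg (bms_cos2 n)]
    have e1 : ∀ x : ℝ, π * n * (-x) / s = -(π * n * x / s) := fun x => by ring
    simp_rw [e1, Real.cos_neg, Real.sin_neg]
    have e2 : ∀ x : ℝ, (Real.sin (π * n * x / s) + -1 * -Real.sin (π * n * x / s)) * g x =
        2 * (Real.sin (π * n * x / s) * g x) := fun x => by ring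
    have e3 : ∀ x : ℝ, (Real.cos (π * n * x / s) + -1 * Real.cos (π * n * x / s)) * g x = 0 :=
      fun x => by ring
    simp_rw [e2, e3]
    rw [intervalIntegral.integral_const_mul, intervalIntegral.integral_zero]
    field_simp
    ring
  · field_simp

/-- Even extension to `[o - s, o + s]` and Parseval for Fourier series
(`hasSum_sq_fourierCoeffOn`). -/
theorem pars_cs (hs : 0 < s) : Pars (unif o s) fun (m : ℕ) t => cs m (π * (t - o) / s) := by
  refine ⟨fun m => bm_cs m, fun f hf => ?_⟩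
  have hg : BM fun x => f (o + x) := hf.comp (measurable_const_add o)
  have h := (even_cos2 hs hg).nat_add_neg
  have h0 := hasSum_ite_eq (0 : ℕ)
    ((s⁻¹ * ∫ x in (0 : ℝ)..s, Real.cos (π * ((0 : ℤ) : ℝ) * x / s) * f (o + x)) ^ 2)
  have h1 := h.sub h0
  rw [add_sub_cancel_right] at h1
  rw [unif_cos2 hs]
  refine hs_congr_cos2 h1 fun m => ?_
  rw [unif_cos2 hs]
  have e1 : ∀ x : ℝ, π * ((-(m : ℤ) : ℤ) : ℝ) * x / s = -(π * ((m : ℤ) : ℝ) * x / s) :=
    fun x => by push_cast; ring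
  simp_rw [e1, Real.cos_neg]
  by_cases hm : m = 0
  · subst hm
    simp [cs]
  · have e2 : ∀ x : ℝ, cs m (π * (o + x - o) / s) * f (o + x) =
        √2 * (Real.cos (π * ((m : ℤ) : ℝ) * x / s) * f (o + x)) := fun x => by
      have : (m : ℝ) * (π * (o + x - o) / s) = π * ((m : ℤ) : ℝ) * x / s := by push_cast; ring
      rw [cs, if_neg hm, this, mul_assoc]
    simp_rw [e2]
    rw [intervalIntegral.integral_const_mul, if_neg hm, mul_left_comm, mul_pow,
      Real.sq_sqrt (by norm_num)]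
    ring

/-- Odd extension. The function with index `0` vanishes, which is harmless. -/
theorem pars_sn (hs : 0 < s) : Pars (unif o s) fun (m : ℕ) t => sn m (π * (t - o) / s) := by
  refine ⟨fun m => bm_sn m, fun f hf => ?_⟩
  have hg : BM fun x => f (o + x) := hf.comp (measurable_const_add o)
  have h := (odd_cos2 hs hg).nat_add_neg
  rw [unif_cos2 hs]
  convert h using 1
  · funext m
    rw [unif_cos2 hs]
    have e1 : ∀ x : ℝ, π * ((-(m : ℤ) : ℤ) : ℝ) * x / s = -(π * ((m : ℤ) : ℝ) * x / s) :=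
      fun x => by push_cast; ring
    simp_rw [e1, Real.sin_neg, neg_mul]
    have e2 : ∀ x : ℝ, sn m (π * (o + x - o) / s) * f (o + x) =
        √2 * (Real.sin (π * ((m : ℤ) : ℝ) * x / s) * f (o + x)) := fun x => by
      have : (m : ℝ) * (π * (o + x - o) / s) = π * ((m : ℤ) : ℝ) * x / s := by push_cast; ring
      rw [sn, this, mul_assoc]
    simp_rw [e2]
    rw [intervalIntegral.integral_const_mul, intervalIntegral.integral_neg, mul_left_comm, mul_pow,
      Real.sq_sqrt (by norm_num)]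
    ring
  · simp

end Pool.Agent.BoseLHY
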