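import Pool.Agent.Lib.MP_dec75e_mp.L.Unf

/-! The symmetrised kernels are diagonal in the Neumann basis. -/

open MeasureTheory Finset Function
open scoped Real

noncomputable section

namespace Pool.Agent.BoseLHY

open Pool.Agent.BoseTail

variable (B : Box)

theorem cs_eq_eigen (m : ℕ) (θ : ℝ) :
    cs m θ = (if m = 0 then 1 else √2) * Real.cos (m * θ) := by
  unfold cs
  split_ifs with h
  · simp [h]
  · rfl

theorem Box.e_eq_eigen (m : M3) (x : R3) : (B.e m).1 x =
    (∏ c, if m c = 0 then 1 else √2) * ∏ c, Real.cos (m c * B.ang x c) := by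
  rw [B.e_apply, ← prod_mul_distrib]
  exact prod_congr rfl fun c _ => cs_eq_eigen _ _

theorem Box.conv_eigen {h : R3 → ℝ} (hh : Integrable h) (he : Ev h) (m : M3) (x : R3) :
    ∫ u, h (x - u) * (B.e m).1 u = ct h (B.p m) * (B.e m).1 x := by
  have h1 : ∫ u, h (x - u) * (B.e m).1 u = ∫ z, h z * (B.e m).1 (x - z) := by
    rw [← integral_sub_left_eq_self (fun z => h z * (B.e m).1 (x - z)) volume x]
    simp only [sub_sub_cancel]
  have h2 : ∀ z, h z * (B.e m).1 (x - z) = (∏ c, if m c = 0 then 1 else √2) *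
      (h z * ∏ c, Real.cos (m c * B.ang x c - B.p m c * z c)) := by
    intro z
    have h3 : ∀ c, (m c : ℝ) * B.ang (x - z) c = m c * B.ang x c - B.p m c * z c := by
      intro c
      simp only [Box.ang, Box.p, Pi.sub_apply]
      ring
    rw [B.e_eq_eigen]
    simp only [h3]
    ring
  rw [h1]
  simp only [h2]
  rw [integral_const_mul, ct_shift hh he (fun c => m c * B.ang x c) (B.p m), B.e_eq_eigen]
  ring

theorem Box.eig_symk {h : BF R3} (he : Ev h.1) {r : ℝ} (hs : Supp h.1 r) (hr : ∀ c, r ≤ B.s c) :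
    B.Eig (B.symk h) fun m => ct h.1 (B.p m) / B.vol := by
  refine ⟨fun x y => B.symk_symm he x y, fun m x => ?_⟩
  have hh : Integrable h.1 := hs.integrable (bmOf h)
  obtain ⟨hm, K, hK⟩ := bmOf (B.e m)
  have hF : Integrable fun u => h.1 (B.fold x - u) * (B.e m).1 u :=
    (hh.comp_sub_left (B.fold x)).mul_bdd hm.aestronglyMeasurable
      (Filter.Eventually.of_forall hK)
  have h0 : ∀ y, (∃ c, y c < B.o c - B.s c ∨ B.o c + 2 * B.s c < y c) →
      h.1 (B.fold x - y) * (B.e m).1 y = 0 := by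
    rintro y ⟨c, hc⟩
    have h1 := B.fold_mem x c
    have h2 : |B.fold x c - y c| ≤ ‖B.fold x - y‖ := norm_le_pi_norm (B.fold x - y) c
    have h3 := hr c
    have h4 : r < ‖B.fold x - y‖ := by
      refine lt_of_lt_of_le ?_ h2
      rcases hc with hc | hc
      · exact lt_of_lt_of_le (by linarith) (le_abs_self _)
      · exact lt_of_lt_of_le (by linarith) (neg_le_abs _)
    rw [hs _ h4, zero_mul]
  have hU := B.unfold hF h0
  have hb : ∀ σ : Fin 3 → Fin 3,
      BM fun y => h.1 (B.fold x - B.refl σ y) * (B.e m).1 (B.refl σ y) := fun σ =>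
    ((bmOf h).comp (T := fun y => B.fold x - B.refl σ y)
      (continuous_const.sub (B.continuous_refl σ)).measurable).mul
      ((bmOf (B.e m)).comp (B.continuous_refl σ).measurable)
  have e1 : ∫ y, (B.symk h).1 (x, y) * (B.e m).1 y ∂(B.μ : Measure R3) =
      ∫ y, ∑ σ : Fin 3 → Fin 3, h.1 (B.fold x - B.refl σ y) * (B.e m).1 (B.refl σ y)
        ∂(B.μ : Measure R3) := by
    refine integral_congr_ae (B.ae_mem.mono fun y hy => ?_)
    simp only [B.symk_apply, B.fold_of_mem hy, B.e_refl, sum_mul]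
  rw [e1, integral_finsetSum _ fun σ _ => (hb σ).integrable]
  simp only [B.integral_mu]
  rw [← mul_sum, hU, B.conv_eigen hh he, B.e_fold]
  ring

/-- The eigenvalue equation at the corner `B.o`. -/
theorem Box.coef {h : BF R3} (he : Ev h.1) {r : ℝ} (hs : Supp h.1 r) (hr : ∀ c, r ≤ B.s c)
    (m : M3) : ∫ y, (B.e m).1 y * h.1 (y - B.o) ∂(B.μ : Measure R3) =
      (B.e m).1 B.o * ct h.1 (B.p m) / (8 * B.vol) := by
  have h1 := (B.eig_symk he hs hr).eig m B.o
  have h2 : ∫ y, (B.symk h).1 (B.o, y) * (B.e m).1 y ∂(B.μ : Measure R3) =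
      ∫ y, 8 * ((B.e m).1 y * h.1 (y - B.o)) ∂(B.μ : Measure R3) := by
    refine integral_congr_ae (B.ae_mem.mono fun y hy => ?_)
    simp only [B.symk_corner he hs hr hy]
    ring
  rw [h2, integral_const_mul] at h1
  have hV := B.vol_pos
  have h3 : (B.e m).1 B.o * ct h.1 (B.p m) / (8 * B.vol) =
      ct h.1 (B.p m) / B.vol * (B.e m).1 B.o / 8 := by
    field_simp
  rw [h3, ← h1]
  ring

theorem Box.pars_ct {h h' : BF R3} (he : Ev h.1) (he' : Ev h'.1) {r : ℝ} (hs : Supp h.1 r)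
    (hs' : Supp h'.1 r) (hr : ∀ c, r ≤ B.s c) :
    HasSum (fun m => wt3 m * (ct h.1 (B.p m) * ct h'.1 (B.p m))) (B.vol * ∫ z, h.1 z * h'.1 z) := by
  have hT : Measurable fun y : R3 => y - B.o := measurable_id.sub measurable_const
  have h1 := (B.pars.polar ((bmOf h).comp hT) ((bmOf h').comp hT)).mul_left (8 * B.vol ^ 2)
  have he2 : Ev (h * h').1 := fun z z' hz => by
    change h.1 z * h'.1 z = h.1 z' * h'.1 z'
    rw [he z z' hz, he' z z' hz]
  have hs2 : Supp (h * h').1 r := fun z hz => by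
    change h.1 z * h'.1 z = 0
    rw [hs z hz, zero_mul]
  have h2 := B.coef he2 hs2 hr 0
  have hp : B.p 0 = 0 := by
    funext c
    simp [Box.p]
  have h3 : ∀ y, (B.e 0).1 y = 1 := fun y => by rw [B.e_zero]; rfl
  simp only [h3, one_mul, hp, ct_zero] at h2
  have hV := B.vol_pos
  have h4 : ∫ y, h.1 (y - B.o) * h'.1 (y - B.o) ∂(B.μ : Measure R3) =
      (∫ z, h.1 z * h'.1 z) / (8 * B.vol) := h2
  rw [h4] at h1
  have h5 : 8 * B.vol ^ 2 * ((∫ z, h.1 z * h'.1 z) / (8 * B.vol)) =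
      B.vol * ∫ z, h.1 z * h'.1 z := by
    field_simp
  rw [h5] at h1
  have h6 : ∀ m, 8 * B.vol ^ 2 *
      ((∫ y, (B.e m).1 y * h.1 (y - B.o) ∂(B.μ : Measure R3)) *
        ∫ y, (B.e m).1 y * h'.1 (y - B.o) ∂(B.μ : Measure R3)) =
      wt3 m * (ct h.1 (B.p m) * ct h'.1 (B.p m)) := by
    intro m
    have h7 : wt3 m = (B.e m).1 B.o ^ 2 / 8 := by
      rw [B.e_corner]; ring
    rw [B.coef he hs hr, B.coef he' hs' hr, h7]
    field_simp
  simpa only [h6] using h1

end Pool.Agent.BoseLHY
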