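import Pool.Agent.Lib.MP_dec75e_mp.L.Mix

/-! Decomposition of a box into cells. -/

open MeasureTheory Finset Function
open scoped Real

noncomputable section

namespace Pool.Agent.BoseLHY

open Pool.Agent.BoseTail

variable {ι : Type} [Fintype ι] [DecidableEq ι] {μ : ι → ProbabilityMeasure R3} {B : Box}
  {S : Finset ι} {C : Type} [Fintype C] [DecidableEq C] {Q : C → Box} {ψ : Vs ι}

/-- Both sides are `∫ F` for `F X = ∑ k, 1 (X i ∈ Q k) ∫ G k (X i, y) (…)² d (Q k).μ`
(`glue_of_mem`, `Part.integral_ind`, `integral_asg`). -/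
theorem dform_asg (hA : Act μ B S) (hP : Part B Q) {i : ι} (hi : i ∈ S) (G : C → BF (R3 × R3))
    (ψ : Vs ι) :
    dform μ i (glue Q fun k => (B.vol / (Q k).vol) • G k) ψ =
      ∑ a : ι → C, (∏ i, (Q (a i)).vol / B.vol) * dform (asg μ S Q a) i (G (a i)) ψ := by
  have hF := BM.integral_right (μ := (μ i : Measure R3))
    (bm_dform i (glue Q fun k => (B.vol / (Q k).vol) • G k) ψ)
  unfold dform
  rw [integral_asg hA hP hF]
  refine Finset.sum_congr rfl fun a _ => ?_
  congr 1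
  have hi' : asg μ S Q a i = (Q (a i)).μ := if_pos hi
  have hae : ∀ᵐ X ∂pm (asg μ S Q a), X i ∈ (Q (a i)).set :=
    ae_coord (μ := asg μ S Q a) i (p := fun x => x ∈ (Q (a i)).set)
      (by rw [hi']; exact (Q (a i)).ae_mem)
  refine integral_congr_ae (hae.mono fun X hX => ?_)
  have h1 : ∀ y, (glue Q fun k => (B.vol / (Q k).vol) • G k).1 (X i, y) *
      (ψ.1 X - ψ.1 (update X i y)) ^ 2 = (Q (a i)).set.indicator (fun y => B.vol / (Q (a i)).vol *
        ((G (a i)).1 (X i, y) * (ψ.1 X - ψ.1 (update X i y)) ^ 2)) y := by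
    intro y
    rw [glue_of_mem hP _ hX]
    by_cases hy : y ∈ (Q (a i)).set
    · rw [Set.indicator_of_mem hy, Set.indicator_of_mem hy, ← mul_assoc]
      rfl
    · rw [Set.indicator_of_notMem hy, Set.indicator_of_notMem hy, zero_mul]
  have h2 := B.vol_pos.ne'
  have h3 := (Q (a i)).vol_pos.ne'
  simp only [h1]
  rw [hA i hi, hi', hP.integral_ind, integral_const_mul, ← mul_assoc]
  rw [show (Q (a i)).vol / B.vol * (B.vol / (Q (a i)).vol) = 1 by field_simp, one_mul]

/-- Neumann bracketing with an additional one-body term. -/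
theorem loc_bound (hA : Act μ B S) (hP : Part B Q) {w : BF (R3 × R3)} (hw : ∀ z, 0 ≤ w.1 z)
    (hψ : C1 ψ)
    (G : C → BF (R3 × R3)) {A₀ : ℝ} {A₁ : C → ℝ}
    (h : ∀ (k : C) (μ' : ι → ProbabilityMeasure R3) (S' : Finset ι), S' ⊆ S → Act μ' (Q k) S' →
      (A₀ * S'.card + A₁ k) * nq (ipB μ') ψ ≤ En μ' S' w ψ + ∑ i ∈ S', dform μ' i (G k) ψ) :
    (A₀ * S.card + ∑ k, A₁ k) * nq (ipB μ) ψ ≤
      En μ S w ψ + ∑ i ∈ S, dform μ i (glue Q fun k => (B.vol / (Q k).vol) • G k) ψ := by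
  have h1 : ∀ a : ι → C, (A₀ * S.card + ∑ k, A₁ k) * nq (ipB (asg μ S Q a)) ψ ≤
      En (asg μ S Q a) S w ψ + ∑ i ∈ S, dform (asg μ S Q a) i (G (a i)) ψ := by
    intro a
    have h2 := Finset.sum_le_sum (s := (Finset.univ : Finset C)) fun k _ =>
      h k (asg μ S Q a) (S.filter fun i => a i = k) (Finset.filter_subset _ _) (act_asg a k)
    have h3 : (S.card : ℝ) = ∑ k, ((S.filter fun i => a i = k).card : ℝ) := by
      rw [Finset.card_eq_sum_card_fiberwise (f := a) (s := S) (t := Finset.univ)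
        (fun _ _ => Finset.mem_coe.2 (Finset.mem_univ _))]
      push_cast
      rfl
    have h4 : ∑ k, ∑ i ∈ S.filter (fun i => a i = k), dform (asg μ S Q a) i (G k) ψ =
        ∑ i ∈ S, dform (asg μ S Q a) i (G (a i)) ψ := by
      rw [← Finset.sum_fiberwise_of_maps_to (s := S) (t := Finset.univ) (g := a)
        (fun _ _ => Finset.mem_univ _)]
      refine Finset.sum_congr rfl fun k _ => Finset.sum_congr rfl fun i hi => ?_
      rw [(Finset.mem_filter.1 hi).2]
    have h5 := En_fiber (μ := asg μ S Q a) hw S a ψ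
    rw [← Finset.sum_mul, Finset.sum_add_distrib, Finset.sum_add_distrib, ← Finset.mul_sum, ← h3,
      h4] at h2
    linarith
  have h6 : ∑ i ∈ S, dform μ i (glue Q fun k => (B.vol / (Q k).vol) • G k) ψ =
      ∑ a : ι → C, (∏ i, (Q (a i)).vol / B.vol) * ∑ i ∈ S, dform (asg μ S Q a) i (G (a i)) ψ := by
    rw [Finset.sum_congr rfl fun i hi => dform_asg hA hP hi G ψ, Finset.sum_comm]
    simp only [Finset.mul_sum]
  rw [nq_asg hA hP, En_asg hA hP w hψ, h6, ← Finset.sum_add_distrib, Finset.mul_sum]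
  refine Finset.sum_le_sum fun a _ => ?_
  have h7 : 0 ≤ ∏ i, (Q (a i)).vol / B.vol :=
    Finset.prod_nonneg fun i _ => (div_pos (Q (a i)).vol_pos B.vol_pos).le
  have h8 := mul_le_mul_of_nonneg_left (h1 a) h7
  linarith

end Pool.Agent.BoseLHY
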