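import Pool.Agent.Lib.MP_dec75e_mp.L.Group
import Pool.Agent.Lib.MP_dec75e_mp.L.Mix2
import Pool.Agent.Lib.MP_dec75e_mp.L.Cell
import Pool.Agent.Lib.MP_dec75e_mp.L.Eigen

/-! The leading order lower bound with a spectral gap. -/

open MeasureTheory Finset Function
open scoped Real

noncomputable section

namespace Pool.Agent.BoseLHY

open Pool.Agent.BoseTail

/-- For each of the eight partitions `loc_bound` with `G k = -(1 / (8 h²)) • 1` (`cell_bound`,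
`nP_dform`); average and use `glue_near`. -/
theorem crude (D : Dat) : ∃ C c s₀ : ℝ, 1 ≤ C ∧ 0 < c ∧ c ≤ 1 ∧ 1 ≤ s₀ ∧
    ∀ {ι : Type} [Fintype ι] [DecidableEq ι] (μ : ι → ProbabilityMeasure R3) (B : Box)
      (S : Finset ι) (ψ : Vs ι) (K : ℕ) (h r : ℝ), s₀ ≤ h → B.Cube (K * h) → Act μ B S →
      Sym S ψ → C1 ψ → 0 ≤ r → r * h ^ 2 ≤ c → ∀ (χ : BF R3) (Λ : ℝ), Wgt χ → Real.log h ≤ Λ →
      (∀ (hh : 0 < h) σ k, D.Cov χ (cell B.o K h hh σ k) (1 + Λ)⁻¹) →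
      (2 * π * D.a * (2 * r * S.card - r ^ 2 * B.vol) - C * (1 + Λ) * S.card / h ^ 3) *
        nq (ipB μ) ψ + B.vol / (256 * h ^ 5) * ∑ i ∈ S, dform μ i (dif (ball3 (h / 4))) ψ ≤
        En μ S (D.W χ) ψ := by
  obtain ⟨C, c, s₀, hC, hc, hc1, hs₀, H⟩ := cell_bound D
  refine ⟨C, c, s₀, hC, hc, hc1, hs₀, ?_⟩
  intro ι _ _ μ B S ψ K h r hh hB hA hS hψ hr hrc χ Λ hχ hΛ hcov
  have hh0 : 0 < h := by linarith
  have key : ∀ σ : Fin 3 → Fin 2,
      (2 * π * D.a * (2 * r * S.card - r ^ 2 * B.vol) - C * (1 + Λ) * S.card / h ^ 3) *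
        nq (ipB μ) ψ + 1 / (8 * h ^ 2) * ∑ i ∈ S, dform μ i (glue (cell B.o K h hh0 σ)
          fun k => (B.vol / (cell B.o K h hh0 σ k).vol) • 1) ψ ≤ En μ S (D.W χ) ψ := by
    intro σ
    have hP := part_cell hh0 hB σ
    have h1 := loc_bound (A₀ := 4 * π * D.a * r - C * (1 + Λ) / h ^ 3)
      (A₁ := fun k => -(2 * π * D.a * r ^ 2) * (cell B.o K h hh0 σ k).vol) hA hP (D.W0 hχ) hψ
      (fun _ => (-(1 / (8 * h ^ 2))) • (1 : BF (R3 × R3))) (by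
        intro k μ' S' hS' hA'
        have hsz : (cell B.o K h hh0 σ k).Sz h := fun c' => by
          have := cell_sz B.o hh0 σ k c'
          exact ⟨this.1, by linarith [this.2]⟩
        have h2 := H μ' _ S' ψ h r hh hsz hA' (fun i hi j hj => hS i (hS' hi) j (hS' hj)) hψ hr hrc
          χ Λ hχ hΛ (hcov hh0 σ k)
        rw [nP_dform hA'] at h2
        simp only [dform_smul, ← Finset.mul_sum]
        have e1 : (∑ i ∈ S', dform μ' i 1 ψ) / 2 / (4 * h ^ 2) =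
            1 / (8 * h ^ 2) * ∑ i ∈ S', dform μ' i 1 ψ := by ring
        have e2 : (4 * π * D.a * r - C * (1 + Λ) / h ^ 3) * S'.card +
            -(2 * π * D.a * r ^ 2) * (cell B.o K h hh0 σ k).vol =
            2 * π * D.a * (2 * r * S'.card - r ^ 2 * (cell B.o K h hh0 σ k).vol) -
              C * (1 + Λ) * S'.card / h ^ 3 := by ring
        rw [e2]
        linarith)
    have e3 : (fun k => (B.vol / (cell B.o K h hh0 σ k).vol) •
        (-(1 / (8 * h ^ 2))) • (1 : BF (R3 × R3))) = fun k => (-(1 / (8 * h ^ 2))) •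
          (B.vol / (cell B.o K h hh0 σ k).vol) • (1 : BF (R3 × R3)) :=
      funext fun k => smul_comm _ _ _
    rw [e3, glue_smul, ← Finset.mul_sum, hP.sum_vol] at h1
    simp only [dform_smul, ← Finset.mul_sum] at h1
    have e4 : (4 * π * D.a * r - C * (1 + Λ) / h ^ 3) * S.card +
        -(2 * π * D.a * r ^ 2) * B.vol =
        2 * π * D.a * (2 * r * S.card - r ^ 2 * B.vol) -
          C * (1 + Λ) * S.card / h ^ 3 := by ring
    rw [e4] at h1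
    linarith
  have hsum := Finset.sum_le_sum fun σ (_ : σ ∈ (Finset.univ : Finset (Fin 3 → Fin 2))) => key σ
  rw [Finset.sum_add_distrib, Finset.sum_const, Finset.sum_const, ← Finset.mul_sum,
    Finset.sum_comm] at hsum
  have hcard : (Finset.univ : Finset (Fin 3 → Fin 2)).card = 8 := by simp
  rw [hcard] at hsum
  simp only [nsmul_eq_mul, Nat.cast_ofNat] at hsum
  have hnear : ∑ i ∈ S, B.vol / (4 * h ^ 3) * dform μ i (dif (ball3 (h / 4))) ψ ≤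
      ∑ i ∈ S, ∑ σ : Fin 3 → Fin 2, dform μ i (glue (cell B.o K h hh0 σ)
        fun k => (B.vol / (cell B.o K h hh0 σ k).vol) • 1) ψ := by
    refine Finset.sum_le_sum fun i hi => ?_
    rw [← dform_smul, ← dform_sum]
    refine dform_mono (A := B.set) (by rw [hA i hi]; exact B.ae_mem) fun x hx y hy => ?_
    have := glue_near hh0 hB hx hy
    rw [AddSubmonoidClass.coe_finsetSum, Finset.sum_apply]
    exact this
  rw [← Finset.mul_sum] at hnear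
  have h8 : 0 ≤ 1 / (8 * h ^ 2) := by positivity
  have h9 := mul_le_mul_of_nonneg_left hnear h8
  have e5 : B.vol / (256 * h ^ 5) * ∑ i ∈ S, dform μ i (dif (ball3 (h / 4))) ψ =
      1 / (8 * h ^ 2) * (B.vol / (4 * h ^ 3) * ∑ i ∈ S, dform μ i (dif (ball3 (h / 4))) ψ) / 8 := by
    field_simp
    ring
  rw [e5]
  linarith

/-- The choice of the number of cells. -/
theorem scale_crude {c₀ l u : ℝ} (hc : 0 < c₀) (hc1 : c₀ ≤ 1) (hu : 0 < u) (hl : 1 ≤ l * u) :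
    ∀ (K : ℕ) (h : ℝ), K = ⌈l * u * √(2 / c₀)⌉₊ → h = l / K →
      l = K * h ∧ 1 / (√(2 / c₀) + 1) ≤ h * u ∧ h * u ≤ 1 ∧ 2 * u ^ 2 * h ^ 2 ≤ c₀ := by
  rintro _ _ rfl rfl
  have hq2 : √(2 / c₀) ^ 2 = 2 / c₀ := Real.sq_sqrt (by positivity)
  have hq1 : 1 ≤ √(2 / c₀) := by
    rw [Real.one_le_sqrt, le_div_iff₀ hc]
    linarith
  set q := √(2 / c₀) with hq
  have hK1 : l * u * q ≤ (⌈l * u * q⌉₊ : ℝ) := Nat.le_ceil _
  have hpos : 0 < l * u * q := by positivity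
  have hK2 : (⌈l * u * q⌉₊ : ℝ) < l * u * q + 1 := Nat.ceil_lt_add_one hpos.le
  set K := ⌈l * u * q⌉₊ with hK
  have hK0 : (0 : ℝ) < K := hpos.trans_le hK1
  have h1 : l / K * u * q ≤ 1 := by
    rw [div_mul_eq_mul_div, div_mul_eq_mul_div, div_le_one hK0]
    exact hK1
  have hlu : 0 ≤ l / K * u := by
    rw [div_mul_eq_mul_div]
    positivity
  refine ⟨by field_simp, ?_, ?_, ?_⟩
  · rw [div_mul_eq_mul_div, div_le_div_iff₀ (by positivity) hK0]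
    nlinarith
  · nlinarith
  · have h2 : (l / K * u * q) ^ 2 ≤ 1 := pow_le_one₀ (by positivity) h1
    rw [mul_pow, hq2] at h2
    have h3 : (l / K * u) ^ 2 * (2 / c₀) * c₀ ≤ 1 * c₀ := mul_le_mul_of_nonneg_right h2 hc.le
    have h4 : (l / K * u) ^ 2 * (2 / c₀) * c₀ = 2 * u ^ 2 * (l / K) ^ 2 := by
      field_simp
    linarith

/-- The logarithmic error term. -/
theorem log_crude {c h y : ℝ} (hc : 0 < c) (hy : 0 < y) (hy1 : y ≤ 1) (h1 : c ≤ h * y ^ 400)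
    (h2 : h * y ^ 400 ≤ 1) :
    Real.log h ≤ 400 * (1 / y) ∧ (1 + 400 * (1 / y)) / h ^ 3 ≤ 401 / c ^ 3 * y ^ 1199 := by
  have hu : 0 < y ^ 400 := pow_pos hy _
  have hh : 0 < h := by
    by_contra hn
    have := mul_nonpos_of_nonpos_of_nonneg (not_lt.1 hn) hu.le
    linarith
  have k1 : Real.log h + 400 * Real.log y ≤ 0 := by
    have := Real.log_nonpos (mul_pos hh hu).le h2
    rw [Real.log_mul hh.ne' hu.ne', Real.log_pow] at this
    exact_mod_cast this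
  have k2 : -Real.log y ≤ 1 / y := by
    have := Real.log_le_sub_one_of_pos (inv_pos.2 hy)
    rw [Real.log_inv] at this
    rw [one_div]
    linarith
  have k3 : 1 ≤ 1 / y := by
    rw [le_div_iff₀ hy]
    linarith
  refine ⟨by linarith, ?_⟩
  have k5 : c ^ 3 ≤ (h * y ^ 400) ^ 3 := pow_le_pow_left₀ hc.le h1 3
  have k6 : (h * y ^ 400) ^ 3 = h ^ 3 * y ^ 1199 * y := by ring
  have k7 : 1 / y ≤ h ^ 3 * y ^ 1199 / c ^ 3 := by
    rw [div_le_div_iff₀ hy (pow_pos hc 3)]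
    linarith
  rw [div_le_iff₀ (pow_pos hh 3)]
  have k8 : 401 / c ^ 3 * y ^ 1199 * h ^ 3 = 401 * (h ^ 3 * y ^ 1199 / c ^ 3) := by ring
  rw [k8]
  linarith

/-- The constant of `crude`. -/
def Dat.c0 (D : Dat) : ℝ := (crude D).choose_spec.choose

/-- The number of small cells per side. -/
def Dat.Kc (D : Dat) (y l : ℝ) : ℕ := ⌈l * y ^ 400 * √(2 / D.c0)⌉₊

/-- The weight covers the layer of the box and the layers of all its small cells. -/
structure Dat.Gd (D : Dat) (χ : BF R3) (B : Box) (y l : ℝ) : Prop where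
  wgt : Wgt χ
  cov : D.Cov χ B 1
  fine : ∀ (hh : 0 < l / D.Kc y l) σ k, D.Cov χ (cell B.o (D.Kc y l) (l / D.Kc y l) hh σ k) y

/-- `K = ⌈l √(2 / c) y^400⌉`, `h = l / K`, and `log h ≤ 400 / y`. -/
theorem crudeK (D : Dat) : ∃ C c y₀ : ℝ, 1 ≤ C ∧ 0 < c ∧ c ≤ 1 ∧ 0 < y₀ ∧ y₀ ≤ 1 ∧
    ∀ (y l : ℝ), 0 < y → y ≤ y₀ → 1 ≤ l * y ^ 400 → ∃ h : ℝ, c ≤ h * y ^ 400 ∧ h * y ^ 400 ≤ 1 ∧
    ∀ {ι : Type} [Fintype ι] [DecidableEq ι] (μ : ι → ProbabilityMeasure R3) (B : Box)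
      (S : Finset ι) (ψ : Vs ι) (χ : BF R3), D.Gd χ B y l → ∀ r : ℝ,
      B.Cube l → Act μ B S → Sym S ψ → C1 ψ → 0 ≤ r →
      r ≤ 2 * y ^ 800 →
      (2 * π * D.a * (2 * r * S.card - r ^ 2 * l ^ 3) - C * y ^ 1199 * S.card) * nq (ipB μ) ψ +
        l ^ 3 / (256 * h ^ 5) * ∑ i ∈ S, dform μ i (dif (ball3 (h / 4))) ψ ≤
        En μ S (D.W χ) ψ := by
  obtain ⟨s₀, hC, hc, hc1, hs₀, H⟩ := (crude D).choose_spec.choose_spec
  obtain ⟨C, hCe⟩ : ∃ C, C = (crude D).choose := ⟨_, rfl⟩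
  rw [← hCe] at hC
  obtain ⟨c₀, hc₀⟩ : ∃ c₀, c₀ = D.c0 := ⟨_, rfl⟩
  change 0 < D.c0 at hc
  change D.c0 ≤ 1 at hc1
  replace H : ∀ {ι : Type} [Fintype ι] [DecidableEq ι] (μ : ι → ProbabilityMeasure R3) (B : Box)
      (S : Finset ι) (ψ : Vs ι) (K : ℕ) (h r : ℝ), s₀ ≤ h → B.Cube (K * h) → Act μ B S →
      Sym S ψ → C1 ψ → 0 ≤ r → r * h ^ 2 ≤ D.c0 → ∀ (χ : BF R3) (Λ : ℝ), Wgt χ → Real.log h ≤ Λ →
      (∀ (hh : 0 < h) σ k, D.Cov χ (cell B.o K h hh σ k) (1 + Λ)⁻¹) →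
      (2 * π * D.a * (2 * r * S.card - r ^ 2 * B.vol) - C * (1 + Λ) * S.card / h ^ 3) *
        nq (ipB μ) ψ + B.vol / (256 * h ^ 5) * ∑ i ∈ S, dform μ i (dif (ball3 (h / 4))) ψ ≤
        En μ S (D.W χ) ψ := by
    rw [hCe]; exact H
  rw [← hc₀] at hc hc1 H
  have hq : 0 ≤ √(2 / c₀) := Real.sqrt_nonneg _
  set c := 1 / (√(2 / c₀) + 1) with hcdef
  have hc' : 0 < c := by positivity
  have hc1' : c ≤ 1 := by
    rw [hcdef, div_le_one (by positivity)]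
    linarith
  have hs0 : 0 < s₀ := by linarith
  have hc3 : c ^ 3 ≤ 1 := pow_le_one₀ hc'.le hc1'
  have hC' : 1 ≤ 401 / c ^ 3 := by
    rw [le_div_iff₀ (pow_pos hc' 3)]
    linarith
  have hy₀ : c / s₀ ≤ 1 := by
    rw [div_le_one hs0]
    linarith
  refine ⟨C * (401 / c ^ 3), c, c / s₀, one_le_mul_of_one_le_of_one_le hC hC', hc', hc1',
    div_pos hc' hs0, hy₀, ?_⟩
  intro y l hy hyy hl
  have hy1 : y ≤ 1 := hyy.trans hy₀
  have hu : 0 < y ^ 400 := pow_pos hy _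
  obtain ⟨hK, h1, h2, h3⟩ := scale_crude hc hc1 hu hl (D.Kc y l) _ (by rw [hc₀]; rfl) rfl
  refine ⟨l / D.Kc y l, h1, h2, ?_⟩
  intro ι _ _ μ B S ψ χ hχ r hB hA hS hψ hr hr2
  have hfine := hχ.fine
  generalize D.Kc y l = K at hK h1 h2 h3 hfine ⊢
  generalize l / K = h at hK h1 h2 h3 hfine ⊢
  have h1' : c ≤ h * y ^ 400 := h1
  have hh : 0 < h := by
    by_contra hn
    have := mul_nonpos_of_nonpos_of_nonneg (not_lt.1 hn) hu.le
    linarith
  have hsh : s₀ ≤ h := by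
    have k1 : y ^ 400 ≤ y := pow_le_of_le_one hy.le hy1 (by norm_num)
    have k2 : y * s₀ ≤ c := (le_div_iff₀ hs0).1 hyy
    have k3 : h * y ^ 400 ≤ h * y := mul_le_mul_of_nonneg_left k1 hh.le
    have k4 : y * s₀ ≤ y * h := by linarith
    exact le_of_mul_le_mul_left k4 hy
  have hrc : r * h ^ 2 ≤ c₀ := by
    have k1 : r * h ^ 2 ≤ 2 * y ^ 800 * h ^ 2 := mul_le_mul_of_nonneg_right hr2 (sq_nonneg h)
    have k2 : y ^ 800 = (y ^ 400) ^ 2 := by rw [← pow_mul]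
    rw [k2] at k1
    linarith
  obtain ⟨k0, k1⟩ := log_crude hc' hy hy1 h1' h2
  have hθ : (1 + 400 * (1 / y))⁻¹ ≤ y := by
    rw [inv_le_iff_one_le_mul₀ (by positivity), mul_add, mul_left_comm, mul_one_div_cancel hy.ne']
    linarith
  have hmain := H μ B S ψ K h r hsh (hK ▸ hB) hA hS hψ hr hrc χ _ hχ.wgt k0
    fun hh σ k => (hfine hh σ k).mono hθ
  rw [hB.vol] at hmain
  have hN : 0 ≤ nq (ipB μ) ψ := (psd_ipB μ).nq_nonneg ψ
  have k2 : C * (1 + 400 * (1 / y)) * S.card / h ^ 3 ≤ C * (401 / c ^ 3) * y ^ 1199 * S.card := by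
    have k3 := mul_le_mul_of_nonneg_left k1 (mul_nonneg (zero_le_one.trans hC)
      (Nat.cast_nonneg S.card : (0 : ℝ) ≤ S.card))
    calc C * (1 + 400 * (1 / y)) * S.card / h ^ 3
        = C * S.card * ((1 + 400 * (1 / y)) / h ^ 3) := by ring
      _ ≤ C * S.card * (401 / c ^ 3 * y ^ 1199) := k3
      _ = C * (401 / c ^ 3) * y ^ 1199 * S.card := by ring
  have k4 := mul_le_mul_of_nonneg_right (sub_le_sub_left k2
    (2 * π * D.a * (2 * r * S.card - r ^ 2 * l ^ 3))) hN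
  linarith

end Pool.Agent.BoseLHY
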