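import Pool.Agent.Lib.MP_dec75e_mp.L.Crude

/-! The leading order lower bound with a spectral gap. -/

open MeasureTheory Finset Function
open scoped Real

noncomputable section

namespace Pool.Agent.BoseLHY

open Pool.Agent.BoseTail

/-- `symk (ball3 r) ≤ 27 dif (ball3 r)` on the box, `dform_hasSum_occ`, `eig_symk`, `ct_ball`. -/
theorem gap_modes {ι : Type} [Fintype ι] [DecidableEq ι] {μ : ι → ProbabilityMeasure R3} {B : Box}
    {S : Finset ι} (hA : Act μ B S) {l r : ℝ} (hB : B.Cube l) (hr : 0 < r) (hl : r ≤ l) (ψ : Vs ι)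
    {g : M3 → ℝ} (hg : ∀ m, g m ≤ r ^ 3 * min (r ^ 2 * sq3 (pk l m)) 1 / 1350) {Γ : ℝ}
    (hΓ : HasSum (fun m => g m * occ μ B S m ψ) Γ) :
    Γ ≤ l ^ 3 * ∑ i ∈ S, dform μ i (dif (ball3 r)) ψ := by
  have hl0 : 0 < l := hB.pos
  have hE := B.eig_symk (h := ball3 r) (mono_ball3 r).ev (supp_ball3 r)
    (fun c => by rw [hB c]; exact hl)
  have hS := (dform_hasSum_occ hE hA ψ).mul_left (l ^ 3 / 27)
  have hp0 : B.p 0 = 0 := by
    funext c
    simp [Box.p]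
  have h1 : Γ ≤ l ^ 3 / 27 * ∑ i ∈ S, dform μ i (B.symk (ball3 r)) ψ := by
    refine hasSum_le (fun m => ?_) hΓ hS
    rw [← mul_assoc]
    refine mul_le_mul_of_nonneg_right ?_ occ_nonneg
    have h2 := ct_ball hr (pk l m)
    have h3 : l ^ 3 / 27 * (2 * (ct (ball3 r).1 (B.p 0) / B.vol - ct (ball3 r).1 (B.p m) / B.vol)) =
        2 / 27 * (ct (ball3 r).1 0 - ct (ball3 r).1 (pk l m)) := by
      rw [hp0, hB.vol, hB.p_eq]
      field_simp
    rw [h3]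
    have h4 := hg m
    linarith
  have h5 : ∀ i ∈ S, dform μ i (B.symk (ball3 r)) ψ ≤ 27 * dform μ i (dif (ball3 r)) ψ := by
    intro i hi
    rw [← dform_smul]
    refine dform_mono (A := B.set) (by rw [hA i hi]; exact B.ae_mem) fun x hx y hy => ?_
    have h6 := B.abs_symk_le (h := ball3 r) (mono_ball3 r) (fun z => by
      rw [ball3_apply]
      split_ifs <;> simp) hx hy
    exact (le_abs_self _).trans h6
  have h7 := Finset.sum_le_sum h5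
  rw [← Finset.mul_sum] at h7
  calc Γ ≤ l ^ 3 / 27 * ∑ i ∈ S, dform μ i (B.symk (ball3 r)) ψ := h1
    _ ≤ l ^ 3 / 27 * (27 * ∑ i ∈ S, dform μ i (dif (ball3 r)) ψ) :=
        mul_le_mul_of_nonneg_left h7 (by positivity)
    _ = l ^ 3 * ∑ i ∈ S, dform μ i (dif (ball3 r)) ψ := by ring

theorem pos_of_mul_pos_of_pos_crudem {a b : ℝ} (h : 0 < a * b) (hb : 0 < b) : 0 < a :=
  (mul_pos_iff_of_pos_right hb).1 h

theorem num_crudem {h y g s : ℝ} (hh : 0 < h) (hy : 0 < y) (h2 : h * y ^ 400 ≤ 1)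
    (hg : g ≤ 1 / 353894400 * min s (y ^ 800)) :
    256 * h ^ 5 * g ≤ (h / 4) ^ 3 * min ((h / 4) ^ 2 * s) 1 / 1350 := by
  have h3 : h ^ 2 * y ^ 800 ≤ 1 := by
    have h4 : h ^ 2 * y ^ 800 = (h * y ^ 400) ^ 2 := by ring
    rw [h4]
    exact pow_le_one₀ (by positivity) h2
  have h5 : h ^ 2 / 16 * min s (y ^ 800) ≤ min ((h / 4) ^ 2 * s) 1 := by
    refine le_min ?_ ?_
    · have h6 := mul_le_mul_of_nonneg_left (min_le_left s (y ^ 800)) (by positivity : 0 ≤ h ^ 2 / 16)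
      linarith
    · have h6 := mul_le_mul_of_nonneg_left (min_le_right s (y ^ 800)) (by positivity : 0 ≤ h ^ 2 / 16)
      linarith
  have h7 := mul_le_mul_of_nonneg_left hg (by positivity : 0 ≤ 256 * h ^ 5)
  have h8 := mul_le_mul_of_nonneg_left h5 (by positivity : 0 ≤ (h / 4) ^ 3 / 1350)
  calc 256 * h ^ 5 * g ≤ 256 * h ^ 5 * (1 / 353894400 * min s (y ^ 800)) := h7
    _ = (h / 4) ^ 3 / 1350 * (h ^ 2 / 16 * min s (y ^ 800)) := by ring
    _ ≤ (h / 4) ^ 3 / 1350 * min ((h / 4) ^ 2 * s) 1 := h8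
    _ = _ := by ring

theorem crudeM (D : Dat) : ∃ C c y₀ : ℝ, 1 ≤ C ∧ 0 < c ∧ c ≤ 1 ∧ 0 < y₀ ∧ y₀ ≤ 1 ∧
    ∀ (y l : ℝ), 0 < y → y ≤ y₀ → 1 ≤ l * y ^ 400 →
    ∀ {ι : Type} [Fintype ι] [DecidableEq ι] (μ : ι → ProbabilityMeasure R3) (B : Box)
      (S : Finset ι) (ψ : Vs ι) (χ : BF R3), D.Gd χ B y l → ∀ r : ℝ,
      B.Cube l → Act μ B S → Sym S ψ → C1 ψ → 0 ≤ r →
      r ≤ 2 * y ^ 800 → ∀ (g : M3 → ℝ) (Γ : ℝ), (∀ m, g m ≤ c * min (sq3 (pk l m)) (y ^ 800)) →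
      HasSum (fun m => g m * occ μ B S m ψ) Γ →
      (2 * π * D.a * (2 * r * S.card - r ^ 2 * l ^ 3) - C * y ^ 1199 * S.card) * nq (ipB μ) ψ +
        Γ ≤ En μ S (D.W χ) ψ := by
  obtain ⟨C, c, y₀, hC, hc, -, hy₀, hy₁, H⟩ := crudeK D
  refine ⟨C, 1 / 353894400, y₀, hC, by norm_num, by norm_num, hy₀, hy₁, ?_⟩
  intro y l hy hyy hl ι _ _ μ B S ψ χ hχ r hB hA hS hψ hr hr2 g Γ hg hΓ
  obtain ⟨h, hh1, hh2, H1⟩ := H y l hy hyy hl
  have hY : 0 < y ^ 400 := pow_pos hy _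
  have hh : 0 < h := pos_of_mul_pos_of_pos_crudem (hc.trans_le hh1) hY
  have hhl : h ≤ l := le_of_mul_le_mul_right (hh2.trans hl) hY
  have h1 := H1 μ B S ψ χ hχ r hB hA hS hψ hr hr2
  have h2 : HasSum (fun m => (256 * h ^ 5 * g m) * occ μ B S m ψ) (256 * h ^ 5 * Γ) := by
    have h0 := hΓ.mul_left (256 * h ^ 5)
    simp only [← mul_assoc] at h0
    exact h0
  have h3 := gap_modes hA hB (r := h / 4) (by positivity) (by linarith) ψ
    (g := fun m => 256 * h ^ 5 * g m) (fun m => num_crudem hh hy hh2 (hg m)) h2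
  have h4 : Γ ≤ l ^ 3 / (256 * h ^ 5) * ∑ i ∈ S, dform μ i (dif (ball3 (h / 4))) ψ := by
    rw [div_mul_eq_mul_div, le_div_iff₀ (by positivity)]
    linarith
  linarith

end Pool.Agent.BoseLHY
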