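import Pool.Agent.Lib.MP_dec75e_mp.L.Bx

/-! The cosine transform. -/

open MeasureTheory Finset Function
open scoped Real

noncomputable section

namespace Pool.Agent.BoseLHY

open Pool.Agent.BoseTail

theorem abs_prod_le_ct {u : Fin 3 → ℝ} (hu : ∀ c, |u c| ≤ 1) : |∏ c, u c| ≤ 1 := by
  rw [Finset.abs_prod]
  exact Finset.prod_le_one (fun c _ => abs_nonneg _) fun c _ => hu c

theorem int_mul_ct {h G : R3 → ℝ} (hh : Integrable h) (hG : Continuous G) {C : ℝ}
    (hC : ∀ z, |G z| ≤ C) : Integrable fun z => h z * G z :=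
  hh.mul_bdd hG.aestronglyMeasurable (Filter.Eventually.of_forall hC)

/-- Reflection of one coordinate. -/
def flipCt (c₀ : Fin 3) : R3 ≃ᵐ R3 :=
  MeasurableEquiv.piCongrRight fun c => if c = c₀ then MeasurableEquiv.neg ℝ else MeasurableEquiv.refl ℝ

theorem flip_apply_ct (c₀ : Fin 3) (z : R3) (c : Fin 3) :
    flipCt c₀ z c = if c = c₀ then -z c else z c := by
  change (if c = c₀ then MeasurableEquiv.neg ℝ else MeasurableEquiv.refl ℝ) (z c) = _
  split_ifs <;> rfl

theorem flip_mp_ct (c₀ : Fin 3) : MeasurePreserving (flipCt c₀) volume volume := by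
  have h := volume_preserving_pi (ι := Fin 3) (α' := fun _ => ℝ) (β' := fun _ => ℝ)
    (f := fun c => ⇑(if c = c₀ then MeasurableEquiv.neg ℝ else MeasurableEquiv.refl ℝ))
    (fun c => by
      split_ifs
      · exact Measure.measurePreserving_neg volume
      · exact MeasurePreserving.id volume)
  exact h

theorem odd_zero_ct {h G : R3 → ℝ} (he : Ev h) (c₀ : Fin 3)
    (hG : ∀ z, G (flipCt c₀ z) = -G z) : ∫ z, h z * G z = 0 := by
  have h1 := (flip_mp_ct c₀).integral_comp' fun z => h z * G z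
  have h2 : ∀ z, h (flipCt c₀ z) * G (flipCt c₀ z) = -(h z * G z) := by
    intro z
    rw [hG, he (flipCt c₀ z) z fun c => by rw [flip_apply_ct]; split_ifs <;> simp]
    ring
  simp only [h2, integral_neg] at h1
  linarith

/-- Terms which are odd in one coordinate may be dropped. -/
theorem drop_ct {h : R3 → ℝ} (hh : Integrable h) (he : Ev h) {F G G₀ G₁ G₂ : R3 → ℝ} {C : ℝ}
    (hF : ∀ z, F z = G z + G₀ z + G₁ z + G₂ z) (c : Continuous G) (c₀ : Continuous G₀)
    (c₁ : Continuous G₁) (c₂ : Continuous G₂) (b : ∀ z, |G z| ≤ C) (b₀ : ∀ z, |G₀ z| ≤ C)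
    (b₁ : ∀ z, |G₁ z| ≤ C) (b₂ : ∀ z, |G₂ z| ≤ C) (o₀ : ∀ z, G₀ (flipCt 0 z) = -G₀ z)
    (o₁ : ∀ z, G₁ (flipCt 1 z) = -G₁ z) (o₂ : ∀ z, G₂ (flipCt 2 z) = -G₂ z) :
    ∫ z, h z * F z = ∫ z, h z * G z := by
  have i := int_mul_ct hh c b
  have i₀ := int_mul_ct hh c₀ b₀
  have i₁ := int_mul_ct hh c₁ b₁
  have i₂ := int_mul_ct hh c₂ b₂
  have e : ∀ z, h z * F z = h z * G z + h z * G₀ z + h z * G₁ z + h z * G₂ z := by
    intro z
    rw [hF]
    ring
  simp only [e]
  have j₀ : Integrable fun z => h z * G z + h z * G₀ z := i.add i₀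
  have j₁ : Integrable fun z => h z * G z + h z * G₀ z + h z * G₁ z := j₀.add i₁
  rw [integral_add j₁ i₂, integral_add j₀ i₁, integral_add i i₀,
    odd_zero_ct he 0 o₀, odd_zero_ct he 1 o₁, odd_zero_ct he 2 o₂]
  ring

theorem abs3_ct {a b c : ℝ} (ha : |a| ≤ 1) (hb : |b| ≤ 1) (hc : |c| ≤ 1) : |a * b * c| ≤ 1 := by
  rw [abs_mul, abs_mul]
  exact mul_le_one₀ (mul_le_one₀ ha (abs_nonneg _) hb) (abs_nonneg _) hc

theorem abs2_ct {a b : ℝ} (ha : |a| ≤ 1) (hb : |b| ≤ 1) : |a * b| ≤ 1 := by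
  rw [abs_mul]
  exact mul_le_one₀ ha (abs_nonneg _) hb

theorem sin_le_ct {x : ℝ} (hx : 0 ≤ x) : |Real.sin x| ≤ x * (1 - min (x ^ 2) 1 / 20) := by
  have hm : min (x ^ 2) 1 ≤ 1 := min_le_right _ _
  rcases le_total x 2 with h | h
  · have hp := Real.pi_gt_three
    have hp' := Real.pi_lt_d2
    rw [abs_of_nonneg (Real.sin_nonneg_of_nonneg_of_le_pi hx (by linarith))]
    have h1 : Real.sin x = 2 * Real.sin (x / 2) * Real.cos (x / 2) := by
      rw [← Real.sin_two_mul]
      congr 1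
      ring
    have h2 : Real.sin (x / 2) ≤ x / 2 := Real.sin_le (by linarith)
    have h3 := Real.cos_le_one_sub_mul_cos_sq (x := x / 2)
      (by rw [abs_of_nonneg (by linarith)]; linarith)
    have h4 : 0 ≤ Real.cos (x / 2) :=
      Real.cos_nonneg_of_neg_pi_div_two_le_of_le (by linarith) (by linarith)
    have h5 : (1 : ℝ) / 5 ≤ 2 / π ^ 2 := by
      rw [div_le_div_iff₀ (by norm_num) (by positivity)]
      nlinarith
    have h6 : Real.cos (x / 2) ≤ 1 - min (x ^ 2) 1 / 20 := by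
      have := min_le_left (x ^ 2) 1
      nlinarith [sq_nonneg (x / 2)]
    rw [h1]
    calc 2 * Real.sin (x / 2) * Real.cos (x / 2) ≤ x * Real.cos (x / 2) :=
          mul_le_mul_of_nonneg_right (by linarith) h4
      _ ≤ _ := mul_le_mul_of_nonneg_left h6 hx
  · have := Real.abs_sin_le_one x
    nlinarith

theorem int_cos_ct {r : ℝ} (hr : 0 < r) (k : ℝ) :
    |∫ t in Set.Icc (-r) r, Real.cos (k * t)| ≤ 2 * r * (1 - min ((k * r) ^ 2) 1 / 20) := by
  rw [integral_Icc_eq_integral_Ioc, ← intervalIntegral.integral_of_le (by linarith)]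
  by_cases hk : k = 0
  · subst hk
    simp
    rw [abs_of_pos (by linarith)]
    linarith
  · rw [intervalIntegral.integral_comp_mul_left (fun t => Real.cos t) hk, integral_cos,
      mul_neg, Real.sin_neg, smul_eq_mul, abs_mul, abs_inv, sub_neg_eq_add, ← two_mul, abs_mul,
      abs_two]
    have hk' : 0 < |k| := abs_pos.2 hk
    have h1 := sin_le_ct (x := |k| * r) (by positivity)
    have h2 : |Real.sin (|k| * r)| = |Real.sin (k * r)| := by
      rcases abs_choice k with h | h <;> rw [h]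
      rw [neg_mul, Real.sin_neg, abs_neg]
    have h3 : (|k| * r) ^ 2 = (k * r) ^ 2 := by rw [mul_pow, sq_abs, mul_pow]
    rw [h2, h3] at h1
    rw [inv_mul_le_iff₀ hk']
    nlinarith

theorem ct_ball_eq_ct {r : ℝ} (hr : 0 < r) (k : R3) :
    ct (ball3 r).1 k = ∏ c, ∫ t in Set.Icc (-r) r, Real.cos (k c * t) := by
  have h : ∀ z : R3, (ball3 r).1 z * ∏ c, Real.cos (k c * z c) =
      ∏ c, (Set.Icc (-r) r).indicator (fun t => Real.cos (k c * t)) (z c) := by
    intro z
    rw [ball3_apply]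
    split_ifs with hz
    · rw [one_mul]
      refine Finset.prod_congr rfl fun c _ => ?_
      rw [Set.indicator_of_mem]
      exact abs_le.1 ((pi_norm_le_iff_of_nonneg hr.le).1 hz c)
    · rw [zero_mul, pi_norm_le_iff_of_nonneg hr.le, not_forall] at *
      obtain ⟨c, hc⟩ := hz
      refine (Finset.prod_eq_zero (Finset.mem_univ c) ?_).symm
      rw [Set.indicator_of_notMem]
      exact fun h => hc (abs_le.2 h)
  unfold ct
  simp only [h]
  rw [integral_fintype_prod_volume_eq_prod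
    (fun c => (Set.Icc (-r) r).indicator fun t => Real.cos (k c * t))]
  exact Finset.prod_congr rfl fun c _ => integral_indicator measurableSet_Icc

theorem sq3_nonneg (k : R3) : 0 ≤ sq3 k := by
  exact Finset.sum_nonneg fun c _ => sq_nonneg _

theorem ct_zero (h : R3 → ℝ) : ct h 0 = ∫ z, h z := by
  simp [ct]

theorem integrable_ct {h : R3 → ℝ} (hh : Integrable h) (k : R3) :
    Integrable fun z => h z * ∏ c, Real.cos (k c * z c) := by
  exact int_mul_ct hh (by fun_prop) fun z => abs_prod_le_ct fun c => Real.abs_cos_le_one _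

theorem abs_ct_le {h : R3 → ℝ} (hh : Integrable h) (k : R3) : |ct h k| ≤ ∫ z, |h z| := by
  refine (abs_integral_le_integral_abs).trans (integral_mono (integrable_ct hh k).abs hh.abs ?_)
  intro z
  change |h z * _| ≤ |h z|
  rw [abs_mul]
  exact mul_le_of_le_one_right (abs_nonneg _) (abs_prod_le_ct fun c => Real.abs_cos_le_one _)

theorem ct_sub {h h' : R3 → ℝ} (hh : Integrable h) (hh' : Integrable h') (k : R3) :
    ct (fun z => h z - h' z) k = ct h k - ct h' k := by
  unfold ct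
  rw [← integral_sub (integrable_ct hh k) (integrable_ct hh' k)]
  simp only [sub_mul]

theorem ct_const_mul (a : ℝ) (h : R3 → ℝ) (k : R3) : ct (fun z => a * h z) k = a * ct h k := by
  unfold ct
  rw [← integral_const_mul]
  simp only [mul_assoc]

theorem one_sub_prod_cos (u : R3) :
    0 ≤ 1 - ∏ c, Real.cos (u c) ∧ 1 - ∏ c, Real.cos (u c) ≤ min 2 (sq3 u / 2) := by
  have h := abs_le.1 (abs_prod_le_ct (u := fun c => Real.cos (u c)) fun c => Real.abs_cos_le_one _)
  refine ⟨by linarith [h.2], le_min (by linarith [h.1]) ?_⟩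
  unfold sq3
  rw [Fin.prod_univ_three, Fin.sum_univ_three]
  have h0 := Real.one_sub_sq_div_two_le_cos (x := u 0)
  have h1 := Real.one_sub_sq_div_two_le_cos (x := u 1)
  have h2 := Real.one_sub_sq_div_two_le_cos (x := u 2)
  have a0 := Real.cos_le_one (u 0)
  have a1 := Real.cos_le_one (u 1)
  have a2 := Real.cos_le_one (u 2)
  have a01 := (abs_le.1 (abs2_ct (Real.abs_cos_le_one (u 0)) (Real.abs_cos_le_one (u 1)))).2
  nlinarith [mul_nonneg (sub_nonneg.2 a0) (sub_nonneg.2 a1),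
    mul_nonneg (sub_nonneg.2 a01) (sub_nonneg.2 a2)]

theorem ct_lip {h : R3 → ℝ} {r M : ℝ} (hb : BM h) (hs : Supp h r) (hr : 0 ≤ r)
    (hM : ∀ z, |h z| ≤ M) (k : R3) : |ct h k - ct h 0| ≤ 4 * M * r ^ 5 * sq3 k := by
  have hh : Integrable h := hs.integrable hb
  have h1 : ct h k - ct h 0 = ∫ z, (h z * ∏ c, Real.cos (k c * z c) - h z) := by
    rw [ct_zero, integral_sub (integrable_ct hh k) hh]
    rfl
  have h2 : ∀ z, |h z * ∏ c, Real.cos (k c * z c) - h z| ≤ r ^ 2 * sq3 k / 2 * |h z| := by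
    intro z
    rcases le_or_gt ‖z‖ r with hz | hz
    · have h3 := one_sub_prod_cos fun c => k c * z c
      have h4 : sq3 (fun c => k c * z c) ≤ r ^ 2 * sq3 k := by
        unfold sq3
        rw [Finset.mul_sum]
        refine Finset.sum_le_sum fun c _ => ?_
        have h5 : |z c| ≤ r := (pi_norm_le_iff_of_nonneg hr).1 hz c
        have h6 : z c ^ 2 ≤ r ^ 2 := sq_le_sq' (abs_le.1 h5).1 (abs_le.1 h5).2
        nlinarith [sq_nonneg (k c)]
      have h7 := h3.2.trans (min_le_right _ _)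
      have e : h z * ∏ c, Real.cos (k c * z c) - h z =
          -((1 - ∏ c, Real.cos (k c * z c)) * h z) := by ring
      rw [e, abs_neg, abs_mul, abs_of_nonneg h3.1]
      exact mul_le_mul_of_nonneg_right (by linarith) (abs_nonneg _)
    · simp [hs z hz]
  have h8 := hs.integral_abs_le hr hM
  have h9 : 0 ≤ r ^ 2 * sq3 k / 2 := by have := sq3_nonneg k; positivity
  rw [h1]
  calc _ ≤ ∫ z, |h z * ∏ c, Real.cos (k c * z c) - h z| := abs_integral_le_integral_abs
    _ ≤ ∫ z, r ^ 2 * sq3 k / 2 * |h z| :=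
        integral_mono ((integrable_ct hh k).sub hh).abs (hh.abs.const_mul _) h2
    _ = r ^ 2 * sq3 k / 2 * ∫ z, |h z| := integral_const_mul _ _
    _ ≤ r ^ 2 * sq3 k / 2 * (8 * M * r ^ 3) := mul_le_mul_of_nonneg_left h8 h9
    _ = _ := by ring

/-- Expand `cos (a - b)`; the terms containing a sine vanish by oddness. -/
theorem ct_shift {h : R3 → ℝ} (hh : Integrable h) (he : Ev h) (a k : R3) :
    ∫ z, h z * ∏ c, Real.cos (a c - k c * z c) = ct h k * ∏ c, Real.cos (a c) := by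
  have hc := Real.abs_cos_le_one
  have hsn := Real.abs_sin_le_one
  rw [drop_ct hh he (C := 1)
    (G := fun z => (∏ c, Real.cos (k c * z c)) * ∏ c, Real.cos (a c))
    (G₀ := fun z => Real.sin (a 0) * Real.sin (k 0 * z 0) * Real.cos (a 1 - k 1 * z 1) *
      Real.cos (a 2 - k 2 * z 2))
    (G₁ := fun z => Real.cos (a 0) * Real.cos (k 0 * z 0) * (Real.sin (a 1) * Real.sin (k 1 * z 1)) *
      Real.cos (a 2 - k 2 * z 2))
    (G₂ := fun z => Real.cos (a 0) * Real.cos (k 0 * z 0) * (Real.cos (a 1) * Real.cos (k 1 * z 1)) *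
      (Real.sin (a 2) * Real.sin (k 2 * z 2)))
    (fun z => by simp only [Fin.prod_univ_three, Real.cos_sub]; ring)
    (by fun_prop) (by fun_prop) (by fun_prop) (by fun_prop)
    (fun z => abs2_ct (abs_prod_le_ct fun c => hc _) (abs_prod_le_ct fun c => hc _))
    (fun z => abs3_ct (abs2_ct (hsn _) (hsn _)) (hc _) (hc _))
    (fun z => abs3_ct (abs2_ct (hc _) (hc _)) (abs2_ct (hsn _) (hsn _)) (hc _))
    (fun z => abs3_ct (abs2_ct (hc _) (hc _)) (abs2_ct (hc _) (hc _)) (abs2_ct (hsn _) (hsn _)))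
    (fun z => by simp [flip_apply_ct]) (fun z => by simp [flip_apply_ct])
    (fun z => by simp [flip_apply_ct])]
  unfold ct
  rw [← integral_mul_const]
  simp only [mul_assoc]

theorem ct_dot {h : R3 → ℝ} (hh : Integrable h) (he : Ev h) (k : R3) :
    ∫ z, h z * Real.cos (∑ c, k c * z c) = ct h k := by
  have hc := Real.abs_cos_le_one
  have hsn := Real.abs_sin_le_one
  exact drop_ct hh he (C := 1) (G := fun z => ∏ c, Real.cos (k c * z c))
    (G₀ := fun z => -(Real.sin (k 0 * z 0) * Real.sin (k 1 * z 1 + k 2 * z 2)))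
    (G₁ := fun z => -(Real.cos (k 0 * z 0) * Real.sin (k 1 * z 1) * Real.sin (k 2 * z 2)))
    (G₂ := fun _ => 0)
    (fun z => by
      simp only [Fin.prod_univ_three, Fin.sum_univ_three, Real.cos_add, Real.sin_add]; ring)
    (by fun_prop) (by fun_prop) (by fun_prop) (by fun_prop)
    (fun z => abs_prod_le_ct fun c => hc _)
    (fun z => by rw [abs_neg]; exact abs2_ct (hsn _) (hsn _))
    (fun z => by rw [abs_neg]; exact abs3_ct (hc _) (hsn _) (hsn _))
    (fun z => by simp)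
    (fun z => by simp [flip_apply_ct]) (fun z => by simp [flip_apply_ct]) (fun z => by simp)

theorem ct_scale (ν : R3 → ℝ) {κ : ℝ} (hκ : 0 < κ) (k : R3) :
    ct (fun z => κ ^ 3 * ν (κ • z)) k = ct ν (κ⁻¹ • k) := by
  have h := Measure.integral_comp_smul (volume : Measure R3)
    (fun w => ν w * ∏ c, Real.cos ((κ⁻¹ • k) c * w c)) κ
  have e : ∀ z : R3, κ ^ 3 * ν (κ • z) * ∏ c, Real.cos (k c * z c) =
      κ ^ 3 * (ν (κ • z) * ∏ c, Real.cos ((κ⁻¹ • k) c * (κ • z) c)) := by
    intro z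
    rw [mul_assoc]
    congr 2
    refine Finset.prod_congr rfl fun c _ => ?_
    congr 1
    simp only [Pi.smul_apply, smul_eq_mul]
    field_simp
  unfold ct
  simp only [e]
  rw [integral_const_mul, h, Module.finrank_fin_fun, abs_of_pos (by positivity), smul_eq_mul,
    mul_inv_cancel_left₀ (by positivity)]

theorem ct_ball {r : ℝ} (hr : 0 < r) (k : R3) :
    r ^ 3 * min (r ^ 2 * sq3 k) 1 / 100 ≤ ct (ball3 r).1 0 - ct (ball3 r).1 k := by
  have h0 : ct (ball3 r).1 0 = 8 * r ^ 3 := by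
    rw [ct_ball_eq_ct hr]
    simp only [Pi.zero_apply, zero_mul, Real.cos_zero, setIntegral_const, smul_eq_mul, mul_one,
      Real.volume_real_Icc, Finset.prod_const, Finset.card_univ, Fintype.card_fin]
    rw [max_eq_left (by linarith)]
    ring
  obtain ⟨c₀, -, hc₀⟩ := Finset.exists_max_image Finset.univ (fun c => k c ^ 2) Finset.univ_nonempty
  have h1 : sq3 k ≤ 3 * k c₀ ^ 2 := by
    unfold sq3
    rw [Fin.sum_univ_three]
    linarith [hc₀ 0 (Finset.mem_univ _), hc₀ 1 (Finset.mem_univ _), hc₀ 2 (Finset.mem_univ _)]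
  have h2 : ∀ c, |∫ t in Set.Icc (-r) r, Real.cos (k c * t)| ≤ 2 * r := by
    intro c
    have := int_cos_ct hr (k c)
    have h3 : 0 ≤ min ((k c * r) ^ 2) 1 := le_min (sq_nonneg _) zero_le_one
    nlinarith
  have h4 : ct (ball3 r).1 k ≤ 2 * r * (1 - min ((k c₀ * r) ^ 2) 1 / 20) * (2 * r) ^ 2 := by
    rw [ct_ball_eq_ct hr]
    refine (le_abs_self _).trans ?_
    rw [Finset.abs_prod, Fin.prod_univ_succAbove _ c₀]
    refine mul_le_mul (int_cos_ct hr _) ?_ (Finset.prod_nonneg fun _ _ => abs_nonneg _) ?_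
    · calc _ ≤ ∏ _i : Fin 2, 2 * r :=
            Finset.prod_le_prod (fun _ _ => abs_nonneg _) fun i _ => h2 _
        _ = _ := by simp
    · exact (abs_nonneg _).trans (int_cos_ct hr _)
  have h5 : min (r ^ 2 * sq3 k) 1 ≤ 3 * min ((k c₀ * r) ^ 2) 1 := by
    rcases le_total ((k c₀ * r) ^ 2) 1 with h | h
    · rw [min_eq_left h]
      refine (min_le_left _ _).trans ?_
      nlinarith [sq_nonneg r]
    · rw [min_eq_right h]
      linarith [min_le_right (r ^ 2 * sq3 k) 1]
  have h6 : 0 ≤ min ((k c₀ * r) ^ 2) 1 := le_min (sq_nonneg _) zero_le_one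
  have h7 : 0 < r ^ 3 := by positivity
  rw [h0]
  nlinarith

end Pool.Agent.BoseLHY
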