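import Pool.Agent.Lib.MP_dec75e_mp.L.DatE0

/-! From the scattering solution to the data used in boxes. -/

open MeasureTheory Finset Function
open scoped Real

noncomputable section

namespace Pool.Agent.BoseLHY

open Pool.Agent.BoseTail

/-- The truncated scattering solution of `Scat.truncate` (repeat its proof with
`ω = (1 - f) p (‖x‖ / R)`), keeping in addition that `ω` and `m` are radial and `ω = 1 - f` on
the ball of radius `R`. -/
theorem scat_truncate {v f : E3 → ℝ} {a : ℝ} (h : Scat v f a) : ∃ Λ : ℝ, 1 ≤ Λ ∧ ∀ Rv R : ℝ,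
    0 < Rv → Rv < R → (∀ x, Rv < ‖x‖ → v x = 0) → ∃ ω m : E3 → ℝ, ContDiff ℝ 2 ω ∧
      (∀ x, 0 ≤ ω x ∧ ω x ≤ 1) ∧ (∀ x, 2 * R ≤ ‖x‖ → ω x = 0) ∧ Continuous m ∧
      (∀ x, |m x| ≤ Λ / R ^ 3) ∧ (∀ x, 2 * R ≤ ‖x‖ → m x = 0) ∧ (∫ x, m x = 4 * π) ∧
      (∀ x y, ‖x‖ = ‖y‖ → ω x = ω y ∧ m x = m y) ∧ (∀ x, ‖x‖ ≤ R → ω x = 1 - f x) ∧
      ∀ x, -lapE ω x = v x * f x - a * m x := by
  obtain ⟨Λ, p, p', p'', hΛ, hp, h1, h2, hc, h01, hl, hr, hb⟩ := exists_profile
  refine ⟨Λ, hΛ, fun Rv R hRv hRR hv => ?_⟩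
  have hR : 0 < R := hRv.trans hRR
  have hin : ∀ x : E3, ‖x‖ < R → ∀ᶠ y in nhds x, p (‖y‖ / R) = 1 := fun x hx => by
    filter_upwards [(isOpen_lt continuous_norm continuous_const).mem_nhds hx] with y hy
    exact (hl _ ((div_le_one hR).2 (le_of_lt hy))).1
  have hP : ContDiff ℝ 2 fun x : E3 => p (‖x‖ / R) := by
    rw [contDiff_iff_contDiffAt]
    intro x
    by_cases hx : x = 0
    · exact contDiffAt_const.congr_of_eventuallyEq (hin x (by simpa [hx] using hR))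
    · exact hp.contDiffAt.comp x ((contDiffAt_norm ℝ hx).div_const R)
  have hmax : ∀ x : E3, 0 < R ^ 2 * max ‖x‖ R := fun x =>
    mul_pos (pow_pos hR 2) (hR.trans_le (le_max_right _ _))
  refine ⟨fun x => (1 - f x) * p (‖x‖ / R), fun x => p'' (‖x‖ / R) / (R ^ 2 * max ‖x‖ R),
    (contDiff_const.sub h.c2).mul hP, fun x => ?_, fun x hx => ?_, ?_, fun x => ?_,
    fun x hx => ?_, integral_source_rad h1 h2 hc hl hr hR, fun x y hxy => ?_, fun x hx => ?_,
    fun x => ?_⟩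
  · obtain ⟨a1, a2⟩ := h.bounds x
    obtain ⟨b1, b2⟩ := h01 (‖x‖ / R)
    exact ⟨mul_nonneg (by linarith) b1, mul_le_one₀ (by linarith) b1 b2⟩
  · simp only [(hr _ ((le_div_iff₀ hR).2 hx)).1, mul_zero]
  · exact (hc.comp (continuous_norm.div_const R)).div
      (continuous_const.mul (continuous_norm.max continuous_const)) fun x => (hmax x).ne'
  · rw [abs_div, abs_of_pos (hmax x)]
    refine div_le_div₀ (by linarith) (hb _) (pow_pos hR 3) ?_
    rw [pow_succ R 2]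
    exact mul_le_mul_of_nonneg_left (le_max_right _ _) (sq_nonneg R)
  · simp only [(hr _ ((le_div_iff₀ hR).2 hx)).2.2, zero_div]
  · simp only [hxy, h.radial hxy, and_self]
  · simp only [(hl _ ((div_le_one hR).2 hx)).1, mul_one]
  · rcases lt_or_ge ‖x‖ R with hx | hx
    · have e1 : (fun y : E3 => (1 - f y) * p (‖y‖ / R)) =ᶠ[nhds x] fun y => 1 - f y := by
        filter_upwards [hin x hx] with y hy
        rw [hy, mul_one]
      have e2 := hl _ ((div_le_one hR).2 hx.le)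
      rw [lapE_congr e1, lapE_one_sub_rad, ← laplacian_eq_lapE h.c2, h.eqn]
      simp only [e2.2.2]
      ring
    · have hx' : Rv < ‖x‖ := hRR.trans_le hx
      have e1 : (fun y : E3 => (1 - f y) * p (‖y‖ / R)) =ᶠ[nhds x]
          fun y => a / ‖y‖ * p (‖y‖ / R) := by
        filter_upwards [(isOpen_lt continuous_const continuous_norm).mem_nhds hx'] with y hy
        rw [h.outside hRv hv hy]
        ring
      rw [lapE_congr e1, lapE_newton_rad h1 h2 a hR (norm_pos_iff.1 (hRv.trans hx')), hv x hx']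
      simp only [max_eq_left hx]
      ring

theorem norm_mono_date {z z' : R3} (h : ∀ c, |z c| ≤ |z' c|) :
    ‖(WithLp.toLp 2 z : E3)‖ ≤ ‖(WithLp.toLp 2 z' : E3)‖ := by
  rw [EuclideanSpace.norm_eq, EuclideanSpace.norm_eq]
  refine Real.sqrt_le_sqrt (Finset.sum_le_sum fun c _ => ?_)
  exact pow_le_pow_left₀ (norm_nonneg _) (h c) 2

theorem norm_eq_date {z z' : R3} (h : ∀ c, |z c| = |z' c|) :
    ‖(WithLp.toLp 2 z : E3)‖ = ‖(WithLp.toLp 2 z' : E3)‖ :=
  le_antisymm (norm_mono_date fun c => (h c).le) (norm_mono_date fun c => (h c).ge)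

theorem norm_le_date (z : R3) : ‖z‖ ≤ ‖(WithLp.toLp 2 z : E3)‖ :=
  (pi_norm_le_iff_of_nonneg (norm_nonneg _)).2 fun c =>
    PiLp.norm_apply_le (WithLp.toLp 2 z : E3) c

theorem bm_date {u : E3 → ℝ} (hu : Continuous u) {M : ℝ} (hM : ∀ x, |u x| ≤ M) :
    BM fun z : R3 => u (WithLp.toLp 2 z) :=
  ⟨(hu.comp (PiLp.continuous_toLp 2 _)).measurable, M, fun _ => hM _⟩

theorem integral_date (u : E3 → ℝ) : ∫ z : R3, u (WithLp.toLp 2 z) = ∫ x, u x :=
  (PiLp.volume_preserving_toLp (Fin 3)).integral_comp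
    (MeasurableEquiv.toLp 2 _).measurableEmbedding u

/-- The scattering equation in Fourier form. -/
theorem ct_eq_date {ω m g : E3 → ℝ} {a r : ℝ} (hω : ContDiff ℝ 2 ω)
    (hs : ∀ x, r ≤ ‖x‖ → ω x = 0) (hg : Integrable fun z : R3 => g (WithLp.toLp 2 z))
    (hm : Integrable fun z : R3 => a * m (WithLp.toLp 2 z))
    (he : ∀ x, -lapE ω x = g x - a * m x) (k : R3) :
    sq3 k * ct (fun z => ω (WithLp.toLp 2 z)) k =
      ct (fun z => g (WithLp.toLp 2 z)) k - ct (fun z => a * m (WithLp.toLp 2 z)) k := by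
  rw [← ct_sub hg hm]
  have e : (fun z : R3 => g (WithLp.toLp 2 z) - a * m (WithLp.toLp 2 z)) =
      fun z => (-1) * lapE ω (WithLp.toLp 2 z) := funext fun z => by
    rw [← he]
    ring
  rw [e, ct_const_mul, ct_lapE hω hs]
  ring

/-- A majorant of the potential which is non-increasing in each coordinate. -/
structure Maj (v : E3 → ℝ) (V : BF R3) : Prop where
  mono : Mono V.1
  le : ∀ z, v (WithLp.toLp 2 z) ≤ V.1 z
  supp : ∃ r, 0 ≤ r ∧ Supp V.1 r

theorem exists_maj {v : E3 → ℝ} (hv : Continuous v) (hc : HasCompactSupport v) :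
    ∃ M : ℝ, 0 < M ∧ Maj v (M • ball3 M) := by
  obtain ⟨Rv, hRv, hout⟩ := hc.exists_pos_le_norm
  obtain ⟨Cv, hCv⟩ := hv.bounded_above_of_compact_support hc
  have hCv0 : 0 ≤ Cv := (norm_nonneg _).trans (hCv 0)
  have e : ∀ (M : ℝ) (z : R3), (M • ball3 M).1 z = M * (ball3 M).1 z := fun _ _ => rfl
  refine ⟨Rv + Cv, by linarith, fun z z' hz => ?_, fun z => ?_, Rv + Cv, by linarith,
    fun z hz => ?_⟩
  · rw [e, e]
    exact mul_le_mul_of_nonneg_left (mono_ball3 _ z z' hz) (by linarith)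
  · rw [e, ball3_apply]
    split_ifs with h
    · have := (le_abs_self _).trans (hCv (WithLp.toLp 2 z))
      linarith
    · rw [hout _ (le_trans (by linarith [not_le.1 h]) (norm_le_date z)), mul_zero]
  · rw [e, supp_ball3 _ z hz, mul_zero]

/-- The scattering data in coordinates. The identity `∫ v f = 4 π a` is the case `k = 0` of
`ct_lapE`. The sup norm of `z : R3` is at most the Euclidean norm of `toLp 2 z`. -/
theorem exists_dat {v f : E3 → ℝ} {a : ℝ} (h : Scat v f a) {V : BF R3} (hV : Maj v V) :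
    ∃ D : Dat, D.a = a ∧ D.V = V ∧ ∀ z, D.w.1 z = v (WithLp.toLp 2 z) := by
  obtain ⟨r, hr, hsV⟩ := hV.supp
  obtain ⟨Rv, hRv, hout⟩ := h.cpt.exists_pos_le_norm
  obtain ⟨Cv, hCv⟩ := h.cont.bounded_above_of_compact_support h.cpt
  obtain ⟨Λ, hΛ, htr⟩ := scat_truncate h
  have hout' : ∀ x, Rv < ‖x‖ → v x = 0 := fun x hx => hout x hx.le
  have hCv' : ∀ x, |v x| ≤ Cv := fun x => hCv x
  have hCv0 : 0 ≤ Cv := (abs_nonneg _).trans (hCv' 0)
  have haΛ : 0 ≤ a * Λ := mul_nonneg h.pos.le (by linarith)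
  have hf1 : ∀ x, |f x| ≤ 1 := fun x => by
    rw [abs_of_nonneg (h.bounds x).1]
    exact (h.bounds x).2
  have hw : BM fun z : R3 => v (WithLp.toLp 2 z) := bm_date h.cont hCv'
  have hf : BM fun z : R3 => f (WithLp.toLp 2 z) := bm_date h.c2.continuous hf1
  have hg : Integrable fun z : R3 => v (WithLp.toLp 2 z) * f (WithLp.toLp 2 z) :=
    Supp.integrable (r := Rv) (hw.mul hf) fun z hz => by
      simp only [hout' _ (hz.trans_le (norm_le_date z)), zero_mul]
  have key : ∀ R, Rv < R → ∃ ω m : BF R3, Ev ω.1 ∧ Ev m.1 ∧ Supp ω.1 (2 * R) ∧ Supp m.1 (2 * R) ∧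
      (∀ z, 0 ≤ ω.1 z) ∧ (∀ z, v (WithLp.toLp 2 z) ≠ 0 → ω.1 z = 1 - f (WithLp.toLp 2 z)) ∧
      (∀ z, |m.1 z| ≤ a * Λ / R ^ 3) ∧ (∫ z, m.1 z = 4 * π * a) ∧
      ∀ k, sq3 k * ct ω.1 k =
        ct (fun z => v (WithLp.toLp 2 z) * f (WithLp.toLp 2 z)) k - ct m.1 k := by
    intro R hR
    obtain ⟨ω, m, hω2, hω01, hωo, hmc, hmle, hmo, hmi, hrad, hin, hlap⟩ := htr Rv R hRv hR hout'
    have hω1 : ∀ x, |ω x| ≤ 1 := fun x => by
      rw [abs_of_nonneg (hω01 x).1]
      exact (hω01 x).2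
    have hm1 : BM fun z : R3 => a * m (WithLp.toLp 2 z) := (BM.const a).mul (bm_date hmc hmle)
    have hms : Supp (fun z : R3 => a * m (WithLp.toLp 2 z)) (2 * R) := fun z hz => by
      simp only [hmo _ (hz.le.trans (norm_le_date z)), mul_zero]
    refine ⟨⟨fun z => ω (WithLp.toLp 2 z), bm_date hω2.continuous hω1⟩,
      ⟨fun z => a * m (WithLp.toLp 2 z), hm1⟩, fun z z' hz => (hrad _ _ (norm_eq_date hz)).1,
      fun z z' hz => ?_, fun z hz => hωo _ (hz.le.trans (norm_le_date z)), hms,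
      fun z => (hω01 _).1, fun z hz => hin _ ?_, fun z => ?_, ?_, fun k => ?_⟩
    · exact congrArg (a * ·) (hrad _ _ (norm_eq_date hz)).2
    · by_contra hn
      exact hz (hout' _ (hR.trans (not_le.1 hn)))
    · change |a * m (WithLp.toLp 2 z)| ≤ _
      rw [abs_mul, abs_of_pos h.pos, mul_div_assoc]
      exact mul_le_mul_of_nonneg_left (hmle _) h.pos.le
    · change ∫ z : R3, a * m (WithLp.toLp 2 z) = _
      rw [integral_const_mul, integral_date m, hmi]
      ring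
    · exact ct_eq_date (g := fun x => v x * f x) hω2 hωo hg (Supp.integrable hm1 hms) hlap k
  refine ⟨⟨⟨_, hw⟩, ⟨_, hf⟩, V, a, Cv + Rv + 1 + a * Λ + r, h.pos, by linarith,
    fun z => h.nonneg _, fun z => ?_, fun z z' hz => h.rad _ _ (norm_eq_date hz), fun z hz => ?_,
    hV.le, hV.mono, fun z hz => hsV z (by linarith),
    fun z => (h.bounds _).1, fun z => (h.bounds _).2, fun z z' hz => h.radial (norm_eq_date hz),
    ?_, fun R hR => ?_⟩, rfl, rfl, fun z => rfl⟩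
  · have h1 := (le_abs_self _).trans (hCv' (WithLp.toLp 2 z))
    change v (WithLp.toLp 2 z) ≤ _
    linarith
  · exact hout' _ (lt_of_lt_of_le (by linarith) (norm_le_date z))
  · obtain ⟨ω, m, -, -, -, -, -, -, -, hi, hk⟩ := key (Rv + 1) (by linarith)
    have h0 := hk 0
    have h1 : sq3 0 = 0 := by simp [sq3]
    rw [h1, zero_mul, ct_zero, ct_zero, hi] at h0
    change ∫ z : R3, v (WithLp.toLp 2 z) * f (WithLp.toLp 2 z) = _
    linarith
  · obtain ⟨ω, m, k1, k2, k3, k4, k5, k6, k7, -, hk⟩ := key R (by linarith)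
    have hR0 : 0 < R := by linarith
    refine ⟨ω, m, k1, k2, k3, k4, k5, k6, fun z => (k7 z).trans ?_, hk⟩
    exact div_le_div_of_nonneg_right (by linarith) (pow_pos hR0 3).le

end Pool.Agent.BoseLHY
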