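import Pool.Agent.Lib.MP_dec75e_mp.L.Ct
import Pool.Agent.Lib.MP_dec75e_mp.Rad

/-! From the scattering solution to the data used in boxes. -/

open MeasureTheory Finset Function
open scoped Real

noncomputable section

namespace Pool.Agent.BoseLHY

open Pool.Agent.BoseTail

theorem cont_toLp_date0 : Continuous fun z : R3 => (WithLp.toLp 2 z : E3) :=
  PiLp.continuous_toLp 2 _

theorem norm_le_toLp_date0 (z : R3) : ‖z‖ ≤ ‖(WithLp.toLp 2 z : E3)‖ := by
  refine (pi_norm_le_iff_of_nonneg (norm_nonneg _)).2 fun c => ?_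
  exact PiLp.norm_apply_le (WithLp.toLp 2 z : E3) c

theorem integrable_date0 {v : E3 → ℝ} (hv : Continuous v) {r : ℝ} (hs : ∀ x, r < ‖x‖ → v x = 0)
    {g : R3 → ℝ} (hg : Continuous g) : Integrable fun z : R3 => v (WithLp.toLp 2 z) * g z := by
  refine ((hv.comp cont_toLp_date0).mul hg).integrable_of_hasCompactSupport ?_
  refine HasCompactSupport.intro (isCompact_closedBall (0 : R3) r) fun z hz => ?_
  have h1 : r < ‖z‖ := by simpa using hz
  simp [hs _ (h1.trans_le (norm_le_toLp_date0 z))]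

theorem line_date0 {v : E3 → ℝ} (hv : ContDiff ℝ 1 v) (c : Fin 3) (z : R3) :
    HasLineDerivAt ℝ (fun z : R3 => v (WithLp.toLp 2 z)) (dd (e3 c) v (WithLp.toLp 2 z)) z
      (Pi.single c 1) := by
  have h := (D1_of_contDiff hv c).hd (WithLp.toLp 2 z)
  have e : (fun t : ℝ => v (WithLp.toLp 2 (z + t • (Pi.single c 1 : R3)))) =
      fun s : ℝ => v (WithLp.toLp 2 z + e3 c s) := by
    funext t
    congr 1
    ext i
    by_cases hi : i = c <;> simp [e3, hi]
  unfold HasLineDerivAt
  rw [e]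
  exact h

theorem ibp_date0 {v : E3 → ℝ} (hv : ContDiff ℝ 1 v) {r : ℝ} (hs : ∀ x, r < ‖x‖ → v x = 0)
    (c : Fin 3) {g g' : R3 → ℝ} (hg : Continuous g) (hg' : Continuous g')
    (hd : ∀ z, HasLineDerivAt ℝ g (g' z) z (Pi.single c 1)) :
    ∫ z : R3, dd (e3 c) v (WithLp.toLp 2 z) * g z = -∫ z : R3, v (WithLp.toLp 2 z) * g' z := by
  have h := integral_bilinear_hasLineDerivAt_right_eq_neg_left_of_integrable
    (μ := (volume : Measure R3)) (B := ContinuousLinearMap.mul ℝ ℝ)
    (f := fun z : R3 => v (WithLp.toLp 2 z)) (f' := fun z : R3 => dd (e3 c) v (WithLp.toLp 2 z))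
    (g := g) (g' := g') (v := Pi.single c 1)
    (integrable_date0 (D1_of_contDiff hv c).cdd (dd_e3_out hs c) hg)
    (integrable_date0 hv.continuous hs hg') (integrable_date0 hv.continuous hs hg)
    (fun z _ => line_date0 hv c z) (fun z _ => hd z)
  simp only [ContinuousLinearMap.mul_apply'] at h
  rw [h, neg_neg]

theorem line_one_date0 {φ : ℝ → ℝ} {φ' : ℝ} (k : R3) (c : Fin 3) (z : R3)
    (h : HasDerivAt φ φ' (k c * z c)) :
    HasLineDerivAt ℝ (fun z : R3 => φ (k c * z c) * ∏ d ∈ univ.erase c, Real.cos (k d * z d))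
      (φ' * k c * ∏ d ∈ univ.erase c, Real.cos (k d * z d)) z (Pi.single c 1) := by
  have e : (fun t : ℝ => φ (k c * (z + t • (Pi.single c 1 : R3)) c) *
      ∏ d ∈ univ.erase c, Real.cos (k d * (z + t • (Pi.single c 1 : R3)) d)) =
      fun t : ℝ => φ (k c * (z c + t)) * ∏ d ∈ univ.erase c, Real.cos (k d * z d) := by
    funext t
    congr 1
    · simp
    · refine prod_congr rfl fun d hd => ?_
      simp [Pi.single_eq_of_ne (ne_of_mem_erase hd)]
  have h1 : HasDerivAt (fun t : ℝ => k c * (z c + t)) (k c) 0 := by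
    simpa using ((hasDerivAt_id (0 : ℝ)).const_add (z c)).const_mul (k c)
  have h2 : HasDerivAt φ φ' (k c * (z c + 0)) := by simpa using h
  unfold HasLineDerivAt
  rw [e]
  exact (h2.comp (0 : ℝ) h1).mul_const _

theorem second_date0 {u : E3 → ℝ} (hu : ContDiff ℝ 2 u) {r : ℝ} (hs : ∀ x, r < ‖x‖ → u x = 0)
    (k : R3) (c : Fin 3) :
    ∫ z : R3, dd (e3 c) (dd (e3 c) u) (WithLp.toLp 2 z) * ∏ d, Real.cos (k d * z d) =
      -k c ^ 2 * ∫ z : R3, u (WithLp.toLp 2 z) * ∏ d, Real.cos (k d * z d) := by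
  have h1 : ContDiff ℝ 1 (dd (e3 c) u) := by
    have := contDiff_dd (n := 1) (u := u) (by exact_mod_cast hu) c
    exact_mod_cast this
  have hp : ∀ z : R3, ∏ d, Real.cos (k d * z d) =
      Real.cos (k c * z c) * ∏ d ∈ univ.erase c, Real.cos (k d * z d) := fun z =>
    (mul_prod_erase univ (fun d => Real.cos (k d * z d)) (mem_univ c)).symm
  have a := ibp_date0 h1 (dd_e3_out hs c) c
    (g := fun z => Real.cos (k c * z c) * ∏ d ∈ univ.erase c, Real.cos (k d * z d))
    (g' := fun z => -Real.sin (k c * z c) * k c * ∏ d ∈ univ.erase c, Real.cos (k d * z d))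
    (by fun_prop) (by fun_prop) fun z => line_one_date0 k c z (Real.hasDerivAt_cos _)
  have b := ibp_date0 (hu.of_le (by norm_num)) hs c
    (g := fun z => (fun s => -Real.sin s * k c) (k c * z c) *
      ∏ d ∈ univ.erase c, Real.cos (k d * z d))
    (g' := fun z => -Real.cos (k c * z c) * k c * k c * ∏ d ∈ univ.erase c, Real.cos (k d * z d))
    (by fun_prop) (by fun_prop) fun z =>
      line_one_date0 (φ := fun s => -Real.sin s * k c) k c z
        ((Real.hasDerivAt_sin _).neg.mul_const _)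
  simp only [hp]
  rw [a, b, neg_neg, ← integral_const_mul]
  congr 1
  funext z
  ring

/-- Integration by parts for compactly supported functions, in coordinates. -/
theorem ct_lapE {u : E3 → ℝ} (hu : ContDiff ℝ 2 u) {r : ℝ} (hs : ∀ x, r ≤ ‖x‖ → u x = 0) (k : R3) :
    ct (fun z => lapE u (WithLp.toLp 2 z)) k = -sq3 k * ct (fun z => u (WithLp.toLp 2 z)) k := by
  have hs' : ∀ x, r < ‖x‖ → u x = 0 := fun x hx => hs x hx.le
  have h1 : ∀ c, ContDiff ℝ 1 (dd (e3 c) u) := fun c => by
    have := contDiff_dd (n := 1) (u := u) (by exact_mod_cast hu) c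
    exact_mod_cast this
  unfold ct lapE sq3
  simp only [sum_mul]
  rw [integral_finsetSum _ fun c _ => integrable_date0 (D1_of_contDiff (h1 c) c).cdd
    (dd_e3_out (dd_e3_out hs' c) c) (by fun_prop)]
  simp only [second_date0 hu hs' k]
  rw [← sum_mul, sum_neg_distrib]

end Pool.Agent.BoseLHY
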