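import Pool.Agent.Lib.MP_dec75e_mp.L.Op1b

/-! Difference forms and mixtures of product measures. -/

open MeasureTheory Finset Function
open scoped Real

noncomputable section

namespace Pool.Agent.BoseLHY

open Pool.Agent.BoseTail

variable {α : Type} [MeasurableSpace α] {ι : Type} [Fintype ι] [DecidableEq ι]
  {μ : ι → ProbabilityMeasure α} {ν ν' : ProbabilityMeasure α} {i j : ι} {f g ψ : BF (ι → α)}

omit [Fintype ι] [DecidableEq ι] in
theorem bm_ker_dfm (i : ι) (G : BF (α × α)) :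
    BM (fun p : (ι → α) × α => G.1 (p.1 i, p.2)) :=
  BM.comp (bmOf G) (T := fun p : (ι → α) × α => (p.1 i, p.2))
    (((measurable_pi_apply i).comp measurable_fst).prodMk measurable_snd)

theorem bm_sl_dfm {β γ : Type} [MeasurableSpace β] [MeasurableSpace γ] {F : β → γ → ℝ}
    (hF : BM (uncurry F)) (x : β) : BM (F x) :=
  BM.comp hF (T := fun y : γ => (x, y)) measurable_prodMk_left

theorem ii_add_dfm {β γ : Type} [MeasurableSpace β] [MeasurableSpace γ] {m : Measure β}
    {n : Measure γ} [IsFiniteMeasure m] [IsFiniteMeasure n] {F G : β → γ → ℝ}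
    (hF : BM (uncurry F)) (hG : BM (uncurry G)) :
    ∫ x, ∫ y, (F x y + G x y) ∂n ∂m = ∫ x, ∫ y, F x y ∂n ∂m + ∫ x, ∫ y, G x y ∂n ∂m := by
  rw [← integral_add (BM.integral_right hF).integrable (BM.integral_right hG).integrable]
  exact integral_congr_ae (Filter.Eventually.of_forall fun x =>
    integral_add (bm_sl_dfm hF x).integrable (bm_sl_dfm hG x).integrable)

theorem ii_mul_dfm {β γ : Type} [MeasurableSpace β] [MeasurableSpace γ] {m : Measure β}
    {n : Measure γ} (c : ℝ) (F : β → γ → ℝ) :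
    ∫ x, ∫ y, c * F x y ∂n ∂m = c * ∫ x, ∫ y, F x y ∂n ∂m := by
  simp only [integral_const_mul]

theorem bm_dform (i : ι) (G : BF (α × α)) (ψ : BF (ι → α)) :
    BM (uncurry fun (X : ι → α) (y : α) => G.1 (X i, y) * (ψ.1 X - ψ.1 (update X i y)) ^ 2) := by
  exact BM.mul (bm_ker_dfm i G)
    (BM.pow (BM.sub (BM.comp (bmOf ψ) measurable_fst) (bm_upd ψ i)) 2)

theorem dform_add (G G' : BF (α × α)) : dform μ i (G + G') ψ = dform μ i G ψ + dform μ i G' ψ := by
  unfold dform
  rw [← ii_add_dfm (bm_dform i G ψ) (bm_dform i G' ψ)]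
  congr 1
  funext X
  congr 1
  funext y
  exact add_mul _ _ _

theorem dform_smul (c : ℝ) (G : BF (α × α)) : dform μ i (c • G) ψ = c * dform μ i G ψ := by
  unfold dform
  rw [← ii_mul_dfm]
  congr 1
  funext X
  congr 1
  funext y
  exact mul_assoc _ _ _

theorem dform_sum {κ : Type} (s : Finset κ) (G : κ → BF (α × α)) :
    dform μ i (∑ k ∈ s, G k) ψ = ∑ k ∈ s, dform μ i (G k) ψ := by
  classical
  induction s using Finset.induction_on with
  | empty =>
    have := dform_smul (μ := μ) (i := i) (ψ := ψ) 0 (0 : BF (α × α))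
    simpa using this
  | insert a s ha ih => rw [Finset.sum_insert ha, Finset.sum_insert ha, dform_add, ih]

theorem dform_mono {G G' : BF (α × α)} {A : Set α} (hA : ∀ᵐ x ∂(μ i : Measure α), x ∈ A)
    (h : ∀ x ∈ A, ∀ y ∈ A, G.1 (x, y) ≤ G'.1 (x, y)) : dform μ i G ψ ≤ dform μ i G' ψ := by
  unfold dform
  refine integral_mono_ae (BM.integral_right (bm_dform i G ψ)).integrable
    (BM.integral_right (bm_dform i G' ψ)).integrable ?_
  filter_upwards [ae_coord (μ := μ) i hA] with X hX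
  refine integral_mono_ae (bm_sl_dfm (bm_dform i G ψ) X).integrable
    (bm_sl_dfm (bm_dform i G' ψ) X).integrable ?_
  filter_upwards [hA] with y hy
  exact mul_le_mul_of_nonneg_right (h _ hX _ hy) (sq_nonneg _)

theorem dform_nonneg {G : BF (α × α)} (h : ∀ z, 0 ≤ G.1 z) : 0 ≤ dform μ i G ψ := by
  exact integral_nonneg fun X => integral_nonneg fun y => mul_nonneg (h _) (sq_nonneg _)

/-- The operator with kernel `G` in the variable `i`. -/
def kop (ν : ProbabilityMeasure α) (i : ι) (G : BF (α × α)) (ψ : BF (ι → α)) : BF (ι → α) :=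
  ⟨fun X => ∫ y, G.1 (X i, y) * ψ.1 (update X i y) ∂(ν : Measure α), BM.integral_right
    (BM.mul (BM.comp (bmOf G) (T := fun p : (ι → α) × α => (p.1 i, p.2))
      (((measurable_pi_apply i).comp measurable_fst).prodMk measurable_snd)) (bm_upd ψ i))⟩

/-- Expand the square; the second square is treated by `integral_resample`. -/
theorem dform_eq {G : BF (α × α)} (hs : ∀ x y, G.1 (x, y) = G.1 (y, x)) {l : ℝ}
    (hl : ∀ x, ∫ y, G.1 (x, y) ∂(μ i : Measure α) = l) :
    dform μ i G ψ = 2 * l * nq (ipB μ) ψ - 2 * ipB μ ψ (kop (μ i) i G ψ) := by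
  have b0 := bm_ker_dfm i G
  have b1 : BM (fun p : (ι → α) × α => ψ.1 p.1) := BM.comp (bmOf ψ) measurable_fst
  have b2 := bm_upd ψ i
  have hA : BM (uncurry fun (X : ι → α) (y : α) => G.1 (X i, y) * (ψ.1 X * ψ.1 X)) :=
    b0.mul (b1.mul b1)
  have hB : BM (uncurry fun (X : ι → α) (y : α) =>
      G.1 (X i, y) * (ψ.1 (update X i y) * ψ.1 (update X i y))) := b0.mul (b2.mul b2)
  have hC : BM (uncurry fun (X : ι → α) (y : α) =>
      (-2) * (ψ.1 X * (G.1 (X i, y) * ψ.1 (update X i y)))) :=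
    (BM.const (-2 : ℝ)).mul (b1.mul (b0.mul b2))
  have e1 : dform μ i G ψ = ∫ X, ∫ y, (G.1 (X i, y) * (ψ.1 X * ψ.1 X) +
      G.1 (X i, y) * (ψ.1 (update X i y) * ψ.1 (update X i y))) +
      (-2) * (ψ.1 X * (G.1 (X i, y) * ψ.1 (update X i y))) ∂(μ i : Measure α) ∂pm μ := by
    unfold dform
    congr 1
    funext X
    congr 1
    funext y
    ring
  have e2 : ∫ X, ∫ y, G.1 (X i, y) * (ψ.1 X * ψ.1 X) ∂(μ i : Measure α) ∂pm μ =
      l * nq (ipB μ) ψ := by
    simp only [integral_mul_const, hl]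
    rw [integral_const_mul]
    rfl
  have e3 : ∫ X, ∫ y, G.1 (X i, y) * (ψ.1 (update X i y) * ψ.1 (update X i y))
      ∂(μ i : Measure α) ∂pm μ = l * nq (ipB μ) ψ := by
    rw [← e2, integral_resample i hA]
    congr 1
    funext X
    congr 1
    funext y
    rw [update_self, hs]
  have e4 : ∫ X, ∫ y, ψ.1 X * (G.1 (X i, y) * ψ.1 (update X i y)) ∂(μ i : Measure α) ∂pm μ =
      ipB μ ψ (kop (μ i) i G ψ) := by
    simp only [integral_const_mul]
    rfl
  rw [e1, ii_add_dfm (hA.add hB) hC, ii_add_dfm hA hB, ii_mul_dfm, e2, e3, e4]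
  ring

theorem avg_mul_kop {G : BF (α × α)} (hs : ∀ x y, G.1 (x, y) = G.1 (y, x)) {e : BF α} {l : ℝ}
    (hl : ∀ x, ∫ y, G.1 (x, y) * e.1 y ∂(ν : Measure α) = l * e.1 x) :
    avg ν i (at1 i e * kop ν i G ψ) = l • avg ν i (at1 i e * ψ) := by
  refine Subtype.ext (funext fun X => ?_)
  have hb : BM (uncurry fun (x y : α) => e.1 x * (G.1 (x, y) * ψ.1 (update X i y))) :=
    (BM.comp (bmOf e) measurable_fst).mul ((bmOf G).mul
      (BM.comp (bm_slice ψ i X) measurable_snd))
  have e1 : (avg ν i (at1 i e * kop ν i G ψ)).1 X =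
      ∫ x, ∫ y, e.1 x * (G.1 (x, y) * ψ.1 (update X i y)) ∂(ν : Measure α) ∂(ν : Measure α) := by
    rw [avg_apply]
    congr 1
    funext x
    rw [integral_const_mul]
    change e.1 (update X i x i) * (∫ y, G.1 (update X i x i, y) *
      ψ.1 (update (update X i x) i y) ∂(ν : Measure α)) = _
    simp only [update_self, update_idem]
  have e2 : (l • avg ν i (at1 i e * ψ)).1 X =
      ∫ y, l * (e.1 y * ψ.1 (update X i y)) ∂(ν : Measure α) := by
    rw [integral_const_mul]
    change l * (∫ y, e.1 (update X i y i) * ψ.1 (update X i y) ∂(ν : Measure α)) = _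
    simp only [update_self]
  rw [e1, e2, BM.swap hb]
  congr 1
  funext y
  rw [← mul_assoc, ← hl y, ← integral_mul_const]
  congr 1
  funext x
  rw [hs x y]
  ring

theorem nq_sub_avg (hi : μ i = ν) (ψ : BF (ι → α)) :
    nq (ipB μ) (ψ - avg ν i ψ) = dform μ i 1 ψ / 2 := by
  have hp := proj_avg (μ := μ) (ν := ν) (i := i) hi
  have hk : kop (μ i) i 1 ψ = avg ν i ψ := by
    refine Subtype.ext (funext fun X => ?_)
    rw [avg_apply, ← hi]
    change ∫ y, (1 : ℝ) * ψ.1 (update X i y) ∂(μ i : Measure α) = _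
    simp only [one_mul]
  have h1 : dform μ i 1 ψ = 2 * 1 * nq (ipB μ) ψ - 2 * ipB μ ψ (kop (μ i) i 1 ψ) :=
    dform_eq (fun _ _ => rfl) fun x => by
      change ∫ _y, (1 : ℝ) ∂(μ i : Measure α) = 1
      simp
  have h2 : ipB μ (avg ν i ψ) (avg ν i ψ) = ipB μ ψ (avg ν i ψ) := by
    rw [hp.sa, hp.idem]
  have h3 : ipB μ (avg ν i ψ) ψ = ipB μ ψ (avg ν i ψ) := hp.sa _ _
  rw [h1, hk]
  simp only [nq, map_sub, LinearMap.sub_apply, h2, h3]
  ring

end Pool.Agent.BoseLHY
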