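import Pool.Agent.Lib.MP_dec75e_mp.BM

/-! Definitions for the second order energy estimate in Neumann boxes. -/

open MeasureTheory Finset Function
open scoped Real

noncomputable section

namespace Pool.Agent.BoseLHY

open Pool.Agent.BoseTail

abbrev R3 : Type := Fin 3 → ℝ
abbrev M3 : Type := Fin 3 → ℕ

/-! ### Semi-inner products -/

section abs
variable {V : Type} [AddCommGroup V] [Module ℝ V]

/-- Squared seminorm of a bilinear form. -/
def nq (β : V →ₗ[ℝ] V →ₗ[ℝ] ℝ) (f : V) : ℝ := β f f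

structure PSD (β : V →ₗ[ℝ] V →ₗ[ℝ] ℝ) : Prop where
  symm : ∀ f g, β f g = β g f
  nonneg : ∀ f, 0 ≤ β f f

/-- Self-adjoint operators. -/
def SA (β : V →ₗ[ℝ] V →ₗ[ℝ] ℝ) (A : Module.End ℝ V) : Prop := ∀ f g, β (A f) g = β f (A g)

/-- Orthogonal projections. -/
structure Proj (β : V →ₗ[ℝ] V →ₗ[ℝ] ℝ) (A : Module.End ℝ V) : Prop where
  sa : SA β A
  idem : ∀ f, A (A f) = A f

/-- A family of commuting orthogonal projections indexed by `S`. -/
structure Fam {ι : Type} (β : V →ₗ[ℝ] V →ₗ[ℝ] ℝ) (A : ι → Module.End ℝ V) (S : Finset ι) : Prop where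
  proj : ∀ i ∈ S, Proj β (A i)
  comm : ∀ i ∈ S, ∀ j ∈ S, ∀ f, A i (A j f) = A j (A i f)

/-- At most `M` of the projections indexed by `S` are excited in `φ`. -/
def LowA {ι : Type} (A : ι → Module.End ℝ V) (S : Finset ι) (M : ℕ) (φ : V) : Prop :=
  ∀ l : List ι, l.Nodup → (∀ i ∈ l, i ∈ S) → M < l.length → (l.map A).prod φ = 0

/-- Functional calculus for an operator whose spectrum lies in `{0, …, n}`. -/
def fc (T : Module.End ℝ V) (n : ℕ) (χ : ℕ → ℝ) : Module.End ℝ V :=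
  Polynomial.aeval T (Lagrange.interpolate (range (n + 1)) (fun k : ℕ => (k : ℝ)) χ)

/-- The spectrum of `T` lies in `{0, …, n}`. -/
def Ann (T : Module.End ℝ V) (n : ℕ) : Prop :=
  Polynomial.aeval T (∏ k ∈ range (n + 1), (Polynomial.X - Polynomial.C (k : ℝ))) = 0

/-- A function of the number of excited projections. -/
def cut {ι : Type} (A : ι → Module.End ℝ V) (S : Finset ι) (χ : ℕ → ℝ) : Module.End ℝ V :=
  fc (∑ i ∈ S, A i) S.card χ

end abs

/-! ### Scalar functions -/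

/-- Ground state energy of one Bogolyubov mode. -/
def bog (τ β : ℝ) : ℝ := (√(τ ^ 2 + 2 * τ * β) - τ - β) / 2

/-- The renormalised energy of one mode. -/
def FF (τ t : ℝ) : ℝ := bog τ 1 + 1 / (4 * t)

/-! ### Bounded measurable functions -/

/-- The algebra of bounded measurable real functions. -/
def BF (α : Type) [MeasurableSpace α] : Subalgebra ℝ (α → ℝ) where
  carrier := {f | BM f}
  mul_mem' := fun hf hg => BM.mul hf hg
  add_mem' := fun hf hg => BM.add hf hg
  algebraMap_mem' := fun c => BM.const c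

section gen
variable {α γ : Type} [MeasurableSpace α] [MeasurableSpace γ]

theorem bmOf (f : BF α) : BM f.1 := f.2

/-- Composition with a measurable map. -/
def pull (T : γ → α) (hT : Measurable T) : BF α →ₐ[ℝ] BF γ where
  toFun f := ⟨fun x => f.1 (T x), BM.comp (bmOf f) hT⟩
  map_one' := rfl
  map_mul' _ _ := rfl
  map_zero' := rfl
  map_add' _ _ := rfl
  commutes' _ := rfl

/-- Indicator function of a measurable set. -/
def ind (A : Set α) (hA : MeasurableSet A) : BF α :=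
  ⟨A.indicator fun _ => 1, measurable_const.indicator hA, 1, fun x => by
    by_cases h : x ∈ A <;> simp [h]⟩

variable {ι : Type} [Fintype ι] [DecidableEq ι]

/-- The product probability measure. -/
def pm (μ : ι → ProbabilityMeasure α) : Measure (ι → α) := Measure.pi fun i => (μ i : Measure α)

instance pm_prob (μ : ι → ProbabilityMeasure α) : IsProbabilityMeasure (pm μ) := by
  unfold pm; infer_instance

/-- Expectation. -/
def ex (μ : ι → ProbabilityMeasure α) : BF (ι → α) →ₗ[ℝ] ℝ where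
  toFun f := ∫ X, f.1 X ∂pm μ
  map_add' f g := integral_add (bmOf f).integrable (bmOf g).integrable
  map_smul' c f := integral_const_mul c f.1

/-- The scalar product. -/
def ipB (μ : ι → ProbabilityMeasure α) : BF (ι → α) →ₗ[ℝ] BF (ι → α) →ₗ[ℝ] ℝ :=
  (LinearMap.mul ℝ (BF (ι → α))).compr₂ (ex μ)

omit [Fintype ι] in
theorem bm_upd (f : BF (ι → α)) (i : ι) : BM (uncurry fun (X : ι → α) (y : α) => f.1 (update X i y)) :=
  BM.comp (bmOf f) (T := fun p : (ι → α) × α => update p.1 i p.2) measurable_update'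

omit [Fintype ι] in
theorem bm_slice (f : BF (ι → α)) (i : ι) (X : ι → α) : BM fun y : α => f.1 (update X i y) :=
  BM.comp (bmOf f) (measurable_update X)

/-- Integration of coordinate `i` against `ν`. -/
def avg (ν : ProbabilityMeasure α) (i : ι) : Module.End ℝ (BF (ι → α)) where
  toFun f := ⟨fun X => ∫ y, f.1 (update X i y) ∂(ν : Measure α), BM.integral_right (bm_upd f i)⟩
  map_add' f g := Subtype.ext (funext fun X =>
    integral_add (bm_slice f i X).integrable (bm_slice g i X).integrable)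
  map_smul' c f := Subtype.ext (funext fun X => integral_const_mul c fun y => f.1 (update X i y))

/-- A one-body function of particle `i`. -/
def at1 (i : ι) : BF α →ₐ[ℝ] BF (ι → α) := pull (fun X => X i) (measurable_pi_apply i)

/-- A two-body function of particles `i`, `j`. -/
def at2 (i j : ι) : BF (α × α) →ₐ[ℝ] BF (ι → α) :=
  pull (fun X => (X i, X j)) ((measurable_pi_apply i).prodMk (measurable_pi_apply j))

/-- Exchange of the particles `i` and `j`. -/
def swp (i j : ι) : BF (ι → α) →ₐ[ℝ] BF (ι → α) :=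
  pull (fun X => X ∘ Equiv.swap i j) (measurable_pi_lambda _ fun _ => measurable_pi_apply _)

/-- Multiplication operator. -/
def mu (h : BF γ) : Module.End ℝ (BF γ) := LinearMap.mul ℝ (BF γ) h

/-- `f` does not depend on coordinate `i`. -/
def Ind (i : ι) (f : BF (ι → α)) : Prop := ∀ X y, f.1 (update X i y) = f.1 X

/-- Symmetric in the particles of `S`. -/
def Sym (S : Finset ι) (f : BF (ι → α)) : Prop := ∀ i ∈ S, ∀ j ∈ S, swp i j f = f

/-- Pair interaction inside `S`. -/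
def pot (μ : ι → ProbabilityMeasure α) (S : Finset ι) (W : BF (α × α)) (ψ : BF (ι → α)) : ℝ :=
  (1 / 2) * ∑ i ∈ S, ∑ j ∈ S.erase i, ex μ (at2 i j W * (ψ * ψ))

/-- Difference form with kernel `G` in the variable `i`. -/
def dform (μ : ι → ProbabilityMeasure α) (i : ι) (G : BF (α × α)) (ψ : BF (ι → α)) : ℝ :=
  ∫ X, ∫ y, G.1 (X i, y) * (ψ.1 X - ψ.1 (update X i y)) ^ 2 ∂(μ i : Measure α) ∂pm μ

end gen

/-! ### Boxes and Neumann modes -/

/-- The uniform probability measure on `[o, o + s)`. -/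
def unif (o s : ℝ) : Measure ℝ := (ENNReal.ofReal s)⁻¹ • volume.restrict (Set.Ico o (o + s))

theorem unif_prob (o : ℝ) {s : ℝ} (hs : 0 < s) : IsProbabilityMeasure (unif o s) := ⟨by
  have h : ENNReal.ofReal s ≠ 0 := by simpa using hs
  simp [unif, ENNReal.inv_mul_cancel h ENNReal.ofReal_ne_top]⟩

structure Box where
  o : R3
  s : R3
  pos : ∀ c, 0 < s c

/-- Normalised cosine. -/
def cs (m : ℕ) (θ : ℝ) : ℝ := if m = 0 then 1 else √2 * Real.cos (m * θ)

/-- Normalised sine. -/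
def sn (m : ℕ) (θ : ℝ) : ℝ := √2 * Real.sin (m * θ)

/-- Parseval systems. -/
def Pars {α κ : Type} [MeasurableSpace α] (ν : Measure α) (e : κ → α → ℝ) : Prop :=
  (∀ k, BM (e k)) ∧ ∀ f : α → ℝ, BM f →
    HasSum (fun k => (∫ x, e k x * f x ∂ν) ^ 2) (∫ x, f x ^ 2 ∂ν)

theorem continuous_cs (m : ℕ) : Continuous (cs m) := by
  unfold cs; split_ifs <;> fun_prop

theorem abs_cs_le (m : ℕ) (θ : ℝ) : |cs m θ| ≤ √2 := by
  unfold cs
  split_ifs
  · simp
  · rw [abs_mul, abs_of_nonneg (Real.sqrt_nonneg 2)]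
    exact mul_le_of_le_one_right (Real.sqrt_nonneg 2) (Real.abs_cos_le_one _)

/-- The kernel `h (x - y)`. -/
def dif : BF R3 →ₐ[ℝ] BF (R3 × R3) := pull (fun z => z.1 - z.2) (measurable_fst.sub measurable_snd)

/-- Indicator of the closed cube of half side `r` around the origin. -/
def ball3 (r : ℝ) : BF R3 := ind {z | ‖z‖ ≤ r} (measurableSet_le measurable_norm measurable_const)

/-- Cosine transform. -/
def ct (h : R3 → ℝ) (k : R3) : ℝ := ∫ z, h z * ∏ c, Real.cos (k c * z c)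

/-- Squared Euclidean length. -/
def sq3 (k : R3) : ℝ := ∑ c, k c ^ 2

/-- Even in each coordinate. -/
def Ev (h : R3 → ℝ) : Prop := ∀ z z' : R3, (∀ c, |z c| = |z' c|) → h z = h z'

/-- Decreasing in the modulus of each coordinate. -/
def Mono (h : R3 → ℝ) : Prop := ∀ z z' : R3, (∀ c, |z c| ≤ |z' c|) → h z' ≤ h z

/-- Vanishing outside the cube of half side `r`. -/
def Supp (h : R3 → ℝ) (r : ℝ) : Prop := ∀ z, r < ‖z‖ → h z = 0

namespace Box
variable (B : Box)

def set : Set R3 := Set.pi Set.univ fun c => Set.Ico (B.o c) (B.o c + B.s c)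

def vol : ℝ := ∏ c, B.s c

def μ : ProbabilityMeasure R3 :=
  ⟨Measure.pi fun c => unif (B.o c) (B.s c),
    haveI := fun c => unif_prob (B.o c) (B.pos c); inferInstance⟩

/-- All sides are comparable to `s`. -/
def Sz (s : ℝ) : Prop := ∀ c, s / 2 ≤ B.s c ∧ B.s c ≤ 2 * s

/-- A cube of side `l`. -/
def Cube (l : ℝ) : Prop := ∀ c, B.s c = l

/-- The angle variable. -/
def ang (x : R3) (c : Fin 3) : ℝ := π * (x c - B.o c) / B.s c

theorem continuous_ang (c : Fin 3) : Continuous fun x => B.ang x c := by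
  unfold ang; fun_prop

/-- Momentum of the mode `m`. -/
def p (m : M3) : R3 := fun c => π * m c / B.s c

/-- The Neumann eigenfunctions. -/
def e (m : M3) : BF R3 :=
  ⟨fun x => ∏ c, cs (m c) (B.ang x c), BM.prod fun c _ =>
    ⟨((continuous_cs _).comp (B.continuous_ang c)).measurable, √2, fun _ => abs_cs_le _ _⟩⟩

/-- Folding of space onto the closed box by reflections. -/
def fold (x : R3) : R3 := fun c => B.o c + B.s c / π * Real.arccos (Real.cos (B.ang x c))

theorem continuous_fold : Continuous B.fold := by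
  refine continuous_pi fun c => continuous_const.add (continuous_const.mul ?_)
  exact Real.continuous_arccos.comp (Real.continuous_cos.comp (B.continuous_ang c))

/-- The 27 mirror images. -/
def refl (σ : Fin 3 → Fin 3) (y : R3) : R3 := fun c =>
  if σ c = 0 then y c else if σ c = 1 then 2 * B.o c - y c else 2 * (B.o c + B.s c) - y c

theorem continuous_refl (σ : Fin 3 → Fin 3) : Continuous (B.refl σ) := by
  refine continuous_pi fun c => ?_
  unfold refl; split_ifs <;> fun_prop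

/-- The symmetrised kernel. -/
def symk (h : BF R3) : BF (R3 × R3) :=
  ∑ σ : Fin 3 → Fin 3, pull (fun z : R3 × R3 => B.fold z.1 - B.refl σ (B.fold z.2))
    ((B.continuous_fold.comp continuous_fst).sub
      ((B.continuous_refl σ).comp (B.continuous_fold.comp continuous_snd))).measurable h

/-- The boundary layer of width `r`. -/
def lay (r : ℝ) : Set R3 := {x | ∃ c, x c - B.o c ≤ r ∨ B.o c + B.s c - x c ≤ r}

/-- `G` is symmetric and diagonal in the Neumann basis with eigenvalues `l`. -/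
structure Eig (G : BF (R3 × R3)) (l : M3 → ℝ) : Prop where
  symm : ∀ x y, G.1 (x, y) = G.1 (y, x)
  eig : ∀ m x, ∫ y, G.1 (x, y) * (B.e m).1 y ∂(B.μ : Measure R3) = l m * (B.e m).1 x

end Box

/-- The cube of side `l` with corner at the origin. -/
def cube0 (l : ℝ) (hl : 0 < l) : Box := ⟨0, fun _ => l, fun _ => hl⟩

/-- Low modes. -/
def Lset (R : ℕ) : Finset M3 := (Fintype.piFinset fun _ => range (R + 1)).erase 0

/-- High modes. -/
def High (R : ℕ) (m : M3) : Prop := ∃ c, R < m c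

instance (R : ℕ) : DecidablePred (High R) := fun _ => by unfold High; infer_instance

/-- Squared length of a mode index. -/
def nm (m : M3) : ℝ := ∑ c, (m c : ℝ) ^ 2

/-- Momentum of a mode in a cube of side `l`. -/
def pk (l : ℝ) (m : M3) : R3 := fun c => π * m c / l

/-- Modes all of whose components are high. -/
def Bulk (R : ℕ) (m : M3) : Prop := ∀ c, R < m c

/-- Parseval weight of a mode. -/
def wt3 (m : M3) : ℝ := ∏ c, if m c = 0 then 1 / 2 else 1

/-- Breakpoints of the two partitions of `[0, K h]` in `K` pieces. -/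
def brk (K : ℕ) (h : ℝ) (σ : Fin 2) (k : ℕ) : ℝ :=
  if k = 0 then 0 else if k = K then K * h else (k + (σ : ℕ) / 2) * h

theorem brk_lt {K : ℕ} {h : ℝ} (hh : 0 < h) (σ : Fin 2) (k : Fin K) :
    brk K h σ k < brk K h σ (k + 1) := by
  have hk := k.2
  have hk' : ((k : ℕ) : ℝ) + 1 ≤ K := by exact_mod_cast hk
  have h0 : (0 : ℝ) ≤ (k : ℕ) := Nat.cast_nonneg _
  have hσ : ((σ : ℕ) : ℝ) ≤ 1 := by exact_mod_cast Nat.lt_succ_iff.1 σ.2
  have hσ0 : (0 : ℝ) ≤ (σ : ℕ) := Nat.cast_nonneg _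
  unfold brk
  rw [if_neg (Nat.succ_ne_zero _), if_neg hk.ne]
  push_cast
  split_ifs <;> nlinarith

/-- The cells of the partition `σ` of the cube with corner `o` and side `K h`. -/
def cell (o : R3) (K : ℕ) (h : ℝ) (hh : 0 < h) (σ : Fin 3 → Fin 2) (k : Fin 3 → Fin K) : Box :=
  ⟨fun c => o c + brk K h (σ c) (k c), fun c => brk K h (σ c) (k c + 1) - brk K h (σ c) (k c),
    fun c => sub_pos.2 (brk_lt hh (σ c) (k c))⟩

/-! ### Many-body objects -/

section many
variable {ι : Type} [Fintype ι] [DecidableEq ι]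

abbrev Vs (ι : Type) : Type := BF (ι → R3)

/-- The particles of `S` live in the box `B`. -/
def Act (μ : ι → ProbabilityMeasure R3) (B : Box) (S : Finset ι) : Prop := ∀ i ∈ S, μ i = B.μ

/-- Multiplication by the mode `m` of particle `i`. -/
def Em (B : Box) (i : ι) (m : M3) : Module.End ℝ (Vs ι) := mu (at1 i (B.e m))

/-- Projection of particle `i` on the constant mode. -/
def Pz (B : Box) (i : ι) : Module.End ℝ (Vs ι) := avg B.μ i

/-- Coefficient of the mode `m` of particle `i`. -/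
def co (B : Box) (i : ι) (m : M3) : Module.End ℝ (Vs ι) := Pz B i * Em B i m

/-- Projection of particle `i` on the low modes. -/
def Lp (B : Box) (R : ℕ) (i : ι) : Module.End ℝ (Vs ι) := ∑ m ∈ Lset R, Em B i m * co B i m

def Qz (B : Box) (i : ι) : Module.End ℝ (Vs ι) := 1 - Pz B i

def Hp (B : Box) (R : ℕ) (i : ι) : Module.End ℝ (Vs ι) := 1 - Pz B i - Lp B R i

def Zp (B : Box) (R : ℕ) (i : ι) : Module.End ℝ (Vs ι) := Pz B i + (2 : ℝ) • Lp B R i

/-- Occupation of the mode `m`. -/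
def occ (μ : ι → ProbabilityMeasure R3) (B : Box) (S : Finset ι) (m : M3) (ψ : Vs ι) : ℝ :=
  ∑ i ∈ S, nq (ipB μ) (co B i m ψ)

def nL (μ : ι → ProbabilityMeasure R3) (B : Box) (R : ℕ) (S : Finset ι) (ψ : Vs ι) : ℝ :=
  ∑ i ∈ S, nq (ipB μ) (Lp B R i ψ)

def nH (μ : ι → ProbabilityMeasure R3) (B : Box) (R : ℕ) (S : Finset ι) (ψ : Vs ι) : ℝ :=
  ∑ i ∈ S, nq (ipB μ) (Hp B R i ψ)

def nP (μ : ι → ProbabilityMeasure R3) (B : Box) (S : Finset ι) (ψ : Vs ι) : ℝ :=
  ∑ i ∈ S, nq (ipB μ) (Qz B i ψ)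

def sPP (μ : ι → ProbabilityMeasure R3) (B : Box) (S : Finset ι) (ψ : Vs ι) : ℝ :=
  ∑ o ∈ S, ∑ j ∈ S.erase o, nq (ipB μ) (Pz B j (Pz B o ψ))

def sPL (μ : ι → ProbabilityMeasure R3) (B : Box) (R : ℕ) (S : Finset ι) (ψ : Vs ι) : ℝ :=
  ∑ o ∈ S, ∑ j ∈ S.erase o, nq (ipB μ) (Lp B R j (Pz B o ψ))

/-- The operator moving one particle from the mode `m` to the constant mode. -/
def Bm (B : Box) (S : Finset ι) (m : M3) : Module.End ℝ (Vs ι) := ∑ i ∈ S, co B i m

/-- Its adjoint. -/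
def Bs (B : Box) (S : Finset ι) (m : M3) : Module.End ℝ (Vs ι) := ∑ i ∈ S, Em B i m * Pz B i

/-- Exchange term. -/
def exch (μ : ι → ProbabilityMeasure R3) (B : Box) (S : Finset ι) (m : M3) (ψ : Vs ι) : ℝ :=
  nq (ipB μ) (Bm B S m ψ) - occ μ B S m ψ

/-- Pairing term. -/
def pair (μ : ι → ProbabilityMeasure R3) (B : Box) (S : Finset ι) (m : M3) (ψ : Vs ι) : ℝ :=
  ipB μ (Bm B S m ψ) (Bs B S m ψ)

def Yv (B : Box) (R : ℕ) (S : Finset ι) (o : ι) (m : M3) (ψ : Vs ι) : Vs ι :=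
  ∑ j ∈ S.erase o, Em B j m (Zp B R j (Pz B o ψ))

def Yt (μ : ι → ProbabilityMeasure R3) (B : Box) (R : ℕ) (S : Finset ι) (m : M3) (ψ : Vs ι) : ℝ :=
  ∑ o ∈ S, ipB μ (co B o m ψ) (Yv B R S o m ψ)

/-- Cubic term with three excited particles. -/
def cub (μ : ι → ProbabilityMeasure R3) (B : Box) (R : ℕ) (S : Finset ι) (m : M3) (ψ : Vs ι) : ℝ :=
  ∑ o ∈ S, ∑ j ∈ S.erase o, ipB μ (Qz B j (co B o m ψ)) (Em B j m (Lp B R j (Pz B o ψ)))

/-- The part of `ψ` in which the pair `i`, `j` is in the modes `(0,0)`, `(0,low)`, `(low,0)`. -/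
def ph (B : Box) (R : ℕ) (i j : ι) (ψ : Vs ι) : Vs ι :=
  Pz B j (Pz B i ψ) + Lp B R j (Pz B i ψ) + Lp B R i (Pz B j ψ)

/-- Quadratic form of a kernel on the vectors `ph`. -/
def pq (μ : ι → ProbabilityMeasure R3) (B : Box) (R : ℕ) (S : Finset ι) (G : BF (R3 × R3))
    (ψ : Vs ι) : ℝ :=
  (1 / 2) * ∑ i ∈ S, ∑ j ∈ S.erase i, ex μ (at2 i j G * (ph B R i j ψ * ph B R i j ψ))

/-- The cross term between `ψ` and the vectors `ph`. -/
def crs (μ : ι → ProbabilityMeasure R3) (B : Box) (R : ℕ) (S : Finset ι) (G : BF (R3 × R3))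
    (ψ : Vs ι) : ℝ :=
  ∑ o ∈ S, ∑ j ∈ S.erase o, ex μ (at2 o j G * (ψ * Zp B R j (Pz B o ψ)))

/-- Operators acting on particle `i` only. -/
def LocS (B : Box) (i : ι) : Subalgebra ℝ (Module.End ℝ (Vs ι)) :=
  Algebra.adjoin ℝ (insert (Pz B i) (Set.range (Em B i)))

/-- Shift of coordinate `c` of particle `i`. -/
def dirR (i : ι) (c : Fin 3) (t : ℝ) : ι → R3 := Pi.single i (Pi.single c t)

/-- `ψ'` is the derivative of `ψ` in coordinate `c` of particle `i`. -/
def HasD (i : ι) (c : Fin 3) (ψ ψ' : Vs ι) : Prop :=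
  ∀ X, HasDerivAt (fun t : ℝ => ψ.1 (X + dirR i c t)) (ψ'.1 X) 0

/-- Bounded functions with bounded measurable first derivatives. -/
def C1 (ψ : Vs ι) : Prop := ∀ i c, ∃ ψ', HasD i c ψ ψ'

/-- Kinetic energy of the particles of `S`. -/
def kin (μ : ι → ProbabilityMeasure R3) (S : Finset ι) (ψ : Vs ι) : ℝ :=
  (1 / 2) * ∑ i ∈ S, ∑ c, ∫ X, dd (dirR i c) ψ.1 X ^ 2 ∂pm μ

/-- Energy of the particles of `S`. -/
def En (μ : ι → ProbabilityMeasure R3) (S : Finset ι) (W : BF (R3 × R3)) (ψ : Vs ι) : ℝ :=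
  kin μ S ψ + pot μ S W ψ

/-- The particles of `S` are put in the cells chosen by `α`. -/
def asg {C : Type} (μ : ι → ProbabilityMeasure R3) (S : Finset ι) (Q : C → Box) (α : ι → C) :
    ι → ProbabilityMeasure R3 := fun i => if i ∈ S then (Q (α i)).μ else μ i

end many

theorem Box.measurableSet_lay (B : Box) (r : ℝ) : MeasurableSet (B.lay r) := by
  have : B.lay r = ⋃ c, ({x | x c - B.o c ≤ r} ∪ {x | B.o c + B.s c - x c ≤ r}) := by
    ext x; simp [Box.lay]
  rw [this]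
  refine MeasurableSet.iUnion fun c => MeasurableSet.union ?_ ?_ <;>
    exact measurableSet_le (by fun_prop) measurable_const

theorem Box.measurableSet_set (B : Box) : MeasurableSet B.set :=
  MeasurableSet.univ_pi fun _ => measurableSet_Ico

/-- A partition of the box `B` into the boxes `Q k`. -/
structure Part {C : Type} [Fintype C] (B : Box) (Q : C → Box) : Prop where
  sub : ∀ k, (Q k).set ⊆ B.set
  cover : ∀ x ∈ B.set, ∃ k, x ∈ (Q k).set
  disj : ∀ k k' x, x ∈ (Q k).set → x ∈ (Q k').set → k = k'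

/-- The kernel which equals `G k` on the cell `Q k` and vanishes between different cells. -/
def glue {C : Type} [Fintype C] (Q : C → Box) (G : C → BF (R3 × R3)) : BF (R3 × R3) :=
  ∑ k, ind ((Q k).set ×ˢ (Q k).set) ((Q k).measurableSet_set.prod (Q k).measurableSet_set) * G k

/-! ### The scattering data -/

/-- Admissible weights. -/
def Wgt (χ : BF R3) : Prop := ∀ x, 0 ≤ χ.1 x ∧ χ.1 x ≤ 2

structure Dat where
  w : BF R3
  f : BF R3
  V : BF R3
  a : ℝ
  C : ℝ
  ha : 0 < a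
  hC : 1 ≤ C
  w0 : ∀ z, 0 ≤ w.1 z
  wC : ∀ z, w.1 z ≤ C
  ev : Ev w.1
  supp : Supp w.1 C
  wV : ∀ z, w.1 z ≤ V.1 z
  monoV : Mono V.1
  suppV : Supp V.1 C
  f0 : ∀ z, 0 ≤ f.1 z
  f1 : ∀ z, f.1 z ≤ 1
  fev : Ev f.1
  int : ∫ z, w.1 z * f.1 z = 4 * π * a
  tr : ∀ R, C ≤ R → ∃ ω m : BF R3, Ev ω.1 ∧ Ev m.1 ∧ Supp ω.1 (2 * R) ∧ Supp m.1 (2 * R) ∧
    (∀ z, 0 ≤ ω.1 z) ∧ (∀ z, w.1 z ≠ 0 → ω.1 z = 1 - f.1 z) ∧ (∀ z, |m.1 z| ≤ C / R ^ 3) ∧
    ∀ k, sq3 k * ct ω.1 k = ct (w * f).1 k - ct m.1 k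

namespace Dat
variable (D : Dat)

def g : BF R3 := D.w * D.f
def g' : BF R3 := D.w * D.f * (1 - D.f)
def lam (B : Box) (m : M3) : ℝ := ct D.g.1 (B.p m) / B.vol
def lam' (B : Box) (m : M3) : ℝ := ct D.g'.1 (B.p m) / B.vol

/-- The boundary correction. -/
def bk (B : Box) (t : ℝ) : BF (R3 × R3) :=
  (729 * t : ℝ) • (ind (B.lay D.C ×ˢ B.lay D.C)
    ((B.measurableSet_lay _).prod (B.measurableSet_lay _)) * dif D.V)

/-- The interaction together with the weighted majorant. -/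
def W (χ : BF R3) : BF (R3 × R3) := dif D.w + pull Prod.fst measurable_fst χ * dif D.V

/-- The weight is at least `θ` in the boundary layer of `B`. -/
def Cov (χ : BF R3) (B : Box) (θ : ℝ) : Prop := ∀ x ∈ B.set, x ∈ B.lay D.C → θ ≤ χ.1 x

/-- Chemical potential at density `y ^ 800`. -/
def mu0 (y : ℝ) : ℝ := 4 * π * D.a * y ^ 800

/-- Rescaled kinetic energy of a mode in a cube of side `l`. -/
def tm (y l : ℝ) (m : M3) : ℝ := sq3 (pk l m) / (2 * D.mu0 y)

/-- The second order energy of a cube of side `l` in the grand canonical form. -/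
def tgt (y l : ℝ) (R : ℕ) (b : M3 → ℝ) : ℝ :=
  -(2 * π * D.a * y ^ 1600 * l ^ 3) + D.mu0 y * ∑ m ∈ Lset R, FF (D.tm y l m + b m) (D.tm y l m)

end Dat

/-- The size of the boxes and the momentum cut-off at density `y ^ 800`. -/
structure Scale (y l : ℝ) (R : ℕ) : Prop where
  y0 : 0 < y
  l1 : 1 ≤ l * y ^ 404
  l2 : l * y ^ 404 ≤ 2
  r1 : 1 ≤ R * y ^ 12
  r2 : R * y ^ 12 ≤ 2

/-! ### The torus -/

section torus
variable {N : ℕ} {L : ℝ} [Fact (0 < L)]

def proj (L : ℝ) (z : R3) : T3 L := fun c => (z c : AddCircle L)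

theorem continuous_proj (L : ℝ) : Continuous (proj L) :=
  continuous_pi fun c => (AddCircle.continuous_mk' L).comp (continuous_apply c)

/-- The periodic lift of a function on the torus. -/
def lift (u : Cf N L → ℝ) (hu : Continuous u) : Vs (Fin N) :=
  ⟨fun X => u fun i => proj L (X i), BM.comp (BM.of_cont hu)
    (continuous_pi fun i => (continuous_proj L).comp (continuous_apply i)).measurable⟩

def liftRe (ψ : Cf N L → ℂ) (h : Continuous ψ) : Vs (Fin N) :=
  lift (fun X => (ψ X).re) (Complex.continuous_re.comp h)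

def liftIm (ψ : Cf N L → ℂ) (h : Continuous ψ) : Vs (Fin N) :=
  lift (fun X => (ψ X).im) (Complex.continuous_im.comp h)

/-- The fundamental domain. -/
def big (L : ℝ) [Fact (0 < L)] : Box := cube0 L Fact.out

def bigM (N : ℕ) (L : ℝ) [Fact (0 < L)] : Fin N → ProbabilityMeasure R3 := fun _ => (big L).μ

/-- Squared change of `ψ` when particle `i` is moved by `z`. -/
def Gz (ψ : Cf N L → ℂ) (i : Fin N) (X : Cf N L) (z : R3) : ℝ :=
  ‖ψ X - ψ (X + Pi.single i (proj L z))‖ ^ 2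

def Dz (ψ : Cf N L → ℂ) (z : R3) : ℝ := ∑ i, ∫ X, Gz ψ i X z

/-- Points within distance `r` of the walls of the grid with `m` cells per side. -/
def layT (m : ℕ) (r : ℝ) : Set (T3 L) := {x | ∃ c, ‖m • x c‖ ≤ m * r}

/-- The contribution of the boundary layers. -/
def LayE (H : R3 → ℝ) (m : ℕ) (r : ℝ) (ψ : Cf N L → ℂ) : ℝ :=
  ∑ i, ∫ X, (layT m r).indicator (fun _ => (1 : ℝ)) (X i) * ∫ z, H z * Gz ψ i X z

/-- The mean of the pair sum of a periodic majorant of `V` is at most `A ρ N`. -/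
def PB (V : BF R3) (A : ℝ) (ψ : Cf N L → ℂ) : Prop :=
  ∃ U : T3 L → ℝ, BM U ∧ (∀ z, 0 ≤ U z) ∧ (∀ x y : R3, V.1 (x - y) ≤ U (proj L x - proj L y)) ∧
    ∑ i, ∑ j ∈ univ.erase i, ∫ X, U (X i - X j) * ‖ψ X‖ ^ 2 ≤ A * (N / L ^ 3) * N

/-- Translation of all particles. -/
def tr (u : T3 L) (ψ : Cf N L → ℂ) : Cf N L → ℂ := fun X => ψ (X + fun _ => u)

end torus

/-- The Lee-Huang-Yang constant. -/
def cL : ℝ := 128 / (15 * √π)

end Pool.Agent.BoseLHY
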