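import Pool.Agent.Lib.MP_dec75e_mp.L.Main3
import Pool.Agent.Lib.MP_dec75e_mp.L.DatE

/-! The averaged momentum distribution of states with the Lee-Huang-Yang energy. -/

open MeasureTheory Finset Function
open scoped Real

noncomputable section

namespace Pool.Agent.BoseLHY

open Pool.Agent.BoseTail

theorem unit_eq (D : Dat) {y L N : ℝ} (hy : 0 < y) (hL : 0 < L) (hN : N = y ^ 800 * L ^ 3) :
    D.mu0 y * (L * √(2 * D.mu0 y) / π) ^ 3 =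
      32 * √2 / (π * √π) * (2 * π * D.a * y ^ 800 * N * √(y ^ 800 * D.a ^ 3)) ∧
    √(y ^ 800 * D.a ^ 3) = y ^ 400 * √(D.a ^ 3) ∧
    32 * √2 / (π * √π) * (2 * √2 * π / 15) = cL := by
  have ha := D.ha
  have hp := Real.pi_pos
  have hs : 0 < √π := Real.sqrt_pos.2 hp
  have hss : √π * √π = π := Real.mul_self_sqrt hp.le
  have h22 : √2 * √2 = (2 : ℝ) := Real.mul_self_sqrt (by norm_num)
  have haa : √D.a * √D.a = D.a := Real.mul_self_sqrt ha.le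
  obtain ⟨t, ht⟩ : ∃ t, t = y ^ 400 := ⟨_, rfl⟩
  have ht0 : 0 < t := by rw [ht]; positivity
  have h8 : y ^ 800 = t * t := by rw [ht, ← pow_add]
  have e1 : √(y ^ 800 * D.a ^ 3) = t * √(D.a ^ 3) := by
    rw [h8, Real.sqrt_mul (by positivity), Real.sqrt_mul_self ht0.le]
  have e2 : √(D.a ^ 3) = D.a * √D.a := by
    rw [pow_succ, Real.sqrt_mul (by positivity), Real.sqrt_sq ha.le]
  have e3 : √(2 * D.mu0 y) = 2 * √2 * √π * √D.a * t := by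
    have : 2 * D.mu0 y = (2 * √2 * √π * √D.a * t) * (2 * √2 * √π * √D.a * t) := by
      calc _ = 4 * 2 * π * D.a * (t * t) := by rw [Dat.mu0, h8]; ring
        _ = 4 * (√2 * √2) * (√π * √π) * (√D.a * √D.a) * (t * t) := by rw [h22, hss, haa]
        _ = _ := by ring
    rw [this, Real.sqrt_mul_self (by positivity)]
  refine ⟨?_, by rw [e1, ht], ?_⟩
  · rw [e1, e2, e3, Dat.mu0, hN, h8]
    generalize √D.a = s at haa ⊢
    generalize √π = q at hs hss ⊢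
    generalize √2 = r at h22 ⊢
    rw [← haa, ← hss]
    field_simp
    linear_combination (16 * s ^ 5 * r) * h22
  · rw [cL]
    field_simp
    have : √2 ^ 2 = (2 : ℝ) := by rw [pow_two, h22]
    rw [this]
    ring

theorem exists_y {N : ℕ} {L y₀ : ℝ} (hL : 0 < L) (hy₀ : 0 < y₀) (hy1 : y₀ ≤ 1)
    (h1 : N / L ^ 3 ≤ y₀ ^ 800) (h2 : L ^ 3 ≤ (N : ℝ) ^ 2) :
    ∃ y : ℝ, 0 < y ∧ y ≤ y₀ ∧ (N : ℝ) = y ^ 800 * L ^ 3 ∧ N / L ^ 3 = y ^ 800 ∧
      1 ≤ L * y ^ 404 := by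
  have hL3 : 0 < L ^ 3 := by positivity
  have hN : (0 : ℝ) < N := by
    rcases (Nat.cast_nonneg N : (0 : ℝ) ≤ N).eq_or_lt with h | h
    · rw [← h] at h2; norm_num at h2; linarith
    · exact h
  have hρ : 0 < N / L ^ 3 := by positivity
  obtain ⟨y, hy⟩ : ∃ y : ℝ, y = (N / L ^ 3) ^ ((800 : ℕ) : ℝ)⁻¹ := ⟨_, rfl⟩
  have hy0 : 0 < y := by rw [hy]; positivity
  have hy8 : y ^ 800 = N / L ^ 3 := by rw [hy]; exact Real.rpow_inv_natCast_pow hρ.le (by norm_num)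
  clear hy
  have hyy : y ≤ y₀ := le_of_pow_le_pow_left₀ (n := 800) (by norm_num) hy₀.le
    (by rw [hy8]; exact h1)
  have hNe : (N : ℝ) = y ^ 800 * L ^ 3 := by rw [hy8]; field_simp
  refine ⟨y, hy0, hyy, hNe, hy8.symm, ?_⟩
  have h3 : y ^ 1600 ≤ y ^ 1212 := pow_le_pow_of_le_one hy0.le (hyy.trans hy1) (by norm_num)
  have h4 : 1 ≤ y ^ 1600 * L ^ 3 := by
    rw [hNe, show (y ^ 800 * L ^ 3) ^ 2 = y ^ 1600 * L ^ 3 * L ^ 3 by ring] at h2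
    exact (le_mul_iff_one_le_left hL3).1 h2
  refine le_of_pow_le_pow_left₀ (n := 3) (by norm_num) (by positivity) ?_
  rw [one_pow, show (L * y ^ 404) ^ 3 = y ^ 1212 * L ^ 3 by ring]
  exact h4.trans (mul_le_mul_of_nonneg_right h3 hL3.le)

theorem side_fin2 {μ W I C e η η₁ η' K B c₀ c E₀ en A σ : ℝ} (hμ : 0 < μ) (hW : 0 < W)
    (he : 0 < e) (hη : 0 < η) (hB : 0 ≤ B) (hσ : σ ^ 2 = 1) (hU : μ * (W / π ^ 3) = K * B)
    (hc : K * c₀ = c) (hC : C * e ≤ η) (h1 : η₁ ≤ e * η) (h2 : η' ≤ K * (e * η))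
    (hen : en ≤ E₀ + B * (c + η'))
    (h : E₀ + μ * (W / π ^ 3) * (c₀ + σ * e * I / 16 - C * (σ * e) ^ 2 - η₁) ≤
      en + σ * e * μ * A) : -η ≤ σ * (2 * A / W - I / (2 * π) ^ 3) := by
  have hp : 6 ≤ π ^ 3 := by
    have := pow_le_pow_left₀ (by norm_num) Real.pi_gt_three.le 3
    linarith
  have hp0 : 0 < π ^ 3 := by positivity
  have hU0 : 0 < μ * (W / π ^ 3) := by positivity
  have a1 : B * η' ≤ μ * (W / π ^ 3) * (e * η) := by
    rw [hU]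
    have := mul_le_mul_of_nonneg_left h2 hB
    linarith
  have a2 : μ * (W / π ^ 3) * c₀ = B * c := by rw [hU, ← hc]; ring
  have a3 : C * (σ * e) ^ 2 + η₁ ≤ 2 * (e * η) := by
    rw [mul_pow, hσ]
    have := mul_le_mul_of_nonneg_left hC he.le
    linarith
  have a4 := mul_le_mul_of_nonneg_left a3 hU0.le
  have a5 : e * μ * (W / π ^ 3 * (σ * I / 16 - 3 * η)) ≤ e * μ * (σ * A) := by linarith
  have a6 := le_of_mul_le_mul_left a5 (by positivity)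
  have a7 : (σ * I / 16 - 3 * η) / π ^ 3 ≤ σ * A / W := by
    rw [le_div_iff₀ hW]
    refine le_trans (le_of_eq ?_) a6
    ring
  have a8 : 6 * η / π ^ 3 ≤ η := by
    rw [div_le_iff₀ hp0]
    have := mul_le_mul_of_nonneg_left hp hη.le
    linarith
  have a9 : σ * (2 * A / W - I / (2 * π) ^ 3) =
      2 * (σ * A / W) - 2 * ((σ * I / 16 - 3 * η) / π ^ 3) - 6 * η / π ^ 3 := by
    field_simp
    ring
  linarith

/-- `perturbed` with `E = 2 π a (cL + 1) √(a³)`. The lower bound is the case `ε = 0`; for the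
distribution take `ε = ± ε₂` with `C ε₂` small, then `η`, `η'` small compared with `ε₂`. -/
theorem bogolyubov {v f φ : E3 → ℝ} {a η : ℝ} (hs : Scat v f a) {V : BF R3} (hV : Maj v V)
    {P : ℝ} (hP : 0 ≤ P) (hφ : ContDiff ℝ (⊤ : ℕ∞) φ) (hφc : HasCompactSupport φ)
    (hφ0 : 0 ∉ tsupport φ) (hφe : ∀ κ κ' : E3, (∀ c, |κ c| = |κ' c|) → φ κ = φ κ') (hη : 0 < η) :
    ∃ ρ₀ η' : ℝ, 0 < ρ₀ ∧ 0 < η' ∧ ∀ (N : ℕ) (L : ℝ) [Fact (0 < L)] (ψ : Cf N L → ℂ),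
      N / L ^ 3 ≤ ρ₀ → L ^ 3 ≤ (N : ℝ) ^ 2 → Adm ψ → PB V P ψ →
      2 * π * a * (N / L ^ 3) * N * (1 + (cL - η) * √(N / L ^ 3 * a ^ 3)) ≤ energy v ψ ∧
      (energy v ψ ≤ 2 * π * a * (N / L ^ 3) * N * (1 + (cL + η') * √(N / L ^ 3 * a ^ 3)) →
        ∃ A : ℝ, HasSum (fun n : Fin 3 → ℤ => φ ((√(8 * π * (N / L ^ 3) * a))⁻¹ • kvec L n) *
          (2 * (N / L ^ 3) * Mom ψ n)) A ∧
        |A / (L * √(8 * π * (N / L ^ 3) * a)) ^ 3 - (∫ κ : E3, φ κ * gB ‖κ‖) / (2 * π) ^ 3| ≤ η) := by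
  obtain ⟨D, rfl, rfl, hw⟩ := exists_dat hs hV
  have ha := D.ha
  have hp := Real.pi_pos
  have hcL : 0 < cL := by rw [cL]; positivity
  obtain ⟨C, ε₁, hC, hε₁, H⟩ := perturbed hs.cont hs.nonneg hs.cpt D hw hφ hφc hφ0 hφe
    (E := 2 * π * D.a * (cL + 1) * √(D.a ^ 3)) (by positivity) hP
  obtain ⟨K, hK⟩ : ∃ K : ℝ, K = 32 * √2 / (π * √π) := ⟨_, rfl⟩
  have hK0 : 0 < K := by rw [hK]; positivity
  obtain ⟨e, he0, he1, he2⟩ : ∃ e : ℝ, 0 < e ∧ e ≤ ε₁ ∧ C * e ≤ η :=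
    ⟨min ε₁ (η / C), by positivity, min_le_left _ _,
      by rw [mul_comm, ← le_div_iff₀ (by positivity)]; exact min_le_right _ _⟩
  obtain ⟨η₁, h10, h11, h12⟩ : ∃ η₁ : ℝ, 0 < η₁ ∧ K * η₁ ≤ η ∧ η₁ ≤ e * η :=
    ⟨min (η / K) (e * η), by positivity,
      by rw [mul_comm, ← le_div_iff₀ hK0]; exact min_le_left _ _, min_le_right _ _⟩
  obtain ⟨η', h20, h21, h22⟩ : ∃ η' : ℝ, 0 < η' ∧ η' ≤ 1 ∧ η' ≤ K * (e * η) :=
    ⟨min 1 (K * (e * η)), by positivity, min_le_left _ _, min_le_right _ _⟩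
  obtain ⟨y₀, hy0, hy1, H⟩ := H η₁ h10
  refine ⟨y₀ ^ 800, η', by positivity, h20, fun N L hL ψ h1 h2 hψ hPB => ?_⟩
  have hL0 : 0 < L := hL.out
  obtain ⟨y, hy, hyy, hN, hρ, hLy⟩ := exists_y hL0 hy0 hy1 h1 h2
  obtain ⟨u1, u2, u3⟩ := unit_eq D hy hL0 hN
  rw [← hK] at u1 u3
  replace H := H y N L ψ hy hyy hN hLy hψ hPB
  have hE : 2 * π * D.a * (cL + 1) * √(D.a ^ 3) * y ^ 1200 * N =
      2 * π * D.a * y ^ 800 * N * √(y ^ 800 * D.a ^ 3) * (cL + 1) := by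
    rw [u2]; ring
  have hκ : 8 * π * y ^ 800 * D.a = 2 * D.mu0 y := by rw [Dat.mu0]; ring
  have hμ : 0 < D.mu0 y := by rw [Dat.mu0]; positivity
  have hM : ∀ x : ℝ, 2 * y ^ 800 * x = 2 * (N * x / L ^ 3) := fun x => by rw [← hρ]; ring
  rw [hE] at H
  rw [hρ, hκ]
  simp only [hM]
  have hB : 0 ≤ 2 * π * D.a * y ^ 800 * N * √(y ^ 800 * D.a ^ 3) := by positivity
  have hx : ∀ t : ℝ, 2 * π * D.a * y ^ 800 * N * (1 + t * √(y ^ 800 * D.a ^ 3)) =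
      2 * π * D.a * y ^ 800 * N + 2 * π * D.a * y ^ 800 * N * √(y ^ 800 * D.a ^ 3) * t :=
    fun t => by ring
  rw [hx, hx]
  have hW : 0 < (L * √(2 * D.mu0 y)) ^ 3 := by positivity
  rw [div_pow] at u1 H
  generalize 2 * π * D.a * y ^ 800 * N * √(y ^ 800 * D.a ^ 3) = B at H hB u1 ⊢
  generalize 2 * π * D.a * y ^ 800 * N = E₀ at H ⊢
  generalize (L * √(2 * D.mu0 y)) ^ 3 = W at H hW u1 ⊢
  constructor
  · rcases le_total (energy v ψ) (E₀ + B * (cL + 1)) with h | h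
    · obtain ⟨A, -, hA⟩ := H h
      have h3 := hA 0 (by rw [abs_zero]; exact hε₁.le)
      rw [u1] at h3
      have h4 := mul_le_mul_of_nonneg_left h11 hB
      rw [← u3]
      linarith
    · have := mul_nonneg hB hη.le
      linarith
  · intro h
    obtain ⟨A, hA, hA'⟩ := H (h.trans (by nlinarith [mul_le_mul_of_nonneg_left h21 hB]))
    refine ⟨2 * A, ?_, ?_⟩
    · simp only [← mul_left_comm (2 : ℝ) (φ _)]
      exact hA.mul_left 2
    · have b1 := side_fin2 (σ := 1) hμ hW he0 hη hB (by norm_num) u1 u3 he2 h12 h22 h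
        (hA' (1 * e) (by rw [one_mul, abs_of_pos he0]; exact he1))
      have b2 := side_fin2 (σ := -1) hμ hW he0 hη hB (by norm_num) u1 u3 he2 h12 h22 h
        (hA' (-1 * e) (by rw [neg_one_mul, abs_neg, abs_of_pos he0]; exact he1))
      rw [abs_le]
      constructor <;> linarith

end Pool.Agent.BoseLHY
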