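import Pool.Agent.Lib.MP_dec75e_mp.L.Shift
import Pool.Agent.Lib.MP_dec75e_mp.L.Ct
import Pool.Agent.Lib.MP_dec75e_mp.Occ

/-! The momentum distribution and the difference forms. -/

open MeasureTheory Finset Function
open scoped Real

noncomputable section

namespace Pool.Agent.BoseLHY

open Pool.Agent.BoseTail

variable {N : ℕ} {L : ℝ} [Fact (0 < L)]
variable {ψ : Cf N L → ℂ}

theorem hs_foud {ι : Type} {f g : ι → ℝ} {a b : ℝ} (h : HasSum f a) (h1 : ∀ n, g n = f n)
    (h2 : b = a) : HasSum g b := by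
  rw [h2, funext h1]
  exact h

theorem slice_foud {χ : Cf N L → ℂ} (hχ : Continuous χ) (o : Fin N) :
    HasSum (fun n => ∫ x, ‖hat (fun y => χ (update x o y)) n‖ ^ 2)
      (L ^ 3 * (L ^ 3 * ∫ x, ‖χ x‖ ^ 2)) := by
  have hup : ∀ x : Cf N L, Continuous fun y : T3 L => update x o y := fun x =>
    (continuous_update2 o).comp (continuous_const.prodMk continuous_id)
  set F : (Fin 3 → ℤ) → Cf N L → ℝ :=
    fun n x => ‖hat (fun y => χ (update x o y)) n‖ ^ 2 with hF
  set T : Cf N L → ℝ := fun x => L ^ 3 * ∫ y, ‖χ (update x o y)‖ ^ 2 with hT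
  have hsum : ∀ x, HasSum (fun n => F n x) (T x) := fun x => parseval (hχ.comp (hup x))
  have hFc : ∀ n, Continuous (F n) := fun n => (continuous_hat_slice hχ o n).norm.pow 2
  have hFi : ∀ n, Integrable (F n) := fun n => cont_integrable (hFc n)
  have hF0 : ∀ n x, 0 ≤ F n x := fun n x => by positivity
  have hG : BM fun x : Cf N L => ‖χ x‖ ^ 2 := BM.of_cont (hχ.norm.pow 2)
  have hTb : BM T := (BM.const (L ^ 3)).mul (BM.integral_right
    (Φ := fun (x : Cf N L) (y : T3 L) => ‖χ (update x o y)‖ ^ 2)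
    (hG.comp (measurable_update2 o)))
  have hTi : Integrable T := hTb.integrable
  have hsm : Summable fun n => ∫ x, ‖F n x‖ := by
    refine summable_of_sum_le (c := ∫ x, T x) (fun n => integral_nonneg fun x => norm_nonneg _)
      fun s => ?_
    simp only [Real.norm_of_nonneg (hF0 _ _)]
    rw [← integral_finsetSum s fun n _ => hFi n]
    refine integral_mono (integrable_finsetSum s fun n _ => hFi n) hTi fun x => ?_
    exact sum_le_hasSum s (fun n _ => hF0 n x) (hsum x)
  have h4 := hasSum_integral_of_summable_integral_norm hFi hsm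
  have h5 : ∫ x, ∑' n, F n x = L ^ 3 * (L ^ 3 * ∫ x, ‖χ x‖ ^ 2) := by
    simp only [(hsum _).tsum_eq, hT]
    rw [integral_const_mul, av hG o]
    rfl
  rw [h5] at h4
  exact h4

theorem hat_shift_foud {u : T3 L → ℂ} (hu : Continuous u) (a : T3 L) (n : Fin 3 → ℤ) :
    hat (fun y => u y - u (y + a)) n = (1 - wave n a) * hat u n := by
  have hw : Continuous fun y : T3 L => (starRingEnd ℂ) (wave n y) :=
    Complex.continuous_conj.comp (continuous_wave n)
  have h1 : ∫ y, (starRingEnd ℂ) (wave n y) * u (y + a) = wave n a * hat u n := by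
    unfold hat
    rw [← integral_const_mul,
      ← integral_add_right_eq_self (fun y => wave n a * ((starRingEnd ℂ) (wave n y) * u y)) a]
    congr 1
    funext y
    have h2 : wave n a * (starRingEnd ℂ) (wave n a) = 1 := by
      rw [Complex.mul_conj', norm_wave]; simp
    rw [wave_add, map_mul]
    linear_combination (-(starRingEnd ℂ) (wave n y) * u (y + a)) * h2
  rw [sub_mul, one_mul, ← h1]
  unfold hat
  simp only [mul_sub]
  exact integral_sub (cont_integrable (hw.mul hu))
    (cont_integrable (hw.mul (hu.comp (continuous_add_const a))))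

theorem wave_proj_foud (n : Fin 3 → ℤ) (z : R3) :
    wave n (proj L z) = Complex.exp (Complex.I * ((∑ c, kvec L n c * z c : ℝ) : ℂ)) := by
  simp only [wave, proj, fourier_coe_apply, ← Complex.exp_sum, kvec]
  congr 1
  push_cast
  rw [mul_sum]
  refine sum_congr rfl fun c _ => ?_
  ring

theorem norm_wave_foud (n : Fin 3 → ℤ) (z : R3) :
    ‖1 - wave n (proj L z)‖ ^ 2 = 2 * (1 - Real.cos (∑ c, kvec L n c * z c)) := by
  rw [wave_proj_foud, mul_comm Complex.I, ← Complex.normSq_eq_norm_sq, Complex.normSq_apply]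
  simp only [Complex.sub_re, Complex.sub_im, Complex.one_re, Complex.one_im,
    Complex.exp_ofReal_mul_I_re, Complex.exp_ofReal_mul_I_im]
  nlinarith [Real.sin_sq_add_cos_sq (∑ c, kvec L n c * z c)]

/-- Parseval on the slices: the shift multiplies `hat` by `wave n (proj z)`. -/
theorem hasSum_Dz (h : Adm ψ) (z : R3) :
    HasSum (fun n : Fin 3 → ℤ =>
      2 * (1 - Real.cos (∑ c, kvec L n c * z c)) * (N * Mom ψ n / L ^ 3)) (Dz ψ z) := by
  have hL : (0 : ℝ) < L ^ 3 := pow_pos Lpos 3
  have hL0 : L ≠ 0 := (Lpos (L := L)).ne'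
  have hψ : Continuous ψ := h.1.1
  have key : ∀ i ∈ (univ : Finset (Fin N)), HasSum (fun n : Fin 3 → ℤ =>
      2 * (1 - Real.cos (∑ c, kvec L n c * z c)) * (Mom ψ n / L ^ 3)) (∫ X, Gz ψ i X z) := by
    intro i _
    have hχ : Continuous fun X : Cf N L => ψ X - ψ (X + Pi.single i (proj L z)) :=
      hψ.sub (hψ.comp (continuous_add_const _))
    have h1 := (slice_foud hχ i).mul_left ((L ^ 3)⁻¹ * (L ^ 3)⁻¹)
    have h2 : ∀ (x : Cf N L) (y : T3 L),
        update x i y + Pi.single i (proj L z) = update x i (y + proj L z) := by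
      intro x y
      funext j
      by_cases hj : j = i
      · subst hj; simp
      · simp [update_of_ne hj, Pi.single_eq_of_ne hj]
    have h3 : ∀ (x : Cf N L) n,
        ‖hat (fun y => ψ (update x i y) - ψ (update x i y + Pi.single i (proj L z))) n‖ ^ 2 =
        2 * (1 - Real.cos (∑ c, kvec L n c * z c)) * ‖hat (fun y => ψ (update x i y)) n‖ ^ 2 := by
      intro x n
      simp only [h2]
      rw [hat_shift_foud (u := fun y => ψ (update x i y))
        (hψ.comp ((continuous_update2 i).comp (continuous_const.prodMk continuous_id))),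
        norm_mul, mul_pow, norm_wave_foud]
    simp only [h3, integral_const_mul] at h1
    refine hs_foud h1 (fun n => ?_) ?_
    · rw [Mom_eq hψ h.2.1 i n]
      field_simp
    · unfold Gz
      field_simp
  have := hasSum_sum key
  simp only [sum_const, card_univ, Fintype.card_fin, nsmul_eq_mul] at this
  exact hs_foud this (fun n => by ring) rfl

theorem hasSum_Mom_one (h : Adm ψ) : HasSum (fun n : Fin 3 → ℤ => N * Mom ψ n / L ^ 3) N := by
  have hL : (0 : ℝ) < L ^ 3 := pow_pos Lpos 3
  have hL0 : L ≠ 0 := (Lpos (L := L)).ne'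
  have hψ : Continuous ψ := h.1.1
  have key : ∀ i ∈ (univ : Finset (Fin N)), HasSum (fun n : Fin 3 → ℤ => Mom ψ n / L ^ 3) 1 := by
    intro i _
    have h1 := (slice_foud hψ i).mul_left ((L ^ 3)⁻¹ * (L ^ 3)⁻¹)
    rw [h.2.2] at h1
    refine hs_foud h1 (fun n => ?_) ?_
    · rw [Mom_eq hψ h.2.1 i n]
      field_simp
    · field_simp
  have := hasSum_sum key
  simp only [sum_const, card_univ, Fintype.card_fin, nsmul_eq_mul, mul_one] at this
  exact hs_foud this (fun n => by ring) rfl

theorem hasSum_ct (h : Adm ψ) {q : R3 → ℝ} (hq : Integrable q) (he : Ev q) :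
    HasSum (fun n : Fin 3 → ℤ => (ct q 0 - ct q fun c => kvec L n c) * (N * Mom ψ n / L ^ 3))
      ((∫ z, q z * Dz ψ z) / 2) := by
  have hL : (0 : ℝ) < L ^ 3 := pow_pos Lpos 3
  set a : (Fin 3 → ℤ) → ℝ := fun n => N * Mom ψ n / L ^ 3 with ha
  have ha0 : ∀ n, 0 ≤ a n := fun n =>
    div_nonneg (mul_nonneg (Nat.cast_nonneg _) (Mom_nonneg h.1.1 n)) hL.le
  have has : Summable a := (hasSum_Mom_one h).summable
  have hcos : ∀ n : Fin 3 → ℤ, Integrable fun z : R3 =>
      q z * Real.cos (∑ c, kvec L n c * z c) := by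
    intro n
    refine hq.mul_bdd (c := 1) ?_ (Filter.Eventually.of_forall fun z => Real.abs_cos_le_one _)
    exact (by fun_prop : Continuous fun z : R3 =>
      Real.cos (∑ c, kvec L n c * z c)).aestronglyMeasurable
  set F : (Fin 3 → ℤ) → R3 → ℝ :=
    fun n z => (q z - q z * Real.cos (∑ c, kvec L n c * z c)) * (2 * a n) with hF
  have hFi : ∀ n, Integrable (F n) := fun n => (hq.sub (hcos n)).mul_const _
  have hsm : Summable fun n => ∫ z, ‖F n z‖ := by
    refine Summable.of_nonneg_of_le (fun n => integral_nonneg fun z => norm_nonneg _)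
      (fun n => ?_) (has.mul_left (4 * ∫ z, ‖q z‖))
    rw [← integral_const_mul, ← integral_mul_const]
    refine integral_mono (hFi n).norm ((hq.norm.const_mul _).mul_const _) fun z => ?_
    have h1 : F n z = q z * ((1 - Real.cos (∑ c, kvec L n c * z c)) * (2 * a n)) := by
      simp only [hF]; ring
    have h2 := Real.cos_le_one (∑ c, kvec L n c * z c)
    have h3 := Real.neg_one_le_cos (∑ c, kvec L n c * z c)
    have h4 := ha0 n
    dsimp only
    rw [h1, norm_mul, Real.norm_of_nonneg (mul_nonneg (by linarith) (by linarith))]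
    have h5 : (1 - Real.cos (∑ c, kvec L n c * z c)) * (2 * a n) ≤ 4 * a n := by nlinarith
    calc ‖q z‖ * ((1 - Real.cos (∑ c, kvec L n c * z c)) * (2 * a n)) ≤ ‖q z‖ * (4 * a n) :=
          mul_le_mul_of_nonneg_left h5 (norm_nonneg _)
      _ = 4 * ‖q z‖ * a n := by ring
  have h4 := hasSum_integral_of_summable_integral_norm hFi hsm
  have h5 : ∀ z, ∑' n, F n z = q z * Dz ψ z := by
    intro z
    refine HasSum.tsum_eq ?_
    refine hs_foud ((hasSum_Dz h z).mul_left (q z)) (fun n => ?_) rfl
    simp only [hF, ha]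
    ring
  simp only [h5] at h4
  refine hs_foud (h4.div_const 2) (fun n => ?_) rfl
  simp only [hF]
  rw [integral_mul_const, integral_sub hq (hcos n), ct_zero,
    ← ct_dot hq he fun c => kvec L n c]
  ring

end Pool.Agent.BoseLHY
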