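import Pool.Agent.Lib.MP_dec75e_mp.L.Abs

/-! Functional calculus for operators with spectrum in a finite set of integers. -/

open MeasureTheory Finset Function
open scoped Real

noncomputable section

namespace Pool.Agent.BoseLHY

open Pool.Agent.BoseTail

variable {V : Type} [AddCommGroup V] [Module ℝ V] {β : V →ₗ[ℝ] V →ₗ[ℝ] ℝ}
variable {T : Module.End ℝ V} {n : ℕ}

theorem eval_node_func (n : ℕ) (χ : ℕ → ℝ) {k : ℕ} (hk : k ≤ n) :
    (Lagrange.interpolate (range (n + 1)) (fun k : ℕ => (k : ℝ)) χ).eval (k : ℝ) = χ k :=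
  Lagrange.eval_interpolate_at_node (v := fun k : ℕ => (k : ℝ)) χ
    (Nat.cast_injective (R := ℝ)).injOn (mem_range.2 (Nat.lt_succ_of_le hk))

open Polynomial in
theorem eval_prod_func (n : ℕ) {k : ℕ} (hk : k ≤ n) :
    (∏ j ∈ range (n + 1), (X - C (j : ℝ))).eval (k : ℝ) = 0 := by
  rw [eval_prod]
  exact prod_eq_zero (mem_range.2 (Nat.lt_succ_of_le hk)) (by simp)

open Polynomial in
theorem aeval_intw_func {T' D : Module.End ℝ V} (h : ∀ f, D (T f) = T' (D f)) (q : ℝ[X]) (f : V) :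
    D (aeval T q f) = aeval T' q (D f) := by
  induction q using Polynomial.induction_on generalizing f with
  | C a => simp [Algebra.algebraMap_eq_smul_one]
  | add p q hp hq => simp [hp, hq]
  | monomial k a ih =>
    rw [pow_succ, ← mul_assoc, map_mul, map_mul _ (C a * X ^ k), aeval_X, aeval_X,
      Module.End.mul_apply, Module.End.mul_apply, ih, h]

open Polynomial in
theorem aeval_sa_func (hT : SA β T) (q : ℝ[X]) : SA β (aeval T q) := by
  induction q using Polynomial.induction_on with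
  | C a =>
    rw [aeval_C, Algebra.algebraMap_eq_smul_one]
    exact SA.one.smul a
  | add p q hp hq => rw [map_add]; exact hp.add hq
  | monomial k a ih =>
    intro f g
    rw [pow_succ, ← mul_assoc, map_mul, aeval_X, Module.End.mul_apply, Module.End.mul_apply, ih,
      hT, aeval_intw_func (T := T) (T' := T) (D := T) (fun _ => rfl)]

open Polynomial in
theorem aeval_mem_func (p : Submodule ℝ V) (h : ∀ f ∈ p, T f ∈ p) (q : ℝ[X]) {f : V}
    (hf : f ∈ p) : aeval T q f ∈ p := by
  induction q using Polynomial.induction_on generalizing f with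
  | C a =>
    rw [aeval_C, Algebra.algebraMap_eq_smul_one]
    exact p.smul_mem a hf
  | add p' q hp hq => rw [map_add]; exact p.add_mem (hp hf) (hq hf)
  | monomial k a ih =>
    rw [pow_succ, ← mul_assoc, map_mul, aeval_X, Module.End.mul_apply]
    exact ih (h f hf)

open Polynomial in
theorem aeval_shift_func (c : ℝ) (q : ℝ[X]) :
    aeval (T + c • (1 : Module.End ℝ V)) q = aeval T (q.comp (X + C c)) := by
  rw [aeval_comp, map_add, aeval_X, aeval_C, Algebra.algebraMap_eq_smul_one]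

open Polynomial in
/-- A polynomial vanishing at `0, …, n` is a multiple of `∏ (X - k)`. -/
theorem Ann.aeval_eq_zero (h : Ann T n) {q : ℝ[X]} (hq : ∀ k : ℕ, k ≤ n → q.eval (k : ℝ) = 0) :
    aeval T q = 0 := by
  have hd : (∏ k ∈ range (n + 1), (X - C (k : ℝ))) ∣ q :=
    Finset.prod_dvd_of_coprime
      ((pairwise_coprime_X_sub_C (s := fun k : ℕ => (k : ℝ)) Nat.cast_injective).set_pairwise _)
      fun k hk => dvd_iff_isRoot.2 (hq k (Nat.le_of_lt_succ (mem_range.1 hk)))
  obtain ⟨r, rfl⟩ := hd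
  unfold Ann at h
  rw [map_mul, h, zero_mul]

open Polynomial in
theorem Ann.aeval_eq (h : Ann T n) {q : ℝ[X]} {χ : ℕ → ℝ}
    (hq : ∀ k : ℕ, k ≤ n → q.eval (k : ℝ) = χ k) : aeval T q = fc T n χ := by
  unfold fc
  rw [← sub_eq_zero, ← map_sub]
  exact h.aeval_eq_zero fun k hk => by rw [eval_sub, hq k hk, eval_node_func n χ hk, sub_self]

theorem fc_congr {χ χ' : ℕ → ℝ} (h : ∀ k ≤ n, χ k = χ' k) : fc T n χ = fc T n χ' := by
  unfold fc
  rw [Lagrange.interpolate_eq_of_values_eq_on χ χ' fun k hk =>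
    h k (Nat.le_of_lt_succ (mem_range.1 hk))]

theorem fc_add (χ χ' : ℕ → ℝ) : fc T n (fun k => χ k + χ' k) = fc T n χ + fc T n χ' := by
  unfold fc
  rw [← map_add, ← map_add]
  rfl

theorem fc_sub (χ χ' : ℕ → ℝ) : fc T n (fun k => χ k - χ' k) = fc T n χ - fc T n χ' := by
  unfold fc
  rw [← map_sub, ← map_sub]
  rfl

theorem fc_smul (c : ℝ) (χ : ℕ → ℝ) : fc T n (fun k => c * χ k) = c • fc T n χ := by
  unfold fc
  rw [← map_smul, ← map_smul]
  rfl

theorem fc_zero : fc T n (fun _ => 0) = 0 := by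
  unfold fc
  exact (congrArg _ (map_zero _)).trans (map_zero _)

theorem Ann.fc_mul (h : Ann T n) (χ χ' : ℕ → ℝ) :
    fc T n χ * fc T n χ' = fc T n (fun k => χ k * χ' k) := by
  rw [← h.aeval_eq (q := Lagrange.interpolate (range (n + 1)) (fun k : ℕ => (k : ℝ)) χ *
    Lagrange.interpolate (range (n + 1)) (fun k : ℕ => (k : ℝ)) χ')
      (χ := fun k => χ k * χ' k) fun k hk => by
      rw [Polynomial.eval_mul, eval_node_func n χ hk, eval_node_func n χ' hk], map_mul]
  rfl

theorem Ann.fc_const (h : Ann T n) (c : ℝ) : fc T n (fun _ => c) = c • (1 : Module.End ℝ V) := by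
  rw [← h.aeval_eq (q := Polynomial.C c) fun k _ => Polynomial.eval_C, Polynomial.aeval_C,
    Algebra.algebraMap_eq_smul_one]

theorem Ann.fc_id (h : Ann T n) : fc T n (fun k => (k : ℝ)) = T := by
  rw [← h.aeval_eq (q := Polynomial.X) fun k _ => Polynomial.eval_X, Polynomial.aeval_X]

theorem fc_sa (hT : SA β T) (χ : ℕ → ℝ) : SA β (fc T n χ) := by
  exact aeval_sa_func hT _

theorem fc_intw {T' D : Module.End ℝ V} (h : ∀ f, D (T f) = T' (D f)) (χ : ℕ → ℝ) (f : V) :
    D (fc T n χ f) = fc T' n χ (D f) := by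
  exact aeval_intw_func h _ f

theorem fc_mem (p : Submodule ℝ V) (h : ∀ f ∈ p, T f ∈ p) (χ : ℕ → ℝ) {f : V} (hf : f ∈ p) :
    fc T n χ f ∈ p := by
  exact aeval_mem_func p h _ hf

/-- Write `χ = √χ * √χ`. -/
theorem Ann.fc_nonneg (hβ : PSD β) (hT : SA β T) (h : Ann T n) {χ : ℕ → ℝ}
    (hχ : ∀ k ≤ n, 0 ≤ χ k) (f : V) : 0 ≤ β f (fc T n χ f) := by
  rw [fc_congr (χ' := fun k => √(χ k) * √(χ k)) fun k hk => (Real.mul_self_sqrt (hχ k hk)).symm,
    ← h.fc_mul, Module.End.mul_apply, ← fc_sa hT]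
  exact hβ.nonneg _

theorem Ann.mono (h : Ann T n) {n' : ℕ} (hn : n ≤ n') : Ann T n' := by
  exact h.aeval_eq_zero fun k hk => eval_prod_func n' (hk.trans hn)

theorem Ann.fc_shift (h : Ann T n) (c : ℕ) {n' : ℕ} (hn : n + c ≤ n') (χ : ℕ → ℝ) :
    fc (T + (c : ℝ) • (1 : Module.End ℝ V)) n' χ = fc T n (fun k => χ (k + c)) := by
  rw [fc, aeval_shift_func]
  refine h.aeval_eq fun k hk => ?_
  rw [Polynomial.eval_comp, Polynomial.eval_add, Polynomial.eval_X, Polynomial.eval_C,
    ← Nat.cast_add, eval_node_func n' χ (by omega)]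

theorem Ann.shift (h : Ann T n) (c : ℕ) : Ann (T + (c : ℝ) • (1 : Module.End ℝ V)) (n + c) := by
  rw [Ann, aeval_shift_func]
  refine h.aeval_eq_zero fun k hk => ?_
  rw [Polynomial.eval_comp, Polynomial.eval_add, Polynomial.eval_X, Polynomial.eval_C,
    ← Nat.cast_add, eval_prod_func (n + c) (by omega)]

theorem ann_step_func {A : Module.End ℝ V} (h : Ann T n) (hi : ∀ f, A (A f) = A f)
    (hc : ∀ f, A (T f) = T (A f)) : Ann (A + T) (n + 1) := by
  have h1 := h.shift 1
  have h2 := h.mono (Nat.le_succ n)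
  unfold Ann at h1 h2 ⊢
  ext f
  have e1 := aeval_intw_func (T := A + T) (T' := T + ((1 : ℕ) : ℝ) • (1 : Module.End ℝ V)) (D := A)
    (fun f => by simp [hi, hc, add_comm])
    (∏ k ∈ range (n + 1 + 1), (Polynomial.X - Polynomial.C (k : ℝ))) f
  have e2 := aeval_intw_func (T := A + T) (T' := T) (D := 1 - A)
    (fun f => by simp [hi, hc])
    (∏ k ∈ range (n + 1 + 1), (Polynomial.X - Polynomial.C (k : ℝ))) f
  rw [h1, LinearMap.zero_apply] at e1
  rw [h2, LinearMap.zero_apply, LinearMap.sub_apply, e1, sub_zero] at e2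
  exact e2

/-- Induction on `S`: for an idempotent `A` commuting with `T` one has `A (T + A) = (T + 1) A`
and `(1 - A) (T + A) = T (1 - A)`. -/
theorem ann_sum {ι : Type} {A : ι → Module.End ℝ V} {S : Finset ι}
    (hi : ∀ i ∈ S, ∀ f, A i (A i f) = A i f)
    (hc : ∀ i ∈ S, ∀ j ∈ S, ∀ f, A i (A j f) = A j (A i f)) : Ann (∑ i ∈ S, A i) S.card := by
  classical
  induction S using Finset.induction_on with
  | empty => simp [Ann]
  | insert a S ha ih =>
    rw [sum_insert ha, card_insert_of_notMem ha]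
    refine ann_step_func (ih (fun i h => hi i (mem_insert_of_mem h)) fun i h j h' =>
      hc i (mem_insert_of_mem h) j (mem_insert_of_mem h')) (hi a (mem_insert_self _ _)) fun f => ?_
    rw [LinearMap.sum_apply, LinearMap.sum_apply, map_sum]
    exact sum_congr rfl fun j hj => hc a (mem_insert_self _ _) j (mem_insert_of_mem hj) f

end Pool.Agent.BoseLHY
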