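import Pool.Agent.Lib.MP_dec75e_mp.L.Op4

/-! The interaction is bounded below through the scattering solution. -/

open MeasureTheory Finset Function
open scoped Real

noncomputable section

namespace Pool.Agent.BoseLHY

open Pool.Agent.BoseTail

variable {ι : Type} [Fintype ι] [DecidableEq ι] {μ : ι → ProbabilityMeasure R3} {B : Box}
  {S : Finset ι} {R M : ℕ} {i j o : ι} {m m' : M3} {f g u ψ : Vs ι}

omit [Fintype ι] in
theorem swap_ga (S : Finset ι) (F : ι → ι → ℝ) :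
    ∑ i ∈ S, ∑ j ∈ S.erase i, F i j = ∑ i ∈ S, ∑ j ∈ S.erase i, F j i := by
  refine sum_comm' fun x y => ?_
  simp only [mem_erase]
  constructor
  · rintro ⟨hx, hne, hy⟩
    exact ⟨⟨hne.symm, hx⟩, hy⟩
  · rintro ⟨⟨hne, hx⟩, hy⟩
    exact ⟨hx, hne.symm, hy⟩

theorem pair_ga (hi : μ i = B.μ) (hj : μ j = B.μ) {W G G' b : BF (R3 × R3)}
    (hpt : ∀ x ∈ B.set, ∀ y ∈ B.set, ∀ α β : ℝ, 2 * G.1 (x, y) * α * β -
      (G.1 (x, y) - G'.1 (x, y) + b.1 (x, y)) * β ^ 2 ≤ W.1 (x, y) * α ^ 2) (ψ φ : Vs ι) :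
    2 * ex μ (at2 i j G * (ψ * φ)) - ex μ (at2 i j G * (φ * φ)) + ex μ (at2 i j G' * (φ * φ)) -
      ex μ (at2 i j b * (φ * φ)) ≤ ex μ (at2 i j W * (ψ * ψ)) := by
  have h1 : ∀ᵐ X ∂pm μ, X i ∈ B.set := ae_coord i (by rw [hi]; exact B.ae_mem)
  have h2 : ∀ᵐ X ∂pm μ, X j ∈ B.set := ae_coord j (by rw [hj]; exact B.ae_mem)
  have h3 : ex μ ((2 : ℝ) • (at2 i j G * (ψ * φ)) - at2 i j G * (φ * φ) + at2 i j G' * (φ * φ) -
      at2 i j b * (φ * φ)) ≤ ex μ (at2 i j W * (ψ * ψ)) := by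
    refine ex_mono_ae ?_
    filter_upwards [h1, h2] with X hX1 hX2
    have h := hpt _ hX1 _ hX2 (ψ.1 X) (φ.1 X)
    change (2 : ℝ) * (G.1 (X i, X j) * (ψ.1 X * φ.1 X)) - G.1 (X i, X j) * (φ.1 X * φ.1 X) +
      G'.1 (X i, X j) * (φ.1 X * φ.1 X) - b.1 (X i, X j) * (φ.1 X * φ.1 X) ≤
      W.1 (X i, X j) * (ψ.1 X * ψ.1 X)
    nlinarith
  rw [map_sub, map_add, map_sub, map_smul, smul_eq_mul] at h3
  exact h3

theorem crs_ga {G : BF (R3 × R3)} (hG : ∀ x y, G.1 (x, y) = G.1 (y, x)) (ψ : Vs ι) :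
    ∑ i ∈ S, ∑ j ∈ S.erase i, ex μ (at2 i j G * (ψ * ph B R i j ψ)) = crs μ B R S G ψ := by
  have h1 : ∀ i j : ι, ex μ (at2 i j G * (ψ * ph B R i j ψ)) =
      (ex μ (at2 i j G * (ψ * Pz B j (Pz B i ψ))) + ex μ (at2 i j G * (ψ * Lp B R j (Pz B i ψ)))) +
        ex μ (at2 j i G * (ψ * Lp B R i (Pz B j ψ))) := by
    intro i j
    rw [← at2_comm hG i j, ← map_add, ← map_add, ph]
    congr 1
    ring
  have h2 : ∀ i j : ι, ex μ (at2 i j G * (ψ * Zp B R j (Pz B i ψ))) =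
      (ex μ (at2 i j G * (ψ * Pz B j (Pz B i ψ))) + ex μ (at2 i j G * (ψ * Lp B R j (Pz B i ψ)))) +
        ex μ (at2 i j G * (ψ * Lp B R j (Pz B i ψ))) := by
    intro i j
    rw [← map_add, ← map_add, Zp_apply, two_smul]
    congr 1
    ring
  unfold crs
  simp only [h1, h2, sum_add_distrib]
  rw [swap_ga S fun i j => ex μ (at2 j i G * (ψ * Lp B R i (Pz B j ψ)))]

theorem pq_pair_ga (hi : μ i = B.μ) (hj : μ j = B.μ) (hij : i ≠ j) {b : BF (R3 × R3)}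
    (hb : ∀ z, 0 ≤ b.1 z) {b₀ : ℝ}
    (hb0 : ∫ x, ∫ y, b.1 (x, y) ∂(B.μ : Measure R3) ∂(B.μ : Measure R3) ≤ b₀) (ψ : Vs ι) :
    ex μ (at2 i j b * (ph B R i j ψ * ph B R i j ψ)) ≤
      2 * b₀ * nq (ipB μ) (Pz B j (Pz B i ψ)) +
        32 * (Lset R).card * b₀ * nq (ipB μ) (Lp B R j (Pz B i ψ)) +
        32 * (Lset R).card * b₀ * nq (ipB μ) (Lp B R i (Pz B j ψ)) := by
  have hai : Ind i (Pz B j (Pz B i ψ)) := loc_ind hij loc_Pz (ind_Pz ψ)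
  have haj : Ind j (Pz B j (Pz B i ψ)) := ind_Pz _
  have h1 := ex_at2_mul (μ := μ) hij (hai.mul hai) (haj.mul haj) b
  rw [hi, hj, ← nq_ipB] at h1
  have h1' := mul_le_mul_of_nonneg_right hb0 ((psd_ipB μ).nq_nonneg (Pz B j (Pz B i ψ)))
  have h2 := (ex_b_Lp (R := R) (u := Pz B i ψ) hi hj hij hb hb0).1 (ind_Pz ψ)
  have h3 := (ex_b_Lp (R := R) (u := Pz B j ψ) hi hj hij hb hb0).2 (ind_Pz ψ)
  have h4 : ∀ a c d : Vs ι, ex μ (at2 i j b * ((a + c + d) * (a + c + d))) ≤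
      2 * ex μ (at2 i j b * (a * a)) + 4 * ex μ (at2 i j b * (c * c)) +
        4 * ex μ (at2 i j b * (d * d)) := by
    intro a c d
    have h5 : ex μ (at2 i j b * ((a + c + d) * (a + c + d))) ≤
        ex μ ((2 : ℝ) • (at2 i j b * (a * a)) + (4 : ℝ) • (at2 i j b * (c * c)) +
          (4 : ℝ) • (at2 i j b * (d * d))) := by
      refine ex_mono_ae (Filter.Eventually.of_forall fun X => ?_)
      change b.1 (X i, X j) * ((a.1 X + c.1 X + d.1 X) * (a.1 X + c.1 X + d.1 X)) ≤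
        (2 : ℝ) * (b.1 (X i, X j) * (a.1 X * a.1 X)) + (4 : ℝ) * (b.1 (X i, X j) * (c.1 X * c.1 X)) +
          (4 : ℝ) * (b.1 (X i, X j) * (d.1 X * d.1 X))
      have h6 : (a.1 X + c.1 X + d.1 X) * (a.1 X + c.1 X + d.1 X) ≤
          2 * (a.1 X * a.1 X) + 4 * (c.1 X * c.1 X) + 4 * (d.1 X * d.1 X) := by
        nlinarith [sq_nonneg (a.1 X - c.1 X - d.1 X), sq_nonneg (c.1 X - d.1 X)]
      have h7 := mul_le_mul_of_nonneg_left h6 (hb (X i, X j))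
      linarith
    rw [map_add, map_add, map_smul, map_smul, map_smul, smul_eq_mul, smul_eq_mul,
      smul_eq_mul] at h5
    exact h5
  have h8 := h4 (Pz B j (Pz B i ψ)) (Lp B R j (Pz B i ψ)) (Lp B R i (Pz B j ψ))
  unfold ph
  linarith

/-- Integrate the pointwise inequality with `α = ψ`, `β = ph i j ψ`; the sum over ordered pairs of
`ex (G i j * ψ * ph i j ψ)` is `crs` after exchanging the names of `i` and `j` in the last term. -/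
theorem pot_ge (hA : Act μ B S) {W G G' b : BF (R3 × R3)} (hG : ∀ x y, G.1 (x, y) = G.1 (y, x))
    (hpt : ∀ x ∈ B.set, ∀ y ∈ B.set, ∀ α β : ℝ, 2 * G.1 (x, y) * α * β -
      (G.1 (x, y) - G'.1 (x, y) + b.1 (x, y)) * β ^ 2 ≤ W.1 (x, y) * α ^ 2) (ψ : Vs ι) :
    crs μ B R S G ψ - pq μ B R S G ψ + pq μ B R S G' ψ - pq μ B R S b ψ ≤ pot μ S W ψ := by
  have h1 := sum_le_sum fun i (hi : i ∈ S) => sum_le_sum fun j (hj : j ∈ S.erase i) =>
    pair_ga (hA i hi) (hA j (mem_of_mem_erase hj)) hpt ψ (ph B R i j ψ)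
  simp only [sum_sub_distrib, sum_add_distrib, ← mul_sum] at h1
  rw [crs_ga hG] at h1
  unfold pq pot
  linarith

/-- `pars_co_ip` in the variable `o` and `co_at2`. -/
theorem hasSum_Yt (hA : Act μ B S) {G : BF (R3 × R3)} {l : M3 → ℝ} (hG : B.Eig G l) (ψ : Vs ι) :
    HasSum (fun m => l m * Yt μ B R S m ψ) (crs μ B R S G ψ) := by
  have h1 : ∀ o ∈ S, ∀ j ∈ S.erase o,
      HasSum (fun m => l m * ipB μ (co B o m ψ) (Em B j m (Zp B R j (Pz B o ψ))))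
        (ex μ (at2 o j G * (ψ * Zp B R j (Pz B o ψ)))) := by
    intro o ho j hj
    have hoj : o ≠ j := (ne_of_mem_erase hj).symm
    have hZ : Ind o (Zp B R j (Pz B o ψ)) := loc_ind hoj loc_Zp (ind_Pz ψ)
    have h2 := pars_co_ip (hA o ho) ψ (at2 o j G * Zp B R j (Pz B o ψ))
    rw [ipB_apply ψ, mul_left_comm] at h2
    refine h2.congr_fun ?_
    intro m
    rw [co_at2 hG hoj hZ, map_smul, smul_eq_mul]
  have h3 := hasSum_sum fun o ho => hasSum_sum (h1 o ho)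
  refine h3.congr_fun ?_
  intro m
  unfold Yt Yv
  rw [mul_sum]
  refine sum_congr rfl fun o _ => ?_
  rw [map_sum, mul_sum]

theorem exch_eq (hA : Act μ B S) (m : M3) (ψ : Vs ι) :
    exch μ B S m ψ = ∑ i ∈ S, ∑ j ∈ S.erase i, ipB μ (co B i m ψ) (co B j m ψ) := by
  unfold exch occ Bm
  rw [LinearMap.sum_apply, (psd_ipB μ).nq_sum]
  ring

theorem sPP_nonneg : 0 ≤ sPP μ B S ψ := by
  exact sum_nonneg fun _ _ => sum_nonneg fun _ _ => (psd_ipB μ).nq_nonneg _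

theorem sPL_nonneg : 0 ≤ sPL μ B R S ψ := by
  exact sum_nonneg fun _ _ => sum_nonneg fun _ _ => (psd_ipB μ).nq_nonneg _

theorem sPP_le (hA : Act μ B S) (ψ : Vs ι) : sPP μ B S ψ ≤ (S.card : ℝ) ^ 2 * nq (ipB μ) ψ := by
  have h0 := (psd_ipB μ).nq_nonneg ψ
  have h1 : ∀ o ∈ S, ∑ j ∈ S.erase o, nq (ipB μ) (Pz B j (Pz B o ψ)) ≤
      S.card * nq (ipB μ) ψ := by
    intro o ho
    calc ∑ j ∈ S.erase o, nq (ipB μ) (Pz B j (Pz B o ψ))
        ≤ ∑ _j ∈ S.erase o, nq (ipB μ) ψ := sum_le_sum fun j hj =>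
          ((proj_Pz (hA j (mem_of_mem_erase hj))).nq_le (psd_ipB μ) _).trans
            ((proj_Pz (hA o ho)).nq_le (psd_ipB μ) _)
      _ ≤ ∑ _j ∈ S, nq (ipB μ) ψ :=
          sum_le_sum_of_subset_of_nonneg (erase_subset o S) fun _ _ _ => h0
      _ = S.card * nq (ipB μ) ψ := by rw [sum_const, nsmul_eq_mul]
  calc sPP μ B S ψ ≤ ∑ _o ∈ S, S.card * nq (ipB μ) ψ := sum_le_sum h1
    _ = (S.card : ℝ) ^ 2 * nq (ipB μ) ψ := by rw [sum_const, nsmul_eq_mul]; ring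

theorem sPL_le (hA : Act μ B S) (ψ : Vs ι) : sPL μ B R S ψ ≤ S.card * nL μ B R S ψ := by
  have h1 : ∀ o ∈ S, ∑ j ∈ S.erase o, nq (ipB μ) (Lp B R j (Pz B o ψ)) ≤ nL μ B R S ψ := by
    intro o ho
    calc ∑ j ∈ S.erase o, nq (ipB μ) (Lp B R j (Pz B o ψ))
        ≤ ∑ j ∈ S.erase o, nq (ipB μ) (Lp B R j ψ) := sum_le_sum fun j hj => by
          rw [loc_comm (ne_of_mem_erase hj) loc_Lp loc_Pz]
          exact (proj_Pz (hA o ho)).nq_le (psd_ipB μ) _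
      _ ≤ nL μ B R S ψ :=
          sum_le_sum_of_subset_of_nonneg (erase_subset o S) fun _ _ _ => (psd_ipB μ).nq_nonneg _
  calc sPL μ B R S ψ ≤ ∑ _o ∈ S, nL μ B R S ψ := sum_le_sum h1
    _ = S.card * nL μ B R S ψ := by rw [sum_const, nsmul_eq_mul]

/-- `(a + b + c)² ≤ 2 a² + 4 b² + 4 c²`, `ex_at2_mul` and `ex_b_Lp`. -/
theorem pq_le (hA : Act μ B S) {b : BF (R3 × R3)} (hb : ∀ z, 0 ≤ b.1 z) {b₀ : ℝ}
    (hb0 : ∫ x, ∫ y, b.1 (x, y) ∂(B.μ : Measure R3) ∂(B.μ : Measure R3) ≤ b₀) (ψ : Vs ι) :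
    pq μ B R S b ψ ≤ b₀ * (sPP μ B S ψ + 32 * (Lset R).card * sPL μ B R S ψ) := by
  have h1 := sum_le_sum fun i (hi : i ∈ S) => sum_le_sum fun j (hj : j ∈ S.erase i) =>
    pq_pair_ga (R := R) (hA i hi) (hA j (mem_of_mem_erase hj)) (ne_of_mem_erase hj).symm hb hb0 ψ
  simp only [sum_add_distrib, ← mul_sum] at h1
  rw [swap_ga S fun i j => nq (ipB μ) (Lp B R i (Pz B j ψ))] at h1
  unfold pq sPP sPL
  linarith

end Pool.Agent.BoseLHY
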