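import Pool.Agent.Lib.MP_dec75e_mp.L.GA

/-! The quadratic form of a diagonal kernel on the low part of a pair. -/

open MeasureTheory Finset Function
open scoped Real

noncomputable section

namespace Pool.Agent.BoseLHY

open Pool.Agent.BoseTail

variable {ι : Type} [Fintype ι] [DecidableEq ι] {μ : ι → ProbabilityMeasure R3} {B : Box}
  {S : Finset ι} {R M : ℕ} {i j o : ι} {m m' : M3} {f g u ψ : Vs ι}

theorem ex_ind_left_gb (hi : μ i = B.μ) (hij : i ≠ j) {G : BF (R3 × R3)} {l : M3 → ℝ}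
    (hG : B.Eig G l) (hf : Ind i f) (hg : Ind i g) :
    ex μ (at2 i j G * (f * g)) = l 0 * ipB μ f g := by
  have h1 : ex μ (at2 i j G * (f * g)) = ex μ (co B i 0 (at2 i j G * (f * g))) := by
    rw [co_zero, Pz, ← hi, ex_avg]
  rw [h1, co_at2 hG hij (hf.mul hg), Em_zero, map_smul, ipB_apply]
  rfl

theorem ex_ind_right_gb (hj : μ j = B.μ) (hij : i ≠ j) {G : BF (R3 × R3)} {l : M3 → ℝ}
    (hG : B.Eig G l) (hf : Ind j f) (hg : Ind j g) :
    ex μ (at2 i j G * (f * g)) = l 0 * ipB μ f g := by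
  rw [at2_comm hG.symm i j]
  exact ex_ind_left_gb hj hij.symm hG hf hg

theorem ip_cross_gb (hi : μ i = B.μ) (hj : μ j = B.μ) (hij : i ≠ j) (m : M3) (ψ : Vs ι) :
    ipB μ (co B i m (Pz B j ψ)) (co B j m (Pz B i ψ)) = ipB μ (co B i m ψ) (co B j m ψ) := by
  have h1 : co B i m (Pz B j ψ) = Pz B j (co B i m ψ) := loc_comm hij loc_co loc_Pz ψ
  have h2 : co B j m (Pz B i ψ) = Pz B i (co B j m ψ) := loc_comm hij.symm loc_co loc_Pz ψ
  have h3 : Ind j (Pz B i (co B j m ψ)) := loc_ind hij.symm loc_Pz (ind_co ψ)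
  rw [h1, h2, ip_ind hi (ind_co ψ) (co B j m ψ), (psd_ipB μ).symm (co B i m ψ),
    ip_ind hj h3 (co B i m ψ), (psd_ipB μ).symm]

theorem ex_cross_gb (hi : μ i = B.μ) (hj : μ j = B.μ) (hij : i ≠ j) {G : BF (R3 × R3)}
    {l : M3 → ℝ} (hG : B.Eig G l) (ψ : Vs ι) :
    ex μ (at2 i j G * (Lp B R j (Pz B i ψ) * Lp B R i (Pz B j ψ))) =
      ∑ m ∈ Lset R, l m * ipB μ (co B i m ψ) (co B j m ψ) := by
  have hb : Ind i (Lp B R j (Pz B i ψ)) := loc_ind hij loc_Lp (ind_Pz ψ)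
  rw [← mul_assoc, ← ipB_apply, Lp_apply (i := i), map_sum]
  refine Finset.sum_congr rfl fun m hm => ?_
  have hg : Ind i (co B i m (Pz B j ψ)) := ind_co _
  have hg' : Ind j (co B i m (Pz B j ψ)) := loc_ind hij.symm loc_co (ind_Pz ψ)
  have h1 := ip_co (m := m) hi (at2 i j G * Lp B R j (Pz B i ψ)) (co B i m (Pz B j ψ))
  rw [Pz_of_ind hg] at h1
  rw [← h1, co_at2 hG hij hb, map_smul, LinearMap.smul_apply, smul_eq_mul, (psd_ipB μ).symm,
    ip_ind hj hg', ← co_apply, co_Lp, if_pos hm, ip_cross_gb hi hj hij]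

omit [Fintype ι] in
theorem sum_swap_gb (S : Finset ι) (F : ι → ι → ℝ) :
    ∑ i ∈ S, ∑ j ∈ S.erase i, F i j = ∑ i ∈ S, ∑ j ∈ S.erase i, F j i := by
  refine Finset.sum_comm' fun x y => ?_
  simp only [Finset.mem_erase]
  constructor
  · rintro ⟨h1, h2, h3⟩
    exact ⟨⟨Ne.symm h2, h1⟩, h3⟩
  · rintro ⟨⟨h1, h2⟩, h3⟩
    exact ⟨h2, Ne.symm h1, h3⟩

/-- One pair. With `a = P_j P_i ψ`, `b = L_j P_i ψ`, `c = L_i P_j ψ`: `a`, `b` do not depend on
`x_i` and `P_i (G * ·)` acts on such functions as multiplication by `l 0` (`co_at2` with `m = 0`);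
the same for `a`, `c` and `x_j`. The cross term `ex (G * b * c)` is
`∑_m ⟨co_i m (G * b), co_i m (P_j ψ)⟩ = ∑_m l m ⟨co_j m b, co_i m (P_j ψ)⟩`. -/
theorem ex_ph (hi : μ i = B.μ) (hj : μ j = B.μ) (hij : i ≠ j) {G : BF (R3 × R3)} {l : M3 → ℝ}
    (hG : B.Eig G l) (ψ : Vs ι) :
    ex μ (at2 i j G * (ph B R i j ψ * ph B R i j ψ)) =
      l 0 * (nq (ipB μ) (Pz B j (Pz B i ψ)) + nq (ipB μ) (Lp B R j (Pz B i ψ)) +
        nq (ipB μ) (Lp B R i (Pz B j ψ))) +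
      2 * ∑ m ∈ Lset R, l m * ipB μ (co B i m ψ) (co B j m ψ) := by
  have ha : Ind i (Pz B j (Pz B i ψ)) := loc_ind hij loc_Pz (ind_Pz ψ)
  have ha' : Ind j (Pz B j (Pz B i ψ)) := ind_Pz _
  have hb : Ind i (Lp B R j (Pz B i ψ)) := loc_ind hij loc_Lp (ind_Pz ψ)
  have hc : Ind j (Lp B R i (Pz B j ψ)) := loc_ind hij.symm loc_Lp (ind_Pz ψ)
  have hab : ipB μ (Pz B j (Pz B i ψ)) (Lp B R j (Pz B i ψ)) = 0 := by
    rw [ip_ind hj ha', Pz_Lp, map_zero]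
  have hac : ipB μ (Pz B j (Pz B i ψ)) (Lp B R i (Pz B j ψ)) = 0 := by
    rw [ip_ind hi ha, Pz_Lp, map_zero]
  have e1 := ex_ind_left_gb hi hij hG ha ha
  have e2 := ex_ind_left_gb hi hij hG hb hb
  have e3 := ex_ind_right_gb hj hij hG hc hc
  have e4 := ex_ind_left_gb hi hij hG ha hb
  have e5 := ex_ind_right_gb hj hij hG ha' hc
  have e6 := ex_cross_gb (R := R) hi hj hij hG ψ
  rw [hab] at e4
  rw [hac] at e5
  unfold ph nq
  generalize Pz B j (Pz B i ψ) = a at *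
  generalize Lp B R j (Pz B i ψ) = b at *
  generalize Lp B R i (Pz B j ψ) = c at *
  have hx : at2 i j G * ((a + b + c) * (a + b + c)) =
      at2 i j G * (a * a) + at2 i j G * (b * b) + at2 i j G * (c * c) +
        (at2 i j G * (a * b) + at2 i j G * (a * b)) + (at2 i j G * (a * c) + at2 i j G * (a * c)) +
        (at2 i j G * (b * c) + at2 i j G * (b * c)) := by ring
  rw [hx]
  simp only [map_add]
  rw [e1, e2, e3, e4, e5, e6]
  ring

theorem pq_eig (hA : Act μ B S) {G : BF (R3 × R3)} {l : M3 → ℝ} (hG : B.Eig G l) (ψ : Vs ι) :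
    pq μ B R S G ψ = l 0 * (sPP μ B S ψ / 2 + sPL μ B R S ψ) +
      ∑ m ∈ Lset R, l m * exch μ B S m ψ := by
  have h1 : ∑ i ∈ S, ∑ j ∈ S.erase i, ex μ (at2 i j G * (ph B R i j ψ * ph B R i j ψ)) =
      ∑ i ∈ S, ∑ j ∈ S.erase i, (l 0 * (nq (ipB μ) (Pz B j (Pz B i ψ)) +
        nq (ipB μ) (Lp B R j (Pz B i ψ)) + nq (ipB μ) (Lp B R i (Pz B j ψ))) +
      2 * ∑ m ∈ Lset R, l m * ipB μ (co B i m ψ) (co B j m ψ)) :=
    Finset.sum_congr rfl fun i hi => Finset.sum_congr rfl fun j hj =>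
      ex_ph (hA i hi) (hA j (Finset.mem_of_mem_erase hj)) (Finset.ne_of_mem_erase hj).symm hG ψ
  have h2 : ∑ i ∈ S, ∑ j ∈ S.erase i, nq (ipB μ) (Lp B R i (Pz B j ψ)) = sPL μ B R S ψ :=
    sum_swap_gb S fun i j => nq (ipB μ) (Lp B R i (Pz B j ψ))
  have h3 : ∑ m ∈ Lset R, l m * exch μ B S m ψ =
      ∑ i ∈ S, ∑ j ∈ S.erase i, ∑ m ∈ Lset R, l m * ipB μ (co B i m ψ) (co B j m ψ) := by
    simp only [exch_eq hA, Finset.mul_sum]
    rw [Finset.sum_comm]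
    exact Finset.sum_congr rfl fun i _ => Finset.sum_comm
  unfold pq
  rw [h1, h3]
  simp only [Finset.sum_add_distrib, ← Finset.mul_sum]
  rw [h2]
  unfold sPP sPL
  ring

end Pool.Agent.BoseLHY
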