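import Pool.Agent.Lib.MP_dec75e_mp.L.Abs

/-! Vectors in which few of a commuting family of projections are excited. -/

open MeasureTheory Finset Function
open scoped Real

noncomputable section

namespace Pool.Agent.BoseLHY

open Pool.Agent.BoseTail

variable {V : Type} [AddCommGroup V] [Module ℝ V] {β : V →ₗ[ℝ] V →ₗ[ℝ] ℝ}
variable {ι : Type} [DecidableEq ι] {A : ι → Module.End ℝ V} {S : Finset ι} {M : ℕ} {φ : V}

omit [DecidableEq ι] in
theorem prod_comm_lowa {X : Module.End ℝ V} (hX : ∀ i ∈ S, ∀ f, A i (X f) = X (A i f))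
    (l : List ι) (hl : ∀ i ∈ l, i ∈ S) (f : V) :
    (l.map A).prod (X f) = X ((l.map A).prod f) := by
  induction l with
  | nil => rfl
  | cons a l ih =>
    simp only [List.map_cons, List.prod_cons, Module.End.mul_apply]
    rw [ih fun i hi => hl i (List.mem_cons_of_mem _ hi), hX a (hl a List.mem_cons_self)]

theorem prod_erase_lowa (hc : ∀ i ∈ S, ∀ j ∈ S, ∀ f, A i (A j f) = A j (A i f)) {j : ι}
    (l : List ι) (hl : ∀ i ∈ l, i ∈ S) (hj : j ∈ l) (f : V) :
    (l.map A).prod f = A j (((l.erase j).map A).prod f) := by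
  induction l with
  | nil => simp at hj
  | cons a l ih =>
    by_cases ha : a = j
    · subst ha
      simp only [List.erase_cons_head, List.map_cons, List.prod_cons, Module.End.mul_apply]
    · have hj' : j ∈ l := (List.mem_cons.1 hj).resolve_left fun h => ha h.symm
      rw [List.erase_cons_tail (by simpa using ha)]
      simp only [List.map_cons, List.prod_cons, Module.End.mul_apply]
      rw [ih (fun i hi => hl i (List.mem_cons_of_mem _ hi)) hj',
        hc a (hl a List.mem_cons_self) j (hl j hj)]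

omit [DecidableEq ι] in
theorem LowA.mono (h : LowA A S M φ) {M' : ℕ} (hM : M ≤ M') : LowA A S M' φ := by
  exact fun l hl hS hM' => h l hl hS (lt_of_le_of_lt hM hM')

omit [DecidableEq ι] in
theorem LowA.subset (h : LowA A S M φ) {S' : Finset ι} (hS : S' ⊆ S) : LowA A S' M φ := by
  exact fun l hl hS' hM => h l hl (fun i hi => hS (hS' i hi)) hM

omit [DecidableEq ι] in
theorem LowA.map (h : LowA A S M φ) {X : Module.End ℝ V}
    (hX : ∀ i ∈ S, ∀ f, A i (X f) = X (A i f)) : LowA A S M (X φ) := by
  intro l hl hS hM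
  rw [prod_comm_lowa hX l hS, h l hl hS hM, map_zero]

/-- Move `A j` to the front of the product if it occurs. -/
theorem LowA.of_erase (hc : ∀ i ∈ S, ∀ j ∈ S, ∀ f, A i (A j f) = A j (A i f)) {j : ι}
    (h : LowA A (S.erase j) M φ) : LowA A S (M + 1) φ := by
  intro l hl hS hM
  by_cases hj : j ∈ l
  · have h1 : M < (l.erase j).length := by
      rw [List.length_erase_of_mem hj]
      omega
    rw [prod_erase_lowa hc l hS hj, h (l.erase j) (hl.erase j) (fun i hi => ?_) h1, map_zero]
    rw [hl.mem_erase_iff] at hi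
    exact mem_erase.2 ⟨hi.1, hS i hi.2⟩
  · exact h l hl (fun i hi => mem_erase.2 ⟨fun e => hj (e ▸ hi), hS i hi⟩) (by omega)

omit [DecidableEq ι] in
theorem lowA_of_zero (h : ∀ i ∈ S, A i = 0) (φ : V) : LowA A S 0 φ := by
  intro l _ hS hM
  cases l with
  | nil => simp at hM
  | cons a l =>
    simp only [List.map_cons, List.prod_cons, Module.End.mul_apply, h a (hS a List.mem_cons_self),
      LinearMap.zero_apply]

omit [DecidableEq ι] in
theorem LowA.sum {κ : Type} {s : Finset κ} {f : κ → V} (h : ∀ k ∈ s, LowA A S M (f k)) :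
    LowA A S M (∑ k ∈ s, f k) := by
  intro l hl hS hM
  rw [map_sum]
  exact sum_eq_zero fun k hk => h k hk l hl hS hM

/-- Induction on `S` for all `M`, `φ`: split `φ = A a φ + (φ - A a φ)`; the first part is
`LowA` with `M - 1` on the smaller set (and vanishes if `M = 0`), the second with `M`. -/
theorem LowA.sum_le (hβ : PSD β) (hA : Fam β A S) (h : LowA A S M φ) :
    ∑ i ∈ S, nq β (A i φ) ≤ M * nq β φ := by
  induction S using Finset.induction_on generalizing M φ with
  | empty =>
    rw [sum_empty]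
    exact mul_nonneg (Nat.cast_nonneg _) (hβ.nq_nonneg _)
  | insert a S ha ih =>
    have hsub : S ⊆ insert a S := subset_insert a S
    have hm : a ∈ insert a S := mem_insert_self a S
    have hA' := hA.subset hsub
    have hc : ∀ i ∈ S, ∀ f, A i (A a f) = A a (A i f) := fun i hi =>
      hA.comm i (hsub hi) a hm
    have h1 : ∀ i ∈ S, nq β (A i φ) = nq β (A i (A a φ)) + nq β (A i (φ - A a φ)) := by
      intro i hi
      rw [map_sub, hc i hi]
      exact (hA.proj a hm).pyth hβ _
    have h2 : LowA A S M (φ - A a φ) :=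
      (h.subset hsub).map (X := 1 - A a) fun i hi f => by
        simp only [LinearMap.sub_apply, Module.End.one_apply, map_sub, hc i hi]
    have h3 := ih hA' h2
    have h4 := (hA.proj a hm).pyth hβ φ
    rw [sum_insert ha, sum_congr rfl h1, sum_add_distrib, h4]
    cases M with
    | zero =>
      have h5 : A a φ = 0 := by
        simpa using h [a] (List.nodup_singleton a) (fun i hi => by simp_all) (by simp)
      simp only [h5, map_zero, nq_zero, sum_const_zero] at h3 ⊢
      linarith
    | succ M =>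
      have h5 : LowA A S M (A a φ) := by
        intro l hl hS hM
        rw [prod_comm_lowa hc l hS]
        refine h (a :: l) (List.nodup_cons.2 ⟨fun hi => ha (hS a hi), hl⟩) (fun i hi => ?_)
          (by simpa using hM)
        rcases List.mem_cons.1 hi with rfl | hi
        · exact hm
        · exact hsub (hS i hi)
      have h6 := ih hA' h5
      push_cast at h3 ⊢
      linarith

/-- With `W` the sum: `‖W‖² = ∑ ⟨A j W, A j (w j)⟩`, Cauchy-Schwarz and `LowA.sum_le` for `W`. -/
theorem LowA.norm_sum (hβ : PSD β) (hA : Fam β A S) (w : ι → V)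
    (h : ∀ j ∈ S, LowA A S M (A j (w j))) :
    nq β (∑ j ∈ S, A j (w j)) ≤ M * ∑ j ∈ S, nq β (A j (w j)) := by
  have h1 := (LowA.sum h).sum_le hβ hA
  set W := ∑ j ∈ S, A j (w j) with hW
  have h2 : nq β W = ∑ j ∈ S, β (A j W) (A j (w j)) := by
    have h3 : nq β W = β W (∑ j ∈ S, A j (w j)) := rfl
    rw [h3, map_sum]
    refine sum_congr rfl fun j hj => ?_
    rw [(hA.proj j hj).sa, (hA.proj j hj).idem]
  have h4 := hβ.cs_sum S (fun j => A j W) fun j => A j (w j)
  have h5 : 0 ≤ ∑ j ∈ S, nq β (A j (w j)) := sum_nonneg fun j _ => hβ.nq_nonneg _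
  have h6 : 0 ≤ ∑ j ∈ S, nq β (A j W) := sum_nonneg fun j _ => hβ.nq_nonneg _
  have h7 : nq β W ≤ √(∑ j ∈ S, nq β (A j W)) * √(∑ j ∈ S, nq β (A j (w j))) := by
    rw [h2]
    exact (sum_le_sum fun j _ => le_abs_self _).trans h4
  have h8 := hβ.nq_nonneg W
  have h9 : nq β W * nq β W ≤ nq β W * (M * ∑ j ∈ S, nq β (A j (w j))) := by
    have e := mul_self_le_mul_self h8 h7
    rw [mul_mul_mul_comm, Real.mul_self_sqrt h6, Real.mul_self_sqrt h5] at e
    have e2 := mul_le_mul_of_nonneg_right h1 h5
    linarith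
  rcases h8.eq_or_lt with h0 | h0
  · rw [← h0]
    exact mul_nonneg (Nat.cast_nonneg _) h5
  · exact le_of_mul_le_mul_left h9 h0

end Pool.Agent.BoseLHY
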