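import Pool.Agent.Lib.MP_dec75e_mp.L.GA
import Pool.Agent.Lib.MP_dec75e_mp.L.LowA

/-! The zero mode and the low modes. -/

open MeasureTheory Finset Function
open scoped Real

noncomputable section

namespace Pool.Agent.BoseLHY

open Pool.Agent.BoseTail

variable {ι : Type} [Fintype ι] [DecidableEq ι] {μ : ι → ProbabilityMeasure R3} {B : Box}
  {S : Finset ι} {R M : ℕ} {i j o : ι} {m m' : M3} {f g u ψ : Vs ι}

omit [Fintype ι] in
theorem swap_gc (F : ι → ι → ℝ) :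
    ∑ o ∈ S, ∑ j ∈ S.erase o, F o j = ∑ j ∈ S, ∑ o ∈ S.erase j, F o j :=
  sum_comm' fun o j => by
    simp only [mem_erase]
    constructor
    · rintro ⟨h1, h2, h3⟩
      exact ⟨⟨h2.symm, h1⟩, h3⟩
    · rintro ⟨⟨h1, h2⟩, h3⟩
      exact ⟨h2, h1.symm, h3⟩

theorem Yt_zero (hA : Act μ B S) (ψ : Vs ι) :
    Yt μ B R S 0 ψ = sPP μ B S ψ + 2 * sPL μ B R S ψ := by
  unfold Yt Yv sPP sPL
  rw [mul_sum, ← sum_add_distrib]
  refine sum_congr rfl fun o _ => ?_
  rw [map_sum, mul_sum, ← sum_add_distrib]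
  refine sum_congr rfl fun j hj => ?_
  have hj' : μ j = B.μ := hA j (mem_of_mem_erase hj)
  rw [Em_zero, co_zero, Module.End.one_apply, Zp_apply, map_add, map_smul, smul_eq_mul,
    (proj_Pz hj').nq_eq, (proj_Lp hj').nq_eq]

theorem pair_eq (hA : Act μ B S) (hm : m ≠ 0) (ψ : Vs ι) : pair μ B S m ψ =
    ∑ o ∈ S, ∑ j ∈ S.erase o, ipB μ (co B o m ψ) (Em B j m (Pz B j (Pz B o ψ))) := by
  unfold pair Bm Bs
  rw [LinearMap.sum_apply, LinearMap.sum_apply, map_sum (ipB μ), LinearMap.sum_apply]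
  refine sum_congr rfl fun o ho => ?_
  have ho' : μ o = B.μ := hA o ho
  rw [map_sum, ← add_sum_erase S _ ho, Module.End.mul_apply, ip_ind ho' (ind_co ψ), ← co_apply,
    co_of_ind hm (ind_Pz ψ), map_zero, zero_add]
  refine sum_congr rfl fun j hj => ?_
  have hoj : o ≠ j := (ne_of_mem_erase hj).symm
  rw [Module.End.mul_apply, ip_ind ho' (ind_co ψ), loc_comm hoj loc_Pz loc_Em,
    loc_comm hoj loc_Pz loc_Pz]

/-- Split `co o m ψ = P_j (co o m ψ) + Q_j (co o m ψ)` in the term containing `L_j`. -/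
theorem Yt_low (hA : Act μ B S) (hm : m ∈ Lset R) (ψ : Vs ι) :
    Yt μ B R S m ψ = pair μ B S m ψ + 2 * exch μ B S m ψ + 2 * cub μ B R S m ψ := by
  have hm0 : m ≠ 0 := ne_of_mem_erase hm
  rw [pair_eq hA hm0, exch_eq hA]
  unfold Yt Yv cub
  rw [mul_sum, mul_sum, ← sum_add_distrib, ← sum_add_distrib]
  refine sum_congr rfl fun o ho => ?_
  have ho' : μ o = B.μ := hA o ho
  rw [map_sum, mul_sum, mul_sum, ← sum_add_distrib, ← sum_add_distrib]
  refine sum_congr rfl fun j hj => ?_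
  have hj' : μ j = B.μ := hA j (mem_of_mem_erase hj)
  have hjo : j ≠ o := ne_of_mem_erase hj
  have h1 : ipB μ (Pz B j (co B o m ψ)) (Em B j m (Lp B R j (Pz B o ψ))) =
      ipB μ (co B o m ψ) (co B j m ψ) := by
    rw [(proj_Pz hj').sa, ← co_apply, co_Lp, if_pos hm, loc_comm hjo loc_co loc_Pz,
      ← ip_ind ho' (ind_co ψ)]
  rw [Zp_apply, map_add, map_smul, map_add, map_smul, smul_eq_mul, Qz_apply, map_sub,
    LinearMap.sub_apply, h1]
  ring

/-- `∑_{o ≠ j} ‖L_o Q_j ψ‖² ≤ M ‖Q_j ψ‖²` by `LowA.sum_le` on `S.erase j`. -/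
theorem sum_LQ_le (hA : Act μ B S) (hL : LowA (Lp B R) S M ψ) :
    ∑ j ∈ S, ∑ o ∈ S.erase j, nq (ipB μ) (Lp B R o (Qz B j ψ)) ≤ M * nP μ B S ψ := by
  unfold nP
  rw [mul_sum]
  refine sum_le_sum fun j _ => ?_
  exact LowA.sum_le (psd_ipB μ) ((fam_Lp hA).subset (erase_subset _ _))
    ((hL.subset (erase_subset _ _)).map fun i hi f =>
      loc_comm (ne_of_mem_erase hi) loc_Lp loc_Qz f)

theorem sum_LL_le (hA : Act μ B S) (hL : LowA (Lp B R) S M ψ) :
    ∑ j ∈ S, ∑ o ∈ S.erase j, nq (ipB μ) (Lp B R o (Lp B R j ψ)) ≤ M * nL μ B R S ψ := by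
  unfold nL
  rw [mul_sum]
  refine sum_le_sum fun j _ => ?_
  exact LowA.sum_le (psd_ipB μ) ((fam_Lp hA).subset (erase_subset _ _))
    ((hL.subset (erase_subset _ _)).map fun i hi f =>
      loc_comm (ne_of_mem_erase hi) loc_Lp loc_Lp f)

/-- Cauchy-Schwarz over `(m, o, j)`: the first factor is `sum_LQ_le` (by `nq_Lp`), the second is
at most `8 card * sPL ≤ 8 card * n * nP`. -/
theorem cub_le (hA : Act μ B S) (hL : LowA (Lp B R) S M ψ) :
    ∑ m ∈ Lset R, |cub μ B R S m ψ| ≤ √(8 * (Lset R).card * M * S.card) * nP μ B S ψ := by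
  set T : Finset (Σ _ : M3, Σ _ : ι, ι) :=
    (Lset R).sigma fun _ => S.sigma fun o => S.erase o with hT
  have hs : ∀ F : M3 → ι → ι → ℝ, ∑ k ∈ T, F k.1 k.2.1 k.2.2 =
      ∑ m ∈ Lset R, ∑ o ∈ S, ∑ j ∈ S.erase o, F m o j := fun F => by
    rw [hT, sum_sigma]
    exact sum_congr rfl fun m _ => sum_sigma S (fun o => S.erase o) fun k => F m k.1 k.2
  have hcs := (psd_ipB μ).cs_sum T (fun k => Qz B k.2.2 (co B k.2.1 k.1 ψ))
    fun k => Em B k.2.2 k.1 (Lp B R k.2.2 (Pz B k.2.1 ψ))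
  rw [hs fun m o j => |ipB μ (Qz B j (co B o m ψ)) (Em B j m (Lp B R j (Pz B o ψ)))|,
    hs fun m o j => nq (ipB μ) (Qz B j (co B o m ψ)),
    hs fun m o j => nq (ipB μ) (Em B j m (Lp B R j (Pz B o ψ)))] at hcs
  have h1 : ∑ m ∈ Lset R, ∑ o ∈ S, ∑ j ∈ S.erase o, nq (ipB μ) (Qz B j (co B o m ψ)) ≤
      M * nP μ B S ψ := by
    refine le_of_eq_of_le ?_ (sum_LQ_le hA hL)
    rw [sum_comm, ← swap_gc fun o j => nq (ipB μ) (Lp B R o (Qz B j ψ))]
    refine sum_congr rfl fun o ho => ?_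
    rw [sum_comm]
    refine sum_congr rfl fun j hj => ?_
    rw [nq_Lp (hA o ho)]
    exact sum_congr rfl fun m _ => by rw [loc_comm (ne_of_mem_erase hj) loc_Qz loc_co]
  have h2 : ∑ m ∈ Lset R, ∑ o ∈ S, ∑ j ∈ S.erase o,
      nq (ipB μ) (Em B j m (Lp B R j (Pz B o ψ))) ≤
      8 * (Lset R).card * S.card * nP μ B S ψ := by
    have h3 : sPL μ B R S ψ ≤ S.card * nP μ B S ψ := by
      refine (sPL_le hA ψ).trans (mul_le_mul_of_nonneg_left ?_ (Nat.cast_nonneg _))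
      rw [nP_eq (R := R) hA]
      exact le_add_of_nonneg_right nH_nonneg
    calc _ ≤ ∑ _m ∈ Lset R, 8 * sPL μ B R S ψ := by
          refine sum_le_sum fun m _ => ?_
          unfold sPL
          rw [mul_sum]
          refine sum_le_sum fun o _ => ?_
          rw [mul_sum]
          exact sum_le_sum fun j _ => nq_Em_le _
      _ = 8 * (Lset R).card * sPL μ B R S ψ := by rw [sum_const, nsmul_eq_mul]; ring
      _ ≤ 8 * (Lset R).card * (S.card * nP μ B S ψ) :=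
          mul_le_mul_of_nonneg_left h3 (mul_nonneg (by norm_num) (Nat.cast_nonneg _))
      _ = _ := by ring
  have hP : 0 ≤ nP μ B S ψ := nP_nonneg
  calc _ ≤ ∑ m ∈ Lset R, ∑ o ∈ S, ∑ j ∈ S.erase o,
        |ipB μ (Qz B j (co B o m ψ)) (Em B j m (Lp B R j (Pz B o ψ)))| := by
        refine sum_le_sum fun m _ => ?_
        unfold cub
        exact (abs_sum_le_sum_abs _ _).trans (sum_le_sum fun o _ => abs_sum_le_sum_abs _ _)
    _ ≤ _ := hcs
    _ ≤ √(M * nP μ B S ψ) * √(8 * (Lset R).card * S.card * nP μ B S ψ) :=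
        mul_le_mul (Real.sqrt_le_sqrt h1) (Real.sqrt_le_sqrt h2) (Real.sqrt_nonneg _)
          (Real.sqrt_nonneg _)
    _ = √(8 * (Lset R).card * M * S.card * nP μ B S ψ ^ 2) := by
        rw [← Real.sqrt_mul (mul_nonneg (Nat.cast_nonneg _) hP)]
        congr 1
        ring
    _ = _ := by rw [Real.sqrt_mul' _ (sq_nonneg _), Real.sqrt_sq hP]

end Pool.Agent.BoseLHY
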