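import Pool.Agent.Lib.MP_dec75e_mp.L.GA
import Pool.Agent.Lib.MP_dec75e_mp.L.LowA

/-! The high modes: norm of the created vector. -/

open MeasureTheory Finset Function
open scoped Real

noncomputable section

namespace Pool.Agent.BoseLHY

open Pool.Agent.BoseTail

variable {ι : Type} [Fintype ι] [DecidableEq ι] {μ : ι → ProbabilityMeasure R3} {B : Box}
  {S : Finset ι} {R M : ℕ} {i j o : ι} {m m' : M3} {f g u ψ : Vs ι}

/-- Off the diagonal `⟨E_j Z_j u, E_k Z_k u⟩ = ⟨Z_k E_k u, Z_j E_j u⟩`. -/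
theorem nq_sum_EZ (hA : Act μ B S) (m : M3) (u : Vs ι) :
    nq (ipB μ) (∑ j ∈ S, Em B j m (Zp B R j u)) ≤
      ∑ j ∈ S, nq (ipB μ) (Em B j m (Zp B R j u)) + 2 * nq (ipB μ) (∑ j ∈ S, co B j m u) +
        8 * nq (ipB μ) (∑ j ∈ S, Lp B R j (Em B j m u)) := by
  have hβ := psd_ipB μ
  have hoff : ∀ j ∈ S, ∀ k ∈ S.erase j,
      ipB μ (Em B j m (Zp B R j u)) (Em B k m (Zp B R k u)) =
        ipB μ (Zp B R j (Em B j m u)) (Zp B R k (Em B k m u)) := by
    intro j hj k hk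
    have hkj : j ≠ k := (Finset.ne_of_mem_erase hk).symm
    have hk' := Finset.mem_of_mem_erase hk
    rw [sa_Em, sa_Zp (hA j hj), hβ.symm (Zp B R j (Em B j m u)), sa_Zp (hA k hk'), sa_Em,
      loc_comm hkj loc_Em loc_Em, loc_comm hkj loc_Zp loc_Em, loc_comm hkj loc_Em loc_Zp,
      loc_comm hkj loc_Zp loc_Zp]
  have h1 := hβ.nq_sum S fun j => Em B j m (Zp B R j u)
  have h2 := hβ.nq_sum S fun j => Zp B R j (Em B j m u)
  rw [Finset.sum_congr rfl fun j hj => Finset.sum_congr rfl (hoff j hj)] at h1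
  have h3 : 0 ≤ ∑ j ∈ S, nq (ipB μ) (Zp B R j (Em B j m u)) :=
    Finset.sum_nonneg fun j _ => hβ.nq_nonneg _
  have h4 : ∑ j ∈ S, Zp B R j (Em B j m u) =
      ∑ j ∈ S, co B j m u + (2 : ℝ) • ∑ j ∈ S, Lp B R j (Em B j m u) := by
    rw [Finset.smul_sum, ← Finset.sum_add_distrib]
    rfl
  have h5 := hβ.nq_add_le_two (∑ j ∈ S, co B j m u) ((2 : ℝ) • ∑ j ∈ S, Lp B R j (Em B j m u))
  rw [← h4, nq_smul] at h5
  linarith

theorem nq_EZ_le (hj : μ j = B.μ) {θ : ℝ} (hθ : 0 < θ) (m : M3) (u : Vs ι) :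
    nq (ipB μ) (Em B j m (Zp B R j u)) ≤
      (1 + θ) * nq (ipB μ) (Pz B j u) + 32 * (1 + 1 / θ) * nq (ipB μ) (Lp B R j u) := by
  have hβ := psd_ipB μ
  have h1 := hβ.nq_add_le (Em B j m (Pz B j u)) ((2 : ℝ) • Em B j m (Lp B R j u)) hθ
  rw [nq_smul, nq_Em_ind hj (ind_Pz u), ← map_smul, ← map_add, ← Zp_apply] at h1
  have h2 : nq (ipB μ) (Em B j m (Lp B R j u)) ≤ 8 * nq (ipB μ) (Lp B R j u) := nq_Em_le _
  have h3 : 0 ≤ 1 + 1 / θ := by positivity
  have h4 := mul_le_mul_of_nonneg_left h2 h3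
  linarith

theorem off_P (hA : Act μ B S) (m : M3) (ψ : Vs ι) :
    ∑ o ∈ S, nq (ipB μ) (∑ j ∈ S.erase o, co B j m (Pz B o ψ)) ≤
      (S.card : ℝ) ^ 2 * occ μ B S m ψ := by
  have hβ := psd_ipB μ
  have h1 : ∀ o ∈ S, nq (ipB μ) (∑ j ∈ S.erase o, co B j m (Pz B o ψ)) ≤
      S.card * occ μ B S m ψ := by
    intro o ho
    refine (hβ.nq_sum_le _ _).trans (mul_le_mul ?_ ?_
      (Finset.sum_nonneg fun j _ => hβ.nq_nonneg _) (Nat.cast_nonneg _))
    · exact_mod_cast Finset.card_erase_le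
    · refine le_trans (Finset.sum_le_sum fun j hj => ?_)
        (Finset.sum_le_sum_of_subset_of_nonneg (Finset.erase_subset o S)
          fun j _ _ => hβ.nq_nonneg _)
      rw [loc_comm (Finset.ne_of_mem_erase hj) loc_co loc_Pz]
      exact (proj_Pz (hA o ho)).nq_le hβ _
  refine (Finset.sum_le_sum h1).trans (le_of_eq ?_)
  rw [Finset.sum_const, nsmul_eq_mul]
  ring

/-- `∑_p ‖L E_p u‖² = ∑_q ∑_p ‖co p (E_q (Q u))‖²` since `L E_p P = 0` for high `p`; Bessel. -/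
theorem sum_LE_le (hj : μ j = B.μ) (F : Finset M3) (hF : ∀ m ∈ F, High R m) (u : Vs ι) :
    ∑ m ∈ F, nq (ipB μ) (Lp B R j (Em B j m u)) ≤
      8 * (Lset R).card * nq (ipB μ) (Qz B j u) := by
  have h1 : ∀ m ∈ F, nq (ipB μ) (Lp B R j (Em B j m u)) =
      ∑ q ∈ Lset R, nq (ipB μ) (co B j m (Em B j q (Qz B j u))) := by
    intro m hm
    have h2 : Lp B R j (Em B j m u) = Lp B R j (Em B j m (Qz B j u)) := by
      rw [Qz_apply, map_sub, map_sub, Lp_Em_ind (high_iff.1 (hF m hm)).2 (ind_Pz u), sub_zero]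
    rw [h2, nq_Lp hj]
    refine Finset.sum_congr rfl fun q _ => ?_
    rw [co_apply, co_apply, Em_comm]
  rw [Finset.sum_congr rfl h1, Finset.sum_comm]
  refine (Finset.sum_le_sum fun q _ => (bessel_co hj F _).trans (nq_Em_le _)).trans (le_of_eq ?_)
  rw [Finset.sum_const, nsmul_eq_mul]
  ring

/-- `LowA.norm_sum` on `S.erase o` with `M + 1` (`LowA.map`, `LowA.of_erase`). -/
theorem off_L (hA : Act μ B S) (hL : LowA (Lp B R) S M ψ) (F : Finset M3)
    (hF : ∀ m ∈ F, High R m) :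
    ∑ m ∈ F, ∑ o ∈ S, nq (ipB μ) (∑ j ∈ S.erase o, Lp B R j (Em B j m (Pz B o ψ))) ≤
      8 * (M + 1) * (Lset R).card * S.card * nP μ B S ψ := by
  have hβ := psd_ipB μ
  have h1 : ∀ m, ∀ o ∈ S, nq (ipB μ) (∑ j ∈ S.erase o, Lp B R j (Em B j m (Pz B o ψ))) ≤
      (M + 1) * ∑ j ∈ S.erase o, nq (ipB μ) (Lp B R j (Em B j m (Pz B o ψ))) := by
    intro m o _
    have hF' := fam_Lp (R := R) (hA.subset (Finset.erase_subset o S))
    have h2 := LowA.norm_sum (M := M + 1) hβ hF' (fun j => Em B j m (Pz B o ψ)) fun j _ => by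
      refine LowA.of_erase hF'.comm (j := j) ?_
      have h3 := hL.subset ((Finset.erase_subset j (S.erase o)).trans (Finset.erase_subset o S))
      refine h3.map (X := Lp B R j * (Em B j m * Pz B o)) fun i hi f => ?_
      have hij : i ≠ j := Finset.ne_of_mem_erase hi
      have hio : i ≠ o := Finset.ne_of_mem_erase (Finset.mem_of_mem_erase hi)
      simp only [Module.End.mul_apply]
      rw [loc_comm hij loc_Lp loc_Lp, loc_comm hij loc_Lp loc_Em, loc_comm hio loc_Lp loc_Pz]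
    exact_mod_cast h2
  have h2 : ∀ o ∈ S, ∑ m ∈ F, ∑ j ∈ S.erase o, nq (ipB μ) (Lp B R j (Em B j m (Pz B o ψ))) ≤
      8 * (Lset R).card * nP μ B S ψ := by
    intro o ho
    rw [Finset.sum_comm, nP, Finset.mul_sum]
    refine le_trans (Finset.sum_le_sum fun j hj => ?_)
      (Finset.sum_le_sum_of_subset_of_nonneg (Finset.erase_subset o S)
        fun j _ _ => mul_nonneg (by positivity) (hβ.nq_nonneg _))
    refine (sum_LE_le (hA j (Finset.mem_of_mem_erase hj)) F hF _).trans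
      (mul_le_mul_of_nonneg_left ?_ (by positivity))
    rw [loc_comm (Finset.ne_of_mem_erase hj) loc_Qz loc_Pz]
    exact (proj_Pz (hA o ho)).nq_le hβ _
  rw [Finset.sum_comm]
  have h3 : ∀ o ∈ S, ∑ m ∈ F, nq (ipB μ) (∑ j ∈ S.erase o, Lp B R j (Em B j m (Pz B o ψ))) ≤
      (M + 1) * (8 * (Lset R).card * nP μ B S ψ) := by
    intro o ho
    refine (Finset.sum_le_sum fun m _ => h1 m o ho).trans ?_
    rw [← Finset.mul_sum]
    exact mul_le_mul_of_nonneg_left (h2 o ho) (by positivity)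
  refine (Finset.sum_le_sum h3).trans (le_of_eq ?_)
  rw [Finset.sum_const, nsmul_eq_mul]
  ring

end Pool.Agent.BoseLHY
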