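import Pool.Agent.Lib.MP_dec75e_mp.L.GD

/-! The high modes: completing the square. -/

open MeasureTheory Finset Function
open scoped Real

noncomputable section

namespace Pool.Agent.BoseLHY

open Pool.Agent.BoseTail

variable {ι : Type} [Fintype ι] [DecidableEq ι] {μ : ι → ProbabilityMeasure R3} {B : Box}
  {S : Finset ι} {R M : ℕ} {i j o : ι} {m m' : M3} {f g u ψ : Vs ι}

theorem diag_ge (hA : Act μ B S) {θ : ℝ} (hθ : 0 < θ) (m : M3) [Decidable (Bulk R m)] (ψ : Vs ι) :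
    ∑ o ∈ S, ∑ j ∈ S.erase o, nq (ipB μ) (Em B j m (Zp B R j (Pz B o ψ))) ≤
      (sPP μ B S ψ + 4 * sPL μ B R S ψ) +
        (if Bulk R m then 0 else θ * sPP μ B S ψ + 32 * (1 + 1 / θ) * sPL μ B R S ψ) := by
  have h0 : 0 ≤ sPL μ B R S ψ := sPL_nonneg
  split_ifs with hb
  · rw [add_zero]
    apply le_of_eq
    unfold sPP sPL
    rw [mul_sum, ← sum_add_distrib]
    refine sum_congr rfl fun o _ => ?_
    rw [mul_sum, ← sum_add_distrib]
    exact sum_congr rfl fun j hj => nq_EZ_bulk (hA j (mem_of_mem_erase hj)) hb _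
  · have h1 : ∑ o ∈ S, ∑ j ∈ S.erase o, nq (ipB μ) (Em B j m (Zp B R j (Pz B o ψ))) ≤
        (1 + θ) * sPP μ B S ψ + 32 * (1 + 1 / θ) * sPL μ B R S ψ := by
      unfold sPP sPL
      rw [mul_sum, mul_sum, ← sum_add_distrib]
      refine sum_le_sum fun o _ => ?_
      rw [mul_sum, mul_sum, ← sum_add_distrib]
      exact sum_le_sum fun j hj => nq_EZ_le (hA j (mem_of_mem_erase hj)) hθ m _
    linarith

theorem normY_ge (hA : Act μ B S) (m : M3) (ψ : Vs ι) :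
    ∑ o ∈ S, nq (ipB μ) (Yv B R S o m ψ) ≤
      ∑ o ∈ S, ∑ j ∈ S.erase o, nq (ipB μ) (Em B j m (Zp B R j (Pz B o ψ))) +
        2 * ((S.card : ℝ) ^ 2 * occ μ B S m ψ) +
        8 * ∑ o ∈ S, nq (ipB μ) (∑ j ∈ S.erase o, Lp B R j (Em B j m (Pz B o ψ))) := by
  have h1 := off_P hA m ψ
  have h2 : ∑ o ∈ S, nq (ipB μ) (Yv B R S o m ψ) ≤
      ∑ o ∈ S, ∑ j ∈ S.erase o, nq (ipB μ) (Em B j m (Zp B R j (Pz B o ψ))) +
        2 * ∑ o ∈ S, nq (ipB μ) (∑ j ∈ S.erase o, co B j m (Pz B o ψ)) +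
        8 * ∑ o ∈ S, nq (ipB μ) (∑ j ∈ S.erase o, Lp B R j (Em B j m (Pz B o ψ))) := by
    rw [mul_sum, mul_sum, ← sum_add_distrib, ← sum_add_distrib]
    exact sum_le_sum fun o _ => nq_sum_EZ (hA.subset (erase_subset o S)) m (Pz B o ψ)
  linarith

theorem compl_ge {τ : ℝ} (hτ : 0 < τ) (l : ℝ) (m : M3) (ψ : Vs ι) :
    -(τ * occ μ B S m ψ) - l ^ 2 / (4 * τ) * ∑ o ∈ S, nq (ipB μ) (Yv B R S o m ψ) ≤
      l * Yt μ B R S m ψ := by
  unfold occ Yt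
  rw [mul_sum, mul_sum, mul_sum, ← sum_neg_distrib, ← sum_sub_distrib]
  exact sum_le_sum fun o _ => (psd_ipB μ).compl hτ l _ _

/-- Complete the square for each `o` and `m` (`PSD.compl`), bound `‖Yv‖²` by `nq_sum_EZ`; the
diagonal by `nq_EZ_bulk` for bulk modes and by `nq_EZ_le` for the others. -/
theorem high_total (hA : Act μ B S) (hL : LowA (Lp B R) S M ψ) {l τ : M3 → ℝ} {e₂ e₃ θ : ℝ}
    (F : Finset M3) (hF : ∀ m ∈ F, High R m) (hτ : ∀ m ∈ F, 0 < τ m) (hθ : 0 < θ)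
    (he₂ : ∀ F' ⊆ F, (∀ m ∈ F', ¬Bulk R m) → ∑ m ∈ F', l m ^ 2 / (4 * τ m) ≤ e₂)
    (he₃ : ∀ m ∈ F, l m ^ 2 / (4 * τ m) ≤ e₃) (he₃0 : 0 ≤ e₃) :
    -(∑ m ∈ F, τ m * occ μ B S m ψ) -
        (∑ m ∈ F, l m ^ 2 / (4 * τ m)) * (sPP μ B S ψ + 4 * sPL μ B R S ψ) -
        e₂ * (θ * sPP μ B S ψ + 32 * (1 + 1 / θ) * sPL μ B R S ψ) -
        2 * e₃ * (S.card : ℝ) ^ 2 * ∑ m ∈ F, occ μ B S m ψ -
        64 * e₃ * (M + 1) * (Lset R).card * S.card * nP μ B S ψ ≤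
      ∑ m ∈ F, l m * Yt μ B R S m ψ := by
  classical
  set X := θ * sPP μ B S ψ + 32 * (1 + 1 / θ) * sPL μ B R S ψ with hX
  set A := sPP μ B S ψ + 4 * sPL μ B R S ψ with hAdef
  have hX0 : 0 ≤ X := by
    have h1 : 0 ≤ sPP μ B S ψ := sPP_nonneg
    have h2 : 0 ≤ sPL μ B R S ψ := sPL_nonneg
    rw [hX]
    positivity
  let Lq : M3 → ℝ := fun m =>
    ∑ o ∈ S, nq (ipB μ) (∑ j ∈ S.erase o, Lp B R j (Em B j m (Pz B o ψ)))
  have hLq0 : ∀ m, 0 ≤ Lq m := fun m => sum_nonneg fun o _ => (psd_ipB μ).nq_nonneg _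
  have hone : ∀ m ∈ F, -(τ m * occ μ B S m ψ) - l m ^ 2 / (4 * τ m) * A -
      (if Bulk R m then 0 else l m ^ 2 / (4 * τ m)) * X -
      2 * e₃ * (S.card : ℝ) ^ 2 * occ μ B S m ψ - 8 * e₃ * Lq m ≤ l m * Yt μ B R S m ψ := by
    intro m hm
    have hc0 : 0 ≤ l m ^ 2 / (4 * τ m) := by
      have := hτ m hm
      positivity
    have h1 := compl_ge (μ := μ) (B := B) (S := S) (R := R) (hτ m hm) (l m) m ψ
    have h2 := normY_ge (R := R) hA m ψ
    have h3 := diag_ge (R := R) hA hθ m ψ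
    have hocc : 0 ≤ (S.card : ℝ) ^ 2 * occ μ B S m ψ := mul_nonneg (sq_nonneg _) occ_nonneg
    have h4 : ∑ o ∈ S, nq (ipB μ) (Yv B R S o m ψ) ≤
        A + (if Bulk R m then 0 else X) + 2 * ((S.card : ℝ) ^ 2 * occ μ B S m ψ) + 8 * Lq m :=
      h2.trans (add_le_add (add_le_add h3 le_rfl) le_rfl)
    have h5 := mul_le_mul_of_nonneg_left h4 hc0
    have h6 := mul_le_mul_of_nonneg_right (he₃ m hm) hocc
    have h7 := mul_le_mul_of_nonneg_right (he₃ m hm) (hLq0 m)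
    have h8 : l m ^ 2 / (4 * τ m) * (if Bulk R m then 0 else X) =
        (if Bulk R m then 0 else l m ^ 2 / (4 * τ m)) * X := by
      split_ifs <;> simp
    generalize l m ^ 2 / (4 * τ m) = c at *
    nlinarith
  have hsum := sum_le_sum hone
  rw [sum_sub_distrib, sum_sub_distrib, sum_sub_distrib, sum_sub_distrib, sum_neg_distrib,
    ← sum_mul, ← sum_mul, ← mul_sum, ← mul_sum] at hsum
  have hE2 : ∑ m ∈ F, (if Bulk R m then 0 else l m ^ 2 / (4 * τ m)) ≤ e₂ := by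
    have h1 := he₂ (F.filter fun m => ¬Bulk R m) (filter_subset _ _)
      (fun m hm => (mem_filter.1 hm).2)
    rw [sum_filter] at h1
    refine le_trans (le_of_eq (sum_congr rfl fun m _ => ?_)) h1
    by_cases hb : Bulk R m <;> simp [hb]
  have hE2' := mul_le_mul_of_nonneg_right hE2 hX0
  have hL' := mul_le_mul_of_nonneg_left (off_L hA hL F hF) he₃0
  have hLq : ∑ m ∈ F, Lq m = ∑ m ∈ F, ∑ o ∈ S,
      nq (ipB μ) (∑ j ∈ S.erase o, Lp B R j (Em B j m (Pz B o ψ))) := rfl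
  rw [← hLq] at hL'
  nlinarith

/-- A lower bound for a series from lower bounds for all finite sums over high modes. -/
theorem hasSum_split {a : M3 → ℝ} {T K : ℝ} (ha : HasSum a T)
    (h : ∀ F : Finset M3, (∀ m ∈ F, High R m) → K ≤ ∑ m ∈ F, a m) :
    a 0 + ∑ m ∈ Lset R, a m + K ≤ T := by
  classical
  refine ge_of_tendsto ha ?_
  filter_upwards [Filter.eventually_ge_atTop (insert 0 (Lset R))] with s hs
  have h1 := h (s \ insert 0 (Lset R)) fun m hm => by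
    have h2 := (mem_sdiff.1 hm).2
    rw [mem_insert, not_or] at h2
    exact high_iff.2 h2
  rw [← sum_sdiff hs, sum_insert (zero_notMem_Lset R)]
  linarith

end Pool.Agent.BoseLHY
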