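import Pool.Agent.Lib.MP_dec75e_mp.L.GC
import Pool.Agent.Lib.MP_dec75e_mp.L.Bog

/-! Counting of pairs and the Bogolyubov inequality. -/

open MeasureTheory Finset Function
open scoped Real

noncomputable section

namespace Pool.Agent.BoseLHY

open Pool.Agent.BoseTail

variable {ι : Type} [Fintype ι] [DecidableEq ι] {μ : ι → ProbabilityMeasure R3} {B : Box}
  {S : Finset ι} {R M : ℕ} {i j o : ι} {m m' : M3} {f g u ψ : Vs ι}

omit [Fintype ι] in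
theorem swp_ind_gf (hi : Ind i f) (hj : Ind j f) : swp i j f = f := by
  refine Subtype.ext (funext fun X => ?_)
  change f.1 (X ∘ Equiv.swap i j) = f.1 X
  rw [Equiv.comp_swap_eq_update, hi, hj]

omit [Fintype ι] in
theorem sum_swap_gf (F : ι → ι → ℝ) :
    ∑ o ∈ S, ∑ j ∈ S.erase o, F o j = ∑ o ∈ S, ∑ j ∈ S.erase o, F j o := by
  refine Finset.sum_comm' fun x y => ?_
  simp only [Finset.mem_erase]
  tauto

omit [Fintype ι] in
theorem sum_const_gf (c : ℝ) :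
    ∑ o ∈ S, ∑ _j ∈ S.erase o, c = S.card * ((S.card : ℝ) - 1) * c := by
  have h : ∀ o ∈ S, ∑ _j ∈ S.erase o, c = ((S.card : ℝ) - 1) * c := fun o ho => by
    rw [Finset.sum_const, nsmul_eq_mul, Finset.card_erase_of_mem ho,
      Nat.cast_sub (Finset.card_pos.2 ⟨o, ho⟩), Nat.cast_one]
  rw [Finset.sum_congr rfl h, Finset.sum_const, nsmul_eq_mul, mul_assoc]

omit [Fintype ι] in
theorem sum_snd_gf {q : ι → ℝ} (hq : ∀ k, 0 ≤ q k) :
    ∑ o ∈ S, ∑ j ∈ S.erase o, q j ≤ S.card * ∑ k ∈ S, q k := by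
  rw [← nsmul_eq_mul, ← Finset.sum_const]
  exact Finset.sum_le_sum fun o _ =>
    Finset.sum_le_sum_of_subset_of_nonneg (Finset.erase_subset _ _) fun k _ _ => hq k

omit [Fintype ι] in
theorem sum_fst_gf {q : ι → ℝ} (hq : ∀ k, 0 ≤ q k) :
    ∑ o ∈ S, ∑ _j ∈ S.erase o, q o ≤ S.card * ∑ k ∈ S, q k := by
  rw [sum_swap_gf fun o _ => q o]
  exact sum_snd_gf hq

theorem nq_PQ_gf (hi : μ i = B.μ) (f : Vs ι) :
    nq (ipB μ) f = nq (ipB μ) (Pz B i f) + nq (ipB μ) (Qz B i f) :=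
  (proj_Pz hi).pyth (psd_ipB μ) f

theorem nq_PLH_gf (R : ℕ) (hi : μ i = B.μ) (f : Vs ι) :
    nq (ipB μ) f = nq (ipB μ) (Pz B i f) + nq (ipB μ) (Lp B R i f) + nq (ipB μ) (Hp B R i f) := by
  rw [nq_PQ_gf hi f, nq_Qz (R := R) hi f, add_assoc]

theorem sym_PC (hS : Sym S ψ) (hi : i ∈ S) (hj : j ∈ S) (hij : i ≠ j) (m : M3) :
    Pz B j (co B i m ψ) = Pz B i (co B j m ψ) := by
  have h1 : Ind i (Pz B j (co B i m ψ)) := loc_ind hij loc_Pz (ind_co ψ)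
  have h2 : Ind j (Pz B j (co B i m ψ)) := ind_Pz _
  rw [← swp_ind_gf h1 h2]
  unfold Pz
  rw [swp_avg, swp_co, Equiv.swap_apply_left, Equiv.swap_apply_right, hS i hi j hj]

theorem exch_cross_gf (m : M3) (ψ : Vs ι) :
    exch μ B S m ψ = ∑ k ∈ S, ∑ l ∈ S.erase k, ipB μ (co B k m ψ) (co B l m ψ) := by
  unfold exch Bm occ
  rw [LinearMap.sum_apply, (psd_ipB μ).nq_sum]
  ring

theorem exch_sym (hA : Act μ B S) (hS : Sym S ψ) (m : M3) :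
    exch μ B S m ψ = ∑ o ∈ S, ∑ j ∈ S.erase o, nq (ipB μ) (co B j m (Pz B o ψ)) := by
  rw [exch_cross_gf]
  refine Finset.sum_congr rfl fun k hk => Finset.sum_congr rfl fun l hl => ?_
  obtain ⟨hlk, hl⟩ := Finset.mem_erase.1 hl
  have h1 : Ind l (Pz B k (co B l m ψ)) := loc_ind hlk loc_Pz (ind_co ψ)
  rw [ip_ind (hA k hk) (ind_co ψ), (psd_ipB μ).symm, ip_ind (hA l hl) h1,
    ← sym_PC hS hl hk hlk m, loc_comm hlk loc_co loc_Pz]
  rfl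

theorem exch_nonneg (hA : Act μ B S) (hS : Sym S ψ) (m : M3) : 0 ≤ exch μ B S m ψ := by
  rw [exch_sym hA hS]
  exact Finset.sum_nonneg fun _ _ => Finset.sum_nonneg fun _ _ => (psd_ipB μ).nq_nonneg _

theorem sPL_sym (hA : Act μ B S) (hS : Sym S ψ) :
    sPL μ B R S ψ = ∑ m ∈ Lset R, exch μ B S m ψ := by
  simp only [exch_sym hA hS]
  unfold sPL
  rw [Finset.sum_comm]
  refine Finset.sum_congr rfl fun o _ => ?_
  rw [Finset.sum_comm]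
  exact Finset.sum_congr rfl fun j hj => nq_Lp (hA j (Finset.mem_of_mem_erase hj)) _

theorem sPP_ge (hA : Act μ B S) (ψ : Vs ι) :
    S.card * ((S.card : ℝ) - 1) * nq (ipB μ) ψ - 2 * S.card * nP μ B S ψ ≤ sPP μ B S ψ := by
  have hq : ∀ k, 0 ≤ nq (ipB μ) (Qz B k ψ) := fun k => (psd_ipB μ).nq_nonneg _
  have h1 : ∑ o ∈ S, ∑ _j ∈ S.erase o, nq (ipB μ) ψ ≤
      ∑ o ∈ S, ∑ j ∈ S.erase o, (nq (ipB μ) (Pz B j (Pz B o ψ)) + nq (ipB μ) (Qz B o ψ) +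
        nq (ipB μ) (Qz B j ψ)) := by
    refine Finset.sum_le_sum fun o ho => Finset.sum_le_sum fun j hj => ?_
    obtain ⟨hjo, hj⟩ := Finset.mem_erase.1 hj
    have a1 := nq_PQ_gf (hA o ho) ψ
    have a2 := nq_PQ_gf (hA j hj) (Pz B o ψ)
    have a3 := (proj_Pz (hA o ho)).nq_le (psd_ipB μ) (Qz B j ψ)
    rw [loc_comm hjo loc_Qz loc_Pz] at a2
    linarith
  simp only [Finset.sum_add_distrib] at h1
  rw [sum_const_gf] at h1
  have h2 := sum_fst_gf (S := S) hq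
  have h3 := sum_snd_gf (S := S) hq
  unfold nP sPP
  linarith

/-- For one pair `‖ψ‖² ≤ ‖P P ψ‖² + ‖L P ψ‖² + ‖P L ψ‖² + ‖H_i ψ‖² + ‖H_j ψ‖² + ‖L_i L_j ψ‖²`;
then `sum_LL_le`. -/
theorem sPP_sPL_ge (hA : Act μ B S) (hL : LowA (Lp B R) S M ψ) :
    S.card * ((S.card : ℝ) - 1) / 2 * nq (ipB μ) ψ - S.card * nH μ B R S ψ -
      M / 2 * nL μ B R S ψ ≤ sPP μ B S ψ / 2 + sPL μ B R S ψ := by
  have hq : ∀ k, 0 ≤ nq (ipB μ) (Hp B R k ψ) := fun k => (psd_ipB μ).nq_nonneg _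
  have h1 : ∑ o ∈ S, ∑ _j ∈ S.erase o, nq (ipB μ) ψ ≤
      ∑ o ∈ S, ∑ j ∈ S.erase o, (nq (ipB μ) (Pz B j (Pz B o ψ)) +
        nq (ipB μ) (Lp B R j (Pz B o ψ)) + nq (ipB μ) (Lp B R o (Pz B j ψ)) +
        nq (ipB μ) (Hp B R o ψ) + nq (ipB μ) (Hp B R j ψ) +
        nq (ipB μ) (Lp B R j (Lp B R o ψ))) := by
    refine Finset.sum_le_sum fun o ho => Finset.sum_le_sum fun j hj => ?_
    obtain ⟨hjo, hj⟩ := Finset.mem_erase.1 hj
    have a1 := nq_PLH_gf R (hA o ho) ψ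
    have a2 := nq_PLH_gf R (hA j hj) (Pz B o ψ)
    have a3 := nq_PLH_gf R (hA j hj) (Lp B R o ψ)
    have a4 := nq_PLH_gf R (hA o ho) (Hp B R j ψ)
    have a5 := (psd_ipB μ).nq_nonneg (Hp B R o (Hp B R j ψ))
    rw [loc_comm hjo loc_Hp loc_Pz] at a2
    rw [loc_comm hjo loc_Hp loc_Lp, loc_comm hjo loc_Pz loc_Lp] at a3
    linarith
  simp only [Finset.sum_add_distrib] at h1
  rw [sum_const_gf, sum_swap_gf fun o j => nq (ipB μ) (Lp B R o (Pz B j ψ))] at h1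
  have h2 := sum_fst_gf (S := S) hq
  have h3 := sum_snd_gf (S := S) hq
  have h4 := sum_LL_le hA hL
  unfold nH sPP sPL
  linarith

theorem nq_Bm_le (m : M3) (ψ : Vs ι) : nq (ipB μ) (Bm B S m ψ) ≤ S.card * occ μ B S m ψ := by
  unfold Bm occ
  rw [LinearMap.sum_apply]
  exact (psd_ipB μ).nq_sum_le _ _

/-- The commutation relation. -/
theorem nq_Bs_le (hA : Act μ B S) (m : M3) (ψ : Vs ι) :
    nq (ipB μ) (Bs B S m ψ) ≤ nq (ipB μ) (Bm B S m ψ) + S.card * nq (ipB μ) ψ := by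
  have h0 := exch_cross_gf (μ := μ) (B := B) (S := S) m ψ
  have h1 : 0 ≤ occ μ B S m ψ := occ_nonneg
  have h2 : ∑ k ∈ S, nq (ipB μ) ((Em B k m * Pz B k) ψ) ≤ S.card * nq (ipB μ) ψ := by
    rw [← nsmul_eq_mul, ← Finset.sum_const]
    refine Finset.sum_le_sum fun k hk => ?_
    rw [Module.End.mul_apply, nq_Em_ind (hA k hk) (ind_Pz ψ)]
    exact (proj_Pz (hA k hk)).nq_le (psd_ipB μ) ψ
  have h3 : ∑ k ∈ S, ∑ l ∈ S.erase k, ipB μ ((Em B k m * Pz B k) ψ) ((Em B l m * Pz B l) ψ) =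
      ∑ k ∈ S, ∑ l ∈ S.erase k, ipB μ (co B k m ψ) (co B l m ψ) := by
    refine Finset.sum_congr rfl fun k hk => Finset.sum_congr rfl fun l hl => ?_
    obtain ⟨hlk, hl⟩ := Finset.mem_erase.1 hl
    rw [Module.End.mul_apply (Em B l m), ← ip_co (hA l hl),
      loc_comm hlk loc_co (mul_mem loc_Em loc_Pz), (psd_ipB μ).symm, Module.End.mul_apply,
      ← ip_co (hA k hk)]
  unfold exch at h0
  unfold Bs
  rw [LinearMap.sum_apply, (psd_ipB μ).nq_sum, h3]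
  linarith

theorem bog_mode (hA : Act μ B S) (m : M3) {τ l : ℝ} (hτ : 0 < τ) (hl : 0 ≤ l) (ψ : Vs ι) :
    bog τ (S.card * l) * nq (ipB μ) ψ - l * occ μ B S m ψ ≤
      τ * occ μ B S m ψ + l * exch μ B S m ψ + l * pair μ B S m ψ := by
  have hp : |pair μ B S m ψ| ≤ √(nq (ipB μ) (Bm B S m ψ)) *
      √(nq (ipB μ) (Bm B S m ψ) + S.card * nq (ipB μ) ψ) :=
    ((psd_ipB μ).cs _ _).trans
      (mul_le_mul_of_nonneg_left (Real.sqrt_le_sqrt (nq_Bs_le hA m ψ)) (Real.sqrt_nonneg _))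
  have h := bog_le (Nat.cast_nonneg S.card) hτ hl ((psd_ipB μ).nq_nonneg _) occ_nonneg
    ((psd_ipB μ).nq_nonneg ψ) (nq_Bm_le m ψ) hp
  unfold exch
  linarith

end Pool.Agent.BoseLHY
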