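import Pool.Agent.Lib.MP_dec75e_mp.L.GB
import Pool.Agent.Lib.MP_dec75e_mp.L.GE
import Pool.Agent.Lib.MP_dec75e_mp.L.GF

/-! The general lower bound in a Neumann box. -/

open MeasureTheory Finset Function
open scoped Real

noncomputable section

namespace Pool.Agent.BoseLHY

open Pool.Agent.BoseTail

variable {ι : Type} [Fintype ι] [DecidableEq ι] {μ : ι → ProbabilityMeasure R3} {B : Box}
  {S : Finset ι} {R M : ℕ} {i j o : ι} {m m' : M3} {f g u ψ : Vs ι}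

theorem not_high_zero_gen : ¬High R 0 := by
  rintro ⟨c, hc⟩
  simp at hc

theorem ne_zero_of_high_gen (h : High R m) : m ≠ 0 := by
  rintro rfl
  exact not_high_zero_gen h

theorem not_high_low_gen (h : m ∈ Lset R) : ¬High R m := by
  rintro ⟨c, hc⟩
  have h1 := Fintype.mem_piFinset.1 (Finset.mem_of_mem_erase h) c
  have h2 := Finset.mem_range.1 h1
  omega

/-- The final bookkeeping with real numbers. -/
theorem final_gen {N PP PL nl nh n c sq Mr l0 l0' lb b₀ e₁ e₂ e₃ e₄ e₅ θ t γL γH Γ T P crs pG pG' pb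
    a0 aL K rs sb sl sl' : ℝ}
    (hN : 0 ≤ N) (hPL : 0 ≤ PL) (hnl : 0 ≤ nl) (hnh : 0 ≤ nh) (hn : 0 ≤ n)
    (hc : 0 ≤ c) (hM : 0 ≤ Mr) (hl0 : 0 ≤ l0) (hlb : l0 ≤ lb) (hb : 0 ≤ b₀) (he₁ : 0 ≤ e₁)
    (he₂ : 0 ≤ e₂) (he₄ : 0 ≤ e₄) (hθ : 0 ≤ θ) (ht : 0 ≤ t) (hrs : 0 ≤ rs) (hrs5 : rs ≤ e₅)
    (h1 : a0 + aL + K ≤ T + crs - (γH - 2 * e₃ * n ^ 2) * nh)
    (hK : K = -((l0' / 2 + e₁ - rs) * (PP + 4 * PL)) - e₂ * (θ * PP + 32 * t * PL) -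
      64 * e₃ * (Mr + 1) * c * n * (nl + nh))
    (h2 : crs - pG + pG' - pb ≤ P) (hpG : pG = l0 * (PP / 2 + PL) + sl)
    (hpG' : pG' = l0' * (PP / 2 + PL) + sl') (hpb : pb ≤ b₀ * (PP + 32 * c * PL))
    (ha0 : l0 * (PP + 2 * PL) ≤ a0)
    (haL : γL * nl + sb * N - lb * nl - 2 * lb * (sq * (nl + nh)) + sl ≤ aL)
    (hl' : l0' * PL - e₄ * PL ≤ sl')
    (hPP1 : PP ≤ n ^ 2 * N) (hPL1 : PL ≤ n * nl)
    (hPP2 : n * (n - 1) * N - 2 * n * (nl + nh) ≤ PP)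
    (hPP3 : n * (n - 1) / 2 * N - n * nh - Mr / 2 * nl ≤ PP / 2 + PL)
    (hΓ : 2 * lb * sq + 64 * e₃ * (Mr + 1) * c * n + 2 * n * e₅ ≤ Γ)
    (hγL : lb * (Mr + 1) + n * (e₄ + 4 * e₁ + 32 * b₀ * c + 32 * e₂ * t) + Γ ≤ γL)
    (hγH : 2 * e₃ * n ^ 2 + lb * n + Γ ≤ γH) :
    (l0 * (n * (n - 1) / 2) + (sb + n ^ 2 * rs) - n * e₅ - (e₁ + b₀ + θ * e₂) * n ^ 2) * N ≤
      T + P := by
  have hlb0 : 0 ≤ lb := hl0.trans hlb
  have k1 := mul_le_mul_of_nonneg_left hPP3 hl0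
  have k2 := mul_le_mul_of_nonneg_right hlb (mul_nonneg hn hnh)
  have k3 := mul_le_mul_of_nonneg_right hlb (mul_nonneg hM hnl)
  have k4 := mul_le_mul_of_nonneg_left hPP2 hrs
  have k5 := mul_le_mul_of_nonneg_right hrs5 (mul_nonneg hn hN)
  have k6 := mul_le_mul_of_nonneg_right hrs5 (mul_nonneg hn (add_nonneg hnl hnh))
  have k7 := mul_nonneg hrs hPL
  have k8 := mul_le_mul_of_nonneg_left hPP1 (add_nonneg (add_nonneg he₁ hb) (mul_nonneg hθ he₂))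
  have hq : 0 ≤ e₄ + 4 * e₁ + 32 * b₀ * c + 32 * e₂ * t := by positivity
  have k9 := mul_le_mul_of_nonneg_left hPL1 hq
  have k10 := mul_le_mul_of_nonneg_right hγL hnl
  have k11 := mul_le_mul_of_nonneg_right hγH hnh
  have k12 := mul_le_mul_of_nonneg_right hΓ (add_nonneg hnl hnh)
  have k13 := mul_nonneg hlb0 (mul_nonneg hM hnl)
  subst hK hpG hpG'
  linarith

/-- The contribution of the low modes. -/
theorem low_gen (hA : Act μ B S) (hL : LowA (Lp B R) S M ψ) {l κ τ : M3 → ℝ} {lb γL : ℝ}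
    (hκL : ∀ m ∈ Lset R, τ m + γL ≤ κ m) (hτ : ∀ m, m ≠ 0 → 0 < τ m) (hl : ∀ m, |l m| ≤ lb)
    (hlL : ∀ m ∈ Lset R, 0 ≤ l m) :
    γL * nL μ B R S ψ + (∑ m ∈ Lset R, bog (τ m) (S.card * l m)) * nq (ipB μ) ψ -
        lb * nL μ B R S ψ - 2 * lb * (√(8 * (Lset R).card * M * S.card) * nP μ B S ψ) +
        ∑ m ∈ Lset R, l m * exch μ B S m ψ ≤
      ∑ m ∈ Lset R, (κ m * occ μ B S m ψ + l m * Yt μ B R S m ψ) := by
  have hlb : 0 ≤ lb := (abs_nonneg _).trans (hl 0)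
  have h1 : ∑ m ∈ Lset R, (γL * occ μ B S m ψ + bog (τ m) (S.card * l m) * nq (ipB μ) ψ -
      lb * occ μ B S m ψ - 2 * lb * |cub μ B R S m ψ| + l m * exch μ B S m ψ) ≤
      ∑ m ∈ Lset R, (κ m * occ μ B S m ψ + l m * Yt μ B R S m ψ) := by
    refine Finset.sum_le_sum fun m hm => ?_
    have hb := bog_mode hA m (hτ m (Finset.ne_of_mem_erase hm)) (hlL m hm) ψ
    have ho : 0 ≤ occ μ B S m ψ := occ_nonneg
    have k1 := mul_le_mul_of_nonneg_right (hκL m hm) ho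
    have k2 := mul_le_mul_of_nonneg_right ((le_abs_self _).trans (hl m)) ho
    have k3 : -(lb * |cub μ B R S m ψ|) ≤ l m * cub μ B R S m ψ := by
      have h := neg_abs_le (l m * cub μ B R S m ψ)
      rw [abs_mul] at h
      have h' := mul_le_mul_of_nonneg_right (hl m) (abs_nonneg (cub μ B R S m ψ))
      linarith
    rw [Yt_low hA hm]
    linarith
  simp only [Finset.sum_add_distrib, Finset.sum_sub_distrib, ← Finset.mul_sum,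
    ← Finset.sum_mul] at h1
  rw [← nL_eq hA] at h1
  have h2 := mul_le_mul_of_nonneg_left (cub_le hA hL) (mul_nonneg (by norm_num : (0 : ℝ) ≤ 2) hlb)
  rw [Finset.sum_add_distrib]
  linarith

/-- The general lower bound. Put `n = S.card`, `PP = sPP`, `PL = sPL`, `rs = ∑ r`.
`hasSum_split` for `a m = κ m occ m + l m Yt m - (γH - 2 e₃ n²) (if High then occ else 0)` with
`K = -(l' 0 / 2 + e₁ - rs) (PP + 4 PL) - e₂ (…) - 64 e₃ (M+1) card n nP` (`high_total`), then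
`pot_ge`, `pq_eig` (twice), `pq_le`, `Yt_zero`, `Yt_low`. The terms with `l'` combine to
`-∑ (l' 0 - l' m) exch m ≥ -e₄ PL` (`sPL_sym`); `l 0 (PP / 2 + PL)` is bounded by `sPP_sPL_ge`,
`rs PP` by `sPP_ge`, the low modes by `bog_mode` and `cub_le`; `nP = nL + nH`. -/
theorem gen (hA : Act μ B S) (hS : Sym S ψ) (hL : LowA (Lp B R) S M ψ)
    {W G G' b : BF (R3 × R3)} {l l' κ τ r : M3 → ℝ} {lb b₀ e₁ e₂ e₃ e₄ e₅ θ γL γH Γ T : ℝ}
    (hG : B.Eig G l) (hG' : B.Eig G' l')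
    (hpt : ∀ x ∈ B.set, ∀ y ∈ B.set, ∀ α β : ℝ, 2 * G.1 (x, y) * α * β -
      (G.1 (x, y) - G'.1 (x, y) + b.1 (x, y)) * β ^ 2 ≤ W.1 (x, y) * α ^ 2)
    (hb : ∀ z, 0 ≤ b.1 z)
    (hb0 : ∫ x, ∫ y, b.1 (x, y) ∂(B.μ : Measure R3) ∂(B.μ : Measure R3) ≤ b₀)
    (hT : HasSum (fun m => κ m * occ μ B S m ψ) T) (hκ0 : 0 ≤ κ 0)
    (hκL : ∀ m ∈ Lset R, τ m + γL ≤ κ m) (hκH : ∀ m, High R m → τ m + γH ≤ κ m)
    (hτ : ∀ m, m ≠ 0 → 0 < τ m)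
    (hl : ∀ m, |l m| ≤ lb) (hl0 : 0 ≤ l 0) (hlL : ∀ m ∈ Lset R, 0 ≤ l m)
    (hr : ∀ m ∈ Lset R, 0 ≤ r m) (he₅ : ∑ m ∈ Lset R, r m ≤ e₅)
    (he₁ : ∀ F : Finset M3, (∀ m ∈ F, High R m) →
      ∑ m ∈ F, l m ^ 2 / (4 * τ m) + ∑ m ∈ Lset R, r m ≤ l' 0 / 2 + e₁) (he₁0 : 0 ≤ e₁)
    (he₂ : ∀ F : Finset M3, (∀ m ∈ F, High R m ∧ ¬Bulk R m) →
      ∑ m ∈ F, l m ^ 2 / (4 * τ m) ≤ e₂)
    (he₃ : ∀ m, High R m → l m ^ 2 / (4 * τ m) ≤ e₃) (he₃0 : 0 ≤ e₃)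
    (he₄ : ∀ m ∈ Lset R, l' 0 - l' m ≤ e₄) (he₄0 : 0 ≤ e₄) (hθ : 0 < θ)
    (hΓ : 2 * lb * √(8 * (Lset R).card * M * S.card) +
      64 * e₃ * (M + 1) * (Lset R).card * S.card + 2 * S.card * e₅ ≤ Γ)
    (hγL : lb * (M + 1) +
      S.card * (e₄ + 4 * e₁ + 32 * b₀ * (Lset R).card + 32 * e₂ * (1 + 1 / θ)) + Γ ≤ γL)
    (hγH : 2 * e₃ * (S.card : ℝ) ^ 2 + lb * S.card + Γ ≤ γH) :
    (l 0 * (S.card * ((S.card : ℝ) - 1) / 2) +
        ∑ m ∈ Lset R, (bog (τ m) (S.card * l m) + (S.card : ℝ) ^ 2 * r m) - S.card * e₅ -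
        (e₁ + b₀ + θ * e₂) * (S.card : ℝ) ^ 2) * nq (ipB μ) ψ ≤ T + pot μ S W ψ := by
  have hsum := (hT.add (hasSum_Yt (R := R) hA hG ψ)).sub
    ((hasSum_nH (R := R) hA ψ).mul_left (γH - 2 * e₃ * (S.card : ℝ) ^ 2))
  have hPP : 0 ≤ sPP μ B S ψ := sPP_nonneg
  have hPL : 0 ≤ sPL μ B R S ψ := sPL_nonneg
  have he₂0 : 0 ≤ e₂ := by simpa using he₂ ∅ (by simp)
  have hb₀ : 0 ≤ b₀ :=
    (integral_nonneg fun x => integral_nonneg fun y => hb (x, y)).trans hb0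
  have hsplit := hasSum_split (R := R)
    (K := -((l' 0 / 2 + e₁ - ∑ m ∈ Lset R, r m) * (sPP μ B S ψ + 4 * sPL μ B R S ψ)) -
      e₂ * (θ * sPP μ B S ψ + 32 * (1 + 1 / θ) * sPL μ B R S ψ) -
      64 * e₃ * (M + 1) * (Lset R).card * S.card * (nL μ B R S ψ + nH μ B R S ψ)) hsum (by
    intro F hF
    have hh := high_total (l := l) (τ := τ) (e₂ := e₂) (e₃ := e₃) hA hL F hF
      (fun m hm => hτ m (ne_zero_of_high_gen (hF m hm))) hθ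
      (fun F' hF' hb' => he₂ F' fun m hm => ⟨hF m (hF' hm), hb' m hm⟩)
      (fun m hm => he₃ m (hF m hm)) he₃0
    have k1 : ∑ m ∈ F, (τ m * occ μ B S m ψ + 2 * e₃ * (S.card : ℝ) ^ 2 * occ μ B S m ψ +
        l m * Yt μ B R S m ψ) ≤
        ∑ m ∈ F, (κ m * occ μ B S m ψ + l m * Yt μ B R S m ψ -
          (γH - 2 * e₃ * (S.card : ℝ) ^ 2) * if High R m then occ μ B S m ψ else 0) := by
      refine Finset.sum_le_sum fun m hm => ?_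
      rw [if_pos (hF m hm)]
      have := mul_le_mul_of_nonneg_right (hκH m (hF m hm)) (occ_nonneg (μ := μ) (B := B) (S := S)
        (m := m) (ψ := ψ))
      linarith
    have k2 := mul_le_mul_of_nonneg_right (he₁ F hF)
      (add_nonneg hPP (mul_nonneg (by norm_num : (0 : ℝ) ≤ 4) hPL))
    rw [nP_eq (R := R) hA] at hh
    refine le_trans ?_ k1
    rw [Finset.sum_add_distrib, Finset.sum_add_distrib, ← Finset.mul_sum]
    linarith)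
  have hlow := low_gen hA hL hκL hτ hl hlL
  have hLs : ∑ m ∈ Lset R, (κ m * occ μ B S m ψ + l m * Yt μ B R S m ψ) =
      ∑ m ∈ Lset R, (κ m * occ μ B S m ψ + l m * Yt μ B R S m ψ -
        (γH - 2 * e₃ * (S.card : ℝ) ^ 2) * if High R m then occ μ B S m ψ else 0) :=
    Finset.sum_congr rfl fun m hm => by rw [if_neg (not_high_low_gen hm)]; ring
  rw [hLs, nP_eq (R := R) hA] at hlow
  have ha0 : l 0 * (sPP μ B S ψ + 2 * sPL μ B R S ψ) ≤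
      κ 0 * occ μ B S 0 ψ + l 0 * Yt μ B R S 0 ψ -
        (γH - 2 * e₃ * (S.card : ℝ) ^ 2) * if High R 0 then occ μ B S 0 ψ else 0 := by
    rw [if_neg not_high_zero_gen, Yt_zero hA]
    have := mul_nonneg hκ0 (occ_nonneg (μ := μ) (B := B) (S := S) (m := 0) (ψ := ψ))
    linarith
  have hl' : l' 0 * sPL μ B R S ψ - e₄ * sPL μ B R S ψ ≤
      ∑ m ∈ Lset R, l' m * exch μ B S m ψ := by
    rw [sPL_sym hA hS, Finset.mul_sum, Finset.mul_sum, ← Finset.sum_sub_distrib]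
    refine Finset.sum_le_sum fun m hm => ?_
    have := mul_le_mul_of_nonneg_right (he₄ m hm) (exch_nonneg hA hS m)
    linarith
  have hPP2 := sPP_ge hA ψ
  rw [nP_eq (R := R) hA] at hPP2
  rw [Finset.sum_add_distrib, ← Finset.mul_sum]
  exact final_gen ((psd_ipB μ).nq_nonneg ψ) hPL nL_nonneg nH_nonneg (Nat.cast_nonneg _)
    (Nat.cast_nonneg _) (Nat.cast_nonneg _) hl0 ((le_abs_self _).trans (hl 0)) hb₀ he₁0 he₂0 he₄0
    hθ.le (by positivity) (Finset.sum_nonneg hr) he₅ hsplit rfl (pot_ge hA hG.symm hpt ψ)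
    (pq_eig hA hG ψ) (pq_eig hA hG' ψ) (pq_le hA hb hb0 ψ) ha0 hlow hl' (sPP_le hA ψ)
    (sPL_le hA ψ) hPP2 (sPP_sPL_ge hA hL) hΓ hγL hγH

end Pool.Agent.BoseLHY
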