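import Pool.Agent.Lib.MP_dec75e_mp.L.Par3

/-! The Neumann basis of a box. -/

open MeasureTheory Finset Function
open scoped Real

noncomputable section

namespace Pool.Agent.BoseLHY

open Pool.Agent.BoseTail

variable (B : Box)

theorem map_update_grad3 (ν : Fin 3 → Measure ℝ) [∀ c, IsProbabilityMeasure (ν c)] (c : Fin 3) :
    MeasurePreserving (fun p : R3 × ℝ => update p.1 c p.2) ((Measure.pi ν).prod (ν c))
      (Measure.pi ν) := by
  refine ⟨measurable_update', ?_⟩
  symm
  refine Measure.pi_eq fun s hs => ?_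
  rw [Measure.map_apply measurable_update' (MeasurableSet.univ_pi hs)]
  have h : (fun p : R3 × ℝ => update p.1 c p.2) ⁻¹' Set.pi Set.univ s =
      (Set.pi Set.univ (update s c Set.univ)) ×ˢ s c := by
    ext ⟨x, t⟩
    simp only [Set.mem_preimage, Set.mem_pi, Set.mem_univ, true_imp_iff, Set.mem_prod]
    constructor
    · intro h
      refine ⟨fun i => ?_, by simpa using h c⟩
      by_cases hi : i = c
      · subst hi; simp
      · have := h i
        rw [update_of_ne hi] at this
        rw [update_of_ne hi]; exact this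
    · rintro ⟨h1, h2⟩ i
      by_cases hi : i = c
      · subst hi; simpa using h2
      · have := h1 i
        rw [update_of_ne hi] at this
        rw [update_of_ne hi]; exact this
  rw [h, Measure.prod_prod, Measure.pi_pi]
  rw [← Finset.mul_prod_erase univ _ (mem_univ c), ← Finset.mul_prod_erase univ
    (fun i => ν i (s i)) (mem_univ c)]
  have h2 : ∏ i ∈ univ.erase c, ν i (update s c Set.univ i) = ∏ i ∈ univ.erase c, ν i (s i) :=
    Finset.prod_congr rfl fun i hi => by rw [update_of_ne (Finset.ne_of_mem_erase hi)]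
  rw [h2, update_self, measure_univ, one_mul, mul_comm]

theorem integral_update_grad3 (ν : Fin 3 → Measure ℝ) [∀ c, IsProbabilityMeasure (ν c)] (c : Fin 3)
    {g : R3 → ℝ} (hg : BM g) :
    ∫ x, g x ∂Measure.pi ν = ∫ x, ∫ t, g (update x c t) ∂ν c ∂Measure.pi ν := by
  have h := map_update_grad3 ν c
  have hb : BM fun p : R3 × ℝ => g (update p.1 c p.2) := hg.comp measurable_update'
  rw [← integral_prod _ hb.integrable]
  conv_lhs => rw [← h.map_eq]
  rw [integral_map h.measurable.aemeasurable hg.1.aestronglyMeasurable]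

theorem hd_cs_grad3 (m : ℕ) (θ : ℝ) : HasDerivAt (cs m) (-(m : ℝ) * sn m θ) θ := by
  unfold cs sn
  by_cases hm : m = 0
  · subst hm
    simpa using hasDerivAt_const θ (1 : ℝ)
  · simp only [hm, if_false]
    have h := (((hasDerivAt_id θ).const_mul (m : ℝ)).cos).const_mul (√2)
    refine h.congr_deriv ?_
    simp only [id]
    ring

theorem upd_add_grad3 (x : R3) (c : Fin 3) (t u : ℝ) :
    update x c t + Pi.single c u = update x c (t + u) := by
  funext i
  by_cases hi : i = c
  · subst hi; simp
  · simp [hi]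

theorem prod_upd_grad3 (g : Fin 3 → ℝ → ℝ) (x : R3) (c : Fin 3) (t : ℝ) :
    ∏ i, g i (update x c t i) = g c t * ∏ i ∈ univ.erase c, g i (x i) := by
  rw [← Finset.mul_prod_erase univ _ (mem_univ c), update_self]
  congr 1
  exact Finset.prod_congr rfl fun i hi => by rw [update_of_ne (Finset.ne_of_mem_erase hi)]

/-- The modes are differentiable with bounded measurable derivatives. -/
theorem Box.e_deriv (m : M3) (c : Fin 3) : ∃ e' : BF R3, ∀ x,
    HasDerivAt (fun t : ℝ => (B.e m).1 (x + Pi.single c t)) (e'.1 x) 0 := by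
  have hb : BM fun x : R3 => (-(m c : ℝ) * sn (m c) (π * (x c - B.o c) / B.s c) * (π / B.s c)) *
      ∏ i ∈ univ.erase c, cs (m i) (π * (x i - B.o i) / B.s i) :=
    BM.mul (BM.mul (BM.mul (BM.const _) ((bm_sn (m c)).comp (measurable_pi_apply c))) (BM.const _))
      (BM.prod fun i _ => (bm_cs (m i)).comp (measurable_pi_apply i))
  refine ⟨⟨_, hb⟩, fun x => ?_⟩
  have h1 : (fun t : ℝ => (B.e m).1 (x + Pi.single c t)) = fun t =>
      cs (m c) (π * (x c + t - B.o c) / B.s c) *
        ∏ i ∈ univ.erase c, cs (m i) (π * (x i - B.o i) / B.s i) := by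
    funext t
    have h2 : x + Pi.single c t = update x c (x c + t) := by
      rw [← upd_add_grad3, update_eq_self]
    rw [h2, Box.e_apply]
    exact prod_upd_grad3 (fun i u => cs (m i) (π * (u - B.o i) / B.s i)) x c (x c + t)
  rw [h1]
  refine HasDerivAt.mul_const ?_ _
  have h3 : HasDerivAt (fun t : ℝ => π * (x c + t - B.o c) / B.s c) (π / B.s c) 0 := by
    have h := ((((hasDerivAt_id (0 : ℝ)).const_add (x c)).sub_const (B.o c)).const_mul π).div_const
      (B.s c)
    simpa using h
  have h4 := (hd_cs_grad3 (m c) (π * (x c + 0 - B.o c) / B.s c)).comp (0 : ℝ) h3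
  rw [add_zero] at h4
  exact h4

/-- Parseval for `f'` in the system with a sine in direction `c` (`Pars.pi3`, `pars_sn`,
`pars_cs`), and `ibp_sn` on the lines in direction `c`. -/
theorem Box.grad_pars (c : Fin 3) {f f' : R3 → ℝ} (hf : BM f) (hf' : BM f')
    (hd : ∀ x, HasDerivAt (fun t : ℝ => f (x + Pi.single c t)) (f' x) 0) :
    HasSum (fun m => B.p m c ^ 2 * (∫ x, (B.e m).1 x * f x ∂(B.μ : Measure R3)) ^ 2)
      (∫ x, f' x ^ 2 ∂(B.μ : Measure R3)) := by
  haveI := fun i => unif_prob (B.o i) (B.pos i)
  have hμ : (B.μ : Measure R3) = Measure.pi fun i => unif (B.o i) (B.s i) := rfl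
  let E : Fin 3 → ℕ → ℝ → ℝ := fun i k t =>
    if i = c then sn k (π * (t - B.o i) / B.s i) else cs k (π * (t - B.o i) / B.s i)
  have hE : ∀ i, Pars (unif (B.o i) (B.s i)) (E i) := by
    intro i
    by_cases hi : i = c
    · simp only [E, hi, if_true]; exact pars_sn (B.pos c)
    · simp only [E, hi, if_false]; exact pars_cs (B.pos i)
  have hP := Pars.pi3 (fun i => unif (B.o i) (B.s i)) hE
  have hS := hP.2 f' hf'
  rw [hμ]
  convert hS using 1
  funext m
  rw [← mul_pow, ← neg_sq, ← neg_mul]
  congr 1
  rw [integral_update_grad3 _ c ((hP.1 m).mul hf'),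
    integral_update_grad3 _ c ((bmOf (B.e m)).mul hf), ← integral_const_mul]
  refine integral_congr_ae (Filter.Eventually.of_forall fun x => ?_)
  have hder : ∀ t, HasDerivAt (fun u => f (update x c u)) (f' (update x c t)) t := by
    intro t
    have h := hd (update x c t)
    simp only [upd_add_grad3] at h
    have h2 : HasDerivAt (fun u : ℝ => u - t) 1 t := (hasDerivAt_id t).sub_const t
    have h3 : HasDerivAt (fun u : ℝ => f (update x c (t + u))) (f' (update x c t)) (t - t) := by
      rw [sub_self]; exact h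
    have h4 := HasDerivAt.comp (h := fun u : ℝ => u - t) t h3 h2
    simp only [mul_one] at h4
    have h5 : ((fun u => f (update x c (t + u))) ∘ fun u => u - t) = fun u => f (update x c u) := by
      funext u
      simp
    rw [h5] at h4
    exact h4
  have hib := ibp_sn (o := B.o c) (B.pos c) hder (hf'.comp (measurable_update x)) (m c)
  have e1 : ∀ t, (B.e m).1 (update x c t) * f (update x c t) =
      (∏ i ∈ univ.erase c, cs (m i) (π * (x i - B.o i) / B.s i)) *
        (cs (m c) (π * (t - B.o c) / B.s c) * f (update x c t)) := by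
    intro t
    have h := prod_upd_grad3 (fun i u => cs (m i) (π * (u - B.o i) / B.s i)) x c t
    have h' : (B.e m).1 (update x c t) = ∏ i, cs (m i) (π * (update x c t i - B.o i) / B.s i) := rfl
    rw [h', h]; ring
  have e2 : ∀ t, (∏ i, E i (m i) (update x c t i)) * f' (update x c t) =
      (∏ i ∈ univ.erase c, cs (m i) (π * (x i - B.o i) / B.s i)) *
        (sn (m c) (π * (t - B.o c) / B.s c) * f' (update x c t)) := by
    intro t
    have h := prod_upd_grad3 (fun i u => E i (m i) u) x c t
    have h' : ∏ i ∈ univ.erase c, E i (m i) (x i) =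
        ∏ i ∈ univ.erase c, cs (m i) (π * (x i - B.o i) / B.s i) :=
      Finset.prod_congr rfl fun i hi => by simp only [E, Finset.ne_of_mem_erase hi, if_false]
    rw [h, h']
    simp only [E, if_true]
    ring
  simp only [e1, e2, integral_const_mul]
  rw [hib]
  simp only [Box.p]
  ring

end Pool.Agent.BoseLHY
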