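import Pool.Agent.Lib.MP_dec75e_mp.L.Sharp
import Pool.Agent.Lib.MP_dec75e_mp.L.Mix2
import Pool.Agent.Lib.MP_dec75e_mp.L.Cell

/-! The second order lower bound in a large cube. -/

open MeasureTheory Finset Function
open scoped Real

noncomputable section

namespace Pool.Agent.BoseLHY

open Pool.Agent.BoseTail

theorem vol_cube_grid {B : Box} {l : ℝ} (hB : B.Cube l) : B.vol = l ^ 3 := by
  unfold Box.vol
  rw [Finset.prod_congr rfl fun c _ => hB c]
  simp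

theorem p_cube_grid {B : Box} {l : ℝ} (hB : B.Cube l) (m : M3) : B.p m = pk l m := by
  funext c
  unfold Box.p pk
  rw [hB c]

theorem pk_zero_grid (l : ℝ) : pk l 0 = 0 := by
  funext c
  simp [pk]

theorem hasSum_grid {ι : Type} [Fintype ι] [DecidableEq ι] {μ : ι → ProbabilityMeasure R3}
    {Q : Box} {S : Finset ι} {l r : ℝ} (hl : 0 < l) (hQ : Q.Cube l) (hA : Act μ Q S) {h : BF R3}
    (he : Ev h.1) (hs : Supp h.1 r) (hr : r ≤ l) (ψ : Vs ι) :
    HasSum (fun m => (ct h.1 (pk l m) - ct h.1 0) * occ μ Q S m ψ)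
      (-(l ^ 3 / 2) * ∑ i ∈ S, dform μ i (Q.symk h) ψ) := by
  have hE := Q.eig_symk he hs (fun c => by rw [hQ c]; exact hr)
  have h1 := (dform_hasSum_occ hE hA ψ).mul_left (-(l ^ 3 / 2))
  refine (congrArg (fun f => HasSum f _) ?_).mp h1
  funext m
  rw [p_cube_grid hQ, p_cube_grid hQ, vol_cube_grid hQ, pk_zero_grid]
  have : l ^ 3 ≠ 0 := by positivity
  field_simp
  ring

/-- `loc_bound` for the partition `cell B.o K l _ 0` with `G k = -(μ₀ l³ / 2) • symk h`;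
`dform_hasSum_occ`, `eig_symk`, `sharp`, `glue_smul`. -/
theorem grid (D : Dat) : ∃ C ε₀ y₀ : ℝ, 1 ≤ C ∧ 0 < ε₀ ∧ ε₀ ≤ 1 / 2 ∧ 0 < y₀ ∧ y₀ ≤ 1 ∧
    ∀ (y l : ℝ) (hl : 0 < l) (R K : ℕ) (h : BF R3) (r : ℝ), Scale y l R → y ≤ y₀ → Ev h.1 →
      Supp h.1 r → r ≤ l →
      (∀ m, |ct h.1 (pk l m) - ct h.1 0| ≤ ε₀ * min (D.tm y l m) 1) →
    ∀ {ι : Type} [Fintype ι] [DecidableEq ι] (μ : ι → ProbabilityMeasure R3) (B : Box)
      (S : Finset ι) (ψ : Vs ι) (χ : BF R3), Wgt χ → (∀ k, D.Gd χ (cell B.o K l hl 0 k) y l) →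
      B.Cube (K * l) → Act μ B S → Sym S ψ → C1 ψ →
      (D.mu0 y * S.card + (K : ℝ) ^ 3 *
          (D.tgt y l R (fun m => ct h.1 (pk l m) - ct h.1 0) - C * y ^ 789)) * nq (ipB μ) ψ ≤
        En μ S (D.W χ) ψ - D.mu0 y / 2 * B.vol * ∑ i ∈ S,
          dform μ i (glue (cell B.o K l hl 0) fun k => (cell B.o K l hl 0 k).symk h) ψ := by
  obtain ⟨C, ε₀, y₀, hC, hε, hε', hy₀, hy₀', H⟩ := sharp D
  refine ⟨C, ε₀, y₀, hC, hε, hε', hy₀, hy₀', ?_⟩
  intro y l hl R K h r hS hy he hs hr hb ι _ _ μ B S ψ χ hχ hG hB hA hSym hψ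
  have hP := part_cell hl hB 0
  have key := loc_bound (A₀ := D.mu0 y)
    (A₁ := fun _ => D.tgt y l R (fun m => ct h.1 (pk l m) - ct h.1 0) - C * y ^ 789)
    hA hP (D.W0 hχ) hψ (fun k => (-(D.mu0 y * l ^ 3 / 2)) • (cell B.o K l hl 0 k).symk h) (by
      intro k μ' S' hS' hA'
      have hQ := cell_cube B.o hl k
      have h1 := H y l R _ hS hy hb μ' _ S' ψ _ χ (hG k) hQ hA' (hSym.subset hS') hψ
        (hasSum_grid hl hQ hA' he hs hr ψ)
      simp only [dform_smul]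
      rw [← Finset.mul_sum]
      calc _ = (D.mu0 y * S'.card + D.tgt y l R (fun m => ct h.1 (pk l m) - ct h.1 0) -
            C * y ^ 789) * nq (ipB μ') ψ := by ring
        _ ≤ _ := h1
        _ = _ := by ring)
  have hg : (glue (cell B.o K l hl 0) fun k => (B.vol / (cell B.o K l hl 0 k).vol) •
      (-(D.mu0 y * l ^ 3 / 2)) • (cell B.o K l hl 0 k).symk h) =
      (-(D.mu0 y / 2 * B.vol)) • glue (cell B.o K l hl 0) fun k => (cell B.o K l hl 0 k).symk h := by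
    rw [← glue_smul]
    congr 1
    funext k
    rw [smul_smul, vol_cube_grid (cell_cube B.o hl k)]
    congr 1
    have : l ^ 3 ≠ 0 := by positivity
    field_simp
  rw [hg] at key
  simp only [dform_smul] at key
  rw [← Finset.mul_sum, Finset.sum_const, Finset.card_univ, Fintype.card_fun, Fintype.card_fin,
    Fintype.card_fin, nsmul_eq_mul] at key
  push_cast at key
  linarith

end Pool.Agent.BoseLHY
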