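import Pool.Agent.Lib.MP_dec75e_mp.L.Small

/-! Boxes smaller than the healing length. -/

open MeasureTheory Finset Function
open scoped Real

noncomputable section

namespace Pool.Agent.BoseLHY

open Pool.Agent.BoseTail

/-- Strong induction on `S.card`: remove groups of `n₀ = ⌊c s⌋` particles (`En_sdiff`); for a
full group `n₀² / vol ≥ 2 r n₀`, for the last group `n² / vol ≥ 2 r n - r² vol`. -/
theorem cell_bound (D : Dat) : ∃ C c s₀ : ℝ, 1 ≤ C ∧ 0 < c ∧ c ≤ 1 ∧ 1 ≤ s₀ ∧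
    ∀ {ι : Type} [Fintype ι] [DecidableEq ι] (μ : ι → ProbabilityMeasure R3) (B : Box)
      (S : Finset ι) (ψ : Vs ι) (s r : ℝ), s₀ ≤ s → B.Sz s → Act μ B S → Sym S ψ → C1 ψ →
      0 ≤ r → r * s ^ 2 ≤ c → ∀ (χ : BF R3) (Λ : ℝ), Wgt χ → Real.log s ≤ Λ →
      D.Cov χ B (1 + Λ)⁻¹ →
      (2 * π * D.a * (2 * r * S.card - r ^ 2 * B.vol) - C * (1 + Λ) * S.card / s ^ 3) *
        nq (ipB μ) ψ + nP μ B S ψ / (4 * s ^ 2) ≤ En μ S (D.W χ) ψ := by
  obtain ⟨C, c, s₀, hC, hc0, hc1, hs₀, H⟩ := small D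
  refine ⟨C, c / 32, max s₀ (2 / c), hC, by positivity, by linarith, le_max_of_le_left hs₀, ?_⟩
  intro ι _ _ μ B S ψ s r hs hB hA hS hψ hr hrs χ Λ hχ hΛ hcov
  have hs1 : s₀ ≤ s := le_trans (le_max_left _ _) hs
  have hs2 : 2 / c ≤ s := le_trans (le_max_right _ _) hs
  have hspos : 0 < s := by linarith
  have hcs : 2 ≤ c * s := by
    rw [div_le_iff₀ hc0] at hs2; linarith
  obtain ⟨n₀, hn₀⟩ : ∃ n₀ : ℕ, n₀ = ⌊c * s⌋₊ := ⟨_, rfl⟩
  have hn1 : (n₀ : ℝ) ≤ c * s := by rw [hn₀]; exact Nat.floor_le (by linarith)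
  have hn2 : c * s < n₀ + 1 := by rw [hn₀]; exact Nat.lt_floor_add_one _
  have hn3 : 0 < n₀ := by
    have : (0 : ℝ) < n₀ := by linarith
    exact_mod_cast this
  have hvol := B.vol_pos
  have hvol2 := hB.vol.2
  have hq : 0 ≤ nq (ipB μ) ψ := (psd_ipB μ).nq_nonneg ψ
  have ha : 0 ≤ 2 * π * D.a := by have := D.ha; positivity
  have hfull : 2 * r * B.vol ≤ n₀ := by
    have e1 : 2 * r * B.vol ≤ 2 * r * (8 * s ^ 3) := by gcongr
    have e2 : 2 * r * (8 * s ^ 3) = 16 * (r * s ^ 2) * s := by ring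
    have e3 : 16 * (r * s ^ 2) * s ≤ 16 * (c / 32) * s := by gcongr
    linarith
  have key : ∀ n : ℕ, ∀ T : Finset ι, T.card = n → T ⊆ S →
      (2 * π * D.a * (2 * r * T.card - r ^ 2 * B.vol) - C * (1 + Λ) * T.card / s ^ 3) *
        nq (ipB μ) ψ + nP μ B T ψ / (4 * s ^ 2) ≤ En μ T (D.W χ) ψ := by
    intro n
    induction n using Nat.strong_induction_on with
    | _ n ih =>
      intro T hT hTS
      by_cases hle : T.card ≤ n₀
      · have h1 : (T.card : ℝ) ≤ c * s := le_trans (by exact_mod_cast hle) hn1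
        have h2 := H μ B T ψ s hs1 hB (fun i hi => hA i (hTS hi))
          (fun i hi j hj => hS i (hTS hi) j (hTS hj)) hψ h1 χ Λ hχ hΛ hcov
        refine le_trans ?_ h2
        have h3 : 2 * r * T.card - r ^ 2 * B.vol ≤ (T.card : ℝ) ^ 2 / B.vol := by
          rw [le_div_iff₀ hvol]
          nlinarith [sq_nonneg ((T.card : ℝ) - r * B.vol)]
        have h4 : 2 * π * D.a * (2 * r * T.card - r ^ 2 * B.vol) ≤
            2 * π * D.a * (T.card : ℝ) ^ 2 / B.vol := by
          rw [mul_div_assoc]; exact mul_le_mul_of_nonneg_left h3 ha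
        gcongr
      · push Not at hle
        obtain ⟨T', hT'T, hT'⟩ := Finset.exists_subset_card_eq hle.le
        have hT'S : T' ⊆ S := hT'T.trans hTS
        have h1 : (T'.card : ℝ) ≤ c * s := by rw [hT']; exact hn1
        have h2 := H μ B T' ψ s hs1 hB (fun i hi => hA i (hT'S hi))
          (fun i hi j hj => hS i (hT'S hi) j (hT'S hj)) hψ h1 χ Λ hχ hΛ hcov
        have hcard : (T \ T').card + T'.card = T.card := Finset.card_sdiff_add_card_eq_card hT'T
        have h3 := ih (T \ T').card (by omega) (T \ T') rfl (Finset.sdiff_subset.trans hTS)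
        have h4 := En_sdiff (μ := μ) (D.W0 hχ) hT'T ψ
        have h5 : nP μ B T ψ = nP μ B (T \ T') ψ + nP μ B T' ψ := by
          unfold nP; rw [Finset.sum_sdiff hT'T]
        have h6 : (T.card : ℝ) = (T \ T').card + T'.card := by exact_mod_cast hcard.symm
        have h7 : 2 * r * T'.card ≤ (T'.card : ℝ) ^ 2 / B.vol := by
          rw [le_div_iff₀ hvol, hT']
          have : (0 : ℝ) ≤ n₀ := Nat.cast_nonneg _
          nlinarith
        have h8 : 2 * π * D.a * (2 * r * T'.card) * nq (ipB μ) ψ ≤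
            2 * π * D.a * (T'.card : ℝ) ^ 2 / B.vol * nq (ipB μ) ψ := by
          rw [mul_div_assoc]
          exact mul_le_mul_of_nonneg_right (mul_le_mul_of_nonneg_left h7 ha) hq
        rw [h5, h6]
        have h9 : (2 * π * D.a * (2 * r * (((T \ T').card : ℝ) + T'.card) - r ^ 2 * B.vol) -
              C * (1 + Λ) * (((T \ T').card : ℝ) + T'.card) / s ^ 3) * nq (ipB μ) ψ +
              (nP μ B (T \ T') ψ + nP μ B T' ψ) / (4 * s ^ 2) =
            ((2 * π * D.a * (2 * r * ((T \ T').card : ℝ) - r ^ 2 * B.vol) -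
              C * (1 + Λ) * ((T \ T').card : ℝ) / s ^ 3) * nq (ipB μ) ψ +
              nP μ B (T \ T') ψ / (4 * s ^ 2)) +
            (2 * π * D.a * (2 * r * T'.card) * nq (ipB μ) ψ -
              C * (1 + Λ) * (T'.card : ℝ) / s ^ 3 * nq (ipB μ) ψ +
              nP μ B T' ψ / (4 * s ^ 2)) := by ring
        rw [h9]
        rw [sub_mul] at h2
        linarith
  exact key S.card S rfl subset_rfl

end Pool.Agent.BoseLHY
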