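import Pool.Agent.Lib.MP_dec75e_mp.L.Ct

/-! Truncation of the perturbation. -/

open MeasureTheory Finset Function
open scoped Real

noncomputable section

namespace Pool.Agent.BoseLHY

open Pool.Agent.BoseTail

theorem norm_le_hh {z z' : R3} (h : ∀ c, |z c| ≤ |z' c|) : ‖z‖ ≤ ‖z'‖ :=
  (pi_norm_le_iff_of_nonneg (norm_nonneg _)).2 fun c => (h c).trans (norm_le_pi_norm z' c)

theorem int4_hh : Integrable fun z : R3 => 1 / (1 + ‖z‖) ^ 4 := by
  have h := integrable_one_add_norm (E := R3) (μ := volume) (r := 4) (by simp; norm_num)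
  refine h.congr (Filter.Eventually.of_forall fun z => ?_)
  have h0 : (0 : ℝ) ≤ 1 + ‖z‖ := by positivity
  show (1 + ‖z‖) ^ (-4 : ℝ) = 1 / (1 + ‖z‖) ^ 4
  rw [Real.rpow_neg h0, one_div]
  congr 1
  exact_mod_cast Real.rpow_natCast (1 + ‖z‖) 4

theorem env4_hh {κ : ℝ} (hκ : 0 < κ) :
    Integrable (fun z : R3 => κ ^ 3 / (1 + κ * ‖z‖) ^ 4) ∧
      ∫ z : R3, κ ^ 3 / (1 + κ * ‖z‖) ^ 4 = ∫ z : R3, 1 / (1 + ‖z‖) ^ 4 := by
  have e : (fun z : R3 => κ ^ 3 / (1 + κ * ‖z‖) ^ 4) =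
      fun z : R3 => κ ^ 3 * (fun x : R3 => 1 / (1 + ‖x‖) ^ 4) (κ • z) := by
    funext z
    simp only [norm_smul, Real.norm_eq_abs, abs_of_pos hκ]
    ring
  rw [e]
  refine ⟨(int4_hh.comp_smul hκ.ne').const_mul _, ?_⟩
  rw [integral_const_mul, Measure.integral_comp_smul volume (fun x : R3 => 1 / (1 + ‖x‖) ^ 4) κ]
  have h3 : 0 < κ ^ 3 := by positivity
  simp only [Module.finrank_fin_fun, smul_eq_mul, abs_of_pos (inv_pos.2 h3)]
  rw [← mul_assoc, mul_inv_cancel₀ h3.ne', one_mul]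

theorem env_le_hh {κ : ℝ} (hκ : 0 < κ) {i j : ℕ} (hj : i ≤ j) (z : R3) :
    κ ^ 3 / (1 + κ * ‖z‖) ^ j ≤ κ ^ 3 / (1 + κ * ‖z‖) ^ i := by
  have h1 : 1 ≤ 1 + κ * ‖z‖ := le_add_of_nonneg_right (by positivity)
  exact div_le_div_of_nonneg_left (by positivity) (by positivity) (pow_le_pow_right₀ h1 hj)

theorem integrable_env {κ : ℝ} (hκ : 0 < κ) {j : ℕ} (hj : 4 ≤ j) :
    Integrable (fun z : R3 => κ ^ 3 / (1 + κ * ‖z‖) ^ j) ∧
      ∫ z : R3, κ ^ 3 / (1 + κ * ‖z‖) ^ j ≤ ∫ z : R3, 1 / (1 + ‖z‖) ^ 4 := by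
  have hc : Continuous fun z : R3 => κ ^ 3 / (1 + κ * ‖z‖) ^ j :=
    continuous_const.div (by fun_prop) fun z => by positivity
  have hi : Integrable fun z : R3 => κ ^ 3 / (1 + κ * ‖z‖) ^ j :=
    (env4_hh hκ).1.mono' hc.aestronglyMeasurable (Filter.Eventually.of_forall fun z => by
      rw [Real.norm_eq_abs, abs_of_nonneg (by positivity)]
      exact env_le_hh hκ hj z)
  refine ⟨hi, ?_⟩
  rw [← (env4_hh hκ).2]
  exact integral_mono hi (env4_hh hκ).1 fun z => env_le_hh hκ hj z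

theorem mono_env {κ A : ℝ} (hκ : 0 < κ) (hA : 0 ≤ A) (j : ℕ) :
    Mono fun z : R3 => A * (κ ^ 3 / (1 + κ * ‖z‖) ^ j) := by
  intro z z' h
  have h1 := norm_le_hh h
  show A * (κ ^ 3 / (1 + κ * ‖z'‖) ^ j) ≤ A * (κ ^ 3 / (1 + κ * ‖z‖) ^ j)
  gcongr

theorem bound_hh {u : R3 → ℝ} {c κ : ℝ} (hκ : 0 < κ) (hc : 0 ≤ c) {j : ℕ} (hj : 4 ≤ j)
    (hu : ∀ z, |u z| ≤ c * (κ ^ 3 / (1 + κ * ‖z‖) ^ j)) :
    |∫ z, u z| ≤ c * ∫ z : R3, 1 / (1 + ‖z‖) ^ 4 := by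
  have h1 := norm_integral_le_of_norm_le (f := u) ((integrable_env hκ hj).1.const_mul c)
    (Filter.Eventually.of_forall hu)
  rw [integral_const_mul] at h1
  exact h1.trans (mul_le_mul_of_nonneg_left (integrable_env hκ hj).2 hc)

theorem integrable_hh {u : R3 → ℝ} {c κ : ℝ} (hκ : 0 < κ) {j : ℕ} (hj : 4 ≤ j)
    (hm : Measurable u) (hu : ∀ z, |u z| ≤ c * (κ ^ 3 / (1 + κ * ‖z‖) ^ j)) : Integrable u :=
  ((integrable_env hκ hj).1.const_mul c).mono' hm.aestronglyMeasurable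
    (Filter.Eventually.of_forall hu)

theorem ct_diff_hh {u : R3 → ℝ} (hu : Integrable u) (k : R3) :
    ct u k - ct u 0 = ∫ z, u z * (∏ c, Real.cos (k c * z c) - 1) := by
  rw [ct_zero, ct, ← integral_sub (integrable_ct hu k) hu]
  congr 1
  funext z
  ring

theorem cos_le_hh (k z : R3) : |∏ c, Real.cos (k c * z c) - 1| ≤ 2 ∧
    |∏ c, Real.cos (k c * z c) - 1| ≤ sq3 k * ‖z‖ ^ 2 := by
  obtain ⟨h0, h1⟩ := one_sub_prod_cos fun c => k c * z c
  rw [abs_sub_comm, abs_of_nonneg h0]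
  refine ⟨h1.trans (min_le_left _ _), h1.trans ((min_le_right _ _).trans ?_)⟩
  have h2 : sq3 (fun c => k c * z c) ≤ sq3 k * ‖z‖ ^ 2 := by
    unfold sq3
    rw [sum_mul]
    refine sum_le_sum fun c _ => ?_
    rw [mul_pow]
    refine mul_le_mul_of_nonneg_left ?_ (sq_nonneg _)
    rw [← sq_abs]
    exact pow_le_pow_left₀ (abs_nonneg _) (norm_le_pi_norm z c) 2
  have h3 := sq3_nonneg fun c => k c * z c
  linarith

theorem env_mul_hh {κ : ℝ} (hκ : 0 < κ) (i j : ℕ) (z : R3) :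
    κ ^ 3 / (1 + κ * ‖z‖) ^ (i + j) * (1 + κ * ‖z‖) ^ j = κ ^ 3 / (1 + κ * ‖z‖) ^ i := by
  have h1 : (1 + κ * ‖z‖) ≠ 0 := by positivity
  rw [pow_add]
  field_simp

/-- The rescaled kernel `q z = κ³ ν (κ z)`, its truncation `h` at radius `r`, and the envelope
`H`. -/
theorem exists_trunc {ν : R3 → ℝ} {A : ℝ} (hν : Continuous ν) (he : Ev ν)
    (hA : ∀ z, |ν z| ≤ A / (1 + ‖z‖) ^ 8) : ∃ C : ℝ, 1 ≤ C ∧ ∀ κ r ε : ℝ, 0 < κ → 0 < r →
    ∃ (h : BF R3) (H : R3 → ℝ), Ev h.1 ∧ Supp h.1 r ∧ Mono H ∧ Integrable H ∧ (∀ z, 0 ≤ H z) ∧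
      (∀ z, |h.1 z| ≤ H z) ∧ Integrable (fun z => κ ^ 3 * ν (κ • z)) ∧
      (∀ k, |ct h.1 k - ct h.1 0| ≤ |ε| * C * min (sq3 k / κ ^ 2) 1) ∧
      (∀ k, |ct h.1 k - ct h.1 0 - ε * (ct ν (κ⁻¹ • k) - ct ν 0)| ≤ |ε| * C / (κ * r)) ∧
      ∀ (d : R3 → ℝ) (G : ℝ), BM d → (∀ z, 0 ≤ d z) → (∀ z, d z ≤ G * (1 + κ * ‖z‖) ^ 2) →
        ∫ z, H z * d z ≤ |ε| * C * G ∧
        |(∫ z, h.1 z * d z) - ε * ∫ z, κ ^ 3 * ν (κ • z) * d z| ≤ |ε| * C * G / (κ * r) := by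
  have hA0 : 0 ≤ A := by simpa using (abs_nonneg _).trans (hA 0)
  obtain ⟨I, hI⟩ : ∃ I : ℝ, I = ∫ z : R3, 1 / (1 + ‖z‖) ^ 4 := ⟨_, rfl⟩
  have hI0 : 0 ≤ I := hI ▸ integral_nonneg fun z => by positivity
  have hAI : 0 ≤ A * I := mul_nonneg hA0 hI0
  refine ⟨1 + 2 * (A * I), by linarith, fun κ r ε hκ hr => ?_⟩
  have hε := abs_nonneg ε
  have hκr : 0 < κ * r := mul_pos hκ hr
  have ht : ∀ z : R3, 1 ≤ 1 + κ * ‖z‖ := fun z => le_add_of_nonneg_right (by positivity)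
  have hE : ∀ (j : ℕ) (z : R3), 0 ≤ κ ^ 3 / (1 + κ * ‖z‖) ^ j := fun j z => by positivity
  -- the rescaled kernel
  obtain ⟨q, hq⟩ : ∃ q : R3 → ℝ, q = fun z => κ ^ 3 * ν (κ • z) := ⟨_, rfl⟩
  have hqc : Continuous q := by rw [hq]; fun_prop
  have hqb : ∀ z, |q z| ≤ A * (κ ^ 3 / (1 + κ * ‖z‖) ^ 8) := fun z => by
    have h1 := hA (κ • z)
    rw [norm_smul, Real.norm_eq_abs, abs_of_pos hκ] at h1
    rw [hq]
    show |κ ^ 3 * ν (κ • z)| ≤ _
    rw [abs_mul, abs_of_pos (pow_pos hκ 3)]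
    calc κ ^ 3 * |ν (κ • z)| ≤ κ ^ 3 * (A / (1 + κ * ‖z‖) ^ 8) := by gcongr
      _ = _ := by ring
  have hqi : Integrable q := integrable_hh hκ (by norm_num) hqc.measurable hqb
  have hqe : Ev q := fun z z' h => by
    rw [hq]
    show κ ^ 3 * ν (κ • z) = κ ^ 3 * ν (κ • z')
    rw [he (κ • z) (κ • z') fun c => by simp [abs_mul, h c]]
  have hqB : BM fun z => ε * q z := ⟨(continuous_const.mul hqc).measurable, |ε| * (A * κ ^ 3),
    fun z => by
      rw [Real.norm_eq_abs, abs_mul]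
      refine mul_le_mul_of_nonneg_left ((hqb z).trans (mul_le_mul_of_nonneg_left ?_ hA0)) hε
      simpa using env_le_hh hκ (Nat.zero_le 8) z⟩
  obtain ⟨h, hh⟩ : ∃ h : BF R3, ∀ z, h.1 z = if ‖z‖ ≤ r then ε * q z else 0 :=
    ⟨⟨fun z => if ‖z‖ ≤ r then ε * q z else 0,
      BM.ite (measurableSet_le measurable_norm measurable_const) hqB (BM.const 0)⟩, fun _ => rfl⟩
  have hhb : ∀ z, |h.1 z| ≤ |ε| * A * (κ ^ 3 / (1 + κ * ‖z‖) ^ 8) := fun z => by
    rw [hh]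
    split_ifs
    · rw [abs_mul, mul_assoc]
      exact mul_le_mul_of_nonneg_left (hqb z) hε
    · rw [abs_zero]
      positivity
  have hhi : Integrable h.1 := integrable_hh hκ (by norm_num) (bmOf h).1 hhb
  have hdb : ∀ z, |h.1 z - ε * q z| ≤ |ε| * A / (κ * r) * (κ ^ 3 / (1 + κ * ‖z‖) ^ 7) :=
    fun z => by
      rw [hh]
      split_ifs with hz
      · rw [sub_self, abs_zero]
        positivity
      · rw [zero_sub, abs_neg, abs_mul, ← env_mul_hh hκ 7 1 z, pow_one]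
        have h1 : κ * r ≤ 1 + κ * ‖z‖ := by
          have := mul_le_mul_of_nonneg_left (not_le.1 hz).le hκ.le
          linarith
        have h2 : 1 ≤ (1 + κ * ‖z‖) / (κ * r) := (one_le_div hκr).2 h1
        have h3 : 0 ≤ |ε| * (A * (κ ^ 3 / (1 + κ * ‖z‖) ^ 8)) := by positivity
        calc |ε| * |q z| ≤ |ε| * (A * (κ ^ 3 / (1 + κ * ‖z‖) ^ 8)) :=
              mul_le_mul_of_nonneg_left (hqb z) hε
          _ ≤ |ε| * (A * (κ ^ 3 / (1 + κ * ‖z‖) ^ 8)) * ((1 + κ * ‖z‖) / (κ * r)) :=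
              le_mul_of_one_le_right h3 h2
          _ = _ := by ring
  have hεA : 0 ≤ |ε| * A := mul_nonneg hε hA0
  refine ⟨h, fun z => |ε| * A * (κ ^ 3 / (1 + κ * ‖z‖) ^ 8), ?_, ?_, mono_env hκ hεA 8,
    (integrable_env hκ (by norm_num)).1.const_mul _, fun z => mul_nonneg hεA (hE 8 z), hhb,
    hq ▸ hqi, fun k => ?_, fun k => ?_, fun d G hd hd0 hdG => ?_⟩
  · intro z z' hz
    have h1 : ‖z‖ = ‖z'‖ :=
      le_antisymm (norm_le_hh fun c => (hz c).le) (norm_le_hh fun c => (hz c).ge)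
    rw [hh, hh, h1, hqe z z' hz]
  · intro z hz
    rw [hh, if_neg (not_le.2 hz)]
  · rw [ct_diff_hh hhi]
    have hs := sq3_nonneg k
    have b1 : |∫ z, h.1 z * (∏ c, Real.cos (k c * z c) - 1)| ≤ |ε| * A * 2 * I := by
      rw [hI]
      refine bound_hh hκ (by positivity) (j := 8) (by norm_num) fun z => ?_
      rw [abs_mul]
      calc _ ≤ |ε| * A * (κ ^ 3 / (1 + κ * ‖z‖) ^ 8) * 2 :=
            mul_le_mul (hhb z) (cos_le_hh k z).1 (abs_nonneg _) (mul_nonneg hεA (hE 8 z))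
        _ = _ := by ring
    have b2 : |∫ z, h.1 z * (∏ c, Real.cos (k c * z c) - 1)| ≤ |ε| * A * (sq3 k / κ ^ 2) * I := by
      rw [hI]
      refine bound_hh hκ (by positivity) (j := 6) (by norm_num) fun z => ?_
      rw [abs_mul, ← env_mul_hh hκ 6 2 z]
      have h1 : sq3 k * ‖z‖ ^ 2 ≤ sq3 k / κ ^ 2 * (1 + κ * ‖z‖) ^ 2 := by
        have h2 : (κ * ‖z‖) ^ 2 ≤ (1 + κ * ‖z‖) ^ 2 :=
          pow_le_pow_left₀ (by positivity) (by linarith) 2
        calc sq3 k * ‖z‖ ^ 2 = sq3 k / κ ^ 2 * (κ * ‖z‖) ^ 2 := by field_simp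
          _ ≤ _ := by gcongr
      calc _ ≤ |ε| * A * (κ ^ 3 / (1 + κ * ‖z‖) ^ 8) * (sq3 k / κ ^ 2 * (1 + κ * ‖z‖) ^ 2) :=
            mul_le_mul (hhb z) ((cos_le_hh k z).2.trans h1) (abs_nonneg _)
              (mul_nonneg hεA (hE 8 z))
        _ = _ := by ring
    have hm : 0 ≤ sq3 k / κ ^ 2 := by positivity
    rcases le_total (sq3 k / κ ^ 2) 1 with h1 | h1
    · rw [min_eq_left h1]
      refine b2.trans ?_
      have : 0 ≤ |ε| * (sq3 k / κ ^ 2) * (1 + A * I) := by positivity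
      nlinarith
    · rw [min_eq_right h1]
      refine b1.trans ?_
      nlinarith
  · have hεq : Integrable fun z => ε * q z := hqi.const_mul ε
    have e1 : ct h.1 k - ct h.1 0 - ε * (ct ν (κ⁻¹ • k) - ct ν 0) =
        ct (fun z => h.1 z - ε * q z) k - ct (fun z => h.1 z - ε * q z) 0 := by
      rw [ct_sub hhi hεq, ct_sub hhi hεq, ct_const_mul, ct_const_mul, hq, ct_scale ν hκ,
        ct_scale ν hκ, smul_zero]
      ring
    rw [e1, ct_diff_hh (u := fun z => h.1 z - ε * q z) (hhi.sub hεq)]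
    have b1 : |∫ z, (h.1 z - ε * q z) * (∏ c, Real.cos (k c * z c) - 1)| ≤
        |ε| * A / (κ * r) * 2 * I := by
      rw [hI]
      refine bound_hh hκ (by positivity) (j := 7) (by norm_num) fun z => ?_
      rw [abs_mul]
      calc _ ≤ |ε| * A / (κ * r) * (κ ^ 3 / (1 + κ * ‖z‖) ^ 7) * 2 :=
            mul_le_mul (hdb z) (cos_le_hh k z).1 (abs_nonneg _) (by positivity)
        _ = _ := by ring
    refine b1.trans ?_
    have h1 : 0 ≤ |ε| / (κ * r) := by positivity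
    calc |ε| * A / (κ * r) * 2 * I = |ε| / (κ * r) * (2 * (A * I)) := by ring
      _ ≤ |ε| / (κ * r) * (1 + 2 * (A * I)) := mul_le_mul_of_nonneg_left (by linarith) h1
      _ = _ := by ring
  · have hG : 0 ≤ G := by simpa using (hd0 0).trans (hdG 0)
    have had : ∀ z, |d z| ≤ G * (1 + κ * ‖z‖) ^ 2 := fun z => by
      rw [abs_of_nonneg (hd0 z)]
      exact hdG z
    constructor
    · have b1 : |∫ z : R3, |ε| * A * (κ ^ 3 / (1 + κ * ‖z‖) ^ 8) * d z| ≤ |ε| * A * G * I := by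
        rw [hI]
        refine bound_hh hκ (by positivity) (j := 6) (by norm_num) fun z => ?_
        rw [abs_mul, abs_of_nonneg (mul_nonneg hεA (hE 8 z)), ← env_mul_hh hκ 6 2 z]
        calc _ ≤ |ε| * A * (κ ^ 3 / (1 + κ * ‖z‖) ^ 8) * (G * (1 + κ * ‖z‖) ^ 2) :=
              mul_le_mul_of_nonneg_left (had z) (mul_nonneg hεA (hE 8 z))
          _ = _ := by ring
      refine ((le_abs_self _).trans b1).trans ?_
      have : 0 ≤ |ε| * G * (1 + A * I) := by positivity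
      nlinarith
    · obtain ⟨hdm, M, hM⟩ := hd
      have i1 : Integrable fun z => h.1 z * d z :=
        hhi.mul_bdd hdm.aestronglyMeasurable (Filter.Eventually.of_forall hM)
      have i2 : Integrable fun z => q z * d z :=
        hqi.mul_bdd hdm.aestronglyMeasurable (Filter.Eventually.of_forall hM)
      have e1 : (∫ z, h.1 z * d z) - ε * ∫ z, κ ^ 3 * ν (κ • z) * d z =
          ∫ z, (h.1 z - ε * q z) * d z := by
        have e2 : ∫ z, κ ^ 3 * ν (κ • z) * d z = ∫ z, q z * d z := by rw [hq]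
        rw [e2, ← integral_const_mul, ← integral_sub i1 (i2.const_mul ε)]
        congr 1
        funext z
        ring
      rw [e1]
      have b1 : |∫ z, (h.1 z - ε * q z) * d z| ≤ |ε| * A / (κ * r) * G * I := by
        rw [hI]
        refine bound_hh hκ (by positivity) (j := 5) (by norm_num) fun z => ?_
        rw [abs_mul, ← env_mul_hh hκ 5 2 z]
        calc _ ≤ |ε| * A / (κ * r) * (κ ^ 3 / (1 + κ * ‖z‖) ^ 7) * (G * (1 + κ * ‖z‖) ^ 2) :=
              mul_le_mul (hdb z) (had z) (abs_nonneg _) (by positivity)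
          _ = _ := by ring
      refine b1.trans ?_
      have h1 : 0 ≤ |ε| * G / (κ * r) := by positivity
      calc |ε| * A / (κ * r) * G * I = |ε| * G / (κ * r) * (A * I) := by ring
        _ ≤ |ε| * G / (κ * r) * (1 + 2 * (A * I)) := mul_le_mul_of_nonneg_left (by linarith) h1
        _ = _ := by ring

end Pool.Agent.BoseLHY
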