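import Pool.Agent.Lib.MP_dec75e_mp.L.Func
import Pool.Agent.Lib.MP_dec75e_mp.L.LowA

/-! Localisation in the number of excited projections. -/

open MeasureTheory Finset Function
open scoped Real

noncomputable section

namespace Pool.Agent.BoseLHY

open Pool.Agent.BoseTail

variable {V : Type} [AddCommGroup V] [Module ℝ V] {β : V →ₗ[ℝ] V →ₗ[ℝ] ℝ}
variable {ι : Type} [DecidableEq ι] {A : ι → Module.End ℝ V} {S : Finset ι}

theorem nq_fc_imsa {T : Module.End ℝ V} {n : ℕ} (hT : SA β T) (h : Ann T n) (χ : ℕ → ℝ) (ψ : V) :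
    nq β (fc T n χ ψ) = β ψ (fc T n (fun k => χ k * χ k) ψ) := by
  rw [nq, fc_sa hT, ← h.fc_mul]
  rfl

theorem pyth_imsa {T : Module.End ℝ V} {n : ℕ} (hT : SA β T) (h : Ann T n) {χ₀ χ₁ : ℕ → ℝ}
    (hχ : ∀ k, χ₀ k ^ 2 + χ₁ k ^ 2 = 1) (ψ : V) :
    nq β (fc T n χ₀ ψ) + nq β (fc T n χ₁ ψ) = nq β ψ := by
  rw [nq_fc_imsa hT h, nq_fc_imsa hT h, ← map_add, ← LinearMap.add_apply, ← fc_add,
    fc_congr (χ' := fun _ => 1) fun k _ => by rw [← hχ k]; ring, h.fc_const, one_smul]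
  rfl

omit [DecidableEq ι] in
theorem ann_imsa (hA : Fam β A S) : Ann (∑ i ∈ S, A i) S.card :=
  ann_sum (fun i hi => (hA.proj i hi).idem) hA.comm

omit [DecidableEq ι] in
theorem comm_imsa (hA : Fam β A S) {j : ι} (hj : j ∈ S) (l : List ι) (hl : ∀ i ∈ l, i ∈ S)
    (f : V) : A j ((l.map A).prod f) = (l.map A).prod (A j f) := by
  induction l with
  | nil => rfl
  | cons a l ih =>
    rw [List.map_cons, List.prod_cons, Module.End.mul_apply, Module.End.mul_apply,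
      hA.comm j hj a (hl a List.mem_cons_self), ih fun i hi => hl i (List.mem_cons_of_mem a hi)]

omit [DecidableEq ι] in
theorem absorb_imsa (hA : Fam β A S) {j : ι} (l : List ι) (hl : ∀ i ∈ l, i ∈ S) (hj : j ∈ l)
    (f : V) : A j ((l.map A).prod f) = (l.map A).prod f := by
  induction l with
  | nil => exact absurd hj List.not_mem_nil
  | cons a l ih =>
    rw [List.map_cons, List.prod_cons, Module.End.mul_apply]
    rcases List.mem_cons.1 hj with rfl | h
    · exact (hA.proj j (hl j hj)).idem _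
    · rw [hA.comm j (hl j hj) a (hl a List.mem_cons_self),
        ih (fun i hi => hl i (List.mem_cons_of_mem a hi)) h]

omit [DecidableEq ι] in
theorem cut_pyth (hβ : PSD β) (hA : Fam β A S) {χ₀ χ₁ : ℕ → ℝ} (hχ : ∀ k, χ₀ k ^ 2 + χ₁ k ^ 2 = 1)
    (ψ : V) : nq β (cut A S χ₀ ψ) + nq β (cut A S χ₁ ψ) = nq β ψ := by
  have _ := hβ
  exact pyth_imsa (SA.sum fun i hi => (hA.proj i hi).sa) (ann_imsa hA) hχ ψ

/-- `D` intertwines `∑_{S} A` with `∑_{S.erase i} A + c`; use `fc_intw`, `Ann.shift`. -/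
theorem cut_intw (hβ : PSD β) (hA : Fam β A S) {i : ι} (hi : i ∈ S) {D : Module.End ℝ V} {c : ℕ}
    (hc : c ≤ 1) (hD : ∀ j ∈ S.erase i, ∀ f, D (A j f) = A j (D f))
    (hDi : ∀ f, D (A i f) = (c : ℝ) • D f) {χ₀ χ₁ : ℕ → ℝ} (hχ : ∀ k, χ₀ k ^ 2 + χ₁ k ^ 2 = 1)
    (ψ : V) : nq β (D (cut A S χ₀ ψ)) + nq β (D (cut A S χ₁ ψ)) = nq β (D ψ) := by
  have _ := hβ
  have hA' := hA.subset (Finset.erase_subset i S)
  have hT : ∀ f, D ((∑ j ∈ S, A j) f) =
      (∑ j ∈ S.erase i, A j + (c : ℝ) • (1 : Module.End ℝ V)) (D f) := by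
    intro f
    rw [← Finset.sum_erase_add S A hi, LinearMap.add_apply, LinearMap.add_apply, map_add, hDi,
      LinearMap.sum_apply, LinearMap.sum_apply, map_sum, Finset.sum_congr rfl fun j hj => hD j hj f]
    rfl
  have hn : (S.erase i).card + c ≤ S.card := by
    have := Finset.card_erase_add_one hi
    omega
  rw [cut, cut, fc_intw hT, fc_intw hT]
  exact pyth_imsa ((SA.sum fun j hj => (hA'.proj j hj).sa).add (SA.one.smul _))
    (((ann_imsa hA').shift c).mono hn) hχ _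

/-- The product `D` over a list `l` intertwines `∑_S A` with `∑_{S \ l} A + l.length`. -/
theorem cut_low (hA : Fam β A S) {χ : ℕ → ℝ} {M : ℕ} (hχ : ∀ k, M < k → χ k = 0) (ψ : V) :
    LowA A S M (cut A S χ ψ) := by
  intro l hl hS hM
  have hsub : l.toFinset ⊆ S := fun j hj => hS j (List.mem_toFinset.1 hj)
  have hA' := hA.subset (Finset.sdiff_subset (s := S) (t := l.toFinset))
  have hT : ∀ f, (l.map A).prod ((∑ j ∈ S, A j) f) =
      (∑ j ∈ S \ l.toFinset, A j + (l.length : ℝ) • (1 : Module.End ℝ V)) ((l.map A).prod f) := by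
    intro f
    rw [LinearMap.sum_apply, map_sum,
      Finset.sum_congr rfl fun j hj => (comm_imsa hA hj l hS f).symm, ← Finset.sum_sdiff hsub,
      Finset.sum_congr (s₁ := l.toFinset) rfl fun j hj =>
        absorb_imsa hA l hS (List.mem_toFinset.1 hj) f,
      Finset.sum_const, List.toFinset_card_of_nodup hl, LinearMap.add_apply, LinearMap.sum_apply,
      ← Nat.cast_smul_eq_nsmul ℝ]
    rfl
  have hn : (S \ l.toFinset).card + l.length ≤ S.card := by
    rw [← List.toFinset_card_of_nodup hl, Finset.card_sdiff_add_card_eq_card hsub]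
  rw [cut, fc_intw hT, (ann_imsa hA').fc_shift _ hn,
    fc_congr (χ' := fun _ => 0) fun k _ => hχ _ (by omega), fc_zero, LinearMap.zero_apply]

omit [DecidableEq ι] in
theorem cut_high (hβ : PSD β) (hA : Fam β A S) {χ : ℕ → ℝ} {M : ℝ}
    (hχ : ∀ k : ℕ, (k : ℝ) < M → χ k = 0) (ψ : V) :
    M * nq β (cut A S χ ψ) ≤ ∑ i ∈ S, nq β (A i (cut A S χ ψ)) := by
  have hT : SA β (∑ i ∈ S, A i) := SA.sum fun i hi => (hA.proj i hi).sa
  have h := ann_imsa hA
  have e1 : ∑ i ∈ S, nq β (A i (cut A S χ ψ)) =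
      β (cut A S χ ψ) ((∑ i ∈ S, A i) (cut A S χ ψ)) := by
    rw [LinearMap.sum_apply, map_sum]
    exact Finset.sum_congr rfl fun i hi => (hA.proj i hi).nq_eq _
  rw [e1, cut]
  generalize ∑ i ∈ S, A i = T at hT h ⊢
  generalize S.card = n at h ⊢
  have e2 : β (fc T n χ ψ) (T (fc T n χ ψ)) = β ψ (fc T n (fun k => χ k * (k * χ k)) ψ) := by
    rw [fc_sa hT, ← h.fc_mul χ, ← h.fc_mul (fun k => (k : ℝ)) χ, h.fc_id]
    rfl
  have h0 := h.fc_nonneg hβ hT (χ := fun k => χ k * (k * χ k) - M * (χ k * χ k)) (fun k _ => by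
    rcases lt_or_ge (k : ℝ) M with hk | hk
    · rw [hχ k hk]; simp
    · nlinarith [mul_nonneg (sub_nonneg.2 hk) (mul_self_nonneg (χ k))]) ψ
  rw [fc_sub, fc_smul, LinearMap.sub_apply, map_sub, LinearMap.smul_apply, map_smul,
    smul_eq_mul] at h0
  rw [e2, nq_fc_imsa hT h]
  linarith

end Pool.Agent.BoseLHY
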