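import Pool.Agent.Lib.MP_dec75e_mp.L.Func

/-! Localisation error for a pair interaction. -/

open MeasureTheory Finset Function
open scoped Real

noncomputable section

namespace Pool.Agent.BoseLHY

open Pool.Agent.BoseTail

variable {V : Type} [AddCommGroup V] [Module ℝ V] {β : V →ₗ[ℝ] V →ₗ[ℝ] ℝ}
variable {ι : Type} [DecidableEq ι] {A : ι → Module.End ℝ V} {S : Finset ι}

theorem sum_split_imsb {i j : ι} (hi : i ∈ S) (hj : j ∈ S) (hij : i ≠ j) :
    ∑ k ∈ S, A k = ∑ k ∈ (S.erase i).erase j, A k + A i + A j := by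
  have hj' : j ∈ S.erase i := Finset.mem_erase.2 ⟨hij.symm, hj⟩
  rw [← Finset.sum_erase_add S _ hi, ← Finset.sum_erase_add (S.erase i) _ hj']
  abel

theorem card_split_imsb {i j : ι} (hi : i ∈ S) (hj : j ∈ S) (hij : i ≠ j) :
    ((S.erase i).erase j).card + 2 = S.card := by
  have hj' : j ∈ S.erase i := Finset.mem_erase.2 ⟨hij.symm, hj⟩
  have h1 := Finset.card_erase_add_one hi
  have h2 := Finset.card_erase_add_one hj'
  omega

theorem ann_erase_imsb (hA : Fam β A S) (i j : ι) :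
    Ann (∑ k ∈ (S.erase i).erase j, A k) ((S.erase i).erase j).card := by
  have hsub : (S.erase i).erase j ⊆ S :=
    (Finset.erase_subset _ _).trans (Finset.erase_subset _ _)
  exact ann_sum (fun k hk => (hA.proj k (hsub hk)).idem)
    (fun k hk l hl => hA.comm k (hsub hk) l (hsub hl))

theorem comm_sum_imsb (hA : Fam β A S) {l : ι} (hl : l ∈ S) (i j : ι) (f : V) :
    A l ((∑ k ∈ (S.erase i).erase j, A k) f) = (∑ k ∈ (S.erase i).erase j, A k) (A l f) := by
  have hsub : (S.erase i).erase j ⊆ S :=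
    (Finset.erase_subset _ _).trans (Finset.erase_subset _ _)
  rw [LinearMap.sum_apply, LinearMap.sum_apply, map_sum]
  exact Finset.sum_congr rfl fun k hk => hA.comm l hl k (hsub hk) f

theorem piece_imsb (hA : Fam β A S) {i j : ι} (hi : i ∈ S) (hj : j ∈ S) (hij : i ≠ j)
    (χ : ℕ → ℝ) {D : Module.End ℝ V} {c : ℕ} (hc : c ≤ 2)
    (hD : ∀ f, D ((∑ k ∈ (S.erase i).erase j, A k) f) =
      (∑ k ∈ (S.erase i).erase j, A k) (D f))
    (hDc : ∀ f, D (A i f) + D (A j f) = (c : ℝ) • D f) (ψ : V) :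
    D (cut A S χ ψ) = cut A ((S.erase i).erase j) (fun k => χ (k + c)) (D ψ) := by
  have hcard := card_split_imsb hi hj hij
  have hint : ∀ f, D ((∑ k ∈ S, A k) f) =
      ((∑ k ∈ (S.erase i).erase j, A k) + (c : ℝ) • (1 : Module.End ℝ V)) (D f) := by
    intro f
    rw [sum_split_imsb hi hj hij]
    simp only [LinearMap.add_apply, map_add, LinearMap.smul_apply, Module.End.one_apply]
    rw [hD, add_assoc, hDc]
  unfold cut
  rw [fc_intw hint, (ann_erase_imsb hA i j).fc_shift c (by omega)]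

/-- With `T' = ∑` over `(S.erase i).erase j`, `φ 2 = A i (A j ψ)`,
`φ 1 = A i ψ + A j ψ - 2 • φ 2`, `φ 0 = ψ - A i ψ - A j ψ + φ 2`. -/
theorem cut_pair (hA : Fam β A S) {i j : ι} (hi : i ∈ S) (hj : j ∈ S) (hij : i ≠ j) (χ : ℕ → ℝ)
    (ψ : V) :
    cut A S χ ψ =
      cut A ((S.erase i).erase j) χ (ψ - A i ψ - A j ψ + A i (A j ψ)) +
      cut A ((S.erase i).erase j) (fun k => χ (k + 1)) (A i ψ + A j ψ - (2 : ℝ) • A i (A j ψ)) +
      cut A ((S.erase i).erase j) (fun k => χ (k + 2)) (A i (A j ψ)) := by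
  have hI := (hA.proj i hi).idem
  have hJ := (hA.proj j hj).idem
  have hji : ∀ f, A j (A i f) = A i (A j f) := fun f => hA.comm j hj i hi f
  have ci := comm_sum_imsb hA hi i j
  have cj := comm_sum_imsb hA hj i j
  have h0 := piece_imsb hA hi hj hij χ (D := 1 - A i - A j + A i * A j) (c := 0) (by omega)
    (fun f => by
      simp only [LinearMap.add_apply, LinearMap.sub_apply, Module.End.one_apply,
        Module.End.mul_apply, map_add, map_sub, ci, cj])
    (fun f => by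
      simp only [LinearMap.add_apply, LinearMap.sub_apply, Module.End.one_apply,
        Module.End.mul_apply, hI, hJ, hji, Nat.cast_zero, zero_smul]
      abel) ψ
  have h1 := piece_imsb hA hi hj hij χ (D := A i + A j - (2 : ℝ) • (A i * A j)) (c := 1) (by omega)
    (fun f => by
      simp only [LinearMap.add_apply, LinearMap.sub_apply, LinearMap.smul_apply,
        Module.End.mul_apply, map_add, map_sub, map_smul, ci, cj])
    (fun f => by
      simp only [LinearMap.add_apply, LinearMap.sub_apply, LinearMap.smul_apply,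
        Module.End.mul_apply, hI, hJ, hji, Nat.cast_one, one_smul]
      module) ψ
  have h2 := piece_imsb hA hi hj hij χ (D := A i * A j) (c := 2) (by omega)
    (fun f => by
      simp only [Module.End.mul_apply, ci, cj])
    (fun f => by
      simp only [Module.End.mul_apply, hI, hJ, hji, Nat.cast_ofNat]
      module) ψ
  simp only [LinearMap.add_apply, LinearMap.sub_apply, LinearMap.smul_apply, Module.End.one_apply,
    Module.End.mul_apply, add_zero] at h0 h1 h2
  rw [← h0, ← h1, ← h2]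
  module

omit [DecidableEq ι] in
theorem cross_imsb {T : Module.End ℝ V} {n : ℕ} (hT : SA β T) (h : Ann T n) (a b : ℕ → ℝ)
    (f g : V) :
    β (fc T n (fun k => Real.cos (a k)) f) (fc T n (fun k => Real.cos (b k)) g) +
      β (fc T n (fun k => Real.sin (a k)) f) (fc T n (fun k => Real.sin (b k)) g) =
      β f g - β f (fc T n (fun k => 1 - Real.cos (a k - b k)) g) := by
  rw [fc_sa hT, fc_sa hT, ← Module.End.mul_apply, ← Module.End.mul_apply, h.fc_mul, h.fc_mul,
    fc_sub, h.fc_const, ← map_add, ← LinearMap.add_apply, ← fc_add]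
  have e : (fun k => Real.cos (a k) * Real.cos (b k) + Real.sin (a k) * Real.sin (b k)) =
      fun k => Real.cos (a k - b k) := funext fun k => (Real.cos_sub _ _).symm
  rw [e]
  simp

theorem diag_imsb {T : Module.End ℝ V} {n : ℕ} (hT : SA β T) (h : Ann T n) (a : ℕ → ℝ) (f : V) :
    nq β (fc T n (fun k => Real.cos (a k)) f) + nq β (fc T n (fun k => Real.sin (a k)) f) =
      nq β f := by
  unfold nq
  rw [cross_imsb hT h]
  have e : (fun k => 1 - Real.cos (a k - a k)) = fun _ => (0 : ℝ) := funext fun k => by simp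
  rw [e, fc_zero]
  simp

theorem off_imsb {T : Module.End ℝ V} {n : ℕ} (hβ : PSD β) (hT : SA β T) (h : Ann T n)
    {a b : ℕ → ℝ} {d : ℝ} (hab : ∀ k, |a k - b k| ≤ 2 * d) (f g : V) :
    β (fc T n (fun k => Real.cos (a k)) f) (fc T n (fun k => Real.cos (b k)) g) +
      β (fc T n (fun k => Real.sin (a k)) f) (fc T n (fun k => Real.sin (b k)) g) ≤
      β f g + d ^ 2 * (nq β f + nq β g) := by
  rw [cross_imsb hT h]
  have hu0 : ∀ k ≤ n, 0 ≤ 1 - Real.cos (a k - b k) := fun k _ => by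
    linarith [Real.cos_le_one (a k - b k)]
  have hu1 : ∀ k ≤ n, 0 ≤ 2 * d ^ 2 - (1 - Real.cos (a k - b k)) := fun k _ => by
    have h1 := Real.one_sub_sq_div_two_le_cos (x := a k - b k)
    have h2 : (a k - b k) ^ 2 ≤ (2 * d) ^ 2 := by
      rw [← sq_abs]
      exact pow_le_pow_left₀ (abs_nonneg _) (hab k) 2
    nlinarith
  have hP : PSD (β.compl₂ (fc T n (fun k => 1 - Real.cos (a k - b k)))) :=
    hβ.of_op (fc_sa hT _) (h.fc_nonneg hβ hT hu0)
  have hb : ∀ x, nq (β.compl₂ (fc T n (fun k => 1 - Real.cos (a k - b k)))) x ≤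
      2 * d ^ 2 * nq β x := fun x => by
    have h1 := h.fc_nonneg hβ hT hu1 x
    rw [fc_sub, h.fc_const] at h1
    simp only [LinearMap.sub_apply, LinearMap.smul_apply, Module.End.one_apply, map_sub, map_smul,
      smul_eq_mul] at h1
    simp only [nq, LinearMap.compl₂_apply]
    linarith
  have h1 := hP.abs_le f g
  have h2 := neg_abs_le ((β.compl₂ (fc T n (fun k => 1 - Real.cos (a k - b k)))) f g)
  have h3 := hb f
  have h4 := hb g
  rw [LinearMap.compl₂_apply] at h1 h2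
  linarith

theorem nq_three_imsb (hβ : PSD β) (x y z : V) :
    nq β (x + y + z) = nq β x + nq β y + nq β z + 2 * β x y + 2 * β x z + 2 * β y z := by
  rw [hβ.nq_add, hβ.nq_add, map_add, LinearMap.add_apply]
  ring

theorem three_imsb {T : Module.End ℝ V} {n : ℕ} (hβ : PSD β) (hT : SA β T) (h : Ann T n)
    {θ : ℕ → ℝ} {d : ℝ} (hθ : ∀ k, |θ (k + 1) - θ k| ≤ d) (x y z : V) :
    nq β (fc T n (fun k => Real.cos (θ k)) x + fc T n (fun k => Real.cos (θ (k + 1))) y +
        fc T n (fun k => Real.cos (θ (k + 2))) z) +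
      nq β (fc T n (fun k => Real.sin (θ k)) x + fc T n (fun k => Real.sin (θ (k + 1))) y +
        fc T n (fun k => Real.sin (θ (k + 2))) z) ≤
      nq β (x + y + z) + 4 * d ^ 2 * (nq β x + nq β y + nq β z) := by
  have hd : 0 ≤ d := (abs_nonneg _).trans (hθ 0)
  have e01 : ∀ k, |θ k - θ (k + 1)| ≤ 2 * d := fun k => by
    rw [abs_sub_comm]
    linarith [hθ k]
  have e12 : ∀ k, |θ (k + 1) - θ (k + 2)| ≤ 2 * d := fun k => e01 (k + 1)
  have e02 : ∀ k, |θ k - θ (k + 2)| ≤ 2 * d := fun k => by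
    have h1 := abs_le.1 (hθ k)
    have h2 := abs_le.1 (hθ (k + 1))
    rw [abs_le]
    constructor <;> linarith [h1.1, h1.2, h2.1, h2.2]
  have d0 := diag_imsb hT h θ x
  have d1 := diag_imsb hT h (fun k => θ (k + 1)) y
  have d2 := diag_imsb hT h (fun k => θ (k + 2)) z
  have o01 := off_imsb hβ hT h (a := θ) (b := fun k => θ (k + 1)) e01 x y
  have o02 := off_imsb hβ hT h (a := θ) (b := fun k => θ (k + 2)) e02 x z
  have o12 := off_imsb hβ hT h (a := fun k => θ (k + 1)) (b := fun k => θ (k + 2)) e12 y z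
  rw [nq_three_imsb hβ, nq_three_imsb hβ, nq_three_imsb hβ]
  linarith

theorem nq_sub_le_imsb (hβ : PSD β) (f g : V) : nq β (f - g) ≤ 2 * nq β f + 2 * nq β g := by
  have h1 := hβ.abs_le f g
  have h2 := neg_abs_le (β f g)
  rw [hβ.nq_sub]
  linarith

/-- Localisation formula for a pair operator. Work with the form `β' = β.compl₂ W`
(`PSD.of_op`), for which `T'` is self-adjoint. The left side is
`∑_{c,c'} β' (φ c) (fc (cos (θ (k+c) - θ (k+c'))) (φ c'))`; write `cos = 1 - u` with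
`0 ≤ u ≤ 2 d²`, `u = 0` for `c = c'`, and use `PSD.abs_le` for the form `β' (·, fc u ·)`. -/
theorem cut_pot (hβ : PSD β) (hA : Fam β A S) {i j : ι} (hi : i ∈ S) (hj : j ∈ S) (hij : i ≠ j)
    {W : Module.End ℝ V} (hW : SA β W) (hW0 : ∀ f, 0 ≤ β f (W f))
    (hc : ∀ k ∈ S, k ≠ i → k ≠ j → ∀ f, W (A k f) = A k (W f)) {θ : ℕ → ℝ} {d : ℝ}
    (hθ : ∀ k, |θ (k + 1) - θ k| ≤ d) (ψ : V) :
    nq (β.compl₂ W) (cut A S (fun k => Real.cos (θ k)) ψ) +
        nq (β.compl₂ W) (cut A S (fun k => Real.sin (θ k)) ψ) ≤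
      nq (β.compl₂ W) ψ + 70 * d ^ 2 * (nq (β.compl₂ W) ψ + nq (β.compl₂ W) (A i ψ) +
        nq (β.compl₂ W) (A j ψ) + nq (β.compl₂ W) (A i (A j ψ))) := by
  have hP : PSD (β.compl₂ W) := hβ.of_op hW hW0
  have hT : SA (β.compl₂ W) (∑ k ∈ (S.erase i).erase j, A k) := by
    refine SA.sum fun k hk f g => ?_
    have hk1 := Finset.mem_erase.1 hk
    have hk2 := Finset.mem_erase.1 hk1.2
    rw [LinearMap.compl₂_apply, LinearMap.compl₂_apply, hc k hk2.2 hk2.1 hk1.1]
    exact (hA.proj k hk2.2).sa f (W g)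
  have h3 := three_imsb hP hT (ann_erase_imsb hA i j) hθ (ψ - A i ψ - A j ψ + A i (A j ψ))
    (A i ψ + A j ψ - (2 : ℝ) • A i (A j ψ)) (A i (A j ψ))
  have e : ψ - A i ψ - A j ψ + A i (A j ψ) + (A i ψ + A j ψ - (2 : ℝ) • A i (A j ψ)) +
      A i (A j ψ) = ψ := by module
  rw [e] at h3
  rw [cut_pair hA hi hj hij (fun k => Real.cos (θ k)), cut_pair hA hi hj hij fun k => Real.sin (θ k)]
  refine le_trans h3 ?_
  have b0 : nq (β.compl₂ W) (ψ - A i ψ - A j ψ + A i (A j ψ)) ≤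
      4 * nq (β.compl₂ W) ψ + 4 * nq (β.compl₂ W) (A i ψ) + 4 * nq (β.compl₂ W) (A j ψ) +
        4 * nq (β.compl₂ W) (A i (A j ψ)) := by
    have e0 : ψ - A i ψ - A j ψ + A i (A j ψ) = (ψ - A i ψ) - (A j ψ - A i (A j ψ)) := by abel
    rw [e0]
    linarith [nq_sub_le_imsb hP (ψ - A i ψ) (A j ψ - A i (A j ψ)), nq_sub_le_imsb hP ψ (A i ψ),
      nq_sub_le_imsb hP (A j ψ) (A i (A j ψ))]
  have b1 : nq (β.compl₂ W) (A i ψ + A j ψ - (2 : ℝ) • A i (A j ψ)) ≤
      4 * nq (β.compl₂ W) (A i ψ) + 4 * nq (β.compl₂ W) (A j ψ) +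
        8 * nq (β.compl₂ W) (A i (A j ψ)) := by
    have h1 := nq_sub_le_imsb hP (A i ψ + A j ψ) ((2 : ℝ) • A i (A j ψ))
    rw [nq_smul] at h1
    linarith [hP.nq_add_le_two (A i ψ) (A j ψ)]
  have p0 := hP.nq_nonneg ψ
  have p1 := hP.nq_nonneg (A i ψ)
  have p2 := hP.nq_nonneg (A j ψ)
  have p3 := hP.nq_nonneg (A i (A j ψ))
  have hs : 4 * (nq (β.compl₂ W) (ψ - A i ψ - A j ψ + A i (A j ψ)) +
      nq (β.compl₂ W) (A i ψ + A j ψ - (2 : ℝ) • A i (A j ψ)) + nq (β.compl₂ W) (A i (A j ψ))) ≤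
      70 * (nq (β.compl₂ W) ψ + nq (β.compl₂ W) (A i ψ) + nq (β.compl₂ W) (A j ψ) +
        nq (β.compl₂ W) (A i (A j ψ))) := by linarith
  have := mul_le_mul_of_nonneg_left hs (sq_nonneg d)
  linarith

end Pool.Agent.BoseLHY
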