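import Pool.Agent.Lib.MP_dec75e_mp.L.Op3

/-! Parseval identities for the many-body occupation numbers. -/

open MeasureTheory Finset Function
open scoped Real

noncomputable section

namespace Pool.Agent.BoseLHY

open Pool.Agent.BoseTail

variable {ι : Type} [Fintype ι] [DecidableEq ι] {μ : ι → ProbabilityMeasure R3} {B : Box}
  {S : Finset ι} {R M : ℕ} {i j o : ι} {m m' : M3} {f g u ψ : Vs ι}

theorem ex_at1_op4 (hj : μ j = B.μ) (hf : Ind j f) (h : BF R3) :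
    ex μ (at1 j h * f) = (∫ x, h.1 x ∂(B.μ : Measure R3)) * ex μ f := by
  rw [← ex_avg j (at1 j h * f), mul_comm (at1 j h : Vs ι) f, avg_mul_ind hf, avg_at1, hj,
    mul_smul_comm, mul_one, map_smul, smul_eq_mul]

theorem ip_EE_op4 (hj : μ j = B.μ) (hm : Bulk R m) {q q' : M3} (hq : ∀ c, q c ≤ R)
    (hq' : ∀ c, q' c ≤ R) (hf : Ind j f) (hg : Ind j g) :
    ipB μ (Em B j m (Em B j q f)) (Em B j m (Em B j q' g)) = if q = q' then ipB μ f g else 0 := by
  have e : Em B j m (Em B j q f) * Em B j m (Em B j q' g) =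
      at1 j (B.e m ^ 2 * (B.e q * B.e q')) * (f * g) := by
    simp only [Em_apply, map_mul, map_pow]
    ring
  have e2 : ∫ x, (B.e m ^ 2 * (B.e q * B.e q') : BF R3).1 x ∂(B.μ : Measure R3) =
      if q = q' then 1 else 0 := B.exact hm hq hq'
  rw [ipB_apply, e, ex_at1_op4 hj (hf.mul hg), e2, ipB_apply]
  split_ifs <;> simp

/-- `Box.exact` for the modes of `insert 0 (Lset R)`. -/
theorem nq_EZ_bulk (hj : μ j = B.μ) (hm : Bulk R m) (u : Vs ι) :
    nq (ipB μ) (Em B j m (Zp B R j u)) =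
      nq (ipB μ) (Pz B j u) + 4 * nq (ipB μ) (Lp B R j u) := by
  have hP := psd_ipB μ
  have h0 : ∀ c, (0 : M3) c ≤ R := fun c => Nat.zero_le _
  have hL : ∀ q ∈ Lset R, ∀ c, q c ≤ R := fun q hq => (mem_Lset.1 hq).2
  have h1 : ipB μ (Em B j m (Pz B j u)) (Em B j m (Lp B R j u)) = 0 := by
    rw [Lp_apply, map_sum, map_sum]
    refine sum_eq_zero fun q hq => ?_
    have := ip_EE_op4 hj hm h0 (hL q hq) (ind_Pz (B := B) u) (ind_co (B := B) (m := q) u)
    rw [Em_zero, Module.End.one_apply, if_neg (mem_Lset.1 hq).1.symm] at this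
    exact this
  have h2 : nq (ipB μ) (Em B j m (Lp B R j u)) = nq (ipB μ) (Lp B R j u) := by
    rw [nq_Lp hj, nq, Lp_apply, map_sum, map_sum]
    refine sum_congr rfl fun q hq => ?_
    rw [map_sum, LinearMap.sum_apply,
      sum_congr rfl fun q' hq' => ip_EE_op4 hj hm (hL q' hq') (hL q hq) (ind_co u) (ind_co u),
      sum_ite_eq', if_pos hq]
    rfl
  rw [Zp_apply, map_add, map_smul, hP.nq_add, nq_smul, map_smul, h1, h2, nq_Em_ind hj (ind_Pz u)]
  simp only [smul_eq_mul]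
  ring

theorem co_at2 {G : BF (R3 × R3)} {l : M3 → ℝ} (hG : B.Eig G l) (hoj : o ≠ j) (hf : Ind o f) :
    co B o m (at2 o j G * f) = l m • Em B j m f := by
  refine Subtype.ext (funext fun X => ?_)
  change ∫ y, (B.e m).1 (update X o y o) * (G.1 (update X o y o, update X o y j) *
    f.1 (update X o y)) ∂(B.μ : Measure R3) = l m * ((B.e m).1 (X j) * f.1 X)
  have e : ∀ y, (B.e m).1 (update X o y o) * (G.1 (update X o y o, update X o y j) *
      f.1 (update X o y)) = G.1 (X j, y) * (B.e m).1 y * f.1 X := by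
    intro y
    rw [update_self, update_of_ne hoj.symm, hf X y, hG.symm y (X j)]
    ring
  simp only [e]
  rw [integral_mul_const, hG.eig]
  ring

/-- Pointwise bound for the low part. -/
theorem Lp_sq_le (f : Vs ι) (X : ι → R3) :
    (Lp B R i f * Lp B R i f).1 X ≤
      8 * (Lset R).card * (∑ m ∈ Lset R, co B i m f * co B i m f).1 X := by
  have e1 : (Lp B R i f).1 X = ∑ m ∈ Lset R, (B.e m).1 (X i) * (co B i m f).1 X := by
    rw [Lp_apply, AddSubmonoidClass.coe_finsetSum, Finset.sum_apply]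
    rfl
  have e2 : (∑ m ∈ Lset R, co B i m f * co B i m f).1 X =
      ∑ m ∈ Lset R, (co B i m f).1 X ^ 2 := by
    rw [AddSubmonoidClass.coe_finsetSum, Finset.sum_apply]
    exact sum_congr rfl fun m _ => (sq _).symm
  have e3 : (Lp B R i f * Lp B R i f).1 X = (Lp B R i f).1 X ^ 2 := (sq _).symm
  rw [e3, e1, e2]
  refine (sum_mul_sq_le_sq_mul_sq _ _ _).trans ?_
  refine mul_le_mul_of_nonneg_right ?_ (sum_nonneg fun m _ => sq_nonneg _)
  refine (sum_le_card_nsmul _ _ 8 fun m _ => B.e_sq_le m (X i)).trans (le_of_eq ?_)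
  rw [nsmul_eq_mul, mul_comm]

theorem ex_mul_Lp_op4 {W : Vs ι} (hW : ∀ X, 0 ≤ W.1 X) (f : Vs ι) :
    ex μ (W * (Lp B R i f * Lp B R i f)) ≤
      8 * (Lset R).card * ex μ (W * ∑ m ∈ Lset R, co B i m f * co B i m f) := by
  rw [← smul_eq_mul (8 * ((Lset R).card : ℝ)), ← map_smul]
  refine ex_mono_ae (Filter.Eventually.of_forall fun X => ?_)
  have h := mul_le_mul_of_nonneg_left (Lp_sq_le (B := B) (R := R) (i := i) f X) (hW X)
  change W.1 X * (Lp B R i f * Lp B R i f).1 X ≤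
    8 * (Lset R).card * (W.1 X * (∑ m ∈ Lset R, co B i m f * co B i m f).1 X)
  linarith

theorem ex_sum_co_op4 (f : Vs ι) : ex μ (∑ m ∈ Lset R, co B i m f * co B i m f) =
    ∑ m ∈ Lset R, nq (ipB μ) (co B i m f) := by
  rw [map_sum]
  rfl

theorem sum_co_nonneg_op4 (f : Vs ι) (X : ι → R3) :
    0 ≤ (∑ m ∈ Lset R, co B i m f * co B i m f).1 X := by
  rw [AddSubmonoidClass.coe_finsetSum, Finset.sum_apply]
  exact sum_nonneg fun m _ => mul_self_nonneg _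

theorem ex_b_op4 (hi : μ i = B.μ) (hj : μ j = B.μ) (hij : i ≠ j) {b : BF (R3 × R3)}
    (hb : ∀ z, 0 ≤ b.1 z) {b₀ : ℝ}
    (hb0 : ∫ x, ∫ y, b.1 (x, y) ∂(B.μ : Measure R3) ∂(B.μ : Measure R3) ≤ b₀) (ho : μ o = B.μ)
    (h1 : ∀ m, Ind i (co B o m u)) (h2 : ∀ m, Ind j (co B o m u)) :
    ex μ (at2 i j b * (Lp B R o u * Lp B R o u)) ≤
      8 * (Lset R).card * b₀ * nq (ipB μ) (Lp B R o u) := by
  refine (ex_mul_Lp_op4 (W := at2 i j b) (fun X => hb _) u).trans ?_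
  rw [ex_at2_mul hij (Ind.sum fun m _ => (h1 m).mul (h1 m)) (Ind.sum fun m _ => (h2 m).mul (h2 m)),
    hi, hj, ex_sum_co_op4, ← nq_Lp ho, mul_assoc (8 * ((Lset R).card : ℝ))]
  exact mul_le_mul_of_nonneg_left
    (mul_le_mul_of_nonneg_right hb0 ((psd_ipB μ).nq_nonneg _)) (by positivity)

theorem ex_b_Lp (hi : μ i = B.μ) (hj : μ j = B.μ) (hij : i ≠ j) {b : BF (R3 × R3)}
    (hb : ∀ z, 0 ≤ b.1 z) {b₀ : ℝ}
    (hb0 : ∫ x, ∫ y, b.1 (x, y) ∂(B.μ : Measure R3) ∂(B.μ : Measure R3) ≤ b₀) :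
    (Ind i u → ex μ (at2 i j b * (Lp B R j u * Lp B R j u)) ≤
      8 * (Lset R).card * b₀ * nq (ipB μ) (Lp B R j u)) ∧
    (Ind j u → ex μ (at2 i j b * (Lp B R i u * Lp B R i u)) ≤
      8 * (Lset R).card * b₀ * nq (ipB μ) (Lp B R i u)) := by
  exact ⟨fun hu => ex_b_op4 hi hj hij hb hb0 hj (fun m => loc_ind hij loc_co hu)
      (fun m => ind_co u),
    fun hu => ex_b_op4 hi hj hij hb hb0 hi (fun m => ind_co u)
      (fun m => loc_ind hij.symm loc_co hu)⟩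

theorem ex_W_op4 (hi : μ i = B.μ) (hij : i ≠ j) {W : BF (R3 × R3)}
    (hW : ∀ z, 0 ≤ W.1 z) {b : ℝ} (h1 : ∀ y, ∫ x, W.1 (x, y) ∂(B.μ : Measure R3) ≤ b) (f : Vs ι) :
    ex μ (at2 i j W * (Lp B R i f * Lp B R i f)) ≤ 8 * (Lset R).card * b * nq (ipB μ) f := by
  have hb : 0 ≤ b := (integral_nonneg fun x => hW (x, 0)).trans (h1 0)
  refine (ex_mul_Lp_op4 (W := at2 i j W) (fun X => hW _) f).trans ?_
  rw [mul_assoc (8 * ((Lset R).card : ℝ))]
  refine mul_le_mul_of_nonneg_left ?_ (by positivity)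
  refine (ex_at2_le hij (Ind.sum fun m _ => (ind_co f).mul (ind_co f)) (sum_co_nonneg_op4 f)
    (b := b) (by rw [hi]; exact h1)).trans ?_
  rw [ex_sum_co_op4]
  exact mul_le_mul_of_nonneg_left (bessel_co hi _ f) hb

theorem ex_W_Lp (hi : μ i = B.μ) (hj : μ j = B.μ) (hij : i ≠ j) {W : BF (R3 × R3)}
    (hW : ∀ z, 0 ≤ W.1 z) {b : ℝ} (h1 : ∀ y, ∫ x, W.1 (x, y) ∂(B.μ : Measure R3) ≤ b)
    (h2 : ∀ x, ∫ y, W.1 (x, y) ∂(B.μ : Measure R3) ≤ b) (f : Vs ι) :
    ex μ (at2 i j W * (Lp B R i f * Lp B R i f)) ≤ 8 * (Lset R).card * b * nq (ipB μ) f ∧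
      ex μ (at2 i j W * (Lp B R j f * Lp B R j f)) ≤ 8 * (Lset R).card * b * nq (ipB μ) f := by
  refine ⟨ex_W_op4 hi hij hW h1 f, ?_⟩
  exact ex_W_op4 hj hij.symm (W := pull Prod.swap measurable_swap W) (fun z => hW _) h2 f

theorem dform_hasSum {G : BF (R3 × R3)} {l : M3 → ℝ} (hG : B.Eig G l) (hi : μ i = B.μ) (ψ : Vs ι) :
    HasSum (fun m => 2 * (l 0 - l m) * nq (ipB μ) (co B i m ψ)) (dform μ i G ψ) := by
  have h0 : ∀ x, ∫ y, G.1 (x, y) ∂(μ i : Measure R3) = l 0 := by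
    intro x
    have h := hG.eig 0 x
    rw [B.e_zero] at h
    rw [hi]
    simpa using h
  have hk : ∀ m, co B i m (kop (μ i) i G ψ) = l m • co B i m ψ := by
    intro m
    rw [hi]
    exact avg_mul_kop hG.symm (hG.eig m)
  rw [dform_eq hG.symm h0]
  have h1 := ((pars_co hi ψ).mul_left (2 * l 0)).sub
    ((pars_co_ip hi ψ (kop (μ i) i G ψ)).mul_left 2)
  refine h1.congr_fun ?_
  intro m
  simp only [hk, map_smul, smul_eq_mul, nq]
  ring

theorem dform_hasSum_occ {G : BF (R3 × R3)} {l : M3 → ℝ} (hG : B.Eig G l) (hA : Act μ B S)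
    (ψ : Vs ι) : HasSum (fun m => 2 * (l 0 - l m) * occ μ B S m ψ) (∑ i ∈ S, dform μ i G ψ) := by
  have h := hasSum_sum (s := S) fun i hi => dform_hasSum hG (hA i hi) ψ
  simp only [← mul_sum] at h
  exact h

theorem nP_dform (hA : Act μ B S) (ψ : Vs ι) : nP μ B S ψ = (∑ i ∈ S, dform μ i 1 ψ) / 2 := by
  rw [nP, sum_div]
  exact sum_congr rfl fun i hi => nq_sub_avg (hA i hi) ψ

end Pool.Agent.BoseLHY
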