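import Pool.Agent.Lib.MP_dec75e_mp.L.Grad3
import Pool.Agent.Lib.MP_dec75e_mp.L.Op4

/-! Differentiable functions and the kinetic energy in the Neumann basis. -/

open MeasureTheory Finset Function
open scoped Real

noncomputable section

namespace Pool.Agent.BoseLHY

open Pool.Agent.BoseTail

variable {ι : Type} [Fintype ι] [DecidableEq ι] {μ : ι → ProbabilityMeasure R3} {B : Box}
  {S : Finset ι} {R M : ℕ} {i j o : ι} {m m' : M3} {f g u ψ : Vs ι}

theorem HasD.dd_eq {c : Fin 3} {ψ' : Vs ι} (h : HasD i c ψ ψ') : dd (dirR i c) ψ.1 = ψ'.1 := by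
  funext X
  exact (h X).deriv

theorem C1.bm_dd (h : C1 ψ) (i : ι) (c : Fin 3) : BM (dd (dirR i c) ψ.1) := by
  obtain ⟨ψ', h'⟩ := h i c
  rw [h'.dd_eq]
  exact bmOf ψ'

theorem C1.zero : C1 (0 : Vs ι) := by
  intro i c
  exact ⟨0, fun X => hasDerivAt_const (0 : ℝ) (0 : ℝ)⟩

theorem C1.add (hf : C1 f) (hg : C1 g) : C1 (f + g) := by
  intro i c
  obtain ⟨f', hf'⟩ := hf i c
  obtain ⟨g', hg'⟩ := hg i c
  exact ⟨f' + g', fun X => (hf' X).add (hg' X)⟩

theorem C1.smul (c : ℝ) (hf : C1 f) : C1 (c • f) := by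
  intro i d
  obtain ⟨f', hf'⟩ := hf i d
  exact ⟨c • f', fun X => (hf' X).const_mul c⟩

/-- The subspace of differentiable functions. -/
def c1S (ι : Type) [Fintype ι] [DecidableEq ι] : Submodule ℝ (Vs ι) where
  carrier := {f | C1 f}
  add_mem' := C1.add
  zero_mem' := C1.zero
  smul_mem' := fun c _ hf => C1.smul c hf

theorem C1.Em (hf : C1 f) (i : ι) (m : M3) : C1 (Em B i m f) := by
  intro j c
  obtain ⟨f', hf'⟩ := hf j c
  by_cases hji : j = i
  · subst hji
    obtain ⟨e', he'⟩ := B.e_deriv m c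
    refine ⟨at1 j e' * f + at1 j (B.e m) * f', fun X => ?_⟩
    have h1 := (he' (X j)).mul (hf' X)
    have h2 : (fun t : ℝ => (BoseLHY.Em B j m f).1 (X + dirR j c t)) =
        (fun t : ℝ => (B.e m).1 (X j + Pi.single c t)) * fun t : ℝ => f.1 (X + dirR j c t) := by
      funext t
      show (B.e m).1 ((X + dirR j c t) j) * f.1 (X + dirR j c t) = _
      simp [dirR]
    rw [h2]
    refine h1.congr_deriv ?_
    show _ = e'.1 (X j) * f.1 X + (B.e m).1 (X j) * f'.1 X
    simp [dirR]
  · refine ⟨at1 i (B.e m) * f', fun X => ?_⟩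
    have h1 := (hf' X).const_mul ((B.e m).1 (X i))
    have h2 : (fun t : ℝ => (BoseLHY.Em B i m f).1 (X + dirR j c t)) =
        fun t : ℝ => (B.e m).1 (X i) * f.1 (X + dirR j c t) := by
      funext t
      show (B.e m).1 ((X + dirR j c t) i) * f.1 (X + dirR j c t) = _
      simp [dirR, Pi.single_eq_of_ne (Ne.symm hji)]
    rw [h2]
    exact h1

omit [Fintype ι] in
theorem upd_same_kin3 (X : ι → R3) (j : ι) (c : Fin 3) (t : ℝ) (y : R3) :
    update (X + dirR j c t) j y = update X j y := by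
  funext k
  by_cases hk : k = j
  · subst hk; simp
  · simp [dirR, update_of_ne hk, Pi.single_eq_of_ne hk]

omit [Fintype ι] in
theorem upd_ne_kin3 (hji : j ≠ i) (X : ι → R3) (c : Fin 3) (t : ℝ) (y : R3) :
    update (X + dirR j c t) i y = update X i y + dirR j c t := by
  funext k
  by_cases hk : k = i
  · subst hk; simp [dirR, Pi.single_eq_of_ne (Ne.symm hji)]
  · simp [update_of_ne hk]

omit [Fintype ι] in
theorem HasD.at_kin3 {c : Fin 3} {ψ' : Vs ι} (h : HasD i c ψ ψ') (X : ι → R3) (t : ℝ) :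
    HasDerivAt (fun s : ℝ => ψ.1 (X + dirR i c s)) (ψ'.1 (X + dirR i c t)) t := by
  have h1 := h (X + dirR i c t)
  have h2 : HasDerivAt (fun s : ℝ => ψ.1 (X + dirR i c t + dirR i c (s - t)))
      (ψ'.1 (X + dirR i c t)) t := by
    have h3 : HasDerivAt (fun s : ℝ => ψ.1 (X + dirR i c t + dirR i c s))
        (ψ'.1 (X + dirR i c t)) (t - t) := by rw [sub_self]; exact h1
    exact h3.comp_sub_const t t
  have h4 : ∀ s : ℝ, X + dirR i c t + dirR i c (s - t) = X + dirR i c s := fun s => by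
    rw [add_assoc, dirR, dirR, dirR, ← Pi.single_add, ← Pi.single_add, add_sub_cancel]
  simpa only [h4] using h2

/-- Differentiation under the integral sign; a function with a bounded derivative along a line
is Lipschitz along it. -/
theorem C1.Pz (hf : C1 f) (i : ι) : C1 (Pz B i f) := by
  intro j c
  by_cases hji : j = i
  · subst hji
    refine ⟨0, fun X => ?_⟩
    have h2 : (fun t : ℝ => (BoseLHY.Pz B j f).1 (X + dirR j c t)) =
        fun _ : ℝ => (BoseLHY.Pz B j f).1 X := by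
      funext t
      show ∫ y, f.1 (update (X + dirR j c t) j y) ∂(B.μ : Measure R3) =
        ∫ y, f.1 (update X j y) ∂(B.μ : Measure R3)
      simp only [upd_same_kin3]
    rw [h2]
    exact hasDerivAt_const (0 : ℝ) _
  · obtain ⟨f', hf'⟩ := hf j c
    obtain ⟨K, hK⟩ := (bmOf f').2
    refine ⟨BoseLHY.Pz B i f', fun X => ?_⟩
    have h1 := (hasDerivAt_integral_of_dominated_loc_of_deriv_le (μ := (B.μ : Measure R3))
      (F := fun (t : ℝ) (y : R3) => f.1 (update (X + dirR j c t) i y))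
      (F' := fun (t : ℝ) (y : R3) => f'.1 (update (X + dirR j c t) i y))
      (x₀ := 0) (s := Set.univ) (bound := fun _ => K) Filter.univ_mem
      (Filter.Eventually.of_forall fun t => (bm_slice f i _).1.aestronglyMeasurable)
      (bm_slice f i _).integrable (bm_slice f' i _).1.aestronglyMeasurable
      (Filter.Eventually.of_forall fun y t _ => hK _) (integrable_const K)
      (Filter.Eventually.of_forall fun y t _ => by
        simp only [upd_ne_kin3 hji]
        exact hf'.at_kin3 _ t)).2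
    have h3 : X + dirR j c 0 = X := by simp [dirR]
    rw [h3] at h1
    exact h1

theorem C1.Lp (hf : C1 f) (i : ι) : C1 (Lp B R i f) := by
  rw [Lp_apply]
  exact (c1S ι).sum_mem fun m _ => ((hf.Em i m).Pz i).Em i m

theorem kin_nonneg : 0 ≤ kin μ S ψ := by
  unfold kin
  exact mul_nonneg (by norm_num) (Finset.sum_nonneg fun i _ => Finset.sum_nonneg fun c _ =>
    integral_nonneg fun X => sq_nonneg _)

theorem hasSum_int_kin3 {α κ : Type} [MeasurableSpace α] [Countable κ] {ν : Measure α}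
    {F : κ → α → ℝ} {G : α → ℝ} (hF : ∀ k, Integrable (F k) ν) (hG : Integrable G ν)
    (h0 : ∀ k x, 0 ≤ F k x) (h : ∀ x, HasSum (fun k => F k x) (G x)) :
    HasSum (fun k => ∫ x, F k x ∂ν) (∫ x, G x ∂ν) := by
  have hs : Summable fun k => ∫ x, ‖F k x‖ ∂ν := by
    refine summable_of_sum_le (c := ∫ x, G x ∂ν)
      (fun k => integral_nonneg fun x => norm_nonneg _) fun u => ?_
    simp only [Real.norm_eq_abs, abs_of_nonneg (h0 _ _)]
    rw [← integral_finsetSum u fun k _ => hF k]
    exact integral_mono (integrable_finsetSum u fun k _ => hF k) hG fun x =>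
      sum_le_hasSum u (fun k _ => h0 k x) (h x)
  have h1 := hasSum_integral_of_summable_integral_norm hF hs
  simpa only [(h _).tsum_eq] using h1

theorem one_kin3 (hi : μ i = B.μ) {c : Fin 3} {ψ' : Vs ι} (h : HasD i c ψ ψ') :
    HasSum (fun m => B.p m c ^ 2 * nq (ipB μ) (co B i m ψ)) (∫ X, ψ'.1 X ^ 2 ∂pm μ) := by
  have h1 : ∀ X : ι → R3, HasSum (fun m => B.p m c ^ 2 * (co B i m ψ).1 X ^ 2)
      ((avg (μ i) i (ψ' * ψ')).1 X) := fun X => by
    have h2 := B.grad_pars c (bm_slice ψ i X) (bm_slice ψ' i X) fun x => by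
      have h3 := h (update X i x)
      have h4 : ∀ t : ℝ, update X i x + dirR i c t = update X i (x + Pi.single c t) := fun t => by
        funext k
        by_cases hk : k = i
        · subst hk; simp [dirR]
        · simp [dirR, update_of_ne hk, Pi.single_eq_of_ne hk]
      simpa only [h4] using h3
    have h5 : ∀ m, (co B i m ψ).1 X =
        ∫ x, (B.e m).1 x * ψ.1 (update X i x) ∂(B.μ : Measure R3) := fun m => by
      show ∫ x, (B.e m).1 (update X i x i) * ψ.1 (update X i x) ∂(B.μ : Measure R3) = _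
      simp only [update_self]
    have h6 : (avg (μ i) i (ψ' * ψ')).1 X =
        ∫ x, ψ'.1 (update X i x) ^ 2 ∂(B.μ : Measure R3) := by
      rw [avg_apply, hi]
      exact integral_congr_ae (Filter.Eventually.of_forall fun x => (sq _).symm)
    rw [h6]
    simpa only [h5] using h2
  have h7 := hasSum_int_kin3 (ν := pm μ)
    (fun m => (((bmOf (co B i m ψ)).pow 2).integrable).const_mul (B.p m c ^ 2))
    (bmOf (avg (μ i) i (ψ' * ψ'))).integrable (fun m X => by positivity) h1
  have h8 : ∫ X, (avg (μ i) i (ψ' * ψ')).1 X ∂pm μ = ∫ X, ψ'.1 X ^ 2 ∂pm μ := by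
    rw [← ex_apply, ex_avg, ex_apply]
    exact integral_congr_ae (Filter.Eventually.of_forall fun x => (sq _).symm)
  rw [h8] at h7
  convert h7 using 2 with m
  rw [integral_const_mul, nq_ipB, ex_apply]
  congr 1
  exact integral_congr_ae (Filter.Eventually.of_forall fun x => (sq _).symm)

/-- `Box.grad_pars` on the slices `y ↦ ψ (update X i y)`, integrated over `X`. -/
theorem kin_hasSum (hA : Act μ B S) (hψ : C1 ψ) :
    HasSum (fun m => sq3 (B.p m) / 2 * occ μ B S m ψ) (kin μ S ψ) := by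
  have h1 : ∀ i ∈ S, ∀ c : Fin 3, HasSum (fun m => B.p m c ^ 2 * nq (ipB μ) (co B i m ψ))
      (∫ X, dd (dirR i c) ψ.1 X ^ 2 ∂pm μ) := fun i hi c => by
    obtain ⟨ψ', h'⟩ := hψ i c
    rw [h'.dd_eq]
    exact one_kin3 (hA i hi) h'
  have h2 := (hasSum_sum fun i hi => hasSum_sum fun c (_ : c ∈ Finset.univ) => h1 i hi c).mul_left
    (1 / 2 : ℝ)
  have h3 : ∀ m : M3, sq3 (B.p m) / 2 * occ μ B S m ψ =
      1 / 2 * ∑ i ∈ S, ∑ c, B.p m c ^ 2 * nq (ipB μ) (co B i m ψ) := fun m => by
    unfold occ sq3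
    simp only [← Finset.sum_mul]
    rw [← Finset.mul_sum]
    ring
  simp only [h3]
  exact h2

theorem En_fiber {w : BF (R3 × R3)} (hw : ∀ z, 0 ≤ w.1 z) {C : Type} [Fintype C] [DecidableEq C]
    (S : Finset ι) (a : ι → C) (ψ : Vs ι) :
    ∑ k, En μ (S.filter fun i => a i = k) w ψ ≤ En μ S w ψ := by
  have h1 : ∑ k, kin μ (S.filter fun i => a i = k) ψ = kin μ S ψ := by
    unfold kin
    rw [← Finset.mul_sum, Finset.sum_fiberwise]
  have h2 := pot_fiber (μ := μ) (W := w) hw S a ψ
  unfold En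
  rw [Finset.sum_add_distrib, h1]
  linarith

theorem En_sdiff {w : BF (R3 × R3)} (hw : ∀ z, 0 ≤ w.1 z) {S' : Finset ι} (hS : S' ⊆ S) (ψ : Vs ι) :
    En μ S' w ψ + En μ (S \ S') w ψ ≤ En μ S w ψ := by
  have h1 : kin μ S' ψ + kin μ (S \ S') ψ = kin μ S ψ := by
    unfold kin
    rw [← mul_add, add_comm, Finset.sum_sdiff hS]
  have h2 := pot_sdiff (μ := μ) (W := w) hw hS ψ
  unfold En
  linarith

end Pool.Agent.BoseLHY
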