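import Pool.Agent.Lib.MP_dec75e_mp.L.ImsA
import Pool.Agent.Lib.MP_dec75e_mp.L.ImsB
import Pool.Agent.Lib.MP_dec75e_mp.L.Kin3

/-! Localisation in the number of low excitations. -/

open MeasureTheory Finset Function
open scoped Real

noncomputable section

namespace Pool.Agent.BoseLHY

open Pool.Agent.BoseTail

variable {ι : Type} [Fintype ι] [DecidableEq ι] {μ : ι → ProbabilityMeasure R3} {B : Box}
  {S : Finset ι} {R M : ℕ} {i j o : ι} {m m' : M3} {f g u ψ : Vs ι}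

theorem sym_cut (hS : Sym S ψ) (χ : ℕ → ℝ) : Sym S (cut (Lp B R) S χ ψ) := by
  intro i hi j hj
  have h := fc_intw (T := ∑ k ∈ S, Lp B R k) (T' := ∑ k ∈ S, Lp B R k) (n := S.card)
    (D := (swp i j).toLinearMap) (fun f => by
      rw [LinearMap.sum_apply, LinearMap.sum_apply, map_sum]
      refine Finset.sum_equiv (Equiv.swap i j) (fun k => ?_) fun k _ => swp_Lp i j k f
      rw [Equiv.swap_apply_def]
      split_ifs with h1 h2
      · simp [h1, hi, hj]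
      · simp [h2, hi, hj]
      · rfl) χ ψ
  rw [AlgHom.toLinearMap_apply, AlgHom.toLinearMap_apply, hS i hi j hj] at h
  exact h

theorem c1_cut (hψ : C1 ψ) (χ : ℕ → ℝ) : C1 (cut (Lp B R) S χ ψ) := by
  refine fc_mem (c1S ι) (fun f hf => ?_) χ hψ
  rw [LinearMap.sum_apply]
  exact Submodule.sum_mem _ fun k _ => C1.Lp hf k

/-- The angle used in the localisation. -/
def ang_imsc (M k : ℕ) : ℝ := π / 2 * max 0 (min 1 (2 * (k : ℝ) / M - 1))

theorem ang_lip_imsc (hM : 1 ≤ M) (k : ℕ) : |ang_imsc M (k + 1) - ang_imsc M k| ≤ π / M := by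
  have hM' : (0 : ℝ) < M := by exact_mod_cast hM
  unfold ang_imsc
  rw [← mul_sub, abs_mul, abs_of_pos (by positivity : (0 : ℝ) < π / 2)]
  have h1 : |max 0 (min 1 (2 * ((k + 1 : ℕ) : ℝ) / M - 1)) - max 0 (min 1 (2 * (k : ℝ) / M - 1))| ≤
      2 / M := by
    have h2 : 2 * ((k + 1 : ℕ) : ℝ) / M - 1 = 2 * (k : ℝ) / M - 1 + 2 / M := by
      push_cast; ring
    have h3 : (0 : ℝ) < 2 / M := by positivity
    rw [h2]
    generalize 2 * (k : ℝ) / M - 1 = t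
    generalize (2 : ℝ) / M = e at h3
    rw [abs_le]
    constructor <;> simp only [max_def, min_def] <;> split_ifs <;> linarith
  calc π / 2 * _ ≤ π / 2 * (2 / M) := mul_le_mul_of_nonneg_left h1 (by positivity)
    _ = π / M := by ring

theorem ang_high_imsc (hM : 1 ≤ M) (k : ℕ) (hk : M < k) : Real.cos (ang_imsc M k) = 0 := by
  have hM' : (0 : ℝ) < M := by exact_mod_cast hM
  have hk' : (M : ℝ) ≤ k := by exact_mod_cast hk.le
  have h1 : (1 : ℝ) ≤ 2 * k / M - 1 := by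
    rw [le_sub_iff_add_le, le_div_iff₀ hM']
    linarith
  rw [ang_imsc, min_eq_left h1, max_eq_right zero_le_one, mul_one, Real.cos_pi_div_two]

theorem ang_low_imsc (hM : 1 ≤ M) (k : ℕ) (hk : (k : ℝ) < M / 2) :
    Real.sin (ang_imsc M k) = 0 := by
  have hM' : (0 : ℝ) < M := by exact_mod_cast hM
  have h1 : (2 : ℝ) * k / M - 1 ≤ 0 := by
    rw [sub_nonpos, div_le_one hM']
    linarith
  rw [ang_imsc, max_eq_left ((min_le_right _ _).trans h1), mul_zero, Real.sin_zero]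

theorem pair_imsc (hA : Act μ B S) (hM : 1 ≤ M) {W : BF (R3 × R3)}
    (hW : ∀ z, 0 ≤ W.1 z) {b : ℝ} (h1 : ∀ y, ∫ x, W.1 (x, y) ∂(B.μ : Measure R3) ≤ b)
    (h2 : ∀ x, ∫ y, W.1 (x, y) ∂(B.μ : Measure R3) ≤ b) (hi : i ∈ S) (hj : j ∈ S.erase i)
    {ψ₀ ψ₁ : Vs ι} (e0 : ψ₀ = cut (Lp B R) S (fun k => Real.cos (ang_imsc M k)) ψ)
    (e1 : ψ₁ = cut (Lp B R) S (fun k => Real.sin (ang_imsc M k)) ψ) :
    ex μ (at2 i j W * (ψ₀ * ψ₀)) + ex μ (at2 i j W * (ψ₁ * ψ₁)) ≤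
      (1 + 700 / (M : ℝ) ^ 2) * ex μ (at2 i j W * (ψ * ψ)) +
        700 / (M : ℝ) ^ 2 * (24 * (Lset R).card * b * nq (ipB μ) ψ) := by
  have hβ := psd_ipB μ
  have hij : i ≠ j := (Finset.ne_of_mem_erase hj).symm
  have hj' := Finset.mem_of_mem_erase hj
  have hM' : (0 : ℝ) < M := by exact_mod_cast hM
  have hpos : ∀ f : Vs ι, 0 ≤ ex μ (at2 i j W * (f * f)) := fun f =>
    ex_nonneg fun X => mul_nonneg (hW _) (mul_self_nonneg _)
  have hb : 0 ≤ b := (integral_nonneg fun x => hW _).trans (h1 0)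
  have h3 := cut_pot hβ (fam_Lp (R := R) hA) hi hj' hij (W := mu (at2 i j W)) (sa_mu _)
    (fun f => by
      have h4 := hpos f
      rw [← nq_compl_mu] at h4
      exact h4)
    (fun k _ hki hkj f => (loc_mul_ind loc_Lp (ind_at2 hki hkj W) f).symm) (ang_lip_imsc hM) ψ
  simp only [nq_compl_mu, ← e0, ← e1] at h3
  obtain ⟨h4, h5⟩ := ex_W_Lp (R := R) (hA i hi) (hA j hj') hij hW h1 h2 ψ
  have h6 := (ex_W_Lp (R := R) (hA i hi) (hA j hj') hij hW h1 h2 (Lp B R j ψ)).1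
  have h7 : 8 * (Lset R).card * b * nq (ipB μ) (Lp B R j ψ) ≤
      8 * (Lset R).card * b * nq (ipB μ) ψ :=
    mul_le_mul_of_nonneg_left ((proj_Lp (hA j hj')).nq_le hβ _) (by positivity)
  have h8 : 70 * (π / M) ^ 2 ≤ 700 / (M : ℝ) ^ 2 := by
    rw [div_pow, ← mul_div_assoc]
    refine div_le_div_of_nonneg_right ?_ (by positivity)
    nlinarith [Real.pi_lt_d2, Real.pi_pos]
  refine h3.trans ?_
  rw [add_mul, one_mul, add_assoc _ (700 / (M : ℝ) ^ 2 * _), ← mul_add]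
  refine add_le_add le_rfl (mul_le_mul h8 (by linarith) ?_ (by positivity))
  exact add_nonneg (add_nonneg (add_nonneg (hpos _) (hpos _)) (hpos _)) (hpos _)

/-- Take `θ k = π / 2 * max 0 (min 1 (2 k / M - 1))`, `d = π / M`, `ψ₀ = cut (cos ∘ θ) ψ`,
`ψ₁ = cut (sin ∘ θ) ψ`. For `occ` use `cut_intw` with `D = co B i m` (`co_Lp`), for `pot` use
`cut_pot` with `W = mu (at2 i j W)` and `ex_W_Lp`. -/
theorem ims_box (hA : Act μ B S) (hS : Sym S ψ) (hψ : C1 ψ) (hM : 1 ≤ M) {W : BF (R3 × R3)}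
    (hW : ∀ z, 0 ≤ W.1 z) {b : ℝ} (h1 : ∀ y, ∫ x, W.1 (x, y) ∂(B.μ : Measure R3) ≤ b)
    (h2 : ∀ x, ∫ y, W.1 (x, y) ∂(B.μ : Measure R3) ≤ b) :
    ∃ ψ₀ ψ₁ : Vs ι, C1 ψ₀ ∧ C1 ψ₁ ∧ Sym S ψ₀ ∧ Sym S ψ₁ ∧ LowA (Lp B R) S M ψ₀ ∧
      M / 2 * nq (ipB μ) ψ₁ ≤ nL μ B R S ψ₁ ∧
      (∀ m, occ μ B S m ψ₀ + occ μ B S m ψ₁ = occ μ B S m ψ) ∧
      nq (ipB μ) ψ₀ + nq (ipB μ) ψ₁ = nq (ipB μ) ψ ∧
      pot μ S W ψ₀ + pot μ S W ψ₁ ≤ pot μ S W ψ + 700 / (M : ℝ) ^ 2 *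
        (pot μ S W ψ + 12 * (Lset R).card * b * (S.card : ℝ) ^ 2 * nq (ipB μ) ψ) := by
  have hβ := psd_ipB μ
  have hF := fam_Lp (R := R) hA
  have hχ : ∀ k, Real.cos (ang_imsc M k) ^ 2 + Real.sin (ang_imsc M k) ^ 2 = 1 := fun k =>
    Real.cos_sq_add_sin_sq _
  refine ⟨cut (Lp B R) S (fun k => Real.cos (ang_imsc M k)) ψ,
    cut (Lp B R) S (fun k => Real.sin (ang_imsc M k)) ψ, c1_cut hψ _, c1_cut hψ _, sym_cut hS _,
    sym_cut hS _, cut_low hF (ang_high_imsc hM) ψ, cut_high hβ hF (ang_low_imsc hM) ψ,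
    fun m => ?_, cut_pyth hβ hF hχ ψ, ?_⟩
  · rw [occ, occ, occ, ← Finset.sum_add_distrib]
    refine Finset.sum_congr rfl fun i hi => cut_intw hβ hF hi (D := co B i m)
      (c := if m ∈ Lset R then 1 else 0) (by split_ifs <;> norm_num)
      (fun j hj f => loc_comm (Finset.ne_of_mem_erase hj).symm loc_co loc_Lp f) (fun f => ?_) hχ ψ
    rw [co_Lp]
    split_ifs <;> simp
  · have hb : 0 ≤ b := (integral_nonneg fun x => hW _).trans (h1 0)
    have hn := hβ.nq_nonneg ψ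
    set K : ℝ := 700 / (M : ℝ) ^ 2 * (24 * (Lset R).card * b * nq (ipB μ) ψ) with hK
    have hK0 : 0 ≤ K := by positivity
    have h3 := Finset.sum_le_sum fun i (hi : i ∈ S) => Finset.sum_le_sum fun j hj =>
      pair_imsc (R := R) (ψ := ψ) hA hM hW h1 h2 hi hj rfl rfl
    simp only [Finset.sum_add_distrib, ← Finset.mul_sum, ← hK] at h3
    have h4 : ∑ i ∈ S, ∑ _j ∈ S.erase i, K ≤ (S.card : ℝ) ^ 2 * K := by
      refine (Finset.sum_le_sum (g := fun _ => S.card * K) fun i _ => ?_).trans (le_of_eq ?_)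
      · rw [Finset.sum_const, nsmul_eq_mul]
        exact mul_le_mul_of_nonneg_right (by exact_mod_cast Finset.card_erase_le) hK0
      · rw [Finset.sum_const, nsmul_eq_mul]
        ring
    unfold pot
    have h5 : 700 / (M : ℝ) ^ 2 * (12 * (Lset R).card * b * (S.card : ℝ) ^ 2 * nq (ipB μ) ψ) =
        (S.card : ℝ) ^ 2 * K / 2 := by rw [hK]; ring
    rw [mul_add, h5]
    linarith

end Pool.Agent.BoseLHY
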