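import Pool.Agent.Lib.MP_dec75e_mp.L.Bog
import Pool.Agent.Lib.MP_dec75e_mp.L.Ct

/-! The Lee-Huang-Yang integral. -/

open MeasureTheory Finset Function
open scoped Real

noncomputable section

namespace Pool.Agent.BoseLHY

open Pool.Agent.BoseTail

/-- The small quantity `√(r² + 2) - r`. -/
def dd_lhyint (r : ℝ) : ℝ := √(r ^ 2 + 2) - r

/-- The primitive of the radial integrand. -/
def GG_lhyint (r : ℝ) : ℝ :=
  -dd_lhyint r / 4 - dd_lhyint r ^ 3 / 48 + dd_lhyint r ^ 5 / 160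

/-- The radial integrand. -/
def gg_lhyint (r : ℝ) : ℝ := (r ^ 3 * √(r ^ 2 + 2) - r ^ 4 - r ^ 2) / 2 + 1 / 4

theorem sq_lhyint (r : ℝ) : √(r ^ 2 + 2) ^ 2 = r ^ 2 + 2 := Real.sq_sqrt (by positivity)

theorem pos_lhyint (r : ℝ) : 0 < √(r ^ 2 + 2) := Real.sqrt_pos.2 (by positivity)

theorem form_lhyint (r : ℝ) : gg_lhyint r = dd_lhyint r *
    (1 / 4 + dd_lhyint r ^ 2 / 16 - dd_lhyint r ^ 4 / 32) / √(r ^ 2 + 2) := by
  have hs := pos_lhyint r
  have h2 := sq_lhyint r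
  rw [eq_div_iff hs.ne']
  unfold gg_lhyint dd_lhyint
  generalize √(r ^ 2 + 2) = s at h2
  linear_combination (s ^ 3 / 32 - 5 / 32 * r * s ^ 2 + 11 / 32 * r ^ 2 * s + r ^ 3 / 32 - r / 8) * h2

theorem hasDerivAt_lhyint (r : ℝ) : HasDerivAt GG_lhyint (gg_lhyint r) r := by
  have hs := pos_lhyint r
  have h1 : HasDerivAt (fun r : ℝ => r ^ 2 + 2) (2 * r) r := by
    simpa using (hasDerivAt_pow 2 r).add_const 2
  have h3 : HasDerivAt (fun r : ℝ => √(r ^ 2 + 2)) (2 * r / (2 * √(r ^ 2 + 2))) r :=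
    h1.sqrt (by positivity)
  have h4 : HasDerivAt dd_lhyint (-dd_lhyint r / √(r ^ 2 + 2)) r := by
    refine (h3.sub (hasDerivAt_id' r)).congr_deriv ?_
    unfold dd_lhyint
    field_simp
    ring
  have h5 := ((h4.neg.div_const 4).sub ((h4.pow 3).div_const 48)).add ((h4.pow 5).div_const 160)
  refine h5.congr_deriv ?_
  rw [form_lhyint]
  push_cast
  field_simp
  ring

theorem nonneg_lhyint {r : ℝ} (hr : 0 < r) : 0 ≤ gg_lhyint r := by
  have hs := pos_lhyint r
  have h2 := sq_lhyint r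
  have h0 : r < √(r ^ 2 + 2) := (Real.lt_sqrt hr.le).2 (by linarith)
  have hd : 0 ≤ dd_lhyint r := by unfold dd_lhyint; linarith
  have hd2 : dd_lhyint r ^ 2 ≤ 2 := by unfold dd_lhyint; nlinarith
  rw [form_lhyint]
  refine div_nonneg (mul_nonneg hd ?_) hs.le
  nlinarith [sq_nonneg (dd_lhyint r)]

theorem tendsto_lhyint : Filter.Tendsto GG_lhyint Filter.atTop (nhds 0) := by
  have h0 : Filter.Tendsto dd_lhyint Filter.atTop (nhds 0) := by
    refine squeeze_zero' (g := fun r : ℝ => r⁻¹) ?_ ?_ tendsto_inv_atTop_zero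
    · filter_upwards [Filter.eventually_gt_atTop (0 : ℝ)] with r hr
      have := Real.le_sqrt' hr (y := r ^ 2 + 2)
      unfold dd_lhyint
      have h := this.2 (by linarith)
      linarith
    · filter_upwards [Filter.eventually_gt_atTop (0 : ℝ)] with r hr
      unfold dd_lhyint
      have h1 : √(r ^ 2 + 2) ≤ r + r⁻¹ := by
        rw [Real.sqrt_le_left (by positivity)]
        have : r * r⁻¹ = 1 := mul_inv_cancel₀ hr.ne'
        nlinarith [sq_nonneg r⁻¹]
      linarith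
  have h1 := ((h0.neg.div_const 4).sub ((h0.pow 3).div_const 48)).add ((h0.pow 5).div_const 160)
  have e : -(0 : ℝ) / 4 - 0 ^ 3 / 48 + 0 ^ 5 / 160 = 0 := by norm_num
  rw [e] at h1
  exact h1

theorem zero_lhyint : GG_lhyint 0 = -(4 * √2 / 15) := by
  have h : √2 ^ 2 = 2 := Real.sq_sqrt (by norm_num)
  unfold GG_lhyint dd_lhyint
  simp only [ne_eq, OfNat.ofNat_ne_zero, not_false_eq_true, zero_pow, zero_add, sub_zero]
  have h3 : √2 ^ 3 = 2 * √2 := by rw [pow_succ, h]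
  have h5 : √2 ^ 5 = 4 * √2 := by
    have : √2 ^ 5 = (√2 ^ 2) ^ 2 * √2 := by ring
    rw [this, h]; ring
  rw [h3, h5]; ring

theorem rad_lhyint {r : ℝ} (hr : 0 < r) : r ^ 2 * FF (r ^ 2) (r ^ 2) = gg_lhyint r := by
  unfold FF bog gg_lhyint
  have e : √((r ^ 2) ^ 2 + 2 * r ^ 2 * 1) = r * √(r ^ 2 + 2) := by
    rw [show (r ^ 2) ^ 2 + 2 * r ^ 2 * 1 = r ^ 2 * (r ^ 2 + 2) by ring,
      Real.sqrt_mul (sq_nonneg r), Real.sqrt_sq hr.le]
  rw [e]
  field_simp

/-- In polar coordinates `4 π ∫ r² FF (r², r²) dr`; a primitive of `r³ √(r² + 2)` is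
`(r² + 2)^(5/2) / 5 - 2 (r² + 2)^(3/2) / 3`. -/
theorem integral_FF : Integrable (fun z : R3 => FF (sq3 z) (sq3 z)) ∧
    ∫ z : R3, FF (sq3 z) (sq3 z) = 16 * √2 * π / 15 := by
  have hI := integrableOn_Ioi_deriv_of_nonneg' (a := 0) (fun x _ => hasDerivAt_lhyint x)
    (fun x hx => nonneg_lhyint hx) tendsto_lhyint
  have hV := integral_Ioi_of_hasDerivAt_of_nonneg' (a := 0) (fun x _ => hasDerivAt_lhyint x)
    (fun x hx => nonneg_lhyint hx) tendsto_lhyint
  have hc : ∀ y ∈ Set.Ioi (0 : ℝ), y ^ (Module.finrank ℝ (EuclideanSpace ℝ (Fin 3)) - 1) •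
      FF (y ^ 2) (y ^ 2) = gg_lhyint y := fun y hy => by
    simp only [finrank_euclideanSpace, Fintype.card_fin, smul_eq_mul]
    exact rad_lhyint hy
  have hn : ∀ z : R3, sq3 z = ‖(WithLp.toLp 2 z : EuclideanSpace ℝ (Fin 3))‖ ^ 2 := fun z => by
    rw [EuclideanSpace.norm_sq_eq]
    simp [sq3]
  have hm := PiLp.volume_preserving_toLp (Fin 3)
  have he : MeasurableEmbedding (@WithLp.toLp 2 (Fin 3 → ℝ)) :=
    (MeasurableEquiv.toLp 2 _).measurableEmbedding
  have h1 : Integrable (fun x : EuclideanSpace ℝ (Fin 3) => FF (‖x‖ ^ 2) (‖x‖ ^ 2)) := by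
    refine (integrable_fun_norm_addHaar (volume : Measure (EuclideanSpace ℝ (Fin 3)))
      (f := fun y => FF (y ^ 2) (y ^ 2))).2 ?_
    exact (integrableOn_congr_fun hc measurableSet_Ioi).2 hI
  constructor
  · have := (hm.integrable_comp_emb he).2 h1
    simp only [hn]
    exact this
  · have h2 := hm.integral_comp he (fun x : EuclideanSpace ℝ (Fin 3) => FF (‖x‖ ^ 2) (‖x‖ ^ 2))
    simp only [hn]
    rw [h2, integral_fun_norm_addHaar (volume : Measure (EuclideanSpace ℝ (Fin 3)))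
      (fun y => FF (y ^ 2) (y ^ 2)), setIntegral_congr_fun measurableSet_Ioi hc, hV, zero_lhyint]
    have e3 : (volume : Measure (EuclideanSpace ℝ (Fin 3))).real (Metric.ball 0 1) = π * 4 / 3 := by
      rw [Measure.real, EuclideanSpace.volume_ball_fin_three]
      simp only [ENNReal.ofReal_one, one_pow, one_mul]
      exact ENNReal.toReal_ofReal (by positivity)
    rw [e3]
    simp only [finrank_euclideanSpace, Fintype.card_fin, smul_eq_mul, nsmul_eq_mul]
    push_cast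
    ring

end Pool.Agent.BoseLHY
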