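import Pool.Agent.Lib.MP_dec75e_mp.L.Bx

/-! Lattice sums. -/

open MeasureTheory Finset Function
open scoped Real

noncomputable section

namespace Pool.Agent.BoseLHY

open Pool.Agent.BoseTail

theorem mem_Lset {R : ℕ} {m : M3} : m ∈ Lset R ↔ m ≠ 0 ∧ ∀ c, m c ≤ R := by
  simp [Lset, Fintype.mem_piFinset, Nat.lt_succ_iff]

theorem Lset_zero : Lset 0 = ∅ := by
  refine Finset.eq_empty_of_forall_notMem fun m hm => ?_
  obtain ⟨h1, h2⟩ := mem_Lset.1 hm
  exact h1 (funext fun c => Nat.le_zero.1 (h2 c))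

theorem zero_notMem_Lset (R : ℕ) : (0 : M3) ∉ Lset R := by
  exact fun h => (mem_Lset.1 h).1 rfl

theorem card_eq_lat (R : ℕ) : ((Lset R).card : ℝ) = (R + 1) ^ 3 - 1 := by
  have h1 : (0 : M3) ∈ Fintype.piFinset fun _ : Fin 3 => range (R + 1) := by simp
  have h2 := Finset.card_erase_add_one h1
  rw [Fintype.card_piFinset] at h2
  simp only [Finset.card_range, Finset.prod_const, Finset.card_univ, Fintype.card_fin] at h2
  have h3 : ((Lset R).card : ℝ) + 1 = (R + 1) ^ 3 := by exact_mod_cast h2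
  linarith

theorem card_Lset (R : ℕ) : ((Lset R).card : ℝ) ≤ (R + 1) ^ 3 := by
  rw [card_eq_lat]
  linarith

theorem high_iff {R : ℕ} {m : M3} : High R m ↔ m ≠ 0 ∧ m ∉ Lset R := by
  rw [mem_Lset]
  constructor
  · rintro ⟨c, hc⟩
    refine ⟨fun h => ?_, fun h => absurd (h.2 c) (not_le.2 hc)⟩
    rw [h] at hc
    exact absurd hc (Nat.not_lt_zero _)
  · rintro ⟨h1, h2⟩
    by_contra h3
    exact h2 ⟨h1, fun c => not_lt.1 fun hc => h3 ⟨c, hc⟩⟩

theorem Bulk.high {R : ℕ} {m : M3} (h : Bulk R m) : High R m := by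
  exact ⟨0, h 0⟩

theorem sq_le_nm_lat (m : M3) (c : Fin 3) : (m c : ℝ) ^ 2 ≤ nm m :=
  Finset.single_le_sum (f := fun c => (m c : ℝ) ^ 2) (fun _ _ => sq_nonneg _) (Finset.mem_univ c)

theorem nm_nonneg_lat (m : M3) : 0 ≤ nm m := Finset.sum_nonneg fun _ _ => sq_nonneg _

theorem one_le_nm {m : M3} (h : m ≠ 0) : 1 ≤ nm m := by
  obtain ⟨c, hc⟩ := Function.ne_iff.1 h
  have h1 : (1 : ℝ) ≤ m c := by exact_mod_cast Nat.one_le_iff_ne_zero.2 hc
  exact le_trans (one_le_pow₀ h1) (sq_le_nm_lat m c)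

theorem High.le_nm {R : ℕ} {m : M3} (h : High R m) : ((R : ℝ) + 1) ^ 2 ≤ nm m := by
  obtain ⟨c, hc⟩ := h
  have h1 : (R : ℝ) + 1 ≤ m c := by exact_mod_cast hc
  exact le_trans (pow_le_pow_left₀ (by positivity) h1 2) (sq_le_nm_lat m c)

theorem nm_le_of_mem {R : ℕ} {m : M3} (h : m ∈ Lset R) : nm m ≤ 3 * (R : ℝ) ^ 2 := by
  have h1 : ∀ c, (m c : ℝ) ^ 2 ≤ (R : ℝ) ^ 2 := fun c =>
    pow_le_pow_left₀ (Nat.cast_nonneg _) (by exact_mod_cast (mem_Lset.1 h).2 c) 2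
  unfold nm
  rw [Fin.sum_univ_three]
  linarith [h1 0, h1 1, h1 2]

theorem wt3_bounds (m : M3) : 1 / 8 ≤ wt3 m ∧ wt3 m ≤ 1 := by
  unfold wt3
  rw [Fin.prod_univ_three]
  split_ifs <;> norm_num

theorem wt3_bulk {m : M3} (h : Bulk 0 m) : wt3 m = 1 := by
  exact Finset.prod_eq_one fun c _ => if_neg (h c).ne'

theorem sq3_pk (l : ℝ) (m : M3) : sq3 (pk l m) = π ^ 2 / l ^ 2 * nm m := by
  unfold sq3 pk nm
  rw [Finset.mul_sum]
  exact Finset.sum_congr rfl fun c _ => by ring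

theorem Box.Sz.sq3_p {B : Box} {s : ℝ} (hs : 0 < s) (h : B.Sz s) (m : M3) :
    π ^ 2 / (4 * s ^ 2) * nm m ≤ sq3 (B.p m) ∧ sq3 (B.p m) ≤ 4 * π ^ 2 / s ^ 2 * nm m := by
  unfold sq3 nm Box.p
  rw [Finset.mul_sum, Finset.mul_sum]
  have h1 : ∀ c, (π * m c / B.s c) ^ 2 = π ^ 2 / B.s c ^ 2 * (m c : ℝ) ^ 2 := fun c => by ring
  simp only [h1]
  constructor
  · refine Finset.sum_le_sum fun c _ => mul_le_mul_of_nonneg_right ?_ (sq_nonneg _)
    have h2 := B.pos c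
    refine div_le_div_of_nonneg_left (sq_nonneg _) (by positivity) ?_
    nlinarith [(h c).2]
  · refine Finset.sum_le_sum fun c _ => mul_le_mul_of_nonneg_right ?_ (sq_nonneg _)
    have h2 := B.pos c
    rw [div_le_div_iff₀ (by positivity) (by positivity)]
    have h3 : s ^ 2 ≤ 4 * B.s c ^ 2 := by nlinarith [(h c).1]
    nlinarith [mul_le_mul_of_nonneg_left h3 (sq_nonneg π)]

theorem subset_lat {R N : ℕ} (h : R ≤ N) : Lset R ⊆ Lset N := fun _ hm =>
  mem_Lset.2 ⟨(mem_Lset.1 hm).1, fun c => ((mem_Lset.1 hm).2 c).trans h⟩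

theorem shell_lat {A A' : Finset M3} (h : A ⊆ A') {f : M3 → ℝ} {c : ℝ}
    (hf : ∀ m ∈ A', m ∉ A → f m ≤ c) :
    ∑ m ∈ A', f m ≤ ∑ m ∈ A, f m + ((A'.card : ℝ) - A.card) * c := by
  have h1 := Finset.sum_sdiff (f := f) h
  have h2 := Finset.sum_le_card_nsmul (A' \ A) f c fun m hm =>
    hf m (Finset.mem_sdiff.1 hm).1 (Finset.mem_sdiff.1 hm).2
  have h3 : (((A' \ A).card : ℕ) : ℝ) + A.card = A'.card := by
    exact_mod_cast Finset.card_sdiff_add_card_eq_card h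
  rw [nsmul_eq_mul, eq_sub_of_add_eq h3] at h2
  linarith

theorem card_shell_lat (R : ℕ) :
    ((Lset (R + 1)).card : ℝ) - (Lset R).card ≤ 7 * ((R : ℝ) + 1) ^ 2 := by
  rw [card_eq_lat, card_eq_lat]
  push_cast
  have h : (0 : ℝ) ≤ R := Nat.cast_nonneg _
  nlinarith

/-- The shell `max m = j` has `3 j² + 3 j + 1 ≤ 7 j²` points. -/
theorem lat_low (R : ℕ) : ∑ m ∈ Lset R, 1 / nm m ≤ 7 * R := by
  induction R with
  | zero => simp [Lset_zero]
  | succ R ih =>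
    have hj : (0 : ℝ) < ((R : ℝ) + 1) ^ 2 := by positivity
    have h1 := shell_lat (subset_lat (Nat.le_succ R)) (f := fun m => 1 / nm m)
      (c := 1 / ((R : ℝ) + 1) ^ 2) fun m hm hm' =>
        one_div_le_one_div_of_le hj (High.le_nm (high_iff.2 ⟨(mem_Lset.1 hm).1, hm'⟩))
    have h2 : (((Lset (R + 1)).card : ℝ) - (Lset R).card) * (1 / ((R : ℝ) + 1) ^ 2) ≤ 7 := by
      rw [mul_one_div, div_le_iff₀ hj]
      exact card_shell_lat R
    push_cast
    linarith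

theorem exists_subset_lat (R : ℕ) (F : Finset M3) (hF : ∀ m ∈ F, m ≠ 0) :
    ∃ k, F ⊆ Lset (R + k) :=
  ⟨F.sup fun m => Finset.univ.sup m, fun m hm => mem_Lset.2 ⟨hF m hm, fun c =>
    ((Finset.le_sup (f := m) (Finset.mem_univ c)).trans
      (Finset.le_sup (f := fun m : M3 => Finset.univ.sup m) hm)).trans (Nat.le_add_left _ _)⟩⟩

theorem tail_lat (R k : ℕ) : ∑ m ∈ Lset (R + k), 1 / nm m ^ 2 ≤
    ∑ m ∈ Lset R, 1 / nm m ^ 2 + (14 / ((R : ℝ) + 1) - 14 / ((R : ℝ) + k + 1)) := by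
  induction k with
  | zero => simp
  | succ k ih =>
    set j : ℝ := ((R + k : ℕ) : ℝ) + 1 with hj
    have hj1 : 1 ≤ j := by
      have : (0 : ℝ) ≤ (R + k : ℕ) := Nat.cast_nonneg _
      linarith
    have hj0 : 0 < j := by linarith
    have h1 := shell_lat (subset_lat (Nat.le_succ (R + k))) (f := fun m => 1 / nm m ^ 2)
      (c := 1 / (j ^ 2) ^ 2) fun m hm hm' => one_div_le_one_div_of_le (by positivity)
        (pow_le_pow_left₀ (by positivity) (High.le_nm (high_iff.2 ⟨(mem_Lset.1 hm).1, hm'⟩)) 2)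
    have h2 : (((Lset (R + k + 1)).card : ℝ) - (Lset (R + k)).card) * (1 / (j ^ 2) ^ 2) ≤
        7 * j ^ 2 * (1 / (j ^ 2) ^ 2) :=
      mul_le_mul_of_nonneg_right (card_shell_lat (R + k)) (by positivity)
    have h3 : 7 * j ^ 2 * (1 / (j ^ 2) ^ 2) ≤ 14 / j - 14 / (j + 1) := by
      have h4 : 7 * j ^ 2 * (1 / (j ^ 2) ^ 2) = 7 / j ^ 2 := by field_simp
      have h5 : 14 / j - 14 / (j + 1) = 14 / (j * (j + 1)) := by field_simp; ring
      rw [h4, h5, div_le_div_iff₀ (by positivity) (by positivity)]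
      nlinarith
    have h6 : (R : ℝ) + k + 1 = j := by rw [hj]; push_cast; ring
    have h7 : (R : ℝ) + (k + 1 : ℕ) + 1 = j + 1 := by rw [hj]; push_cast; ring
    rw [h6] at ih
    rw [h7, ← add_assoc R k 1]
    linarith

theorem lat_high (R : ℕ) (F : Finset M3) (hF : ∀ m ∈ F, High R m) :
    ∑ m ∈ F, 1 / nm m ^ 2 ≤ 14 / ((R : ℝ) + 1) := by
  obtain ⟨k, hk⟩ := exists_subset_lat R F fun m hm => (high_iff.1 (hF m hm)).1
  have h1 : F ⊆ Lset (R + k) \ Lset R := fun m hm =>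
    Finset.mem_sdiff.2 ⟨hk hm, (high_iff.1 (hF m hm)).2⟩
  have h2 : ∑ m ∈ F, 1 / nm m ^ 2 ≤ ∑ m ∈ Lset (R + k) \ Lset R, 1 / nm m ^ 2 :=
    Finset.sum_le_sum_of_subset_of_nonneg h1 fun m _ _ => by positivity
  have h3 := Finset.sum_sdiff (f := fun m => 1 / nm m ^ 2) (subset_lat (Nat.le_add_right R k))
  have h4 := tail_lat R k
  have h5 : (0 : ℝ) ≤ 14 / ((R : ℝ) + k + 1) := by positivity
  linarith

theorem card_slab_lat (R N : ℕ) : (((Lset N).filter fun m => ∃ c, m c ≤ R).card : ℝ) =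
    ((N : ℝ) + 1) ^ 3 - 1 - ((N - R : ℕ) : ℝ) ^ 3 := by
  have h1 : (Lset N).filter (fun m => ¬∃ c, m c ≤ R) = Fintype.piFinset fun _ => Finset.Ioc R N := by
    ext m
    simp only [Finset.mem_filter, mem_Lset, Fintype.mem_piFinset, Finset.mem_Ioc, not_exists, not_le]
    constructor
    · exact fun h c => ⟨h.2 c, h.1.2 c⟩
    · refine fun h => ⟨⟨fun h0 => ?_, fun c => (h c).2⟩, fun c => (h c).1⟩
      have h2 := (h 0).1
      rw [h0] at h2
      exact absurd h2 (Nat.not_lt_zero _)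
  have h2 := Finset.card_filter_add_card_filter_not (s := Lset N) fun m => ∃ c, m c ≤ R
  rw [h1, Fintype.card_piFinset] at h2
  simp only [Nat.card_Ioc, Finset.prod_const, Finset.card_univ, Fintype.card_fin] at h2
  have h3 : (((Lset N).filter fun m => ∃ c, m c ≤ R).card : ℝ) + ((N - R : ℕ) : ℝ) ^ 3 =
      (Lset N).card := by exact_mod_cast h2
  rw [card_eq_lat] at h3
  linarith

theorem slab_lat (R N : ℕ) : ∑ m ∈ (Lset N).filter fun m => ∃ c, m c ≤ R, 1 / nm m ≤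
    7 * ((R : ℝ) + 1) * ((harmonic N : ℚ) : ℝ) := by
  induction N with
  | zero => simp [Lset_zero]
  | succ N ih =>
    have hN : (0 : ℝ) ≤ N := Nat.cast_nonneg _
    have hR : (0 : ℝ) ≤ R := Nat.cast_nonneg _
    have hj : (0 : ℝ) < ((N : ℝ) + 1) ^ 2 := by positivity
    have h1 := shell_lat (Finset.filter_subset_filter (fun m : M3 => ∃ c, m c ≤ R)
      (subset_lat (Nat.le_succ N))) (f := fun m => 1 / nm m)
      (c := 1 / ((N : ℝ) + 1) ^ 2) fun m hm hm' =>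
        one_div_le_one_div_of_le hj (High.le_nm (high_iff.2
          ⟨(mem_Lset.1 (Finset.mem_filter.1 hm).1).1, fun h =>
            hm' (Finset.mem_filter.2 ⟨h, (Finset.mem_filter.1 hm).2⟩)⟩))
    have h2 : (((Lset (N + 1)).filter fun m => ∃ c, m c ≤ R).card : ℝ) -
        ((Lset N).filter fun m => ∃ c, m c ≤ R).card ≤ 7 * ((R : ℝ) + 1) * ((N : ℝ) + 1) := by
      rw [card_slab_lat, card_slab_lat]
      rcases le_or_gt R N with h | h
      · have h3 : (R : ℝ) ≤ N := by exact_mod_cast h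
        rw [Nat.cast_sub h, Nat.cast_sub (h.trans (Nat.le_succ N))]
        push_cast
        nlinarith [mul_nonneg hN hR, mul_nonneg hR hR]
      · have h3 : (N : ℝ) + 1 ≤ R := by exact_mod_cast h
        rw [Nat.sub_eq_zero_of_le h, Nat.sub_eq_zero_of_le h.le]
        push_cast
        nlinarith [mul_nonneg hN hN]
    have h4 := mul_le_mul_of_nonneg_right h2 (one_div_nonneg.2 hj.le)
    have h5 : 7 * ((R : ℝ) + 1) * ((N : ℝ) + 1) * (1 / ((N : ℝ) + 1) ^ 2) =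
        7 * ((R : ℝ) + 1) * ((N : ℝ) + 1)⁻¹ := by field_simp
    rw [harmonic_succ]
    push_cast
    rw [mul_add]
    linarith

theorem lat_slab (R N : ℕ) (hN : 1 ≤ N) (F : Finset M3)
    (hF : ∀ m ∈ F, m ∈ Lset N ∧ ∃ c, m c ≤ R) :
    ∑ m ∈ F, 1 / nm m ≤ 12 * (R + 1) * (1 + Real.log N) := by
  have h1 : F ⊆ (Lset N).filter fun m => ∃ c, m c ≤ R := fun m hm =>
    Finset.mem_filter.2 (hF m hm)
  have h2 : ∑ m ∈ F, 1 / nm m ≤ ∑ m ∈ (Lset N).filter fun m => ∃ c, m c ≤ R, 1 / nm m :=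
    Finset.sum_le_sum_of_subset_of_nonneg h1 fun m _ _ => one_div_nonneg.2 (nm_nonneg_lat m)
  have h3 := slab_lat R N
  have h4 : ((harmonic N : ℚ) : ℝ) ≤ 1 + Real.log N := harmonic_le_one_add_log N
  have h5 : 0 ≤ Real.log N := Real.log_nonneg (by exact_mod_cast hN)
  have h6 : (0 : ℝ) ≤ (R : ℝ) + 1 := by positivity
  nlinarith [mul_le_mul_of_nonneg_left h4 h6, mul_nonneg h6 h5]

/-- Split at `R = ⌊1 / δ⌋`. -/
theorem lat_min {δ : ℝ} (hδ : 0 < δ) (F : Finset M3) (hF : ∀ m ∈ F, m ≠ 0) :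
    ∑ m ∈ F, min (1 / (δ ^ 2 * nm m)) (1 / (δ ^ 2 * nm m) ^ 2) ≤ 21 / δ ^ 3 := by
  set R : ℕ := ⌊1 / δ⌋₊ with hR
  have hR1 : (R : ℝ) ≤ 1 / δ := Nat.floor_le (by positivity)
  have hR2 : 1 / δ < (R : ℝ) + 1 := Nat.lt_floor_add_one _
  rw [← Finset.sum_filter_add_sum_filter_not F fun m => High R m]
  have h1 : ∑ m ∈ F.filter fun m => High R m,
      min (1 / (δ ^ 2 * nm m)) (1 / (δ ^ 2 * nm m) ^ 2) ≤ 14 / δ ^ 3 := by
    calc _ ≤ ∑ m ∈ F.filter fun m => High R m, 1 / δ ^ 4 * (1 / nm m ^ 2) :=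
          Finset.sum_le_sum fun m _ => (min_le_right _ _).trans_eq (by ring)
      _ ≤ 1 / δ ^ 4 * (14 / ((R : ℝ) + 1)) := by
          rw [← Finset.mul_sum]
          exact mul_le_mul_of_nonneg_left
            (lat_high R _ fun m hm => (Finset.mem_filter.1 hm).2) (by positivity)
      _ ≤ 1 / δ ^ 4 * (14 / (1 / δ)) :=
          mul_le_mul_of_nonneg_left
            (div_le_div_of_nonneg_left (by norm_num) (by positivity) hR2.le) (by positivity)
      _ = 14 / δ ^ 3 := by field_simp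
  have h2 : ∑ m ∈ F.filter fun m => ¬High R m,
      min (1 / (δ ^ 2 * nm m)) (1 / (δ ^ 2 * nm m) ^ 2) ≤ 7 / δ ^ 3 := by
    calc _ ≤ ∑ m ∈ F.filter fun m => ¬High R m, 1 / δ ^ 2 * (1 / nm m) :=
          Finset.sum_le_sum fun m _ => (min_le_left _ _).trans_eq (by ring)
      _ ≤ ∑ m ∈ Lset R, 1 / δ ^ 2 * (1 / nm m) := by
          refine Finset.sum_le_sum_of_subset_of_nonneg (fun m hm => ?_) fun m _ _ =>
            mul_nonneg (by positivity) (one_div_nonneg.2 (nm_nonneg_lat m))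
          obtain ⟨h3, h4⟩ := Finset.mem_filter.1 hm
          by_contra h5
          exact h4 (high_iff.2 ⟨hF m h3, h5⟩)
      _ ≤ 1 / δ ^ 2 * (7 * R) := by
          rw [← Finset.mul_sum]
          exact mul_le_mul_of_nonneg_left (lat_low R) (by positivity)
      _ ≤ 1 / δ ^ 2 * (7 * (1 / δ)) :=
          mul_le_mul_of_nonneg_left (by linarith) (by positivity)
      _ = 7 / δ ^ 3 := by field_simp
  have h6 : 21 / δ ^ 3 = 14 / δ ^ 3 + 7 / δ ^ 3 := by ring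
  linarith

end Pool.Agent.BoseLHY
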