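import Pool.Agent.Lib.MP_dec75e_mp.L.Crude
import Pool.Agent.Lib.MP_dec75e_mp.L.Cmp2

/-! The weight which covers the walls of the cells, and the choice of the translation. -/

open MeasureTheory Finset Function
open scoped Real

noncomputable section

namespace Pool.Agent.BoseLHY

open Pool.Agent.BoseTail

variable {N : ℕ} {L : ℝ} [Fact (0 < L)]

theorem Dat.c0_pos (D : Dat) : 0 < D.c0 := (crude D).choose_spec.choose_spec.choose_spec.2.1

theorem brk_half (K : ℕ) (h : ℝ) (σ : Fin 2) (k : ℕ) : ∃ n : ℕ, brk K h σ k = n * (h / 2) := by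
  unfold brk
  split_ifs
  · exact ⟨0, by simp⟩
  · exact ⟨2 * K, by push_cast; ring⟩
  · exact ⟨2 * k + σ, by push_cast; ring⟩

omit [Fact (0 < L)] in
theorem lay_wall {M : ℕ} {g r : ℝ} (hL : L = M * g) {Q : Box} (h1 : ∀ c, ∃ n : ℕ, Q.o c = n * g)
    (h2 : ∀ c, ∃ n : ℕ, Q.o c + Q.s c = n * g) {x : R3} (hx : x ∈ Q.set) (h : x ∈ Q.lay r) :
    proj L x ∈ layT (L := L) M r := by
  obtain ⟨c, hc⟩ := h
  have h3 := hx c (Set.mem_univ c)
  rw [Set.mem_Ico] at h3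
  rcases hc with hc | hc
  · obtain ⟨n, hn⟩ := h1 c
    exact ⟨c, norm_smul_cmp hL n (by rw [← hn, abs_of_nonneg (by linarith [h3.1])]; exact hc)⟩
  · obtain ⟨n, hn⟩ := h2 c
    refine ⟨c, norm_smul_cmp hL n ?_⟩
    rw [← hn, abs_of_nonpos (by linarith [h3.2])]
    linarith

/-- The weight on the torus. -/
def chiT (K M : ℕ) (r y : ℝ) (x : T3 L) : ℝ :=
  (layT K r).indicator (fun _ => (1 : ℝ)) x + y * (layT M r).indicator (fun _ => (1 : ℝ)) x

theorem bm_chiT (K M : ℕ) (r y : ℝ) : BM (chiT (L := L) K M r y) :=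
  (bm_ind_shift2 K r).add ((BM.const y).mul (bm_ind_shift2 M r))

omit [Fact (0 < L)] in
theorem ind_bd_lay (A : Set (T3 L)) (x : T3 L) :
    0 ≤ A.indicator (fun _ => (1 : ℝ)) x ∧ A.indicator (fun _ => (1 : ℝ)) x ≤ 1 := by
  by_cases h : x ∈ A <;> simp [h]

/-- The periodic weight. -/
def chiB (L : ℝ) [Fact (0 < L)] (K M : ℕ) (r y : ℝ) : BF R3 :=
  ⟨fun x => chiT K M r y (proj L x), (bm_chiT K M r y).comp (continuous_proj L).measurable⟩

omit [Fact (0 < L)] in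
theorem chiT_bd {y : ℝ} (hy : 0 ≤ y) (hy1 : y ≤ 1) (K M : ℕ) (r : ℝ) (x : T3 L) :
    0 ≤ chiT K M r y x ∧ chiT K M r y x ≤ 2 := by
  obtain ⟨a1, a2⟩ := ind_bd_lay (layT K r) x
  obtain ⟨b1, b2⟩ := ind_bd_lay (layT M r) x
  have h1 := mul_nonneg hy b1
  have h2 := mul_le_one₀ hy1 b1 b2
  unfold chiT
  constructor <;> linarith

theorem gd_chiB (D : Dat) {y l : ℝ} (hy : 0 ≤ y) (hy1 : y ≤ 1) {K : ℕ} (hL : L = K * l) {B : Box}
    (k : Fin 3 → ℕ) (ho : ∀ c, B.o c = k c * l) (hB : B.Cube l) :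
    D.Gd (chiB L K (2 * K * D.Kc y l) D.C y) B y l := by
  refine ⟨fun x => chiT_bd hy hy1 _ _ _ _, fun x hx hl => ?_, fun hh σ j x hx hl => ?_⟩
  · have h1 := lay_box_cmp hL k ho hB hx hl
    have h2 := mul_nonneg hy (ind_bd_lay (layT (2 * K * D.Kc y l) D.C) (proj L x)).1
    change 1 ≤ chiT _ _ _ _ _
    unfold chiT
    rw [Set.indicator_of_mem h1]
    linarith
  · generalize D.Kc y l = M at hh j hx hl ⊢
    have hM : (M : ℝ) ≠ 0 := by
      intro h0
      rw [h0, div_zero] at hh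
      exact lt_irrefl _ hh
    have h3 : ∀ c (i : ℕ), ∃ n : ℕ, B.o c + brk M (l / M) (σ c) i = n * (l / M / 2) := by
      intro c i
      obtain ⟨n, hn⟩ := brk_half M (l / M) (σ c) i
      refine ⟨k c * (2 * M) + n, ?_⟩
      rw [hn, ho]
      push_cast
      field_simp
    have h1 : proj L x ∈ layT (L := L) (2 * K * M) D.C := by
      refine lay_wall (g := l / M / 2) (by rw [hL]; push_cast; field_simp) (fun c => h3 c _)
        (fun c => ?_) hx hl
      obtain ⟨n, hn⟩ := h3 c (j c + 1)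
      refine ⟨n, ?_⟩
      rw [← hn]
      change B.o c + brk M (l / M) (σ c) (j c) +
        (brk M (l / M) (σ c) (j c + 1) - brk M (l / M) (σ c) (j c)) = _
      ring
    have h2 := (ind_bd_lay (layT K D.C) (proj L x)).1
    change y ≤ chiT _ _ _ _ _
    unfold chiT
    rw [Set.indicator_of_mem h1]
    linarith

/-- The weighted pair sum. -/
def LayP (a U : T3 L → ℝ) (ψ : Cf N L → ℂ) : ℝ :=
  ∑ i, ∫ X, a (X i) * ∑ j ∈ univ.erase i, U (X i - X j) * ‖ψ X‖ ^ 2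

theorem bm_pair_lay {U : T3 L → ℝ} (hU : BM U) {ψ : Cf N L → ℂ} (hψ : Continuous ψ) (i j : Fin N) :
    BM fun X : Cf N L => U (X i - X j) * ‖ψ X‖ ^ 2 :=
  (hU.comp ((measurable_pi_apply i).sub (measurable_pi_apply j))).mul
    (BM.of_cont (hψ.norm.pow 2))

theorem LayP_nonneg {a U : T3 L → ℝ} (ha : ∀ x, 0 ≤ a x) (hU : ∀ x, 0 ≤ U x) (ψ : Cf N L → ℂ) :
    0 ≤ LayP a U ψ :=
  sum_nonneg fun _ _ => integral_nonneg fun _ => mul_nonneg (ha _)
    (sum_nonneg fun _ _ => mul_nonneg (hU _) (sq_nonneg _))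

theorem layP_tr (a U : T3 L → ℝ) (ψ : Cf N L → ℂ) (u : T3 L) :
    LayP a U (tr u ψ) =
      ∑ i, ∫ X : Cf N L, a (X i - u) * ∑ j ∈ univ.erase i, U (X i - X j) * ‖ψ X‖ ^ 2 := by
  unfold LayP
  refine sum_congr rfl fun i _ => ?_
  rw [← integral_add_right_eq_self (μ := (volume : Measure (Cf N L)))
    (fun X : Cf N L => a (X i - u) * ∑ j ∈ univ.erase i, U (X i - X j) * ‖ψ X‖ ^ 2) (fun _ => u)]
  simp only [tr, Pi.add_apply, add_sub_cancel_right, add_sub_add_right_eq_sub]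

theorem pot_add_lay {ι : Type} [Fintype ι] [DecidableEq ι] (μ : ι → ProbabilityMeasure R3)
    (S : Finset ι) (W W' : BF (R3 × R3)) (f : Vs ι) :
    pot μ S (W + W') f = pot μ S W f + pot μ S W' f := by
  simp only [pot, map_add, add_mul, sum_add_distrib, mul_add]

/-- The energy with the weighted majorant. -/
theorem energy_geW {v : E3 → ℝ} (hv : Continuous v) (h0 : ∀ x, 0 ≤ v x) (hc : HasCompactSupport v)
    (D : Dat) (hw : ∀ z, D.w.1 z = v (WithLp.toLp 2 z)) {χ : BF R3} {a U : T3 L → ℝ} (ha : BM a)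
    (ha0 : ∀ x, 0 ≤ a x) (hχ : ∀ x, χ.1 x = a (proj L x)) (hU : BM U) (hU0 : ∀ x, 0 ≤ U x)
    (hV : ∀ x y : R3, D.V.1 (x - y) ≤ U (proj L x - proj L y)) {ψ : Cf N L → ℂ} (h : Adm ψ) :
    (L ^ 3) ^ N * (En (bigM N L) univ (D.W χ) (liftRe ψ h.1.1) +
      En (bigM N L) univ (D.W χ) (liftIm ψ h.1.1)) ≤ energy v ψ + LayP a U ψ := by
  have hL : 0 < L := Fact.out
  have hP : 0 ≤ (L ^ 3) ^ N := by positivity
  have h1 := energy_ge hv h0 hc hw D.ev.neg h
  have h2 : (L ^ 3) ^ N *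
      (pot (bigM N L) univ (pull Prod.fst measurable_fst χ * dif D.V) (liftRe ψ h.1.1) +
        pot (bigM N L) univ (pull Prod.fst measurable_fst χ * dif D.V) (liftIm ψ h.1.1)) ≤
      1 / 2 * LayP a U ψ := by
    unfold pot LayP
    rw [← mul_add, mul_left_comm, ← sum_add_distrib, mul_sum]
    refine mul_le_mul_of_nonneg_left (sum_le_sum fun i _ => ?_) (by norm_num)
    have hb : ∀ j, BM fun X : Cf N L => a (X i) * (U (X i - X j) * ‖ψ X‖ ^ 2) := fun j =>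
      (ha.comp (measurable_pi_apply i)).mul (bm_pair_lay hU h.1.1 i j)
    simp only [mul_sum]
    rw [integral_finsetSum _ fun j _ => (hb j).integrable, ← sum_add_distrib, mul_sum]
    refine sum_le_sum fun j _ => ?_
    rw [← integral_lift (hb j), ← map_add]
    refine mul_le_mul_of_nonneg_left ?_ hP
    refine integral_mono (bmOf _).integrable ((hb j).comp measurable_projN).integrable fun X => ?_
    change χ.1 (X i) * D.V.1 (X i - X j) *
        ((ψ fun i => proj L (X i)).re * (ψ fun i => proj L (X i)).re) +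
      χ.1 (X i) * D.V.1 (X i - X j) *
        ((ψ fun i => proj L (X i)).im * (ψ fun i => proj L (X i)).im) ≤
      a (proj L (X i)) * (U (proj L (X i) - proj L (X j)) * ‖ψ fun i => proj L (X i)‖ ^ 2)
    rw [← mul_add, ← Complex.normSq_apply, ← Complex.sq_norm, hχ, mul_assoc]
    exact mul_le_mul_of_nonneg_left (mul_le_mul_of_nonneg_right (hV _ _) (sq_nonneg _)) (ha0 _)
  have h3 := LayP_nonneg ha0 hU0 ψ
  unfold En at h1 ⊢
  unfold Dat.W
  rw [pot_add_lay, pot_add_lay]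
  linarith

/-- The average over all translations. -/
theorem avg_shift {a : T3 L → ℝ} (ha : BM a) {G : Fin N → Cf N L → ℝ} (hG : ∀ i, BM (G i)) :
    (Integrable fun u : T3 L => ∑ i, ∫ X : Cf N L, a (X i - u) * G i X) ∧
      ∫ u : T3 L, ∑ i, ∫ X : Cf N L, a (X i - u) * G i X = (∫ x, a x) * ∑ i, ∫ X, G i X := by
  have hb : ∀ i : Fin N, BM (uncurry fun (u : T3 L) (X : Cf N L) => a (X i - u) * G i X) :=
    fun i => BM.mul (BM.comp ha (T := fun p : T3 L × Cf N L => p.2 i - p.1)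
      (((measurable_pi_apply i).comp measurable_snd).sub measurable_fst))
      (BM.comp (hG i) measurable_snd)
  have hi : ∀ i : Fin N, Integrable fun u : T3 L => ∫ X : Cf N L, a (X i - u) * G i X := fun i =>
    (BM.integral_right (hb i)).integrable
  refine ⟨integrable_finsetSum univ fun i _ => hi i, ?_⟩
  have hv : ∀ y : T3 L, ∫ u : T3 L, a (y - u) = ∫ x, a x := fun y =>
    integral_sub_left_eq_self a volume y
  rw [integral_finsetSum _ fun i _ => hi i]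
  simp only [fun i => BM.swap (μ := (volume : Measure (T3 L))) (ν := (volume : Measure (Cf N L)))
    (hb i), integral_mul_const, hv, integral_const_mul]
  rw [← mul_sum]

theorem int_ind_lay {m : ℕ} (hm : 1 ≤ m) {r : ℝ} (hr : 0 ≤ r) :
    ∫ x : T3 L, (layT m r).indicator (fun _ => (1 : ℝ)) x ≤ 6 * m * r / L * L ^ 3 := by
  rw [integral_indicator (measurableSet_layT m r), setIntegral_const, smul_eq_mul, mul_one]
  exact vol_layT hm hr

theorem int_chiT (D : Dat) {y l : ℝ} (hy : 0 < y) (hy1 : y ≤ 1) {K : ℕ} (hK : 1 ≤ K)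
    (hL : L = K * l) (hl : 1 ≤ l * y ^ 404) :
    ∫ x : T3 L, chiT K (2 * K * D.Kc y l) D.C y x ≤
      (18 + 12 * √(2 / D.c0)) * D.C * y ^ 401 * L ^ 3 := by
  have hL0 : 0 < L := Fact.out
  have hC : 0 ≤ D.C := zero_le_one.trans D.hC
  have hK0 : (0 : ℝ) < K := by exact_mod_cast hK
  have hl0 : 0 < l := (mul_pos_iff_of_pos_right (pow_pos hy 404)).1 (lt_of_lt_of_le one_pos hl)
  have hq : 0 < √(2 / D.c0) := Real.sqrt_pos.2 (div_pos two_pos D.c0_pos)
  have hp : 0 < l * y ^ 400 * √(2 / D.c0) := by positivity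
  have hM1 : 1 ≤ D.Kc y l := Nat.one_le_iff_ne_zero.2 (Nat.ceil_pos.2 hp).ne'
  have hM2 : (D.Kc y l : ℝ) ≤ l * y ^ 400 * √(2 / D.c0) + 1 := (Nat.ceil_lt_add_one hp.le).le
  generalize D.Kc y l = M at hM1 hM2 ⊢
  generalize √(2 / D.c0) = q at hq hM2 ⊢
  have h1 := int_ind_lay (L := L) hK hC
  have h2 := int_ind_lay (L := L) (m := 2 * K * M) (Nat.one_le_iff_ne_zero.2 (by positivity)) hC
  unfold chiT
  rw [integral_add (bm_ind_shift2 _ _).integrable
    ((bm_ind_shift2 _ _).integrable.const_mul y), integral_const_mul]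
  have e1 : 6 * (K : ℝ) * D.C / L = 6 * D.C * (1 / l) := by rw [hL]; field_simp
  have e2 : 6 * ((2 * K * M : ℕ) : ℝ) * D.C / L = 12 * D.C * (M / l) := by
    rw [hL]; push_cast; field_simp; ring
  have a1 : 1 / l ≤ y ^ 404 := by rw [div_le_iff₀ hl0, mul_comm]; exact hl
  have a2 : y ^ 404 ≤ y ^ 401 := pow_le_pow_of_le_one hy.le hy1 (by norm_num)
  have a3 : y ^ 404 ≤ y ^ 400 := pow_le_pow_of_le_one hy.le hy1 (by norm_num)
  have a4 : (M : ℝ) / l ≤ y ^ 400 * (q + 1) := by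
    calc (M : ℝ) / l ≤ (l * y ^ 400 * q + 1) / l := div_le_div_of_nonneg_right hM2 hl0.le
      _ = y ^ 400 * q + 1 / l := by field_simp
      _ ≤ _ := by linarith
  rw [e1] at h1
  rw [e2] at h2
  have hV : 0 ≤ L ^ 3 := by positivity
  have b1 : 6 * D.C * (1 / l) * L ^ 3 ≤ 6 * D.C * y ^ 401 * L ^ 3 := by gcongr; linarith
  have b2 : y * (12 * D.C * (M / l) * L ^ 3) ≤ y * (12 * D.C * (y ^ 400 * (q + 1)) * L ^ 3) := by
    gcongr
  have b3 := mul_le_mul_of_nonneg_left h2 hy.le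
  have b4 : y * (12 * D.C * (y ^ 400 * (q + 1)) * L ^ 3) =
      (12 + 12 * q) * D.C * y ^ 401 * L ^ 3 := by ring
  linarith

/-- A translation which is good both for the difference forms and for the pairs in the layers. -/
theorem good_shift2 {v : E3 → ℝ} (hv : Continuous v) (h0 : ∀ x, 0 ≤ v x) (hc : HasCompactSupport v)
    (D : Dat) (hw : ∀ z, D.w.1 z = v (WithLp.toLp 2 z)) {A : ℝ} (hA : 0 ≤ A) :
    ∃ Q : ℝ, 1 ≤ Q ∧ ∀ (N : ℕ) (L : ℝ) [Fact (0 < L)] (ψ : Cf N L → ℂ) (hψ : Adm ψ) (y l : ℝ)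
      (K m : ℕ) (H : R3 → ℝ) (r t : ℝ), PB D.V A ψ → 0 < y → y ≤ 1 → 1 ≤ K → L = K * l →
      1 ≤ l * y ^ 404 → (N : ℝ) = y ^ 800 * L ^ 3 → Integrable H → (∀ z, 0 ≤ H z) → 1 ≤ m →
      0 ≤ r → 0 ≤ t →
      ∃ (u : T3 L) (χ : BF R3) (e : ℝ), Wgt χ ∧
        (∀ (B : Box) (k : Fin 3 → ℕ), (∀ c, B.o c = k c * l) → B.Cube l → D.Gd χ B y l) ∧ 0 ≤ e ∧
        (L ^ 3) ^ N * (En (bigM N L) univ (D.W χ) (liftRe (tr u ψ) (adm_tr u hψ).1.1) +
          En (bigM N L) univ (D.W χ) (liftIm (tr u ψ) (adm_tr u hψ).1.1)) ≤ energy v ψ + e ∧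
        t * LayE H m r (tr u ψ) + e ≤
          t * (6 * m * r / L * ∫ z, H z * Dz ψ z) + Q * y ^ 1201 * N := by
  have hC : 0 ≤ D.C := zero_le_one.trans D.hC
  have hq : 0 ≤ (18 + 12 * √(2 / D.c0)) * D.C := by positivity
  refine ⟨1 + (18 + 12 * √(2 / D.c0)) * D.C * A, by linarith [mul_nonneg hq hA], ?_⟩
  intro N L _ ψ hψ y l K m H r t hP hy hy1 hK hL hl hN hH hH0 hm hr ht
  obtain ⟨U, hU, hU0, hV, hP⟩ := hP
  have hL0 : 0 < L := Fact.out
  have hL3 : 0 < L ^ 3 := by positivity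
  have ha := bm_chiT (L := L) K (2 * K * D.Kc y l) D.C y
  have ha0 := fun x : T3 L => (chiT_bd hy.le hy1 K (2 * K * D.Kc y l) D.C x).1
  obtain ⟨i1, e1⟩ := avg_shift (bm_ind_shift2 (L := L) m r) fun i => bm_HG hψ.1.1 hH i
  obtain ⟨i2, e2⟩ := avg_shift ha
    (G := fun i X => ∑ j ∈ univ.erase i, U (X i - X j) * ‖ψ X‖ ^ 2)
    fun i => BM.sum fun j _ => bm_pair_lay hU hψ.1.1 i j
  have hne : (volume : Measure (T3 L)) ≠ 0 := by
    intro h
    have := vol_T3 (L := L)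
    rw [h] at this
    simp at this
    linarith
  obtain ⟨u, hu⟩ := exists_le_average hne ((i1.const_mul t).add i2)
  refine ⟨u, chiB L K (2 * K * D.Kc y l) D.C y,
    LayP (chiT K (2 * K * D.Kc y l) D.C y) U (tr u ψ), fun x => chiT_bd hy.le hy1 _ _ _ _,
    fun B k ho hB => gd_chiB D hy.le hy1 hL k ho hB, LayP_nonneg ha0 hU0 _, ?_, ?_⟩
  · rw [← energy_tr v u ψ]
    exact energy_geW hv h0 hc D hw ha ha0 (fun _ => rfl) hU hU0 hV (adm_tr u hψ)
  · rw [layE_tr_shift2, layP_tr]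
    refine le_trans hu ?_
    rw [average_eq, vol_T3, smul_eq_mul, inv_mul_le_iff₀ hL3]
    simp only [Pi.add_apply]
    rw [integral_add (i1.const_mul t) i2, integral_const_mul, e1, e2, integral_HG hψ.1.1 hH]
    have hI : 0 ≤ ∫ z, H z * Dz ψ z := integral_nonneg fun z => mul_nonneg (hH0 z) (Dz_nonneg ψ z)
    have a1 := mul_le_mul_of_nonneg_left
      (mul_le_mul_of_nonneg_right (int_ind_lay (L := L) hm hr) hI) ht
    have a2 : ∑ i, ∫ X : Cf N L, ∑ j ∈ univ.erase i, U (X i - X j) * ‖ψ X‖ ^ 2 ≤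
        A * y ^ 800 * N := by
      have a3 : (N : ℝ) / L ^ 3 = y ^ 800 := by rw [hN]; field_simp
      rw [a3] at hP
      refine le_of_eq_of_le (sum_congr rfl fun i _ => ?_) hP
      exact integral_finsetSum _ fun j _ => (bm_pair_lay hU hψ.1.1 i j).integrable
    have a4 : 0 ≤ ∑ i, ∫ X : Cf N L, ∑ j ∈ univ.erase i, U (X i - X j) * ‖ψ X‖ ^ 2 :=
      sum_nonneg fun _ _ => integral_nonneg fun _ =>
        sum_nonneg fun _ _ => mul_nonneg (hU0 _) (sq_nonneg _)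
    have a5 := mul_le_mul (int_chiT D hy hy1 hK hL hl) a2 a4 (by positivity)
    have a6 : 0 ≤ L ^ 3 * (y ^ 1201 * N) :=
      mul_nonneg hL3.le (mul_nonneg (pow_nonneg hy.le _) (Nat.cast_nonneg _))
    have a7 : (18 + 12 * √(2 / D.c0)) * D.C * y ^ 401 * L ^ 3 * (A * y ^ 800 * N) =
        (18 + 12 * √(2 / D.c0)) * D.C * A * (L ^ 3 * (y ^ 1201 * N)) := by ring
    rw [a7] at a5
    generalize (18 + 12 * √(2 / D.c0)) * D.C * A = P at a5 ⊢
    generalize y ^ 1201 = z at a5 a6 ⊢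
    linarith

end Pool.Agent.BoseLHY
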