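import Pool.Agent.Lib.MP_dec75e_mp.L.Kin3
import Pool.Agent.Lib.MP_dec75e_mp.Per
import Pool.Agent.Lib.MP_dec75e_mp.Tor

/-! From the torus to its fundamental domain. -/

open MeasureTheory Finset Function
open scoped Real

noncomputable section

namespace Pool.Agent.BoseLHY

open Pool.Agent.BoseTail

variable {N : ℕ} {L : ℝ} [Fact (0 < L)]

theorem big_cube : (big L).Cube L := fun _ => rfl

theorem act_big : Act (bigM N L) (big L) univ := fun _ _ => rfl

theorem pi_smul_lift {κ β : Type} [Fintype κ] [MeasurableSpace β] (ν : Measure β)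
    [IsFiniteMeasure ν] {c : ENNReal} (hc : c ≠ ⊤) :
    Measure.pi (fun _ : κ => c • ν) = c ^ Fintype.card κ • Measure.pi fun _ : κ => ν := by
  have : IsFiniteMeasure (c • ν) := Measure.smul_finite ν hc
  refine Measure.pi_eq fun s _ => ?_
  simp [Measure.pi_pi, prod_mul_distrib]

theorem inv_ne_lift : (ENNReal.ofReal L)⁻¹ ≠ ⊤ := by
  have hL : 0 < L := Fact.out
  simpa using hL

theorem mp1_lift : MeasurePreserving (fun t : ℝ => (t : AddCircle L)) (unif 0 L)
    ((ENNReal.ofReal L)⁻¹ • volume) := by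
  have h := (AddCircle.measurePreserving_mk L 0).smul_measure (ENNReal.ofReal L)⁻¹
  rw [← Measure.restrict_congr_set Ico_ae_eq_Ioc] at h
  exact h

theorem mp3_lift : MeasurePreserving (proj L) ((big L).μ : Measure R3)
    ((ENNReal.ofReal L)⁻¹ ^ 3 • volume) := by
  have : IsFiniteMeasure ((ENNReal.ofReal L)⁻¹ • (volume : Measure (AddCircle L))) :=
    Measure.smul_finite _ inv_ne_lift
  have h := measurePreserving_pi (fun _ : Fin 3 => unif 0 L)
    (fun _ : Fin 3 => (ENNReal.ofReal L)⁻¹ • (volume : Measure (AddCircle L)))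
    (f := fun _ t => (t : AddCircle L)) fun _ => mp1_lift
  rw [pi_smul_lift _ inv_ne_lift, Fintype.card_fin] at h
  exact h

theorem mpN_lift : MeasurePreserving (fun (X : Fin N → R3) (i : Fin N) => proj L (X i))
    (pm (bigM N L)) (((ENNReal.ofReal L)⁻¹ ^ 3) ^ N • volume) := by
  have hc : (ENNReal.ofReal L)⁻¹ ^ 3 ≠ ⊤ := ENNReal.pow_ne_top inv_ne_lift
  have : IsFiniteMeasure ((ENNReal.ofReal L)⁻¹ ^ 3 • (volume : Measure (T3 L))) :=
    Measure.smul_finite _ hc
  have h := measurePreserving_pi (fun _ : Fin N => ((big L).μ : Measure R3))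
    (fun _ : Fin N => (ENNReal.ofReal L)⁻¹ ^ 3 • (volume : Measure (T3 L)))
    (f := fun _ z => proj L z) fun _ => mp3_lift
  rw [pi_smul_lift _ hc, Fintype.card_fin] at h
  exact h

omit [Fact (0 < L)] in
theorem proj_dir_lift (X : Fin N → R3) (i : Fin N) (c : Fin 3) (t : ℝ) :
    (fun j => proj L ((X + dirR i c t) j)) = (fun j => proj L (X j)) + dir i c t := by
  funext j c'
  by_cases hj : j = i
  · subst hj
    by_cases hc : c' = c
    · subst hc
      simp [proj, dirR, dir, d1]
    · simp [proj, dirR, dir, d1, hc]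
  · simp [proj, dirR, dir, hj]

theorem measurable_projN : Measurable fun (X : Fin N → R3) (i : Fin N) => proj L (X i) := by
  exact (continuous_pi fun i => (continuous_proj L).comp (continuous_apply i)).measurable

/-- The projection of the fundamental domain onto the torus preserves the measure
(`AddCircle.measurePreserving_mk`). -/
theorem integral_lift {F : Cf N L → ℝ} (hF : BM F) :
    (L ^ 3) ^ N * ∫ X, F (fun i => proj L (X i)) ∂pm (bigM N L) = ∫ X, F X := by
  have hL : 0 < L := Fact.out
  have h1 : ∫ X, F (fun i => proj L (X i)) ∂pm (bigM N L) =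
      ∫ X, F X ∂(((ENNReal.ofReal L)⁻¹ ^ 3) ^ N • volume) := by
    rw [← (mpN_lift (N := N) (L := L)).map_eq,
      integral_map measurable_projN.aemeasurable hF.1.aestronglyMeasurable]
  rw [h1, integral_smul_measure, smul_eq_mul, ← mul_assoc, ENNReal.toReal_pow,
    ENNReal.toReal_pow, ENNReal.toReal_inv, ENNReal.toReal_ofReal hL.le, ← mul_pow, ← mul_pow,
    mul_inv_cancel₀ hL.ne', one_pow, one_pow, one_mul]

omit [Fact (0 < L)] in
theorem proj_update (X : Fin N → R3) (i : Fin N) (z : R3) :
    (fun j => proj L (update X i (X i + z) j)) =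
      (fun j => proj L (X j)) + Pi.single i (proj L z) := by
  funext j c
  by_cases hj : j = i
  · subst hj
    simp [proj]
  · simp [proj, hj]

theorem c1_lift {u : Cf N L → ℝ} (hu : IsC1 u) : C1 (lift u hu.1) := by
  refine fun i c => ⟨lift (dd (dir i c) u) (hu.2 i c).cdd, fun X => ?_⟩
  have h := (hu.2 i c).hd fun j => proj L (X j)
  simp only [← proj_dir_lift] at h
  exact h

theorem dd_lift {u : Cf N L → ℝ} (hu : Continuous u) (i : Fin N) (c : Fin 3) (X : Fin N → R3) :
    dd (dirR i c) (lift u hu).1 X = dd (dir i c) u fun j => proj L (X j) := by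
  unfold dd
  simp only [← proj_dir_lift]
  rfl

theorem lift_props {ψ : Cf N L → ℂ} (h : Adm ψ) :
    C1 (liftRe ψ h.1.1) ∧ C1 (liftIm ψ h.1.1) ∧ Sym univ (liftRe ψ h.1.1) ∧
      Sym univ (liftIm ψ h.1.1) ∧
      (L ^ 3) ^ N * (nq (ipB (bigM N L)) (liftRe ψ h.1.1) +
        nq (ipB (bigM N L)) (liftIm ψ h.1.1)) = 1 := by
  have hre : BM fun X => (ψ X).re * (ψ X).re :=
    BM.of_cont ((Complex.continuous_re.comp h.1.1).mul (Complex.continuous_re.comp h.1.1))
  have him : BM fun X => (ψ X).im * (ψ X).im :=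
    BM.of_cont ((Complex.continuous_im.comp h.1.1).mul (Complex.continuous_im.comp h.1.1))
  refine ⟨c1_lift h.1.re, c1_lift h.1.im, fun i _ j _ => Subtype.ext (funext fun X => ?_),
    fun i _ j _ => Subtype.ext (funext fun X => ?_), ?_⟩
  · exact congrArg Complex.re (h.2.1 (Equiv.swap i j) fun k => proj L (X k))
  · exact congrArg Complex.im (h.2.1 (Equiv.swap i j) fun k => proj L (X k))
  · have h1 : (L ^ 3) ^ N * nq (ipB (bigM N L)) (liftRe ψ h.1.1) =
        ∫ X, (ψ X).re * (ψ X).re := integral_lift hre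
    have h2 : (L ^ 3) ^ N * nq (ipB (bigM N L)) (liftIm ψ h.1.1) =
        ∫ X, (ψ X).im * (ψ X).im := integral_lift him
    rw [mul_add, h1, h2, ← integral_add hre.integrable him.integrable, ← h.2.2]
    refine integral_congr_ae (Filter.Eventually.of_forall fun X => ?_)
    simp only [Complex.sq_norm, Complex.normSq_apply]

end Pool.Agent.BoseLHY
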