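import Pool.Agent.Lib.MP_dec75e_mp.L.Lift

/-! From the torus to its fundamental domain. -/

open MeasureTheory Finset Function
open scoped Real

noncomputable section

namespace Pool.Agent.BoseLHY

open Pool.Agent.BoseTail

variable {N : ℕ} {L : ℝ} [Fact (0 < L)]

theorem fin_supp_lift2 {v : E3 → ℝ} (hc : HasCompactSupport v) :
    ∃ T : Finset (Fin 3 → ℤ), ∀ (z : T3 L) (n : Fin 3 → ℤ), n ∉ T →
      v (rep z + WithLp.toLp 2 fun c => L * (n c : ℝ)) = 0 := by
  have hL : 0 < L := Fact.out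
  obtain ⟨R, hR, hv⟩ := hc.exists_pos_le_norm
  refine ⟨Fintype.piFinset fun _ => Finset.Icc (-⌈R / L⌉) ⌈R / L⌉, fun z n hn => hv _ ?_⟩
  rw [Fintype.mem_piFinset, not_forall] at hn
  obtain ⟨c, hn⟩ := hn
  have h5 := PiLp.norm_apply_le (rep z + (WithLp.toLp 2 fun c => L * (n c : ℝ) : E3)) c
  have h7 : ‖(rep z + (WithLp.toLp 2 fun c => L * (n c : ℝ) : E3)) c‖ =
      |rep z c + L * (n c : ℝ)| := Real.norm_eq_abs _
  obtain ⟨h8, h9⟩ := rep_mem z c
  have h1 : R ≤ L * (⌈R / L⌉ : ℤ) := by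
    have := Int.le_ceil (R / L)
    rw [div_le_iff₀ hL] at this
    linarith
  have h6 : R ≤ |rep z c + L * (n c : ℝ)| := by
    rw [Finset.mem_Icc, not_and_or, not_le, not_le] at hn
    rcases hn with hn | hn
    · have h2 : (n c : ℝ) + 1 ≤ -(⌈R / L⌉ : ℤ) := by exact_mod_cast Int.add_one_le_of_lt hn
      exact le_abs.mpr (Or.inr (by nlinarith))
    · have h2 : ((⌈R / L⌉ : ℤ) : ℝ) + 1 ≤ n c := by exact_mod_cast Int.add_one_le_of_lt hn
      exact le_abs.mpr (Or.inl (by nlinarith))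
  linarith

/-- One term of the periodised potential. -/
theorem le_vper {v : E3 → ℝ} (h0 : ∀ x, 0 ≤ v x) (hc : HasCompactSupport v) (x y : R3) :
    v (WithLp.toLp 2 (x - y)) ≤ vper v (proj L x - proj L y) := by
  obtain ⟨T, hT⟩ := fin_supp_lift2 (L := L) hc
  have h1 : ∀ c, ∃ n : ℤ, n • L = x c - y c - rep (proj L x - proj L y) c := fun c => by
    refine (AddCircle.coe_eq_zero_iff L).1 ?_
    rw [AddCircle.coe_sub, AddCircle.coe_sub, coe_rep]
    exact sub_self _
  choose n hn using h1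
  have h2 : WithLp.toLp 2 (x - y) =
      rep (proj L x - proj L y) + (WithLp.toLp 2 fun c => L * (n c : ℝ) : E3) := by
    ext c
    have := hn c
    rw [zsmul_eq_mul] at this
    show x c - y c = rep (proj L x - proj L y) c + L * (n c : ℝ)
    linarith
  rw [h2, vper]
  exact (summable_of_ne_finset_zero (hT _)).le_tsum n fun _ _ => h0 _

theorem measurable_rep_lift2 : Measurable (rep (L := L)) :=
  (PiLp.continuous_toLp 2 (fun _ : Fin 3 => ℝ)).measurable.comp
    (measurable_pi_lambda _ fun c => (measurable_ico_per _).comp (measurable_pi_apply c))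

theorem bm_vper {v : E3 → ℝ} (hv : Continuous v) (hc : HasCompactSupport v) :
    BM (vper (L := L) v) := by
  obtain ⟨T, hT⟩ := fin_supp_lift2 (L := L) hc
  obtain ⟨C, hC⟩ := hv.bounded_above_of_compact_support hc
  have h1 : vper (L := L) v =
      fun z => ∑ n ∈ T, v (rep z + WithLp.toLp 2 fun c => L * (n c : ℝ)) :=
    funext fun z => tsum_eq_sum (hT z)
  rw [h1]
  exact BM.sum fun n _ => BM.comp ⟨hv.measurable, C, hC⟩ (measurable_rep_lift2.add_const _)

theorem kin_lift2 {u : Cf N L → ℝ} (hu : IsC1 u) :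
    (L ^ 3) ^ N * kin (bigM N L) univ (lift u hu.1) =
      (1 / 2) * ∑ i, ∑ c, ∫ x, dd (dir i c) u x ^ 2 := by
  unfold kin
  rw [mul_left_comm, Finset.mul_sum]
  congr 1
  refine Finset.sum_congr rfl fun i _ => ?_
  rw [Finset.mul_sum]
  refine Finset.sum_congr rfl fun c _ => ?_
  simp only [dd_lift]
  exact integral_lift (F := fun x => dd (dir i c) u x ^ 2)
    (BM.of_cont ((hu.2 i c).cdd.pow 2))

theorem kin_add_lift2 {ψ : Cf N L → ℂ} (h : IsC1 ψ) :
    (L ^ 3) ^ N * (kin (bigM N L) univ (liftRe ψ h.1) + kin (bigM N L) univ (liftIm ψ h.1)) =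
      (1 / 2) * ∑ i, ∑ c, ∫ x, ‖dd (dir i c) ψ x‖ ^ 2 := by
  have h1 := kin_lift2 h.re
  have h2 := kin_lift2 h.im
  have h3 : ∀ i c, ∫ x, ‖dd (dir i c) ψ x‖ ^ 2 =
      (∫ x, dd (dir i c) (fun x => (ψ x).re) x ^ 2) +
        ∫ x, dd (dir i c) (fun x => (ψ x).im) x ^ 2 := by
    intro i c
    have i1 : Integrable fun x => dd (dir i c) (fun x => (ψ x).re) x ^ 2 :=
      cont_integrable ((h.re.2 i c).cdd.pow 2)
    have i2 : Integrable fun x => dd (dir i c) (fun x => (ψ x).im) x ^ 2 :=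
      cont_integrable ((h.im.2 i c).cdd.pow 2)
    rw [← integral_add i1 i2]
    refine integral_congr_ae (Filter.Eventually.of_forall fun x => ?_)
    simp only [dd_re (h.2 i c), dd_im (h.2 i c)]
    rw [Complex.sq_norm, Complex.normSq_apply]
    ring
  simp only [h3, Finset.sum_add_distrib]
  rw [mul_add, mul_add]
  exact congrArg₂ (· + ·) h1 h2

theorem pot_eq_lift2 {w : BF R3} (he : ∀ z, w.1 (-z) = w.1 z)
    (μ : Fin N → ProbabilityMeasure R3) (f : Vs (Fin N)) :
    pot μ univ (dif w) f =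
      ∫ X, (∑ i, ∑ j, if i < j then w.1 (X i - X j) else 0) * f.1 X ^ 2 ∂pm μ := by
  have h1 : pot μ univ (dif w) f =
      ex μ ((1 / 2 : ℝ) • ∑ i, ∑ j ∈ univ.erase i, at2 i j (dif w) * (f * f)) := by
    simp only [pot, map_smul, map_sum, smul_eq_mul]
  rw [h1]
  refine integral_congr_ae (Filter.Eventually.of_forall fun X => ?_)
  have h2 := sum_lt_per (g := fun i j : Fin N => w.1 (X i - X j))
    fun i j => by rw [← he, neg_sub]
  simp only at h2 ⊢
  rw [h2]
  simp only [SetLike.val_smul, AddSubmonoidClass.coe_finsetSum, Pi.smul_apply, Finset.sum_apply,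
    smul_eq_mul]
  rw [mul_assoc, Finset.sum_mul]
  congr 1
  refine Finset.sum_congr rfl fun i _ => ?_
  rw [Finset.sum_mul]
  refine Finset.sum_congr rfl fun j _ => ?_
  show w.1 (X i - X j) * (f.1 X * f.1 X) = _
  ring

theorem bm_ite_lift2 {α : Type} [MeasurableSpace α] {g : Fin N → Fin N → α → ℝ}
    (hg : ∀ i j, BM (g i j)) : BM fun X => ∑ i, ∑ j, if i < j then g i j X else 0 := by
  refine BM.sum fun i _ => BM.sum fun j _ => ?_
  by_cases hij : i < j
  · simpa only [if_pos hij] using hg i j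
  · simpa only [if_neg hij] using BM.const (0 : ℝ)

theorem energy_ge {v : E3 → ℝ} (hv : Continuous v) (h0 : ∀ x, 0 ≤ v x) (hc : HasCompactSupport v)
    {w : BF R3} (hw : ∀ z, w.1 z = v (WithLp.toLp 2 z)) (he : ∀ z, w.1 (-z) = w.1 z)
    {ψ : Cf N L → ℂ} (h : Adm ψ) :
    (L ^ 3) ^ N * (En (bigM N L) univ (dif w) (liftRe ψ h.1.1) +
      En (bigM N L) univ (dif w) (liftIm ψ h.1.1)) ≤ energy v ψ := by
  have hL : 0 < L := Fact.out
  have h1 := kin_add_lift2 h.1
  have hW : BM fun X : Fin N → R3 => ∑ i, ∑ j, if i < j then w.1 (X i - X j) else 0 :=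
    bm_ite_lift2 (g := fun i j (X : Fin N → R3) => w.1 (X i - X j)) fun i j =>
      (bmOf w).comp ((measurable_pi_apply i).sub (measurable_pi_apply j))
  have hV : BM fun x : Cf N L => ∑ i, ∑ j, if i < j then vper v (x i - x j) else 0 :=
    bm_ite_lift2 (g := fun i j (x : Cf N L) => vper v (x i - x j)) fun i j =>
      (bm_vper hv hc).comp ((measurable_pi_apply i).sub (measurable_pi_apply j))
  have hF : BM fun x : Cf N L =>
      (∑ i, ∑ j, if i < j then vper v (x i - x j) else 0) * ‖ψ x‖ ^ 2 :=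
    hV.mul (BM.of_cont (h.1.1.norm.pow 2))
  have h2 := integral_lift hF
  have h3 : pot (bigM N L) univ (dif w) (liftRe ψ h.1.1) +
      pot (bigM N L) univ (dif w) (liftIm ψ h.1.1) ≤
      ∫ X, (∑ i, ∑ j, if i < j then vper v (proj L (X i) - proj L (X j)) else 0) *
        ‖ψ fun i => proj L (X i)‖ ^ 2 ∂pm (bigM N L) := by
    have i1 := (hW.mul ((bmOf (liftRe ψ h.1.1)).pow 2)).integrable (μ := pm (bigM N L))
    have i2 := (hW.mul ((bmOf (liftIm ψ h.1.1)).pow 2)).integrable (μ := pm (bigM N L))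
    rw [pot_eq_lift2 he, pot_eq_lift2 he, ← integral_add i1 i2]
    refine integral_mono (i1.add i2) (hF.comp measurable_projN).integrable fun X => ?_
    have e1 : (liftRe ψ h.1.1).1 X ^ 2 + (liftIm ψ h.1.1).1 X ^ 2 =
        ‖ψ fun i => proj L (X i)‖ ^ 2 := by
      rw [Complex.sq_norm, Complex.normSq_apply, sq, sq]
      rfl
    simp only
    rw [← mul_add, e1]
    refine mul_le_mul_of_nonneg_right ?_ (sq_nonneg _)
    refine Finset.sum_le_sum fun i _ => Finset.sum_le_sum fun j _ => ?_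
    split_ifs
    · rw [hw]
      exact le_vper h0 hc _ _
    · exact le_rfl
  have h4 := mul_le_mul_of_nonneg_left h3 (show (0 : ℝ) ≤ (L ^ 3) ^ N by positivity)
  unfold energy En
  rw [← h1, ← h2]
  linarith

end Pool.Agent.BoseLHY
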