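import Pool.Agent.Lib.MP_dec75e_mp.L.BoxC

/-! The second order lower bound for states with few low excitations. -/

open MeasureTheory Finset Function
open scoped Real

noncomputable section

namespace Pool.Agent.BoseLHY

open Pool.Agent.BoseTail

theorem card_le_lowbox {y l n : ℝ} {R : ℕ} (h : Scale y l R) (hy : y ≤ 1)
    (hn : |n - y ^ 800 * l ^ 3| ≤ y ^ 80 * (y ^ 800 * l ^ 3)) : n * y ^ 412 ≤ 16 := by
  have hy0 := h.y0
  have hl := h.l_pos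
  have h1 : y ^ 80 ≤ 1 := pow_le_one₀ hy0.le hy
  have h2 : 0 ≤ y ^ 800 * l ^ 3 := by positivity
  have h3 : y ^ 80 * (y ^ 800 * l ^ 3) ≤ y ^ 800 * l ^ 3 := mul_le_of_le_one_left h2 h1
  have h4 : n ≤ 2 * (y ^ 800 * l ^ 3) := by linarith [(abs_le.1 hn).2]
  have h5 : (l * y ^ 404) ^ 3 ≤ 2 ^ 3 := pow_le_pow_left₀ (by positivity) h.l2 3
  calc n * y ^ 412 ≤ 2 * (y ^ 800 * l ^ 3) * y ^ 412 :=
        mul_le_mul_of_nonneg_right h4 (by positivity)
    _ = 2 * (l * y ^ 404) ^ 3 := by ring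
    _ ≤ 16 := by linarith

theorem kappa_nonneg_lowbox (D : Dat) {y l c : ℝ} {m : M3} (hy : 0 < y)
    (hb : |c| ≤ min (D.tm y l m) 1 / 2) : 0 ≤ sq3 (pk l m) / 2 + D.mu0 y * c := by
  have hmu : 0 < D.mu0 y := D.mu0_pos hy
  have h1 : -(D.tm y l m / 2) ≤ c := by
    have h2 := (abs_le.1 hb).1
    have h3 : min (D.tm y l m) 1 ≤ D.tm y l m := min_le_left _ _
    linarith
  have h4 : D.mu0 y * (-(D.tm y l m / 2)) ≤ D.mu0 y * c := mul_le_mul_of_nonneg_left h1 hmu.le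
  have h5 : D.mu0 y * (-(D.tm y l m / 2)) = -(sq3 (pk l m) / 4) := by
    unfold Dat.tm; field_simp; ring
  have h6 := sq3_nonneg (pk l m)
  linarith

/-- `gen` with `τ m = if High R m then p²/2 - 2 y^796 else p²/2 + μ₀ b m - y^836`, `γL = y^836`,
`γH = y^796`, `Γ = y^838`, `θ = y^12`, `r m = lam² / (2 p²)`; `low_num`, `low_sum`. -/
theorem low_box (D : Dat) : ∃ C y₀ : ℝ, 1 ≤ C ∧ 0 < y₀ ∧ y₀ ≤ 1 ∧
    ∀ (y l : ℝ) (R : ℕ) (b : M3 → ℝ), Scale y l R → y ≤ y₀ →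
      (∀ m, |b m| ≤ min (D.tm y l m) 1 / 2) →
    ∀ {ι : Type} [Fintype ι] [DecidableEq ι] (μ : ι → ProbabilityMeasure R3) (B : Box)
      (S : Finset ι) (ψ : Vs ι) (M : ℕ) (T : ℝ) (χ : BF R3), Wgt χ → D.Cov χ B 1 →
      B.Cube l → Act μ B S → Sym S ψ →
      |(S.card : ℝ) - y ^ 800 * l ^ 3| ≤ y ^ 80 * (y ^ 800 * l ^ 3) →
      (M : ℝ) ≤ S.card * y ^ 120 → LowA (Lp B R) S M ψ →
      HasSum (fun m => (sq3 (pk l m) / 2 + D.mu0 y * b m) * occ μ B S m ψ) T →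
      (D.mu0 y * S.card + D.tgt y l R b - C * y ^ 789) * nq (ipB μ) ψ ≤
        T + pot μ S (D.W χ) ψ := by
  obtain ⟨C₁, y₁, hC₁, hy₁, hy₁1, hbox⟩ := box_consts D
  obtain ⟨C₂, y₂, hC₂, hy₂, -, hnum⟩ := low_num hC₁
  obtain ⟨C₃, y₃, hC₃, hy₃, -, hsum⟩ := low_sum D hC₁
  refine ⟨C₂ + C₃, min y₁ (min y₂ y₃), by linarith, lt_min hy₁ (lt_min hy₂ hy₃),
    (min_le_left _ _).trans hy₁1, ?_⟩
  intro y l R b hsc hy hb ι _ _ μ B S ψ M T χ hχ hcov hcube hA hS hn hM hL hT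
  have hy1 : y ≤ y₁ := hy.trans (min_le_left _ _)
  have hy2 : y ≤ y₂ := hy.trans ((min_le_right _ _).trans (min_le_left _ _))
  have hy3 : y ≤ y₃ := hy.trans ((min_le_right _ _).trans (min_le_right _ _))
  have hyle : y ≤ 1 := hy1.trans hy₁1
  have hy0 : 0 < y := hsc.y0
  have hl : 0 < l := hsc.l_pos
  have hmu : 0 < D.mu0 y := D.mu0_pos hy0
  obtain ⟨hBs, hmu0, hlb, hlip, he4, hb0, -, -, he5, he3, he2, he1⟩ := hbox y l R B hsc hy1 hcube
  have hlam0 : D.lam B 0 = 4 * π * D.a / l ^ 3 := by rw [D.lam_zero, hcube.vol]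
  obtain ⟨hlow, hmain⟩ := hsum y l R b (D.lam B) S.card hsc hy3 hb hn hlam0 hlip
  have hn16 : (S.card : ℝ) * y ^ 412 ≤ 16 := card_le_lowbox hsc hyle hn
  obtain ⟨hΓ, hγL, hγH, hrest⟩ := hnum y S.card M (Lset R).card hy0 hy2 (Nat.cast_nonneg _) hn16
    (Nat.cast_nonneg _) hM (Nat.cast_nonneg _) (hsc.card_le hyle)
  have hC0 : 0 ≤ C₁ := by linarith
  have hnH : ∀ m ∈ Lset R, ¬High R m := fun m hm hH => (high_iff.1 hH).2 hm
  set τ : M3 → ℝ := fun m => if High R m then sq3 (pk l m) / 2 - 2 * y ^ 796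
    else sq3 (pk l m) / 2 + D.mu0 y * b m - y ^ 836 with hτ
  have hτH : ∀ m, High R m → τ m = sq3 (pk l m) / 2 - 2 * y ^ 796 := fun m hm => if_pos hm
  have hτL : ∀ m ∈ Lset R, τ m = sq3 (pk l m) / 2 + D.mu0 y * b m - y ^ 836 :=
    fun m hm => if_neg (hnH m hm)
  have key := gen (μ := μ) (B := B) (S := S) (R := R) (M := M) (ψ := ψ) hA hS hL
    (W := D.W χ) (G := B.symk D.g) (G' := B.symk D.g') (b := D.bk B 1)
    (l := D.lam B) (l' := D.lam' B) (κ := fun m => sq3 (pk l m) / 2 + D.mu0 y * b m) (τ := τ)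
    (r := fun m => D.lam B m ^ 2 / (2 * sq3 (pk l m)))
    (lb := C₁ * y ^ 1212) (b₀ := C₁ * y ^ 1616) (e₁ := C₁ * y ^ 1615) (e₂ := C₁ * y ^ 1603)
    (e₃ := C₁ * y ^ 1640) (e₄ := C₁ * y ^ 1996) (e₅ := C₁ * y ^ 1604) (θ := y ^ 12)
    (γL := y ^ 836) (γH := y ^ 796) (Γ := y ^ 838) (T := T)
    (D.eig_g hBs) (D.eig_g' hBs) 
    (fun x hx z hz α β => D.pw B hχ one_pos (mul_one _).ge hcov hx hz α β)
    (D.bk_nonneg B zero_le_one) hb0 hT
    (kappa_nonneg_lowbox D hy0 (hb 0))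
    (fun m hm => by rw [hτL m hm]; exact (sub_add_cancel _ _).le)
    (fun m hm => by
      rw [hτH m hm]
      have h1 : -(1 / 2) ≤ b m := by
        have h2 := (abs_le.1 (hb m)).1
        have h3 : min (D.tm y l m) 1 ≤ 1 := min_le_right _ _
        linarith
      have h4 : D.mu0 y * (-(1 / 2)) ≤ D.mu0 y * b m := mul_le_mul_of_nonneg_left h1 hmu.le
      linarith)
    (fun m hm => by
      by_cases hH : High R m
      · rw [hτH m hH]; exact (he3 m hH).1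
      · have hmL : m ∈ Lset R := by
          by_contra hc
          exact hH (high_iff.2 ⟨hm, hc⟩)
        rw [hτL m hmL]; exact (hlow m hmL).2)
    hlb (by rw [hlam0]; have := D.ha; positivity) (fun m hm => (hlow m hm).1)
    (fun m _ => div_nonneg (sq_nonneg _) (mul_nonneg zero_le_two (sq3_nonneg _))) he5
    (fun F hF => by
      rw [Finset.sum_congr rfl fun m hm => by rw [hτH m (hF m hm)]]
      exact he1 F hF)
    (mul_nonneg hC0 (pow_nonneg hy0.le _))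
    (fun F hF => by
      rw [Finset.sum_congr rfl fun m hm => by rw [hτH m (hF m hm).1]]
      exact he2 F hF)
    (fun m hm => by rw [hτH m hm]; exact (he3 m hm).2)
    (mul_nonneg hC0 (pow_nonneg hy0.le _)) he4 (mul_nonneg hC0 (pow_nonneg hy0.le _))
    (pow_pos hy0 _) hΓ hγL hγH
  refine le_trans (mul_le_mul_of_nonneg_right ?_ ((psd_ipB μ).nq_nonneg ψ)) key
  rw [Finset.sum_congr rfl fun m hm => by rw [hτL m hm]]
  rw [add_mul]
  linarith

end Pool.Agent.BoseLHY
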