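import Pool.Agent.Lib.MP_dec75e_mp.L.Bog
import Pool.Agent.Lib.MP_dec75e_mp.L.Lat
import Pool.Agent.Lib.MP_dec75e_mp.L.Ct

/-! Numerical estimates at the chosen scales. -/

open MeasureTheory Finset Function
open scoped Real

noncomputable section

namespace Pool.Agent.BoseLHY

open Pool.Agent.BoseTail

theorem Scale.l_pos {y l : ℝ} {R : ℕ} (h : Scale y l R) : 0 < l := by
  have h1 := h.l1
  have h2 : 0 < y ^ 404 := pow_pos h.y0 _
  by_contra hl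
  have : l * y ^ 404 ≤ 0 := mul_nonpos_of_nonpos_of_nonneg (not_lt.1 hl) h2.le
  linarith

theorem Scale.card_le {y l : ℝ} {R : ℕ} (h : Scale y l R) (hy : y ≤ 1) :
    ((Lset R).card : ℝ) * y ^ 36 ≤ 27 := by
  have h1 := card_Lset R
  have h2 : y ^ 12 ≤ 1 := pow_le_one₀ h.y0.le hy
  have h3 : ((R : ℝ) + 1) * y ^ 12 ≤ 3 := by have := h.r2; linarith
  have h4 : 0 ≤ ((R : ℝ) + 1) * y ^ 12 := by have := h.y0; positivity
  have h5 : (((R : ℝ) + 1) * y ^ 12) ^ 3 ≤ 3 ^ 3 := pow_le_pow_left₀ h4 h3 3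
  have h6 : 0 ≤ y ^ 36 := pow_nonneg h.y0.le _
  calc ((Lset R).card : ℝ) * y ^ 36 ≤ ((R : ℝ) + 1) ^ 3 * y ^ 36 := by gcongr
    _ = (((R : ℝ) + 1) * y ^ 12) ^ 3 := by ring
    _ ≤ 27 := by linarith

theorem Scale.coef_lownum {y l : ℝ} {R : ℕ} (h : Scale y l R) :
    2 * y ^ 808 ≤ π ^ 2 / l ^ 2 ∧ π ^ 2 / l ^ 2 ≤ 10 * y ^ 808 := by
  have hl := h.l_pos
  have hy := h.y0
  have p1 : 9 ≤ π ^ 2 := by nlinarith [Real.pi_gt_three]
  have p2 : π ^ 2 ≤ 10 := by nlinarith [Real.pi_lt_d2, Real.pi_pos]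
  have h1 : (l * y ^ 404) ^ 2 ≤ 2 ^ 2 := pow_le_pow_left₀ (by positivity) h.l2 2
  have h2 : 1 ≤ (l * y ^ 404) ^ 2 := one_le_pow₀ h.l1
  have h3 : (l * y ^ 404) ^ 2 = y ^ 808 * l ^ 2 := by ring
  constructor
  · rw [le_div_iff₀ (by positivity)]; linarith
  · rw [div_le_iff₀ (by positivity)]; linarith

/-- Sizes of the momenta: all nonzero modes, high modes, low modes. -/
theorem Scale.mom {y l : ℝ} {R : ℕ} (h : Scale y l R) (m : M3) :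
    (m ≠ 0 → 2 * y ^ 808 ≤ sq3 (pk l m)) ∧ (High R m → 2 * y ^ 784 ≤ sq3 (pk l m)) ∧
      (m ∈ Lset R → sq3 (pk l m) ≤ 120 * y ^ 784) := by
  have hl := h.l_pos
  have hy := h.y0
  obtain ⟨hlo, hup⟩ := h.coef_lownum
  have hnm : 0 ≤ nm m := Finset.sum_nonneg fun c _ => sq_nonneg _
  rw [sq3_pk]
  refine ⟨fun hm => ?_, fun hm => ?_, fun hm => ?_⟩
  · have h1 := one_le_nm hm
    calc 2 * y ^ 808 = 2 * y ^ 808 * 1 := by ring
      _ ≤ π ^ 2 / l ^ 2 * nm m := by gcongr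
  · have h1 := hm.le_nm
    have h2 : 1 ≤ ((R : ℝ) + 1) * y ^ 12 := by
      have := h.r1
      have h3 : 0 ≤ y ^ 12 := by positivity
      linarith
    have h3 : 1 ≤ (((R : ℝ) + 1) * y ^ 12) ^ 2 := one_le_pow₀ h2
    calc 2 * y ^ 784 = 2 * y ^ 784 * 1 := by ring
      _ ≤ 2 * y ^ 784 * (((R : ℝ) + 1) * y ^ 12) ^ 2 := by gcongr
      _ = 2 * y ^ 808 * ((R : ℝ) + 1) ^ 2 := by ring
      _ ≤ π ^ 2 / l ^ 2 * nm m := by gcongr
  · have h1 := nm_le_of_mem hm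
    have h2 : ((R : ℝ) * y ^ 12) ^ 2 ≤ 2 ^ 2 := pow_le_pow_left₀ (by positivity) h.r2 2
    calc π ^ 2 / l ^ 2 * nm m ≤ 10 * y ^ 808 * (3 * (R : ℝ) ^ 2) := by gcongr
      _ = 30 * y ^ 784 * ((R : ℝ) * y ^ 12) ^ 2 := by ring
      _ ≤ 30 * y ^ 784 * 2 ^ 2 := by gcongr
      _ = 120 * y ^ 784 := by ring

theorem Scale.log_le {y l : ℝ} {R : ℕ} (h : Scale y l R) (hy : y ≤ 1) :
    (1 + Real.log l) * y ≤ 406 := by
  have hl := h.l_pos
  have hy0 := h.y0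
  have h1 : Real.log (l * y ^ 404) ≤ 1 := by
    have := Real.log_le_sub_one_of_pos (show 0 < l * y ^ 404 by positivity)
    have := h.l2
    linarith
  rw [Real.log_mul hl.ne' (by positivity), Real.log_pow] at h1
  have h2 : Real.log y⁻¹ ≤ y⁻¹ - 1 := Real.log_le_sub_one_of_pos (inv_pos.2 hy0)
  rw [Real.log_inv] at h2
  have h3 : -Real.log y * y ≤ 1 := by
    have h4 : -Real.log y * y ≤ (y⁻¹ - 1) * y := by gcongr
    have h5 : (y⁻¹ - 1) * y = 1 - y := by field_simp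
    linarith
  have h4 : (1 + Real.log l) * y ≤ (2 - 404 * Real.log y) * y := by
    push_cast at h1
    gcongr
    linarith
  nlinarith

theorem Dat.mu0_pos (D : Dat) {y : ℝ} (hy : 0 < y) : 0 < D.mu0 y := by
  have := D.ha
  unfold Dat.mu0
  positivity

theorem Dat.tm_pos (D : Dat) {y l : ℝ} {R : ℕ} (h : Scale y l R) {m : M3} (hm : m ≠ 0) :
    0 < D.tm y l m ∧ 1 / D.tm y l m * y ^ 8 ≤ 4 * π * D.a := by
  have h1 := (h.mom m).1 hm
  have hy := h.y0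
  have h2 := D.mu0_pos hy
  have ha := D.ha
  have h3 : 0 < sq3 (pk l m) := lt_of_lt_of_le (by positivity) h1
  refine ⟨div_pos h3 (by positivity), ?_⟩
  unfold Dat.tm
  rw [one_div_div, div_mul_eq_mul_div, div_le_iff₀ h3]
  unfold Dat.mu0
  calc 2 * (4 * π * D.a * y ^ 800) * y ^ 8 = 4 * π * D.a * (2 * y ^ 808) := by ring
    _ ≤ 4 * π * D.a * sq3 (pk l m) := by gcongr

/-- `FF_le` and counting. -/
theorem Dat.tgt_le (D : Dat) : ∃ C : ℝ, 1 ≤ C ∧ ∀ (y l : ℝ) (R : ℕ) (b : M3 → ℝ), Scale y l R →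
    y ≤ 1 → (∀ m, |b m| ≤ min (D.tm y l m) 1 / 2) →
    D.tgt y l R b ≤ -(2 * π * D.a * y ^ 1600 * l ^ 3) + C * y ^ 756 := by
  have ha := D.ha
  refine ⟨1 + 108 * π ^ 2 * D.a ^ 2, by linarith [show 0 ≤ 108 * π ^ 2 * D.a ^ 2 by positivity],
    fun y l R b h hy hb => ?_⟩
  have hy0 := h.y0
  have hc := h.card_le hy
  have h1 : ∀ m ∈ Lset R, FF (D.tm y l m + b m) (D.tm y l m) * y ^ 8 ≤ π * D.a := by
    intro m hm
    obtain ⟨ht, ht2⟩ := D.tm_pos h (mem_Lset.1 hm).1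
    have hb1 : |b m| ≤ D.tm y l m / 2 := (hb m).trans (by gcongr; exact min_le_left _ _)
    have hb2 := neg_abs_le (b m)
    have h2 := FF_le (τ := D.tm y l m + b m) (t := D.tm y l m) (by linarith)
    calc FF (D.tm y l m + b m) (D.tm y l m) * y ^ 8 ≤ 1 / (4 * D.tm y l m) * y ^ 8 := by gcongr
      _ = 1 / D.tm y l m * y ^ 8 / 4 := by field_simp
      _ ≤ π * D.a := by linarith
  have h2 : (∑ m ∈ Lset R, FF (D.tm y l m + b m) (D.tm y l m)) * y ^ 8 ≤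
      (Lset R).card * (π * D.a) := by
    rw [Finset.sum_mul]
    simpa using Finset.sum_le_card_nsmul _ _ _ h1
  unfold Dat.tgt Dat.mu0
  have h3 : 4 * π * D.a * y ^ 800 * ∑ m ∈ Lset R, FF (D.tm y l m + b m) (D.tm y l m) ≤
      108 * π ^ 2 * D.a ^ 2 * y ^ 756 :=
    calc 4 * π * D.a * y ^ 800 * ∑ m ∈ Lset R, FF (D.tm y l m + b m) (D.tm y l m)
        = 4 * π * D.a * y ^ 792 *
          ((∑ m ∈ Lset R, FF (D.tm y l m + b m) (D.tm y l m)) * y ^ 8) := by ring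
      _ ≤ 4 * π * D.a * y ^ 792 * ((Lset R).card * (π * D.a)) := by gcongr
      _ = 4 * π ^ 2 * D.a ^ 2 * y ^ 756 * ((Lset R).card * y ^ 36) := by ring
      _ ≤ 4 * π ^ 2 * D.a ^ 2 * y ^ 756 * 27 := by gcongr
      _ = 108 * π ^ 2 * D.a ^ 2 * y ^ 756 := by ring
  have h4 : 0 ≤ y ^ 756 := by positivity
  linarith

theorem pw_lownum {y : ℝ} (hy : 0 < y) (hy1 : y ≤ 1) {a b : ℕ} (h : a ≤ b) : y ^ b ≤ y ^ a :=
  pow_le_pow_of_le_one hy.le hy1 h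

theorem fin_lownum {C y K : ℝ} (hC : 1 ≤ C) (hy : 0 < y) (hCy : 500000 * C * y ≤ 1)
    (hK : K ≤ 500000) (a : ℕ) : K * C * y ^ (a + 1) ≤ y ^ a := by
  have h1 : K * C * y ≤ 500000 * C * y := by gcongr
  calc K * C * y ^ (a + 1) = K * C * y * y ^ a := by ring
    _ ≤ 1 * y ^ a := by gcongr; linarith
    _ = y ^ a := one_mul _

theorem first_lownum {C y n M k : ℝ} (hC : 1 ≤ C) (hy : 0 < y) (hy1 : y ≤ 1)
    (hCy : 500000 * C * y ≤ 1) (hn : 0 ≤ n) (hn1 : n * y ^ 412 ≤ 16) (hM : 0 ≤ M)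
    (hM2 : M * y ^ 292 ≤ 16) (hM3 : (M + 1) * y ^ 292 ≤ 17) (hk : 0 ≤ k)
    (hk1 : k * y ^ 36 ≤ 27) :
    2 * (C * y ^ 1212) * √(8 * k * M * n) + 64 * (C * y ^ 1640) * (M + 1) * k * n +
      2 * n * (C * y ^ 1604) ≤ y ^ 838 := by
  have hC0 : 0 ≤ C := by linarith
  have h1 : √(8 * k * M * n) * y ^ 370 ≤ 236 := by
    have h2 : √(8 * k * M * n) * y ^ 370 = √(8 * k * M * n * (y ^ 370) ^ 2) := by
      rw [Real.sqrt_mul (x := 8 * k * M * n) (by positivity), Real.sqrt_sq (by positivity)]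
    rw [h2, Real.sqrt_le_left (by norm_num)]
    calc 8 * k * M * n * (y ^ 370) ^ 2 = 8 * (k * y ^ 36) * (M * y ^ 292) * (n * y ^ 412) := by
          ring
      _ ≤ 8 * 27 * 16 * 16 := by gcongr
      _ ≤ 236 ^ 2 := by norm_num
  have t1 : 2 * (C * y ^ 1212) * √(8 * k * M * n) ≤ 472 * C * y ^ 839 :=
    calc 2 * (C * y ^ 1212) * √(8 * k * M * n)
        = 2 * C * y ^ 842 * (√(8 * k * M * n) * y ^ 370) := by ring
      _ ≤ 2 * C * y ^ 839 * 236 := by gcongr 2 * C * ?_ * ?_; exact pw_lownum hy hy1 (by norm_num)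
      _ = 472 * C * y ^ 839 := by ring
  have t2 : 64 * (C * y ^ 1640) * (M + 1) * k * n ≤ 470016 * C * y ^ 839 :=
    calc 64 * (C * y ^ 1640) * (M + 1) * k * n
        = 64 * C * y ^ 900 * ((M + 1) * y ^ 292) * (k * y ^ 36) * (n * y ^ 412) := by ring
      _ ≤ 64 * C * y ^ 839 * 17 * 27 * 16 := by
        gcongr 64 * C * ?_ * ?_ * ?_ * ?_; exact pw_lownum hy hy1 (by norm_num)
      _ = 470016 * C * y ^ 839 := by ring
  have t3 : 2 * n * (C * y ^ 1604) ≤ 32 * C * y ^ 839 :=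
    calc 2 * n * (C * y ^ 1604) = 2 * C * y ^ 1192 * (n * y ^ 412) := by ring
      _ ≤ 2 * C * y ^ 839 * 16 := by
        gcongr 2 * C * ?_ * ?_; exact pw_lownum hy hy1 (by norm_num)
      _ = 32 * C * y ^ 839 := by ring
  have t4 := fin_lownum (K := 470520) hC hy hCy (by norm_num) 838
  norm_num at t4
  linarith

theorem one_lownum {C y n : ℝ} (hC : 1 ≤ C) (hy : 0 < y) (hy1 : y ≤ 1) (hn : 0 ≤ n)
    (hn1 : n * y ^ 412 ≤ 16) {a b : ℕ} (h : a ≤ b) :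
    n * (C * y ^ (b + 412)) ≤ 16 * C * y ^ a := by
  have hC0 : 0 ≤ C := by linarith
  calc n * (C * y ^ (b + 412)) = C * y ^ b * (n * y ^ 412) := by ring
    _ ≤ C * y ^ a * 16 := by gcongr C * ?_ * ?_; exact pw_lownum hy hy1 h
    _ = 16 * C * y ^ a := by ring

theorem two_lownum {C y n : ℝ} (hC : 1 ≤ C) (hy : 0 < y) (hy1 : y ≤ 1) (hn : 0 ≤ n)
    (hn1 : n * y ^ 412 ≤ 16) {a b : ℕ} (h : a ≤ b) :
    C * y ^ (b + 824) * n ^ 2 ≤ 256 * C * y ^ a := by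
  have hC0 : 0 ≤ C := by linarith
  calc C * y ^ (b + 824) * n ^ 2 = C * y ^ b * (n * y ^ 412) * (n * y ^ 412) := by ring
    _ ≤ C * y ^ a * 16 * 16 := by gcongr C * ?_ * ?_ * ?_; exact pw_lownum hy hy1 h
    _ = 256 * C * y ^ a := by ring

theorem second_lownum {C y n M k : ℝ} (hC : 1 ≤ C) (hy : 0 < y) (hy1 : y ≤ 1)
    (hCy : 500000 * C * y ≤ 1) (hn : 0 ≤ n) (hn1 : n * y ^ 412 ≤ 16)
    (hM3 : (M + 1) * y ^ 292 ≤ 17) (hk : 0 ≤ k) (hk1 : k * y ^ 36 ≤ 27) :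
    C * y ^ 1212 * (M + 1) + n * (C * y ^ 1996 + 4 * (C * y ^ 1615) +
      32 * (C * y ^ 1616) * k + 32 * (C * y ^ 1603) * (1 + 1 / y ^ 12)) + y ^ 838 ≤ y ^ 836 := by
  have hC0 : 0 ≤ C := by linarith
  have hp : 0 ≤ C * y ^ 920 := by positivity
  have t1 : C * y ^ 1212 * (M + 1) ≤ 17 * C * y ^ 837 :=
    calc C * y ^ 1212 * (M + 1) = C * y ^ 920 * ((M + 1) * y ^ 292) := by ring
      _ ≤ C * y ^ 920 * 17 := by gcongr
      _ ≤ C * y ^ 837 * 17 := by gcongr C * ?_ * 17; exact pw_lownum hy hy1 (by norm_num)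
      _ = 17 * C * y ^ 837 := by ring
  have t2 : n * (C * y ^ 1996) ≤ 16 * C * y ^ 837 :=
    one_lownum hC hy hy1 hn hn1 (a := 837) (b := 1584) (by norm_num)
  have t3 : n * (C * y ^ 1615) ≤ 16 * C * y ^ 837 :=
    one_lownum hC hy hy1 hn hn1 (a := 837) (b := 1203) (by norm_num)
  have t4 : n * (C * y ^ 1580) ≤ 16 * C * y ^ 837 :=
    one_lownum hC hy hy1 hn hn1 (a := 837) (b := 1168) (by norm_num)
  have t5 : n * (C * y ^ 1603) ≤ 16 * C * y ^ 837 :=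
    one_lownum hC hy hy1 hn hn1 (a := 837) (b := 1191) (by norm_num)
  have t6 : n * (C * y ^ 1591) ≤ 16 * C * y ^ 837 :=
    one_lownum hC hy hy1 hn hn1 (a := 837) (b := 1179) (by norm_num)
  have t7 : n * (C * y ^ 1616 * k) ≤ 16 * C * y ^ 837 * 27 :=
    calc n * (C * y ^ 1616 * k) = n * (C * y ^ 1580) * (k * y ^ 36) := by ring
      _ ≤ 16 * C * y ^ 837 * 27 := by gcongr
  have t8 : C * y ^ 1603 * (1 + 1 / y ^ 12) = C * y ^ 1603 + C * y ^ 1591 := by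
    have : y ^ 1603 = y ^ 1591 * y ^ 12 := by ring
    have h12 : y ^ 12 ≠ 0 := by positivity
    rw [this]
    field_simp
  have t9 : y ^ 838 ≤ C * y ^ 837 :=
    calc y ^ 838 ≤ y ^ 837 := pw_lownum hy hy1 (by norm_num)
      _ = 1 * y ^ 837 := (one_mul _).symm
      _ ≤ C * y ^ 837 := by gcongr
  have t10 := fin_lownum (K := 14946) hC hy hCy (by norm_num) 836
  norm_num at t10
  have e : n * (C * y ^ 1996 + 4 * (C * y ^ 1615) + 32 * (C * y ^ 1616) * k +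
      32 * (C * y ^ 1603) * (1 + 1 / y ^ 12)) = n * (C * y ^ 1996) + 4 * (n * (C * y ^ 1615)) +
      32 * (n * (C * y ^ 1616 * k)) + 32 * (n * (C * y ^ 1603)) + 32 * (n * (C * y ^ 1591)) := by
    rw [mul_assoc 32 (C * y ^ 1603), t8]; ring
  rw [e]
  linarith

theorem third_lownum {C y n : ℝ} (hC : 1 ≤ C) (hy : 0 < y) (hy1 : y ≤ 1)
    (hCy : 500000 * C * y ≤ 1) (hn : 0 ≤ n) (hn1 : n * y ^ 412 ≤ 16) :
    2 * (C * y ^ 1640) * n ^ 2 + C * y ^ 1212 * n + y ^ 838 ≤ y ^ 796 := by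
  have t1 : C * y ^ 1640 * n ^ 2 ≤ 256 * C * y ^ 797 :=
    two_lownum hC hy hy1 hn hn1 (a := 797) (b := 816) (by norm_num)
  have t2 : n * (C * y ^ 1212) ≤ 16 * C * y ^ 797 :=
    one_lownum hC hy hy1 hn hn1 (a := 797) (b := 800) (by norm_num)
  have t9 : y ^ 838 ≤ C * y ^ 797 :=
    calc y ^ 838 ≤ y ^ 797 := pw_lownum hy hy1 (by norm_num)
      _ = 1 * y ^ 797 := (one_mul _).symm
      _ ≤ C * y ^ 797 := by gcongr
  have t10 := fin_lownum (K := 529) hC hy hCy (by norm_num) 796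
  norm_num at t10
  linarith

theorem fourth_lownum {C y n : ℝ} (hC : 1 ≤ C) (hy : 0 < y) (hy1 : y ≤ 1) (hn : 0 ≤ n)
    (hn1 : n * y ^ 412 ≤ 16) :
    n * (C * y ^ 1604) + (C * y ^ 1615 + C * y ^ 1616 + y ^ 12 * (C * y ^ 1603)) * n ^ 2 ≤
      784 * C * y ^ 789 := by
  have t1 : C * y ^ 1615 * n ^ 2 ≤ 256 * C * y ^ 789 :=
    two_lownum hC hy hy1 hn hn1 (a := 789) (b := 791) (by norm_num)
  have t2 : C * y ^ 1616 * n ^ 2 ≤ 256 * C * y ^ 789 :=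
    two_lownum hC hy hy1 hn hn1 (a := 789) (b := 792) (by norm_num)
  have t3 : n * (C * y ^ 1604) ≤ 16 * C * y ^ 789 :=
    one_lownum hC hy hy1 hn hn1 (a := 789) (b := 1192) (by norm_num)
  have e : (C * y ^ 1615 + C * y ^ 1616 + y ^ 12 * (C * y ^ 1603)) * n ^ 2 =
      2 * (C * y ^ 1615 * n ^ 2) + C * y ^ 1616 * n ^ 2 := by ring
  rw [e]
  linarith

/-- The smallness conditions of `gen` at the chosen scales. -/
theorem low_num {C : ℝ} (hC : 1 ≤ C) : ∃ C' y₀ : ℝ, 1 ≤ C' ∧ 0 < y₀ ∧ y₀ ≤ 1 ∧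
    ∀ y n M k : ℝ, 0 < y → y ≤ y₀ → 0 ≤ n → n * y ^ 412 ≤ 16 → 0 ≤ M → M ≤ n * y ^ 120 → 0 ≤ k →
      k * y ^ 36 ≤ 27 →
      2 * (C * y ^ 1212) * √(8 * k * M * n) + 64 * (C * y ^ 1640) * (M + 1) * k * n +
          2 * n * (C * y ^ 1604) ≤ y ^ 838 ∧
        C * y ^ 1212 * (M + 1) + n * (C * y ^ 1996 + 4 * (C * y ^ 1615) +
          32 * (C * y ^ 1616) * k + 32 * (C * y ^ 1603) * (1 + 1 / y ^ 12)) + y ^ 838 ≤ y ^ 836 ∧
        2 * (C * y ^ 1640) * n ^ 2 + C * y ^ 1212 * n + y ^ 838 ≤ y ^ 796 ∧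
        n * (C * y ^ 1604) + (C * y ^ 1615 + C * y ^ 1616 + y ^ 12 * (C * y ^ 1603)) * n ^ 2 ≤
          C' * y ^ 789 := by
  have hC0 : 0 < C := by linarith
  refine ⟨784 * C, 1 / (500000 * C), by linarith, by positivity, ?_, ?_⟩
  · rw [div_le_one (by positivity)]; linarith
  intro y n M k hy hy0 hn hn1 hM hM1 hk hk1
  have hCy : 500000 * C * y ≤ 1 := by
    rw [le_div_iff₀ (by positivity)] at hy0; linarith
  have hy1 : y ≤ 1 := by nlinarith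
  have hM2 : M * y ^ 292 ≤ 16 :=
    calc M * y ^ 292 ≤ n * y ^ 120 * y ^ 292 := by gcongr
      _ = n * y ^ 412 := by ring
      _ ≤ 16 := hn1
  have hM3 : (M + 1) * y ^ 292 ≤ 17 := by
    have : y ^ 292 ≤ 1 := pow_le_one₀ hy.le hy1
    linarith
  exact ⟨first_lownum hC hy hy1 hCy hn hn1 hM hM2 hM3 hk hk1,
    second_lownum hC hy hy1 hCy hn hn1 hM3 hk hk1, third_lownum hC hy hy1 hCy hn hn1,
    fourth_lownum hC hy hy1 hn hn1⟩

end Pool.Agent.BoseLHY
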