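import Pool.Agent.Lib.MP_dec75e_mp.L.Lat
import Pool.Agent.Lib.MP_dec75e_mp.L.Bog

/-! Riemann sums. -/

open MeasureTheory Finset Function
open scoped Real

noncomputable section

namespace Pool.Agent.BoseLHY

open Pool.Agent.BoseTail

/-- Reflection of one coordinate. -/
def flip_riem (c : Fin 3) (z : R3) : R3 := fun d => if d = c then -z d else z d

theorem flip_flip_riem (c : Fin 3) (z : R3) : flip_riem c (flip_riem c z) = z := by
  funext d
  unfold flip_riem
  split_ifs <;> simp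

theorem flip_mp_riem (c : Fin 3) : MeasurePreserving (flip_riem c) volume volume := by
  have h := measurePreserving_pi (fun _ : Fin 3 => (volume : Measure ℝ)) (fun _ => volume)
    (f := fun d (x : ℝ) => if d = c then -x else x) (fun d => by
      by_cases hd : d = c
      · simp only [hd, if_true]
        exact Measure.measurePreserving_neg volume
      · simp only [hd, if_false]
        exact MeasurePreserving.id volume)
  exact h

theorem integral_flip_riem (c : Fin 3) (f : R3 → ℝ) : ∫ z, f (flip_riem c z) = ∫ z, f z := by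
  let e : R3 ≃ᵐ R3 :=
    { toFun := flip_riem c
      invFun := flip_riem c
      left_inv := flip_flip_riem c
      right_inv := flip_flip_riem c
      measurable_toFun := (flip_mp_riem c).measurable
      measurable_invFun := (flip_mp_riem c).measurable }
  exact MeasurePreserving.integral_comp' (f := e) (flip_mp_riem c) f

theorem half_riem (c : Fin 3) {f : R3 → ℝ} (hf : Integrable f)
    (he : ∀ z, f (flip_riem c z) = f z) :
    ∫ z, f z = 2 * ∫ z, {z : R3 | 0 ≤ z c}.indicator f z := by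
  have hm : MeasurableSet {z : R3 | 0 ≤ z c} :=
    measurableSet_le measurable_const (measurable_pi_apply c)
  have h1 : ∫ z, f z = (∫ z, {z : R3 | 0 ≤ z c}.indicator f z) +
      ∫ z, {z : R3 | 0 ≤ z c}ᶜ.indicator f z := by
    rw [← integral_add (hf.indicator hm) (hf.indicator hm.compl)]
    simp only [Set.indicator_self_add_compl_apply]
  have h2 : ∫ z, {z : R3 | 0 ≤ z c}ᶜ.indicator f z = ∫ z, {z : R3 | 0 ≤ z c}.indicator f z := by
    rw [← integral_flip_riem c]
    refine integral_congr_ae ?_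
    have h0 : ∀ᵐ z : R3, z c ≠ 0 := Measure.ae_eval_ne (fun _ : Fin 3 => (volume : Measure ℝ)) c 0
    filter_upwards [h0] with z hz
    have hv : flip_riem c z c = -z c := by simp [flip_riem]
    by_cases h : 0 ≤ z c
    · have h' : flip_riem c z ∈ {z : R3 | 0 ≤ z c}ᶜ := by
        simp only [Set.mem_compl_iff, Set.mem_ofPred_eq, hv, not_le]
        have := lt_of_le_of_ne h hz.symm
        linarith
      rw [Set.indicator_of_mem h', Set.indicator_of_mem (show z ∈ {z : R3 | 0 ≤ z c} from h), he]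
    · have h' : flip_riem c z ∉ {z : R3 | 0 ≤ z c}ᶜ := by
        simp only [Set.mem_compl_iff, Set.mem_ofPred_eq, hv, not_not]
        linarith [not_le.1 h]
      rw [Set.indicator_of_notMem h',
        Set.indicator_of_notMem (show z ∉ {z : R3 | 0 ≤ z c} from h)]
  rw [h1, h2]
  ring

theorem ind_flip_riem {c d : Fin 3} (hcd : d ≠ c) {f : R3 → ℝ} (he : ∀ z, f (flip_riem c z) = f z)
    (z : R3) :
    {z : R3 | 0 ≤ z d}.indicator f (flip_riem c z) = {z : R3 | 0 ≤ z d}.indicator f z := by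
  have hv : flip_riem c z d = z d := by simp [flip_riem, hcd]
  simp only [Set.indicator, Set.mem_ofPred_eq, hv, he]

theorem octant_riem {Φ : R3 → ℝ} (hi : Integrable Φ) (he : Ev Φ) :
    ∫ z, Φ z = 8 * ∫ z, {z : R3 | ∀ c, 0 ≤ z c}.indicator Φ z := by
  have hm : ∀ c, MeasurableSet {z : R3 | 0 ≤ z c} := fun c =>
    measurableSet_le measurable_const (measurable_pi_apply c)
  have e : ∀ c z, Φ (flip_riem c z) = Φ z := fun c z => he _ _ fun d => by
    unfold flip_riem
    split_ifs <;> simp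
  have h0 := half_riem 0 hi (e 0)
  have h1 := half_riem 1 (hi.indicator (hm 0)) (ind_flip_riem (by decide) (e 1))
  have h2 := half_riem 2 ((hi.indicator (hm 0)).indicator (hm 1))
    (ind_flip_riem (by decide) (ind_flip_riem (by decide) (e 2)))
  have h3 : {z : R3 | 0 ≤ z 2}.indicator ({z : R3 | 0 ≤ z 1}.indicator
      ({z : R3 | 0 ≤ z 0}.indicator Φ)) = {z : R3 | ∀ c, 0 ≤ z c}.indicator Φ := by
    rw [Set.indicator_indicator, Set.indicator_indicator]
    congr 1
    ext z
    simp only [Set.mem_inter_iff, Set.mem_ofPred_eq, Fin.forall_fin_succ, IsEmpty.forall_iff,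
      and_true]
    constructor
    · rintro ⟨⟨a, b⟩, c⟩
      exact ⟨c, b, a⟩
    · rintro ⟨a, b, c⟩
      exact ⟨⟨c, b⟩, a⟩
  rw [h3] at h2
  rw [h0, h1, h2]
  ring

/-- The cell of the lattice with lower corner `δ m`. -/
def cell_riem (δ : ℝ) (m : M3) : Set R3 :=
  Set.pi Set.univ fun c => Set.Ico (δ * m c) (δ * (m c + 1))

theorem meas_cell_riem (δ : ℝ) (m : M3) : MeasurableSet (cell_riem δ m) :=
  MeasurableSet.univ_pi fun _ => measurableSet_Ico

theorem vol_cell_riem {δ : ℝ} (hδ : 0 < δ) (m : M3) : volume.real (cell_riem δ m) = δ ^ 3 := by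
  have h := Real.volume_pi_Ico_toReal (a := fun c => δ * m c) (b := fun c => δ * (m c + 1))
    (fun c => by nlinarith)
  rw [Measure.real, cell_riem, h]
  simp only [mul_add, mul_one, add_sub_cancel_left, Finset.prod_const, Finset.card_univ,
    Fintype.card_fin]

theorem fin_cell_riem (δ : ℝ) (m : M3) : volume (cell_riem δ m) ≠ ⊤ := by
  rw [cell_riem, Real.volume_pi_Ico]
  exact ENNReal.prod_ne_top fun _ _ => ENNReal.ofReal_ne_top

theorem mem_cell_riem {δ : ℝ} (hδ : 0 < δ) {m : M3} {z : R3} :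
    z ∈ cell_riem δ m ↔ (∀ c, 0 ≤ z c) ∧ m = fun c => ⌊z c / δ⌋₊ := by
  simp only [cell_riem, Set.mem_pi, Set.mem_univ, true_imp_iff, Set.mem_Ico]
  constructor
  · intro h
    have h0 : ∀ c, 0 ≤ z c := fun c => le_trans (by positivity) (h c).1
    refine ⟨h0, funext fun c => ?_⟩
    symm
    rw [Nat.floor_eq_iff (div_nonneg (h0 c) hδ.le), le_div_iff₀ hδ, div_lt_iff₀ hδ]
    constructor <;> linarith [(h c).1, (h c).2]
  · rintro ⟨h0, rfl⟩ c
    have h1 := Nat.floor_le (div_nonneg (h0 c) hδ.le)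
    have h2 := Nat.lt_floor_add_one (z c / δ)
    rw [le_div_iff₀ hδ] at h1
    rw [div_lt_iff₀ hδ] at h2
    constructor <;> linarith

theorem sum_cell_riem {δ : ℝ} (hδ : 0 < δ) (F : Finset M3) (a : M3 → ℝ) :
    ∫ z, ∑ m ∈ F, (cell_riem δ m).indicator (fun _ => a m) z = δ ^ 3 * ∑ m ∈ F, a m := by
  rw [integral_finsetSum _ fun m _ =>
    (integrableOn_const (fin_cell_riem δ m)).integrable_indicator (meas_cell_riem δ m),
    Finset.mul_sum]
  refine Finset.sum_congr rfl fun m _ => ?_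
  rw [integral_indicator_const _ (meas_cell_riem δ m), vol_cell_riem hδ, smul_eq_mul]

theorem point_riem {Φ : R3 → ℝ} {r ε δ : ℝ} {R : ℕ} (hr : ∀ z, r ≤ ‖z‖ → Φ z = 0) (hε : 0 ≤ ε)
    (hδ : 0 < δ) (hδ1 : δ ≤ 1) (hu : ∀ z z' : R3, ‖z - z'‖ ≤ δ → |Φ z - Φ z'| ≤ ε)
    (hR : r ≤ δ * R) (z : R3) :
    ‖∑ m ∈ Fintype.piFinset fun _ : Fin 3 => range (R + 1),
        (cell_riem δ m).indicator (fun _ => Φ fun c => δ * m c) z -
      {z : R3 | ∀ c, 0 ≤ z c}.indicator Φ z‖ ≤
      (Metric.closedBall (0 : R3) (r + 1)).indicator (fun _ => ε) z := by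
  have hpos : 0 ≤ (Metric.closedBall (0 : R3) (r + 1)).indicator (fun _ => ε) z :=
    Set.indicator_nonneg (fun _ _ => hε) z
  by_cases h0 : ∀ c, 0 ≤ z c
  · obtain ⟨m0, hm0⟩ : ∃ m0 : M3, m0 = fun c => ⌊z c / δ⌋₊ := ⟨_, rfl⟩
    have hz : z ∈ cell_riem δ m0 := (mem_cell_riem hδ).2 ⟨h0, hm0⟩
    have hs : ∑ m ∈ Fintype.piFinset fun _ : Fin 3 => range (R + 1),
        (cell_riem δ m).indicator (fun _ => Φ fun c => δ * m c) z = Φ fun c => δ * m0 c := by
      rw [Finset.sum_eq_single m0]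
      · rw [Set.indicator_of_mem hz]
      · intro m _ hm
        refine Set.indicator_of_notMem (fun h => hm ?_) _
        rw [hm0]
        exact ((mem_cell_riem hδ).1 h).2
      · intro hm
        rw [Set.indicator_of_mem hz]
        rw [Fintype.mem_piFinset, not_forall] at hm
        obtain ⟨c, hc⟩ := hm
        rw [Finset.mem_range, not_lt] at hc
        have hc' : (R : ℝ) ≤ m0 c := by exact_mod_cast (Nat.le_succ R).trans hc
        refine hr _ (le_trans ?_ (norm_le_pi_norm _ c))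
        rw [Real.norm_eq_abs]
        refine le_trans ?_ (le_abs_self _)
        exact hR.trans (mul_le_mul_of_nonneg_left hc' hδ.le)
    have hd : ‖(fun c => δ * m0 c : R3) - z‖ ≤ δ := by
      refine (pi_norm_le_iff_of_nonneg hδ.le).2 fun c => ?_
      have h := hz c (Set.mem_univ c)
      rw [Pi.sub_apply, Real.norm_eq_abs, abs_le]
      constructor <;> linarith [h.1, h.2]
    rw [hs, Set.indicator_of_mem (show z ∈ {z : R3 | ∀ c, 0 ≤ z c} from h0)]
    by_cases hb : z ∈ Metric.closedBall (0 : R3) (r + 1)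
    · rw [Set.indicator_of_mem hb]
      exact hu _ _ hd
    · rw [Metric.mem_closedBall, dist_zero_right, not_le] at hb
      have h1 : ‖z‖ ≤ ‖(fun c => δ * m0 c : R3)‖ + ‖(fun c => δ * m0 c : R3) - z‖ := by
        have := norm_sub_le (fun c => δ * m0 c : R3) ((fun c => δ * m0 c : R3) - z)
        rwa [sub_sub_cancel] at this
      rw [hr z (by linarith), hr _ (by linarith), sub_zero, norm_zero]
      exact hpos
  · rw [Set.indicator_of_notMem (show z ∉ {z : R3 | ∀ c, 0 ≤ z c} from h0),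
      Finset.sum_eq_zero fun m _ =>
        Set.indicator_of_notMem (fun h => h0 ((mem_cell_riem hδ).1 h).1) _, sub_zero, norm_zero]
    exact hpos

theorem box_riem {Φ : R3 → ℝ} (hi : Integrable Φ) {r ε δ : ℝ} {R : ℕ} (hr0 : 0 < r)
    (hr : ∀ z, r ≤ ‖z‖ → Φ z = 0) (hε : 0 ≤ ε)
    (hδ : 0 < δ) (hδ1 : δ ≤ 1) (hu : ∀ z z' : R3, ‖z - z'‖ ≤ δ → |Φ z - Φ z'| ≤ ε)
    (hR : r ≤ δ * R) :
    |δ ^ 3 * ∑ m ∈ Fintype.piFinset fun _ : Fin 3 => range (R + 1), (Φ fun c => δ * m c) -
      ∫ z, {z : R3 | ∀ c, 0 ≤ z c}.indicator Φ z| ≤ (2 * (r + 1)) ^ 3 * ε := by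
  have hm : MeasurableSet {z : R3 | ∀ c, 0 ≤ z c} := by
    rw [Set.ofPred_forall]
    exact MeasurableSet.iInter fun c => measurableSet_le measurable_const (measurable_pi_apply c)
  have hv : volume (Metric.closedBall (0 : R3) (r + 1)) = ENNReal.ofReal ((2 * (r + 1)) ^ 3) := by
    rw [Real.volume_pi_closedBall _ (by linarith), Fintype.card_fin]
  have hv' : volume (Metric.closedBall (0 : R3) (r + 1)) ≠ ⊤ := by
    rw [hv]
    exact ENNReal.ofReal_ne_top
  rw [← sum_cell_riem hδ, ← integral_sub (integrable_finsetSum _ fun m _ =>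
    (integrableOn_const (fin_cell_riem δ m)).integrable_indicator (meas_cell_riem δ m))
    (hi.indicator hm), ← Real.norm_eq_abs]
  refine (norm_integral_le_of_norm_le
    ((integrableOn_const hv').integrable_indicator measurableSet_closedBall)
    (Filter.Eventually.of_forall (point_riem hr hε hδ hδ1 hu hR))).trans (le_of_eq ?_)
  rw [integral_indicator_const _ measurableSet_closedBall, Measure.real, hv,
    ENNReal.toReal_ofReal (by positivity), smul_eq_mul]

/-- Riemann sums over the octant of a continuous function with compact support which is even in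
each coordinate. -/
theorem riem_cont {Φ : R3 → ℝ} (hΦ : Continuous Φ) (hc : HasCompactSupport Φ) (he : Ev Φ)
    {η : ℝ} (hη : 0 < η) : ∃ δ₀ : ℝ, 0 < δ₀ ∧ ∀ (δ : ℝ) (R : ℕ), 0 < δ → δ ≤ δ₀ → 1 ≤ δ₀ * (δ * R) →
      |δ ^ 3 * ∑ m ∈ Lset R, Φ (fun c => δ * m c) - (∫ z, Φ z) / 8| ≤ η := by
  obtain ⟨r, hr0, hr⟩ := hc.exists_pos_le_norm
  have hi : Integrable Φ := hΦ.integrable_of_hasCompactSupport hc
  have hK : 0 < (2 * (r + 1)) ^ 3 := by positivity
  have hε : 0 < η / 2 / (2 * (r + 1)) ^ 3 := by positivity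
  obtain ⟨δ₁, hδ₁, hu⟩ := Metric.uniformContinuous_iff_le.1
    (hc.uniformContinuous_of_continuous hΦ) _ hε
  have hM : 0 < |Φ 0| + 1 := by positivity
  refine ⟨min (min δ₁ 1) (min (η / 2 / (|Φ 0| + 1)) (1 / r)), by positivity, ?_⟩
  intro δ R hδ hle hR
  have h1 : δ ≤ δ₁ := hle.trans ((min_le_left _ _).trans (min_le_left _ _))
  have h2 : δ ≤ 1 := hle.trans ((min_le_left _ _).trans (min_le_right _ _))
  have h3 : δ ≤ η / 2 / (|Φ 0| + 1) := hle.trans ((min_le_right _ _).trans (min_le_left _ _))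
  have h4 : r ≤ δ * R := by
    have h5 : min (min δ₁ 1) (min (η / 2 / (|Φ 0| + 1)) (1 / r)) * (δ * R) ≤ 1 / r * (δ * R) :=
      mul_le_mul_of_nonneg_right ((min_le_right _ _).trans (min_le_right _ _)) (by positivity)
    have h6 := hR.trans h5
    rw [one_div, ← div_eq_inv_mul, le_div_iff₀ hr0] at h6
    linarith
  have hb := box_riem hi hr0 hr hε.le hδ h2 (fun z z' h => by
    have := hu (a := z) (b := z') (by rw [dist_eq_norm]; exact h.trans h1)
    rwa [Real.dist_eq] at this) h4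
  rw [mul_div_cancel₀ _ hK.ne'] at hb
  have hz : (0 : M3) ∈ Fintype.piFinset fun _ : Fin 3 => range (R + 1) := by
    simp [Fintype.mem_piFinset]
  rw [← Finset.sum_erase_add _ _ hz] at hb
  have e0 : (fun c => δ * ((0 : M3) c : ℕ) : R3) = 0 := by
    funext c
    simp
  rw [e0] at hb
  have h7 : |δ ^ 3 * Φ 0| ≤ η / 2 := by
    rw [abs_mul, abs_of_pos (pow_pos hδ 3)]
    rw [le_div_iff₀ hM] at h3
    have h8 : δ ^ 3 ≤ δ := by
      have : δ ^ 2 ≤ 1 := pow_le_one₀ hδ.le h2
      nlinarith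
    nlinarith [abs_nonneg (Φ 0)]
  rw [octant_riem hi he, Lset]
  have h9 := abs_le.1 hb
  have h10 := abs_le.1 h7
  rw [abs_le]
  constructor <;> linarith [h9.1, h9.2, h10.1, h10.2]

end Pool.Agent.BoseLHY
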