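import Pool.Agent.Lib.MP_dec75e_mp.L.Ct
import Pool.Agent.Lib.MP_dec75e_mp.L.Lat

/-! Riemann sums. -/

open MeasureTheory Finset Function
open scoped Real

noncomputable section

namespace Pool.Agent.BoseLHY

open Pool.Agent.BoseTail

/-- The two intervals of points whose modulus lies between `δ k` and `δ (k + 1)`. -/
def seg_riem2 (δ : ℝ) (k : ℕ) : Set ℝ :=
  Set.Icc (δ * k) (δ * (k + 1)) ∪ Set.Icc (-(δ * (k + 1))) (-(δ * k))

theorem seg_meas_riem2 (δ : ℝ) (k : ℕ) : MeasurableSet (seg_riem2 δ k) :=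
  measurableSet_Icc.union measurableSet_Icc

theorem seg_vol_riem2 {δ : ℝ} (hδ : 0 < δ) (k : ℕ) :
    volume (seg_riem2 δ k) ≤ ENNReal.ofReal (2 * δ) := by
  refine (measure_union_le _ _).trans ?_
  rw [Real.volume_Icc, Real.volume_Icc, show δ * ((k : ℝ) + 1) - δ * k = δ by ring,
    show -(δ * (k : ℝ)) - -(δ * (k + 1)) = δ by ring, ← ENNReal.ofReal_add hδ.le hδ.le, two_mul]

theorem seg_mem_riem2 {δ : ℝ} (hδ : 0 < δ) (x : ℝ) :
    δ * (⌊|x| / δ⌋₊ : ℕ) ≤ |x| ∧ |x| < δ * ((⌊|x| / δ⌋₊ : ℕ) + 1) ∧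
      x ∈ seg_riem2 δ ⌊|x| / δ⌋₊ := by
  have h1 : ((⌊|x| / δ⌋₊ : ℕ) : ℝ) ≤ |x| / δ := Nat.floor_le (by positivity)
  have h2 : |x| / δ < (⌊|x| / δ⌋₊ : ℕ) + 1 := Nat.lt_floor_add_one _
  rw [le_div_iff₀ hδ, mul_comm] at h1
  rw [div_lt_iff₀ hδ, mul_comm] at h2
  refine ⟨h1, h2, ?_⟩
  generalize ⌊|x| / δ⌋₊ = k at h1 h2
  rcases le_total 0 x with h | h
  · rw [abs_of_nonneg h] at h1 h2
    exact Or.inl ⟨h1, h2.le⟩
  · rw [abs_of_nonpos h] at h1 h2
    exact Or.inr ⟨by linarith, by linarith⟩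

/-- The cell of the mode `m` together with its mirror images. -/
def cel_riem2 (δ : ℝ) (m : M3) : Set R3 := Set.pi Set.univ fun c => seg_riem2 δ (m c)

theorem cel_meas_riem2 (δ : ℝ) (m : M3) : MeasurableSet (cel_riem2 δ m) :=
  MeasurableSet.univ_pi fun _ => seg_meas_riem2 _ _

theorem cel_vol_riem2 {δ : ℝ} (hδ : 0 < δ) (m : M3) :
    volume (cel_riem2 δ m) ≤ ENNReal.ofReal (8 * δ ^ 3) := by
  unfold cel_riem2
  rw [volume_pi_pi]
  refine (Finset.prod_le_prod' fun c _ => seg_vol_riem2 hδ (m c)).trans ?_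
  rw [Finset.prod_const, Finset.card_univ, Fintype.card_fin,
    ← ENNReal.ofReal_pow (by positivity)]
  exact ENNReal.ofReal_le_ofReal (le_of_eq (by ring))

/-- Small and large points. -/
def out_riem2 (n : ℕ) : Set R3 := {z | ‖z‖ < 1 / ((n : ℝ) + 1)} ∪ {z | (n : ℝ) + 1 ≤ ‖z‖}

theorem out_meas_riem2 (n : ℕ) : MeasurableSet (out_riem2 n) :=
  (measurableSet_lt measurable_norm measurable_const).union
    (measurableSet_le measurable_const measurable_norm)

theorem tail_riem2 {g : R3 → ℝ} (hg : Integrable g) {η : ℝ} (hη : 0 < η) :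
    ∃ n : ℕ, ∫ z in out_riem2 n, g z < η := by
  have anti : Antitone out_riem2 := by
    intro a b hab z hz
    have hab' : (a : ℝ) ≤ b := by exact_mod_cast hab
    rcases hz with h | h
    · have h' : ‖z‖ < 1 / ((b : ℝ) + 1) := h
      have h2 : ‖z‖ < 1 / ((a : ℝ) + 1) :=
        h'.trans_le (one_div_le_one_div_of_le (by positivity) (by linarith))
      exact Or.inl h2
    · have h' : (b : ℝ) + 1 ≤ ‖z‖ := h
      have h2 : (a : ℝ) + 1 ≤ ‖z‖ := by linarith
      exact Or.inr h2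
  have T := tendsto_setIntegral_of_antitone (μ := volume) (f := g) out_meas_riem2 anti
    ⟨0, hg.integrableOn⟩
  have Z : volume (⋂ n, out_riem2 n) = 0 := by
    refine measure_mono_null (t := {(0 : R3)}) ?_ (measure_singleton _)
    intro z hz
    rw [Set.mem_iInter] at hz
    by_contra hne
    have hp : 0 < ‖z‖ := norm_pos_iff.2 hne
    obtain ⟨n, hn⟩ := exists_nat_gt (max ‖z‖ (1 / ‖z‖))
    have a1 := (le_max_left _ _).trans_lt hn
    have a2 := (le_max_right _ _).trans_lt hn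
    rcases hz n with h | h
    · have h' : ‖z‖ < 1 / ((n : ℝ) + 1) := h
      rw [lt_div_iff₀ (by positivity)] at h'
      rw [div_lt_iff₀ hp] at a2
      nlinarith
    · have h' : (n : ℝ) + 1 ≤ ‖z‖ := h
      linarith
  rw [setIntegral_measure_zero _ Z] at T
  exact (T.eventually (gt_mem_nhds hη)).exists

theorem point_riem2 {F : ℝ → ℝ} (hF : AntitoneOn F (Set.Ioi 0)) (h0 : ∀ t, 0 < t → 0 ≤ F t)
    {δ : ℝ} {R n : ℕ} (hδ : 0 < δ) (h1 : δ ≤ 1 / ((n : ℝ) + 1))
    (h2 : 1 ≤ 1 / ((n : ℝ) + 1) * (δ * R)) (z : R3) :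
    F (sq3 z) ≤ ∑ m ∈ Lset R, (cel_riem2 δ m).indicator (fun _ => F (δ ^ 2 * nm m)) z +
      (out_riem2 n).indicator (fun z => |F (sq3 z)|) z := by
  have pos : ∀ m ∈ Lset R, 0 < δ ^ 2 * nm m := fun m hm => by
    have := one_le_nm (mem_Lset.1 hm).1
    positivity
  have nn : ∀ m ∈ Lset R, 0 ≤ (cel_riem2 δ m).indicator (fun _ => F (δ ^ 2 * nm m)) z :=
    fun m hm => Set.indicator_nonneg (fun _ _ => h0 _ (pos m hm)) z
  have nn2 : 0 ≤ (out_riem2 n).indicator (fun z => |F (sq3 z)|) z :=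
    Set.indicator_nonneg (fun _ _ => abs_nonneg _) z
  obtain ⟨k, hk⟩ : ∃ k : M3, ∀ c, k c = ⌊|z c| / δ⌋₊ := ⟨_, fun _ => rfl⟩
  have hs : ∀ c, δ * (k c : ℕ) ≤ |z c| ∧ |z c| < δ * ((k c : ℕ) + 1) ∧ z c ∈ seg_riem2 δ (k c) :=
    fun c => by rw [hk]; exact seg_mem_riem2 hδ (z c)
  by_cases hm : k ∈ Lset R
  · have a1 := Finset.single_le_sum nn hm
    have a2 : z ∈ cel_riem2 δ k := fun c _ => (hs c).2.2
    rw [Set.indicator_of_mem a2] at a1
    have a3 : δ ^ 2 * nm k ≤ sq3 z := by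
      unfold nm sq3
      rw [Finset.mul_sum]
      refine Finset.sum_le_sum fun c _ => ?_
      rw [← mul_pow, ← sq_abs (z c)]
      exact pow_le_pow_left₀ (by positivity) (hs c).1 2
    have a4 := hF (pos k hm) ((pos k hm).trans_le a3) a3
    linarith
  · have a1 := Finset.sum_nonneg nn
    have a2 : z ∈ out_riem2 n := by
      rw [mem_Lset, not_and_or, not_not, not_forall] at hm
      rcases hm with hm | ⟨c, hc⟩
      · refine Or.inl ?_
        show ‖z‖ < 1 / ((n : ℝ) + 1)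
        refine (pi_norm_lt_iff (by positivity)).2 fun c => ?_
        have := (hs c).2.1
        rw [hm] at this
        simp only [Pi.zero_apply, Nat.cast_zero, zero_add, mul_one] at this
        exact this.trans_le h1
      · refine Or.inr ?_
        show (n : ℝ) + 1 ≤ ‖z‖
        have b1 : (R : ℝ) ≤ (k c : ℕ) := by exact_mod_cast (not_le.1 hc).le
        have b2 : |z c| ≤ ‖z‖ := norm_le_pi_norm z c
        rw [one_div, inv_mul_eq_div, le_div_iff₀ (by positivity), one_mul] at h2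
        have b3 := mul_le_mul_of_nonneg_left b1 hδ.le
        linarith [(hs c).1]
    rw [Set.indicator_of_mem a2]
    linarith [le_abs_self (F (sq3 z))]

/-- Lower Riemann sums of a decreasing function: the value at the lower corner of a cell
dominates the function on the cell. -/
theorem riem_anti {F : ℝ → ℝ} (hF : AntitoneOn F (Set.Ioi 0)) (h0 : ∀ t, 0 < t → 0 ≤ F t)
    (hi : Integrable fun z : R3 => F (sq3 z)) {η : ℝ} (hη : 0 < η) :
    ∃ δ₀ : ℝ, 0 < δ₀ ∧ ∀ (δ : ℝ) (R : ℕ), 0 < δ → δ ≤ δ₀ → 1 ≤ δ₀ * (δ * R) →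
      (∫ z : R3, F (sq3 z)) / 8 - η ≤ δ ^ 3 * ∑ m ∈ Lset R, F (δ ^ 2 * nm m) := by
  obtain ⟨n, hn⟩ := tail_riem2 hi.abs hη
  refine ⟨1 / ((n : ℝ) + 1), by positivity, fun δ R hδ h1 h2 => ?_⟩
  have I1 : ∀ m ∈ Lset R,
      Integrable ((cel_riem2 δ m).indicator fun _ : R3 => F (δ ^ 2 * nm m)) := fun m _ =>
    (integrable_indicator_iff (cel_meas_riem2 δ m)).2
      (integrableOn_const ((cel_vol_riem2 hδ m).trans_lt ENNReal.ofReal_lt_top).ne)
  have I2 : Integrable ((out_riem2 n).indicator fun z : R3 => |F (sq3 z)|) :=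
    hi.abs.indicator (out_meas_riem2 n)
  have I3 := integrable_finsetSum (Lset R) I1
  have key := integral_mono hi (I3.add I2) fun z => point_riem2 hF h0 hδ h1 h2 z
  simp only [Pi.add_apply] at key
  rw [integral_add I3 I2, integral_finsetSum _ I1, integral_indicator (out_meas_riem2 n)] at key
  have B : ∑ m ∈ Lset R, ∫ z, (cel_riem2 δ m).indicator (fun _ : R3 => F (δ ^ 2 * nm m)) z ≤
      ∑ m ∈ Lset R, 8 * δ ^ 3 * F (δ ^ 2 * nm m) := by
    refine Finset.sum_le_sum fun m hm => ?_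
    rw [integral_indicator_const _ (cel_meas_riem2 δ m), smul_eq_mul]
    have := one_le_nm (mem_Lset.1 hm).1
    refine mul_le_mul_of_nonneg_right ?_ (h0 _ (by positivity))
    exact ENNReal.toReal_le_of_le_ofReal (by positivity) (cel_vol_riem2 hδ m)
  rw [← Finset.mul_sum] at B
  linarith

end Pool.Agent.BoseLHY
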