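import Pool.Agent.Lib.MP_dec75e_mp.L.PhiG
import Pool.Agent.Lib.MP_dec75e_mp.L.Riem2
import Pool.Agent.Lib.MP_dec75e_mp.L.Riem
import Pool.Agent.Lib.MP_dec75e_mp.L.LHYint
import Pool.Agent.Lib.MP_dec75e_mp.L.LowNum

/-! The sum over the low modes is compared with integrals. -/

open MeasureTheory Finset Function
open scoped Real

noncomputable section

namespace Pool.Agent.BoseLHY

open Pool.Agent.BoseTail

theorem Dat.tm_eq (D : Dat) {y l : ℝ} (hy : 0 < y) (hl : 0 < l) (m : M3) :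
    D.tm y l m = (π / (l * √(2 * D.mu0 y))) ^ 2 * nm m := by
  have hμ : 0 < 2 * D.mu0 y := by have := D.mu0_pos hy; positivity
  unfold Dat.tm
  rw [sq3_pk, div_pow, mul_pow, Real.sq_sqrt hμ.le]
  have := D.mu0_pos hy
  field_simp

theorem kappa_main1 (D : Dat) {y : ℝ} (hy : 0 < y) :
    √(2 * D.mu0 y) = √(8 * π * D.a) * y ^ 400 := by
  have ha := D.ha
  have h : 2 * D.mu0 y = (8 * π * D.a) * (y ^ 400) ^ 2 := by
    unfold Dat.mu0; rw [← pow_mul]; ring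
  rw [h, Real.sqrt_mul (by positivity), Real.sqrt_sq (by positivity)]

/-- The mesh is small and the cut-off is large. -/
theorem mesh_main1 {s y l δ₀ : ℝ} {R : ℕ} (hs : 0 < s) (hδ : 0 < δ₀) (h : Scale y l R)
    (hy1 : y ≤ 1) (h1 : y ≤ δ₀ * s / π) (h2 : y ≤ δ₀ * π / (2 * s)) :
    π / (l * (s * y ^ 400)) ≤ δ₀ ∧ 1 ≤ δ₀ * (π / (l * (s * y ^ 400)) * R) := by
  have hy := h.y0
  have hl := h.l_pos
  have hπ := Real.pi_pos
  have e : l * (s * y ^ 400) = s * (l * y ^ 404) / y ^ 4 := by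
    rw [show y ^ 404 = y ^ 400 * y ^ 4 by rw [← pow_add]]
    field_simp
  rw [e]
  have hu1 := h.l1
  have hu2 := h.l2
  have hv1 := h.r1
  generalize l * y ^ 404 = u at hu1 hu2
  have hu : 0 < u := by linarith
  have h4 : y ^ 4 ≤ y := pow_le_of_le_one hy.le hy1 (by norm_num)
  have h8 : y ^ 8 ≤ y := pow_le_of_le_one hy.le hy1 (by norm_num)
  have hy4 : 0 < y ^ 4 := by positivity
  have hy8 : 0 < y ^ 8 := by positivity
  rw [le_div_iff₀ hπ] at h1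
  rw [le_div_iff₀ (by positivity)] at h2
  have e2 : π / (s * u / y ^ 4) = π * y ^ 4 / (s * u) := by field_simp
  rw [e2]
  constructor
  · rw [div_le_iff₀ (by positivity)]
    have a1 : π * y ^ 4 ≤ y * π := by nlinarith
    have a2 : δ₀ * s ≤ δ₀ * (s * u) := by
      have : s ≤ s * u := by nlinarith
      exact mul_le_mul_of_nonneg_left this hδ.le
    linarith
  · have e3 : δ₀ * (π * y ^ 4 / (s * u) * R) = δ₀ * π * (R * y ^ 12) / (s * u * y ^ 8) := by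
      rw [show y ^ 12 = y ^ 4 * y ^ 8 by rw [← pow_add]]
      field_simp
    rw [e3, le_div_iff₀ (by positivity)]
    have a1 : s * u * y ^ 8 ≤ y * (2 * s) := by
      have b1 : u * y ^ 8 ≤ 2 * y := mul_le_mul hu2 h8 hy8.le (by norm_num)
      nlinarith
    have a2 : δ₀ * π ≤ δ₀ * π * (R * y ^ 12) := le_mul_of_one_le_right (by positivity) hv1
    linarith

/-- The bound for one mode. -/
theorem one_main1 {t b e ε p γ : ℝ} (ht : 0 < t) (he : e ≤ 1 / 2) (hb : |b| ≤ e * min t 1)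
    (hp : |b - ε * p| ≤ γ) :
    FF t t + ε / 2 * (p * gB √t) - (2 * e ^ 2 + γ) * min (1 / t) (1 / t ^ 2) ≤ FF (t + b) t := by
  have h1 := FF_taylor ht he hb
  obtain ⟨g0, g1⟩ := gB_bounds ht
  have hγ : 0 ≤ γ := (abs_nonneg _).trans hp
  have h2 : -γ ≤ b - ε * p := (abs_le.1 hp).1
  have h3 : -γ * gB √t ≤ (b - ε * p) * gB √t := mul_le_mul_of_nonneg_right h2 g0
  have h4 : γ * gB √t ≤ γ * (2 * min (1 / t) (1 / t ^ 2)) := mul_le_mul_of_nonneg_left g1 hγ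
  nlinarith

/-- With `κ₀ = √(2 μ₀)`, `δ = π / (l κ₀)`: `FF_taylor` with `e = |ε| C`, `gB_bounds`, `lat_min`,
`riem_anti` for `t ↦ FF t t`, `riem_cont` for `φ gB`; `δ ≤ C y^4`, `δ R ≥ c y^(-8)`. -/
theorem sum_FF_ge (D : Dat) {φ : E3 → ℝ} (hφ : Continuous φ) (hc : HasCompactSupport φ)
    (h0 : 0 ∉ tsupport φ) (he : ∀ κ κ' : E3, (∀ c, |κ c| = |κ' c|) → φ κ = φ κ') {C η : ℝ}
    (hC : 1 ≤ C) (hη : 0 < η) : ∃ y₀ : ℝ, 0 < y₀ ∧ ∀ (y l : ℝ) (R : ℕ) (ε : ℝ) (b : M3 → ℝ),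
      Scale y l R → y ≤ y₀ → |ε| * C ≤ 1 / 2 → (∀ m, |b m| ≤ |ε| * C * min (D.tm y l m) 1) →
      (∀ m, |b m - ε * φ (WithLp.toLp 2 ((√(2 * D.mu0 y))⁻¹ • pk l m))| ≤ C * y ^ 2) →
      (l * √(2 * D.mu0 y) / π) ^ 3 * (2 * √2 * π / 15 + ε * (∫ κ : E3, φ κ * gB ‖κ‖) / 16 -
        42 * C ^ 2 * ε ^ 2 - η) ≤ ∑ m ∈ Lset R, FF (D.tm y l m + b m) (D.tm y l m) := by
  obtain ⟨p1, p2, p3, p4⟩ := phi_g hφ hc h0 he
  obtain ⟨i1, i2⟩ := integral_FF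
  have hη3 : 0 < η / 3 := by positivity
  obtain ⟨δ₁, hδ₁, H1⟩ := riem_anti (F := fun t => FF t t) FF_anti (fun t ht => FF_nonneg ht) i1 hη3
  obtain ⟨δ₂, hδ₂, H2⟩ := riem_cont p1 p2 p3 hη3
  have hπ := Real.pi_pos
  have ha := D.ha
  have hs : 0 < √(8 * π * D.a) := Real.sqrt_pos.2 (by positivity)
  have hδ₀ : 0 < min δ₁ δ₂ := lt_min hδ₁ hδ₂
  have hC0 : 0 < C := by linarith
  refine ⟨min 1 (min (min δ₁ δ₂ * √(8 * π * D.a) / π)
    (min (min δ₁ δ₂ * π / (2 * √(8 * π * D.a))) (η / (63 * C)))), by positivity, ?_⟩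
  intro y l R ε b hS hy hε hb hp
  simp only [le_min_iff] at hy
  obtain ⟨hy1, hy2, hy3, hy4⟩ := hy
  have hy0 := hS.y0
  have hl := hS.l_pos
  obtain ⟨m1, m2⟩ := mesh_main1 hs hδ₀ hS hy1 hy2 hy3
  rw [← kappa_main1 D hy0] at m1 m2
  have hκ : 0 < √(2 * D.mu0 y) := Real.sqrt_pos.2 (by have := D.mu0_pos hy0; positivity)
  have htm : ∀ m, D.tm y l m = (π / (l * √(2 * D.mu0 y))) ^ 2 * nm m := D.tm_eq hy0 hl
  have hpk : ∀ m : M3, (√(2 * D.mu0 y))⁻¹ • pk l m =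
      fun c => π / (l * √(2 * D.mu0 y)) * (m c : ℝ) := by
    intro m
    funext c
    simp only [pk, Pi.smul_apply, smul_eq_mul]
    field_simp
  have hinv : l * √(2 * D.mu0 y) / π = (π / (l * √(2 * D.mu0 y)))⁻¹ := by rw [inv_div]
  have hδ : 0 < π / (l * √(2 * D.mu0 y)) := by positivity
  simp only [htm, hpk] at hb hp ⊢
  rw [hinv]
  generalize π / (l * √(2 * D.mu0 y)) = δ at m1 m2 hb hp hδ ⊢
  have hδR : 0 ≤ δ * R := by positivity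
  have A1 := H1 δ R hδ (m1.trans (min_le_left _ _))
    (m2.trans (mul_le_mul_of_nonneg_right (min_le_left _ _) hδR))
  have A2 := H2 δ R hδ (m1.trans (min_le_right _ _))
    (m2.trans (mul_le_mul_of_nonneg_right (min_le_right _ _) hδR))
  have A3 := lat_min hδ (Lset R) fun m hm => (mem_Lset.1 hm).1
  rw [i2] at A1
  rw [p4] at A2
  have hsq : ∀ m : M3, sq3 (fun c => δ * (m c : ℝ)) = δ ^ 2 * nm m := by
    intro m
    simp only [sq3, nm, mul_pow, Finset.mul_sum]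
  simp only [hsq] at A2
  have B : ∑ m ∈ Lset R, (FF (δ ^ 2 * nm m) (δ ^ 2 * nm m) +
      ε / 2 * (φ (WithLp.toLp 2 fun c => δ * (m c : ℝ)) * gB √(δ ^ 2 * nm m)) -
      (2 * (|ε| * C) ^ 2 + C * y ^ 2) * min (1 / (δ ^ 2 * nm m)) (1 / (δ ^ 2 * nm m) ^ 2)) ≤
      ∑ m ∈ Lset R, FF (δ ^ 2 * nm m + b m) (δ ^ 2 * nm m) := by
    refine Finset.sum_le_sum fun m hm => ?_
    have h1 := one_le_nm (mem_Lset.1 hm).1
    exact one_main1 (by positivity) hε (hb m) (hp m)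
  refine le_trans ?_ B
  rw [Finset.sum_sub_distrib, Finset.sum_add_distrib, ← Finset.mul_sum, ← Finset.mul_sum]
  generalize ∑ m ∈ Lset R, FF (δ ^ 2 * nm m) (δ ^ 2 * nm m) = S1 at A1 ⊢
  generalize ∑ m ∈ Lset R, φ (WithLp.toLp 2 fun c => δ * (m c : ℝ)) * gB √(δ ^ 2 * nm m) = S2
    at A2 ⊢
  generalize ∑ m ∈ Lset R, min (1 / (δ ^ 2 * nm m)) (1 / (δ ^ 2 * nm m) ^ 2) = S3 at A3 ⊢
  generalize (∫ κ : E3, φ κ * gB ‖κ‖) = I at A2 ⊢
  have hδ3 : 0 < δ ^ 3 := by positivity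
  rw [inv_pow, inv_mul_le_iff₀ hδ3]
  rw [le_div_iff₀ hδ3] at A3
  have hε1 : |ε| ≤ 1 / 2 := by nlinarith [abs_nonneg ε]
  have c1 : |ε * (δ ^ 3 * S2 - I / 8)| ≤ 1 / 2 * (η / 3) := by
    rw [abs_mul]
    exact mul_le_mul hε1 A2 (abs_nonneg _) (by norm_num)
  have c2 := (abs_le.1 c1).1
  have c3 : (|ε| * C) ^ 2 = C ^ 2 * ε ^ 2 := by rw [mul_pow, sq_abs]; ring
  rw [c3]
  have c4 : C * y ^ 2 ≤ η / 63 := by
    rw [le_div_iff₀ (by positivity)] at hy4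
    have : y ^ 2 ≤ y := pow_le_of_le_one hy0.le hy1 (by norm_num)
    nlinarith
  have c5 : 0 ≤ 2 * (C ^ 2 * ε ^ 2) + C * y ^ 2 := by positivity
  have c6 : (2 * (C ^ 2 * ε ^ 2) + C * y ^ 2) * (S3 * δ ^ 3) ≤
      (2 * (C ^ 2 * ε ^ 2) + C * y ^ 2) * 21 := mul_le_mul_of_nonneg_left A3 c5
  nlinarith

end Pool.Agent.BoseLHY
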