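import Pool.Agent.Lib.MP_dec75e_mp.L.Grid
import Pool.Agent.Lib.MP_dec75e_mp.L.Apr
import Pool.Agent.Lib.MP_dec75e_mp.L.HH

/-! The second order lower bound on the torus with a translation invariant perturbation. -/

open MeasureTheory Finset Function
open scoped Real

noncomputable section

namespace Pool.Agent.BoseLHY

open Pool.Agent.BoseTail

theorem exists_scale {y L : ℝ} (hy : 0 < y) (hy1 : y ≤ 1) (hL : 1 ≤ L * y ^ 404) :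
    ∃ (K R : ℕ) (l : ℝ), 1 ≤ K ∧ 0 < l ∧ L = K * l ∧ Scale y l R := by
  set x := L * y ^ 404 with hx
  have hy4 : 0 < y ^ 404 := pow_pos hy _
  have hy12 : 0 < y ^ 12 := pow_pos hy _
  have hL0 : 0 < L := by
    by_contra hn
    have : L * y ^ 404 ≤ 0 := mul_nonpos_of_nonpos_of_nonneg (not_lt.1 hn) hy4.le
    linarith
  have hK : 1 ≤ ⌊x⌋₊ := Nat.le_floor (by exact_mod_cast hL)
  have hK' : (1 : ℝ) ≤ (⌊x⌋₊ : ℝ) := by exact_mod_cast hK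
  have hK0 : (0 : ℝ) < (⌊x⌋₊ : ℝ) := by linarith
  have h1 : (⌊x⌋₊ : ℝ) ≤ x := Nat.floor_le (by linarith)
  have h2 : x < (⌊x⌋₊ : ℝ) + 1 := Nat.lt_floor_add_one x
  have hq : L / (⌊x⌋₊ : ℝ) * y ^ 404 = x / (⌊x⌋₊ : ℝ) := by rw [hx]; ring
  have h3 : (y ^ 12)⁻¹ ≤ (⌈(y ^ 12)⁻¹⌉₊ : ℝ) := Nat.le_ceil _
  have h4 : (⌈(y ^ 12)⁻¹⌉₊ : ℝ) < (y ^ 12)⁻¹ + 1 := Nat.ceil_lt_add_one (inv_pos.2 hy12).le
  have h5 : (y ^ 12)⁻¹ * y ^ 12 = 1 := inv_mul_cancel₀ hy12.ne'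
  have h6 : y ^ 12 ≤ 1 := pow_le_one₀ hy.le hy1
  refine ⟨⌊x⌋₊, ⌈(y ^ 12)⁻¹⌉₊, L / (⌊x⌋₊ : ℝ), hK, div_pos hL0 hK0, by field_simp,
    hy, ?_, ?_, ?_, ?_⟩
  · rw [hq, le_div_iff₀ hK0]; linarith
  · rw [hq, div_le_iff₀ hK0]; linarith
  · calc (1 : ℝ) = (y ^ 12)⁻¹ * y ^ 12 := h5.symm
      _ ≤ _ := mul_le_mul_of_nonneg_right h3 hy12.le
  · calc (⌈(y ^ 12)⁻¹⌉₊ : ℝ) * y ^ 12 ≤ ((y ^ 12)⁻¹ + 1) * y ^ 12 :=
          mul_le_mul_of_nonneg_right h4.le hy12.le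
      _ = 1 + y ^ 12 := by rw [add_mul, h5, one_mul]
      _ ≤ 2 := by linarith

/-- `good_shift` with `m = K`, `grid` for the real and the imaginary part of the translated
function, `energy_ge`, `cmp_many`. -/
theorem torus_bound {v : E3 → ℝ} (hv : Continuous v) (h0 : ∀ x, 0 ≤ v x) (hc : HasCompactSupport v)
    (D : Dat) (hw : ∀ z, D.w.1 z = v (WithLp.toLp 2 z)) {A : ℝ} (hA : 0 ≤ A) :
    ∃ C ε₀ y₀ : ℝ, 1 ≤ C ∧ 0 < ε₀ ∧ ε₀ ≤ 1 / 2 ∧ 0 < y₀ ∧ y₀ ≤ 1 ∧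
    ∀ (y l : ℝ) (R K : ℕ) (h : BF R3) (H : R3 → ℝ) (r : ℝ), Scale y l R → y ≤ y₀ → 1 ≤ K →
      Ev h.1 → Supp h.1 r → 0 ≤ r → r ≤ l → Mono H → Integrable H → (∀ z, |h.1 z| ≤ H z) →
      (∀ m, |ct h.1 (pk l m) - ct h.1 0| ≤ ε₀ * min (D.tm y l m) 1) →
    ∀ (N : ℕ) (L : ℝ) [Fact (0 < L)] (ψ : Cf N L → ℂ), L = K * l → Adm ψ →
      (N : ℝ) = y ^ 800 * L ^ 3 → PB D.V A ψ →
      D.mu0 y * N + (K : ℝ) ^ 3 *
          (D.tgt y l R (fun m => ct h.1 (pk l m) - ct h.1 0) - C * y ^ 789) ≤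
        energy v ψ - D.mu0 y / 2 * (∫ z, h.1 z * Dz ψ z) +
          84 * D.mu0 y * (r / l) * ∫ z, H z * Dz ψ z := by
  obtain ⟨C, ε₀, y₀, hC, hε, hε', hy₀, hy₁, hg⟩ := grid D
  obtain ⟨Q, hQ, hsh⟩ := good_shift2 hv h0 hc D hw hA
  refine ⟨C + 8 * Q, ε₀, y₀, by linarith, hε, hε', hy₀, hy₁, ?_⟩
  intro y l R K h H r hS hy hK he hs hr hrl hH hHi hh hb N L _ ψ hL hψ hN hPB
  have hL0 : 0 < L := Fact.out
  have hK0 : (0 : ℝ) < K := by exact_mod_cast hK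
  have hl : 0 < l := by
    by_contra hn
    have : (K : ℝ) * l ≤ 0 := mul_nonpos_of_nonneg_of_nonpos hK0.le (not_lt.1 hn)
    linarith
  have hH0 : ∀ z, 0 ≤ H z := fun z => (abs_nonneg _).trans (hh z)
  have hmu : 0 ≤ D.mu0 y := by
    have := D.ha
    have := hS.y0
    unfold Dat.mu0
    positivity
  obtain ⟨u, χ, e, hχ, hG, -, hE, hu⟩ := hsh N L ψ hψ y l K K H r (14 * D.mu0 y) hPB hS.y0
    (hy.trans hy₁) hK hL hS.l1 hN hHi hH0 hK hr (by positivity)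
  have hGd : ∀ k, D.Gd χ (cell (big L).o K l hl 0 k) y l := fun k =>
    hG _ (fun c => k c) (fun c => by rw [cell_corner]; simp [big, cube0]) (cell_cube _ hl k)
  have hQN : Q * y ^ 1201 * N ≤ (K : ℝ) ^ 3 * (8 * Q * y ^ 789) := by
    have hy0 := hS.y0
    have b1 : (l * y ^ 404) ^ 3 ≤ 2 ^ 3 := pow_le_pow_left₀ (by positivity) hS.l2 3
    calc Q * y ^ 1201 * N = (K : ℝ) ^ 3 * (Q * y ^ 789) * (l * y ^ 404) ^ 3 := by
          rw [hN, hL]; ring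
      _ ≤ (K : ℝ) ^ 3 * (Q * y ^ 789) * 2 ^ 3 := mul_le_mul_of_nonneg_left b1 (by positivity)
      _ = _ := by ring
  have hφ : Adm (tr u ψ) := adm_tr u hψ
  obtain ⟨c1, c2, s1, s2, hn⟩ := lift_props hφ
  have hcube : (big L).Cube (K * l) := fun c => hL
  have g1 := hg y l hl R K h r hS hy he hs hrl hb (bigM N L) (big L) univ _ χ hχ hGd hcube
    act_big s1 c1
  have g2 := hg y l hl R K h r hS hy he hs hrl hb (bigM N L) (big L) univ _ χ hχ hGd hcube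
    act_big s2 c2
  have hcmp := cmp_many hφ.1.1 hl hL he hs hH hHi hh
  have hvol : (big L).vol = L ^ 3 := by
    simp [Box.vol, big, cube0]
  have ho : (big L).o = 0 := rfl
  rw [hvol, ho, card_univ, Fintype.card_fin] at g1 g2
  simp only [Dz_tr] at hcmp
  rw [sum_add_distrib] at hcmp
  have hrat : 6 * (K : ℝ) * r / L = 6 * (r / l) := by
    rw [hL]; field_simp
  rw [hrat] at hu
  have hP : 0 ≤ (L ^ 3) ^ N := by positivity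
  set P := (L ^ 3) ^ N
  have hXe : D.mu0 y * N + (K : ℝ) ^ 3 *
      (D.tgt y l R (fun m => ct h.1 (pk l m) - ct h.1 0) - (C + 8 * Q) * y ^ 789) =
      D.mu0 y * N + (K : ℝ) ^ 3 *
      (D.tgt y l R (fun m => ct h.1 (pk l m) - ct h.1 0) - C * y ^ 789) -
        (K : ℝ) ^ 3 * (8 * Q * y ^ 789) := by ring
  rw [hXe]
  set X := D.mu0 y * N + (K : ℝ) ^ 3 *
    (D.tgt y l R (fun m => ct h.1 (pk l m) - ct h.1 0) - C * y ^ 789)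
  have g := mul_le_mul_of_nonneg_left (add_le_add g1 g2) hP
  have hc2 := mul_le_mul_of_nonneg_left (abs_le.1 hcmp).1 hmu
  have hX : X = P * (X * nq (ipB (bigM N L)) (liftRe (tr u ψ) hφ.1.1) +
      X * nq (ipB (bigM N L)) (liftIm (tr u ψ) hφ.1.1)) := by
    rw [← mul_add, mul_left_comm, hn, mul_one]
  rw [← hX] at g
  linarith

end Pool.Agent.BoseLHY
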