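import Pool.Agent.Lib.MP_dec75e_mp.L.Ct

/-! The test function as a cosine transform. -/

open MeasureTheory Finset Function
open scoped Real FourierTransform

noncomputable section

namespace Pool.Agent.BoseLHY

open Pool.Agent.BoseTail

theorem refl_phi (z z' : R3) (h : ∀ c, |z c| = |z' c|) :
    ∃ A : E3 ≃ₗᵢ[ℝ] E3, (∀ x c, |A x c| = |x c|) ∧
      A (WithLp.toLp 2 z) = WithLp.toLp 2 z' := by
  classical
  refine ⟨LinearIsometryEquiv.piLpCongrRight 2 fun c =>
    if z c = z' c then LinearIsometryEquiv.refl ℝ ℝ else LinearIsometryEquiv.neg ℝ, ?_, ?_⟩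
  · intro x c
    rw [LinearIsometryEquiv.piLpCongrRight_apply]
    dsimp only
    split_ifs <;> simp
  · rw [LinearIsometryEquiv.piLpCongrRight_apply]
    congr 1
    funext c
    dsimp only
    split_ifs with hc
    · simpa using hc
    · rcases abs_eq_abs.1 (h c) with h1 | h1
      · exact absurd h1 hc
      · simp [h1]

theorem sup_le_phi (z : R3) : ‖z‖ ≤ ‖(WithLp.toLp 2 z : E3)‖ := by
  refine (pi_norm_le_iff_of_nonneg (norm_nonneg _)).2 fun c => ?_
  exact PiLp.norm_apply_le (WithLp.toLp 2 z : E3) c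

/-- Fourier inversion for a smooth compactly supported function which is even in each
coordinate. -/
theorem exists_nu {φ : E3 → ℝ} (hφ : ContDiff ℝ (⊤ : ℕ∞) φ) (hc : HasCompactSupport φ)
    (he : ∀ κ κ' : E3, (∀ c, |κ c| = |κ' c|) → φ κ = φ κ') :
    ∃ (ν : R3 → ℝ) (C : ℝ), Continuous ν ∧ Ev ν ∧ (∀ z, |ν z| ≤ C / (1 + ‖z‖) ^ 8) ∧
      ∀ k : R3, ct ν k = φ (WithLp.toLp 2 k) := by
  have hπ : (2 * π : ℝ) ≠ 0 := by positivity
  let ψ : E3 → ℂ := fun w => ((φ ((2 * π : ℝ) • w) : ℝ) : ℂ)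
  have hψc : HasCompactSupport ψ := by
    have h1 : HasCompactSupport fun w : E3 => φ ((2 * π : ℝ) • w) := hc.comp_smul hπ
    exact h1.comp_left (g := fun t : ℝ => (t : ℂ)) Complex.ofReal_zero
  have hψs : ContDiff ℝ (⊤ : ℕ∞) ψ :=
    Complex.ofRealCLM.contDiff.comp (hφ.comp (contDiff_const_smul _))
  let Ψ : SchwartzMap E3 ℂ := hψc.toSchwartzMap hψs
  let G : SchwartzMap E3 ℂ := 𝓕 Ψ
  have hG : ∀ v, G v = 𝓕 ψ v := fun v => rfl
  have hinv : ∀ A : E3 ≃ₗᵢ[ℝ] E3, (∀ x c, |A x c| = |x c|) → ∀ v, G (A v) = G v := by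
    intro A hA v
    rw [hG, hG, ← Real.fourier_comp_linearIsometry]
    refine congrArg (fun f : E3 → ℂ => 𝓕 f v) ?_
    funext w
    simp only [ψ, Function.comp_apply]
    congr 1
    apply he
    intro c
    simp only [PiLp.smul_apply, smul_eq_mul, abs_mul, hA]
  have hreal : ∀ v, (G v).im = 0 := by
    intro v
    rw [← Complex.conj_eq_iff_im]
    conv_rhs => rw [← hinv (LinearIsometryEquiv.neg ℝ) (fun x c => by simp) v]
    rw [hG, hG, Real.fourier_eq', Real.fourier_eq', ← integral_conj]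
    congr 1
    funext x
    simp only [ψ, smul_eq_mul, map_mul, Complex.conj_ofReal, ← Complex.exp_conj, Complex.conj_I,
      LinearIsometryEquiv.coe_neg, inner_neg_right]
    congr 2
    push_cast
    ring
  let ν : R3 → ℝ := fun z => (G (WithLp.toLp 2 z)).re
  have hEv : Ev ν := by
    intro z z' h
    obtain ⟨A, hA, hz⟩ := refl_phi z z' h
    simp only [ν]
    rw [← hz, hinv A hA]
  have hGi : Integrable (fun z : R3 => G (WithLp.toLp 2 z)) :=
    (PiLp.volume_preserving_toLp (Fin 3)).integrable_comp_of_integrable G.integrable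
  have hνi : Integrable ν := hGi.re
  refine ⟨ν, 2 ^ 8 * (Finset.Iic ((8, 0) : ℕ × ℕ)).sup
    (fun m => SchwartzMap.seminorm ℝ m.1 m.2) G, ?_, hEv, ?_, ?_⟩
  · exact Complex.continuous_re.comp (G.continuous.comp (PiLp.continuous_toLp 2 _))
  · intro z
    have h1 := SchwartzMap.one_add_le_sup_seminorm_apply (𝕜 := ℝ) (m := (8, 0)) (k := 8) (n := 0)
      le_rfl le_rfl G (WithLp.toLp 2 z)
    rw [norm_iteratedFDeriv_zero] at h1
    rw [le_div_iff₀ (by positivity)]
    refine le_trans ?_ h1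
    rw [mul_comm]
    have := sup_le_phi z
    gcongr
    exact Complex.abs_re_le_norm _
  · intro k
    rw [← ct_dot hνi hEv]
    have h1 : 𝓕⁻ (𝓕 ψ) = ψ := Ψ.continuous.fourierInv_fourier_eq Ψ.integrable G.integrable
    have h2 := congrFun h1 ((2 * π : ℝ)⁻¹ • (WithLp.toLp 2 k : E3))
    rw [Real.fourierInv_eq', ← (PiLp.volume_preserving_toLp (Fin 3)).integral_comp
      (MeasurableEquiv.toLp 2 _).measurableEmbedding] at h2
    have h3 : ψ ((2 * π : ℝ)⁻¹ • (WithLp.toLp 2 k : E3)) = (φ (WithLp.toLp 2 k) : ℂ) := by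
      simp only [ψ, smul_inv_smul₀ hπ]
    have h4 : ∀ z : R3, (2 * π * inner ℝ (WithLp.toLp 2 z : E3)
        ((2 * π : ℝ)⁻¹ • (WithLp.toLp 2 k : E3)) : ℝ) = ∑ c, k c * z c := by
      intro z
      rw [real_inner_smul_right, ← mul_assoc, mul_inv_cancel₀ hπ, one_mul, PiLp.inner_apply]
      simp
    simp only [h4, ← hG] at h2
    rw [h3] at h2
    have h5 : Integrable fun z : R3 =>
        Complex.exp (((∑ c, k c * z c : ℝ) : ℂ) * Complex.I) • G (WithLp.toLp 2 z) := by
      refine Integrable.bdd_smul (𝕜 := ℂ) (φ := fun z : R3 =>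
        Complex.exp (((∑ c, k c * z c : ℝ) : ℂ) * Complex.I)) hGi 1 ?_ ?_
      · exact (by fun_prop : Continuous fun z : R3 =>
          Complex.exp (((∑ c, k c * z c : ℝ) : ℂ) * Complex.I)).aestronglyMeasurable
      · exact Filter.Eventually.of_forall fun z => (Complex.norm_exp_ofReal_mul_I _).le
    have h6 := congrArg Complex.re h2
    rw [Complex.ofReal_re] at h6
    rw [← h6, ← RCLike.re_to_complex, ← integral_re h5]
    congr 1
    funext z
    simp only [ν, RCLike.re_to_complex, smul_eq_mul, Complex.mul_re, hreal, mul_zero, sub_zero,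
      Complex.exp_ofReal_mul_I_re]
    ring

end Pool.Agent.BoseLHY
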