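import Pool.Agent.Lib.MP_dec75e_mp.L.Main1
import Pool.Agent.Lib.MP_dec75e_mp.L.Main2
import Pool.Agent.Lib.MP_dec75e_mp.L.FouD
import Pool.Agent.Lib.MP_dec75e_mp.L.Phi

/-! The perturbed Lee-Huang-Yang lower bound. -/

open MeasureTheory Finset Function
open scoped Real

noncomputable section

namespace Pool.Agent.BoseLHY

open Pool.Agent.BoseTail

theorem kappa_main3 (D : Dat) {y : ℝ} (hy : 0 < y) :
    √(2 * D.mu0 y) = √(8 * π * D.a) * y ^ 400 := by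
  have h : 2 * D.mu0 y = (8 * π * D.a) * (y ^ 400) ^ 2 := by
    unfold Dat.mu0; ring
  have ha := D.ha
  rw [h, Real.sqrt_mul (by positivity), Real.sqrt_sq (by positivity)]

theorem e1_main3 {y L l K Cb : ℝ} (hy : 0 < y) (hK : 0 < K) (hL : L = K * l)
    (h1 : 1 ≤ l * y ^ 404) (hC : 0 ≤ Cb) :
    K ^ 3 * (Cb * y ^ 789) ≤ Cb * y * (y ^ 2000 * L ^ 3) := by
  have h2 : K ≤ L * y ^ 404 := by
    rw [hL, mul_assoc]; exact le_mul_of_one_le_right hK.le h1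
  have h3 : K ^ 3 ≤ (L * y ^ 404) ^ 3 := pow_le_pow_left₀ hK.le h2 3
  calc K ^ 3 * (Cb * y ^ 789) ≤ (L * y ^ 404) ^ 3 * (Cb * y ^ 789) :=
        mul_le_mul_of_nonneg_right h3 (by positivity)
    _ = Cb * y * (y ^ 2000 * L ^ 3) := by ring

theorem e2_main3 {y L l a B IH e : ℝ} (hy : 0 < y) (hl : 0 < l) (hL : 0 < L) (ha : 0 < a)
    (h1 : 1 ≤ l * y ^ 404) (hB : 0 ≤ B) (he : e ≤ 1)
    (hH : IH ≤ e * (B * (y ^ 800 * L ^ 3) * y ^ 399)) :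
    84 * (4 * π * a * y ^ 800) * ((1 / y ^ 402) / l) * IH ≤
      336 * π * a * B * y * (y ^ 2000 * L ^ 3) := by
  have h2 : (1 / y ^ 402) / l ≤ y ^ 2 := by
    rw [div_div, div_le_iff₀ (by positivity)]
    calc (1 : ℝ) ≤ l * y ^ 404 := h1
      _ = y ^ 2 * (y ^ 402 * l) := by ring
  have h3 : IH ≤ B * (y ^ 800 * L ^ 3) * y ^ 399 :=
    hH.trans (mul_le_of_le_one_left (by positivity) he)
  calc 84 * (4 * π * a * y ^ 800) * ((1 / y ^ 402) / l) * IH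
      ≤ 84 * (4 * π * a * y ^ 800) * ((1 / y ^ 402) / l) * (B * (y ^ 800 * L ^ 3) * y ^ 399) :=
        mul_le_mul_of_nonneg_left h3 (by positivity)
    _ ≤ 84 * (4 * π * a * y ^ 800) * y ^ 2 * (B * (y ^ 800 * L ^ 3) * y ^ 399) :=
        mul_le_mul_of_nonneg_right (mul_le_mul_of_nonneg_left h2 (by positivity)) (by positivity)
    _ = 336 * π * a * B * y * (y ^ 2000 * L ^ 3) := by ring

theorem e3_main3 {y L a c B d e : ℝ} (hy : 0 < y) (hL : 0 < L) (ha : 0 < a) (hc : 0 < c)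
    (hB : 0 ≤ B) (he : e ≤ 1)
    (hd : d ≤ e * (B * (y ^ 800 * L ^ 3) * y ^ 399) / (c * y ^ 400 * (1 / y ^ 402))) :
    4 * π * a * y ^ 800 / 2 * d ≤ 2 * π * a * B / c * y * (y ^ 2000 * L ^ 3) := by
  have h3 : d ≤ B * (y ^ 800 * L ^ 3) * y ^ 399 / (c * y ^ 400 * (1 / y ^ 402)) :=
    hd.trans (div_le_div_of_nonneg_right (mul_le_of_le_one_left (by positivity) he)
      (by positivity))
  calc 4 * π * a * y ^ 800 / 2 * d
      ≤ 4 * π * a * y ^ 800 / 2 *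
        (B * (y ^ 800 * L ^ 3) * y ^ 399 / (c * y ^ 400 * (1 / y ^ 402))) :=
        mul_le_mul_of_nonneg_left h3 (by positivity)
    _ = 2 * π * a * B / c * y * (y ^ 2000 * L ^ 3) := by field_simp; ring

theorem final_main3 {y L l K N a c B Cb ε η X S IH Ih Iq En : ℝ} (hy : 0 < y) (hl : 0 < l)
    (hK : 0 < K) (hL : L = K * l) (ha : 0 < a) (hc : 0 < c) (h1 : 1 ≤ l * y ^ 404)
    (hN : N = y ^ 800 * L ^ 3) (hB : 0 ≤ B) (hCb : 0 ≤ Cb) (hε : |ε| ≤ 1)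
    (hS : (l * (c * y ^ 400) / π) ^ 3 * (X - η / 2) ≤ S)
    (hT : 4 * π * a * y ^ 800 * N + K ^ 3 *
        (-(2 * π * a * y ^ 1600 * l ^ 3) + 4 * π * a * y ^ 800 * S - Cb * y ^ 789) ≤
      En - 4 * π * a * y ^ 800 / 2 * Ih + 84 * (4 * π * a * y ^ 800) * ((1 / y ^ 402) / l) * IH)
    (hH : IH ≤ |ε| * (B * N * y ^ 399))
    (hh : |Ih - ε * Iq| ≤ |ε| * (B * N * y ^ 399) / (c * y ^ 400 * (1 / y ^ 402)))
    (hy0 : (Cb + 336 * π * a * B + 2 * π * a * B / c) * y ≤ η / 2 * (4 * π * a * (c / π) ^ 3)) :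
    2 * π * a * y ^ 800 * N + 4 * π * a * y ^ 800 * (L * (c * y ^ 400) / π) ^ 3 * (X - η) ≤
      En + ε * (4 * π * a * y ^ 800) * (-(Iq / 2)) := by
  have hL0 : 0 < L := by rw [hL]; positivity
  have e1 := e1_main3 hy hK hL h1 hCb
  have e2 := e2_main3 hy hl hL0 ha h1 hB hε (hN ▸ hH)
  have e3 := e3_main3 (d := ε * Iq - Ih) hy hL0 ha hc hB hε
    (le_trans (le_abs_self _) (by rw [abs_sub_comm, ← hN]; exact hh))
  have e4 : 4 * π * a * y ^ 800 * (L * (c * y ^ 400) / π) ^ 3 =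
      4 * π * a * (c / π) ^ 3 * (y ^ 2000 * L ^ 3) := by ring
  have e5 : 4 * π * a * y ^ 800 * (L * (c * y ^ 400) / π) ^ 3 * (X - η / 2) ≤
      K ^ 3 * (4 * π * a * y ^ 800 * S) := by
    calc 4 * π * a * y ^ 800 * (L * (c * y ^ 400) / π) ^ 3 * (X - η / 2)
        = K ^ 3 * (4 * π * a * y ^ 800 * ((l * (c * y ^ 400) / π) ^ 3 * (X - η / 2))) := by
          rw [hL]; ring
      _ ≤ K ^ 3 * (4 * π * a * y ^ 800 * S) :=
          mul_le_mul_of_nonneg_left (mul_le_mul_of_nonneg_left hS (by positivity))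
            (by positivity)
  have e6 : K ^ 3 * (2 * π * a * y ^ 1600 * l ^ 3) = 2 * π * a * y ^ 800 * N := by
    rw [hN, hL]; ring
  have e7 := mul_le_mul_of_nonneg_right hy0 (show 0 ≤ y ^ 2000 * L ^ 3 by positivity)
  rw [e4] at e5 ⊢
  generalize y ^ 2000 * L ^ 3 = W at *
  generalize 4 * π * a * (c / π) ^ 3 = U at *
  generalize 84 * (4 * π * a * y ^ 800) * ((1 / y ^ 402) / l) * IH = T2 at *
  generalize y ^ 800 = u at *
  generalize y ^ 789 = u' at *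
  generalize y ^ 1600 = u'' at *
  nlinarith [e1, e2, e3, e5, e6, e7, hT]

theorem env_main3 {y c t : ℝ} (hy : 0 < y) (hc : 0 < c) (ht : 0 ≤ t) :
    (1 + y ^ 400 * t) ^ 2 ≤ (1 + 1 / c) ^ 2 * (1 + c * y ^ 400 * t) ^ 2 := by
  rw [← mul_pow]
  refine pow_le_pow_left₀ (by positivity) ?_ 2
  have h1 : (1 + 1 / c) * (1 + c * y ^ 400 * t) =
      1 + y ^ 400 * t + (1 / c + c * y ^ 400 * t) := by field_simp; ring
  have h2 : 0 ≤ 1 / c + c * y ^ 400 * t := by positivity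
  linarith

theorem hasSum_main3 {N : ℕ} {L : ℝ} [Fact (0 < L)] {ψ : Cf N L → ℂ} (h : Adm ψ) {φ : E3 → ℝ}
    (hφ0 : φ 0 = 0) {ν : R3 → ℝ} (he : Ev ν) (hν : ∀ k : R3, ct ν k = φ (WithLp.toLp 2 k))
    {κ : ℝ} (hκ : 0 < κ) (hi : Integrable fun z => κ ^ 3 * ν (κ • z)) :
    HasSum (fun n : Fin 3 → ℤ => φ (κ⁻¹ • kvec L n) * (N * Mom ψ n / L ^ 3))
      (-((∫ z, κ ^ 3 * ν (κ • z) * Dz ψ z) / 2)) := by
  have hq : Ev fun z => κ ^ 3 * ν (κ • z) := by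
    intro z z' hz
    have : ν (κ • z) = ν (κ • z') := he _ _ fun c => by
      simp only [Pi.smul_apply, smul_eq_mul, abs_mul, hz c]
    simp only [this]
  have h1 := (hasSum_ct h hi hq).neg
  have h2 : ∀ n : Fin 3 → ℤ, φ (κ⁻¹ • kvec L n) * (N * Mom ψ n / L ^ 3) =
      -((ct (fun z => κ ^ 3 * ν (κ • z)) 0 -
        ct (fun z => κ ^ 3 * ν (κ • z)) fun c => kvec L n c) * (N * Mom ψ n / L ^ 3)) := by
    intro n
    rw [ct_scale ν hκ, ct_scale ν hκ, hν, hν, smul_zero, WithLp.toLp_zero, hφ0]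
    have h3 : (WithLp.toLp 2 (κ⁻¹ • fun c => kvec L n c) : E3) = κ⁻¹ • kvec L n := rfl
    rw [h3]; ring
  simp only [h2]
  exact h1

/-- `exists_nu`, `exists_trunc` with `κ = √(2 μ₀)`, `r = y^(-402)`, `torus_bound`, `apriori_D`,
`sum_FF_ge`; `hasSum_ct` for `q z = κ³ ν (κ z)` (`ct_scale`, `ct ν 0 = φ 0 = 0`) identifies
`A = -(∫ q Dz) / 2`. All errors are `O (y^2001 L³)`, the unit `μ₀ κ³ L³` is of order
`y^2000 L³`. -/
theorem perturbed {v : E3 → ℝ} (hv : Continuous v) (h0 : ∀ x, 0 ≤ v x) (hc : HasCompactSupport v)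
    (D : Dat) (hw : ∀ z, D.w.1 z = v (WithLp.toLp 2 z)) {φ : E3 → ℝ}
    (hφ : ContDiff ℝ (⊤ : ℕ∞) φ) (hφc : HasCompactSupport φ) (hφ0 : 0 ∉ tsupport φ)
    (hφe : ∀ κ κ' : E3, (∀ c, |κ c| = |κ' c|) → φ κ = φ κ') {E : ℝ} (hE : 0 ≤ E) {P : ℝ}
    (hP : 0 ≤ P) :
    ∃ C ε₁ : ℝ, 1 ≤ C ∧ 0 < ε₁ ∧ ∀ η : ℝ, 0 < η → ∃ y₀ : ℝ, 0 < y₀ ∧ y₀ ≤ 1 ∧
    ∀ (y : ℝ) (N : ℕ) (L : ℝ) [Fact (0 < L)] (ψ : Cf N L → ℂ), 0 < y → y ≤ y₀ →
      (N : ℝ) = y ^ 800 * L ^ 3 → 1 ≤ L * y ^ 404 → Adm ψ → PB D.V P ψ →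
      energy v ψ ≤ 2 * π * D.a * y ^ 800 * N + E * y ^ 1200 * N →
      ∃ A : ℝ, HasSum (fun n : Fin 3 → ℤ =>
        φ ((√(2 * D.mu0 y))⁻¹ • kvec L n) * (N * Mom ψ n / L ^ 3)) A ∧
      ∀ ε : ℝ, |ε| ≤ ε₁ →
        2 * π * D.a * y ^ 800 * N + D.mu0 y * (L * √(2 * D.mu0 y) / π) ^ 3 *
          (2 * √2 * π / 15 + ε * (∫ κ : E3, φ κ * gB ‖κ‖) / 16 - C * ε ^ 2 - η) ≤
        energy v ψ + ε * D.mu0 y * A := by
  have ha := D.ha
  have hφz : φ 0 = 0 := image_eq_zero_of_notMem_tsupport hφ0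
  obtain ⟨ν, Aν, hνc, hνe, hνA, hνφ⟩ := exists_nu hφ hφc hφe
  obtain ⟨Ct, hCt, hT⟩ := exists_trunc hνc hνe hνA
  obtain ⟨Cb, ε₀, yb, hCb, hε₀, hε₀', hyb, hyb1, hB⟩ := torus_bound hv h0 hc D hw hP
  obtain ⟨Ca, ya, hCa, hya, -, hA⟩ := apriori_D hv h0 hc D hw hE hP
  obtain ⟨c, hcdef⟩ : ∃ c : ℝ, c = √(8 * π * D.a) := ⟨_, rfl⟩
  have hc0 : 0 < c := by rw [hcdef]; positivity
  obtain ⟨Cs, hCsdef⟩ : ∃ Cs : ℝ, Cs = Ct + Ct / c := ⟨_, rfl⟩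
  have hCt0 : 0 < Ct := by linarith
  have hCtc : 0 < Ct / c := by positivity
  have hCs1 : Ct ≤ Cs := by linarith
  have hCs2 : Ct / c ≤ Cs := by linarith
  have hCs : 1 ≤ Cs := by linarith
  have hCs0 : 0 < Cs := by linarith
  refine ⟨42 * Cs ^ 2, ε₀ / Cs, by nlinarith, by positivity, fun η hη => ?_⟩
  obtain ⟨ys, hys, hS⟩ := sum_FF_ge D hφ.continuous hφc hφ0 hφe hCs (half_pos hη)
  obtain ⟨B, hBdef⟩ : ∃ B : ℝ, B = Ct * (Ca * (1 + 1 / c) ^ 2) := ⟨_, rfl⟩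
  have hB0 : 0 < B := by rw [hBdef]; positivity
  obtain ⟨M, hMdef⟩ : ∃ M : ℝ, M = Cb + 336 * π * D.a * B + 2 * π * D.a * B / c := ⟨_, rfl⟩
  have hM0 : 0 < M := by rw [hMdef]; positivity
  obtain ⟨U, hUdef⟩ : ∃ U : ℝ, U = η / 2 * (4 * π * D.a * (c / π) ^ 3) := ⟨_, rfl⟩
  have hU0 : 0 < U := by rw [hUdef]; positivity
  refine ⟨min (min yb ya) (min ys (U / M)), by positivity,
    (min_le_left _ _).trans ((min_le_left _ _).trans hyb1), ?_⟩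
  intro y N L _ ψ hy hyy hN hL hψ hPB hEn
  have hy1 : y ≤ yb := hyy.trans ((min_le_left _ _).trans (min_le_left _ _))
  have hy2 : y ≤ ya := hyy.trans ((min_le_left _ _).trans (min_le_right _ _))
  have hy3 : y ≤ ys := hyy.trans ((min_le_right _ _).trans (min_le_left _ _))
  have hy4 : y ≤ U / M := hyy.trans ((min_le_right _ _).trans (min_le_right _ _))
  have hy5 : y ≤ 1 := hy1.trans hyb1
  have hκ : √(2 * D.mu0 y) = c * y ^ 400 := by rw [kappa_main3 D hy, hcdef]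
  have hκ0 : 0 < √(2 * D.mu0 y) := by rw [hκ]; positivity
  have hκ2 : √(2 * D.mu0 y) ^ 2 = 2 * D.mu0 y :=
    Real.sq_sqrt (by have := D.mu0_pos hy; positivity)
  have hr0 : (0 : ℝ) < 1 / y ^ 402 := by positivity
  obtain ⟨K, R, l, hK, hl, hLK, hSc⟩ := exists_scale hy hy5 hL
  have hcont : Continuous ψ := hψ.1.1
  have hi : Integrable fun z => √(2 * D.mu0 y) ^ 3 * ν (√(2 * D.mu0 y) • z) := by
    obtain ⟨_, _, _, _, _, _, _, _, h, _⟩ := hT _ _ 0 hκ0 hr0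
    exact h
  refine ⟨_, hasSum_main3 hψ hφz hνe hνφ hκ0 hi, fun ε hε => ?_⟩
  obtain ⟨h, H, he, hs, hHm, hHi, -, hhH, -, hb1, hb2, hd⟩ := hT _ _ ε hκ0 hr0
  have hε1 : |ε| * Cs ≤ ε₀ := (le_div_iff₀ hCs0).1 hε
  have hεa := abs_nonneg ε
  have hε2 : |ε| * Ct ≤ |ε| * Cs := mul_le_mul_of_nonneg_left hCs1 hεa
  have hε3 : |ε| ≤ 1 := by nlinarith
  have hrl : 1 / y ^ 402 ≤ l := by
    rw [div_le_iff₀ (by positivity)]
    calc (1 : ℝ) ≤ l * y ^ 404 := hSc.l1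
      _ ≤ l * y ^ 402 := mul_le_mul_of_nonneg_left (pow_le_pow_of_le_one hy.le hy5 (by norm_num)) hl.le
  have hb3 : ∀ m, |ct h.1 (pk l m) - ct h.1 0| ≤ |ε| * Cs * min (D.tm y l m) 1 := by
    intro m
    have h1 := hb1 (pk l m)
    rw [hκ2] at h1
    refine h1.trans (mul_le_mul_of_nonneg_right hε2 (le_min ?_ zero_le_one))
    exact div_nonneg (sq3_nonneg _) (by have := D.mu0_pos hy; positivity)
  have hb4 : ∀ m, |ct h.1 (pk l m) - ct h.1 0| ≤ ε₀ * min (D.tm y l m) 1 := by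
    intro m
    refine (hb3 m).trans (mul_le_mul_of_nonneg_right hε1 (le_min ?_ zero_le_one))
    exact div_nonneg (sq3_nonneg _) (by have := D.mu0_pos hy; positivity)
  have hb5 : ∀ m, |ct h.1 (pk l m) - ct h.1 0 -
      ε * φ (WithLp.toLp 2 ((√(2 * D.mu0 y))⁻¹ • pk l m))| ≤ Cs * y ^ 2 := by
    intro m
    have h1 := hb2 (pk l m)
    rw [hνφ, hνφ, WithLp.toLp_zero, hφz, sub_zero] at h1
    refine h1.trans ?_
    have h2 : |ε| * Ct / (√(2 * D.mu0 y) * (1 / y ^ 402)) = |ε| * (Ct / c * y ^ 2) := by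
      rw [hκ]; field_simp
    rw [h2]
    exact (mul_le_of_le_one_left (by positivity) hε3).trans
      (mul_le_mul_of_nonneg_right hCs2 (by positivity))
  have hS1 := hS y l R ε (fun m => ct h.1 (pk l m) - ct h.1 0) hSc hy3 (hε1.trans hε₀') hb3 hb5
  have hB1 := hB y l R K h H _ hSc hy1 hK he hs hr0.le hrl hHm hHi hhH hb4 N L ψ hLK hψ hN hPB
  have hD : ∀ z, Dz ψ z ≤ Ca * N * y ^ 399 * (1 + 1 / c) ^ 2 * (1 + √(2 * D.mu0 y) * ‖z‖) ^ 2 := by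
    intro z
    refine (hA y N L ψ hy hy2 hN hL hψ hPB hEn z).trans ?_
    rw [hκ, mul_assoc (Ca * N * y ^ 399)]
    exact mul_le_mul_of_nonneg_left (env_main3 hy hc0 (norm_nonneg z)) (by positivity)
  obtain ⟨hd1, hd2⟩ := hd (Dz ψ) _ (bm_Dz hcont) (Dz_nonneg ψ) hD
  have hG : |ε| * Ct * (Ca * N * y ^ 399 * (1 + 1 / c) ^ 2) = |ε| * (B * N * y ^ 399) := by
    rw [hBdef]; ring
  rw [hG] at hd1 hd2
  have hy0 : M * y ≤ U := by rw [mul_comm]; exact (le_div_iff₀ hM0).1 hy4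
  rw [hMdef, hUdef] at hy0
  unfold Dat.tgt at hB1
  generalize ∑ m ∈ Lset R, FF (D.tm y l m + (ct h.1 (pk l m) - ct h.1 0)) (D.tm y l m) = S
    at hS1 hB1
  generalize ∫ z, √(2 * D.mu0 y) ^ 3 * ν (√(2 * D.mu0 y) • z) * Dz ψ z = Iq at hd2 ⊢
  rw [hκ] at hS1 hd2 ⊢
  unfold Dat.mu0 at hB1 ⊢
  have hK0 : (0 : ℝ) < K := by exact_mod_cast hK
  exact final_main3 hy hl hK0 hLK ha hc0 hSc.l1 hN hB0.le (by linarith) hε3 hS1 hB1 hd1 hd2 hy0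

end Pool.Agent.BoseLHY
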