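import Pool.Agent.Lib.MP_dec75e_mp.L.Bx

/-! The uniform measure on a box. -/

open MeasureTheory Finset Function
open scoped Real

noncomputable section

namespace Pool.Agent.BoseLHY

open Pool.Agent.BoseTail

variable {C : Type} [Fintype C] {B : Box} {Q : C → Box}

theorem Part.iUnion_prt (h : Part B Q) : B.set = ⋃ k, (Q k).set := by
  ext x
  simp only [Set.mem_iUnion]
  exact ⟨fun hx => h.cover x hx, fun ⟨k, hk⟩ => h.sub k hk⟩

theorem Part.pairwise_prt (h : Part B Q) : Pairwise (Disjoint on fun k => (Q k).set) := by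
  intro k k' hk
  exact Set.disjoint_left.2 fun x hx hx' => hk (h.disj k k' x hx hx')

theorem Part.restrict_prt (h : Part B Q) :
    (volume : Measure R3).restrict B.set = ∑ k, volume.restrict (Q k).set := by
  rw [h.iUnion_prt, Measure.restrict_iUnion h.pairwise_prt fun k => (Q k).measurableSet_set,
    Measure.sum_fintype]

theorem Part.sum_vol (h : Part B Q) : ∑ k, (Q k).vol = B.vol := by
  have h1 : volume B.set = ∑ k, volume (Q k).set := by
    rw [h.iUnion_prt, measure_iUnion h.pairwise_prt fun k => (Q k).measurableSet_set,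
      tsum_fintype]
  simp only [Box.volume_set] at h1
  rw [← ENNReal.ofReal_sum_of_nonneg fun k _ => (Q k).vol_pos.le] at h1
  exact ((ENNReal.ofReal_eq_ofReal_iff B.vol_pos.le
    (Finset.sum_nonneg fun k _ => (Q k).vol_pos.le)).1 h1).symm

theorem Part.mix (h : Part B Q) : (B.μ : Measure R3) =
    ∑ k, ENNReal.ofReal ((Q k).vol / B.vol) • ((Q k).μ : Measure R3) := by
  rw [B.mu_eq, h.restrict_prt, Finset.smul_sum]
  refine Finset.sum_congr rfl fun k _ => ?_
  rw [(Q k).mu_eq, smul_smul]
  congr 1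
  have h0 : ENNReal.ofReal (Q k).vol ≠ 0 := by simpa using (Q k).vol_pos
  rw [ENNReal.ofReal_div_of_pos B.vol_pos, div_eq_mul_inv, mul_right_comm,
    ENNReal.mul_inv_cancel h0 ENNReal.ofReal_ne_top, one_mul]

theorem Part.integral_ind (h : Part B Q) (k : C) (f : R3 → ℝ) :
    ∫ y, (Q k).set.indicator f y ∂(B.μ : Measure R3) =
      (Q k).vol / B.vol * ∫ y, f y ∂((Q k).μ : Measure R3) := by
  rw [B.integral_mu, (Q k).integral_mu, setIntegral_indicator (Q k).measurableSet_set,
    Set.inter_eq_self_of_subset_right (h.sub k)]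
  have := (Q k).vol_pos.ne'
  have := B.vol_pos.ne'
  field_simp

theorem glue_apply_prt (Q : C → Box) (G : C → BF (R3 × R3)) (z : R3 × R3) :
    (glue Q G).1 z =
      ∑ k, ((Q k).set ×ˢ (Q k).set).indicator (fun _ => (1 : ℝ)) z * (G k).1 z := by
  unfold glue
  rw [AddSubmonoidClass.coe_finsetSum, Finset.sum_apply]
  rfl

theorem glue_of_mem (h : Part B Q) (G : C → BF (R3 × R3)) {k : C} {x : R3} (hx : x ∈ (Q k).set)
    (y : R3) : (glue Q G).1 (x, y) = (Q k).set.indicator (fun y => (G k).1 (x, y)) y := by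
  rw [glue_apply_prt, Finset.sum_eq_single k]
  · by_cases hy : y ∈ (Q k).set
    · rw [Set.indicator_of_mem (Set.mk_mem_prod hx hy), Set.indicator_of_mem hy, one_mul]
    · rw [Set.indicator_of_notMem (fun hz => hy hz.2), Set.indicator_of_notMem hy, zero_mul]
  · intro k' _ hk
    rw [Set.indicator_of_notMem (fun hz => hk (h.disj k' k x hz.1 hx)), zero_mul]
  · intro hk
    exact absurd (Finset.mem_univ k) hk

theorem glue_smul (Q : C → Box) (c : ℝ) (G : C → BF (R3 × R3)) :
    glue Q (fun k => c • G k) = c • glue Q G := by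
  unfold glue
  rw [Finset.smul_sum]
  exact Finset.sum_congr rfl fun k _ => mul_smul_comm _ _ _

end Pool.Agent.BoseLHY
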