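import Pool.Agent.Lib.MP_dec75e_mp.L.MixM
import Pool.Agent.Lib.MP_dec75e_mp.L.Prt
import Pool.Agent.Lib.MP_dec75e_mp.L.Kin3

/-! Decomposition of a box into cells. -/

open MeasureTheory Finset Function
open scoped Real

noncomputable section

namespace Pool.Agent.BoseLHY

open Pool.Agent.BoseTail

variable {ι : Type} [Fintype ι] [DecidableEq ι] {μ : ι → ProbabilityMeasure R3} {B : Box}
  {S : Finset ι} {C : Type} [Fintype C] [DecidableEq C] {Q : C → Box} {ψ : Vs ι}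

/-- `ex_mix` with `θ k = (Q k).vol / B.vol` (`Part.mix`; for `i ∉ S` use `Part.sum_vol`). -/
theorem integral_asg (hA : Act μ B S) (hP : Part B Q) {F : (ι → R3) → ℝ} (hF : BM F) :
    ∫ X, F X ∂pm μ =
      ∑ a : ι → C, (∏ i, (Q (a i)).vol / B.vol) * ∫ X, F X ∂pm (asg μ S Q a) := by
  have hθ : ∀ k, 0 ≤ (Q k).vol / B.vol := fun k => (div_pos (Q k).vol_pos B.vol_pos).le
  refine ex_mix (fun i k => if i ∈ S then (Q k).μ else μ i) (θ := fun k => (Q k).vol / B.vol) hθ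
    (fun i => ?_) hF
  by_cases hi : i ∈ S
  · simp only [if_pos hi]
    rw [hA i hi]
    exact hP.mix
  · simp only [if_neg hi]
    rw [← Finset.sum_smul, ← ENNReal.ofReal_sum_of_nonneg fun k _ => hθ k, ← sum_div, hP.sum_vol,
      div_self B.vol_pos.ne', ENNReal.ofReal_one, one_smul]

theorem act_asg (a : ι → C) (k : C) : Act (asg μ S Q a) (Q k) (S.filter fun i => a i = k) := by
  intro i hi
  rw [mem_filter] at hi
  simp only [asg, if_pos hi.1, hi.2]

theorem nq_asg (hA : Act μ B S) (hP : Part B Q) (ψ : Vs ι) :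
    nq (ipB μ) ψ = ∑ a : ι → C, (∏ i, (Q (a i)).vol / B.vol) * nq (ipB (asg μ S Q a)) ψ := by
  exact integral_asg hA hP (bmOf (ψ * ψ))

theorem kin_asg_mix (hA : Act μ B S) (hP : Part B Q) (hψ : C1 ψ) :
    kin μ S ψ = ∑ a : ι → C, (∏ i, (Q (a i)).vol / B.vol) * kin (asg μ S Q a) S ψ := by
  unfold kin
  have h : ∀ (i : ι) (c : Fin 3), ∫ X, dd (dirR i c) ψ.1 X ^ 2 ∂pm μ =
      ∑ a : ι → C, (∏ i, (Q (a i)).vol / B.vol) *
        ∫ X, dd (dirR i c) ψ.1 X ^ 2 ∂pm (asg μ S Q a) :=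
    fun i c => integral_asg hA hP ((hψ.bm_dd i c).pow 2)
  simp only [h]
  simp only [mul_sum]
  symm
  rw [sum_comm]
  refine sum_congr rfl fun i _ => ?_
  rw [sum_comm]
  refine sum_congr rfl fun c _ => sum_congr rfl fun a _ => ?_
  ring

theorem pot_asg_mix (hA : Act μ B S) (hP : Part B Q) (W : BF (R3 × R3)) (ψ : Vs ι) :
    pot μ S W ψ = ∑ a : ι → C, (∏ i, (Q (a i)).vol / B.vol) * pot (asg μ S Q a) S W ψ := by
  unfold pot
  have h : ∀ f : Vs ι, ex μ f =
      ∑ a : ι → C, (∏ i, (Q (a i)).vol / B.vol) * ex (asg μ S Q a) f :=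
    fun f => integral_asg hA hP (bmOf f)
  simp only [h]
  simp only [mul_sum]
  symm
  rw [sum_comm]
  refine sum_congr rfl fun i _ => ?_
  rw [sum_comm]
  refine sum_congr rfl fun c _ => sum_congr rfl fun a _ => ?_
  ring

theorem En_asg (hA : Act μ B S) (hP : Part B Q) (w : BF (R3 × R3)) (hψ : C1 ψ) :
    En μ S w ψ = ∑ a : ι → C, (∏ i, (Q (a i)).vol / B.vol) * En (asg μ S Q a) S w ψ := by
  unfold En
  rw [kin_asg_mix hA hP hψ, pot_asg_mix hA hP, ← sum_add_distrib]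
  exact sum_congr rfl fun a _ => (mul_add _ _ _).symm

end Pool.Agent.BoseLHY
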