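import Pool.Agent.Lib.MP_dec75e_mp.L.Op1

/-! Difference forms and mixtures of product measures. -/

open MeasureTheory Finset Function
open scoped Real

noncomputable section

namespace Pool.Agent.BoseLHY

open Pool.Agent.BoseTail

variable {α : Type} [MeasurableSpace α] {ι : Type} [Fintype ι] [DecidableEq ι]
  {μ : ι → ProbabilityMeasure α} {ν ν' : ProbabilityMeasure α} {i j : ι} {f g ψ : BF (ι → α)}

theorem pm_mixm {C : Type} [Fintype C] [DecidableEq C] (μ' : ι → C → ProbabilityMeasure α)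
    {θ : C → ℝ} (hθ : ∀ k, 0 ≤ θ k)
    (h : ∀ i, (μ i : Measure α) = ∑ k, ENNReal.ofReal (θ k) • (μ' i k : Measure α)) :
    pm μ = ∑ a : ι → C, ENNReal.ofReal (∏ i, θ (a i)) • pm fun i => μ' i (a i) := by
  unfold pm
  refine Measure.pi_eq fun s hs => ?_
  rw [Measure.finsetSum_apply]
  simp only [Measure.smul_apply, Measure.pi_pi, smul_eq_mul]
  have h2 : ∀ i, (μ i : Measure α) (s i) =
      ∑ k, ENNReal.ofReal (θ k) * (μ' i k : Measure α) (s i) := fun i => by
    rw [h i, Measure.finsetSum_apply]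
    simp only [Measure.smul_apply, smul_eq_mul]
  simp only [h2]
  rw [Finset.prod_univ_sum, Fintype.piFinset_univ]
  refine sum_congr rfl fun a _ => ?_
  rw [ENNReal.ofReal_prod_of_nonneg fun i _ => hθ (a i), prod_mul_distrib]

/-- Multilinearity of the product measure (`Measure.pi_eq`, `Finset.prod_univ_sum`). -/
theorem ex_mix {C : Type} [Fintype C] [DecidableEq C] (μ' : ι → C → ProbabilityMeasure α)
    {θ : C → ℝ} (hθ : ∀ k, 0 ≤ θ k)
    (h : ∀ i, (μ i : Measure α) = ∑ k, ENNReal.ofReal (θ k) • (μ' i k : Measure α))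
    {F : (ι → α) → ℝ} (hF : BM F) :
    ∫ X, F X ∂pm μ = ∑ a : ι → C, (∏ i, θ (a i)) * ∫ X, F X ∂pm fun i => μ' i (a i) := by
  rw [pm_mixm μ' hθ h, integral_finsetSum_measure fun a _ =>
    hF.integrable.smul_measure ENNReal.ofReal_ne_top]
  refine sum_congr rfl fun a _ => ?_
  rw [integral_smul_measure, ENNReal.toReal_ofReal (prod_nonneg fun i _ => hθ (a i)), smul_eq_mul]

end Pool.Agent.BoseLHY
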