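import Pool.Agent.Lib.MP_dec75e_mp.L.Abs

/-! Averaging over one coordinate of a product probability space. -/

open MeasureTheory Finset Function
open scoped Real

noncomputable section

namespace Pool.Agent.BoseLHY

open Pool.Agent.BoseTail

variable {α : Type} [MeasurableSpace α] {ι : Type} [Fintype ι] [DecidableEq ι]
  {μ : ι → ProbabilityMeasure α} {ν ν' : ProbabilityMeasure α} {i j : ι} {f g ψ : BF (ι → α)}

theorem ex_apply (f : BF (ι → α)) : ex μ f = ∫ X, f.1 X ∂pm μ := rfl

theorem ipB_apply (f g : BF (ι → α)) : ipB μ f g = ex μ (f * g) := rfl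

theorem nq_ipB (f : BF (ι → α)) : nq (ipB μ) f = ex μ (f * f) := rfl

omit [Fintype ι] [DecidableEq ι] in
theorem mu_apply (h f : BF (ι → α)) : mu h f = h * f := rfl

theorem avg_apply (f : BF (ι → α)) (X : ι → α) :
    (avg ν i f).1 X = ∫ y, f.1 (update X i y) ∂(ν : Measure α) := rfl

theorem nq_compl_mu (h f : BF (ι → α)) : nq ((ipB μ).compl₂ (mu h)) f = ex μ (h * (f * f)) := by
  change ex μ (f * (h * f)) = _
  rw [mul_left_comm]

theorem ex_one : ex μ 1 = 1 := by
  change ∫ _X, (1 : ℝ) ∂pm μ = 1
  simp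

theorem ex_mono_ae (h : ∀ᵐ X ∂pm μ, f.1 X ≤ g.1 X) : ex μ f ≤ ex μ g := by
  exact integral_mono_ae (bmOf f).integrable (bmOf g).integrable h

theorem ex_congr_ae (h : ∀ᵐ X ∂pm μ, f.1 X = g.1 X) : ex μ f = ex μ g := by
  exact integral_congr_ae h

theorem ex_nonneg (h : ∀ X, 0 ≤ f.1 X) : 0 ≤ ex μ f := by
  exact integral_nonneg h

theorem psd_ipB (μ : ι → ProbabilityMeasure α) : PSD (ipB μ) := by
  refine ⟨fun f g => ?_, fun f => ?_⟩
  · rw [ipB_apply, ipB_apply, mul_comm]
  · exact ex_nonneg (f := f * f) fun X => mul_self_nonneg (f.1 X)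

theorem ae_coord (i : ι) {p : α → Prop} (h : ∀ᵐ x ∂(μ i : Measure α), p x) :
    ∀ᵐ X ∂pm μ, p (X i) := by
  exact (Measure.tendsto_eval_ae_ae (μ := fun i => (μ i : Measure α)) (i := i)).eventually h

theorem map_resample_op1 (i : ι) :
    ((pm μ).prod (μ i : Measure α)).map (fun p : (ι → α) × α => (update p.1 i p.2, p.1 i)) =
      (pm μ).prod (μ i : Measure α) := by
  have hT : Measurable fun p : (ι → α) × α => (update p.1 i p.2, p.1 i) :=
    measurable_update'.prodMk ((measurable_pi_apply i).comp measurable_fst)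
  symm
  refine Measure.prod_eq_generateFrom generateFrom_pi MeasurableSpace.generateFrom_measurableSet
    isPiSystem_pi MeasurableSpace.isPiSystem_measurableSet
    ⟨fun _ => Set.univ, fun _ => ⟨fun _ => Set.univ, fun _ _ => MeasurableSet.univ, Set.pi_univ _⟩,
      fun _ => measure_lt_top _ _, Set.iUnion_const _⟩
    ⟨fun _ => Set.univ, fun _ => MeasurableSet.univ, fun _ => measure_lt_top _ _,
      Set.iUnion_const _⟩ ?_
  rintro _ ⟨s, hs, rfl⟩ t ht
  have hs' : ∀ j, MeasurableSet (s j) := fun j => hs j (Set.mem_univ j)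
  rw [Measure.map_apply hT ((MeasurableSet.univ_pi hs').prod ht)]
  have h1 : (fun p : (ι → α) × α => (update p.1 i p.2, p.1 i)) ⁻¹' (Set.univ.pi s ×ˢ t) =
      Set.univ.pi (update s i t) ×ˢ s i := by
    ext ⟨X, y⟩
    simp only [Set.mem_preimage, Set.mem_prod, Set.mem_univ_pi]
    constructor
    · rintro ⟨h1, h2⟩
      refine ⟨fun j => ?_, by simpa using h1 i⟩
      by_cases hj : j = i
      · subst hj
        simpa using h2
      · simpa [update_of_ne hj] using h1 j
    · rintro ⟨h1, h2⟩
      refine ⟨fun j => ?_, by simpa using h1 i⟩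
      by_cases hj : j = i
      · subst hj
        simpa using h2
      · simpa [update_of_ne hj] using h1 j
  rw [h1, Measure.prod_prod]
  unfold pm
  rw [Measure.pi_pi, Measure.pi_pi, ← Finset.mul_prod_erase _ _ (Finset.mem_univ i),
    ← Finset.mul_prod_erase _ (fun j => (μ j : Measure α) (s j)) (Finset.mem_univ i), update_self,
    Finset.prod_congr rfl fun j hj => by rw [update_of_ne (Finset.ne_of_mem_erase hj)]]
  ring

theorem integral_resample_op1 (i : ι) {F : (ι → α) → α → ℝ} (hF : BM (uncurry F)) :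
    ∫ X, ∫ y, F X y ∂(μ i : Measure α) ∂pm μ =
      ∫ X, ∫ y, F (update X i y) (X i) ∂(μ i : Measure α) ∂pm μ := by
  have hT : Measurable fun p : (ι → α) × α => (update p.1 i p.2, p.1 i) :=
    measurable_update'.prodMk ((measurable_pi_apply i).comp measurable_fst)
  have h1 := integral_prod (μ := pm μ) (ν := (μ i : Measure α)) _ hF.integrable
  have h2 := integral_prod (μ := pm μ) (ν := (μ i : Measure α)) _ (hF.comp hT).integrable
  have h3 := integral_map (μ := (pm μ).prod (μ i : Measure α)) hT.aemeasurable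
    (f := uncurry F) hF.1.aestronglyMeasurable
  rw [map_resample_op1] at h3
  exact h1.symm.trans (h3.trans h2)

/-- Resampling coordinate `i` preserves the product measure. -/
theorem ex_avg (i : ι) (f : BF (ι → α)) : ex μ (avg (μ i) i f) = ex μ f := by
  have h := integral_resample_op1 (μ := μ) i (F := fun X _ => f.1 X)
    (BM.comp (bmOf f) (T := fun p : (ι → α) × α => p.1) measurable_fst)
  simp only [integral_const, probReal_univ, one_smul] at h
  exact h.symm

/-- Exchange of the coordinate `X i` with an independent copy. -/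
theorem integral_resample (i : ι) {F : (ι → α) → α → ℝ} (hF : BM (uncurry F)) :
    ∫ X, ∫ y, F X y ∂(μ i : Measure α) ∂pm μ =
      ∫ X, ∫ y, F (update X i y) (X i) ∂(μ i : Measure α) ∂pm μ := by
  exact integral_resample_op1 i hF

theorem ind_avg (ν : ProbabilityMeasure α) (i : ι) (f : BF (ι → α)) : Ind i (avg ν i f) := by
  intro X y
  simp only [avg_apply, update_idem]

theorem avg_of_ind (h : Ind i f) : avg ν i f = f := by
  refine Subtype.ext (funext fun X => ?_)
  rw [avg_apply]
  simp only [h X, integral_const, probReal_univ, one_smul]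

theorem avg_mul_ind (h : Ind i f) (g : BF (ι → α)) : avg ν i (f * g) = f * avg ν i g := by
  refine Subtype.ext (funext fun X => ?_)
  change ∫ y, f.1 (update X i y) * g.1 (update X i y) ∂(ν : Measure α) =
    f.1 X * ∫ y, g.1 (update X i y) ∂(ν : Measure α)
  simp only [h X]
  exact integral_const_mul _ _

omit [Fintype ι] in
theorem Ind.zero : Ind i (0 : BF (ι → α)) := by
  exact fun _ _ => rfl

omit [Fintype ι] in
theorem Ind.one : Ind i (1 : BF (ι → α)) := by
  exact fun _ _ => rfl

omit [Fintype ι] in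
theorem Ind.mul (hf : Ind i f) (hg : Ind i g) : Ind i (f * g) := by
  intro X y
  change f.1 _ * g.1 _ = f.1 X * g.1 X
  rw [hf X y, hg X y]

omit [Fintype ι] in
theorem Ind.add (hf : Ind i f) (hg : Ind i g) : Ind i (f + g) := by
  intro X y
  change f.1 _ + g.1 _ = f.1 X + g.1 X
  rw [hf X y, hg X y]

omit [Fintype ι] in
theorem Ind.sub (hf : Ind i f) (hg : Ind i g) : Ind i (f - g) := by
  intro X y
  change f.1 _ - g.1 _ = f.1 X - g.1 X
  rw [hf X y, hg X y]

omit [Fintype ι] in
theorem Ind.smul (hf : Ind i f) (c : ℝ) : Ind i (c • f) := by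
  intro X y
  change c * f.1 _ = c * f.1 X
  rw [hf X y]

omit [Fintype ι] in
theorem Ind.sum {κ : Type} {s : Finset κ} {F : κ → BF (ι → α)} (h : ∀ k ∈ s, Ind i (F k)) :
    Ind i (∑ k ∈ s, F k) := by
  exact Finset.sum_induction F (Ind i) (fun _ _ ha hb => ha.add hb) Ind.zero h

theorem Ind.avg (hf : Ind i f) (ν : ProbabilityMeasure α) (j : ι) : Ind i (avg ν j f) := by
  by_cases hij : i = j
  · subst hij
    exact ind_avg ν i f
  · intro X y
    simp only [avg_apply, update_comm hij, hf _ y]

omit [Fintype ι] in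
theorem ind_at1 (hij : i ≠ j) (h : BF α) : Ind i (at1 j h) := by
  intro X y
  change h.1 (update X i y j) = h.1 (X j)
  rw [update_of_ne hij.symm]

omit [Fintype ι] in
theorem ind_at2 {k : ι} (hi : k ≠ i) (hj : k ≠ j) (G : BF (α × α)) : Ind k (at2 i j G) := by
  intro X y
  change G.1 (update X k y i, update X k y j) = G.1 (X i, X j)
  rw [update_of_ne hi.symm, update_of_ne hj.symm]

theorem avg_comm (hij : i ≠ j) (f : BF (ι → α)) :
    avg ν i (avg ν' j f) = avg ν' j (avg ν i f) := by
  refine Subtype.ext (funext fun X => ?_)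
  simp only [avg_apply]
  rw [BM.swap (Φ := fun y z => f.1 (update (update X i y) j z))
    (BM.comp (bmOf f) (T := fun p : α × α => update (update X i p.1) j p.2)
      (measurable_update'.comp
        (((measurable_update X).comp measurable_fst).prodMk measurable_snd)))]
  simp only [update_comm hij]

theorem avg_at1 (h : BF α) : avg ν i (at1 i h : BF (ι → α)) =
    (∫ x, h.1 x ∂(ν : Measure α)) • (1 : BF (ι → α)) := by
  refine Subtype.ext (funext fun X => ?_)
  change ∫ y, h.1 (update X i y i) ∂(ν : Measure α) = (∫ x, h.1 x ∂(ν : Measure α)) * 1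
  simp only [update_self, mul_one]

theorem avg_at2_left (hij : i ≠ j) {G : BF (α × α)} {h : BF α}
    (hG : ∀ y, ∫ x, G.1 (x, y) ∂(ν : Measure α) = h.1 y) :
    avg ν i (at2 i j G : BF (ι → α)) = at1 j h := by
  refine Subtype.ext (funext fun X => ?_)
  change ∫ y, G.1 (update X i y i, update X i y j) ∂(ν : Measure α) = h.1 (X j)
  simp only [update_self, update_of_ne hij.symm, hG]

end Pool.Agent.BoseLHY
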