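import Pool.Agent.Lib.MP_dec75e_mp.L.Op1

/-! Averaging over one coordinate of a product probability space. -/

open MeasureTheory Finset Function
open scoped Real

noncomputable section

namespace Pool.Agent.BoseLHY

open Pool.Agent.BoseTail

variable {α : Type} [MeasurableSpace α] {ι : Type} [Fintype ι] [DecidableEq ι]
  {μ : ι → ProbabilityMeasure α} {ν ν' : ProbabilityMeasure α} {i j : ι} {f g ψ : BF (ι → α)}

omit [Fintype ι] [DecidableEq ι] in
theorem at2_comm {G : BF (α × α)} (hG : ∀ x y, G.1 (x, y) = G.1 (y, x)) (i j : ι) :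
    (at2 i j G : BF (ι → α)) = at2 j i G := by
  exact Subtype.ext (funext fun X => hG (X i) (X j))

theorem sa_mu (h : BF (ι → α)) : SA (ipB μ) (mu h) := by
  intro f g
  rw [ipB_apply, ipB_apply, mu_apply, mu_apply]
  congr 1
  ring

theorem proj_avg (hi : μ i = ν) : Proj (ipB μ) (avg ν i) := by
  subst hi
  refine ⟨fun f g => ?_, fun f => avg_of_ind (ind_avg _ i f)⟩
  rw [ipB_apply, ipB_apply, ← ex_avg i (avg (μ i) i f * g), avg_mul_ind (ind_avg _ i f),
    ← ex_avg i (f * avg (μ i) i g), mul_comm f, avg_mul_ind (ind_avg _ i g), mul_comm]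

theorem ex_at2_mul (hij : i ≠ j) (hi : Ind i f) (hj : Ind j f) (G : BF (α × α)) :
    ex μ (at2 i j G * f) =
      (∫ x, ∫ y, G.1 (x, y) ∂(μ j : Measure α) ∂(μ i : Measure α)) * ex μ f := by
  have h : avg (μ i) i (avg (μ j) j (at2 i j G * f)) =
      (∫ x, ∫ y, G.1 (x, y) ∂(μ j : Measure α) ∂(μ i : Measure α)) • f := by
    refine Subtype.ext (funext fun X => ?_)
    have e : ∀ x y, (at2 i j G * f : BF (ι → α)).1 (update (update X i x) j y) =
        G.1 (x, y) * f.1 X := fun x y => by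
      change G.1 (update (update X i x) j y i, update (update X i x) j y j) *
        f.1 (update (update X i x) j y) = _
      rw [hj, hi, update_self, update_of_ne hij, update_self]
    change ∫ x, ∫ y, (at2 i j G * f : BF (ι → α)).1 (update (update X i x) j y)
      ∂(μ j : Measure α) ∂(μ i : Measure α) = _ * f.1 X
    simp only [e, integral_mul_const]
  rw [← ex_avg j, ← ex_avg i, h, map_smul, smul_eq_mul]

/-- Integrate out coordinate `i` first. -/
theorem ex_at2_le (hij : i ≠ j) (hi : Ind i f) (h0 : ∀ X, 0 ≤ f.1 X) {G : BF (α × α)} {b : ℝ}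
    (hG : ∀ y, ∫ x, G.1 (x, y) ∂(μ i : Measure α) ≤ b) : ex μ (at2 i j G * f) ≤ b * ex μ f := by
  rw [← ex_avg i, ← smul_eq_mul b, ← map_smul]
  refine ex_mono_ae (Filter.Eventually.of_forall fun X => ?_)
  have e : ∀ x, (at2 i j G * f : BF (ι → α)).1 (update X i x) = G.1 (x, X j) * f.1 X :=
    fun x => by
      change G.1 (update X i x i, update X i x j) * f.1 (update X i x) = _
      rw [hi, update_self, update_of_ne hij.symm]
  change ∫ x, (at2 i j G * f : BF (ι → α)).1 (update X i x) ∂(μ i : Measure α) ≤ b * f.1 X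
  simp only [e, integral_mul_const]
  exact mul_le_mul_of_nonneg_right (hG _) (h0 X)

omit [Fintype ι] in
theorem swp_at1 (i j k : ι) (h : BF α) :
    swp i j (at1 k h : BF (ι → α)) = at1 (Equiv.swap i j k) h := by
  rfl

theorem swp_avg (i j k : ι) (f : BF (ι → α)) :
    swp i j (avg ν k f) = avg ν (Equiv.swap i j k) (swp i j f) := by
  refine Subtype.ext (funext fun X => ?_)
  change ∫ y, f.1 (update (X ∘ Equiv.swap i j) k y) ∂(ν : Measure α) =
    ∫ y, f.1 (update X (Equiv.swap i j k) y ∘ Equiv.swap i j) ∂(ν : Measure α)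
  simp only [update_comp_eq_of_injective X (Equiv.swap i j).injective]

omit [Fintype ι] in
theorem Sym.subset {S S' : Finset ι} (h : Sym S ψ) (hS : S' ⊆ S) : Sym S' ψ := by
  exact fun i hi j hj => h i (hS hi) j (hS hj)

theorem term_op1b {W : BF (α × α)} (hW : ∀ z, 0 ≤ W.1 z) (i j : ι) (ψ : BF (ι → α)) :
    0 ≤ ex μ (at2 i j W * (ψ * ψ)) :=
  ex_nonneg fun X => mul_nonneg (hW (X i, X j)) (mul_self_nonneg (ψ.1 X))

theorem pot_nonneg {W : BF (α × α)} (hW : ∀ z, 0 ≤ W.1 z) (S : Finset ι) (ψ : BF (ι → α)) :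
    0 ≤ pot μ S W ψ := by
  exact mul_nonneg (by norm_num) (sum_nonneg fun i _ => sum_nonneg fun j _ => term_op1b hW i j ψ)

/-- Interactions between different groups are dropped. -/
theorem pot_fiber {W : BF (α × α)} (hW : ∀ z, 0 ≤ W.1 z) {C : Type} [Fintype C] [DecidableEq C]
    (S : Finset ι) (a : ι → C) (ψ : BF (ι → α)) :
    ∑ k, pot μ (S.filter fun i => a i = k) W ψ ≤ pot μ S W ψ := by
  unfold pot
  rw [← mul_sum, ← sum_fiberwise S a]
  refine mul_le_mul_of_nonneg_left (sum_le_sum fun k _ => sum_le_sum fun i _ => ?_) (by norm_num)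
  exact sum_le_sum_of_subset_of_nonneg (erase_subset_erase i (filter_subset _ S))
    fun j _ _ => term_op1b hW i j ψ

theorem pot_sdiff {W : BF (α × α)} (hW : ∀ z, 0 ≤ W.1 z) {S S' : Finset ι} (hS : S' ⊆ S)
    (ψ : BF (ι → α)) : pot μ S' W ψ + pot μ (S \ S') W ψ ≤ pot μ S W ψ := by
  unfold pot
  rw [← mul_add, ← sum_sdiff hS, add_comm]
  refine mul_le_mul_of_nonneg_left (add_le_add ?_ ?_) (by norm_num)
  · exact sum_le_sum fun i _ => sum_le_sum_of_subset_of_nonneg
      (erase_subset_erase i sdiff_subset) fun j _ _ => term_op1b hW i j ψ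
  · exact sum_le_sum fun i _ => sum_le_sum_of_subset_of_nonneg
      (erase_subset_erase i hS) fun j _ _ => term_op1b hW i j ψ

end Pool.Agent.BoseLHY
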