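import Pool.Agent.Lib.MP_dec75e_mp.L.Dfs

/-! Tensor products of Parseval systems. -/

open MeasureTheory Finset Function
open scoped Real

noncomputable section

namespace Pool.Agent.BoseLHY

open Pool.Agent.BoseTail

theorem Pars.polar {α κ : Type} [MeasurableSpace α] {ν : Measure α} [IsFiniteMeasure ν]
    {e : κ → α → ℝ} (h : Pars ν e) {f g : α → ℝ} (hf : BM f) (hg : BM g) :
    HasSum (fun k => (∫ x, e k x * f x ∂ν) * ∫ x, e k x * g x ∂ν) (∫ x, f x * g x ∂ν) := by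
  have h1 := h.2 _ (hf.add hg)
  have h2 := h.2 _ hf
  have h3 := h.2 _ hg
  have h4 := ((h1.sub h2).sub h3).mul_left (1 / 2 : ℝ)
  have e1 : ∀ k, ∫ x, e k x * (f x + g x) ∂ν = (∫ x, e k x * f x ∂ν) + ∫ x, e k x * g x ∂ν := by
    intro k
    rw [← integral_add ((h.1 k).mul hf).integrable ((h.1 k).mul hg).integrable]
    exact integral_congr_ae (Filter.Eventually.of_forall fun x => mul_add _ _ _)
  have e2 : ∫ x, (f x + g x) ^ 2 ∂ν =
      (∫ x, f x ^ 2 ∂ν) + (∫ x, g x ^ 2 ∂ν) + 2 * ∫ x, f x * g x ∂ν := by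
    rw [← integral_add (hf.pow 2).integrable (hg.pow 2).integrable, ← integral_const_mul,
      ← integral_add ((hf.pow 2).add (hg.pow 2)).integrable
        ((BM.const 2).mul (hf.mul hg)).integrable]
    exact integral_congr_ae (Filter.Eventually.of_forall fun x => by beta_reduce; ring)
  have e3 : (fun k => (∫ x, e k x * f x ∂ν) * ∫ x, e k x * g x ∂ν) = fun k => (1 / 2 : ℝ) *
      ((∫ x, e k x * (f x + g x) ∂ν) ^ 2 - (∫ x, e k x * f x ∂ν) ^ 2 -
        (∫ x, e k x * g x ∂ν) ^ 2) := by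
    funext k
    rw [e1]; ring
  have e4 : ∫ x, f x * g x ∂ν = (1 / 2 : ℝ) *
      (∫ x, (f x + g x) ^ 2 ∂ν - ∫ x, f x ^ 2 ∂ν - ∫ x, g x ^ 2 ∂ν) := by
    rw [e2]; ring
  rw [e3, e4]
  exact h4

/-- Parseval in the first variable with a parameter. -/
theorem Pars.param {α γ κ : Type} [MeasurableSpace α] [MeasurableSpace γ] [Countable κ]
    {ν : Measure α} [IsFiniteMeasure ν] {ν' : Measure γ} [IsFiniteMeasure ν'] {e : κ → α → ℝ}
    (h : Pars ν e) {F : γ → α → ℝ} (hF : BM (uncurry F)) :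
    HasSum (fun k => ∫ z, (∫ x, e k x * F z x ∂ν) ^ 2 ∂ν') (∫ z, ∫ x, F z x ^ 2 ∂ν ∂ν') := by
  have hz : ∀ z, BM (F z) := fun z => BM.comp hF (T := fun x => (z, x)) measurable_prodMk_left
  have hs : ∀ z, HasSum (fun k => (∫ x, e k x * F z x ∂ν) ^ 2) (∫ x, F z x ^ 2 ∂ν) :=
    fun z => h.2 _ (hz z)
  have hk : ∀ k, BM fun z => (∫ x, e k x * F z x ∂ν) ^ 2 := fun k =>
    (BM.integral_right (Φ := fun z x => e k x * F z x)
      (((h.1 k).comp measurable_snd).mul hF)).pow 2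
  have ht : BM fun z => ∫ x, F z x ^ 2 ∂ν :=
    BM.integral_right (Φ := fun z x => F z x ^ 2) (hF.pow 2)
  refine hasSum_integral_of_dominated_convergence (fun k z => (∫ x, e k x * F z x ∂ν) ^ 2)
    (fun k => (hk k).1.aestronglyMeasurable)
    (fun k => Filter.Eventually.of_forall fun z => ?_)
    (Filter.Eventually.of_forall fun z => (hs z).summable) ?_
    (Filter.Eventually.of_forall hs)
  · rw [Real.norm_of_nonneg (sq_nonneg _)]
  · have : (fun z => ∑' k, (∫ x, e k x * F z x ∂ν) ^ 2) = fun z => ∫ x, F z x ^ 2 ∂ν :=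
      funext fun z => (hs z).tsum_eq
    rw [this]
    exact ht.integrable

theorem Pars.prod {α γ κ κ' : Type} [MeasurableSpace α] [MeasurableSpace γ] [Countable κ]
    [Countable κ'] {ν : Measure α} [IsFiniteMeasure ν] {ν' : Measure γ} [IsFiniteMeasure ν']
    {e : κ → α → ℝ} {e' : κ' → γ → ℝ} (h : Pars ν e) (h' : Pars ν' e') :
    Pars (ν.prod ν') fun (k : κ × κ') (x : α × γ) => e k.1 x.1 * e' k.2 x.2 := by
  have hb : ∀ k : κ × κ', BM fun x : α × γ => e k.1 x.1 * e' k.2 x.2 := fun k =>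
    ((h.1 k.1).comp measurable_fst).mul ((h'.1 k.2).comp measurable_snd)
  refine ⟨hb, fun f hf => ?_⟩
  have hF : BM (uncurry fun (z : γ) (x : α) => f (x, z)) := BM.comp hf measurable_swap
  have hg := h.param (ν' := ν') hF
  have hc : ∀ k k', ∫ x, e k x.1 * e' k' x.2 * f x ∂(ν.prod ν') =
      ∫ z, e' k' z * ∫ x, e k x * f (x, z) ∂ν ∂ν' := by
    intro k k'
    rw [integral_prod_symm _ ((hb (k, k')).mul hf).integrable]
    refine integral_congr_ae (Filter.Eventually.of_forall fun z => ?_)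
    beta_reduce
    rw [← integral_const_mul]
    exact integral_congr_ae (Filter.Eventually.of_forall fun x => by beta_reduce; ring)
  have hk : ∀ k, HasSum (fun k' => (∫ x, e k x.1 * e' k' x.2 * f x ∂(ν.prod ν')) ^ 2)
      (∫ z, (∫ x, e k x * f (x, z) ∂ν) ^ 2 ∂ν') := by
    intro k
    simp only [hc]
    exact h'.2 _ (BM.integral_right (Φ := fun z x => e k x * f (x, z))
      (((h.1 k).comp measurable_snd).mul hF))
  have hsum : Summable fun k : κ × κ' =>
      (∫ x, e k.1 x.1 * e' k.2 x.2 * f x ∂(ν.prod ν')) ^ 2 := by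
    rw [summable_prod_of_nonneg fun k => sq_nonneg _]
    refine ⟨fun k => (hk k).summable, ?_⟩
    have : (fun k => ∑' k', (∫ x, e k x.1 * e' k' x.2 * f x ∂(ν.prod ν')) ^ 2) =
        fun k => ∫ z, (∫ x, e k x * f (x, z) ∂ν) ^ 2 ∂ν' := funext fun k => (hk k).tsum_eq
    simp only [this]
    exact hg.summable
  have h1 := (hsum.hasSum.prod_fiberwise hk).unique hg
  rw [integral_prod_symm _ (hf.pow 2).integrable, ← h1]
  exact hsum.hasSum

theorem Pars.transport_tens {α γ κ κ' : Type} [MeasurableSpace α] [MeasurableSpace γ]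
    {μ : Measure α} {ν : Measure γ} (T : α ≃ᵐ γ) (hT : MeasurePreserving T μ ν) (σ : κ ≃ κ')
    {e : κ → α → ℝ} {e' : κ' → γ → ℝ} (h : Pars ν e') (he : ∀ k x, e k x = e' (σ k) (T x)) :
    Pars μ e := by
  have he' : ∀ k, e k = fun x => e' (σ k) (T x) := fun k => funext (he k)
  refine ⟨fun k => by rw [he']; exact (h.1 _).comp T.measurable, fun f hf => ?_⟩
  have h1 := h.2 _ (hf.comp T.symm.measurable)
  rw [← σ.hasSum_iff] at h1
  have e1 : ∀ k, ∫ x, e k x * f x ∂μ = ∫ y, e' (σ k) y * f (T.symm y) ∂ν := by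
    intro k
    rw [← hT.integral_comp' fun y => e' (σ k) y * f (T.symm y)]
    simp only [he, MeasurableEquiv.symm_apply_apply]
  have e2 : ∫ x, f x ^ 2 ∂μ = ∫ y, f (T.symm y) ^ 2 ∂ν := by
    rw [← hT.integral_comp' fun y => f (T.symm y) ^ 2]
    simp only [MeasurableEquiv.symm_apply_apply]
  simp only [e1, e2]
  exact h1

theorem Pars.pi2_tens (ν : Fin 2 → Measure ℝ) [∀ c, IsFiniteMeasure (ν c)]
    {e : Fin 2 → ℕ → ℝ → ℝ} (h : ∀ c, Pars (ν c) (e c)) :
    Pars (Measure.pi ν) fun (m : Fin 2 → ℕ) (x : Fin 2 → ℝ) => ∏ c, e c (m c) (x c) :=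
  Pars.transport_tens (MeasurableEquiv.piFinTwo fun _ => ℝ) (measurePreserving_piFinTwo ν)
    (piFinTwoEquiv fun _ => ℕ) ((h 0).prod (h 1)) fun m x => by
      rw [Fin.prod_univ_two]; rfl

theorem Pars.pi3 (ν : Fin 3 → Measure ℝ) [∀ c, IsFiniteMeasure (ν c)] {e : Fin 3 → ℕ → ℝ → ℝ}
    (h : ∀ c, Pars (ν c) (e c)) :
    Pars (Measure.pi ν) fun (m : M3) (x : R3) => ∏ c, e c (m c) (x c) :=
  Pars.transport_tens (MeasurableEquiv.piFinSuccAbove (fun _ => ℝ) 0)
    (measurePreserving_piFinSuccAbove ν 0) (Fin.insertNthEquiv (fun _ => ℕ) 0).symm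
    ((h 0).prod (Pars.pi2_tens (fun j => ν ((0 : Fin 3).succAbove j))
      (e := fun j => e ((0 : Fin 3).succAbove j)) fun j => h _)) fun m x => by
      rw [Fin.prod_univ_succAbove _ 0]; rfl

end Pool.Agent.BoseLHY
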