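import Pool.Agent.Lib.MP_dec75e_mp.L.Cos2
import Pool.Agent.Lib.MP_dec75e_mp.L.Tens

/-! The Neumann basis of a box. -/

open MeasureTheory Finset Function
open scoped Real

noncomputable section

namespace Pool.Agent.BoseLHY

open Pool.Agent.BoseTail

variable (B : Box)

theorem Box.e_apply (m : M3) (x : R3) : (B.e m).1 x = ∏ c, cs (m c) (B.ang x c) := rfl

theorem Box.e_zero : B.e 0 = 1 := by
  refine Subtype.ext (funext fun x => ?_)
  rw [B.e_apply]
  simp [cs]

theorem Box.e_sq_le (m : M3) (x : R3) : (B.e m).1 x ^ 2 ≤ 8 := by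
  rw [B.e_apply, ← Finset.prod_pow]
  calc ∏ c, cs (m c) (B.ang x c) ^ 2 ≤ ∏ _c : Fin 3, (2 : ℝ) := by
        refine Finset.prod_le_prod (fun c _ => sq_nonneg _) fun c _ => ?_
        rw [← sq_abs, ← Real.sq_sqrt (by norm_num : (0 : ℝ) ≤ 2)]
        exact pow_le_pow_left₀ (abs_nonneg _) (abs_cs_le _ _) 2
    _ = 8 := by norm_num

theorem Box.e_corner (m : M3) : (B.e m).1 B.o ^ 2 = 8 * wt3 m := by
  have h : ∀ c, cs (m c) (B.ang B.o c) ^ 2 = 2 * if m c = 0 then 1 / 2 else 1 := by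
    intro c
    unfold cs Box.ang
    split_ifs <;> simp
  rw [B.e_apply, ← Finset.prod_pow, wt3]
  simp only [h]
  rw [Finset.prod_mul_distrib]
  norm_num

theorem prod_ite_par3 (m m' : M3) :
    (∏ c, if m c = m' c then (1 : ℝ) else 0) = if m = m' then 1 else 0 := by
  split_ifs with h
  · subst h
    simp
  · obtain ⟨c, hc⟩ := Function.ne_iff.1 h
    exact Finset.prod_eq_zero (Finset.mem_univ c) (if_neg hc)

theorem Box.orth (m m' : M3) :
    ∫ x, (B.e m).1 x * (B.e m').1 x ∂(B.μ : Measure R3) = if m = m' then 1 else 0 := by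
  simp only [B.e_apply, ← Finset.prod_mul_distrib, Box.ang]
  rw [B.integral_prod fun c t => cs (m c) (π * (t - B.o c) / B.s c) *
    cs (m' c) (π * (t - B.o c) / B.s c)]
  simp only [orth_cs (B.pos _)]
  exact prod_ite_par3 m m'

theorem Box.pars : Pars (B.μ : Measure R3) fun m => (B.e m).1 := by
  haveI := fun c => unif_prob (B.o c) (B.pos c)
  exact Pars.pi3 (fun c => unif (B.o c) (B.s c))
    (e := fun c (m : ℕ) t => cs m (π * (t - B.o c) / B.s c)) fun c => pars_cs (B.pos c)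

theorem Box.exact {R : ℕ} {m q q' : M3} (hm : Bulk R m) (hq : ∀ c, q c ≤ R) (hq' : ∀ c, q' c ≤ R) :
    ∫ x, (B.e m).1 x ^ 2 * ((B.e q).1 x * (B.e q').1 x) ∂(B.μ : Measure R3) =
      if q = q' then 1 else 0 := by
  simp only [B.e_apply, ← Finset.prod_pow, ← Finset.prod_mul_distrib, Box.ang]
  rw [B.integral_prod fun c t => cs (m c) (π * (t - B.o c) / B.s c) ^ 2 *
    (cs (q c) (π * (t - B.o c) / B.s c) * cs (q' c) (π * (t - B.o c) / B.s c))]
  rw [Finset.prod_congr rfl fun c _ => exact_cs (B.pos c) (hm c) (hq c) (hq' c)]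
  exact prod_ite_par3 q q'

end Pool.Agent.BoseLHY
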