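import Pool.Agent.Lib.MP_dec75e_mp.L.Op1b
import Pool.Agent.Lib.MP_dec75e_mp.L.Par3
import Pool.Agent.Lib.MP_dec75e_mp.L.Lat

/-! The algebra of the one-particle operators. -/

open MeasureTheory Finset Function
open scoped Real

noncomputable section

namespace Pool.Agent.BoseLHY

open Pool.Agent.BoseTail

variable {ι : Type} [Fintype ι] [DecidableEq ι] {μ : ι → ProbabilityMeasure R3} {B : Box}
  {S : Finset ι} {R M : ℕ} {i j o : ι} {m m' : M3} {f g u ψ : Vs ι}

theorem Em_apply (f : Vs ι) : Em B i m f = at1 i (B.e m) * f := rfl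

theorem co_apply (f : Vs ι) : co B i m f = Pz B i (Em B i m f) := rfl

theorem Lp_apply (f : Vs ι) : Lp B R i f = ∑ m ∈ Lset R, Em B i m (co B i m f) := by
  unfold Lp
  rw [LinearMap.sum_apply]
  rfl

theorem Qz_apply (f : Vs ι) : Qz B i f = f - Pz B i f := rfl

theorem Hp_apply (f : Vs ι) : Hp B R i f = f - Pz B i f - Lp B R i f := rfl

theorem Zp_apply (f : Vs ι) : Zp B R i f = Pz B i f + (2 : ℝ) • Lp B R i f := rfl

theorem loc_Pz : Pz B i ∈ LocS B i := by
  exact Algebra.subset_adjoin (Set.mem_insert _ _)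

theorem loc_Em : Em B i m ∈ LocS B i := by
  exact Algebra.subset_adjoin (Set.mem_insert_of_mem _ ⟨m, rfl⟩)

theorem loc_co : co B i m ∈ LocS B i := by
  exact mul_mem loc_Pz loc_Em

theorem loc_Lp : Lp B R i ∈ LocS B i := by
  exact sum_mem fun _ _ => mul_mem loc_Em loc_co

theorem loc_sub_op2 {X Y : Module.End ℝ (Vs ι)} (hX : X ∈ LocS B i) (hY : Y ∈ LocS B i) :
    X - Y ∈ LocS B i := by
  have h : X - Y = X + (-1 : ℝ) • Y := by
    refine LinearMap.ext fun f => ?_
    rw [LinearMap.sub_apply, LinearMap.add_apply, LinearMap.smul_apply, neg_one_smul,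
      sub_eq_add_neg]
  rw [h]
  exact add_mem hX (Subalgebra.smul_mem _ hY _)

theorem loc_Qz : Qz B i ∈ LocS B i := by
  exact loc_sub_op2 (one_mem _) loc_Pz

theorem loc_Hp : Hp B R i ∈ LocS B i := by
  exact loc_sub_op2 (loc_sub_op2 (one_mem _) loc_Pz) loc_Lp

theorem loc_Zp : Zp B R i ∈ LocS B i := by
  exact add_mem loc_Pz (Subalgebra.smul_mem _ loc_Lp 2)

/-- Induction over the one-particle operators. -/
theorem loc_induction_op2 {P : Module.End ℝ (Vs ι) → Prop} (h1 : P (Pz B i))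
    (h2 : ∀ m, P (Em B i m)) (h3 : ∀ r : ℝ, P (r • 1)) (h4 : ∀ X Y, P X → P Y → P (X + Y))
    (h5 : ∀ X Y, P X → P Y → P (X * Y)) {X : Module.End ℝ (Vs ι)} (hX : X ∈ LocS B i) : P X := by
  induction hX using Algebra.adjoin_induction with
  | mem x hx =>
    rcases hx with rfl | ⟨m, rfl⟩
    · exact h1
    · exact h2 m
  | algebraMap r => rw [Algebra.algebraMap_eq_smul_one]; exact h3 r
  | add x y _ _ hx hy => exact h4 x y hx hy
  | mul x y _ _ hx hy => exact h5 x y hx hy

theorem loc_mul_ind_op2 {X : Module.End ℝ (Vs ι)} (hX : X ∈ LocS B j) (hf : Ind j f) :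
    ∀ g : Vs ι, X (f * g) = f * X g := by
  refine loc_induction_op2 (P := fun X => ∀ g : Vs ι, X (f * g) = f * X g) ?_ ?_ ?_ ?_ ?_ hX
  · exact fun g => avg_mul_ind hf g
  · intro m g
    rw [Em_apply, Em_apply, mul_left_comm]
  · intro r g
    simp only [LinearMap.smul_apply, Module.End.one_apply, mul_smul_comm]
  · intro X Y hX hY g
    rw [LinearMap.add_apply, LinearMap.add_apply, hX, hY, mul_add]
  · intro X Y hX hY g
    rw [Module.End.mul_apply, Module.End.mul_apply, hY, hX]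

theorem loc_comm_Pz_op2 (hij : i ≠ j) {Y : Module.End ℝ (Vs ι)} (hY : Y ∈ LocS B j) :
    ∀ f : Vs ι, Pz B i (Y f) = Y (Pz B i f) := by
  refine loc_induction_op2 (P := fun Y => ∀ f : Vs ι, Pz B i (Y f) = Y (Pz B i f)) ?_ ?_ ?_ ?_ ?_ hY
  · exact fun f => avg_comm hij f
  · intro m f
    rw [Em_apply, Em_apply]
    exact avg_mul_ind (ind_at1 hij _) f
  · intro r f
    simp only [LinearMap.smul_apply, Module.End.one_apply, map_smul]
  · intro X Y hX hY f
    rw [LinearMap.add_apply, LinearMap.add_apply, map_add, hX, hY]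
  · intro X Y hX hY f
    rw [Module.End.mul_apply, Module.End.mul_apply, hX, hY]

/-- Operators acting on different particles commute. -/
theorem loc_comm (hij : i ≠ j) {X Y : Module.End ℝ (Vs ι)} (hX : X ∈ LocS B i) (hY : Y ∈ LocS B j)
    (f : Vs ι) : X (Y f) = Y (X f) := by
  revert f
  refine loc_induction_op2 (P := fun X => ∀ f : Vs ι, X (Y f) = Y (X f)) ?_ ?_ ?_ ?_ ?_ hX
  · exact loc_comm_Pz_op2 hij hY
  · intro m f
    rw [Em_apply, Em_apply]
    exact (loc_mul_ind_op2 hY (ind_at1 hij.symm _) f).symm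
  · intro r f
    simp only [LinearMap.smul_apply, Module.End.one_apply, map_smul]
  · intro X X' hX hX' f
    rw [LinearMap.add_apply, LinearMap.add_apply, map_add, hX, hX']
  · intro X X' hX hX' f
    rw [Module.End.mul_apply, Module.End.mul_apply, hX', hX]

theorem loc_ind (hij : i ≠ j) {X : Module.End ℝ (Vs ι)} (hX : X ∈ LocS B j) (hf : Ind i f) :
    Ind i (X f) := by
  revert f
  refine loc_induction_op2 (P := fun X => ∀ {f : Vs ι}, Ind i f → Ind i (X f)) ?_ ?_ ?_ ?_ ?_ hX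
  · exact fun hf => hf.avg _ _
  · exact fun m _ hf => (ind_at1 hij _).mul hf
  · exact fun r _ hf => hf.smul r
  · exact fun X Y hX hY _ hf => (hX hf).add (hY hf)
  · exact fun X Y hX hY _ hf => hX (hY hf)

theorem loc_mul_ind {X : Module.End ℝ (Vs ι)} (hX : X ∈ LocS B j) (hf : Ind j f) (g : Vs ι) :
    X (f * g) = f * X g := by
  exact loc_mul_ind_op2 hX hf g

theorem ind_Pz (f : Vs ι) : Ind i (Pz B i f) := by
  exact ind_avg _ _ _

theorem ind_co (f : Vs ι) : Ind i (co B i m f) := by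
  exact ind_avg _ _ _

theorem Pz_of_ind (h : Ind i f) : Pz B i f = f := by
  exact avg_of_ind h

theorem Em_zero : Em B i 0 = 1 := by
  refine LinearMap.ext fun f => ?_
  rw [Em_apply, Box.e_zero, map_one, one_mul, Module.End.one_apply]

theorem co_zero : co B i 0 = Pz B i := by
  unfold co
  rw [Em_zero, mul_one]

theorem Em_comm (f : Vs ι) : Em B i m (Em B j m' f) = Em B j m' (Em B i m f) := by
  simp only [Em_apply, mul_left_comm]

theorem co_Em_ind (h : Ind i f) : co B i m (Em B i m' f) = if m = m' then f else 0 := by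
  rw [co_apply, Em_apply, Em_apply, ← mul_assoc, ← map_mul, mul_comm]
  have h1 : Pz B i (f * at1 i (B.e m * B.e m')) = f * Pz B i (at1 i (B.e m * B.e m')) :=
    avg_mul_ind h _
  have h2 : Pz B i (at1 i (B.e m * B.e m')) =
      (∫ x, (B.e m).1 x * (B.e m').1 x ∂(B.μ : Measure R3)) • (1 : Vs ι) := avg_at1 _
  rw [h1, h2, B.orth]
  split_ifs <;> simp

theorem co_of_ind (hm : m ≠ 0) (h : Ind i f) : co B i m f = 0 := by
  have h1 := co_Em_ind (B := B) (m := m) (m' := 0) h
  rwa [Em_zero, Module.End.one_apply, if_neg hm] at h1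

theorem co_Lp (f : Vs ι) : co B i m (Lp B R i f) = if m ∈ Lset R then co B i m f else 0 := by
  rw [Lp_apply, map_sum]
  simp only [co_Em_ind (ind_co f)]
  rw [Finset.sum_ite_eq]

theorem Pz_Lp (f : Vs ι) : Pz B i (Lp B R i f) = 0 := by
  rw [← co_zero, co_Lp, if_neg (zero_notMem_Lset R)]

theorem Lp_of_ind (h : Ind i f) : Lp B R i f = 0 := by
  rw [Lp_apply]
  refine Finset.sum_eq_zero fun m hm => ?_
  rw [co_of_ind (mem_Lset.1 hm).1 h, map_zero]

theorem Lp_Lp (f : Vs ι) : Lp B R i (Lp B R i f) = Lp B R i f := by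
  rw [Lp_apply (Lp B R i f), Lp_apply f]
  refine Finset.sum_congr rfl fun m hm => ?_
  rw [← Lp_apply, co_Lp, if_pos hm]

theorem Lp_Em_ind (hm : m ∉ Lset R) (h : Ind i f) : Lp B R i (Em B i m f) = 0 := by
  rw [Lp_apply]
  refine Finset.sum_eq_zero fun q hq => ?_
  rw [co_Em_ind h, if_neg (fun e : q = m => hm (e ▸ hq)), map_zero]

theorem Lp_zero : Lp B 0 i = 0 := by
  unfold Lp
  rw [Lset_zero, Finset.sum_empty]

end Pool.Agent.BoseLHY
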