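import Pool.Agent.Lib.MP_dec75e_mp.L.Op2

/-! The algebra of the one-particle operators. -/

open MeasureTheory Finset Function
open scoped Real

noncomputable section

namespace Pool.Agent.BoseLHY

open Pool.Agent.BoseTail

variable {ι : Type} [Fintype ι] [DecidableEq ι] {μ : ι → ProbabilityMeasure R3} {B : Box}
  {S : Finset ι} {R M : ℕ} {i j o : ι} {m m' : M3} {f g u ψ : Vs ι}

theorem e_sq_le_op2b (B : Box) (m : M3) (x : R3) : (B.e m).1 x * (B.e m).1 x ≤ 8 := by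
  have h : ∀ c, cs (m c) (B.ang x c) * cs (m c) (B.ang x c) ≤ 2 := by
    intro c
    have h1 := abs_cs_le (m c) (B.ang x c)
    have h2 : |cs (m c) (B.ang x c)| * |cs (m c) (B.ang x c)| ≤ √2 * √2 :=
      mul_le_mul h1 h1 (abs_nonneg _) (Real.sqrt_nonneg _)
    rwa [abs_mul_abs_self, Real.mul_self_sqrt (by norm_num)] at h2
  change (∏ c, cs (m c) (B.ang x c)) * (∏ c, cs (m c) (B.ang x c)) ≤ 8
  rw [← Finset.prod_mul_distrib]
  calc ∏ c, cs (m c) (B.ang x c) * cs (m c) (B.ang x c) ≤ ∏ _c : Fin 3, (2 : ℝ) :=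
        Finset.prod_le_prod (fun c _ => mul_self_nonneg _) fun c _ => h c
    _ = 8 := by norm_num

theorem sa_Em : SA (ipB μ) (Em B i m) := by
  exact sa_mu _

theorem proj_Pz (hi : μ i = B.μ) : Proj (ipB μ) (Pz B i) := by
  exact proj_avg hi

theorem proj_Lp (hi : μ i = B.μ) : Proj (ipB μ) (Lp B R i) := by
  refine ⟨fun f g => ?_, Lp_Lp⟩
  rw [Lp_apply, Lp_apply, map_sum, map_sum, LinearMap.sum_apply]
  refine Finset.sum_congr rfl fun m _ => ?_
  rw [sa_Em, co_apply, co_apply, (proj_Pz hi).sa, sa_Em]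

theorem proj_Qz (hi : μ i = B.μ) : Proj (ipB μ) (Qz B i) := by
  exact (proj_Pz hi).one_sub

theorem proj_Hp (hi : μ i = B.μ) : Proj (ipB μ) (Hp B R i) := by
  have h := ((proj_Pz hi).add (proj_Lp (R := R) hi) Pz_Lp
    (fun f => Lp_of_ind (ind_Pz f))).one_sub
  have e : Hp B R i = 1 - (Pz B i + Lp B R i) := by
    refine LinearMap.ext fun f => ?_
    change f - Pz B i f - Lp B R i f = f - (Pz B i f + Lp B R i f)
    exact sub_sub f (Pz B i f) (Lp B R i f)
  rw [e]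
  exact h

theorem sa_Zp (hi : μ i = B.μ) : SA (ipB μ) (Zp B R i) := by
  exact (proj_Pz hi).sa.add ((proj_Lp hi).sa.smul 2)

theorem ip_co (hi : μ i = B.μ) (f g : Vs ι) :
    ipB μ (co B i m f) g = ipB μ f (Em B i m (Pz B i g)) := by
  rw [co_apply, (proj_Pz hi).sa, sa_Em]

/-- Against a function which does not depend on coordinate `i`. -/
theorem ip_ind (hi : μ i = B.μ) (h : Ind i f) (g : Vs ι) : ipB μ f g = ipB μ f (Pz B i g) := by
  rw [← (proj_Pz hi).sa, Pz_of_ind h]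

theorem fam_Lp (hA : Act μ B S) : Fam (ipB μ) (Lp B R) S := by
  refine ⟨fun i hi => proj_Lp (hA i hi), fun i _ j _ f => ?_⟩
  by_cases hij : i = j
  · rw [hij]
  · exact loc_comm hij loc_Lp loc_Lp f

theorem nq_Em_le (f : Vs ι) : nq (ipB μ) (Em B i m f) ≤ 8 * nq (ipB μ) f := by
  have e : 8 * ex μ (f * f) = ex μ ((8 : ℝ) • (f * f)) := by
    rw [map_smul, smul_eq_mul]
  rw [nq_ipB, nq_ipB, e]
  refine ex_mono_ae (Filter.Eventually.of_forall fun X => ?_)
  change (B.e m).1 (X i) * f.1 X * ((B.e m).1 (X i) * f.1 X) ≤ 8 * (f.1 X * f.1 X)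
  have h1 := e_sq_le_op2b B m (X i)
  nlinarith [mul_self_nonneg (f.1 X)]

theorem nq_Em_ind (hi : μ i = B.μ) (h : Ind i f) : nq (ipB μ) (Em B i m f) = nq (ipB μ) f := by
  unfold nq
  rw [sa_Em, ip_ind hi h, ← co_apply, co_Em_ind h, if_pos rfl]

theorem nq_Lp (hi : μ i = B.μ) (f : Vs ι) :
    nq (ipB μ) (Lp B R i f) = ∑ m ∈ Lset R, nq (ipB μ) (co B i m f) := by
  rw [(proj_Lp hi).nq_eq, Lp_apply, map_sum]
  refine Finset.sum_congr rfl fun m _ => ?_
  unfold nq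
  rw [ip_co hi, Pz_of_ind (ind_co f)]

theorem nq_Qz (hi : μ i = B.μ) (f : Vs ι) :
    nq (ipB μ) (Qz B i f) = nq (ipB μ) (Lp B R i f) + nq (ipB μ) (Hp B R i f) := by
  have h1 : Lp B R i (Qz B i f) = Lp B R i f := by
    rw [Qz_apply, map_sub, Lp_of_ind (ind_Pz f), sub_zero]
  rw [(proj_Lp (R := R) hi).pyth (psd_ipB μ) (Qz B i f), h1]
  rfl

theorem swp_co (i j k : ι) (f : Vs ι) :
    swp i j (co B k m f) = co B (Equiv.swap i j k) m (swp i j f) := by
  rw [co_apply, co_apply, Em_apply, Em_apply]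
  unfold Pz
  rw [swp_avg, map_mul, swp_at1]

theorem swp_Lp (i j k : ι) (f : Vs ι) :
    swp i j (Lp B R k f) = Lp B R (Equiv.swap i j k) (swp i j f) := by
  rw [Lp_apply, Lp_apply, map_sum]
  refine Finset.sum_congr rfl fun m _ => ?_
  rw [Em_apply, Em_apply, map_mul, swp_at1, swp_co]

theorem Act.subset (h : Act μ B S) {S' : Finset ι} (hS : S' ⊆ S) : Act μ B S' := by
  exact fun i hi => h i (hS hi)

end Pool.Agent.BoseLHY
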