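import Pool.Agent.Lib.MP_dec75e_mp.L.Op2b
import Pool.Agent.Lib.MP_dec75e_mp.L.Dfm
import Pool.Agent.Lib.MP_dec75e_mp.L.Tens

/-! Parseval identities for the many-body occupation numbers. -/

open MeasureTheory Finset Function
open scoped Real

noncomputable section

namespace Pool.Agent.BoseLHY

open Pool.Agent.BoseTail

variable {ι : Type} [Fintype ι] [DecidableEq ι] {μ : ι → ProbabilityMeasure R3} {B : Box}
  {S : Finset ι} {R M : ℕ} {i j o : ι} {m m' : M3} {f g u ψ : Vs ι}

omit [Fintype ι] in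
theorem co_val_op3 (f : Vs ι) (X : ι → R3) :
    (co B i m f).1 X = ∫ y, (B.e m).1 y * f.1 (update X i y) ∂(B.μ : Measure R3) := by
  change ∫ y, (B.e m).1 (update X i y i) * f.1 (update X i y) ∂(B.μ : Measure R3) = _
  simp only [update_self]

theorem pars_co (hi : μ i = B.μ) (f : Vs ι) :
    HasSum (fun m => nq (ipB μ) (co B i m f)) (nq (ipB μ) f) := by
  have h := B.pars.param (ν' := pm μ) (bm_upd f i)
  have e1 : (fun m => nq (ipB μ) (co B i m f)) = fun m =>
      ∫ X, (∫ y, (B.e m).1 y * f.1 (update X i y) ∂(B.μ : Measure R3)) ^ 2 ∂pm μ := by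
    funext m
    rw [nq_ipB, ex_apply]
    refine integral_congr_ae (Filter.Eventually.of_forall fun X => ?_)
    change (co B i m f).1 X * (co B i m f).1 X = _
    rw [co_val_op3]
    exact (sq _).symm
  have e2 : nq (ipB μ) f = ∫ X, ∫ y, f.1 (update X i y) ^ 2 ∂(B.μ : Measure R3) ∂pm μ := by
    rw [nq_ipB, ← ex_avg i, ex_apply, hi]
    refine integral_congr_ae (Filter.Eventually.of_forall fun X => ?_)
    change ∫ y, f.1 (update X i y) * f.1 (update X i y) ∂(B.μ : Measure R3) = _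
    simp only [sq]
  rw [e1, e2]
  exact h

theorem pars_co_ip (hi : μ i = B.μ) (f g : Vs ι) :
    HasSum (fun m => ipB μ (co B i m f) (co B i m g)) (ipB μ f g) := by
  have h4 := (((pars_co hi (f + g)).sub (pars_co hi f)).sub (pars_co hi g)).mul_left (1 / 2 : ℝ)
  have e3 : (fun m => ipB μ (co B i m f) (co B i m g)) = fun m => (1 / 2 : ℝ) *
      (nq (ipB μ) (co B i m (f + g)) - nq (ipB μ) (co B i m f) - nq (ipB μ) (co B i m g)) := by
    funext m
    rw [map_add, (psd_ipB μ).nq_add]; ring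
  have e4 : ipB μ f g = (1 / 2 : ℝ) * (nq (ipB μ) (f + g) - nq (ipB μ) f - nq (ipB μ) g) := by
    rw [(psd_ipB μ).nq_add]; ring
  rw [e3, e4]
  exact h4

theorem bessel_co (hi : μ i = B.μ) (F : Finset M3) (f : Vs ι) :
    ∑ m ∈ F, nq (ipB μ) (co B i m f) ≤ nq (ipB μ) f :=
  sum_le_hasSum F (fun _ _ => (psd_ipB μ).nq_nonneg _) (pars_co hi f)

theorem occ_nonneg : 0 ≤ occ μ B S m ψ :=
  Finset.sum_nonneg fun _ _ => (psd_ipB μ).nq_nonneg _

theorem hasSum_occ (hA : Act μ B S) (ψ : Vs ι) :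
    HasSum (fun m => occ μ B S m ψ) (S.card * nq (ipB μ) ψ) := by
  have h := hasSum_sum (s := S) fun i hi => pars_co (hA i hi) ψ
  rw [Finset.sum_const, nsmul_eq_mul] at h
  exact h

theorem pars_Qz_op3 (hi : μ i = B.μ) (f : Vs ι) :
    HasSum (fun m => if m = 0 then 0 else nq (ipB μ) (co B i m f)) (nq (ipB μ) (Qz B i f)) := by
  have h := pars_co hi (Qz B i f)
  have e : (fun m => if m = 0 then 0 else nq (ipB μ) (co B i m f)) =
      fun m => nq (ipB μ) (co B i m (Qz B i f)) := by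
    funext m
    rw [Qz_apply, map_sub]
    split_ifs with hm
    · rw [hm, co_zero, Pz_of_ind (ind_Pz f), sub_self, nq_zero]
    · rw [co_of_ind hm (ind_Pz f), sub_zero]
  rw [e]
  exact h

theorem pars_Hp_op3 (hi : μ i = B.μ) (f : Vs ι) :
    HasSum (fun m => if High R m then nq (ipB μ) (co B i m f) else 0)
      (nq (ipB μ) (Hp B R i f)) := by
  have h := pars_co hi (Hp B R i f)
  have e : (fun m => if High R m then nq (ipB μ) (co B i m f) else 0) =
      fun m => nq (ipB μ) (co B i m (Hp B R i f)) := by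
    funext m
    rw [Hp_apply, map_sub, map_sub, co_Lp]
    by_cases hm : m = 0
    · rw [if_neg fun h => (high_iff.1 h).1 hm, hm, if_neg (zero_notMem_Lset R), co_zero,
        Pz_of_ind (ind_Pz f), sub_self, sub_zero, nq_zero]
    · rw [co_of_ind hm (ind_Pz f), sub_zero]
      by_cases hL : m ∈ Lset R
      · rw [if_neg fun h => (high_iff.1 h).2 hL, if_pos hL, sub_self, nq_zero]
      · rw [if_pos (high_iff.2 ⟨hm, hL⟩), if_neg hL, sub_zero]
  rw [e]
  exact h

theorem hasSum_nP (hA : Act μ B S) (ψ : Vs ι) :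
    HasSum (fun m => if m = 0 then 0 else occ μ B S m ψ) (nP μ B S ψ) := by
  have h := hasSum_sum (s := S) fun i hi => pars_Qz_op3 (hA i hi) ψ
  have e : (fun m => if m = 0 then 0 else occ μ B S m ψ) =
      fun m : M3 => ∑ i ∈ S, if m = 0 then 0 else nq (ipB μ) (co B i m ψ) := by
    funext m
    split_ifs
    · simp
    · rfl
  rw [e]
  exact h

theorem hasSum_nH (hA : Act μ B S) (ψ : Vs ι) :
    HasSum (fun m => if High R m then occ μ B S m ψ else 0) (nH μ B R S ψ) := by
  have h := hasSum_sum (s := S) fun i hi => pars_Hp_op3 (R := R) (hA i hi) ψ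
  have e : (fun m => if High R m then occ μ B S m ψ else 0) =
      fun m : M3 => ∑ i ∈ S, if High R m then nq (ipB μ) (co B i m ψ) else 0 := by
    funext m
    split_ifs
    · rfl
    · simp
  rw [e]
  exact h

theorem nL_eq (hA : Act μ B S) (ψ : Vs ι) : nL μ B R S ψ = ∑ m ∈ Lset R, occ μ B S m ψ := by
  unfold nL occ
  rw [Finset.sum_comm]
  exact Finset.sum_congr rfl fun i hi => nq_Lp (hA i hi) ψ

theorem nP_eq (hA : Act μ B S) (ψ : Vs ι) : nP μ B S ψ = nL μ B R S ψ + nH μ B R S ψ := by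
  unfold nP nL nH
  rw [← Finset.sum_add_distrib]
  exact Finset.sum_congr rfl fun i hi => nq_Qz (hA i hi) ψ

theorem nL_nonneg : 0 ≤ nL μ B R S ψ :=
  Finset.sum_nonneg fun _ _ => (psd_ipB μ).nq_nonneg _

theorem nH_nonneg : 0 ≤ nH μ B R S ψ :=
  Finset.sum_nonneg fun _ _ => (psd_ipB μ).nq_nonneg _

theorem nP_nonneg : 0 ≤ nP μ B S ψ :=
  Finset.sum_nonneg fun _ _ => (psd_ipB μ).nq_nonneg _

theorem summable_occ (hA : Act μ B S) (ψ : Vs ι) {b : M3 → ℝ} {K : ℝ} (hb : ∀ m, |b m| ≤ K) :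
    Summable fun m => b m * occ μ B S m ψ := by
  refine Summable.of_norm_bounded ((hasSum_occ hA ψ).summable.mul_left K) fun m => ?_
  rw [Real.norm_eq_abs, abs_mul, abs_of_nonneg (occ_nonneg (μ := μ))]
  exact mul_le_mul_of_nonneg_right (hb m) occ_nonneg

end Pool.Agent.BoseLHY
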