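import Pool.Agent.Lib.MP_dec75e_mp.L.Ct

/-! The Lee-Huang-Yang integral. -/

open MeasureTheory Finset Function
open scoped Real

noncomputable section

namespace Pool.Agent.BoseLHY

open Pool.Agent.BoseTail

theorem norm_toLp_phig (z : R3) : ‖(WithLp.toLp 2 z : E3)‖ = √(sq3 z) := by
  rw [EuclideanSpace.norm_eq]
  simp [sq3]

theorem contAt_gB_phig {t : ℝ} (ht : 0 < t) : ContinuousAt gB t := by
  unfold gB
  have h : t * √(t ^ 2 + 2) ≠ 0 := (mul_pos ht (Real.sqrt_pos.2 (by positivity))).ne'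
  refine ContinuousAt.sub (ContinuousAt.div (by fun_prop) (by fun_prop) h) continuousAt_const

/-- The test function times `gB` in coordinates. -/
theorem phi_g {φ : E3 → ℝ} (hφ : Continuous φ) (hc : HasCompactSupport φ) (h0 : 0 ∉ tsupport φ)
    (he : ∀ κ κ' : E3, (∀ c, |κ c| = |κ' c|) → φ κ = φ κ') :
    Continuous (fun z : R3 => φ (WithLp.toLp 2 z) * gB √(sq3 z)) ∧
      HasCompactSupport (fun z : R3 => φ (WithLp.toLp 2 z) * gB √(sq3 z)) ∧
      Ev (fun z : R3 => φ (WithLp.toLp 2 z) * gB √(sq3 z)) ∧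
      ∫ z : R3, φ (WithLp.toLp 2 z) * gB √(sq3 z) = ∫ κ : E3, φ κ * gB ‖κ‖ := by
  have hG : Continuous fun κ : E3 => φ κ * gB ‖κ‖ := by
    refine continuous_of_tsupport fun x hx => ?_
    have hx' : x ∈ tsupport φ := tsupport_mul_subset_left (f := φ) (g := fun κ : E3 => gB ‖κ‖) hx
    have hx0 : x ≠ 0 := fun h => h0 (h ▸ hx')
    exact hφ.continuousAt.mul
      ((contAt_gB_phig (norm_pos_iff.2 hx0)).comp continuous_norm.continuousAt)
  have hGc : HasCompactSupport fun κ : E3 => φ κ * gB ‖κ‖ :=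
    hc.mul_right (f' := fun κ : E3 => gB ‖κ‖)
  have hE : (fun z : R3 => φ (WithLp.toLp 2 z) * gB √(sq3 z)) =
      (fun κ : E3 => φ κ * gB ‖κ‖) ∘ WithLp.toLp 2 := by
    funext z
    simp only [Function.comp_apply, norm_toLp_phig]
  refine ⟨?_, ?_, ?_, ?_⟩
  · rw [hE]
    exact hG.comp (PiLp.continuous_toLp 2 _)
  · rw [hE]
    exact hGc.comp_homeomorph (PiLp.homeomorph 2 fun _ : Fin 3 => ℝ).symm
  · intro z z' hz
    have h1 : sq3 z = sq3 z' := Finset.sum_congr rfl fun c _ => by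
      rw [← sq_abs (z c), hz c, sq_abs]
    show φ (WithLp.toLp 2 z) * gB √(sq3 z) = φ (WithLp.toLp 2 z') * gB √(sq3 z')
    rw [h1, he (WithLp.toLp 2 z) (WithLp.toLp 2 z') hz]
  · rw [hE]
    exact (PiLp.volume_preserving_toLp (Fin 3)).integral_comp
      (MeasurableEquiv.toLp 2 _).measurableEmbedding fun κ : E3 => φ κ * gB ‖κ‖

end Pool.Agent.BoseLHY
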