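import Pool.Agent.Lib.MP_dec75e_mp.L.SumA

/-! Eigenvalues of the scattering kernels in a box. -/

open MeasureTheory Finset Function
open scoped Real

noncomputable section

namespace Pool.Agent.BoseLHY

open Pool.Agent.BoseTail

variable (D : Dat)

theorem Dat.V0 (z : R3) : 0 ≤ D.V.1 z := (D.w0 z).trans (D.wV z)

theorem bk_apply_pw (B : Box) (t : ℝ) (x y : R3) : (D.bk B t).1 (x, y) =
    729 * t * ((B.lay D.C ×ˢ B.lay D.C).indicator (fun _ => (1 : ℝ)) (x, y) * D.V.1 (x - y)) := rfl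

theorem Dat.W_apply (χ : BF R3) (x y : R3) :
    (D.W χ).1 (x, y) = D.w.1 (x - y) + χ.1 x * D.V.1 (x - y) := rfl

theorem Dat.W0 {χ : BF R3} (hχ : Wgt χ) (z : R3 × R3) : 0 ≤ (D.W χ).1 z := by
  obtain ⟨x, y⟩ := z
  rw [D.W_apply]
  exact add_nonneg (D.w0 _) (mul_nonneg (hχ x).1 (D.V0 _))

theorem Dat.W_le {χ : BF R3} (hχ : Wgt χ) (x y : R3) : (D.W χ).1 (x, y) ≤ 3 * D.V.1 (x - y) := by
  rw [D.W_apply]
  have h1 := mul_le_mul_of_nonneg_right (hχ x).2 (D.V0 (x - y))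
  have h2 := D.wV (x - y)
  linarith

theorem Dat.Cov.mono {D : Dat} {χ : BF R3} {B : Box} {θ θ' : ℝ} (h : D.Cov χ B θ) (hθ : θ' ≤ θ) :
    D.Cov χ B θ' := fun x hx hl => hθ.trans (h x hx hl)

theorem bk_le_pw (B : Box) (x y : R3) : (D.bk B 1).1 (x, y) ≤
    (B.lay D.C).indicator (fun _ => (1 : ℝ)) x * (729 * D.V.1 (x - y)) := by
  rw [bk_apply_pw]
  have h := D.V0 (x - y)
  by_cases hx : x ∈ B.lay D.C
  · rw [Set.indicator_of_mem hx]
    by_cases hy : (x, y) ∈ B.lay D.C ×ˢ B.lay D.C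
    · rw [Set.indicator_of_mem hy]
      linarith
    · rw [Set.indicator_of_notMem hy]
      linarith
  · rw [Set.indicator_of_notMem hx, Set.indicator_of_notMem fun h => hx h.1]
    linarith

/-- The pointwise inequality `w (α - f β)² ≥ 0`, corrected in the boundary layer. -/
theorem Dat.pw (B : Box) {χ : BF R3} (hχ : Wgt χ) {θ t : ℝ} (hθ : 0 < θ) (ht : 1 ≤ θ * t)
    (hc : D.Cov χ B θ) {x y : R3} (hx : x ∈ B.set) (hy : y ∈ B.set) (α β : ℝ) :
    2 * (B.symk D.g).1 (x, y) * α * β -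
      ((B.symk D.g).1 (x, y) - (B.symk D.g').1 (x, y) + (D.bk B t).1 (x, y)) * β ^ 2 ≤
      (D.W χ).1 (x, y) * α ^ 2 := by
  have hw := D.w0 (x - y)
  have hV := D.V0 (x - y)
  have hχV := mul_nonneg (mul_nonneg (hχ x).1 hV) (sq_nonneg α)
  rw [D.W_apply, bk_apply_pw]
  by_cases hl : (x, y) ∈ B.lay D.C ×ˢ B.lay D.C
  · rw [Set.indicator_of_mem hl]
    have h1 := abs_le.1 (B.abs_symk_le (h := D.g) D.monoV (fun z => by
      obtain ⟨a, b, c, -⟩ := D.g_bounds z
      rw [abs_of_nonneg (a.trans b)]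
      exact c.trans (D.wV z)) hx hy)
    have h2 := B.symk_mono (fun z => (D.g_bounds z).2.1) (x, y)
    have h3 := mul_nonneg (sub_nonneg.2 h2) (sq_nonneg β)
    have h4 := mul_nonneg (sub_nonneg.2 h1.1) (sq_nonneg (θ * α - 27 * β))
    have h5 := mul_nonneg (sub_nonneg.2 h1.2) (sq_nonneg (θ * α + 27 * β))
    have h6 := mul_le_mul_of_nonneg_right ht (mul_nonneg hV (sq_nonneg β))
    have h7 : 2 * (B.symk D.g).1 (x, y) * α * β ≤
        θ * (D.V.1 (x - y) * α ^ 2) + 729 * t * (D.V.1 (x - y) * β ^ 2) := by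
      refine le_of_mul_le_mul_left ?_ hθ
      linarith
    have h8 := mul_le_mul_of_nonneg_right (hc x hx hl.1) (mul_nonneg hV (sq_nonneg α))
    have h9 := mul_nonneg hw (sq_nonneg α)
    linarith
  · have hl' : x ∉ B.lay D.C ∨ y ∉ B.lay D.C := not_and_or.1 hl
    rw [Set.indicator_of_notMem hl, B.symk_of_not_lay D.supp_g hx hy hl',
      B.symk_of_not_lay D.supp_g' hx hy hl']
    have e1 : D.g.1 (x - y) = D.w.1 (x - y) * D.f.1 (x - y) := rfl
    have e2 : D.g'.1 (x - y) = D.w.1 (x - y) * D.f.1 (x - y) * (1 - D.f.1 (x - y)) := rfl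
    have h := mul_nonneg hw (sq_nonneg (α - D.f.1 (x - y) * β))
    rw [e1, e2]
    linarith

theorem Dat.bk_nonneg (B : Box) {t : ℝ} (ht : 0 ≤ t) (z : R3 × R3) : 0 ≤ (D.bk B t).1 z := by
  obtain ⟨x, y⟩ := z
  rw [bk_apply_pw]
  exact mul_nonneg (by positivity)
    (mul_nonneg (Set.indicator_nonneg (fun _ _ => zero_le_one) _) (D.V0 _))

theorem Dat.int_bk (B : Box) (t : ℝ) :
    ∫ x, ∫ y, (D.bk B t).1 (x, y) ∂(B.μ : Measure R3) ∂(B.μ : Measure R3) =
      t * ∫ x, ∫ y, (D.bk B 1).1 (x, y) ∂(B.μ : Measure R3) ∂(B.μ : Measure R3) := by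
  simp only [← integral_const_mul, bk_apply_pw]
  congr 1
  funext x
  congr 1
  funext y
  ring

theorem Dat.dif_nonneg (z : R3 × R3) : 0 ≤ (dif D.w).1 z := by
  exact D.w0 _

theorem Dat.int_bounds : ∃ C : ℝ, 1 ≤ C ∧ ∀ (s : ℝ) (B : Box), 0 < s → B.Sz s →
    (∫ x, ∫ y, (D.bk B 1).1 (x, y) ∂(B.μ : Measure R3) ∂(B.μ : Measure R3) ≤ C / s ^ 4) ∧
    (∀ χ, Wgt χ → ∀ y, ∫ x, (D.W χ).1 (x, y) ∂(B.μ : Measure R3) ≤ C / s ^ 3) ∧
    ∀ χ, Wgt χ → ∀ x, ∫ y, (D.W χ).1 (x, y) ∂(B.μ : Measure R3) ≤ C / s ^ 3 := by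
  have hi : Integrable D.V.1 := D.suppV.integrable (bmOf D.V)
  obtain ⟨I, hI⟩ : ∃ I, I = ∫ z, D.V.1 z := ⟨_, rfl⟩
  have I0 : 0 ≤ I := hI ▸ integral_nonneg D.V0
  have C0 : 0 ≤ D.C := zero_le_one.trans D.hC
  have P0 : 0 ≤ D.C * I := mul_nonneg C0 I0
  refine ⟨1 + 24 * I + 69984 * (D.C * I), by linarith, fun s B hs hB => ?_⟩
  have s3 : 0 < s ^ 3 := pow_pos hs 3
  have hv : I / B.vol ≤ 8 * I / s ^ 3 := by
    rw [div_le_div_iff₀ B.vol_pos s3]
    have := mul_le_mul_of_nonneg_left hB.vol.1 I0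
    linarith
  have h1 : ∀ x, ∫ y, D.V.1 (x - y) ∂(B.μ : Measure R3) ≤ 8 * I / s ^ 3 := fun x =>
    (B.integral_sub_le hi D.V0 x).1.trans (hI ▸ hv)
  have h2 : ∀ x, ∫ y, D.V.1 (y - x) ∂(B.μ : Measure R3) ≤ 8 * I / s ^ 3 := fun x =>
    (B.integral_sub_le hi D.V0 x).2.trans (hI ▸ hv)
  have h3 : 3 * (8 * I / s ^ 3) ≤ (1 + 24 * I + 69984 * (D.C * I)) / s ^ 3 := by
    rw [← mul_div_assoc]
    exact div_le_div_of_nonneg_right (by linarith) s3.le
  refine ⟨?_, fun χ hχ y => ?_, fun χ hχ x => ?_⟩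
  rotate_left
  · have a1 : BM fun x => (D.W χ).1 (x, y) := (bmOf (D.W χ)).comp measurable_prodMk_right
    have a2 : BM fun x => D.V.1 (x - y) := (bmOf D.V).comp (measurable_id.sub measurable_const)
    refine (integral_mono a1.integrable (a2.integrable.const_mul 3)
      fun x => D.W_le hχ x y).trans ?_
    rw [integral_const_mul]
    linarith [h2 y]
  · have a1 : BM fun y => (D.W χ).1 (x, y) := (bmOf (D.W χ)).comp measurable_prodMk_left
    have a2 : BM fun y => D.V.1 (x - y) := (bmOf D.V).comp (measurable_const.sub measurable_id)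
    refine (integral_mono a1.integrable (a2.integrable.const_mul 3)
      fun y => D.W_le hχ x y).trans ?_
    rw [integral_const_mul]
    linarith [h1 x]
  have hb : BM (uncurry fun x y => (D.bk B 1).1 (x, y)) := bmOf (D.bk B 1)
  have h4 : ∀ x, ∫ y, (D.bk B 1).1 (x, y) ∂(B.μ : Measure R3) ≤
      (B.lay D.C).indicator (fun _ => 729 * (8 * I / s ^ 3)) x := by
    intro x
    have a1 : BM fun y => (D.bk B 1).1 (x, y) := (bmOf (D.bk B 1)).comp measurable_prodMk_left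
    have a2 : BM fun y => D.V.1 (x - y) := (bmOf D.V).comp (measurable_const.sub measurable_id)
    refine (integral_mono a1.integrable ((a2.integrable.const_mul 729).const_mul _)
      fun y => bk_le_pw D B x y).trans ?_
    rw [integral_const_mul, integral_const_mul]
    by_cases hx : x ∈ B.lay D.C
    · rw [Set.indicator_of_mem hx, Set.indicator_of_mem hx]
      linarith [h1 x]
    · rw [Set.indicator_of_notMem hx, Set.indicator_of_notMem hx, zero_mul]
  refine (integral_mono hb.integral_right.integrable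
    ((integrable_const _).indicator (B.measurableSet_lay _)) h4).trans ?_
  rw [integral_indicator_const _ (B.measurableSet_lay _), smul_eq_mul]
  have h5 : (B.μ : Measure R3).real (B.lay D.C) ≤ 12 * D.C / s := by
    refine (B.lay_le C0).trans ?_
    have a : ∀ c, 2 * D.C / B.s c ≤ 4 * D.C / s := fun c => by
      rw [div_le_div_iff₀ (B.pos c) hs]
      have := mul_le_mul_of_nonneg_left (hB c).1 C0
      linarith
    rw [Fin.sum_univ_three]
    have e : 12 * D.C / s = 3 * (4 * D.C / s) := by ring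
    linarith [a 0, a 1, a 2]
  refine (mul_le_mul_of_nonneg_right h5 (by positivity)).trans ?_
  have e : 12 * D.C / s * (729 * (8 * I / s ^ 3)) = 69984 * (D.C * I) / s ^ 4 := by
    field_simp
    ring
  rw [e]
  exact div_le_div_of_nonneg_right (by linarith) (pow_pos hs 4).le

end Pool.Agent.BoseLHY
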