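import Pool.Agent.Lib.MP_dec75e_mp.L.SharpA
import Pool.Agent.Lib.MP_dec75e_mp.L.LowBox
import Pool.Agent.Lib.MP_dec75e_mp.L.ImsC

/-! The second order lower bound in one box, for every particle number. -/

open MeasureTheory Finset Function
open scoped Real

noncomputable section

namespace Pool.Agent.BoseLHY

open Pool.Agent.BoseTail

theorem eps_mono_sharp {e e' x z : ℝ} (he : 0 < e) (hee : e ≤ e') (h : |z| ≤ e * x) :
    |z| ≤ e' * x := by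
  have hx : 0 ≤ x := by
    by_contra hx
    have : e * x < 0 := mul_neg_of_pos_of_neg he (not_le.1 hx)
    linarith [abs_nonneg z]
  exact h.trans (mul_le_mul_of_nonneg_right hee hx)

/-- The size of the particle number. -/
theorem num_n_sharp {y l n : ℝ} (hy : 0 < y) (hy2 : y ≤ 1 / 2) (l1 : 1 ≤ l * y ^ 404)
    (l2 : l * y ^ 404 ≤ 2) (hn : |n - y ^ 800 * l ^ 3| ≤ y ^ 80 * (y ^ 800 * l ^ 3)) :
    1 / 2 ≤ n * y ^ 412 ∧ n * y ^ 412 ≤ 12 := by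
  have h80 : y ^ 80 ≤ 1 / 2 :=
    (pow_le_of_le_one hy.le (by linarith) (by norm_num)).trans hy2
  have hp : 0 < y ^ 412 := pow_pos hy _
  have he : y ^ 800 * l ^ 3 * y ^ 412 = (l * y ^ 404) ^ 3 := by ring
  have h1 : 1 ≤ (l * y ^ 404) ^ 3 := one_le_pow₀ l1
  have h2 : (l * y ^ 404) ^ 3 ≤ 8 := by
    have := pow_le_pow_left₀ (by linarith) l2 3
    linarith
  generalize y ^ 800 * l ^ 3 = V at hn he
  generalize y ^ 80 = s at hn h80
  generalize y ^ 412 = p at hp he ⊢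
  rw [← he] at h1 h2
  have hV : 0 < V := by
    by_contra hV
    have : V * p ≤ 0 := mul_nonpos_of_nonpos_of_nonneg (not_lt.1 hV) hp.le
    linarith
  have hs : s * V ≤ 1 / 2 * V := mul_le_mul_of_nonneg_right h80 hV.le
  obtain ⟨h3, h4⟩ := abs_le.1 hn
  constructor
  · have : V / 2 * p ≤ n * p := mul_le_mul_of_nonneg_right (by linarith) hp.le
    linarith
  · have : n * p ≤ 3 * V / 2 * p := mul_le_mul_of_nonneg_right (by linarith) hp.le
    linarith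

/-- The size of the localisation parameter. -/
theorem num_M_sharp {y n : ℝ} (hy : 0 < y) (hy2 : y ≤ 1 / 2) (hn : 1 / 2 ≤ n * y ^ 412) :
    1 ≤ ⌊n * y ^ 120⌋₊ ∧ (⌊n * y ^ 120⌋₊ : ℝ) ≤ n * y ^ 120 ∧
      n * y ^ 120 / 4 ≤ (⌊n * y ^ 120⌋₊ : ℝ) / 2 ∧
      700 / (⌊n * y ^ 120⌋₊ : ℝ) ^ 2 ≤ 11200 * y ^ 584 := by
  have hq : y ^ 292 ≤ 1 / 4 := by
    have h1 : y ^ 292 ≤ y ^ 2 := pow_le_pow_of_le_one hy.le (by linarith) (by norm_num)
    have h2 : y ^ 2 ≤ (1 / 2) ^ 2 := pow_le_pow_left₀ hy.le hy2 2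
    linarith
  have hq0 : 0 < y ^ 292 := pow_pos hy _
  have he : n * y ^ 412 = n * y ^ 120 * y ^ 292 := by ring
  have he2 : y ^ 584 = (y ^ 292) ^ 2 := by ring
  rw [he] at hn
  rw [he2]
  generalize n * y ^ 120 = x at hn ⊢
  generalize y ^ 292 = q at hq hq0 hn ⊢
  have hx : 2 ≤ x := by
    by_contra hx
    have hx' : x < 2 := not_le.1 hx
    have : x * q < 2 * q := mul_lt_mul_of_pos_right hx' hq0
    linarith
  have h1 : x < (⌊x⌋₊ : ℝ) + 1 := Nat.lt_floor_add_one x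
  have h2 : (⌊x⌋₊ : ℝ) ≤ x := Nat.floor_le (by linarith)
  have h3 : x / 2 ≤ (⌊x⌋₊ : ℝ) := by linarith
  refine ⟨Nat.one_le_floor_iff x |>.2 (by linarith), h2, by linarith, ?_⟩
  generalize (⌊x⌋₊ : ℝ) = M at h1 h2 h3 ⊢
  have hM : 0 < M := by linarith
  have h4 : 1 / 4 ≤ M * q := by
    have : x / 2 * q ≤ M * q := mul_le_mul_of_nonneg_right h3 hq0.le
    linarith
  rw [div_le_iff₀ (pow_pos hM 2)]
  have h5 : (1 / 4 : ℝ) ^ 2 ≤ (M * q) ^ 2 := pow_le_pow_left₀ (by norm_num) h4 2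
  nlinarith

/-- The localisation error. -/
theorem num_err_sharp {y n k a Ct Cb E P N : ℝ} (hy : 0 < y) (hy1 : y ≤ 1) (hn0 : 0 ≤ n)
    (hn : n * y ^ 412 ≤ 12) (_hk0 : 0 ≤ k) (hk : k * y ^ 36 ≤ 27) (ha : 0 < a) (hCt : 1 ≤ Ct)
    (hCb : 1 ≤ Cb) (hE0 : 0 ≤ E) (hE : E ≤ 11200 * y ^ 584) (hN : 0 ≤ N)
    (hP : P ≤ (2 * (4 * π * a * y ^ 800 * n) + Ct * y ^ 756) * N) :
    E * (P + 12 * k * (Cb * y ^ 1212) * n ^ 2 * N) ≤
      11200 * (96 * π * a + Ct + 46656 * Cb) * y ^ 789 * N := by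
  have hpa : 0 < π * a := mul_pos Real.pi_pos ha
  have hq : ∀ i j : ℕ, i ≤ j → y ^ j ≤ y ^ i := fun i j h => pow_le_pow_of_le_one hy.le hy1 h
  have h1 : 2 * (4 * π * a * y ^ 800 * n) ≤ 96 * π * a * y ^ 205 := by
    have e : 2 * (4 * π * a * y ^ 800 * n) = 8 * (π * a) * ((n * y ^ 412) * y ^ 388) := by ring
    have e2 : 96 * π * a * y ^ 205 = 8 * (π * a) * (12 * y ^ 205) := by ring
    rw [e, e2]
    refine mul_le_mul_of_nonneg_left ?_ (by positivity)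
    exact mul_le_mul hn (hq _ _ (by norm_num)) (by positivity) (by norm_num)
  have h2 : Ct * y ^ 756 ≤ Ct * y ^ 205 :=
    mul_le_mul_of_nonneg_left (hq _ _ (by norm_num)) (by linarith)
  have h3 : 12 * k * (Cb * y ^ 1212) * n ^ 2 ≤ 46656 * Cb * y ^ 205 := by
    have e : 12 * k * (Cb * y ^ 1212) * n ^ 2 =
        12 * Cb * ((k * y ^ 36) * (n * y ^ 412) ^ 2 * y ^ 352) := by ring
    have e2 : 46656 * Cb * y ^ 205 = 12 * Cb * (27 * 12 ^ 2 * y ^ 205) := by ring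
    rw [e, e2]
    refine mul_le_mul_of_nonneg_left ?_ (by positivity)
    refine mul_le_mul ?_ (hq _ _ (by norm_num)) (by positivity) (by norm_num)
    exact mul_le_mul hk (pow_le_pow_left₀ (by positivity) hn 2) (by positivity) (by norm_num)
  have h4 : P + 12 * k * (Cb * y ^ 1212) * n ^ 2 * N ≤
      ((96 * π * a + Ct + 46656 * Cb) * y ^ 205) * N := by
    have h5 : (2 * (4 * π * a * y ^ 800 * n) + Ct * y ^ 756) + 12 * k * (Cb * y ^ 1212) * n ^ 2 ≤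
        (96 * π * a + Ct + 46656 * Cb) * y ^ 205 := by linarith
    have h6 := mul_le_mul_of_nonneg_right h5 hN
    linarith
  have h7 : 0 ≤ ((96 * π * a + Ct + 46656 * Cb) * y ^ 205) * N := by
    have : 0 ≤ 96 * π * a + Ct + 46656 * Cb := by nlinarith
    positivity
  calc E * (P + 12 * k * (Cb * y ^ 1212) * n ^ 2 * N)
      ≤ E * (((96 * π * a + Ct + 46656 * Cb) * y ^ 205) * N) :=
        mul_le_mul_of_nonneg_left h4 hE0
    _ ≤ (11200 * y ^ 584) * (((96 * π * a + Ct + 46656 * Cb) * y ^ 205) * N) :=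
        mul_le_mul_of_nonneg_right hE h7
    _ = 11200 * (96 * π * a + Ct + 46656 * Cb) * y ^ 789 * N := by ring

theorem abs_A_sharp {ι : Type} [Fintype ι] [DecidableEq ι] {μ : ι → ProbabilityMeasure R3}
    {B : Box} {S : Finset ι} (hA : Act μ B S) {ψ : Vs ι} {b : M3 → ℝ} (hb : ∀ m, |b m| ≤ 1)
    {A : ℝ} (h : HasSum (fun m => b m * occ μ B S m ψ) A) :
    -A ≤ S.card * nq (ipB μ) ψ := by
  refine hasSum_le (fun m => ?_) h.neg (hasSum_occ hA ψ)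
  have h1 : 0 ≤ occ μ B S m ψ := occ_nonneg
  have h2 := (abs_le.1 (hb m)).1
  nlinarith

/-- If the particle number is right, take `M = ⌊n y^120⌋` in `ims_box`, apply `low_box` to `ψ₀`
and `sharp_many` to `ψ₁` (`kin_hasSum`, `summable_occ`). One may assume that the conclusion
fails, which bounds `pot ψ ≤ C y^800 n ‖ψ‖²` (use `tgt_le`, `|A| ≤ n ‖ψ‖²`). -/
theorem sharp (D : Dat) : ∃ C ε₀ y₀ : ℝ, 1 ≤ C ∧ 0 < ε₀ ∧ ε₀ ≤ 1 / 2 ∧ 0 < y₀ ∧ y₀ ≤ 1 ∧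
    ∀ (y l : ℝ) (R : ℕ) (b : M3 → ℝ), Scale y l R → y ≤ y₀ →
      (∀ m, |b m| ≤ ε₀ * min (D.tm y l m) 1) →
    ∀ {ι : Type} [Fintype ι] [DecidableEq ι] (μ : ι → ProbabilityMeasure R3) (B : Box)
      (S : Finset ι) (ψ : Vs ι) (A : ℝ) (χ : BF R3), D.Gd χ B y l →
      B.Cube l → Act μ B S → Sym S ψ → C1 ψ →
      HasSum (fun m => b m * occ μ B S m ψ) A →
      (D.mu0 y * S.card + D.tgt y l R b - C * y ^ 789) * nq (ipB μ) ψ ≤
        En μ S (D.W χ) ψ + D.mu0 y * A := by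
  obtain ⟨e1, y1, he1, he1', hy1, -, hfar⟩ := sharp_far D
  obtain ⟨e2, y2, he2, -, hy2, -, hmany⟩ := sharp_many D
  obtain ⟨C3, y3, hC3, hy3, -, hlow⟩ := low_box D
  obtain ⟨Cb, y4, hCb, hy4, -, hbox⟩ := box_consts D
  obtain ⟨Ct, hCt, htgt⟩ := D.tgt_le
  have hpa : 0 < π * D.a := mul_pos Real.pi_pos D.ha
  have hC' : 0 ≤ 11200 * (96 * π * D.a + Ct + 46656 * Cb) := by nlinarith
  refine ⟨C3 + 11200 * (96 * π * D.a + Ct + 46656 * Cb), min e1 e2,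
    min (min (min y1 y2) (min y3 y4)) (1 / 2), by linarith, lt_min he1 he2,
    (min_le_left _ _).trans he1', lt_min (lt_min (lt_min hy1 hy2) (lt_min hy3 hy4)) (by norm_num),
    (min_le_right _ _).trans (by norm_num), ?_⟩
  intro y l R b hs hy hb ι _ _ μ B S ψ A χ hχ hB hA hS hψ hsum
  have hy0 := hs.y0
  have hyh : y ≤ 1 / 2 := hy.trans (min_le_right _ _)
  have hy' := hy.trans (min_le_left _ _)
  have hyy1 : y ≤ y1 := hy'.trans ((min_le_left _ _).trans (min_le_left _ _))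
  have hyy2 : y ≤ y2 := hy'.trans ((min_le_left _ _).trans (min_le_right _ _))
  have hyy3 : y ≤ y3 := hy'.trans ((min_le_right _ _).trans (min_le_left _ _))
  have hyy4 : y ≤ y4 := hy'.trans ((min_le_right _ _).trans (min_le_right _ _))
  have hb1 : ∀ m, |b m| ≤ e1 * min (D.tm y l m) 1 := fun m =>
    eps_mono_sharp (lt_min he1 he2) (min_le_left _ _) (hb m)
  have hb2 : ∀ m, |b m| ≤ e2 * min (D.tm y l m) 1 := fun m =>
    eps_mono_sharp (lt_min he1 he2) (min_le_right _ _) (hb m)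
  have hb3 : ∀ m, |b m| ≤ min (D.tm y l m) 1 / 2 := fun m => by
    have := eps_mono_sharp he1 he1' (hb1 m)
    linarith
  have hb4 : ∀ m, |b m| ≤ 1 := fun m => by
    have h1 := hb3 m
    have h2 := min_le_right (D.tm y l m) 1
    linarith
  have hN : 0 ≤ nq (ipB μ) ψ := (psd_ipB μ).nq_nonneg ψ
  have hy789 : 0 ≤ y ^ 789 := by positivity
  rcases le_total (y ^ 80 * (y ^ 800 * l ^ 3)) |(S.card : ℝ) - y ^ 800 * l ^ 3| with hn | hn
  · have h1 := hfar y l R b hs hyy1 hb1 μ B S ψ A χ hχ hB hA hS hψ hn hsum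
    have h2 : 0 ≤ (C3 + 11200 * (96 * π * D.a + Ct + 46656 * Cb)) * y ^ 789 * nq (ipB μ) ψ :=
      mul_nonneg (mul_nonneg (by linarith) hy789) hN
    linarith
  by_contra hcon
  have hcon' := not_le.1 hcon
  obtain ⟨hn1, hn2⟩ := num_n_sharp hy0 hyh hs.l1 hs.l2 hn
  obtain ⟨hM1, hM2, hM3, hM4⟩ := num_M_sharp hy0 hyh hn1
  obtain ⟨-, -, -, -, -, -, hw1, hw2, -⟩ := hbox y l R B hs hyy4 hB
  have hW : ∀ z, 0 ≤ (D.W χ).1 z := D.W0 hχ.wgt
  obtain ⟨ψ₀, ψ₁, c0, c1, s0, s1, hl0, hh1, hocc, hnq, hpot⟩ :=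
    ims_box (R := R) hA hS hψ hM1 hW (hw1 χ hχ.wgt) (hw2 χ hχ.wgt)
  have hN0 : 0 ≤ nq (ipB μ) ψ₀ := (psd_ipB μ).nq_nonneg ψ₀
  have hN1 : 0 ≤ nq (ipB μ) ψ₁ := (psd_ipB μ).nq_nonneg ψ₁
  have hA0 := (summable_occ hA ψ₀ hb4).hasSum
  have hA1 := (summable_occ hA ψ₁ hb4).hasSum
  have hAe : (∑' m, b m * occ μ B S m ψ₀) + ∑' m, b m * occ μ B S m ψ₁ = A := by
    refine (hA0.add hA1).unique ?_
    simpa only [← mul_add, hocc] using hsum
  have hke : kin μ S ψ₀ + kin μ S ψ₁ = kin μ S ψ := by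
    refine ((kin_hasSum hA c0).add (kin_hasSum hA c1)).unique ?_
    simpa only [← mul_add, hocc] using kin_hasSum hA hψ
  have hp : ∀ m, B.p m = pk l m := fun m => funext fun c => by
    simp only [Box.p, pk, hB c]
  have hT : HasSum (fun m => (sq3 (pk l m) / 2 + D.mu0 y * b m) * occ μ B S m ψ₀)
      (kin μ S ψ₀ + D.mu0 y * ∑' m, b m * occ μ B S m ψ₀) := by
    have := (kin_hasSum hA c0).add (hA0.mul_left (D.mu0 y))
    simpa only [hp, add_mul, mul_assoc] using this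
  have h0 := hlow y l R b hs hyy3 hb3 μ B S ψ₀ _ _ χ hχ.wgt hχ.cov hB hA s0 hn hM2 hl0 hT
  have h1 := hmany y l R b hs hyy2 hb2 μ B S ψ₁ _ χ hχ hB hA s1 c1 hn
    ((mul_le_mul_of_nonneg_right hM3 hN1).trans hh1) hA1
  have hmu := D.mu0_pos hy0
  have hP : pot μ S (D.W χ) ψ ≤
      (2 * (4 * π * D.a * y ^ 800 * S.card) + Ct * y ^ 756) * nq (ipB μ) ψ := by
    have h2 := htgt y l R b hs (by linarith) hb3
    have h3 : 0 ≤ 2 * π * D.a * y ^ 1600 * l ^ 3 := by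
      have := hs.l_pos
      have := D.ha
      positivity
    have h4 : D.tgt y l R b * nq (ipB μ) ψ ≤ Ct * y ^ 756 * nq (ipB μ) ψ :=
      mul_le_mul_of_nonneg_right (by linarith) hN
    have h5 := mul_le_mul_of_nonneg_left (abs_A_sharp hA hb4 hsum) hmu.le
    have h6 : 0 ≤ kin μ S ψ := kin_nonneg
    have h7 : 0 ≤ (C3 + 11200 * (96 * π * D.a + Ct + 46656 * Cb)) * y ^ 789 * nq (ipB μ) ψ :=
      mul_nonneg (mul_nonneg (by linarith) hy789) hN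
    have h8 : 4 * π * D.a * y ^ 800 = D.mu0 y := rfl
    rw [h8]
    unfold En at hcon'
    linarith
  have herr := num_err_sharp hy0 (by linarith) (Nat.cast_nonneg _) hn2 (Nat.cast_nonneg _)
    (hs.card_le (by linarith)) D.ha hCt hCb (by positivity) hM4 hN hP
  have h9 : C3 * y ^ 789 * nq (ipB μ) ψ₀ ≤ C3 * y ^ 789 * nq (ipB μ) ψ :=
    mul_le_mul_of_nonneg_left (by linarith) (mul_nonneg (by linarith) hy789)
  have h10 : (D.mu0 y * S.card + D.tgt y l R b) * nq (ipB μ) ψ =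
      (D.mu0 y * S.card + D.tgt y l R b) * nq (ipB μ) ψ₀ +
        (D.mu0 y * S.card + D.tgt y l R b) * nq (ipB μ) ψ₁ := by rw [← hnq]; ring
  have h11 : D.mu0 y * A = D.mu0 y * (∑' m, b m * occ μ B S m ψ₀) +
      D.mu0 y * ∑' m, b m * occ μ B S m ψ₁ := by rw [← hAe]; ring
  unfold En at hcon' h1
  linarith

end Pool.Agent.BoseLHY
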