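import Pool.Agent.Lib.MP_dec75e_mp.L.CrudeM
import Pool.Agent.Lib.MP_dec75e_mp.L.LowNum

/-! States far from the condensed regime have a large energy. -/

open MeasureTheory Finset Function
open scoped Real

noncomputable section

namespace Pool.Agent.BoseLHY

open Pool.Agent.BoseTail

theorem sq3_nonneg_sharpa (k : R3) : 0 ≤ sq3 k := sum_nonneg fun _ _ => sq_nonneg _

/-- The perturbation is small compared with the gap. -/
theorem pert_sharpa (D : Dat) {y l c ε : ℝ} (hy : 0 < y) (hε : 0 ≤ ε)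
    (hεc : ε * (1 + 4 * π * D.a) ≤ c) {m : M3} {t : ℝ} (ht : |t| ≤ ε * min (D.tm y l m) 1) :
    -(D.mu0 y) * t ≤ c * min (sq3 (pk l m)) (y ^ 800) := by
  have hμ := D.mu0_pos hy
  have ha := D.ha
  have hp := Real.pi_pos
  have hq := sq3_nonneg_sharpa (pk l m)
  have hA : 0 < 4 * π * D.a := by positivity
  have hy8 : 0 < y ^ 800 := pow_pos hy _
  have h1 : -(D.mu0 y) * t ≤ D.mu0 y * (ε * min (D.tm y l m) 1) := by
    have := neg_abs_le t
    nlinarith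
  have h2 : D.mu0 y * min (D.tm y l m) 1 ≤
      (1 + 4 * π * D.a) * min (sq3 (pk l m)) (y ^ 800) := by
    have e1 : D.mu0 y * D.tm y l m = sq3 (pk l m) / 2 := by
      unfold Dat.tm; field_simp
    have e2 : D.mu0 y * min (D.tm y l m) 1 ≤ sq3 (pk l m) / 2 :=
      e1 ▸ mul_le_mul_of_nonneg_left (min_le_left _ _) hμ.le
    have e3 : D.mu0 y * min (D.tm y l m) 1 ≤ 4 * π * D.a * y ^ 800 := by
      have := mul_le_mul_of_nonneg_left (min_le_right (D.tm y l m) 1) hμ.le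
      rw [mul_one] at this
      exact this
    rcases le_total (sq3 (pk l m)) (y ^ 800) with h | h
    · rw [min_eq_left h]; nlinarith
    · rw [min_eq_right h]; nlinarith
  have h3 : 0 ≤ min (sq3 (pk l m)) (y ^ 800) := le_min hq hy8.le
  calc -(D.mu0 y) * t ≤ ε * (D.mu0 y * min (D.tm y l m) 1) := by linarith
    _ ≤ ε * ((1 + 4 * π * D.a) * min (sq3 (pk l m)) (y ^ 800)) :=
        mul_le_mul_of_nonneg_left h2 hε
    _ = ε * (1 + 4 * π * D.a) * min (sq3 (pk l m)) (y ^ 800) := by ring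
    _ ≤ _ := mul_le_mul_of_nonneg_right hεc h3

theorem pow_le_sharpa {y : ℝ} (hy : 0 < y) (h1 : y ≤ 1) (k j : ℕ) (hj : j ≠ 0) :
    y ^ (k + j) ≤ y ^ k * y := by
  rw [pow_add]
  exact mul_le_mul_of_nonneg_left (pow_le_of_le_one hy.le h1 hj) (pow_pos hy k).le

theorem l400_sharpa {y l : ℝ} {R : ℕ} (h : Scale y l R) (h1 : y ≤ 1) : 1 ≤ l * y ^ 400 :=
  h.l1.trans (mul_le_mul_of_nonneg_left (pow_le_pow_of_le_one h.y0.le h1 (by norm_num))
    h.l_pos.le)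

theorem vol_sharpa {y l : ℝ} {R : ℕ} (h : Scale y l R) : 1 ≤ y ^ 412 * (y ^ 800 * l ^ 3) := by
  have := one_le_pow₀ (n := 3) h.l1
  calc (1 : ℝ) ≤ (l * y ^ 404) ^ 3 := this
    _ = _ := by ring

theorem half_sharpa (D : Dat) {y l ε : ℝ} (hy : 0 < y) (hε : ε ≤ 1 / 2) {b : M3 → ℝ}
    (hb : ∀ m, |b m| ≤ ε * min (D.tm y l m) 1) (m : M3) : |b m| ≤ min (D.tm y l m) 1 / 2 := by
  have h0 : 0 ≤ min (D.tm y l m) 1 :=
    le_min (div_nonneg (sq3_nonneg_sharpa _) (by have := D.mu0_pos hy; positivity)) zero_le_one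
  have := hb m
  nlinarith

/-- The numerical inequality for a wrong particle number. -/
theorem far_num_sharpa {y α C C' n W d : ℝ} (hy : 0 < y) (h1 : y ≤ 1) (hα : 0 < α) (hC : 0 ≤ C)
    (hC' : 0 ≤ C') (hyC : y * (4 * C) ≤ α) (hyC' : y * (2 * C') ≤ α) (hW : 1 ≤ y ^ 412 * W)
    (hd : y ^ 80 * W ≤ d) (hn : n ≤ W + d) :
    C * y ^ 1199 * n + C' * y ^ 756 ≤ α * y ^ 880 * d := by
  have h80 : 0 < y ^ 80 := pow_pos hy _
  have h80' : y ^ 80 ≤ 1 := pow_le_one₀ hy.le h1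
  have h412 : 0 < y ^ 412 := pow_pos hy _
  have hW0 : 0 < W := (mul_pos_iff_of_pos_left h412).1 (lt_of_lt_of_le one_pos hW)
  have hd0 : 0 ≤ d := le_trans (by positivity) hd
  have e1 : y ^ 80 * n ≤ 2 * d := by nlinarith
  have p1 : y ^ 1119 ≤ y ^ 880 * y := pow_le_sharpa hy h1 880 239 (by norm_num)
  have p2 : y ^ 756 ≤ y ^ 548 * y := pow_le_sharpa hy h1 548 208 (by norm_num)
  have h880 : 0 < y ^ 880 := pow_pos hy _
  have h548 : 0 < y ^ 548 := pow_pos hy _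
  have h1119 : 0 < y ^ 1119 := pow_pos hy _
  have a1 : C * y ^ 1199 * n ≤ α / 2 * y ^ 880 * d := by
    calc C * y ^ 1199 * n = C * y ^ 1119 * (y ^ 80 * n) := by ring
      _ ≤ C * y ^ 1119 * (2 * d) := mul_le_mul_of_nonneg_left e1 (by positivity)
      _ ≤ C * (y ^ 880 * y) * (2 * d) := by gcongr
      _ = y * (4 * C) / 2 * y ^ 880 * d := by ring
      _ ≤ _ := by gcongr
  have a2 : C' * y ^ 756 ≤ α / 2 * y ^ 880 * d := by
    calc C' * y ^ 756 ≤ C' * (y ^ 548 * y) := by gcongr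
      _ = y * (2 * C') / 2 * y ^ 548 * 1 := by ring
      _ ≤ α / 2 * y ^ 548 * (y ^ 412 * W) := by gcongr
      _ = α / 2 * y ^ 880 * (y ^ 80 * W) := by ring
      _ ≤ _ := by gcongr
  linarith

/-- The numerical inequality for many low excitations. -/
theorem many_num_sharpa {y c C C' n W : ℝ} (hy : 0 < y) (h1 : y ≤ 1 / 2) (hc : 0 < c) (hC : 0 ≤ C)
    (hC' : 0 ≤ C') (hyC : y * (16 * C) ≤ c) (hyC' : y * (32 * C') ≤ c) (hW : 1 ≤ y ^ 412 * W)
    (hn : W - n ≤ y ^ 80 * W) :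
    C * y ^ 1199 * n + C' * y ^ 756 ≤ c / 2 * y ^ 808 * (n * y ^ 120 / 4) := by
  have h1' : y ≤ 1 := by linarith
  have h80 : y ^ 80 ≤ 1 / 2 := (pow_le_of_le_one hy.le h1' (by norm_num)).trans h1
  have h412 : 0 < y ^ 412 := pow_pos hy _
  have hW0 : 0 < W := (mul_pos_iff_of_pos_left h412).1 (lt_of_lt_of_le one_pos hW)
  have e1 : W ≤ 2 * n := by nlinarith
  have hn0 : 0 ≤ n := by linarith
  have p1 : y ^ 1199 ≤ y ^ 928 * y := pow_le_sharpa hy h1' 928 271 (by norm_num)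
  have p2 : y ^ 756 ≤ y ^ 516 * y := pow_le_sharpa hy h1' 516 240 (by norm_num)
  have h928 : 0 < y ^ 928 := pow_pos hy _
  have h516 : 0 < y ^ 516 := pow_pos hy _
  have a1 : C * y ^ 1199 * n ≤ c / 16 * y ^ 928 * n := by
    calc C * y ^ 1199 * n ≤ C * (y ^ 928 * y) * n := by gcongr
      _ = y * (16 * C) / 16 * y ^ 928 * n := by ring
      _ ≤ _ := by gcongr
  have a2 : C' * y ^ 756 ≤ c / 16 * y ^ 928 * n := by
    calc C' * y ^ 756 ≤ C' * (y ^ 516 * y) := by gcongr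
      _ = y * (32 * C') / 32 * y ^ 516 * 1 := by ring
      _ ≤ c / 32 * y ^ 516 * (y ^ 412 * W) := by gcongr
      _ ≤ c / 32 * y ^ 516 * (y ^ 412 * (2 * n)) := by gcongr
      _ = _ := by ring
  calc _ ≤ c / 16 * y ^ 928 * n + c / 16 * y ^ 928 * n := add_le_add a1 a2
    _ = _ := by ring

theorem small_sharpa {y κ K : ℝ} (hK : 0 < K) (h : y ≤ κ / K) : y * K ≤ κ :=
  (le_div_iff₀ hK).1 h

/-- Wrong particle number. `crudeM` with `g = -μ₀ b` and `r = ρ (1 ± y^80)`, `tgt_le`. -/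
theorem sharp_far (D : Dat) : ∃ ε₀ y₀ : ℝ, 0 < ε₀ ∧ ε₀ ≤ 1 / 2 ∧ 0 < y₀ ∧ y₀ ≤ 1 ∧
    ∀ (y l : ℝ) (R : ℕ) (b : M3 → ℝ), Scale y l R → y ≤ y₀ →
      (∀ m, |b m| ≤ ε₀ * min (D.tm y l m) 1) →
    ∀ {ι : Type} [Fintype ι] [DecidableEq ι] (μ : ι → ProbabilityMeasure R3) (B : Box)
      (S : Finset ι) (ψ : Vs ι) (A : ℝ) (χ : BF R3), D.Gd χ B y l →
      B.Cube l → Act μ B S → Sym S ψ → C1 ψ →
      y ^ 80 * (y ^ 800 * l ^ 3) ≤ |(S.card : ℝ) - y ^ 800 * l ^ 3| →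
      HasSum (fun m => b m * occ μ B S m ψ) A →
      (D.mu0 y * S.card + D.tgt y l R b) * nq (ipB μ) ψ ≤
        En μ S (D.W χ) ψ + D.mu0 y * A := by
  obtain ⟨C, c, y₁, hC, hc, hc1, hy₁, hy₁1, H⟩ := crudeM D
  obtain ⟨C', hC', T⟩ := D.tgt_le
  have ha := D.ha
  have hp := Real.pi_pos
  have hA : 0 < 1 + 4 * π * D.a := by positivity
  have hα : 0 < 2 * π * D.a := by positivity
  refine ⟨min (1 / 2) (c / (1 + 4 * π * D.a)),
    min y₁ (min (2 * π * D.a / (4 * C)) (2 * π * D.a / (2 * C'))), by positivity, min_le_left _ _,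
    by positivity, (min_le_left _ _).trans hy₁1, ?_⟩
  intro y l R b hS hy hb ι _ _ μ B S ψ A χ hχ hB hAct hSym hC1 hfar hsum
  have hy0 := hS.y0
  have hy1 : y ≤ y₁ := hy.trans (min_le_left _ _)
  have h1 : y ≤ 1 := hy1.trans hy₁1
  have hyC : y * (4 * C) ≤ 2 * π * D.a :=
    small_sharpa (by positivity) (hy.trans ((min_le_right _ _).trans (min_le_left _ _)))
  have hyC' : y * (2 * C') ≤ 2 * π * D.a :=
    small_sharpa (by positivity) (hy.trans ((min_le_right _ _).trans (min_le_right _ _)))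
  have hT := T y l R b hS h1 (half_sharpa D hy0 (min_le_left _ _) hb)
  have hg : ∀ m, -(D.mu0 y) * b m ≤ c * min (sq3 (pk l m)) (y ^ 800) := fun m =>
    pert_sharpa D hy0 (by positivity) (small_sharpa hA (min_le_right _ _)) (hb m)
  have hΓ : HasSum (fun m => -(D.mu0 y) * b m * occ μ B S m ψ) (-(D.mu0 y) * A) := by
    simpa only [mul_assoc] using hsum.mul_left (-(D.mu0 y))
  have hN : 0 ≤ nq (ipB μ) ψ := (psd_ipB μ).nq_nonneg ψ
  have h80 : 0 < y ^ 80 := pow_pos hy0 _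
  have h80' : y ^ 80 ≤ 1 := pow_le_one₀ hy0.le h1
  have h800 : 0 < y ^ 800 := pow_pos hy0 _
  have hnum := far_num_sharpa (n := S.card) hy0 h1 hα (by linarith : 0 ≤ C) (by linarith : 0 ≤ C')
    hyC hyC' (vol_sharpa hS) hfar (by have := le_abs_self ((S.card : ℝ) - y ^ 800 * l ^ 3); linarith)
  have key : ∀ δ : ℝ, δ ^ 2 = (y ^ 80) ^ 2 → -1 ≤ δ → δ ≤ 1 →
      δ * ((S.card : ℝ) - y ^ 800 * l ^ 3) = y ^ 80 * |(S.card : ℝ) - y ^ 800 * l ^ 3| →
      (D.mu0 y * S.card + D.tgt y l R b) * nq (ipB μ) ψ ≤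
        En μ S (D.W χ) ψ + D.mu0 y * A := by
    intro δ hδ hδ1 hδ2 hδ3
    have h := H y l hy0 hy1 (l400_sharpa hS h1) μ B S ψ χ hχ (y ^ 800 * (1 + δ)) hB hAct hSym hC1
      (mul_nonneg h800.le (by linarith)) (by nlinarith) _ _ hg hΓ
    have e : 2 * π * D.a * (2 * (y ^ 800 * (1 + δ)) * S.card - (y ^ 800 * (1 + δ)) ^ 2 * l ^ 3) =
        D.mu0 y * S.card - 2 * π * D.a * y ^ 1600 * l ^ 3 + 2 * π * D.a * y ^ 800 *
          (2 * (δ * ((S.card : ℝ) - y ^ 800 * l ^ 3)) - δ ^ 2 * (y ^ 800 * l ^ 3)) := by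
      unfold Dat.mu0; ring
    rw [e, hδ, hδ3] at h
    have g1 : y ^ 80 * |(S.card : ℝ) - y ^ 800 * l ^ 3| ≤
        2 * (y ^ 80 * |(S.card : ℝ) - y ^ 800 * l ^ 3|) - (y ^ 80) ^ 2 * (y ^ 800 * l ^ 3) := by
      have := mul_le_mul_of_nonneg_left hfar h80.le
      nlinarith
    have g2 := mul_le_mul_of_nonneg_left g1 (by positivity : 0 ≤ 2 * π * D.a * y ^ 800)
    have g3 : 2 * π * D.a * y ^ 800 * (y ^ 80 * |(S.card : ℝ) - y ^ 800 * l ^ 3|) =
        2 * π * D.a * y ^ 880 * |(S.card : ℝ) - y ^ 800 * l ^ 3| := by ring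
    have g4 : D.mu0 y * S.card + D.tgt y l R b ≤
        D.mu0 y * S.card - 2 * π * D.a * y ^ 1600 * l ^ 3 + 2 * π * D.a * y ^ 800 *
          (2 * (y ^ 80 * |(S.card : ℝ) - y ^ 800 * l ^ 3|) - (y ^ 80) ^ 2 * (y ^ 800 * l ^ 3)) -
          C * y ^ 1199 * S.card := by linarith
    have g5 := mul_le_mul_of_nonneg_right g4 hN
    linarith
  rcases le_total 0 ((S.card : ℝ) - y ^ 800 * l ^ 3) with hs | hs
  · exact key (y ^ 80) rfl (by linarith) h80' (by rw [abs_of_nonneg hs])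
  · exact key (-y ^ 80) (by ring) (by linarith) (by linarith) (by rw [abs_of_nonpos hs]; ring)

/-- Many low excitations. `crudeM` with `r = ρ` and
`g m = -μ₀ b m + (if m ∈ Lset R then (c / 2) y^808 else 0)`. -/
theorem sharp_many (D : Dat) : ∃ ε₀ y₀ : ℝ, 0 < ε₀ ∧ ε₀ ≤ 1 / 2 ∧ 0 < y₀ ∧ y₀ ≤ 1 ∧
    ∀ (y l : ℝ) (R : ℕ) (b : M3 → ℝ), Scale y l R → y ≤ y₀ →
      (∀ m, |b m| ≤ ε₀ * min (D.tm y l m) 1) →
    ∀ {ι : Type} [Fintype ι] [DecidableEq ι] (μ : ι → ProbabilityMeasure R3) (B : Box)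
      (S : Finset ι) (ψ : Vs ι) (A : ℝ) (χ : BF R3), D.Gd χ B y l →
      B.Cube l → Act μ B S → Sym S ψ → C1 ψ →
      |(S.card : ℝ) - y ^ 800 * l ^ 3| ≤ y ^ 80 * (y ^ 800 * l ^ 3) →
      S.card * y ^ 120 / 4 * nq (ipB μ) ψ ≤ nL μ B R S ψ →
      HasSum (fun m => b m * occ μ B S m ψ) A →
      (D.mu0 y * S.card + D.tgt y l R b) * nq (ipB μ) ψ ≤
        En μ S (D.W χ) ψ + D.mu0 y * A := by
  obtain ⟨C, c, y₁, hC, hc, hc1, hy₁, hy₁1, H⟩ := crudeM D
  obtain ⟨C', hC', T⟩ := D.tgt_le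
  have ha := D.ha
  have hp := Real.pi_pos
  have hA : 0 < 1 + 4 * π * D.a := by positivity
  refine ⟨min (1 / 2) (c / 2 / (1 + 4 * π * D.a)),
    min (min y₁ (1 / 2)) (min (c / (16 * C)) (c / (32 * C'))), by positivity, min_le_left _ _,
    by positivity, ((min_le_left _ _).trans (min_le_left _ _)).trans hy₁1, ?_⟩
  intro y l R b hS hy hb ι _ _ μ B S ψ A χ hχ hB hAct hSym hC1 hnear hmany hsum
  have hy0 := hS.y0
  have hy1 : y ≤ y₁ := hy.trans ((min_le_left _ _).trans (min_le_left _ _))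
  have hy2 : y ≤ 1 / 2 := hy.trans ((min_le_left _ _).trans (min_le_right _ _))
  have h1 : y ≤ 1 := hy1.trans hy₁1
  have hyC : y * (16 * C) ≤ c :=
    small_sharpa (by positivity) (hy.trans ((min_le_right _ _).trans (min_le_left _ _)))
  have hyC' : y * (32 * C') ≤ c :=
    small_sharpa (by positivity) (hy.trans ((min_le_right _ _).trans (min_le_right _ _)))
  have hT := T y l R b hS h1 (half_sharpa D hy0 (min_le_left _ _) hb)
  have h800 : 0 < y ^ 800 := pow_pos hy0 _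
  have h808 : 0 < y ^ 808 := pow_pos hy0 _
  have hg : ∀ m, -(D.mu0 y) * b m + (if m ∈ Lset R then c / 2 * y ^ 808 else 0) ≤
      c * min (sq3 (pk l m)) (y ^ 800) := fun m => by
    have g1 : -(D.mu0 y) * b m ≤ c / 2 * min (sq3 (pk l m)) (y ^ 800) :=
      pert_sharpa D hy0 (by positivity) (small_sharpa hA (min_le_right _ _)) (hb m)
    have g2 : (if m ∈ Lset R then c / 2 * y ^ 808 else 0) ≤
        c / 2 * min (sq3 (pk l m)) (y ^ 800) := by
      split_ifs with hm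
      · refine mul_le_mul_of_nonneg_left (le_min ?_ ?_) (by positivity)
        · have := (hS.mom m).1 (mem_Lset.1 hm).1
          linarith
        · exact pow_le_pow_of_le_one hy0.le h1 (by norm_num)
      · exact mul_nonneg (by positivity) (le_min (sq3_nonneg_sharpa _) h800.le)
    linarith
  have hΓ : HasSum (fun m => (-(D.mu0 y) * b m + (if m ∈ Lset R then c / 2 * y ^ 808 else 0)) *
      occ μ B S m ψ) (-(D.mu0 y) * A + c / 2 * y ^ 808 * nL μ B R S ψ) := by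
    have s1 := hsum.mul_left (-(D.mu0 y))
    have s2 : HasSum (fun m => (if m ∈ Lset R then c / 2 * y ^ 808 else 0) * occ μ B S m ψ)
        (∑ m ∈ Lset R, (if m ∈ Lset R then c / 2 * y ^ 808 else 0) * occ μ B S m ψ) :=
      hasSum_sum_of_ne_finset_zero fun m hm => by rw [if_neg hm, zero_mul]
    have e : ∑ m ∈ Lset R, (if m ∈ Lset R then c / 2 * y ^ 808 else 0) * occ μ B S m ψ =
        c / 2 * y ^ 808 * nL μ B R S ψ := by
      rw [nL_eq hAct, mul_sum]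
      exact sum_congr rfl fun m hm => by rw [if_pos hm]
    rw [e] at s2
    refine (s1.add s2).congr_fun ?_
    intro m
    ring
  have hN : 0 ≤ nq (ipB μ) ψ := (psd_ipB μ).nq_nonneg ψ
  have hnum := many_num_sharpa (n := S.card) hy0 hy2 hc (by linarith : 0 ≤ C)
    (by linarith : 0 ≤ C') hyC hyC' (vol_sharpa hS)
    (by have := neg_abs_le ((S.card : ℝ) - y ^ 800 * l ^ 3); linarith)
  have h := H y l hy0 hy1 (l400_sharpa hS h1) μ B S ψ χ hχ (y ^ 800) hB hAct hSym hC1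
    h800.le (by linarith) _ _ hg hΓ
  have e : 2 * π * D.a * (2 * y ^ 800 * S.card - (y ^ 800) ^ 2 * l ^ 3) =
      D.mu0 y * S.card - 2 * π * D.a * y ^ 1600 * l ^ 3 := by
    unfold Dat.mu0; ring
  rw [e] at h
  have g1 := mul_le_mul_of_nonneg_left hmany (by positivity : 0 ≤ c / 2 * y ^ 808)
  have g4 : D.mu0 y * S.card + D.tgt y l R b ≤
      D.mu0 y * S.card - 2 * π * D.a * y ^ 1600 * l ^ 3 - C * y ^ 1199 * S.card +
        c / 2 * y ^ 808 * (S.card * y ^ 120 / 4) := by linarith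
  have g5 := mul_le_mul_of_nonneg_right g4 hN
  linarith

end Pool.Agent.BoseLHY
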