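import Pool.Agent.Lib.MP_dec75e_mp.L.Lift2
import Pool.Agent.Lib.MP_dec75e_mp.L2

/-! Translations of the torus. -/

open MeasureTheory Finset Function
open scoped Real

noncomputable section

namespace Pool.Agent.BoseLHY

open Pool.Agent.BoseTail

variable {N : ℕ} {L : ℝ} [Fact (0 < L)]
variable {ψ : Cf N L → ℂ}

omit [Fact (0 < L)] in
theorem proj_add_shift (z z' : R3) : proj L (z + z') = proj L z + proj L z' := by
  funext c
  exact AddCircle.coe_add L _ _

omit [Fact (0 < L)] in
theorem proj_neg_shift (z : R3) : proj L (-z) = -proj L z := by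
  funext c
  exact AddCircle.coe_neg L

theorem adm_tr (u : T3 L) (h : Adm ψ) : Adm (tr u ψ) := by
  refine ⟨⟨h.1.1.comp (continuous_id.add continuous_const), fun i c => (h.1.2 i c).shift _⟩,
    fun σ x => ?_, ?_⟩
  · have e : (x ∘ σ + fun _ => u) = (x + fun _ => u) ∘ σ := funext fun _ => rfl
    unfold tr
    rw [e, h.2.1]
  · rw [← h.2.2]
    exact integral_add_right_eq_self (fun x => ‖ψ x‖ ^ 2) fun _ => u

theorem energy_tr (v : E3 → ℝ) (u : T3 L) (ψ : Cf N L → ℂ) : energy v (tr u ψ) = energy v ψ := by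
  unfold energy
  congr 1
  · congr 1
    refine Finset.sum_congr rfl fun i _ => Finset.sum_congr rfl fun c _ => ?_
    rw [← integral_add_right_eq_self (fun x => ‖dd (dir i c) ψ x‖ ^ 2) fun _ => u]
    congr 1
    funext x
    rw [← dd_shift]
    rfl
  · rw [← integral_add_right_eq_self (fun x : Cf N L =>
      (∑ i, ∑ j, if i < j then vper v (x i - x j) else 0) * ‖ψ x‖ ^ 2) fun _ => u]
    simp only [Pi.add_apply, add_sub_add_right_eq_sub, tr]

omit [Fact (0 < L)] in
theorem Gz_tr (u : T3 L) (ψ : Cf N L → ℂ) (i : Fin N) (X : Cf N L) (z : R3) :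
    Gz (tr u ψ) i X z = Gz ψ i (X + fun _ => u) z := by
  unfold Gz tr
  rw [add_right_comm]

theorem Dz_tr (u : T3 L) (ψ : Cf N L → ℂ) (z : R3) : Dz (tr u ψ) z = Dz ψ z := by
  unfold Dz
  refine Finset.sum_congr rfl fun i _ => ?_
  simp only [Gz_tr]
  exact integral_add_right_eq_self (fun X => Gz ψ i X z) fun _ => u

theorem bm_Gz (hψ : Continuous ψ) (i : Fin N) : BM (uncurry (Gz ψ i)) := by
  have h1 : BM ψ := BM.of_cont hψ
  have h2 : Continuous fun p : Cf N L × R3 => p.1 + Pi.single i (proj L p.2) :=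
    continuous_fst.add ((continuous_single i).comp ((continuous_proj L).comp continuous_snd))
  exact (((h1.comp measurable_fst).sub (h1.comp h2.measurable)).norm).pow 2

theorem bm_Dz (hψ : Continuous ψ) : BM (Dz ψ) := by
  refine BM.sum fun i _ => BM.integral_right (Φ := fun z X => Gz ψ i X z) ?_
  exact (bm_Gz hψ i).comp measurable_swap

theorem Dz_nonneg (ψ : Cf N L → ℂ) (z : R3) : 0 ≤ Dz ψ z := by
  exact Finset.sum_nonneg fun i _ => integral_nonneg fun X => sq_nonneg _

theorem Dz_neg (ψ : Cf N L → ℂ) (z : R3) : Dz ψ (-z) = Dz ψ z := by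
  unfold Dz
  refine Finset.sum_congr rfl fun i _ => ?_
  rw [← integral_add_right_eq_self (fun X => Gz ψ i X (-z)) (Pi.single i (proj L z))]
  congr 1
  funext X
  unfold Gz
  rw [proj_neg_shift, Pi.single_neg, add_neg_cancel_right, norm_sub_rev]

theorem Dz_add (hψ : Continuous ψ) (z z' : R3) : √(Dz ψ (z + z')) ≤ √(Dz ψ z) + √(Dz ψ z') := by
  have h1 : BM ψ := BM.of_cont hψ
  have h2 : ∀ a : Cf N L, BM fun X => ψ (X + a) := fun a =>
    BM.of_cont (hψ.comp (continuous_id.add continuous_const))
  have h := mink_sum (μ := (volume : Measure (Cf N L))) (Finset.univ : Finset (Fin N))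
    (f := fun i X => ψ X - ψ (X + Pi.single i (proj L z)))
    (g := fun i X => ψ (X + Pi.single i (proj L z)) - ψ (X + Pi.single i (proj L (z + z'))))
    (fun i _ => h1.sub (h2 _)) fun i _ => (h2 _).sub (h2 _)
  have e : ∑ i : Fin N, ∫ X : Cf N L, ‖ψ (X + Pi.single i (proj L z)) -
      ψ (X + Pi.single i (proj L (z + z')))‖ ^ 2 = Dz ψ z' := by
    refine Finset.sum_congr rfl fun i _ => ?_
    rw [← integral_add_right_eq_self (fun X => Gz ψ i X z') (Pi.single i (proj L z))]
    simp only [Gz, proj_add_shift, Pi.single_add, add_assoc]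
  simp only [sub_add_sub_cancel] at h
  rw [e] at h
  exact h

theorem bm_HG (hψ : Continuous ψ) {H : R3 → ℝ} (hH : Integrable H) (i : Fin N) :
    BM fun X : Cf N L => ∫ z, H z * Gz ψ i X z := by
  obtain ⟨-, C, hC⟩ := bm_Gz hψ i
  have hc : Continuous (uncurry (Gz ψ i)) := by
    have h2 : Continuous fun p : Cf N L × R3 => p.1 + Pi.single i (proj L p.2) :=
      continuous_fst.add ((continuous_single i).comp ((continuous_proj L).comp continuous_snd))
    exact (((hψ.comp continuous_fst).sub (hψ.comp h2)).norm).pow 2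
  refine BM.of_cont (continuous_of_dominated (bound := fun z => ‖H z‖ * C) (fun X => ?_)
    (fun X => Filter.Eventually.of_forall fun z => ?_) (hH.norm.mul_const C)
    (Filter.Eventually.of_forall fun z => ?_))
  · exact hH.aestronglyMeasurable.mul
      (hc.comp (continuous_const.prodMk continuous_id)).aestronglyMeasurable
  · rw [norm_mul]
    exact mul_le_mul_of_nonneg_left (hC (X, z)) (norm_nonneg _)
  · exact continuous_const.mul (hc.comp (continuous_id.prodMk continuous_const))

theorem integral_HG (hψ : Continuous ψ) {H : R3 → ℝ} (hH : Integrable H) :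
    ∑ i, ∫ X : Cf N L, ∫ z, H z * Gz ψ i X z = ∫ z, H z * Dz ψ z := by
  have h1 : ∀ i : Fin N, Integrable (uncurry fun (X : Cf N L) (z : R3) => H z * Gz ψ i X z)
      (volume.prod volume) := by
    intro i
    obtain ⟨hm, C, hC⟩ := bm_Gz hψ i
    exact (hH.comp_snd (volume : Measure (Cf N L))).mul_bdd hm.aestronglyMeasurable
      (Filter.Eventually.of_forall hC)
  have h2 : ∀ i : Fin N, Integrable fun z : R3 => ∫ X : Cf N L, H z * Gz ψ i X z :=
    fun i => (h1 i).integral_prod_right
  simp only [fun i => integral_integral_swap (h1 i)]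
  rw [← integral_finsetSum _ fun i _ => h2 i]
  simp only [integral_const_mul, Dz, Finset.mul_sum]

end Pool.Agent.BoseLHY
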