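import Pool.Agent.Lib.MP_dec75e_mp.L.Shift

/-! Translations of the torus. -/

open MeasureTheory Finset Function
open scoped Real

noncomputable section

namespace Pool.Agent.BoseLHY

open Pool.Agent.BoseTail

variable {N : ℕ} {L : ℝ} [Fact (0 < L)]
variable {ψ : Cf N L → ℂ}

omit [Fact (0 < L)] in
theorem meas_one_shift2 (m : ℕ) (s : ℝ) : MeasurableSet {x : AddCircle L | ‖m • x‖ ≤ s} :=
  (isClosed_le (continuous_nsmul m).norm continuous_const).measurableSet

omit [Fact (0 < L)] in
theorem layT_eq_shift2 (m : ℕ) (r : ℝ) : layT (L := L) m r =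
    ⋃ c : Fin 3, (fun x : T3 L => x c) ⁻¹' {x : AddCircle L | ‖m • x‖ ≤ m * r} := by
  ext x
  simp [layT]

theorem measurableSet_layT (m : ℕ) (r : ℝ) : MeasurableSet (layT (L := L) m r) := by
  rw [layT_eq_shift2]
  exact MeasurableSet.iUnion fun c => measurable_pi_apply c (meas_one_shift2 m _)

theorem vol_one_shift2 {m : ℕ} (hm : 1 ≤ m) (s : ℝ) :
    (volume : Measure (AddCircle L)) {x : AddCircle L | ‖m • x‖ ≤ s} ≤ ENNReal.ofReal (2 * s) := by
  have hm' : (m : ℤ) ≠ 0 := by omega
  have h := (Measure.measurePreserving_zsmul (volume : Measure (AddCircle L)) hm').measure_preimage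
    (s := Metric.closedBall (0 : AddCircle L) s) Metric.isClosed_closedBall.measurableSet.nullMeasurableSet
  have e : {x : AddCircle L | ‖m • x‖ ≤ s} =
      (fun g : AddCircle L => (m : ℤ) • g) ⁻¹' Metric.closedBall (0 : AddCircle L) s := by
    ext x
    simp
  rw [e, h, AddCircle.volume_closedBall]
  exact ENNReal.ofReal_le_ofReal (min_le_right _ _)

theorem vol_slab_shift2 {m : ℕ} (hm : 1 ≤ m) {s : ℝ} (hs : 0 ≤ s) (c : Fin 3) :
    (volume : Measure (T3 L)).real ((fun x : T3 L => x c) ⁻¹' {x : AddCircle L | ‖m • x‖ ≤ s}) ≤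
      2 * s * L ^ 2 := by
  have hL : 0 < L := Lpos
  have h := congrArg (fun μ : Measure (AddCircle L) => μ {x : AddCircle L | ‖m • x‖ ≤ s})
    (Measure.pi_map_eval (fun _ : Fin 3 => (volume : Measure (AddCircle L))) c)
  simp only [Measure.smul_apply, smul_eq_mul] at h
  rw [Measure.map_apply (measurable_pi_apply c) (meas_one_shift2 m s), prod_const,
    card_erase_of_mem (mem_univ c), card_univ, Fintype.card_fin, AddCircle.measure_univ] at h
  have h2 : (volume : Measure (T3 L)) ((fun x : T3 L => x c) ⁻¹' {x : AddCircle L | ‖m • x‖ ≤ s}) ≤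
      ENNReal.ofReal (2 * s * L ^ 2) := by
    rw [volume_pi]
    refine (le_of_eq h).trans ?_
    rw [mul_comm (2 * s), ENNReal.ofReal_mul (by positivity), ENNReal.ofReal_pow hL.le]
    exact mul_le_mul_right (vol_one_shift2 hm s) _
  exact ENNReal.toReal_le_of_le_ofReal (by positivity) h2

/-- Multiplication by `m` preserves the measure of the circle. -/
theorem vol_layT {m : ℕ} (hm : 1 ≤ m) {r : ℝ} (hr : 0 ≤ r) :
    (volume : Measure (T3 L)).real (layT m r) ≤ 6 * m * r / L * L ^ 3 := by
  have hL : 0 < L := Lpos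
  rw [layT_eq_shift2]
  refine (measureReal_iUnion_fintype_le _).trans ?_
  refine (sum_le_sum fun c _ => vol_slab_shift2 hm (by positivity) c).trans (le_of_eq ?_)
  rw [sum_const, card_univ, Fintype.card_fin, nsmul_eq_mul]
  field_simp
  ring

theorem bm_ind_shift2 (m : ℕ) (r : ℝ) :
    BM ((layT (L := L) m r).indicator fun _ => (1 : ℝ)) :=
  ⟨measurable_const.indicator (measurableSet_layT m r), 1, fun x => by
    by_cases h : x ∈ layT (L := L) m r <;> simp [h]⟩

theorem layE_tr_shift2 (H : R3 → ℝ) (m : ℕ) (r : ℝ) (u : T3 L) :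
    LayE H m r (tr u ψ) = ∑ i, ∫ X : Cf N L,
      (layT m r).indicator (fun _ => (1 : ℝ)) (X i - u) * ∫ z, H z * Gz ψ i X z := by
  unfold LayE
  refine sum_congr rfl fun i _ => ?_
  rw [← integral_add_right_eq_self (μ := (volume : Measure (Cf N L)))
    (fun X : Cf N L => (layT m r).indicator (fun _ => (1 : ℝ)) (X i - u) * ∫ z, H z * Gz ψ i X z)
    (fun _ => u)]
  simp only [Gz_tr, Pi.add_apply, add_sub_cancel_right]

/-- Average over the translation and choose one which is not worse than the mean. -/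
theorem good_shift (hψ : Continuous ψ) {H : R3 → ℝ} (hH : Integrable H) (h0 : ∀ z, 0 ≤ H z)
    {m : ℕ} (hm : 1 ≤ m) {r : ℝ} (hr : 0 ≤ r) :
    ∃ u : T3 L, LayE H m r (tr u ψ) ≤ 6 * m * r / L * ∫ z, H z * Dz ψ z := by
  have hL : 0 < L := Lpos
  have hb : ∀ i : Fin N, BM (uncurry fun (u : T3 L) (X : Cf N L) =>
      (layT m r).indicator (fun _ => (1 : ℝ)) (X i - u) * ∫ z, H z * Gz ψ i X z) := fun i =>
    BM.mul (BM.comp (bm_ind_shift2 m r) (T := fun p : T3 L × Cf N L => p.2 i - p.1)
      (((measurable_pi_apply i).comp measurable_snd).sub measurable_fst))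
      (BM.comp (bm_HG hψ hH i) measurable_snd)
  have hi : ∀ i : Fin N, Integrable fun u : T3 L => ∫ X : Cf N L,
      (layT m r).indicator (fun _ => (1 : ℝ)) (X i - u) * ∫ z, H z * Gz ψ i X z := fun i =>
    (BM.integral_right (hb i)).integrable
  have hne : (volume : Measure (T3 L)) ≠ 0 := by
    intro h
    have := vol_T3 (L := L)
    rw [h] at this
    have h3 : 0 < L ^ 3 := by positivity
    simp at this
    linarith
  obtain ⟨u, hu⟩ := exists_le_average hne (integrable_finsetSum univ fun i _ => hi i)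
  refine ⟨u, ?_⟩
  rw [layE_tr_shift2]
  refine hu.trans ?_
  have hv : ∀ y : T3 L, ∫ u : T3 L, (layT m r).indicator (fun _ => (1 : ℝ)) (y - u) =
      (volume : Measure (T3 L)).real (layT m r) := fun y => by
    rw [integral_sub_left_eq_self ((layT m r).indicator fun _ => (1 : ℝ)) volume y,
      integral_indicator (measurableSet_layT m r), setIntegral_const, smul_eq_mul, mul_one]
  have hI : 0 ≤ ∫ z, H z * Dz ψ z := integral_nonneg fun z => mul_nonneg (h0 z) (Dz_nonneg ψ z)
  rw [average_eq, integral_finsetSum _ fun i _ => hi i, vol_T3, smul_eq_mul]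
  simp only [fun i => BM.swap (μ := (volume : Measure (T3 L))) (ν := (volume : Measure (Cf N L)))
    (hb i), integral_mul_const, hv, integral_const_mul]
  rw [← mul_sum, integral_HG hψ hH, ← mul_assoc]
  refine mul_le_mul_of_nonneg_right ?_ hI
  rw [inv_mul_le_iff₀ (by positivity), mul_comm]
  exact vol_layT hm hr

end Pool.Agent.BoseLHY
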