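import Pool.Agent.Lib.MP_dec75e_mp.L.Gen
import Pool.Agent.Lib.MP_dec75e_mp.L.Kin3
import Pool.Agent.Lib.MP_dec75e_mp.L.SumB

/-! Boxes smaller than the healing length. -/

open MeasureTheory Finset Function
open scoped Real

noncomputable section

namespace Pool.Agent.BoseLHY

open Pool.Agent.BoseTail

theorem gap_small {B : Box} {s : ℝ} (hs : 0 < s) (h : B.Sz s) {m : M3} (hm : m ≠ 0) :
    2 / s ^ 2 ≤ sq3 (B.p m) := by
  have h1 := (h.sq3_p hs m).1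
  have h2 := one_le_nm hm
  have h3 : (8 : ℝ) ≤ π ^ 2 := by nlinarith [Real.pi_gt_three]
  have h4 : 2 / s ^ 2 ≤ π ^ 2 / (4 * s ^ 2) := by
    rw [div_le_div_iff₀ (by positivity) (by positivity)]
    nlinarith [sq_nonneg s]
  have h5 : 0 ≤ π ^ 2 / (4 * s ^ 2) := by positivity
  nlinarith

theorem quot_small {l p s : ℝ} (hs : 0 < s) (hp : 2 / s ^ 2 ≤ p) :
    l ^ 2 / (4 * (p / 2 - 2 * (1 / (4 * s ^ 2)))) ≤ l ^ 2 / p := by
  have h0 : 0 < 2 / s ^ 2 := by positivity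
  have h1 : 2 * (1 / (4 * s ^ 2)) = (2 / s ^ 2) / 4 := by field_simp
  refine div_le_div_of_nonneg_left (sq_nonneg l) (by linarith) ?_
  rw [h1]; linarith

theorem gapH_small {C s n : ℝ} (hC : 1 ≤ C) (hs : 0 < s) (hn0 : 0 ≤ n)
    (hn : n ≤ 1 / (8 * C) * s) :
    2 * ((C / s ^ 3) ^ 2 * s ^ 2) * n ^ 2 + C / s ^ 3 * n + 0 ≤ 1 / (4 * s ^ 2) := by
  have hC0 : 0 < C := by linarith
  have h1 : C * n / s ≤ 1 / 8 := by
    rw [div_le_iff₀ hs]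
    have : C * n ≤ C * (1 / (8 * C) * s) := mul_le_mul_of_nonneg_left hn hC0.le
    have h2 : C * (1 / (8 * C) * s) = 1 / 8 * s := by field_simp
    linarith
  have h2 : 0 ≤ C * n / s := by positivity
  have h3 : 2 * ((C / s ^ 3) ^ 2 * s ^ 2) * n ^ 2 + C / s ^ 3 * n + 0 =
      (2 * (C * n / s) ^ 2 + C * n / s) / s ^ 2 := by field_simp; ring
  have h4 : 1 / (4 * s ^ 2) = (1 / 4) / s ^ 2 := by field_simp
  rw [h3, h4]
  refine div_le_div_of_nonneg_right ?_ (by positivity)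
  nlinarith

theorem fin_small {C₁ C₂ C₃ C₄ s n L l V a : ℝ} (h₁ : 1 ≤ C₁) (h₂ : 1 ≤ C₂) (h₃ : 1 ≤ C₃)
    (h₄ : 1 ≤ C₄) (hs : 0 < s) (hn0 : 0 ≤ n) (hn : n ≤ s) (hL : 0 ≤ L) (hl : l = 4 * π * a / V)
    (hl1 : l ≤ C₁ / s ^ 3) :
    2 * π * a * n ^ 2 / V - (C₁ + 2 * C₂ + C₃ + C₄) * (1 + L) * n / s ^ 3 ≤
      l * (n * (n - 1) / 2) + 0 - n * 0 -
        (C₂ * (1 + L) / s ^ 4 + C₂ * (2 * (1 / (4 * s ^ 2))) / (s ^ 2 * (((0 : ℕ) : ℝ) + 1)) +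
          (1 + L) * (C₄ / s ^ 4) + 1 * (C₃ * (((0 : ℕ) : ℝ) + 1) * (1 + L) / s ^ 4)) * n ^ 2 := by
  have e1 : 2 * π * a * n ^ 2 / V = l * n ^ 2 / 2 := by rw [hl]; ring
  have e2 : (C₂ * (1 + L) / s ^ 4 + C₂ * (2 * (1 / (4 * s ^ 2))) / (s ^ 2 * (((0 : ℕ) : ℝ) + 1)) +
          (1 + L) * (C₄ / s ^ 4) + 1 * (C₃ * (((0 : ℕ) : ℝ) + 1) * (1 + L) / s ^ 4)) * n ^ 2 =
      (C₂ * (1 + L) + C₂ / 2 + C₄ * (1 + L) + C₃ * (1 + L)) * (n / s) * (n / s ^ 3) := by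
    push_cast; field_simp; ring
  have e3 : (C₁ + 2 * C₂ + C₃ + C₄) * (1 + L) * n / s ^ 3 =
      (C₁ + 2 * C₂ + C₃ + C₄) * (1 + L) * (n / s ^ 3) := by ring
  have q1 : n / s ≤ 1 := (div_le_one hs).2 hn
  have q0 : 0 ≤ n / s ^ 3 := by positivity
  have q2 : l * n ≤ C₁ * (n / s ^ 3) := by
    have := mul_le_mul_of_nonneg_right hl1 hn0
    calc l * n ≤ C₁ / s ^ 3 * n := this
      _ = C₁ * (n / s ^ 3) := by ring
  have q3 : 0 ≤ C₂ * (1 + L) + C₂ / 2 + C₄ * (1 + L) + C₃ * (1 + L) := by positivity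
  have q4 : (C₂ * (1 + L) + C₂ / 2 + C₄ * (1 + L) + C₃ * (1 + L)) * (n / s) ≤
      (2 * C₂ + C₃ + C₄) * (1 + L) := by
    have := mul_le_of_le_one_right q3 q1
    nlinarith [mul_nonneg (by linarith : (0 : ℝ) ≤ C₂) hL]
  have q5 := mul_le_mul_of_nonneg_right q4 q0
  have q6 : 0 ≤ C₁ * (n / s ^ 3) := by positivity
  have q7 : 0 ≤ C₁ * (n / s ^ 3) * L := by positivity
  rw [e1, e2, e3]
  nlinarith

/-- `gen` with `R = 0`, `M = 0` (`Lset_zero`, `lowA_of_zero`), `γ = 1 / (4 s²)`,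
`κ m = p² / 2 - (if m = 0 then 0 else γ)`, `τ m = p² / 2 - 2 γ`, `γH = γ`, `θ = 1`, `r = 0`,
`e₄ = e₅ = Γ = 0`, `e₃ = lb² s²`; `sum_gap` with `2 γ`, `sum_slab` with `R = 0`. -/
theorem small (D : Dat) : ∃ C c s₀ : ℝ, 1 ≤ C ∧ 0 < c ∧ c ≤ 1 ∧ 1 ≤ s₀ ∧
    ∀ {ι : Type} [Fintype ι] [DecidableEq ι] (μ : ι → ProbabilityMeasure R3) (B : Box)
      (S : Finset ι) (ψ : Vs ι) (s : ℝ), s₀ ≤ s → B.Sz s → Act μ B S → Sym S ψ → C1 ψ →
      (S.card : ℝ) ≤ c * s → ∀ (χ : BF R3) (Λ : ℝ), Wgt χ → Real.log s ≤ Λ →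
      D.Cov χ B (1 + Λ)⁻¹ →
      (2 * π * D.a * (S.card : ℝ) ^ 2 / B.vol - C * (1 + Λ) * S.card / s ^ 3) *
        nq (ipB μ) ψ + nP μ B S ψ / (4 * s ^ 2) ≤ En μ S (D.W χ) ψ := by
  obtain ⟨C₁, h₁, hC₁⟩ := D.lam_bounds
  obtain ⟨C₂, s₀, h₂, hs₀, hC₂⟩ := D.sum_gap
  obtain ⟨C₃, h₃, hC₃⟩ := D.sum_slab
  obtain ⟨C₄, h₄, hC₄⟩ := D.int_bounds
  have hDC := D.hC
  have hc1 : 1 / (8 * C₁) ≤ 1 := by
    rw [div_le_one (by positivity)]; linarith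
  refine ⟨C₁ + 2 * C₂ + C₃ + C₄, 1 / (8 * C₁), s₀, by linarith, by positivity, hc1, by linarith, ?_⟩
  intro ι _ _ μ B S ψ s hs hB hA hS hψ hn χ Λ hχ hΛ hcov
  have hs1 : 1 ≤ s := by linarith
  have hs0 : 0 < s := by linarith
  have hBs : ∀ c, D.C ≤ B.s c := fun c => by linarith [(hB c).1]
  have hn0 : (0 : ℝ) ≤ S.card := Nat.cast_nonneg _
  have hns : (S.card : ℝ) ≤ s := hn.trans (mul_le_of_le_one_left hs0.le hc1)
  have hL : 0 ≤ Λ := (Real.log_nonneg hs1).trans hΛ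
  have hΛ1 : 0 < 1 + Λ := by linarith
  have hne : ∀ m : M3, High 0 m → m ≠ 0 := fun m hm => (high_iff.1 hm).1
  have hgap : ∀ m : M3, m ≠ 0 → 2 / s ^ 2 ≤ sq3 (B.p m) := fun m hm => gap_small hs0 hB hm
  have hq : 2 * (1 / (4 * s ^ 2)) = (2 / s ^ 2) / 4 := by field_simp
  have hq0 : 0 < 2 / s ^ 2 := by positivity
  have hT : HasSum (fun m : M3 => (sq3 (B.p m) / 2 - if m = 0 then 0 else 1 / (4 * s ^ 2)) *
      occ μ B S m ψ) (kin μ S ψ - 1 / (4 * s ^ 2) * nP μ B S ψ) := by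
    refine ((kin_hasSum hA hψ).sub ((hasSum_nP hA ψ).mul_left (1 / (4 * s ^ 2)))).congr_fun
      fun m => ?_
    split_ifs <;> ring
  have hlow : LowA (Lp B 0) S 0 ψ := lowA_of_zero (fun _ _ => Lp_zero) ψ
  have key := gen (R := 0) (M := 0) hA hS hlow (W := D.W χ) (G := B.symk D.g)
    (G' := B.symk D.g') (b := D.bk B (1 + Λ)) (l := D.lam B) (l' := D.lam' B)
    (κ := fun m => sq3 (B.p m) / 2 - if m = 0 then 0 else 1 / (4 * s ^ 2))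
    (τ := fun m => sq3 (B.p m) / 2 - 2 * (1 / (4 * s ^ 2))) (r := fun _ => 0)
    (lb := C₁ / s ^ 3) (b₀ := (1 + Λ) * (C₄ / s ^ 4))
    (e₁ := C₂ * (1 + Λ) / s ^ 4 +
      C₂ * (2 * (1 / (4 * s ^ 2))) / (s ^ 2 * (((0 : ℕ) : ℝ) + 1)))
    (e₂ := C₃ * (((0 : ℕ) : ℝ) + 1) * (1 + Λ) / s ^ 4)
    (e₃ := (C₁ / s ^ 3) ^ 2 * s ^ 2) (e₄ := 0) (e₅ := 0) (θ := 1) (γH := 1 / (4 * s ^ 2))
    (Γ := 0) (D.eig_g hBs) (D.eig_g' hBs) 
    (fun x hx y hy α β => D.pw B hχ (inv_pos.2 hΛ1) (inv_mul_cancel₀ hΛ1.ne').ge hcov hx hy α β)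
    (D.bk_nonneg B hΛ1.le)
    (by rw [D.int_bk]; exact mul_le_mul_of_nonneg_left (hC₄ s B hs0 hB).1 hΛ1.le) hT
    (by simpa using div_nonneg (sq3_nonneg (B.p 0)) (by norm_num : (0 : ℝ) ≤ 2))
    (by simp [Lset_zero])
    (fun m hm => by simp only [if_neg (hne m hm)]; linarith)
    (fun m hm => by have := hgap m hm; simp only [hq]; linarith)
    (fun m => (hC₁ s B hs0 hB m).1)
    (by rw [D.lam_zero]; have := B.vol_pos; have := D.ha; positivity)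
    (by simp [Lset_zero]) (by simp) (by simp)
    (fun F hF => by
      have := hC₂ s B hs hB 0 (2 * (1 / (4 * s ^ 2))) (by positivity)
        (fun m hm => by have := hgap m (hne m hm); rw [hq]; linarith) F hF
      have h9 : C₂ * (1 + Real.log s) / s ^ 4 ≤ C₂ * (1 + Λ) / s ^ 4 := by gcongr
      simp only [Lset_zero, sum_empty] at this ⊢
      linarith)
    (by positivity)
    (fun F hF => by
      refine le_trans (sum_le_sum fun m hm => quot_small hs0 (hgap m (hne m (hF m hm).1))) ?_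
      refine (hC₃ s B (by linarith) hB 0 F fun m hm => ⟨hne m (hF m hm).1, ?_⟩).trans (by gcongr)
      have := (hF m hm).2
      simpa [Bulk] using this)
    (fun m hm => by
      refine le_trans (quot_small hs0 (hgap m (hne m hm))) ?_
      have h1 := (hC₁ s B hs0 hB m).1
      have h2 : D.lam B m ^ 2 ≤ (C₁ / s ^ 3) ^ 2 := by
        rw [← sq_abs]; exact pow_le_pow_left₀ (abs_nonneg _) h1 2
      have h3 := hgap m (hne m hm)
      rw [div_le_iff₀ (by linarith)]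
      have h4 : 1 ≤ s ^ 2 * sq3 (B.p m) := by
        rw [div_le_iff₀ (by positivity)] at h3; nlinarith
      nlinarith [sq_nonneg (C₁ / s ^ 3)])
    (by positivity) (by simp [Lset_zero]) le_rfl one_pos (by simp [Lset_zero]) le_rfl
    (gapH_small h₁ hs0 hn0 hn)
  rw [Lset_zero, sum_empty] at key
  have hfin := fin_small (a := D.a) (V := B.vol) h₁ h₂ h₃ h₄ hs0 hn0 hns hL (D.lam_zero B)
    ((le_abs_self _).trans (hC₁ s B hs0 hB 0).1)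
  have hq1 := mul_le_mul_of_nonneg_right hfin ((psd_ipB μ).nq_nonneg ψ)
  have e : nP μ B S ψ / (4 * s ^ 2) = 1 / (4 * s ^ 2) * nP μ B S ψ := by ring
  unfold En
  rw [e]
  linarith

end Pool.Agent.BoseLHY
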