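import Pool.Agent.Lib.MP_dec75e_mp.L.Eigen
import Pool.Agent.Lib.MP_dec75e_mp.L.Lat

/-! Eigenvalues of the scattering kernels in a box. -/

open MeasureTheory Finset Function
open scoped Real

noncomputable section

namespace Pool.Agent.BoseLHY

open Pool.Agent.BoseTail

variable (D : Dat)

theorem Dat.g_apply_suma (z : R3) : D.g.1 z = D.w.1 z * D.f.1 z := rfl

theorem Dat.g'_apply_suma (z : R3) : D.g'.1 z = D.w.1 z * D.f.1 z * (1 - D.f.1 z) := rfl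

theorem Dat.ev_g : Ev D.g.1 := by
  intro z z' h
  rw [D.g_apply_suma, D.g_apply_suma, D.ev z z' h, D.fev z z' h]

theorem Dat.ev_g' : Ev D.g'.1 := by
  intro z z' h
  rw [D.g'_apply_suma, D.g'_apply_suma, D.ev z z' h, D.fev z z' h]

theorem Dat.supp_g : Supp D.g.1 D.C := by
  intro z hz
  rw [D.g_apply_suma, D.supp z hz, zero_mul]

theorem Dat.supp_g' : Supp D.g'.1 D.C := by
  intro z hz
  rw [D.g'_apply_suma, D.supp z hz, zero_mul, zero_mul]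

theorem Dat.g_bounds (z : R3) :
    0 ≤ D.g'.1 z ∧ D.g'.1 z ≤ D.g.1 z ∧ D.g.1 z ≤ D.w.1 z ∧
      D.g.1 z ^ 2 = D.w.1 z * (D.g.1 z - D.g'.1 z) := by
  rw [D.g_apply_suma, D.g'_apply_suma]
  have h1 := D.w0 z
  have h2 := D.f0 z
  have h3 := D.f1 z
  have h4 : 0 ≤ D.w.1 z * D.f.1 z := mul_nonneg h1 h2
  refine ⟨mul_nonneg h4 (by linarith), mul_le_of_le_one_right h4 (by linarith),
    mul_le_of_le_one_right h1 h3, by ring⟩

theorem Box.p_zero_suma (B : Box) : B.p 0 = 0 := by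
  funext c
  simp [Box.p]

theorem Dat.lam_zero (B : Box) : D.lam B 0 = 4 * π * D.a / B.vol := by
  rw [Dat.lam, B.p_zero_suma, ct_zero, ← D.int]
  rfl

theorem Dat.eig_g {B : Box} (hB : ∀ c, D.C ≤ B.s c) : B.Eig (B.symk D.g) (D.lam B) :=
  B.eig_symk D.ev_g D.supp_g hB

theorem Dat.eig_g' {B : Box} (hB : ∀ c, D.C ≤ B.s c) : B.Eig (B.symk D.g') (D.lam' B) :=
  B.eig_symk D.ev_g' D.supp_g' hB

theorem div_vol_suma {a b s v : ℝ} (hs : 0 < s) (hv : s ^ 3 / 8 ≤ v) (h : |a| ≤ b) :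
    |a / v| ≤ 8 * b / s ^ 3 := by
  have h3 : 0 < s ^ 3 / 8 := by positivity
  have hv0 : 0 < v := h3.trans_le hv
  have hb : 0 ≤ b := (abs_nonneg a).trans h
  rw [abs_div, abs_of_pos hv0]
  calc |a| / v ≤ b / (s ^ 3 / 8) := div_le_div₀ hb h h3 hv
    _ = 8 * b / s ^ 3 := by field_simp

theorem Dat.lam_bounds : ∃ C : ℝ, 1 ≤ C ∧ ∀ (s : ℝ) (B : Box), 0 < s → B.Sz s → ∀ m,
    |D.lam B m| ≤ C / s ^ 3 ∧ |D.lam B m - D.lam B 0| ≤ C * sq3 (B.p m) / s ^ 3 ∧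
      |D.lam' B m - D.lam' B 0| ≤ C * sq3 (B.p m) / s ^ 3 := by
  have hC := D.hC
  have hC0 : 0 ≤ D.C := by linarith
  have hg : ∀ z, |D.g.1 z| ≤ D.C := fun z => by
    obtain ⟨h1, h2, h3, -⟩ := D.g_bounds z
    rw [abs_of_nonneg (h1.trans h2)]
    exact h3.trans (D.wC z)
  have hg' : ∀ z, |D.g'.1 z| ≤ D.C := fun z => by
    obtain ⟨h1, h2, h3, -⟩ := D.g_bounds z
    rw [abs_of_nonneg h1]
    exact (h2.trans h3).trans (D.wC z)
  have h6 : 1 ≤ D.C ^ 6 := one_le_pow₀ hC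
  have h46 : D.C ^ 4 ≤ D.C ^ 6 := pow_le_pow_right₀ hC (by norm_num)
  refine ⟨64 * D.C ^ 6, by linarith, fun s B hs hB m => ?_⟩
  have hv := hB.vol.1
  have hq := sq3_nonneg (B.p m)
  have hs3 : 0 < s ^ 3 := by positivity
  have e1 : 8 * (4 * D.C * D.C ^ 5 * sq3 (B.p m)) / s ^ 3 ≤ 64 * D.C ^ 6 * sq3 (B.p m) / s ^ 3 := by
    refine div_le_div_of_nonneg_right ?_ hs3.le
    have : 0 ≤ D.C ^ 6 * sq3 (B.p m) := by positivity
    nlinarith
  refine ⟨?_, ?_, ?_⟩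
  · have h1 := (abs_ct_le (D.supp_g.integrable (bmOf D.g)) (B.p m)).trans
      (D.supp_g.integral_abs_le hC0 hg)
    refine (div_vol_suma hs hv h1).trans (div_le_div_of_nonneg_right ?_ hs3.le)
    nlinarith
  · rw [Dat.lam, Dat.lam, ← sub_div, B.p_zero_suma]
    exact (div_vol_suma hs hv (ct_lip (bmOf D.g) D.supp_g hC0 hg _)).trans e1
  · rw [Dat.lam', Dat.lam', ← sub_div, B.p_zero_suma]
    exact (div_vol_suma hs hv (ct_lip (bmOf D.g') D.supp_g' hC0 hg' _)).trans e1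

end Pool.Agent.BoseLHY
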