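import Pool.Agent.Lib.MP_dec75e_mp.L.Fold
import Pool.Agent.Lib.MP_dec75e_mp.L.Ct
import Pool.Agent.Lib.MP_dec75e_mp.L.Par3

/-! The symmetrised kernels are diagonal in the Neumann basis. -/

open MeasureTheory Finset Function
open scoped Real

noncomputable section

namespace Pool.Agent.BoseLHY

open Pool.Agent.BoseTail

variable (B : Box)

theorem refl_refl_unf (σ : Fin 3 → Fin 3) (y : R3) : B.refl σ (B.refl σ y) = y := by
  funext c
  simp only [Box.refl]
  split_ifs <;> ring

theorem mp_refl_unf (σ : Fin 3 → Fin 3) : MeasurePreserving (B.refl σ) volume volume := by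
  have h := volume_preserving_pi (α' := fun _ : Fin 3 => ℝ) (β' := fun _ : Fin 3 => ℝ)
    (f := fun c (t : ℝ) =>
      if σ c = 0 then t else if σ c = 1 then 2 * B.o c - t else 2 * (B.o c + B.s c) - t)
    fun c => by
      by_cases h0 : σ c = 0
      · simp only [h0, if_true]
        exact MeasurePreserving.id volume
      · by_cases h1 : σ c = 1
        · simp only [if_neg h0, if_pos h1]
          exact Measure.measurePreserving_sub_left volume _
        · simp only [if_neg h0, if_neg h1]
          exact Measure.measurePreserving_sub_left volume _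
  exact h

theorem count_unf {o s t : ℝ} (h1 : o - s < t) (h2 : t < o + 2 * s) (h3 : t ≠ o)
    (h4 : t ≠ o + s) :
    ∑ k : Fin 3, (Set.Ico o (o + s)).indicator (fun _ => (1 : ℝ))
      (if k = 0 then t else if k = 1 then 2 * o - t else 2 * (o + s) - t) = 1 := by
  rw [Fin.sum_univ_three, if_pos rfl, if_neg (by decide), if_pos rfl, if_neg (by decide),
    if_neg (by decide)]
  rcases lt_or_gt_of_ne h3 with h3 | h3
  · rw [Set.indicator_of_notMem (fun h => by linarith [h.1]),
      Set.indicator_of_mem (Set.mem_Ico.2 ⟨by linarith, by linarith⟩),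
      Set.indicator_of_notMem (fun h => by linarith [h.2])]
    norm_num
  · rcases lt_or_gt_of_ne h4 with h4 | h4
    · rw [Set.indicator_of_mem (Set.mem_Ico.2 ⟨by linarith, by linarith⟩),
        Set.indicator_of_notMem (fun h => by linarith [h.1]),
        Set.indicator_of_notMem (fun h => by linarith [h.2])]
      norm_num
    · rw [Set.indicator_of_notMem (fun h => by linarith [h.2]),
        Set.indicator_of_notMem (fun h => by linarith [h.1]),
        Set.indicator_of_mem (Set.mem_Ico.2 ⟨by linarith, by linarith⟩)]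
      norm_num

theorem ind_set_unf (x : R3) : B.set.indicator (fun _ => (1 : ℝ)) x =
    ∏ c, (Set.Ico (B.o c) (B.o c + B.s c)).indicator (fun _ => (1 : ℝ)) (x c) := by
  by_cases hx : x ∈ B.set
  · rw [Set.indicator_of_mem hx]
    exact (Finset.prod_eq_one fun c _ => Set.indicator_of_mem (hx c (Set.mem_univ c)) _).symm
  · rw [Set.indicator_of_notMem hx]
    have h : ∃ c, x c ∉ Set.Ico (B.o c) (B.o c + B.s c) := by
      by_contra h
      exact hx fun c _ => by_contra fun hc => h ⟨c, hc⟩
    obtain ⟨c, hc⟩ := h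
    exact (Finset.prod_eq_zero (Finset.mem_univ c) (Set.indicator_of_notMem hc _)).symm

/-- Unfolding: the 27 mirror images of the box cover, up to a null set, the box with the same
centre and three times the sides. -/
theorem Box.unfold {F : R3 → ℝ} (hF : Integrable F)
    (h0 : ∀ y, (∃ c, y c < B.o c - B.s c ∨ B.o c + 2 * B.s c < y c) → F y = 0) :
    ∑ σ : Fin 3 → Fin 3, ∫ y in B.set, F (B.refl σ y) = ∫ y, F y := by
  have hm : ∀ σ : Fin 3 → Fin 3, MeasurableSet (B.refl σ ⁻¹' B.set) := fun σ =>
    (B.continuous_refl σ).measurable B.measurableSet_set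
  have h1 : ∀ σ : Fin 3 → Fin 3, ∫ y in B.set, F (B.refl σ y) =
      ∫ y, (B.refl σ ⁻¹' B.set).indicator F y := by
    intro σ
    have he : MeasurableEmbedding (B.refl σ) :=
      (MeasurableEquiv.ofInvolutive (B.refl σ) (refl_refl_unf B σ)
        (B.continuous_refl σ).measurable).measurableEmbedding
    rw [← (mp_refl_unf B σ).integral_comp he, ← integral_indicator B.measurableSet_set]
    refine integral_congr_ae (Filter.Eventually.of_forall fun y => ?_)
    by_cases hy : y ∈ B.set
    · simp only []
      rw [Set.indicator_of_mem hy, Set.indicator_of_mem]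
      rwa [Set.mem_preimage, refl_refl_unf]
    · simp only []
      rw [Set.indicator_of_notMem hy, Set.indicator_of_notMem]
      rwa [Set.mem_preimage, refl_refl_unf]
  rw [Finset.sum_congr rfl fun σ _ => h1 σ,
    ← integral_finsetSum _ fun σ _ => hF.indicator (hm σ)]
  have hne : ∀ a : R3, ∀ᵐ y : R3, ∀ c, y c ≠ a c := fun a =>
    ae_all_iff.2 fun c => Measure.ae_eval_ne (fun _ : Fin 3 => (volume : Measure ℝ)) c (a c)
  refine integral_congr_ae ?_
  filter_upwards [hne fun c => B.o c - B.s c, hne B.o, hne fun c => B.o c + B.s c,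
    hne fun c => B.o c + 2 * B.s c] with y a1 a2 a3 a4
  have h2 : ∀ σ : Fin 3 → Fin 3, (B.refl σ ⁻¹' B.set).indicator F y =
      B.set.indicator (fun _ => (1 : ℝ)) (B.refl σ y) * F y := by
    intro σ
    by_cases hy : B.refl σ y ∈ B.set
    · rw [Set.indicator_of_mem hy, Set.indicator_of_mem (Set.mem_preimage.2 hy), one_mul]
    · rw [Set.indicator_of_notMem hy, Set.indicator_of_notMem (mt Set.mem_preimage.1 hy), zero_mul]
  rw [Finset.sum_congr rfl fun σ _ => h2 σ, ← Finset.sum_mul]
  by_cases hy : ∃ c, y c < B.o c - B.s c ∨ B.o c + 2 * B.s c < y c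
  · rw [h0 y hy, mul_zero]
  · have h3 : ∀ c, B.o c - B.s c < y c ∧ y c < B.o c + 2 * B.s c := fun c =>
      ⟨lt_of_le_of_ne (not_lt.1 fun h => hy ⟨c, Or.inl h⟩) (a1 c).symm,
        lt_of_le_of_ne (not_lt.1 fun h => hy ⟨c, Or.inr h⟩) (a4 c)⟩
    have h4 := Finset.prod_univ_sum (fun _ : Fin 3 => (Finset.univ : Finset (Fin 3)))
      fun c k => (Set.Ico (B.o c) (B.o c + B.s c)).indicator (fun _ => (1 : ℝ))
        (if k = 0 then y c else if k = 1 then 2 * B.o c - y c else 2 * (B.o c + B.s c) - y c)
    rw [Finset.prod_eq_one fun c _ => count_unf (h3 c).1 (h3 c).2 (a2 c) (a3 c),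
      Fintype.piFinset_univ] at h4
    simp only [ind_set_unf]
    exact (congrArg (· * F y) h4.symm).trans (one_mul _)

end Pool.Agent.BoseLHY
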